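import Pool.Agent.Lib.TwoPaths.Defs

/-!
# D1: concentration of U-statistics (counting form)

`F : (Fin m → V) → [0,1]` with `∑ F ≤ μ n^m`, `n = |V| > 0`.  For `S : Fin s → V` let
`U(S) = ∑_ω F (S ∘ ω)` over the injective `ω : Fin m → Fin s`; there are
`(s)_m = s.descFactorial m` of them.  Claim: for `m ≤ s`, `1 ≤ m`, `0 < ε ≤ 1`, `0 ≤ μ`, the number of
`S` with `U(S) ≥ (μ + ε) (s)_m` is at most `(2/ε) exp(-(ε²/16) ⌊s/m⌋) n^s`.

PROOF. If `μ > 1` there are no such `S` (`F ≤ 1`).  Let `μ ≤ 1` and `k = ⌊s/m⌋ ≥ 1`.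

Block bound: for `Y : Fin k → (Fin m → V)` uniformly distributed, the number of `Y` with
`∑_t F (Y t) ≥ k (μ + ε/2)` is at most `exp(-k ε²/16) (n^m)^k`: this is `chernoff` for the type
`Fin m → V` (of cardinality `n^m`), `z = F`, `κ = μ`, `τ = k (μ + ε/2)`, `t = ε/4 ≤ 1`, because
`e^t - 1 ≤ t + t²`, so `(e^t - 1) μ k - t k (μ + ε/2) ≤ k (t² - t ε/2) = -k ε²/16`.

For `S : Fin s → V` let `Bl(S) = ∑_{t<k} F (fun i => S (t m + i))`.  As `S ↦ (blocks, the remaining
s - k m entries)` is a bijection `(Fin s → V) ≃ (Fin k → Fin m → V) × (Fin (s - k m) → V)`, the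
number of `S` with `Bl(S) ≥ k (μ + ε/2)` is at most `exp(-k ε²/16) n^s`.  For a permutation `π` of
`Fin s` the same bound holds for `Bl(S ∘ π)` (`S ↦ S ∘ π` is a bijection).

Averaging: for every `S`, `∑_π Bl(S ∘ π) = ∑_{t<k} ∑_π F (S ∘ π ∘ blk_t)` with
`blk_t i = t m + i` injective; the map `π ↦ π ∘ blk_t` from permutations to injections
`Fin m → Fin s` has all fibres of the same size `(s-m)! = s!/(s)_m` (the group acts transitively on
injections).  Hence `∑_π Bl(S ∘ π) = k (s!/(s)_m) U(S)`.  If `U(S) ≥ (μ + ε)(s)_m` then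
`∑_π Bl(S ∘ π) ≥ k (μ + ε) s!`; as `Bl ≤ k`, the number `N(S)` of `π` with
`Bl(S ∘ π) ≥ k (μ + ε/2)` satisfies `k (μ+ε) s! ≤ N k + s! k (μ + ε/2)`, i.e. `N ≥ (ε/2) s!`.
Double counting: `(ε/2) s! · #{S : U(S) ≥ (μ+ε)(s)_m} ≤ ∑_π #{S : Bl(S∘π) ≥ k(μ+ε/2)}
≤ s! exp(-k ε²/16) n^s`.
-/

namespace Pool.Agent.Lib.TwoPaths

open Finset
open Pool.Agent.Lib.MP_952639_co

section

variable {V : Type*} [Fintype V] [DecidableEq V]

/-- The bound for one arrangement of the blocks. -/
private lemma cnt_block (hV : 0 < Fintype.card V) {k m s : ℕ} (e : Fin k × Fin m → Fin s)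
    (he : Function.Injective e) (F : (Fin m → V) → ℝ) (h0 : ∀ x, 0 ≤ F x) (h1 : ∀ x, F x ≤ 1)
    (μ ε : ℝ) (hμ : 0 ≤ μ) (hμ1 : μ ≤ 1) (hε : 0 < ε) (hε1 : ε ≤ 1)
    (hF : ∑ x, F x ≤ μ * (Fintype.card V : ℝ) ^ m) :
    cnt (fun S : Fin s → V => (k : ℝ) * (μ + ε / 2) ≤
        ∑ t : Fin k, F (fun i => S (e (t, i)))) ≤
      Real.exp (-((k : ℝ) * ε ^ 2 / 16)) * (Fintype.card V : ℝ) ^ s := by
  classical
  have hinj : Function.Injective (fun j : Fin (k * m) => e (finProdFinEquiv.symm j)) :=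
    he.comp (Equiv.injective _)
  refine cnt_cond' hV (fun j : Fin (k * m) => e (finProdFinEquiv.symm j)) hinj _ _ ?_
  intro S
  have hval : ∀ (y : Fin (k * m) → V) (t : Fin k) (i : Fin m),
      Function.extend (fun j : Fin (k * m) => e (finProdFinEquiv.symm j)) y S (e (t, i)) =
        y (finProdFinEquiv (t, i)) := by
    intro y t i
    have := hinj.extend_apply y S (finProdFinEquiv (t, i))
    simpa using this
  simp only [hval]
  have hcard : ((Fintype.card (Fin m → V) : ℕ) : ℝ) = (Fintype.card V : ℝ) ^ m := by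
    rw [Fintype.card_fun, Fintype.card_fin, Nat.cast_pow]
  have h2 := chernoff (V := Fin m → V) F h0 h1 μ hμ (by rw [hcard]; exact hF) (ε / 4)
    (by positivity) k ((k : ℝ) * (μ + ε / 2))
  have h3 : cnt (fun y : Fin (k * m) → V => (k : ℝ) * (μ + ε / 2) ≤
      ∑ t : Fin k, F (fun i => y (finProdFinEquiv (t, i)))) ≤
      cnt (fun Y : Fin k → (Fin m → V) => (k : ℝ) * (μ + ε / 2) ≤ ∑ t, F (Y t)) := by
    rw [cnt_eq, cnt_eq]
    have h4 : (univ.filter fun y : Fin (k * m) → V => (k : ℝ) * (μ + ε / 2) ≤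
        ∑ t : Fin k, F (fun i => y (finProdFinEquiv (t, i)))).card ≤
        (univ.filter fun Y : Fin k → (Fin m → V) =>
          (k : ℝ) * (μ + ε / 2) ≤ ∑ t, F (Y t)).card := by
      apply card_le_card_of_injOn (fun y t i => y (finProdFinEquiv (t, i)))
      · intro y hy
        rw [mem_coe, mem_filter] at hy ⊢
        exact ⟨mem_univ _, hy.2⟩
      · intro y _ y' _ h
        funext j
        have h9 : y (finProdFinEquiv ((finProdFinEquiv.symm j).1, (finProdFinEquiv.symm j).2)) =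
            y' (finProdFinEquiv ((finProdFinEquiv.symm j).1, (finProdFinEquiv.symm j).2)) :=
          congrFun (congrFun h (finProdFinEquiv.symm j).1) (finProdFinEquiv.symm j).2
        rw [Prod.mk.eta, Equiv.apply_symm_apply] at h9
        exact h9
    exact_mod_cast h4
  refine h3.trans (h2.trans ?_)
  rw [hcard, ← pow_mul, mul_comm m k]
  refine mul_le_mul_of_nonneg_right ?_ (by positivity)
  apply Real.exp_le_exp.mpr
  have hexp : Real.exp (ε / 4) - 1 ≤ ε / 4 + (ε / 4) ^ 2 := by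
    have := Real.abs_exp_sub_one_sub_id_le (x := ε / 4) (by
      rw [abs_of_nonneg (by positivity)]; linarith)
    have h5 := (abs_le.mp this).2
    linarith
  have hk : (0 : ℝ) ≤ k := Nat.cast_nonneg k
  have h6 : (Real.exp (ε / 4) - 1) * μ * k ≤ (ε / 4 + (ε / 4) ^ 2) * μ * k := by
    gcongr
  have h7 : (ε / 4) ^ 2 * μ * k ≤ (ε / 4) ^ 2 * 1 * k := by
    gcongr
  nlinarith

/-- All fibres of `π ↦ π ∘ j` over injective maps have the same size. -/
private lemma fibre_eq {m s : ℕ} (j : Fin m → Fin s) (ω ω' : Fin m → Fin s)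
    (hω : Function.Injective ω) (hω' : Function.Injective ω') :
    (univ.filter fun π : Equiv.Perm (Fin s) => π ∘ j = ω).card =
      (univ.filter fun π : Equiv.Perm (Fin s) => π ∘ j = ω').card := by
  classical
  obtain ⟨σ, hσ⟩ : ∃ σ : Equiv.Perm (Fin s), σ ∘ ω = ω' := by
    let e : {x // x ∈ Set.range ω} ≃ {x // x ∈ Set.range ω'} :=
      (Equiv.ofInjective ω hω).symm.trans (Equiv.ofInjective ω' hω')
    refine ⟨e.extendSubtype, ?_⟩
    funext i
    have hi : ω i ∈ Set.range ω := ⟨i, rfl⟩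
    rw [Function.comp_apply, Equiv.extendSubtype_apply_of_mem _ _ hi]
    have : (Equiv.ofInjective ω hω).symm ⟨ω i, hi⟩ = i := by
      rw [Equiv.symm_apply_eq]
      rfl
    simp only [e, Equiv.trans_apply, this]
    rfl
  apply card_bij (fun π _ => σ * π)
  · intro π hπ
    rw [mem_filter] at hπ ⊢
    refine ⟨mem_univ _, ?_⟩
    rw [← hσ, ← hπ.2]
    rfl
  · intro π _ π' _ h
    exact mul_left_cancel h
  · intro π hπ
    rw [mem_filter] at hπ
    refine ⟨σ⁻¹ * π, ?_, by simp⟩
    rw [mem_filter]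
    refine ⟨mem_univ _, ?_⟩
    funext i
    have h1 := congrFun hπ.2 i
    have h2 := congrFun hσ i
    simp only [Function.comp_apply] at h1 h2 ⊢
    rw [Equiv.Perm.mul_apply, h1, ← h2]
    simp

private lemma card_inj (m s : ℕ) :
    (univ.filter fun ω : Fin m → Fin s => Function.Injective ω).card = s.descFactorial m := by
  classical
  rw [← Fintype.card_subtype, Fintype.card_congr (Equiv.subtypeInjectiveEquivEmbedding _ _),
    Fintype.card_embedding_eq, Fintype.card_fin, Fintype.card_fin]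

/-- Averaging over permutations. -/
private lemma sum_perm {m s : ℕ} (j : Fin m → Fin s) (hj : Function.Injective j)
    (G : (Fin m → Fin s) → ℝ) :
    (s.descFactorial m : ℝ) * ∑ π : Equiv.Perm (Fin s), G (π ∘ j) =
      (s.factorial : ℝ) * ∑ ω ∈ univ.filter (fun ω : Fin m → Fin s => Function.Injective ω),
        G ω := by
  classical
  set I := univ.filter (fun ω : Fin m → Fin s => Function.Injective ω) with hI
  have hmaps : ∀ π ∈ (univ : Finset (Equiv.Perm (Fin s))), π ∘ j ∈ I := by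
    intro π _
    rw [hI, mem_filter]
    exact ⟨mem_univ _, π.injective.comp hj⟩
  have hjI : j ∈ I := by rw [hI, mem_filter]; exact ⟨mem_univ _, hj⟩
  set N := (univ.filter fun π : Equiv.Perm (Fin s) => π ∘ j = j).card with hN
  have hfib : ∀ ω ∈ I, (univ.filter fun π : Equiv.Perm (Fin s) => π ∘ j = ω).card = N := by
    intro ω hω
    rw [hI, mem_filter] at hω
    exact fibre_eq j ω j hω.2 hj
  have hcount : s.factorial = s.descFactorial m * N := by
    have h1 := card_eq_sum_card_fiberwise hmaps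
    rw [sum_congr rfl hfib, sum_const, smul_eq_mul, hI, card_inj, card_univ,
      Fintype.card_perm, Fintype.card_fin] at h1
    exact h1
  have hsum : ∑ π : Equiv.Perm (Fin s), G (π ∘ j) = (N : ℝ) * ∑ ω ∈ I, G ω := by
    rw [← sum_fiberwise_of_maps_to hmaps, mul_sum]
    refine sum_congr rfl fun ω hω => ?_
    rw [sum_congr rfl (g := fun _ => G ω) (by
      intro π hπ
      rw [mem_filter] at hπ
      rw [hπ.2]), sum_const, nsmul_eq_mul, hfib ω hω]
  rw [hsum, hcount]
  push_cast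
  ring

end

open Classical in
theorem ustat {V : Type*} [Fintype V] [DecidableEq V] (hV : 0 < Fintype.card V) (m s : ℕ)
    (hm : 1 ≤ m) (hms : m ≤ s) (F : (Fin m → V) → ℝ) (h0 : ∀ x, 0 ≤ F x) (h1 : ∀ x, F x ≤ 1)
    (μ ε : ℝ) (hμ : 0 ≤ μ) (hε : 0 < ε) (hε1 : ε ≤ 1)
    (hF : ∑ x, F x ≤ μ * (Fintype.card V : ℝ) ^ m) :
    cnt (fun S : Fin s → V => (μ + ε) * (s.descFactorial m : ℝ) ≤
        ∑ ω ∈ univ.filter (fun ω : Fin m → Fin s => Function.Injective ω), F (S ∘ ω)) ≤
      2 / ε * Real.exp (-((s / m : ℕ) * ε ^ 2 / 16)) * (Fintype.card V : ℝ) ^ s := by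
  have hn : (0 : ℝ) < Fintype.card V := by exact_mod_cast hV
  have hD : (0 : ℝ) < (s.descFactorial m : ℝ) := by
    exact_mod_cast Nat.descFactorial_pos.mpr hms
  have hUle : ∀ S : Fin s → V,
      ∑ ω ∈ univ.filter (fun ω : Fin m → Fin s => Function.Injective ω), F (S ∘ ω) ≤
        (s.descFactorial m : ℝ) := by
    intro S
    calc _ ≤ ∑ _ω ∈ univ.filter (fun ω : Fin m → Fin s => Function.Injective ω), (1 : ℝ) :=
          sum_le_sum fun ω _ => h1 _
      _ = _ := by
          rw [sum_const, nsmul_eq_mul, mul_one]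
          congr 1
          convert card_inj m s
  rcases le_or_gt μ 1 with hμ1 | hμ1
  swap
  · have hz : cnt (fun S : Fin s → V => (μ + ε) * (s.descFactorial m : ℝ) ≤
        ∑ ω ∈ univ.filter (fun ω : Fin m → Fin s => Function.Injective ω), F (S ∘ ω)) = 0 := by
      rw [cnt_eq, Nat.cast_eq_zero, card_eq_zero, filter_eq_empty_iff]
      intro S _ hS
      have := hUle S
      nlinarith
    rw [hz]
    positivity
  -- blocks
  set k := s / m with hk
  have hk1 : 1 ≤ k := (Nat.one_le_div_iff (by omega)).mpr hms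
  have hkR : (1 : ℝ) ≤ k := by exact_mod_cast hk1
  have hkm : k * m ≤ s := Nat.div_mul_le_self s m
  let blk : Fin k × Fin m → Fin s := fun p => Fin.castLE hkm (finProdFinEquiv p)
  have hblk : Function.Injective blk := (Fin.castLE_injective hkm).comp (Equiv.injective _)
  set τ : ℝ := (k : ℝ) * (μ + ε / 2) with hτ
  let Bl : (Fin s → V) → Equiv.Perm (Fin s) → ℝ := fun S π =>
    ∑ t : Fin k, F (fun i => S (π (blk (t, i))))
  set b : ℝ := Real.exp (-((k : ℝ) * ε ^ 2 / 16)) * (Fintype.card V : ℝ) ^ s with hb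
  have hbound : ∀ π : Equiv.Perm (Fin s),
      ((univ.filter fun S : Fin s → V => τ ≤ Bl S π).card : ℝ) ≤ b := by
    intro π
    have := cnt_block hV (fun p => π (blk p)) (π.injective.comp hblk) F h0 h1 μ ε hμ hμ1 hε
      hε1 hF
    rw [cnt_eq] at this
    exact this
  set A := univ.filter (fun S : Fin s → V => (μ + ε) * (s.descFactorial m : ℝ) ≤
        ∑ ω ∈ univ.filter (fun ω : Fin m → Fin s => Function.Injective ω), F (S ∘ ω)) with hA
  have hAcnt : cnt (fun S : Fin s → V => (μ + ε) * (s.descFactorial m : ℝ) ≤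
        ∑ ω ∈ univ.filter (fun ω : Fin m → Fin s => Function.Injective ω), F (S ∘ ω)) =
      (A.card : ℝ) := by
    rw [cnt_eq]
  have hBk : ∀ S π, Bl S π ≤ k := by
    intro S π
    calc Bl S π ≤ ∑ _t : Fin k, (1 : ℝ) := sum_le_sum fun t _ => h1 _
      _ = k := by simp
  have hfac : (0 : ℝ) < (s.factorial : ℝ) := by exact_mod_cast Nat.factorial_pos s
  have hmany : ∀ S ∈ A, ε / 2 * (s.factorial : ℝ) ≤
      ((univ.filter fun π : Equiv.Perm (Fin s) => τ ≤ Bl S π).card : ℝ) := by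
    intro S hS
    rw [hA, mem_filter] at hS
    have hS2 := hS.2
    set U := ∑ ω ∈ univ.filter (fun ω : Fin m → Fin s => Function.Injective ω), F (S ∘ ω)
      with hU
    have hsum : (s.descFactorial m : ℝ) * ∑ π, Bl S π = (k : ℝ) * ((s.factorial : ℝ) * U) := by
      have e1 : ∑ π, Bl S π = ∑ t : Fin k, ∑ π : Equiv.Perm (Fin s),
          (fun ω : Fin m → Fin s => F (S ∘ ω)) (π ∘ fun i => blk (t, i)) := by
        simp only [Bl]
        rw [sum_comm]
        rfl
      rw [e1, mul_sum]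
      have e2 : ∀ t ∈ (univ : Finset (Fin k)), (s.descFactorial m : ℝ) *
          ∑ π : Equiv.Perm (Fin s),
            (fun ω : Fin m → Fin s => F (S ∘ ω)) (π ∘ fun i => blk (t, i)) =
          (s.factorial : ℝ) * U := by
        intro t _
        rw [sum_perm (fun i => blk (t, i)) (by
          intro i i' h
          have := hblk h
          exact (Prod.mk.inj this).2) (fun ω : Fin m → Fin s => F (S ∘ ω))]
      rw [sum_congr rfl e2, sum_const, nsmul_eq_mul, card_univ, Fintype.card_fin]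
    have hge : (k : ℝ) * (μ + ε) * (s.factorial : ℝ) ≤ ∑ π, Bl S π := by
      have h2 : (s.descFactorial m : ℝ) * ((k : ℝ) * (μ + ε) * (s.factorial : ℝ)) ≤
          (s.descFactorial m : ℝ) * ∑ π, Bl S π := by
        rw [hsum]
        have h3 : (0 : ℝ) ≤ (k : ℝ) * (s.factorial : ℝ) := by positivity
        nlinarith [mul_le_mul_of_nonneg_left hS2 h3]
      exact le_of_mul_le_mul_left h2 hD
    set Q := univ.filter (fun π : Equiv.Perm (Fin s) => τ ≤ Bl S π) with hQ
    have hτ0 : 0 ≤ τ := by rw [hτ]; positivity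
    have hle : ∑ π, Bl S π ≤ (Q.card : ℝ) * k + (s.factorial : ℝ) * τ := by
      rw [← sum_filter_add_sum_filter_not univ (fun π => τ ≤ Bl S π)]
      refine add_le_add ?_ ?_
      · calc _ ≤ ∑ _π ∈ Q, (k : ℝ) := sum_le_sum fun π _ => hBk S π
          _ = _ := by rw [sum_const, nsmul_eq_mul]
      · calc _ ≤ ∑ _π ∈ univ.filter (fun π => ¬ τ ≤ Bl S π), τ := by
              refine sum_le_sum fun π hπ => ?_
              rw [mem_filter] at hπ
              exact (not_le.mp hπ.2).le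
          _ ≤ ∑ _π : Equiv.Perm (Fin s), τ :=
              sum_le_sum_of_subset_of_nonneg (filter_subset _ _) fun _ _ _ => hτ0
          _ = _ := by
              rw [sum_const, nsmul_eq_mul, card_univ, Fintype.card_perm, Fintype.card_fin]
    have hfin : (k : ℝ) * (ε / 2 * (s.factorial : ℝ)) ≤ (k : ℝ) * (Q.card : ℝ) := by
      have := hge.trans hle
      rw [hτ] at this
      nlinarith
    exact le_of_mul_le_mul_left hfin (by linarith)
  have hdouble : (A.card : ℝ) * (ε / 2 * (s.factorial : ℝ)) ≤ (s.factorial : ℝ) * b := by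
    calc (A.card : ℝ) * (ε / 2 * (s.factorial : ℝ))
        = ∑ _S ∈ A, (ε / 2 * (s.factorial : ℝ)) := by rw [sum_const, nsmul_eq_mul]
      _ ≤ ∑ S ∈ A, ((univ.filter fun π : Equiv.Perm (Fin s) => τ ≤ Bl S π).card : ℝ) :=
          sum_le_sum hmany
      _ ≤ ∑ S : Fin s → V, ((univ.filter fun π : Equiv.Perm (Fin s) => τ ≤ Bl S π).card : ℝ) :=
          sum_le_sum_of_subset_of_nonneg (subset_univ _) fun _ _ _ => Nat.cast_nonneg _
      _ = ∑ π : Equiv.Perm (Fin s), ((univ.filter fun S : Fin s → V => τ ≤ Bl S π).card : ℝ) := by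
          simp only [card_filter, Nat.cast_sum]
          rw [sum_comm]
      _ ≤ ∑ _π : Equiv.Perm (Fin s), b := sum_le_sum fun π _ => hbound π
      _ = _ := by
          rw [sum_const, nsmul_eq_mul, card_univ, Fintype.card_perm, Fintype.card_fin]
  rw [hAcnt]
  have hfinal : (A.card : ℝ) * (ε / 2) ≤ b := by
    have : (s.factorial : ℝ) * ((A.card : ℝ) * (ε / 2)) ≤ (s.factorial : ℝ) * b := by
      linarith
    exact le_of_mul_le_mul_left this hfac
  have h8 : 2 / ε * Real.exp (-((k : ℕ) * ε ^ 2 / 16)) * (Fintype.card V : ℝ) ^ s =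
      2 / ε * b := by
    rw [hb]; ring
  rw [h8]
  rw [div_mul_eq_mul_div, le_div_iff₀ hε]
  linarith

end Pool.Agent.Lib.TwoPaths
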