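import Pool.Agent.Lib.TwoPaths.D1

/-!
# D2: sample events depending on two index tuples

`rest a b` is the set of indices of the sample not used by `a, b : Fin r → Fin s`.

(general_event) For every pair `x, y` of `r`-tuples let `F x y : (Fin m → V) → [0,1]` with
`∑ F x y ≤ μ x y n^m`, `0 ≤ μ x y ≤ 1`.  If `s` is large (in terms of `r, m, ε, ζ`) then at most `ζ n^s`
samples `S : Fin s → V` have index tuples `a, b` with
`∑_{ω : Fin m → Fin s injective, into rest a b} F (S∘a) (S∘b) (S∘ω) ≥ (μ (S∘a) (S∘b) + ε) s^m`.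

PROOF. WLOG `ε ≤ 1` (replace by `min ε 1`).  Union bound (`cnt_exists`) over the `s^(2r)` pairs `(a, b)`.  Fix `(a, b)`, let
`k = |rest a b| ≥ s - 2r` and `d : Fin k → Fin s` injective with image `rest a b`
(`exists_order`).  By `cnt_cond'` with `d` it suffices to bound, for fixed `S`, the number of
`y : Fin k → V` such that `extend d y S` has the property; `S ∘ a`, `S ∘ b` do not change
(`extend_comp_of_disjoint`), `ω` runs over `d ∘ ω'`, `ω' : Fin m → Fin k` injective, and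
`(extend d y S) ∘ d ∘ ω' = y ∘ ω'`.  As `s^m ≥ (k)_m`, the event implies (for `k ≥ m`)
`∑_{ω'} F (y ∘ ω') ≥ (μ + ε)(k)_m`, whose count is at most `(2/ε) exp(-⌊k/m⌋ ε²/16) n^k` by
`ustat`.  Choose `s₀` with `s^(2r) (2/ε) exp(-⌊(s-2r)/m⌋ ε²/16) ≤ ζ` and `s ≥ 2r + m` for all
`s ≥ s₀` (exponential beats polynomial; `⌊(s-2r)/m⌋ ≥ (s - 2r)/m - 1`).

(rare_event) If for all `x, y` the set `Bad x y` of `m`-tuples has at most `β n^m` elements, then at
most `s^r s^r s^m β n^s` samples have `a, b, d` (`d` injective into `rest a b`) with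
`Bad (S∘a) (S∘b) (S∘d)`: union bound, and `cnt_cond'` with `d` (compare `cnt_E5`).
-/

namespace Pool.Agent.Lib.TwoPaths

open Finset
open Pool.Agent.Lib.MP_952639_co

private theorem card_rest_ge {r s : ℕ} (a b : Fin r → Fin s) : s - 2 * r ≤ (rest a b).card := by
  classical
  unfold rest
  rw [card_sdiff_of_subset (subset_univ _), card_univ, Fintype.card_fin]
  have h1 := card_union_le (univ.image a) (univ.image b)
  have h2 : (univ.image a).card ≤ r := card_image_le.trans (by simp)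
  have h3 : (univ.image b).card ≤ r := card_image_le.trans (by simp)
  omega

open Classical in
private theorem sum_reindex {r m s k : ℕ} {a b : Fin r → Fin s} {d : Fin k → Fin s}
    (hd : Function.Injective d) (hdi : univ.image d = rest a b) (G : (Fin m → Fin s) → ℝ) :
    ∑ ω ∈ univ.filter (fun ω : Fin m → Fin s => Function.Injective ω ∧
        ∀ i, ω i ∈ rest a b), G ω =
      ∑ ω ∈ univ.filter (fun ω : Fin m → Fin k => Function.Injective ω), G (d ∘ ω) := by
  have h : univ.filter (fun ω : Fin m → Fin s => Function.Injective ω ∧ ∀ i, ω i ∈ rest a b) =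
      (univ.filter (fun ω : Fin m → Fin k => Function.Injective ω)).image (fun ω => d ∘ ω) := by
    ext ω
    simp only [mem_filter, mem_univ, true_and, mem_image]
    constructor
    · rintro ⟨h1, h2⟩
      have h3 : ∀ i, ∃ j, d j = ω i := by
        intro i
        have := h2 i
        rw [← hdi, mem_image] at this
        obtain ⟨j, -, hj⟩ := this
        exact ⟨j, hj⟩
      choose f hf using h3
      refine ⟨f, ?_, funext hf⟩
      intro x y hxy
      apply h1
      rw [← hf x, ← hf y, hxy]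
    · rintro ⟨f, hf, rfl⟩
      refine ⟨hd.comp hf, fun i => ?_⟩
      rw [← hdi]
      exact mem_image_of_mem _ (mem_univ _)
  rw [h, sum_image]
  intro x _ y _ hxy
  funext i
  exact hd (congrFun hxy i)

open Classical in
private theorem fixed_pair {V : Type} [Fintype V] [DecidableEq V] (hV : 0 < Fintype.card V)
    {r m s : ℕ} (hm : 1 ≤ m) (hs : 2 * r + m ≤ s) (ε : ℝ) (hε : 0 < ε) (hε1 : ε ≤ 1)
    (F : (Fin r → V) → (Fin r → V) → (Fin m → V) → ℝ) (μ : (Fin r → V) → (Fin r → V) → ℝ)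
    (h0 : ∀ x y w, 0 ≤ F x y w) (h1 : ∀ x y w, F x y w ≤ 1) (hμ : ∀ x y, 0 ≤ μ x y)
    (hF : ∀ x y, ∑ w, F x y w ≤ μ x y * (Fintype.card V : ℝ) ^ m) (a b : Fin r → Fin s) :
    cnt (fun S : Fin s → V => (μ (S ∘ a) (S ∘ b) + ε) * (s : ℝ) ^ m ≤
          ∑ ω ∈ univ.filter (fun ω : Fin m → Fin s => Function.Injective ω ∧
            ∀ i, ω i ∈ rest a b), F (S ∘ a) (S ∘ b) (S ∘ ω)) ≤
      (2 / ε * Real.exp (-((((s - 2 * r) / m : ℕ) : ℝ) * ε ^ 2 / 16))) *
        (Fintype.card V : ℝ) ^ s := by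
  obtain ⟨k, hk⟩ : ∃ k, (rest a b).card = k := ⟨_, rfl⟩
  obtain ⟨d, hdinj, hdimg⟩ := exists_order hk
  have hdmem : ∀ i, d i ∈ rest a b := fun i => by
    rw [← hdimg]; exact mem_image_of_mem _ (mem_univ _)
  have hks : s - 2 * r ≤ k := hk ▸ card_rest_ge a b
  have hks' : k ≤ s := by
    have := card_le_univ (rest a b)
    rwa [Fintype.card_fin, hk] at this
  refine cnt_cond' hV d hdinj _ _ ?_
  intro S
  have e1 : ∀ y : Fin k → V, Function.extend d y S ∘ a = S ∘ a := fun y =>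
    extend_comp_of_disjoint (fun i j h => not_mem_rest_left (a := a) (b := b) j
      (by rw [← h]; exact hdmem i)) y S
  have e2 : ∀ y : Fin k → V, Function.extend d y S ∘ b = S ∘ b := fun y =>
    extend_comp_of_disjoint (fun i j h => not_mem_rest_right (a := a) (b := b) j
      (by rw [← h]; exact hdmem i)) y S
  have hu := ustat hV m k hm (by omega) (F (S ∘ a) (S ∘ b)) (h0 _ _) (h1 _ _)
    (μ (S ∘ a) (S ∘ b)) ε (hμ _ _) hε hε1 (hF _ _)
  refine (cnt_mono ?_).trans (hu.trans ?_)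
  · intro y hy
    rw [e1, e2, sum_reindex hdinj hdimg] at hy
    have e3 : ∀ ω : Fin m → Fin k, Function.extend d y S ∘ (d ∘ ω) = y ∘ ω := by
      intro ω
      rw [← Function.comp_assoc, Function.extend_comp hdinj]
    simp only [e3] at hy
    refine le_trans ?_ hy
    apply mul_le_mul_of_nonneg_left
    · have h2 : k.descFactorial m ≤ s ^ m :=
        (Nat.descFactorial_le_pow k m).trans (Nat.pow_le_pow_left hks' m)
      exact_mod_cast h2
    · have := hμ (S ∘ a) (S ∘ b)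
      linarith
  · apply mul_le_mul_of_nonneg_right _ (by positivity)
    apply mul_le_mul_of_nonneg_left _ (by positivity)
    apply Real.exp_le_exp.mpr
    have h3 : (((s - 2 * r) / m : ℕ) : ℝ) ≤ ((k / m : ℕ) : ℝ) := by
      exact_mod_cast Nat.div_le_div_right hks
    have h4 := mul_le_mul_of_nonneg_right h3 (sq_nonneg ε)
    linarith

private theorem size_choice (r m : ℕ) (hm : 1 ≤ m) (ε ζ : ℝ) (hε : 0 < ε) (hζ : 0 < ζ) :
    ∃ s₀ : ℕ, ∀ s ≥ s₀, 2 * r + m ≤ s ∧ ((s : ℝ) ^ r * (s : ℝ) ^ r) *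
      (2 / ε * Real.exp (-((((s - 2 * r) / m : ℕ) : ℝ) * ε ^ 2 / 16))) ≤ ζ := by
  have hm0 : (0 : ℝ) < m := by exact_mod_cast hm
  set q : ℝ := Real.exp (-(ε ^ 2 / (16 * m))) with hq
  have hq1 : |q| < 1 := by
    rw [abs_of_pos (Real.exp_pos _), Real.exp_lt_one_iff]
    have : 0 < ε ^ 2 / (16 * m) := by positivity
    linarith
  set C : ℝ := Real.exp ((2 * r / m + 1) * ε ^ 2 / 16) with hC
  have hC0 : 0 < C := Real.exp_pos _
  have hlim := tendsto_pow_const_mul_const_pow_of_abs_lt_one (2 * r) hq1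
  have hev : ∀ᶠ s : ℕ in Filter.atTop, (s : ℝ) ^ (2 * r) * q ^ s < ζ / (2 / ε * C) :=
    hlim.eventually (gt_mem_nhds (by positivity))
  obtain ⟨s₀, hs₀⟩ := Filter.eventually_atTop.1 (hev.and (Filter.eventually_ge_atTop (2 * r + m)))
  refine ⟨s₀, fun s hs => ?_⟩
  obtain ⟨h1, h2⟩ := hs₀ s hs
  refine ⟨h2, ?_⟩
  have h3 : ((s : ℝ) - 2 * r) / m - 1 ≤ (((s - 2 * r) / m : ℕ) : ℝ) := by
    have h4 : s - 2 * r < m * ((s - 2 * r) / m + 1) := by
      have := Nat.lt_mul_div_succ (s - 2 * r) hm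
      simpa using this
    have h5 : ((s - 2 * r : ℕ) : ℝ) = (s : ℝ) - 2 * r := by
      rw [Nat.cast_sub (by omega)]
      push_cast
      ring
    have h6 : ((s - 2 * r : ℕ) : ℝ) < (m : ℝ) * ((((s - 2 * r) / m : ℕ) : ℝ) + 1) := by
      exact_mod_cast h4
    rw [h5] at h6
    rw [sub_le_iff_le_add, div_le_iff₀ hm0]
    linarith
  have h7 : -((((s - 2 * r) / m : ℕ) : ℝ) * ε ^ 2 / 16) ≤
      (s : ℝ) * (-(ε ^ 2 / (16 * m))) + (2 * r / m + 1) * ε ^ 2 / 16 := by
    have h8 := mul_le_mul_of_nonneg_right h3 (by positivity : (0 : ℝ) ≤ ε ^ 2 / 16)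
    have h9 : (s : ℝ) * (-(ε ^ 2 / (16 * m))) + (2 * r / m + 1) * ε ^ 2 / 16 =
        -((((s : ℝ) - 2 * r) / m - 1) * (ε ^ 2 / 16)) := by
      field_simp
      ring
    rw [h9]
    linarith
  calc ((s : ℝ) ^ r * (s : ℝ) ^ r) *
      (2 / ε * Real.exp (-((((s - 2 * r) / m : ℕ) : ℝ) * ε ^ 2 / 16)))
      ≤ ((s : ℝ) ^ r * (s : ℝ) ^ r) *
        (2 / ε * Real.exp ((s : ℝ) * (-(ε ^ 2 / (16 * m))) + (2 * r / m + 1) * ε ^ 2 / 16)) := by
        apply mul_le_mul_of_nonneg_left _ (by positivity)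
        apply mul_le_mul_of_nonneg_left _ (by positivity)
        exact Real.exp_le_exp.mpr h7
    _ = ((s : ℝ) ^ (2 * r) * q ^ s) * (2 / ε * C) := by
        rw [Real.exp_add, Real.exp_nat_mul, ← hq, ← hC, two_mul r, pow_add]
        ring
    _ ≤ (ζ / (2 / ε * C)) * (2 / ε * C) :=
        mul_le_mul_of_nonneg_right h1.le (by positivity)
    _ = ζ := by
        have : (2 / ε * C) ≠ 0 := by positivity
        field_simp

open Classical in
theorem general_event (r m : ℕ) (hm : 1 ≤ m) (ε ζ : ℝ) (hε : 0 < ε) (hζ : 0 < ζ) :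
    ∃ s₀ : ℕ, ∀ s ≥ s₀, ∀ (V : Type) [Fintype V] [DecidableEq V], 0 < Fintype.card V →
      ∀ (F : (Fin r → V) → (Fin r → V) → (Fin m → V) → ℝ) (μ : (Fin r → V) → (Fin r → V) → ℝ),
      (∀ x y w, 0 ≤ F x y w) → (∀ x y w, F x y w ≤ 1) → (∀ x y, 0 ≤ μ x y) →
      (∀ x y, ∑ w, F x y w ≤ μ x y * (Fintype.card V : ℝ) ^ m) →
      cnt (fun S : Fin s → V => ∃ q : (Fin r → Fin s) × (Fin r → Fin s),
        (μ (S ∘ q.1) (S ∘ q.2) + ε) * (s : ℝ) ^ m ≤
          ∑ ω ∈ univ.filter (fun ω : Fin m → Fin s => Function.Injective ω ∧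
            ∀ i, ω i ∈ rest q.1 q.2), F (S ∘ q.1) (S ∘ q.2) (S ∘ ω)) ≤
        ζ * (Fintype.card V : ℝ) ^ s := by
  have hε'0 : 0 < min ε 1 := lt_min hε one_pos
  obtain ⟨s₀, hs₀⟩ := size_choice r m hm (min ε 1) ζ hε'0 hζ
  refine ⟨s₀, ?_⟩
  intro s hs V _ _ hV F μ h0 h1 hμ hF
  obtain ⟨hsr, hbound⟩ := hs₀ s hs
  have h := cnt_exists (V := V) (s := s) (ι := (Fin r → Fin s) × (Fin r → Fin s))
    (fun q S => (μ (S ∘ q.1) (S ∘ q.2) + ε) * (s : ℝ) ^ m ≤
          ∑ ω ∈ univ.filter (fun ω : Fin m → Fin s => Function.Injective ω ∧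
            ∀ i, ω i ∈ rest q.1 q.2), F (S ∘ q.1) (S ∘ q.2) (S ∘ ω))
    ((2 / (min ε 1) * Real.exp (-((((s - 2 * r) / m : ℕ) : ℝ) * (min ε 1) ^ 2 / 16))) *
        (Fintype.card V : ℝ) ^ s) (by
      rintro ⟨a, b⟩
      refine (cnt_mono ?_).trans (fixed_pair hV hm hsr (min ε 1) hε'0 (min_le_right _ _) F μ h0 h1
        hμ hF a b)
      intro S hS
      refine le_trans ?_ hS
      apply mul_le_mul_of_nonneg_right _ (by positivity)
      have := min_le_left ε 1
      linarith)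
  refine h.trans ?_
  rw [← mul_assoc]
  apply mul_le_mul_of_nonneg_right _ (by positivity)
  refine le_trans (le_of_eq ?_) hbound
  simp

theorem rare_event {V : Type*} [Fintype V] [DecidableEq V] {r m s : ℕ} (hV : 0 < Fintype.card V)
    (β : ℝ) (hβ : 0 ≤ β) (Bad : (Fin r → V) → (Fin r → V) → (Fin m → V) → Prop)
    (hBad : ∀ x y, cnt (Bad x y) ≤ β * (Fintype.card V : ℝ) ^ m) :
    cnt (fun S : Fin s → V => ∃ q : (Fin r → Fin s) × (Fin r → Fin s) × (Fin m → Fin s),
      Function.Injective q.2.2 ∧ (∀ i, q.2.2 i ∈ rest q.1 q.2.1) ∧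
        Bad (S ∘ q.1) (S ∘ q.2.1) (S ∘ q.2.2)) ≤
      ((s : ℝ) ^ r * ((s : ℝ) ^ r * (s : ℝ) ^ m)) * (β * (Fintype.card V : ℝ) ^ s) := by
  classical
  have h := cnt_exists (V := V) (s := s)
    (ι := (Fin r → Fin s) × (Fin r → Fin s) × (Fin m → Fin s))
    (fun q S => Function.Injective q.2.2 ∧ (∀ i, q.2.2 i ∈ rest q.1 q.2.1) ∧
        Bad (S ∘ q.1) (S ∘ q.2.1) (S ∘ q.2.2))
    (β * (Fintype.card V : ℝ) ^ s) (by
      rintro ⟨a, b, d⟩
      simp only
      by_cases hd : Function.Injective d ∧ ∀ i, d i ∈ rest a b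
      · obtain ⟨hdinj, hdmem⟩ := hd
        refine cnt_cond' hV d hdinj _ _ ?_
        intro S
        have e1 : ∀ y : Fin m → V, Function.extend d y S ∘ a = S ∘ a := fun y =>
          extend_comp_of_disjoint (fun i j h => not_mem_rest_left (a := a) (b := b) j
            (by rw [← h]; exact hdmem i)) y S
        have e2 : ∀ y : Fin m → V, Function.extend d y S ∘ b = S ∘ b := fun y =>
          extend_comp_of_disjoint (fun i j h => not_mem_rest_right (a := a) (b := b) j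
            (by rw [← h]; exact hdmem i)) y S
        refine le_trans ?_ (hBad (S ∘ a) (S ∘ b))
        apply cnt_mono
        intro y hy
        obtain ⟨_, _, h1⟩ := hy
        rw [e1, e2, Function.extend_comp hdinj] at h1
        exact h1
      · rw [cnt_false (fun S h => hd ⟨h.1, h.2.1⟩)]; positivity)
  refine le_trans (le_of_eq rfl) (h.trans (le_of_eq ?_))
  simp

end Pool.Agent.Lib.TwoPaths
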