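import Pool.Agent.Lib.TwoPaths.FDefs

/-!
# D3: the deterministic core of the sampling argument

`S : Fin s → V` is a sample without the bad events `E1` (collision), `E2` (an exceptional tuple),
`E3` (a cross pair).  The colouring of the `r`-subsets of `Fin s` is `c' g = c (g.image S)`.

(conn_walk) If `Conn c' r g g'` and `a` is an injective tuple with image `g`, there is an injective
tuple `a'` with image `g'` and `cls (S ∘ a') = cls (S ∘ a)`.  Proof: this is `hwalk` in the proof of
`core` (`SamplingB.lean`): one step exchanges a coordinate inside the same colour; both tuples are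
nonexceptional by `¬E2`, so by `¬E3` they have the same class.

(sample_core) `ok j j'` is a relation on labels, `Z j j' : V → [-1, r-1]` for `ok j j'`.
`smpl a b z S k = z (S k)` for `k ∈ rest a b` and `r - 1` otherwise.  We apply the conclusion `hF` of
`finite_structure` for `Fin s`, the colouring `c'`, and
`Wit l :⇔ ∃ a b, ok (cls (S∘a)) (cls (S∘b)) ∧ l = smpl a b (Z (cls (S∘a)) (cls (S∘b))) S`.
We must check its hypothesis.  Let `(e, f)` be adjacent, `c' e ≠ c' f`,
`nadj c' r e f ≥ ρ₁ s^(r+1)`.  Let `a, b` be injective tuples with images `e, f`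
(`exists_order`), `j = cls (S∘a)`, `j' = cls (S∘b)`.

(1) `ok j j'`: by `h6` it suffices to find `τ, i` with many `ω`.  The triples `(a₀, k, i)` counted by
`nadj` in which some `a₀ m` or `k` is not in `rest a b` number at most `(r+1)·2r·s^r·r`.  For every
other triple, by `conn_walk` there are permutations `σ, τ₀` of `Fin r` with
`cls (S ∘ a₀ ∘ σ) = j` and `cls (S ∘ (update a₀ i k) ∘ τ₀) = j'` (an injective tuple with the same
image as `a₀` is `a₀ ∘ σ`).  Put `a' = a₀ ∘ σ`, `i' = σ⁻¹ i`; then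
`update a' i' k = (update a₀ i k) ∘ σ`, so `(update a₀ i k) ∘ τ₀ = (update a' i' k) ∘ τ` with
`τ = σ⁻¹ τ₀`.  The map `(a₀, k, i) ↦ (σ, τ, i', (a', k))` is injective, so for some `(τ, i')` the number of
`(a', k)` (i.e. of `ω = snoc a' k : Fin (r+1) → Fin s`, injective, into `rest a b`) with
`cls (S ∘ a') = j`, `cls (S ∘ (update a' i' k) ∘ τ) = j'` is at least
`(ρ₁ s^(r+1) - 2 r² (r+1) s^r)/((r!)² r) ≥ (ρ₁/2) s^(r+1)/((r!)² r) ≥ ρ₂ s^(r+1)`.

(2) `l = smpl a b (Z j j') S` has `-1 ≤ l ≤ r-1`; `∑ l ≤ ε s + 2r (r-1) ≤ ε' s` by `h4`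
(`Finset.card` of the complement of `rest a b` is at most `2r`); `∑ |l| ≥ η s` by `h4'`.

(3) let `g` be in the component of `e` or of `f`.  If `g` meets the complement of `rest a b`
(which is `e ∪ f`) then `∑ g l ≥ (r-1) - (r-1) = 0`.  Otherwise by `conn_walk` there is an injective
`d` with image `g` and `cls (S∘d) ∈ {j, j'}`, so `∑ g l = ∑ i, Z j j' (S (d i)) ≥ 0` by `h5`.

The two alternatives of `hF` are the two alternatives of the conclusion: for the first note that
`ntup r (fun g => c' g ≠ κ)` counts injective `a` with `c ((univ.image a).image S) ≠ κ` and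
`(univ.image a).image S = univ.image (S ∘ a)`.
-/

namespace Pool.Agent.Lib.TwoPaths

open Finset Relation
open Pool.Agent.Lib.MP_952639_co

private lemma perm_of_image {α : Type*} [DecidableEq α] {r : ℕ} {a a' : Fin r → α}
    (ha' : Function.Injective a') (h : univ.image a' = univ.image a) :
    ∃ σ : Equiv.Perm (Fin r), a' = a ∘ σ := by
  have h1 : ∀ m, ∃ k, a k = a' m := by
    intro m
    have h2 : a' m ∈ univ.image a := by
      rw [← h]; exact mem_image_of_mem _ (mem_univ _)
    simpa using h2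
  choose σ hσ using h1
  have hinj : Function.Injective σ := by
    intro x y hxy
    apply ha'
    rw [← hσ x, ← hσ y, hxy]
  refine ⟨Equiv.ofBijective σ (Finite.injective_iff_bijective.mp hinj), ?_⟩
  funext m
  simp [hσ]

private lemma update_injective {α : Type*} [DecidableEq α] {r : ℕ} {a : Fin r → α}
    (ha : Function.Injective a) {i : Fin r} {y : α} (hya : ∀ j, a j ≠ y) :
    Function.Injective (Function.update a i y) := by
  intro j k hjk
  by_cases hj : j = i
  · by_cases hk : k = i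
    · rw [hj, hk]
    · rw [hj, Function.update_self, Function.update_of_ne hk] at hjk
      exact absurd hjk.symm (hya k)
  · by_cases hk : k = i
    · rw [hk, Function.update_self, Function.update_of_ne hj] at hjk
      exact absurd hjk (hya j)
    · rw [Function.update_of_ne hj, Function.update_of_ne hk] at hjk
      exact ha hjk

private lemma card_rest_add {r s : ℕ} (a b : Fin r → Fin s) :
    (rest a b).card + (univ.image a ∪ univ.image b).card = s := by
  have h := card_sdiff_add_card_eq_card (subset_univ (univ.image a ∪ univ.image b))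
  rw [card_univ, Fintype.card_fin] at h
  exact h

private lemma card_used_le {r s : ℕ} (a b : Fin r → Fin s) :
    (univ.image a ∪ univ.image b).card ≤ 2 * r := by
  have h1 : (univ.image a).card ≤ r := by
    have := card_image_le (s := (univ : Finset (Fin r))) (f := a)
    simpa using this
  have h2 : (univ.image b).card ≤ r := by
    have := card_image_le (s := (univ : Finset (Fin r))) (f := b)
    simpa using this
  have h3 := card_union_le (univ.image a) (univ.image b)
  omega

private lemma pow_rest {r s : ℕ} (hs : 0 < s) (a b : Fin r → Fin s) :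
    (s : ℝ) ^ (r + 1) - 2 * r * (r + 1) * (s : ℝ) ^ r ≤ ((rest a b).card : ℝ) ^ (r + 1) := by
  have hs' : (0 : ℝ) < s := by exact_mod_cast hs
  have h1 := card_rest_add a b
  have h2 := card_used_le a b
  set u := (univ.image a ∪ univ.image b).card with hu
  have h1' : ((rest a b).card : ℝ) = s - u := by
    rw [eq_sub_iff_add_eq]; exact_mod_cast h1
  have h2' : (u : ℝ) ≤ 2 * r := by exact_mod_cast h2
  have hus : (u : ℝ) ≤ s := by
    have : u ≤ s := by omega
    exact_mod_cast this
  have hb := one_add_mul_le_pow (a := -((u : ℝ) / s)) (by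
    have : (u : ℝ) / s ≤ 1 := (div_le_one hs').mpr hus
    linarith) (r + 1)
  have hfac : ((rest a b).card : ℝ) ^ (r + 1) = (s : ℝ) ^ (r + 1) * (1 + -((u : ℝ) / s)) ^ (r + 1) := by
    rw [← mul_pow, h1']
    congr 1
    field_simp
    ring
  rw [hfac]
  calc (s : ℝ) ^ (r + 1) - 2 * r * (r + 1) * (s : ℝ) ^ r
      ≤ (s : ℝ) ^ (r + 1) - u * (r + 1) * (s : ℝ) ^ r := by
        have h3 : (u : ℝ) * (r + 1) * (s : ℝ) ^ r ≤ 2 * r * (r + 1) * (s : ℝ) ^ r := by
          gcongr
        linarith
    _ = (s : ℝ) ^ (r + 1) * (1 + ((r + 1 : ℕ) : ℝ) * -((u : ℝ) / s)) := by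
        push_cast
        field_simp
        ring
    _ ≤ _ := mul_le_mul_of_nonneg_left hb (by positivity)

open Classical in
private lemma bad_count {r s : ℕ} (hs : 0 < s) (a b : Fin r → Fin s) :
    ((univ.filter fun q : (Fin r → Fin s) × Fin s × Fin r =>
      ¬ ((∀ m, q.1 m ∈ rest a b) ∧ q.2.1 ∈ rest a b)).card : ℝ) ≤
      2 * (r : ℝ) ^ 2 * (r + 1) * (s : ℝ) ^ r := by
  have h1 : (univ.filter fun q : (Fin r → Fin s) × Fin s × Fin r =>
      (∀ m, q.1 m ∈ rest a b) ∧ q.2.1 ∈ rest a b) =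
      (Fintype.piFinset fun _ : Fin r => rest a b) ×ˢ (rest a b ×ˢ (univ : Finset (Fin r))) := by
    ext ⟨x, k, i⟩
    simp [Fintype.mem_piFinset]
  have h2 := card_filter_add_card_filter_not (s := (univ : Finset ((Fin r → Fin s) × Fin s × Fin r)))
    (fun q : (Fin r → Fin s) × Fin s × Fin r => (∀ m, q.1 m ∈ rest a b) ∧ q.2.1 ∈ rest a b)
  rw [h1, card_product, card_product, Fintype.card_piFinset_const] at h2
  simp only [card_univ, Fintype.card_prod, Fintype.card_fun, Fintype.card_fin] at h2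
  have h3 := congrArg (fun n : ℕ => (n : ℝ)) h2
  push_cast at h3
  have h4 := pow_rest hs a b
  have h5 : ((rest a b).card : ℝ) ^ r * (((rest a b).card : ℝ) * r) =
      r * ((rest a b).card : ℝ) ^ (r + 1) := by ring
  have h6 : (s : ℝ) ^ r * ((s : ℝ) * r) = r * (s : ℝ) ^ (r + 1) := by ring
  have h7 : (r : ℝ) * ((s : ℝ) ^ (r + 1) - 2 * r * (r + 1) * (s : ℝ) ^ r) ≤
      r * ((rest a b).card : ℝ) ^ (r + 1) := mul_le_mul_of_nonneg_left h4 (by positivity)
  have h8 : (r : ℝ) * ((s : ℝ) ^ (r + 1) - 2 * r * (r + 1) * (s : ℝ) ^ r) =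
      r * (s : ℝ) ^ (r + 1) - 2 * (r : ℝ) ^ 2 * (r + 1) * (s : ℝ) ^ r := by ring
  linarith

open Classical in
/-- The sampled functional. -/
noncomputable def smpl {V : Type*} {r s : ℕ} (a b : Fin r → Fin s) (z : V → ℝ) (S : Fin s → V) :
    Fin s → ℝ :=
  fun k => if k ∈ rest a b then z (S k) else (r : ℝ) - 1

theorem conn_walk {V : Type*} [Fintype V] [DecidableEq V] {r s : ℕ}
    (c : Finset V → Bool) (cls : (Fin r → V) → ℕ) (S : Fin s → V)
    (h1 : ¬ E1 S) (h2 : ¬ E2 cls S) (h3 : ¬ E3 c cls S) (g g' : Finset (Fin s))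
    (h : Conn (fun g : Finset (Fin s) => c (g.image S)) r g g')
    (a : Fin r → Fin s) (ha : Function.Injective a) (hag : univ.image a = g) :
    ∃ a' : Fin r → Fin s, Function.Injective a' ∧ univ.image a' = g' ∧
      cls (S ∘ a') = cls (S ∘ a) := by
  have hS : Function.Injective S := by
    intro i j hij
    by_contra hne
    exact h1 ⟨(i, j), hne, hij⟩
  have himg : ∀ a : Fin r → Fin s, univ.image (S ∘ a) = (univ.image a).image S := by
    intro a; rw [image_image]
  have hne0 : ∀ a : Fin r → Fin s, Function.Injective a → cls (S ∘ a) ≠ 0 := by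
    intro a ha h0
    exact h2 ⟨a, ha, hS.comp ha, h0⟩
  induction h with
  | refl => exact ⟨a, ha, hag, rfl⟩
  | @tail b d _ hbd ih =>
    obtain ⟨a', ha', hb, hcl⟩ := ih
    obtain ⟨⟨_, hdc, x, hx, y, hy, hd⟩, hcol⟩ := hbd
    rw [← hb, mem_image] at hx
    obtain ⟨i, _, hi⟩ := hx
    have hya : ∀ j, a' j ≠ y := by
      intro j hj
      apply hy
      rw [← hb, ← hj]
      exact mem_image_of_mem _ (mem_univ _)
    have hinj : Function.Injective (Function.update a' i y) := update_injective ha' hya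
    have himd : univ.image (Function.update a' i y) = d := by
      apply eq_of_subset_of_card_le
      · intro z hz
        rw [mem_image] at hz
        obtain ⟨j, _, hj⟩ := hz
        rw [hd]
        by_cases hji : j = i
        · rw [hji, Function.update_self] at hj
          rw [← hj]; exact mem_insert_self _ _
        · rw [Function.update_of_ne hji] at hj
          rw [← hj]
          apply mem_insert_of_mem
          rw [mem_erase]
          refine ⟨?_, ?_⟩
          · rw [← hi]
            intro h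
            exact hji (ha' h)
          · rw [← hb]; exact mem_image_of_mem _ (mem_univ _)
      · rw [hdc, card_image_of_injective _ hinj, card_univ, Fintype.card_fin]
    refine ⟨Function.update a' i y, hinj, himd, ?_⟩
    rw [← hcl]
    have hcomp : S ∘ Function.update a' i y = Function.update (S ∘ a') i (S y) :=
      Function.comp_update _ _ _ _
    by_contra hne
    apply h3
    refine ⟨(a', i, y), ha', hya, hne0 a' ha', ?_, ?_, ?_⟩
    · rw [← hcomp]; exact hne0 _ hinj
    · simp only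
      rw [← hcomp, himg, himg, himd, hb]
      exact hcol
    · simp only
      rw [← hcomp]
      exact fun h => hne h.symm

open Classical in
/-- The pigeonhole step: many adjacent pairs give many tuples with fixed permutations. -/
private lemma pigeon {V : Type*} [Fintype V] [DecidableEq V] {r s : ℕ} (hr : 2 ≤ r) (hs : r ≤ s)
    (c : Finset V → Bool) (cls : (Fin r → V) → ℕ)
    (ρ₁ ρ₂ : ℝ) (hρ₂ : ρ₂ * ((r.factorial : ℝ) ^ 2 * r) ≤ ρ₁ / 2)
    (hsρ : 2 * (r : ℝ) ^ 2 * (r + 1) ≤ ρ₁ / 2 * s)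
    (S : Fin s → V) (h1 : ¬ E1 S) (h2 : ¬ E2 cls S) (h3 : ¬ E3 c cls S)
    (e f : Finset (Fin s)) (a b : Fin r → Fin s) (ha : Function.Injective a)
    (hb : Function.Injective b) (hae : univ.image a = e) (hbf : univ.image b = f)
    (hn : ρ₁ * (s : ℝ) ^ (r + 1) ≤ nadj (fun g : Finset (Fin s) => c (g.image S)) r e f) :
    ∃ (τ : Equiv.Perm (Fin r)) (i : Fin r), ρ₂ * (s : ℝ) ^ (r + 1) ≤
        ((univ.filter fun ω : Fin (r + 1) → Fin s => Function.Injective ω ∧
          (∀ k, ω k ∈ rest a b) ∧ cls (S ∘ (ω ∘ Fin.castSucc)) = cls (S ∘ a) ∧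
          cls (S ∘ (Function.update (ω ∘ Fin.castSucc) i (ω (Fin.last r))) ∘ τ) =
            cls (S ∘ b)).card : ℝ) := by
  by_contra hcon
  push Not at hcon
  have hspos : 0 < s := by omega
  set G : Equiv.Perm (Fin r) → Fin r → Finset (Fin (r + 1) → Fin s) := fun τ i =>
    univ.filter fun ω : Fin (r + 1) → Fin s => Function.Injective ω ∧
          (∀ k, ω k ∈ rest a b) ∧ cls (S ∘ (ω ∘ Fin.castSucc)) = cls (S ∘ a) ∧
          cls (S ∘ (Function.update (ω ∘ Fin.castSucc) i (ω (Fin.last r))) ∘ τ) =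
            cls (S ∘ b) with hG
  set T : Finset ((Fin r → Fin s) × Fin s × Fin r) :=
    univ.filter fun q : (Fin r → Fin s) × Fin s × Fin r => Function.Injective q.1 ∧
    (∀ j, q.1 j ≠ q.2.1) ∧ Conn (fun g : Finset (Fin s) => c (g.image S)) r e (univ.image q.1) ∧
    Conn (fun g : Finset (Fin s) => c (g.image S)) r f
      (univ.image (Function.update q.1 q.2.2 q.2.1)) with hT
  have hTn : (T.card : ℝ) = nadj (fun g : Finset (Fin s) => c (g.image S)) r e f := by
    rfl
  set P : (Fin r → Fin s) × Fin s × Fin r → Prop :=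
    fun q => (∀ m, q.1 m ∈ rest a b) ∧ q.2.1 ∈ rest a b with hP
  have hsplit := card_filter_add_card_filter_not (s := T) P
  have hbad : ((T.filter fun q => ¬ P q).card : ℝ) ≤
      2 * (r : ℝ) ^ 2 * (r + 1) * (s : ℝ) ^ r := by
    refine le_trans ?_ (bad_count hspos a b)
    exact_mod_cast card_le_card (filter_subset_filter _ (subset_univ T))
  have hsub : T.filter P ⊆
      (univ : Finset (Equiv.Perm (Fin r) × Equiv.Perm (Fin r) × Fin r)).biUnion fun p =>
        (G p.2.1 p.2.2).image fun ω =>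
          ((ω ∘ Fin.castSucc) ∘ p.1.symm, ω (Fin.last r), p.1 p.2.2) := by
    rintro ⟨a₀, k, i⟩ hq
    rw [mem_filter, hT, mem_filter] at hq
    obtain ⟨⟨_, ha₀, hk, hce, hcf⟩, hrest, hkr⟩ := hq
    simp only at ha₀ hk hce hcf hrest hkr
    obtain ⟨a', ha', hima, hcla⟩ := conn_walk c cls S h1 h2 h3 _ _ hce a ha hae
    obtain ⟨b', hb', himb, hclb⟩ := conn_walk c cls S h1 h2 h3 _ _ hcf b hb hbf
    obtain ⟨σ, hσ⟩ := perm_of_image ha' hima
    obtain ⟨τ₀, hτ₀⟩ := perm_of_image hb' himb
    rw [mem_biUnion]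
    refine ⟨(σ, τ₀.trans σ.symm, σ.symm i), mem_univ _, ?_⟩
    rw [mem_image]
    have hlast : (Fin.snoc a' k : Fin (r + 1) → Fin s) (Fin.last r) = k := by simp
    have hinit : (Fin.snoc a' k : Fin (r + 1) → Fin s) ∘ Fin.castSucc = a' := by
      funext m; simp
    refine ⟨(Fin.snoc a' k : Fin (r + 1) → Fin s), ?_, ?_⟩
    · rw [hG, mem_filter]
      refine ⟨mem_univ _, ?_, ?_, ?_, ?_⟩
      · intro x y hxy
        induction x using Fin.lastCases with
        | last =>
          induction y using Fin.lastCases with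
          | last => rfl
          | cast y =>
            rw [Fin.snoc_last, Fin.snoc_castSucc, hσ] at hxy
            exact absurd hxy.symm (hk _)
        | cast x =>
          induction y using Fin.lastCases with
          | last =>
            rw [Fin.snoc_last, Fin.snoc_castSucc, hσ] at hxy
            exact absurd hxy (hk _)
          | cast y =>
            rw [Fin.snoc_castSucc, Fin.snoc_castSucc] at hxy
            rw [ha' hxy]
      · intro x
        induction x using Fin.lastCases with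
        | last => rw [Fin.snoc_last]; exact hkr
        | cast x => rw [Fin.snoc_castSucc, hσ]; exact hrest _
      · rw [hinit]; exact hcla
      · rw [hinit, hlast, ← hclb]
        congr 2
        rw [hτ₀]
        funext m
        simp only [Function.comp_apply, Equiv.trans_apply]
        rw [hσ]
        by_cases hm : τ₀ m = i
        · rw [hm, Function.update_self, Function.update_self]
        · rw [Function.update_of_ne hm, Function.update_of_ne]
          · simp
          · intro h
            exact hm (σ.symm.injective h)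
    · rw [hlast, hinit]
      refine Prod.ext ?_ (Prod.ext rfl ?_)
      · funext m
        simp [hσ]
      · simp
  have hcard : (T.filter P).card ≤ ∑ p : Equiv.Perm (Fin r) × Equiv.Perm (Fin r) × Fin r,
      (G p.2.1 p.2.2).card := by
    refine (card_le_card hsub).trans (card_biUnion_le.trans ?_)
    exact sum_le_sum fun p _ => card_image_le
  have hlt : ∑ p : Equiv.Perm (Fin r) × Equiv.Perm (Fin r) × Fin r,
      ((G p.2.1 p.2.2).card : ℝ) <
      ∑ p : Equiv.Perm (Fin r) × Equiv.Perm (Fin r) × Fin r, ρ₂ * (s : ℝ) ^ (r + 1) := by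
    apply sum_lt_sum_of_nonempty
    · exact ⟨(1, 1, ⟨0, by omega⟩), mem_univ _⟩
    · intro p _
      exact hcon p.2.1 p.2.2
  have hcst : ∑ p : Equiv.Perm (Fin r) × Equiv.Perm (Fin r) × Fin r, ρ₂ * (s : ℝ) ^ (r + 1) =
      (ρ₂ * ((r.factorial : ℝ) ^ 2 * r)) * (s : ℝ) ^ (r + 1) := by
    rw [sum_const, nsmul_eq_mul, card_univ, Fintype.card_prod, Fintype.card_prod,
      Fintype.card_perm, Fintype.card_fin]
    push_cast
    ring
  rw [hcst] at hlt
  have hsr : (0 : ℝ) < (s : ℝ) ^ r := by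
    have : (0 : ℝ) < s := by exact_mod_cast hspos
    positivity
  have hA : (ρ₂ * ((r.factorial : ℝ) ^ 2 * r)) * (s : ℝ) ^ (r + 1) ≤
      ρ₁ / 2 * (s : ℝ) ^ (r + 1) := mul_le_mul_of_nonneg_right hρ₂ (by positivity)
  have hB : 2 * (r : ℝ) ^ 2 * (r + 1) * (s : ℝ) ^ r ≤ ρ₁ / 2 * (s : ℝ) ^ (r + 1) := by
    calc 2 * (r : ℝ) ^ 2 * (r + 1) * (s : ℝ) ^ r ≤ (ρ₁ / 2 * s) * (s : ℝ) ^ r :=
          mul_le_mul_of_nonneg_right hsρ hsr.le
      _ = _ := by ring
  have hC : (T.card : ℝ) = ((T.filter P).card : ℝ) + ((T.filter fun q => ¬ P q).card : ℝ) := by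
    exact_mod_cast hsplit.symm
  have hD : ((T.filter P).card : ℝ) ≤ ∑ p : Equiv.Perm (Fin r) × Equiv.Perm (Fin r) × Fin r,
      ((G p.2.1 p.2.2).card : ℝ) := by exact_mod_cast hcard
  rw [← hTn] at hn
  linarith

open Classical in
theorem sample_core {V : Type*} [Fintype V] [DecidableEq V] {r s : ℕ} (hr : 2 ≤ r) (hs : r ≤ s)
    (c : Finset V → Bool) (cls : (Fin r → V) → ℕ) (Z : ℕ → ℕ → V → ℝ) (ok : ℕ → ℕ → Prop)
    (hZ : ∀ j j', ok j j' → ∀ v, -1 ≤ Z j j' v ∧ Z j j' v ≤ (r : ℝ) - 1)
    (ρ₁ ρ₂ η ε ε' δ : ℝ) (hρ₂ : ρ₂ * ((r.factorial : ℝ) ^ 2 * r) ≤ ρ₁ / 2)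
    (hsρ : 2 * (r : ℝ) ^ 2 * (r + 1) ≤ ρ₁ / 2 * s)
    (hε : ε * s + 2 * r * ((r : ℝ) - 1) ≤ ε' * s)
    (S : Fin s → V) (h1 : ¬ E1 S) (h2 : ¬ E2 cls S) (h3 : ¬ E3 c cls S)
    (h4 : ∀ a b : Fin r → Fin s, ok (cls (S ∘ a)) (cls (S ∘ b)) →
      ∑ k ∈ rest a b, Z (cls (S ∘ a)) (cls (S ∘ b)) (S k) ≤ ε * s)
    (h4' : ∀ a b : Fin r → Fin s, ok (cls (S ∘ a)) (cls (S ∘ b)) →
      η * s ≤ ∑ k ∈ rest a b, |Z (cls (S ∘ a)) (cls (S ∘ b)) (S k)|)
    (h5 : ∀ a b d : Fin r → Fin s, Function.Injective d → (∀ i, d i ∈ rest a b) →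
      ok (cls (S ∘ a)) (cls (S ∘ b)) →
      (cls (S ∘ d) = cls (S ∘ a) ∨ cls (S ∘ d) = cls (S ∘ b)) →
      0 ≤ ∑ i, Z (cls (S ∘ a)) (cls (S ∘ b)) (S (d i)))
    (h6 : ∀ a b : Fin r → Fin s, Function.Injective a → Function.Injective b →
      c (univ.image (S ∘ a)) ≠ c (univ.image (S ∘ b)) →
      (∃ (τ : Equiv.Perm (Fin r)) (i : Fin r), ρ₂ * (s : ℝ) ^ (r + 1) ≤
        ((univ.filter fun ω : Fin (r + 1) → Fin s => Function.Injective ω ∧
          (∀ k, ω k ∈ rest a b) ∧ cls (S ∘ (ω ∘ Fin.castSucc)) = cls (S ∘ a) ∧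
          cls (S ∘ (Function.update (ω ∘ Fin.castSucc) i (ω (Fin.last r))) ∘ τ) =
            cls (S ∘ b)).card : ℝ)) →
      ok (cls (S ∘ a)) (cls (S ∘ b)))
    (hF : ∀ (c : Finset (Fin s) → Bool) (Wit : (Fin s → ℝ) → Prop),
      (∀ e f : Finset (Fin s), JAdj r e f → c e ≠ c f →
        ρ₁ * (s : ℝ) ^ (r + 1) ≤ nadj c r e f →
        ∃ l : Fin s → ℝ, Wit l ∧ (∀ v, -1 ≤ l v) ∧ (∀ v, l v ≤ (r : ℝ) - 1) ∧
          ∑ v, l v ≤ ε' * s ∧ η * s ≤ ∑ v, |l v| ∧
          ∀ g, Conn c r e g ∨ Conn c r f g → 0 ≤ ∑ v ∈ g, l v) →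
      (∃ κ : Bool, (ntup r (fun g => c g ≠ κ) : ℝ) ≤ δ * (s : ℝ) ^ r) ∨
      ∃ l : Fin s → ℝ, Wit l ∧ ∃ (i : ℕ) (κ : Bool), 1 ≤ i ∧ i < r ∧
        ExtType r δ i (univ.filter fun v => 0 < l v) c κ) :
    (∃ κ : Bool, ((univ.filter fun a : Fin r → Fin s => Function.Injective a ∧
        c (univ.image (S ∘ a)) ≠ κ).card : ℝ) ≤ δ * (s : ℝ) ^ r) ∨
    ∃ a b : Fin r → Fin s, ok (cls (S ∘ a)) (cls (S ∘ b)) ∧
      ∃ (i : ℕ) (κ : Bool), 1 ≤ i ∧ i < r ∧
        ExtType r δ i (univ.filter fun k => 0 < smpl a b (Z (cls (S ∘ a)) (cls (S ∘ b))) S k)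
          (fun g => c (g.image S)) κ := by
  have hr0 : (0 : ℝ) ≤ (r : ℝ) - 1 := by
    have : (2 : ℝ) ≤ r := by exact_mod_cast hr
    linarith
  have himg : ∀ a : Fin r → Fin s, univ.image (S ∘ a) = (univ.image a).image S := by
    intro a; rw [image_image]
  have key := hF (fun g : Finset (Fin s) => c (g.image S))
    (fun l => ∃ a b : Fin r → Fin s, ok (cls (S ∘ a)) (cls (S ∘ b)) ∧
      l = smpl a b (Z (cls (S ∘ a)) (cls (S ∘ b))) S) ?_
  · rcases key with ⟨κ, hκ⟩ | ⟨l, ⟨a, b, hab, hl⟩, i, κ, hi, hir, hE⟩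
    · left
      refine ⟨κ, ?_⟩
      refine le_trans (le_of_eq ?_) hκ
      unfold ntup
      congr 2
      ext x
      simp only [mem_filter, mem_univ, true_and, himg]
    · right
      subst hl
      exact ⟨a, b, hab, i, κ, hi, hir, hE⟩
  · intro e f hef hcol hn
    obtain ⟨a, ha, hae⟩ := exists_order hef.1
    obtain ⟨b, hb, hbf⟩ := exists_order hef.2.1
    have hok : ok (cls (S ∘ a)) (cls (S ∘ b)) := by
      apply h6 a b ha hb
      · rw [himg, himg, hae, hbf]; exact hcol
      · exact pigeon hr hs c cls ρ₁ ρ₂ hρ₂ hsρ S h1 h2 h3 e f a b ha hb hae hbf hn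
    set z := Z (cls (S ∘ a)) (cls (S ∘ b)) with hz
    have hlb : ∀ v, -1 ≤ smpl a b z S v := by
      intro v
      unfold smpl
      split_ifs
      · exact (hZ _ _ hok _).1
      · linarith
    have hub : ∀ v, smpl a b z S v ≤ (r : ℝ) - 1 := by
      intro v
      unfold smpl
      split_ifs
      · exact (hZ _ _ hok _).2
      · exact le_rfl
    have hin : ∀ k ∈ rest a b, smpl a b z S k = z (S k) := fun k hk => if_pos hk
    have hout : ∀ k, k ∉ rest a b → smpl a b z S k = (r : ℝ) - 1 := fun k hk => if_neg hk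
    have hcompl : ((univ \ rest a b).card : ℝ) ≤ 2 * r := by
      have h7 : univ \ rest a b = univ.image a ∪ univ.image b := by
        unfold rest
        rw [sdiff_sdiff_right_self]
        simp
      rw [h7]
      exact_mod_cast card_used_le a b
    have hsum : ∀ F : Fin s → ℝ, ∑ v, F v = ∑ v ∈ rest a b, F v + ∑ v ∈ univ \ rest a b, F v := by
      intro F
      rw [add_comm, sum_sdiff (subset_univ (rest a b))]
    refine ⟨smpl a b z S, ⟨a, b, hok, rfl⟩, hlb, hub, ?_, ?_, ?_⟩
    · rw [hsum, sum_congr rfl hin]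
      have h8 : ∑ v ∈ univ \ rest a b, smpl a b z S v ≤ 2 * r * ((r : ℝ) - 1) := by
        rw [sum_congr rfl (fun k hk => hout k (mem_sdiff.mp hk).2), sum_const, nsmul_eq_mul]
        exact mul_le_mul_of_nonneg_right hcompl hr0
      have h9 := h4 a b hok
      linarith
    · rw [hsum]
      have h8 : 0 ≤ ∑ v ∈ univ \ rest a b, |smpl a b z S v| := sum_nonneg fun _ _ => abs_nonneg _
      have h9 : ∑ v ∈ rest a b, |smpl a b z S v| = ∑ v ∈ rest a b, |z (S v)| :=
        sum_congr rfl fun k hk => by rw [hin k hk]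
      have h10 := h4' a b hok
      rw [h9]
      linarith
    · intro g hg
      have hgcard : g.card = r := by
        rcases hg with hg | hg
        · exact hg.card hef.1
        · exact hg.card hef.2.1
      by_cases hall : ∀ k ∈ g, k ∈ rest a b
      · obtain ⟨d, hd, hdg, hdc⟩ : ∃ d : Fin r → Fin s, Function.Injective d ∧
            univ.image d = g ∧ (cls (S ∘ d) = cls (S ∘ a) ∨ cls (S ∘ d) = cls (S ∘ b)) := by
          rcases hg with hg | hg
          · obtain ⟨d, h7, h8, h9⟩ := conn_walk c cls S h1 h2 h3 _ _ hg a ha hae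
            exact ⟨d, h7, h8, Or.inl h9⟩
          · obtain ⟨d, h7, h8, h9⟩ := conn_walk c cls S h1 h2 h3 _ _ hg b hb hbf
            exact ⟨d, h7, h8, Or.inr h9⟩
        have hdr : ∀ i, d i ∈ rest a b := by
          intro i
          apply hall
          rw [← hdg]; exact mem_image_of_mem _ (mem_univ _)
        have h7 := h5 a b d hd hdr hok hdc
        have h8 : ∑ v ∈ g, smpl a b z S v = ∑ i, z (S (d i)) := by
          rw [← hdg, sum_image (fun x _ y _ h => hd h)]
          exact sum_congr rfl fun i _ => hin _ (hdr i)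
        rw [h8]
        exact h7
      · push Not at hall
        obtain ⟨k, hk, hkr⟩ := hall
        have h7 := add_sum_erase g (smpl a b z S) hk
        have h8 : -((r : ℝ) - 1) ≤ ∑ k ∈ g.erase k, smpl a b z S k := by
          calc -((r : ℝ) - 1) = ∑ k ∈ g.erase k, (-1 : ℝ) := by
                rw [sum_const, nsmul_eq_mul, card_erase_of_mem hk, hgcard,
                  Nat.cast_sub (by omega)]
                push_cast; ring
            _ ≤ _ := sum_le_sum fun k _ => hlb k
        rw [hout k hkr] at h7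
        linarith

end Pool.Agent.Lib.TwoPaths
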