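import Pool.Agent.Lib.TwoPaths.D2

/-!
# D5a: sums over the sample

Both statements are instances of `general_event` with `m = 1` (tuples `w : Fin 1 → V`, `w 0`), so
that `∑_{ω : Fin 1 → Fin s injective into rest} F (S ∘ ω) = ∑_{k ∈ rest} F (S k)`.
`n = |V|`, `|rest a b| ≥ s - 2r`.

(ev_sum) `F x y w = (Z x y (w 0) + 1)/r` if `ok x y`, else `0`; `∑ F ≤ ((1 + ε₁)/r) n` because
`∑ Z x y ≤ ε₁ n`; `μ = (1 + ε₁)/r`, deviation `ε₁/r`.  Outside the event:
`∑_{rest} (Z + 1) < (1 + 2 ε₁) s`, so `∑_{rest} Z < (1 + 2ε₁) s - |rest| ≤ 2 ε₁ s + 2 r ≤ 3 ε₁ s` for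
`s ≥ 2r/ε₁`.

(ev_abs) `F x y w = 1 - |Z x y (w 0)|/r` if `ok x y`, else `0` (in `[0,1]` since `|Z| ≤ r`);
`∑ F ≤ (1 - η/r) n` because `∑ |Z| ≥ η n`; `μ x y = 1 - η/r` if `ok x y`, else `0` (`η ≤ r` if `ok`
holds for some pair), deviation `η/(4r)`.  Outside the event:
`∑_{rest} (1 - |Z|/r) < (1 - 3η/(4r)) s`, so `∑_{rest} |Z| > r |rest| - r s + (3/4) η s
≥ (3/4) η s - 2 r² ≥ (η/2) s` for `s ≥ 8r²/η`.
-/

namespace Pool.Agent.Lib.TwoPaths

open Finset
open Pool.Agent.Lib.MP_952639_co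

open Classical in
private lemma sum_fin1 {s : ℕ} (R : Finset (Fin s)) (f : (Fin 1 → Fin s) → ℝ) :
    ∑ ω ∈ univ.filter (fun ω : Fin 1 → Fin s => Function.Injective ω ∧ ∀ i, ω i ∈ R), f ω =
      ∑ k ∈ R, f (fun _ => k) := by
  refine Finset.sum_nbij' (fun ω => ω 0) (fun k => fun _ => k) ?_ ?_ ?_ ?_ ?_
  · intro ω hω
    rw [mem_filter] at hω
    exact hω.2.2 0
  · intro k hk
    rw [mem_filter]
    refine ⟨mem_univ _, fun i j _ => Subsingleton.elim i j, fun _ => hk⟩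
  · intro ω _
    funext i
    rw [Subsingleton.elim i 0]
  · intro k _
    rfl
  · intro ω _
    congr 1
    funext i
    rw [Subsingleton.elim i 0]

private lemma sum_w {V : Type} [Fintype V] (G : V → ℝ) :
    ∑ w : Fin 1 → V, G (w 0) = ∑ v, G v := by
  rw [← (Equiv.funUnique (Fin 1) V).sum_comp G]
  rfl

private lemma card_rest {r s : ℕ} (a b : Fin r → Fin s) :
    (s : ℝ) - 2 * r ≤ ((rest a b).card : ℝ) := by
  have h1 : (univ.image a).card ≤ r := by
    simpa using (Finset.card_image_le (s := (univ : Finset (Fin r))) (f := a))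
  have h2 : (univ.image b).card ≤ r := by
    simpa using (Finset.card_image_le (s := (univ : Finset (Fin r))) (f := b))
  have h3 := Finset.card_union_le (univ.image a) (univ.image b)
  have h4 := Finset.le_card_sdiff (univ.image a ∪ univ.image b) (univ : Finset (Fin s))
  have h5 : s ≤ (rest a b).card + 2 * r := by
    unfold rest
    rw [card_univ, Fintype.card_fin] at h4
    omega
  have h6 : (s : ℝ) ≤ ((rest a b).card : ℝ) + 2 * r := by exact_mod_cast h5
  linarith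

theorem ev_sum (r : ℕ) (hr : 2 ≤ r) (ε₁ ζ : ℝ) (hε₁ : 0 < ε₁) (hζ : 0 < ζ) :
    ∃ s₀ : ℕ, ∀ s ≥ s₀, ∀ (V : Type) [Fintype V] [DecidableEq V], 0 < Fintype.card V →
      ∀ (ok : (Fin r → V) → (Fin r → V) → Prop) (Z : (Fin r → V) → (Fin r → V) → V → ℝ),
      (∀ x y, ok x y → (∀ v, -1 ≤ Z x y v) ∧ (∀ v, Z x y v ≤ (r : ℝ) - 1) ∧
        ∑ v, Z x y v ≤ ε₁ * Fintype.card V) →
      cnt (fun S : Fin s → V => ∃ q : (Fin r → Fin s) × (Fin r → Fin s),
        ok (S ∘ q.1) (S ∘ q.2) ∧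
        3 * ε₁ * s < ∑ k ∈ rest q.1 q.2, Z (S ∘ q.1) (S ∘ q.2) (S k)) ≤
        ζ * (Fintype.card V : ℝ) ^ s := by
  classical
  have hr0 : (0 : ℝ) < r := by
    have : (2 : ℝ) ≤ r := by exact_mod_cast hr
    linarith
  obtain ⟨s₁, hs₁⟩ := general_event r 1 le_rfl (ε₁ / r) ζ (by positivity) hζ
  refine ⟨max s₁ (⌈2 * r / ε₁⌉₊), fun s hs V _ _ hV ok Z hZ => ?_⟩
  have hs1 : s₁ ≤ s := (le_max_left _ _).trans hs
  have hs2 : 2 * (r : ℝ) ≤ ε₁ * s := by
    have h1 : (2 * r / ε₁ : ℝ) ≤ s :=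
      (Nat.le_ceil _).trans (by exact_mod_cast (le_max_right _ _).trans hs)
    rw [div_le_iff₀ hε₁] at h1
    linarith
  refine le_trans (cnt_mono ?_) (hs₁ s hs1 V hV
    (fun x y w => if ok x y then (Z x y (w 0) + 1) / r else 0)
    (fun _ _ => (1 + ε₁) / r) ?_ ?_ ?_ ?_)
  · rintro S ⟨q, hq1, hq2⟩
    refine ⟨q, ?_⟩
    rw [sum_fin1]
    simp only [if_pos hq1, pow_one, Function.comp_apply]
    rw [← Finset.sum_div, Finset.sum_add_distrib, Finset.sum_const, nsmul_eq_mul, mul_one,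
      ← add_div, div_mul_eq_mul_div]
    apply div_le_div_of_nonneg_right _ hr0.le
    have h3 := card_rest q.1 q.2
    nlinarith [h3, hq2, hs2]
  · intro x y w
    split_ifs with h
    · have := (hZ x y h).1 (w 0)
      apply div_nonneg _ hr0.le
      linarith
    · exact le_rfl
  · intro x y w
    split_ifs with h
    · have := (hZ x y h).2.1 (w 0)
      rw [div_le_one hr0]
      linarith
    · exact zero_le_one
  · intro x y
    positivity
  · intro x y
    rw [pow_one]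
    split_ifs with h
    · have h4 := (hZ x y h).2.2
      rw [sum_w (fun v => (Z x y v + 1) / r), ← Finset.sum_div, Finset.sum_add_distrib,
        Finset.sum_const, nsmul_eq_mul, mul_one, card_univ, div_mul_eq_mul_div]
      apply div_le_div_of_nonneg_right _ hr0.le
      linarith
    · rw [Finset.sum_const_zero]
      positivity

theorem ev_abs (r : ℕ) (hr : 2 ≤ r) (η ζ : ℝ) (hη : 0 < η) (hζ : 0 < ζ) :
    ∃ s₀ : ℕ, ∀ s ≥ s₀, ∀ (V : Type) [Fintype V] [DecidableEq V], 0 < Fintype.card V →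
      ∀ (ok : (Fin r → V) → (Fin r → V) → Prop) (Z : (Fin r → V) → (Fin r → V) → V → ℝ),
      (∀ x y, ok x y → (∀ v, -1 ≤ Z x y v) ∧ (∀ v, Z x y v ≤ (r : ℝ) - 1) ∧
        η * Fintype.card V ≤ ∑ v, |Z x y v|) →
      cnt (fun S : Fin s → V => ∃ q : (Fin r → Fin s) × (Fin r → Fin s),
        ok (S ∘ q.1) (S ∘ q.2) ∧
        ∑ k ∈ rest q.1 q.2, |Z (S ∘ q.1) (S ∘ q.2) (S k)| < η / 2 * s) ≤
        ζ * (Fintype.card V : ℝ) ^ s := by
  classical
  have hr2 : (2 : ℝ) ≤ r := by exact_mod_cast hr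
  have hr0 : (0 : ℝ) < r := by linarith
  obtain ⟨s₁, hs₁⟩ := general_event r 1 le_rfl (η / (4 * r)) ζ (by positivity) hζ
  refine ⟨max s₁ (⌈8 * (r : ℝ) ^ 2 / η⌉₊), fun s hs V _ _ hV ok Z hZ => ?_⟩
  have hs1 : s₁ ≤ s := (le_max_left _ _).trans hs
  have hs2 : 8 * (r : ℝ) ^ 2 ≤ η * s := by
    have h1 : (8 * (r : ℝ) ^ 2 / η : ℝ) ≤ s :=
      (Nat.le_ceil _).trans (by exact_mod_cast (le_max_right _ _).trans hs)
    rw [div_le_iff₀ hη] at h1
    linarith
  have habs : ∀ x y, ok x y → ∀ v, |Z x y v| ≤ r := by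
    intro x y h v
    rw [abs_le]
    constructor
    · have := (hZ x y h).1 v
      linarith
    · have := (hZ x y h).2.1 v
      linarith
  have hV' : (0 : ℝ) < Fintype.card V := by exact_mod_cast hV
  have hηr : ∀ x y, ok x y → η ≤ r := by
    intro x y h
    have h1 := (hZ x y h).2.2
    have h2 : ∑ v, |Z x y v| ≤ ∑ _v : V, (r : ℝ) := Finset.sum_le_sum fun v _ => habs x y h v
    rw [Finset.sum_const, nsmul_eq_mul, card_univ] at h2
    have h3 := h1.trans h2
    rw [mul_comm η] at h3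
    exact le_of_mul_le_mul_left h3 hV'
  refine le_trans (cnt_mono ?_) (hs₁ s hs1 V hV
    (fun x y w => if ok x y then 1 - |Z x y (w 0)| / r else 0)
    (fun x y => if ok x y then 1 - η / r else 0) ?_ ?_ ?_ ?_)
  · rintro S ⟨q, hq1, hq2⟩
    refine ⟨q, ?_⟩
    rw [sum_fin1]
    simp only [if_pos hq1, pow_one, Function.comp_apply]
    rw [Finset.sum_sub_distrib, Finset.sum_const, nsmul_eq_mul, mul_one, ← Finset.sum_div]
    have h3 := card_rest q.1 q.2
    have h4 : (∑ k ∈ rest q.1 q.2, |Z (S ∘ q.1) (S ∘ q.2) (S k)|) / r ≤ η / 2 * s / r :=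
      div_le_div_of_nonneg_right hq2.le hr0.le
    have h5 : 2 * (r : ℝ) ≤ η * s / (4 * r) := by
      rw [le_div_iff₀ (by positivity)]
      nlinarith [hs2]
    have h6 : (1 - η / r + η / (4 * r)) * (s : ℝ) = s - η / 2 * s / r - η * s / (4 * r) := by
      field_simp
      ring
    rw [h6]
    linarith
  · intro x y w
    split_ifs with h
    · have := habs x y h (w 0)
      rw [sub_nonneg, div_le_one hr0]
      exact this
    · exact le_rfl
  · intro x y w
    split_ifs with h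
    · have : 0 ≤ |Z x y (w 0)| / r := div_nonneg (abs_nonneg _) hr0.le
      linarith
    · exact zero_le_one
  · intro x y
    split_ifs with h
    · rw [sub_nonneg, div_le_one hr0]
      exact hηr x y h
    · exact le_rfl
  · intro x y
    rw [pow_one]
    split_ifs with h
    · have h4 := (hZ x y h).2.2
      rw [sum_w (fun v => 1 - |Z x y v| / r), Finset.sum_sub_distrib, Finset.sum_const,
        nsmul_eq_mul, mul_one, card_univ, ← Finset.sum_div, sub_mul, one_mul,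
        div_mul_eq_mul_div]
      have := div_le_div_of_nonneg_right h4 hr0.le
      linarith
    · rw [Finset.sum_const_zero, zero_mul]

end Pool.Agent.Lib.TwoPaths
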