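import Pool.Agent.Lib.TwoPaths.D2
import Pool.Agent.Lib.TwoPaths.D3

/-!
# D5b: counts of tuples over the sample

(ev_count) For `Φ : (Fin r → V) → (Fin r → V) → (Fin m → V) → Prop`: for large `s`, for all but
`ζ n^s` samples and all `a, b`: if the number of injective `ω` into `rest a b` with
`Φ (S∘a) (S∘b) (S∘ω)` is at least `2 ρ s^m`, then `cnt (Φ (S∘a) (S∘b)) ≥ ρ n^m`.
Proof: `general_event` with `F x y w = 1` if `Φ x y w` and `cnt (Φ x y) < ρ n^m`, else `0`;
`μ = ρ`, deviation `ρ`.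

(ev_count_low) For large `s`, for all but `ζ n^s` samples and all `a, b`: if the number of injective
`ω` into `rest a b` with `Φ (S∘a) (S∘b) (S∘ω)` is at most `(δ/4) s^m` then
`cnt (Φ (S∘a) (S∘b)) ≤ δ n^m`.
Proof (`δ ≤ 1` WLOG, otherwise trivial): `general_event` with `F x y w = 1 - [Φ x y w]` if
`cnt (Φ x y) > δ n^m`, else `0`; `∑ F ≤ (1-δ) n^m`; `μ = 1 - δ`, deviation `δ/2`.  Outside the event,
if `cnt (Φ x y) > δ n^m` (`x = S∘a`, `y = S∘b`): the number of injective `ω` into `rest a b` with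
`¬Φ` is `< (1 - δ/2) s^m`, and there are at least `(s - 2r - m)^m ≥ s^m - m (2r + m) s^(m-1)`
injective `ω` into `rest a b`, so more than `(δ/2) s^m - m (2r+m) s^(m-1) ≥ (δ/4) s^m` have `Φ`
(for `s ≥ 4 m (2r+m)/δ`).
-/

namespace Pool.Agent.Lib.TwoPaths

open Finset
open Pool.Agent.Lib.MP_952639_co

/-- At least `(s - 2 r - m)^m` injective `m`-tuples avoid `a` and `b`. -/
private lemma inj_rest_card {r m s : ℕ} (a b : Fin r → Fin s) :
    (s - (2 * r + m)) ^ m ≤ (univ.filter fun ω : Fin m → Fin s => Function.Injective ω ∧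
      ∀ i, ω i ∈ rest a b).card := by
  classical
  have h1 : s - 2 * r ≤ (rest a b).card := by
    have h2 : (univ.image a ∪ univ.image b).card ≤ 2 * r := by
      refine (card_union_le _ _).trans ?_
      have ha : (univ.image a).card ≤ r := card_image_le.trans (by simp)
      have hb : (univ.image b).card ≤ r := card_image_le.trans (by simp)
      omega
    unfold rest
    rw [card_sdiff_of_subset (subset_univ _), card_univ, Fintype.card_fin]
    omega
  have h3 : (s - (2 * r + m)) ^ m ≤ ((rest a b).card).descFactorial m := by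
    refine le_trans ?_ (Nat.pow_sub_le_descFactorial _ _)
    exact Nat.pow_le_pow_left (by omega) _
  refine h3.trans ?_
  have h4 : Fintype.card (Fin m ↪ {k // k ∈ rest a b}) = ((rest a b).card).descFactorial m := by
    rw [Fintype.card_embedding_eq, Fintype.card_coe, Fintype.card_fin]
  rw [← h4, ← card_univ]
  apply card_le_card_of_injOn (fun e => fun i => (e i).1)
  · intro e _
    rw [mem_coe, mem_filter]
    exact ⟨mem_univ _, fun i j hij => e.injective (Subtype.ext hij), fun i => (e i).2⟩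
  · intro e _ e' _ h
    ext i
    exact congrArg Fin.val (congrFun h i)

/-- The numerical estimate. -/
private lemma pow_est {r m s : ℕ} {δ : ℝ} (hδ : 0 < δ)
    (hs : 4 * m * (2 * r + m) / δ ≤ (s : ℝ)) (hs1 : 1 ≤ s) :
    (1 - δ / 4) * (s : ℝ) ^ m ≤ (((s - (2 * r + m)) ^ m : ℕ) : ℝ) := by
  have hs0 : (0 : ℝ) < s := by exact_mod_cast hs1
  rcases Nat.eq_zero_or_pos m with hm | hm
  · subst hm
    simp only [pow_zero, Nat.cast_one, mul_one]
    linarith
  rcases le_or_gt (2 * r + m) s with h | h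
  · push_cast [Nat.cast_sub h]
    have h1 : (0 : ℝ) ≤ 1 - (2 * r + m) / s := by
      rw [sub_nonneg, div_le_one hs0]
      exact_mod_cast h
    have h2 : ((s : ℝ) - (2 * r + m)) ^ m = (1 - (2 * r + m) / s) ^ m * (s : ℝ) ^ m := by
      rw [← mul_pow]
      congr 1
      field_simp
    rw [h2]
    refine mul_le_mul_of_nonneg_right ?_ (by positivity)
    have h3 := one_add_mul_le_pow (a := -((2 * r + m : ℝ) / s)) (by linarith) m
    have h4 : (m : ℝ) * ((2 * r + m) / s) ≤ δ / 4 := by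
      rw [div_le_iff₀ hδ] at hs
      rw [← mul_div_assoc, div_le_iff₀ hs0]
      linarith
    calc (1 : ℝ) - δ / 4 ≤ 1 + m * (-((2 * r + m : ℝ) / s)) := by linarith
      _ ≤ (1 + -((2 * r + m : ℝ) / s)) ^ m := h3
      _ = _ := by rw [← sub_eq_add_neg]
  · -- then `δ ≥ 4`
    have h0 : (0 : ℝ) ≤ (((s - (2 * r + m)) ^ m : ℕ) : ℝ) := Nat.cast_nonneg _
    refine le_trans ?_ h0
    have h5 : (s : ℝ) < 2 * r + m := by exact_mod_cast h
    have h6 : 4 ≤ δ := by
      rw [div_le_iff₀ hδ] at hs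
      by_contra hcon
      push Not at hcon
      have h7 : (s : ℝ) * δ < (2 * r + m) * 4 := by
        have hq : (0 : ℝ) < 2 * r + m := by
          have : (0 : ℝ) < m := by exact_mod_cast hm
          positivity
        nlinarith
      have h8 : (1 : ℝ) ≤ m := by exact_mod_cast hm
      have hq : (0 : ℝ) ≤ 2 * r + m := by positivity
      nlinarith
    have h9 : (1 - δ / 4) ≤ 0 := by linarith
    exact mul_nonpos_of_nonpos_of_nonneg h9 (by positivity)

open Classical in
theorem ev_count (r m : ℕ) (hm : 1 ≤ m) (ρ ζ : ℝ) (hρ : 0 < ρ) (hζ : 0 < ζ) :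
    ∃ s₀ : ℕ, ∀ s ≥ s₀, ∀ (V : Type) [Fintype V] [DecidableEq V], 0 < Fintype.card V →
      ∀ (Φ : (Fin r → V) → (Fin r → V) → (Fin m → V) → Prop),
      cnt (fun S : Fin s → V => ∃ q : (Fin r → Fin s) × (Fin r → Fin s),
        2 * ρ * (s : ℝ) ^ m ≤ ((univ.filter fun ω : Fin m → Fin s => Function.Injective ω ∧
          (∀ i, ω i ∈ rest q.1 q.2) ∧ Φ (S ∘ q.1) (S ∘ q.2) (S ∘ ω)).card : ℝ) ∧
        cnt (Φ (S ∘ q.1) (S ∘ q.2)) < ρ * (Fintype.card V : ℝ) ^ m) ≤
        ζ * (Fintype.card V : ℝ) ^ s := by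
  obtain ⟨s₀, hs₀⟩ := general_event r m hm ρ ζ hρ hζ
  refine ⟨s₀, fun s hs V _ _ hV Φ => ?_⟩
  have h := hs₀ s hs V hV
    (fun x y w => if Φ x y w ∧ cnt (Φ x y) < ρ * (Fintype.card V : ℝ) ^ m then 1 else 0)
    (fun _ _ => ρ)
    (fun x y w => by split_ifs <;> norm_num)
    (fun x y w => by split_ifs <;> norm_num)
    (fun _ _ => hρ.le)
    (fun x y => by
      by_cases hc : cnt (Φ x y) < ρ * (Fintype.card V : ℝ) ^ m
      · simp only [hc, and_true]
        rw [sum_boole, ← cnt_eq]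
        exact hc.le
      · simp only [hc, and_false, if_false, sum_const_zero]
        positivity)
  refine le_trans (cnt_mono ?_) h
  rintro S ⟨q, hq1, hq2⟩
  refine ⟨q, ?_⟩
  simp only [hq2, and_true]
  rw [sum_boole, filter_filter]
  refine le_trans (by linarith) (hq1.trans (le_of_eq ?_))
  congr 2
  ext ω
  simp only [mem_filter, mem_univ, true_and, and_assoc]

open Classical in
theorem ev_count_low (r m : ℕ) (hm : 1 ≤ m) (δ ζ : ℝ) (hδ : 0 < δ) (hζ : 0 < ζ) :
    ∃ s₀ : ℕ, ∀ s ≥ s₀, ∀ (V : Type) [Fintype V] [DecidableEq V], 0 < Fintype.card V →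
      ∀ (Φ : (Fin r → V) → (Fin r → V) → (Fin m → V) → Prop),
      cnt (fun S : Fin s → V => ∃ q : (Fin r → Fin s) × (Fin r → Fin s),
        ((univ.filter fun ω : Fin m → Fin s => Function.Injective ω ∧
          (∀ i, ω i ∈ rest q.1 q.2) ∧ Φ (S ∘ q.1) (S ∘ q.2) (S ∘ ω)).card : ℝ) ≤
          δ / 4 * (s : ℝ) ^ m ∧
        δ * (Fintype.card V : ℝ) ^ m < cnt (Φ (S ∘ q.1) (S ∘ q.2))) ≤
        ζ * (Fintype.card V : ℝ) ^ s := by
  obtain ⟨s₀, hs₀⟩ := general_event r m hm (δ / 2) ζ (by linarith) hζ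
  refine ⟨max s₀ (max 1 ⌈4 * m * (2 * r + m) / δ⌉₊), fun s hs V _ _ hV Φ => ?_⟩
  have hsa : s₀ ≤ s := (le_max_left _ _).trans hs
  have hsb : 1 ≤ s := ((le_max_left _ _).trans (le_max_right _ _)).trans hs
  have hsc : 4 * m * (2 * r + m) / δ ≤ (s : ℝ) := by
    refine (Nat.le_ceil _).trans ?_
    exact_mod_cast ((le_max_right _ _).trans (le_max_right _ _)).trans hs
  have hn : (0 : ℝ) < Fintype.card V := by exact_mod_cast hV
  -- the total number of tuples
  have htot : ∀ P : (Fin m → V) → Prop,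
      cnt P + cnt (fun w => ¬ P w) = (Fintype.card V : ℝ) ^ m := by
    intro P
    rw [cnt_eq, cnt_eq, ← Nat.cast_add, card_filter_add_card_filter_not, card_univ]
    simp
  rcases le_or_gt δ 1 with hδ1 | hδ1
  · have h := hs₀ s hsa V hV
      (fun x y w => if ¬ Φ x y w ∧ δ * (Fintype.card V : ℝ) ^ m < cnt (Φ x y) then 1 else 0)
      (fun _ _ => 1 - δ)
      (fun x y w => by split_ifs <;> norm_num)
      (fun x y w => by split_ifs <;> norm_num)
      (fun _ _ => by linarith)
      (fun x y => by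
        by_cases hc : δ * (Fintype.card V : ℝ) ^ m < cnt (Φ x y)
        · simp only [hc, and_true]
          rw [sum_boole, ← cnt_eq]
          have := htot (Φ x y)
          linarith
        · simp only [hc, and_false, if_false, sum_const_zero]
          exact mul_nonneg (by linarith) (by positivity))
    refine le_trans (cnt_mono ?_) h
    rintro S ⟨q, hq1, hq2⟩
    refine ⟨q, ?_⟩
    simp only [hq2, and_true]
    rw [sum_boole, filter_filter]
    have h1 := inj_rest_card (m := m) q.1 q.2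
    have h2 := pow_est (r := r) (m := m) hδ hsc hsb
    have h3 : ((univ.filter fun ω : Fin m → Fin s => Function.Injective ω ∧
        ∀ i, ω i ∈ rest q.1 q.2).card : ℝ) =
        ((univ.filter fun ω : Fin m → Fin s => Function.Injective ω ∧
          (∀ i, ω i ∈ rest q.1 q.2) ∧ Φ (S ∘ q.1) (S ∘ q.2) (S ∘ ω)).card : ℝ) +
        ((univ.filter fun ω : Fin m → Fin s => (Function.Injective ω ∧
          ∀ i, ω i ∈ rest q.1 q.2) ∧ ¬ Φ (S ∘ q.1) (S ∘ q.2) (S ∘ ω)).card : ℝ) := by
      rw [← card_filter_add_card_filter_not (s := univ.filter fun ω : Fin m → Fin s =>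
        Function.Injective ω ∧ ∀ i, ω i ∈ rest q.1 q.2)
        (fun ω => Φ (S ∘ q.1) (S ∘ q.2) (S ∘ ω)), filter_filter, filter_filter, Nat.cast_add]
      congr 3
      ext ω
      simp only [mem_filter, mem_univ, true_and, and_assoc]
    have h4 : (((s - (2 * r + m)) ^ m : ℕ) : ℝ) ≤ ((univ.filter fun ω : Fin m → Fin s =>
        Function.Injective ω ∧ ∀ i, ω i ∈ rest q.1 q.2).card : ℝ) := by exact_mod_cast h1
    nlinarith
  · have h0 : cnt (fun S : Fin s → V => ∃ q : (Fin r → Fin s) × (Fin r → Fin s),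
        ((univ.filter fun ω : Fin m → Fin s => Function.Injective ω ∧
          (∀ i, ω i ∈ rest q.1 q.2) ∧ Φ (S ∘ q.1) (S ∘ q.2) (S ∘ ω)).card : ℝ) ≤
          δ / 4 * (s : ℝ) ^ m ∧
        δ * (Fintype.card V : ℝ) ^ m < cnt (Φ (S ∘ q.1) (S ∘ q.2))) = 0 := by
      apply cnt_false
      rintro S ⟨q, -, hq2⟩
      have h1 := htot (Φ (S ∘ q.1) (S ∘ q.2))
      have h2 := cnt_nonneg (fun w => ¬ Φ (S ∘ q.1) (S ∘ q.2) w)
      have h3 : (0 : ℝ) < (Fintype.card V : ℝ) ^ m := by positivity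
      nlinarith
    rw [h0]
    positivity

end Pool.Agent.Lib.TwoPaths
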