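import Pool.Agent.Lib.TwoPaths.D5b

/-!
# D5c: transfer of the extremal structure from the sample

(ev_type) For large `s`, for all but `ζ n^s` samples, all `a, b` and all `κ`, `1 ≤ i < r`: with
`Z = Z (S∘a) (S∘b) : V → ℝ` (an arbitrary function attached to the pair), if the sample has the
structure `ExtType r (δ/4) i {k | 0 < smpl a b Z S k} (fun g => c (g.image S)) κ` then `V` has the
structure `ExtType r δ i {v | 0 < Z v} c κ`.

PROOF. Union bound over the `2 (r-1)` pairs `(i, κ)` and over the following four events (each of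
count at most `ζ' n^s` with `ζ' = ζ/(8 r)`), `A = A x y = {v | 0 < Z x y v}`, `n = |V|`:
 * `ev_count_low` (`m = r`) with `Φ x y w = (w injective, #{j | 0 < Z x y (w j)} = i, c [w] ≠ κ)`.
   An injective `ω` into `rest a b` with `Φ (S∘a) (S∘b) (S∘ω)` is an injective tuple of `Fin s` with
   `#{j | 0 < smpl (ω j)} = i` and `c ((univ.image ω).image S) ≠ κ`; so the sample count is at most
   `(δ/4) s^r`, hence `cnt Φ ≤ δ n^r`: second clause of `ExtType`.
 * the same with `#{…} + 1 = i ∨ #{…} = i + 1` and `c [w] = κ`: third clause.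
 * `|A| ≤ (i/r + δ) n`: `general_event` with `m = 1`, `F x y w = [¬ 0 < Z (w 0)]` if
   `|A| > (i/r + δ) n`, else `0`; `μ = max 0 (1 - i/r - δ)`, deviation `δ/2`.  Outside the event, if
   `|A| > (i/r+δ) n` (so `i/r + δ < 1`): the number of `k ∈ rest a b` with `0 < Z (S k)` is more than
   `|rest a b| - (1 - i/r - δ/2) s ≥ (i/r + δ/2) s - 2r`; but it is at most
   `|{k | 0 < smpl k}| ≤ (i/r + δ/4) s`.  Contradiction for `s ≥ 8 r/δ`.
 * `|A| ≥ (i/r - δ) n`: `F x y w = [0 < Z (w 0)]` if `|A| < (i/r - δ) n`, else `0`;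
   `μ = max 0 (i/r - δ)`, deviation `δ/2`.  Outside the event, if `|A| < (i/r-δ) n`: the number of
   `k ∈ rest a b` with `0 < Z (S k)` is less than `(i/r - δ/2) s`, but it is at least
   `|{k | 0 < smpl k}| - 2r ≥ (i/r - δ/4) s - 2r`.  Contradiction for `s ≥ 8r/δ`.

(ev_mono) For large `s` (`s ≥ 1`), for all but `ζ n^s` samples and all `κ`: if at most `(δ/4) s^r`
injective tuples `a` of `Fin s` have `c (univ.image (S ∘ a)) ≠ κ`, then at most `δ n^r` injective tuples `x` of `V`
have `c [x] ≠ κ`.  Proof: `ev_count_low` with `Φ x y w = (w injective ∧ c [w] ≠ κ)` for both `κ`, and any pair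
`(a, b)` (restricting to `rest a b` only decreases the sample count; `S ∘ ω` injective implies `ω`
injective).
-/

namespace Pool.Agent.Lib.TwoPaths

open Finset
open Pool.Agent.Lib.MP_952639_co

open Classical in
private def LowBad {V : Type} [Fintype V] [DecidableEq V] {r s : ℕ} (m : ℕ) (δ : ℝ)
    (Φ : (Fin r → V) → (Fin r → V) → (Fin m → V) → Prop) (S : Fin s → V) : Prop :=
  ∃ q : (Fin r → Fin s) × (Fin r → Fin s),
        ((univ.filter fun ω : Fin m → Fin s => Function.Injective ω ∧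
          (∀ i, ω i ∈ rest q.1 q.2) ∧ Φ (S ∘ q.1) (S ∘ q.2) (S ∘ ω)).card : ℝ) ≤
          δ / 4 * (s : ℝ) ^ m ∧
        δ * (Fintype.card V : ℝ) ^ m < cnt (Φ (S ∘ q.1) (S ∘ q.2))

open Classical in
private def GenBad {V : Type} [Fintype V] [DecidableEq V] {r s : ℕ} (m : ℕ) (ε : ℝ)
    (F : (Fin r → V) → (Fin r → V) → (Fin m → V) → ℝ) (μ : (Fin r → V) → (Fin r → V) → ℝ)
    (S : Fin s → V) : Prop :=
  ∃ q : (Fin r → Fin s) × (Fin r → Fin s),
        (μ (S ∘ q.1) (S ∘ q.2) + ε) * (s : ℝ) ^ m ≤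
          ∑ ω ∈ univ.filter (fun ω : Fin m → Fin s => Function.Injective ω ∧
            ∀ i, ω i ∈ rest q.1 q.2), F (S ∘ q.1) (S ∘ q.2) (S ∘ ω)

private theorem low_use {V : Type} [Fintype V] [DecidableEq V] {r s m : ℕ} {δ : ℝ}
    {Φ : (Fin r → V) → (Fin r → V) → (Fin m → V) → Prop} {S : Fin s → V}
    (h : ¬ LowBad m δ Φ S) (a b : Fin r → Fin s) (X : Finset (Fin m → Fin s))
    (hX : ∀ ω : Fin m → Fin s, Function.Injective ω → (∀ i, ω i ∈ rest a b) →
      Φ (S ∘ a) (S ∘ b) (S ∘ ω) → ω ∈ X) (hc : (X.card : ℝ) ≤ δ / 4 * (s : ℝ) ^ m) :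
    cnt (Φ (S ∘ a) (S ∘ b)) ≤ δ * (Fintype.card V : ℝ) ^ m := by
  classical
  by_contra hcon
  push Not at hcon
  refine h ⟨(a, b), le_trans (Nat.cast_le.2 (card_le_card ?_)) hc, hcon⟩
  intro ω hω
  rw [mem_filter] at hω
  exact hX ω hω.2.1 hω.2.2.1 hω.2.2.2

private theorem gen_use {V : Type} [Fintype V] [DecidableEq V] {r s : ℕ} {ε : ℝ}
    {g : (Fin r → V) → (Fin r → V) → V → ℝ} {μ : (Fin r → V) → (Fin r → V) → ℝ}
    {S : Fin s → V} (h : ¬ GenBad 1 ε (fun x y w => g x y (w 0)) μ S) (a b : Fin r → Fin s) :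
    ∑ k ∈ rest a b, g (S ∘ a) (S ∘ b) (S k) < (μ (S ∘ a) (S ∘ b) + ε) * s := by
  classical
  by_contra hcon
  push Not at hcon
  refine h ⟨(a, b), ?_⟩
  rw [pow_one]
  refine le_trans hcon (le_of_eq ?_)
  symm
  refine Finset.sum_nbij' (fun ω => ω 0) (fun k _ => k) ?_ ?_ ?_ ?_ ?_
  · intro ω hω
    rw [mem_filter] at hω
    exact hω.2.2 0
  · intro k hk
    rw [mem_filter]
    exact ⟨mem_univ _, fun x y _ => Subsingleton.elim x y, fun _ => hk⟩
  · intro ω _
    funext i
    rw [Subsingleton.elim i 0]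
  · intro k _
    rfl
  · intro ω _
    rfl

private theorem rest_card {r s : ℕ} (a b : Fin r → Fin s) :
    (s : ℝ) ≤ ((rest a b).card : ℝ) + 2 * r := by
  have h1 : (univ \ rest a b).card ≤ r + r := by
    have h2 : univ \ rest a b ⊆ univ.image a ∪ univ.image b := by
      intro k hk
      rw [mem_sdiff] at hk
      by_contra hc
      exact hk.2 (by unfold rest; rw [mem_sdiff]; exact ⟨mem_univ _, hc⟩)
    refine (card_le_card h2).trans ((card_union_le _ _).trans ?_)
    have h3 : (univ.image a).card ≤ r := by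
      refine card_image_le.trans ?_
      rw [card_univ, Fintype.card_fin]
    have h4 : (univ.image b).card ≤ r := by
      refine card_image_le.trans ?_
      rw [card_univ, Fintype.card_fin]
    omega
  rw [card_univ_sdiff, Fintype.card_fin] at h1
  have h5 : s ≤ (rest a b).card + (r + r) := by omega
  have h6 : (s : ℝ) ≤ (((rest a b).card + (r + r) : ℕ) : ℝ) := by exact_mod_cast h5
  push_cast at h6
  linarith

private theorem sum_fin_one {V : Type} [Fintype V] (g : V → ℝ) :
    ∑ w : Fin 1 → V, g (w 0) = ∑ v, g v := by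
  refine Fintype.sum_equiv (Equiv.funUnique (Fin 1) V) _ _ fun w => ?_
  rfl

private theorem sum_not {α : Type*} (X : Finset α) (p : α → Prop) [DecidablePred p] :
    ∑ v ∈ X, (if p v then (0 : ℝ) else 1) = (X.card : ℝ) - ((X.filter p).card : ℝ) := by
  have h1 : ∀ v ∈ X, (if p v then (0 : ℝ) else 1) = 1 - (if p v then (1 : ℝ) else 0) := by
    intro v _
    by_cases h : p v <;> simp [h]
  rw [sum_congr rfl h1, sum_sub_distrib, sum_boole]
  simp

private theorem size_ok {V : Type} [Fintype V] [DecidableEq V] {r s i : ℕ} (hr : 2 ≤ r)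
    {δ : ℝ} (hδ : 0 < δ) (hs : 8 * (r : ℝ) ≤ δ * s) (hV : 0 < Fintype.card V) (z : V → ℝ)
    (a b : Fin r → Fin s) (S : Fin s → V)
    (hU : ((i : ℝ) / r + δ) * Fintype.card V < ((univ.filter fun v => 0 < z v).card : ℝ) →
      ∑ k ∈ rest a b, (if 0 < z (S k) then (0 : ℝ) else 1) <
        (max 0 (1 - (i : ℝ) / r - δ) + δ / 2) * s)
    (hL : ((univ.filter fun v => 0 < z v).card : ℝ) < ((i : ℝ) / r - δ) * Fintype.card V →
      ∑ k ∈ rest a b, (if 0 < z (S k) then (1 : ℝ) else 0) <
        (max 0 ((i : ℝ) / r - δ) + δ / 2) * s)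
    (hA : |((univ.filter fun k => 0 < smpl a b z S k).card : ℝ) - i * (s : ℝ) / r| ≤
      δ / 4 * s) :
    |((univ.filter fun v => 0 < z v).card : ℝ) - i * Fintype.card V / r| ≤
      δ * Fintype.card V := by
  have hn : (0 : ℝ) < Fintype.card V := by exact_mod_cast hV
  have hr0 : (0 : ℝ) < r := by exact_mod_cast (by omega : 0 < r)
  have hs0 : (0 : ℝ) < s := by
    by_contra hc
    push Not at hc
    nlinarith
  have hrest := rest_card a b
  set N : ℝ := (((rest a b).filter fun k => 0 < z (S k)).card : ℝ) with hN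
  have h1 : N ≤ ((univ.filter fun k => 0 < smpl a b z S k).card : ℝ) := by
    rw [hN]
    refine Nat.cast_le.2 (card_le_card ?_)
    intro k hk
    rw [mem_filter] at hk
    rw [mem_filter]
    refine ⟨mem_univ _, ?_⟩
    unfold smpl
    rw [if_pos hk.1]
    exact hk.2
  have h2 : ((univ.filter fun k => 0 < smpl a b z S k).card : ℝ) ≤ N + 2 * r := by
    have h3 : (univ.filter fun k => 0 < smpl a b z S k) ⊆
        ((rest a b).filter fun k => 0 < z (S k)) ∪ (univ \ rest a b) := by
      intro k hk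
      rw [mem_filter] at hk
      rw [mem_union]
      by_cases hkr : k ∈ rest a b
      · left
        rw [mem_filter]
        refine ⟨hkr, ?_⟩
        have h4 := hk.2
        unfold smpl at h4
        rw [if_pos hkr] at h4
        exact h4
      · right
        rw [mem_sdiff]
        exact ⟨mem_univ _, hkr⟩
    have h4 := (card_le_card h3).trans (card_union_le _ _)
    have h5 : (univ \ rest a b).card = s - (rest a b).card := by
      rw [card_univ_sdiff, Fintype.card_fin]
    have h6 : (rest a b).card ≤ s := by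
      have := card_le_univ (rest a b)
      rwa [Fintype.card_fin] at this
    have h7 : ((univ.filter fun k => 0 < smpl a b z S k).card : ℝ) ≤
        ((((rest a b).filter fun k => 0 < z (S k)).card + (univ \ rest a b).card : ℕ) : ℝ) := by
      exact_mod_cast h4
    rw [h5] at h7
    push_cast [Nat.cast_sub h6] at h7
    rw [hN]
    linarith
  rw [abs_le] at hA
  have e1 : (i : ℝ) * s / r = (i : ℝ) / r * s := by ring
  have e2 : (i : ℝ) * Fintype.card V / r = (i : ℝ) / r * Fintype.card V := by ring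
  rw [e1] at hA
  rw [e2, abs_le]
  constructor
  · by_contra hc
    push Not at hc
    have h3 : ((univ.filter fun v => 0 < z v).card : ℝ) <
        ((i : ℝ) / r - δ) * Fintype.card V := by
      linarith
    have h4 := hL h3
    rw [sum_boole, ← hN] at h4
    have h5 : 0 < (i : ℝ) / r - δ := by
      by_contra hc2
      push Not at hc2
      have h6 : (0 : ℝ) ≤ ((univ.filter fun v => 0 < z v).card : ℝ) := Nat.cast_nonneg _
      nlinarith
    rw [max_eq_right h5.le] at h4
    nlinarith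
  · by_contra hc
    push Not at hc
    have h3 : ((i : ℝ) / r + δ) * Fintype.card V <
        ((univ.filter fun v => 0 < z v).card : ℝ) := by
      linarith
    have h4 := hU h3
    rw [sum_not, ← hN] at h4
    have h5 : 0 < 1 - (i : ℝ) / r - δ := by
      by_contra hc2
      push Not at hc2
      have h6 : ((univ.filter fun v => 0 < z v).card : ℝ) ≤ Fintype.card V := by
        exact_mod_cast card_le_univ _
      nlinarith
    rw [max_eq_right h5.le] at h4
    nlinarith

private theorem cnt_four {V : Type} [Fintype V] [DecidableEq V] {s : ℕ}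
    (P E1 E2 E3 E4 : (Fin s → V) → Prop) (B : ℝ)
    (h : ∀ S, P S → E1 S ∨ E2 S ∨ E3 S ∨ E4 S) (h1 : cnt E1 ≤ B) (h2 : cnt E2 ≤ B)
    (h3 : cnt E3 ≤ B) (h4 : cnt E4 ≤ B) : cnt P ≤ 4 * B := by
  have e1 := cnt_mono h
  have e2 := cnt_or E1 (fun S => E2 S ∨ E3 S ∨ E4 S)
  have e3 := cnt_or E2 (fun S => E3 S ∨ E4 S)
  have e4 := cnt_or E3 E4
  linarith

private theorem one_pair (r : ℕ) (hr : 2 ≤ r) (δ ζ : ℝ) (hδ : 0 < δ) {s : ℕ}
    (hs : 8 * (r : ℝ) ≤ δ * s) {V : Type} [Fintype V] [DecidableEq V]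
    (hV : 0 < Fintype.card V) (c : Finset V → Bool)
    (Z : (Fin r → V) → (Fin r → V) → V → ℝ) (i : ℕ) (κ : Bool)
    (hlow : ∀ Φ : (Fin r → V) → (Fin r → V) → (Fin r → V) → Prop,
      cnt (fun S : Fin s → V => LowBad r δ Φ S) ≤ ζ * (Fintype.card V : ℝ) ^ s)
    (hgen : ∀ (F : (Fin r → V) → (Fin r → V) → (Fin 1 → V) → ℝ)
      (μ : (Fin r → V) → (Fin r → V) → ℝ),
      (∀ x y w, 0 ≤ F x y w) → (∀ x y w, F x y w ≤ 1) → (∀ x y, 0 ≤ μ x y) →
      (∀ x y, ∑ w, F x y w ≤ μ x y * (Fintype.card V : ℝ) ^ 1) →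
      cnt (fun S : Fin s → V => GenBad 1 (δ / 2) F μ S) ≤ ζ * (Fintype.card V : ℝ) ^ s) :
    cnt (fun S : Fin s → V => ∃ q : (Fin r → Fin s) × (Fin r → Fin s),
        ExtType r (δ / 4) i (univ.filter fun k => 0 < smpl q.1 q.2 (Z (S ∘ q.1) (S ∘ q.2)) S k)
          (fun g => c (g.image S)) κ ∧
        ¬ ExtType r δ i (univ.filter fun v => 0 < Z (S ∘ q.1) (S ∘ q.2) v) c κ) ≤
      4 * (ζ * (Fintype.card V : ℝ) ^ s) := by
  classical
  have hn : (0 : ℝ) < Fintype.card V := by exact_mod_cast hV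
  -- the four events
  let Φ1 : (Fin r → V) → (Fin r → V) → (Fin r → V) → Prop := fun x y w =>
    Function.Injective w ∧ (univ.filter fun j => 0 < Z x y (w j)).card = i ∧
      c (univ.image w) ≠ κ
  let Φ2 : (Fin r → V) → (Fin r → V) → (Fin r → V) → Prop := fun x y w =>
    Function.Injective w ∧ ((univ.filter fun j => 0 < Z x y (w j)).card + 1 = i ∨
      (univ.filter fun j => 0 < Z x y (w j)).card = i + 1) ∧ c (univ.image w) = κ
  let gU : (Fin r → V) → (Fin r → V) → V → ℝ := fun x y v =>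
    if ((i : ℝ) / r + δ) * Fintype.card V < ((univ.filter fun v => 0 < Z x y v).card : ℝ) then
      (if 0 < Z x y v then 0 else 1) else 0
  let gL : (Fin r → V) → (Fin r → V) → V → ℝ := fun x y v =>
    if ((univ.filter fun v => 0 < Z x y v).card : ℝ) < ((i : ℝ) / r - δ) * Fintype.card V then
      (if 0 < Z x y v then 1 else 0) else 0
  let μU : (Fin r → V) → (Fin r → V) → ℝ := fun _ _ => max 0 (1 - (i : ℝ) / r - δ)
  let μL : (Fin r → V) → (Fin r → V) → ℝ := fun _ _ => max 0 ((i : ℝ) / r - δ)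
  refine cnt_four _ (fun S => LowBad r δ Φ1 S) (fun S => LowBad r δ Φ2 S)
    (fun S => GenBad 1 (δ / 2) (fun x y w => gU x y (w 0)) μU S)
    (fun S => GenBad 1 (δ / 2) (fun x y w => gL x y (w 0)) μL S) _ ?_ (hlow Φ1) (hlow Φ2) ?_ ?_
  · rintro S ⟨q, hq1, hq2⟩
    by_contra hcon
    push Not at hcon
    obtain ⟨c1, c2, c3, c4⟩ := hcon
    apply hq2
    obtain ⟨k1, k2, k3⟩ := hq1
    rw [Fintype.card_fin] at k1 k2 k3
    have hsm : ∀ (ω : Fin r → Fin s), (∀ i, ω i ∈ rest q.1 q.2) → ∀ j,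
        (0 < smpl q.1 q.2 (Z (S ∘ q.1) (S ∘ q.2)) S (ω j) ↔
          0 < Z (S ∘ q.1) (S ∘ q.2) ((S ∘ ω) j)) := by
      intro ω hω j
      unfold smpl
      rw [if_pos (hω j)]
      rfl
    refine ⟨?_, ?_, ?_⟩
    · refine size_ok hr hδ hs hV (Z (S ∘ q.1) (S ∘ q.2)) q.1 q.2 S ?_ ?_ k1
      · intro h
        have h1 := gen_use c3 q.1 q.2
        refine lt_of_eq_of_lt (sum_congr rfl fun k _ => ?_) h1
        show _ = gU (S ∘ q.1) (S ∘ q.2) (S k)
        simp only [gU]
        rw [if_pos h]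
      · intro h
        have h1 := gen_use c4 q.1 q.2
        refine lt_of_eq_of_lt (sum_congr rfl fun k _ => ?_) h1
        show _ = gL (S ∘ q.1) (S ∘ q.2) (S k)
        simp only [gL]
        rw [if_pos h]
    · have h1 := low_use c1 q.1 q.2 _ ?_ k2
      · refine le_trans ?_ h1
        rw [cnt_eq]
        refine Nat.cast_le.2 (card_le_card ?_)
        intro x hx
        rw [mem_filter] at hx ⊢
        refine ⟨mem_univ _, hx.2.1, ?_, hx.2.2.2⟩
        rw [← hx.2.2.1]
        congr 1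
        ext j
        simp
      · intro ω hω hωr hΦ
        rw [mem_filter]
        refine ⟨mem_univ _, hω, ?_, ?_⟩
        · rw [← hΦ.2.1]
          congr 1
          ext j
          rw [mem_filter, mem_filter, mem_filter]
          constructor
          · rintro ⟨_, _, h⟩
            exact ⟨mem_univ _, (hsm ω hωr j).1 h⟩
          · rintro ⟨_, h⟩
            exact ⟨mem_univ _, mem_univ _, (hsm ω hωr j).2 h⟩
        · have h2 := hΦ.2.2
          rwa [← image_image] at h2
    · intro hir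
      have h1 := low_use c2 q.1 q.2 _ ?_ (k3 hir)
      · refine le_trans ?_ h1
        rw [cnt_eq]
        refine Nat.cast_le.2 (card_le_card ?_)
        intro x hx
        rw [mem_filter] at hx ⊢
        have h2 : (univ.filter fun j => 0 < Z (S ∘ q.1) (S ∘ q.2) (x j)).card =
            (univ.filter fun j => x j ∈ (univ.filter fun v => 0 < Z (S ∘ q.1) (S ∘ q.2) v)).card := by
          congr 1
          ext j
          simp
        refine ⟨mem_univ _, hx.2.1, ?_, hx.2.2.2⟩
        rw [h2]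
        exact hx.2.2.1
      · intro ω hω hωr hΦ
        rw [mem_filter]
        have h2 : (univ.filter fun j => ω j ∈ (univ.filter fun k =>
            0 < smpl q.1 q.2 (Z (S ∘ q.1) (S ∘ q.2)) S k)).card =
            (univ.filter fun j => 0 < Z (S ∘ q.1) (S ∘ q.2) ((S ∘ ω) j)).card := by
          congr 1
          ext j
          rw [mem_filter, mem_filter, mem_filter]
          constructor
          · rintro ⟨_, _, h⟩
            exact ⟨mem_univ _, (hsm ω hωr j).1 h⟩
          · rintro ⟨_, h⟩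
            exact ⟨mem_univ _, mem_univ _, (hsm ω hωr j).2 h⟩
        refine ⟨mem_univ _, hω, ?_, ?_⟩
        · rw [h2]
          exact hΦ.2.1
        · have h3 := hΦ.2.2
          rwa [← image_image] at h3
  · refine hgen _ _ ?_ ?_ ?_ ?_
    · intro x y w
      simp only [gU]
      split_ifs <;> norm_num
    · intro x y w
      simp only [gU]
      split_ifs <;> norm_num
    · intro x y
      exact le_max_left _ _
    · intro x y
      rw [sum_fin_one, pow_one]
      simp only [gU, μU]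
      by_cases h : ((i : ℝ) / r + δ) * Fintype.card V <
          ((univ.filter fun v => 0 < Z x y v).card : ℝ)
      · simp only [if_pos h]
        rw [sum_not, card_univ]
        have h1 : (1 - (i : ℝ) / r - δ) * (Fintype.card V : ℝ) ≤
            max 0 (1 - (i : ℝ) / r - δ) * (Fintype.card V : ℝ) :=
          mul_le_mul_of_nonneg_right (le_max_right _ _) hn.le
        linarith
      · simp only [if_neg h]
        rw [sum_const_zero]
        exact mul_nonneg (le_max_left _ _) hn.le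
  · refine hgen _ _ ?_ ?_ ?_ ?_
    · intro x y w
      simp only [gL]
      split_ifs <;> norm_num
    · intro x y w
      simp only [gL]
      split_ifs <;> norm_num
    · intro x y
      exact le_max_left _ _
    · intro x y
      rw [sum_fin_one, pow_one]
      simp only [gL, μL]
      by_cases h : ((univ.filter fun v => 0 < Z x y v).card : ℝ) <
          ((i : ℝ) / r - δ) * Fintype.card V
      · simp only [if_pos h]
        rw [sum_boole]
        have h1 : ((i : ℝ) / r - δ) * (Fintype.card V : ℝ) ≤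
            max 0 ((i : ℝ) / r - δ) * (Fintype.card V : ℝ) :=
          mul_le_mul_of_nonneg_right (le_max_right _ _) hn.le
        linarith
      · simp only [if_neg h]
        rw [sum_const_zero]
        exact mul_nonneg (le_max_left _ _) hn.le

theorem ev_type (r : ℕ) (hr : 2 ≤ r) (δ ζ : ℝ) (hδ : 0 < δ) (hζ : 0 < ζ) :
    ∃ s₀ : ℕ, ∀ s ≥ s₀, ∀ (V : Type) [Fintype V] [DecidableEq V], 0 < Fintype.card V →
      ∀ (c : Finset V → Bool) (Z : (Fin r → V) → (Fin r → V) → V → ℝ),
      cnt (fun S : Fin s → V => ∃ q : (Fin r → Fin s) × (Fin r → Fin s), ∃ (i : ℕ) (κ : Bool),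
        1 ≤ i ∧ i < r ∧
        ExtType r (δ / 4) i (univ.filter fun k => 0 < smpl q.1 q.2 (Z (S ∘ q.1) (S ∘ q.2)) S k)
          (fun g => c (g.image S)) κ ∧
        ¬ ExtType r δ i (univ.filter fun v => 0 < Z (S ∘ q.1) (S ∘ q.2) v) c κ) ≤
        ζ * (Fintype.card V : ℝ) ^ s := by
  have hr0 : (0 : ℝ) < r := by exact_mod_cast (by omega : 0 < r)
  set ζ' : ℝ := ζ / (8 * r) with hζ'
  have hζ'0 : 0 < ζ' := by positivity
  obtain ⟨s1, hs1⟩ := ev_count_low r r (by omega) δ ζ' hδ hζ'0
  obtain ⟨s2, hs2⟩ := general_event r 1 le_rfl (δ / 2) ζ' (by positivity) hζ'0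
  refine ⟨max (max s1 s2) ⌈8 * (r : ℝ) / δ⌉₊, ?_⟩
  intro s hs V _ _ hV c Z
  have h1 : s1 ≤ s := le_trans (le_trans (le_max_left _ _) (le_max_left _ _)) hs
  have h2 : s2 ≤ s := le_trans (le_trans (le_max_right _ _) (le_max_left _ _)) hs
  have h3 : 8 * (r : ℝ) ≤ δ * s := by
    have h4 : 8 * (r : ℝ) / δ ≤ s := by
      refine le_trans (Nat.le_ceil _) ?_
      exact_mod_cast le_trans (le_max_right _ _) hs
    rw [div_le_iff₀ hδ] at h4
    linarith
  have h5 : ∀ p : Fin r × Bool, cnt (fun S : Fin s → V =>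
      ∃ q : (Fin r → Fin s) × (Fin r → Fin s),
        ExtType r (δ / 4) p.1 (univ.filter fun k => 0 < smpl q.1 q.2 (Z (S ∘ q.1) (S ∘ q.2)) S k)
          (fun g => c (g.image S)) p.2 ∧
        ¬ ExtType r δ p.1 (univ.filter fun v => 0 < Z (S ∘ q.1) (S ∘ q.2) v) c p.2) ≤
      4 * (ζ' * (Fintype.card V : ℝ) ^ s) := fun p =>
    one_pair r hr δ ζ' hδ h3 hV c Z p.1 p.2 (fun Φ => hs1 s h1 V hV Φ)
      (fun F μ a1 a2 a3 a4 => hs2 s h2 V hV F μ a1 a2 a3 a4)
  have h6 := cnt_exists (V := V) _ _ h5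
  refine le_trans (cnt_mono ?_) (le_trans h6 (le_of_eq ?_))
  · rintro S ⟨q, i, κ, hi1, hir, he1, he2⟩
    exact ⟨(⟨i, hir⟩, κ), q, he1, he2⟩
  · rw [Fintype.card_prod, Fintype.card_fin, Fintype.card_bool, hζ']
    push_cast
    field_simp
    ring

open Classical in
theorem ev_mono (r : ℕ) (hr : 2 ≤ r) (δ ζ : ℝ) (hδ : 0 < δ) (hζ : 0 < ζ) :
    ∃ s₀ : ℕ, ∀ s ≥ s₀, ∀ (V : Type) [Fintype V] [DecidableEq V], 0 < Fintype.card V →
      ∀ (c : Finset V → Bool),
      cnt (fun S : Fin s → V => ∃ κ : Bool,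
        ((univ.filter fun a : Fin r → Fin s => Function.Injective a ∧
          c (univ.image (S ∘ a)) ≠ κ).card : ℝ) ≤ δ / 4 * (s : ℝ) ^ r ∧
        δ * (Fintype.card V : ℝ) ^ r < ((univ.filter fun x : Fin r → V => Function.Injective x ∧
          c (univ.image x) ≠ κ).card : ℝ)) ≤
        ζ * (Fintype.card V : ℝ) ^ s := by
  set ζ' : ℝ := ζ / 2 with hζ'
  have hζ'0 : 0 < ζ' := by positivity
  obtain ⟨s1, hs1⟩ := ev_count_low r r (by omega) δ ζ' hδ hζ'0
  refine ⟨max s1 1, ?_⟩
  intro s hs V _ _ hV c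
  have h1 : s1 ≤ s := le_trans (le_max_left _ _) hs
  have h2 : 1 ≤ s := le_trans (le_max_right _ _) hs
  have h5 : ∀ κ : Bool, cnt (fun S : Fin s → V =>
        ((univ.filter fun a : Fin r → Fin s => Function.Injective a ∧
          c (univ.image (S ∘ a)) ≠ κ).card : ℝ) ≤ δ / 4 * (s : ℝ) ^ r ∧
        δ * (Fintype.card V : ℝ) ^ r < ((univ.filter fun x : Fin r → V => Function.Injective x ∧
          c (univ.image x) ≠ κ).card : ℝ)) ≤ ζ' * (Fintype.card V : ℝ) ^ s := by
    intro κ
    have hall : ∀ Φ : (Fin r → V) → (Fin r → V) → (Fin r → V) → Prop,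
        cnt (fun S : Fin s → V => LowBad r δ Φ S) ≤ ζ' * (Fintype.card V : ℝ) ^ s :=
      fun Φ => hs1 s h1 V hV Φ
    have h6 := hall (fun (_ _ w : Fin r → V) => Function.Injective w ∧ c (univ.image w) ≠ κ)
    refine le_trans (cnt_mono ?_) h6
    rintro S ⟨k1, k2⟩
    by_contra hcon
    have a : Fin r → Fin s := fun _ => ⟨0, by omega⟩
    have h7 := low_use hcon a a _ ?_ k1
    · rw [cnt_eq] at h7
      exact absurd k2 (not_lt.2 h7)
    · intro ω hω _ hΦ
      rw [mem_filter]
      exact ⟨mem_univ _, hω, hΦ.2⟩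
  have h6 := cnt_exists (V := V) _ _ h5
  refine le_trans h6 (le_of_eq ?_)
  rw [Fintype.card_bool, hζ']
  push_cast
  ring

end Pool.Agent.Lib.TwoPaths
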