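import Pool.Agent.Lib.TwoPaths.D5a
import Pool.Agent.Lib.TwoPaths.D5c

/-!
# D6: a good sample exists

PROOF.  Union bound (`cnt_or`, `cnt_exists`), `n = |V|`.  The bad events and their counts:
`E1`: `cnt_E1`, `≤ s²/n · n^s`; `E2`: `cnt_E2`, `≤ s^r δc n^s`; `E3`: `cnt_E3`, `≤ s^r (r s) δc n^s`;
the failure of (h5): `rare_event` with `m = r`,
`Bad x y w = ok (cls x) (cls y) ∧ (cls w = cls x ∨ cls w = cls y) ∧ ∑ Z (cls x) (cls y) (w i) < 0`,
`≤ s^(3r) β n^s`; the failures of (h4), (h4'): `ev_sum`, `ev_abs` (with `ok x y := ok (cls x) (cls y)`,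
`Z x y := Z (cls x) (cls y)`) with `ζ = 1/20`; of (h6): `ev_count` with `m = r+1`, for each of the `r! r`
pairs `(τ, i)`, `ζ = 1/(20 r! r)`,
`Φ x y w = (cls (w ∘ castSucc) = cls x ∧ cls ((update (w ∘ castSucc) i (w (last r))) ∘ τ) = cls y)`
(and `w ↦ (w ∘ castSucc, w (last r))` is a bijection `(Fin (r+1) → V) ≃ (Fin r → V) × V`; note
`(S ∘ ω) ∘ castSucc = S ∘ (ω ∘ castSucc)` and `update` commutes with `S ∘ ·`); of (h7): `ev_type`
(`Z x y := Z (cls x) (cls y)`), `ζ = 1/20`; of (h8): `ev_mono`, `ζ = 1/20`.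
`s₀` = the maximum of the finitely many `s₀`'s (and `1`).  Given `s`: `δc = 1/(20 (s^r + s^r r s))`,
`β = 1/(20 s^(3r))`, `n₀ ≥ 20 s²`.  The total is at most
`(1/20)(1 + 1 + 1 + 1 + 1 + 1 + 1 + 1) n^s < n^s`, so some sample avoids all bad events.
-/

namespace Pool.Agent.Lib.TwoPaths

open Finset
open Pool.Agent.Lib.MP_952639_co

private lemma D6_nine {V : Type*} [Fintype V] [DecidableEq V] {s : ℕ} (N : ℝ) (hN0 : 0 < N)
    (hN : N = (Fintype.card V : ℝ) ^ s) (P1 P2 P3 P4 P5 P6 P7 P8 P9 : (Fin s → V) → Prop)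
    (h1 : cnt P1 ≤ 1 / 20 * N) (h2 : cnt P2 ≤ 1 / 20 * N) (h3 : cnt P3 ≤ 1 / 20 * N)
    (h4 : cnt P4 ≤ 1 / 20 * N) (h5 : cnt P5 ≤ 1 / 20 * N) (h6 : cnt P6 ≤ 1 / 20 * N)
    (h7 : cnt P7 ≤ 1 / 20 * N) (h8 : cnt P8 ≤ 1 / 20 * N) (h9 : cnt P9 ≤ 1 / 20 * N) :
    ∃ S, ¬ P1 S ∧ ¬ P2 S ∧ ¬ P3 S ∧ ¬ P4 S ∧ ¬ P5 S ∧ ¬ P6 S ∧ ¬ P7 S ∧ ¬ P8 S ∧ ¬ P9 S := by
  classical
  by_contra hall
  have hall' : ∀ S : Fin s → V, (P1 S ∨ P2 S ∨ P3 S ∨ P4 S ∨ P5 S ∨ P6 S ∨ P7 S ∨ P8 S ∨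
      P9 S) := by
    intro S
    by_contra h
    apply hall
    refine ⟨S, ?_⟩
    tauto
  have h0 : N ≤ cnt (fun S : Fin s → V => P1 S ∨ P2 S ∨ P3 S ∨ P4 S ∨ P5 S ∨ P6 S ∨ P7 S ∨
      P8 S ∨ P9 S) := by
    rw [cnt_eq, filter_true_of_mem (fun S _ => hall' S)]
    simp [hN]
  have hb := h0.trans ((cnt_or _ _).trans (add_le_add le_rfl ((cnt_or _ _).trans
      (add_le_add le_rfl ((cnt_or _ _).trans (add_le_add le_rfl ((cnt_or _ _).trans
      (add_le_add le_rfl ((cnt_or _ _).trans (add_le_add le_rfl ((cnt_or _ _).trans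
      (add_le_add le_rfl ((cnt_or _ _).trans (add_le_add le_rfl
        (cnt_or _ _)))))))))))))))
  linarith

open Classical in
theorem exists_sample (r : ℕ) (hr : 2 ≤ r) (δ η ρ ε₁ : ℝ) (hδ : 0 < δ) (hη : 0 < η) (hρ : 0 < ρ)
    (hε₁ : 0 < ε₁) :
    ∃ s₀ : ℕ, ∀ s ≥ s₀, ∃ (δc β : ℝ) (n₀ : ℕ), 0 < δc ∧ 0 < β ∧
      ∀ (V : Type) [Fintype V] [DecidableEq V], n₀ ≤ Fintype.card V →
      ∀ (c : Finset V → Bool) (cls : (Fin r → V) → ℕ),
      ((excCount cls : ℝ) ≤ δc * (Fintype.card V : ℝ) ^ r) →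
      (∀ i, (crossCount c cls i : ℝ) ≤ δc * (Fintype.card V : ℝ) ^ (r + 1)) →
      ∀ (Z : ℕ → ℕ → V → ℝ) (ok : ℕ → ℕ → Prop),
      (∀ j j', ok j j' → (∀ v, -1 ≤ Z j j' v) ∧ (∀ v, Z j j' v ≤ (r : ℝ) - 1) ∧
        ∑ v, Z j j' v ≤ ε₁ * Fintype.card V ∧ η * Fintype.card V ≤ ∑ v, |Z j j' v| ∧
        cnt (fun u : Fin r → V => (cls u = j ∨ cls u = j') ∧ ∑ i, Z j j' (u i) < 0) ≤
          β * (Fintype.card V : ℝ) ^ r) →
      ∃ S : Fin s → V, ¬ E1 S ∧ ¬ E2 cls S ∧ ¬ E3 c cls S ∧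
        (∀ a b : Fin r → Fin s, ok (cls (S ∘ a)) (cls (S ∘ b)) →
          ∑ k ∈ rest a b, Z (cls (S ∘ a)) (cls (S ∘ b)) (S k) ≤ 3 * ε₁ * s) ∧
        (∀ a b : Fin r → Fin s, ok (cls (S ∘ a)) (cls (S ∘ b)) →
          η / 2 * s ≤ ∑ k ∈ rest a b, |Z (cls (S ∘ a)) (cls (S ∘ b)) (S k)|) ∧
        (∀ a b d : Fin r → Fin s, Function.Injective d → (∀ i, d i ∈ rest a b) →
          ok (cls (S ∘ a)) (cls (S ∘ b)) →
          (cls (S ∘ d) = cls (S ∘ a) ∨ cls (S ∘ d) = cls (S ∘ b)) →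
          0 ≤ ∑ i, Z (cls (S ∘ a)) (cls (S ∘ b)) (S (d i))) ∧
        (∀ (a b : Fin r → Fin s) (τ : Equiv.Perm (Fin r)) (i : Fin r),
          2 * ρ * (s : ℝ) ^ (r + 1) ≤
            ((univ.filter fun ω : Fin (r + 1) → Fin s => Function.Injective ω ∧
              (∀ k, ω k ∈ rest a b) ∧ cls (S ∘ (ω ∘ Fin.castSucc)) = cls (S ∘ a) ∧
              cls (S ∘ (Function.update (ω ∘ Fin.castSucc) i (ω (Fin.last r))) ∘ τ) =
                cls (S ∘ b)).card : ℝ) →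
          ρ * (Fintype.card V : ℝ) ^ (r + 1) ≤
            ((univ.filter fun p : (Fin r → V) × V => cls p.1 = cls (S ∘ a) ∧
              cls ((Function.update p.1 i p.2) ∘ τ) = cls (S ∘ b)).card : ℝ)) ∧
        (∀ (a b : Fin r → Fin s) (i : ℕ) (κ : Bool), 1 ≤ i → i < r →
          ExtType r (δ / 4) i
            (univ.filter fun k => 0 < smpl a b (Z (cls (S ∘ a)) (cls (S ∘ b))) S k)
            (fun g => c (g.image S)) κ →
          ExtType r δ i (univ.filter fun v => 0 < Z (cls (S ∘ a)) (cls (S ∘ b)) v) c κ) ∧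
        (∀ κ : Bool, ((univ.filter fun a : Fin r → Fin s => Function.Injective a ∧
            c (univ.image (S ∘ a)) ≠ κ).card : ℝ) ≤ δ / 4 * (s : ℝ) ^ r →
          ((univ.filter fun x : Fin r → V => Function.Injective x ∧
            c (univ.image x) ≠ κ).card : ℝ) ≤ δ * (Fintype.card V : ℝ) ^ r) := by
  obtain ⟨s1, hs1⟩ := ev_sum r hr ε₁ (1 / 20) hε₁ (by norm_num)
  obtain ⟨s2, hs2⟩ := ev_abs r hr η (1 / 20) hη (by norm_num)
  have hrf : (0 : ℝ) < (r.factorial : ℝ) * r := by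
    have h1 : 0 < r.factorial := Nat.factorial_pos r
    have h2 : 0 < r := by omega
    positivity
  obtain ⟨s3, hs3⟩ := ev_count r (r + 1) (by omega) ρ (1 / (20 * ((r.factorial : ℝ) * r))) hρ
    (by positivity)
  obtain ⟨s4, hs4⟩ := ev_type r hr δ (1 / 20) hδ (by norm_num)
  obtain ⟨s5, hs5⟩ := ev_mono r hr δ (1 / 20) hδ (by norm_num)
  refine ⟨max 1 (max s1 (max s2 (max s3 (max s4 s5)))), fun s hs => ?_⟩
  have hsa : 1 ≤ s := (le_max_left _ _).trans hs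
  have hs' := (le_max_right _ _).trans hs
  have hsb : s1 ≤ s := (le_max_left _ _).trans hs'
  have hs'' := (le_max_right _ _).trans hs'
  have hsc : s2 ≤ s := (le_max_left _ _).trans hs''
  have hs3' := (le_max_right _ _).trans hs''
  have hsd : s3 ≤ s := (le_max_left _ _).trans hs3'
  have hs4' := (le_max_right _ _).trans hs3'
  have hse : s4 ≤ s := (le_max_left _ _).trans hs4'
  have hsf : s5 ≤ s := (le_max_right _ _).trans hs4'
  have hs0 : (0 : ℝ) < s := by exact_mod_cast hsa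
  have hr0 : (0 : ℝ) < r := by exact_mod_cast (by omega : 0 < r)
  set δc : ℝ := 1 / (20 * ((s : ℝ) ^ r + (s : ℝ) ^ r * (r * s))) with hδc
  have hδc0 : 0 < δc := by positivity
  set β : ℝ := 1 / (20 * ((s : ℝ) ^ r * ((s : ℝ) ^ r * (s : ℝ) ^ r))) with hβ
  have hβ0 : 0 < β := by positivity
  refine ⟨δc, β, 20 * (s * s), hδc0, hβ0, ?_⟩
  intro V _ _ hn c cls hexc hcr Z ok hZ
  have hV : 0 < Fintype.card V := lt_of_lt_of_le (by positivity) hn
  have hn0 : (0 : ℝ) < Fintype.card V := by exact_mod_cast hV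
  have hn' : (20 : ℝ) * (s * s) ≤ Fintype.card V := by exact_mod_cast hn
  obtain ⟨N, hN⟩ : ∃ N : ℝ, N = (Fintype.card V : ℝ) ^ s := ⟨_, rfl⟩
  have hN0 : 0 < N := by rw [hN]; positivity
  have c1 : cnt (E1 : (Fin s → V) → Prop) ≤ 1 / 20 * N := by
    refine (cnt_E1 (V := V) (s := s) hV).trans ?_
    rw [← hN]
    have : (s * s : ℝ) * (1 / (Fintype.card V : ℝ)) ≤ 1 / 20 := by
      rw [mul_one_div, div_le_div_iff₀ hn0 (by norm_num)]; linarith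
    calc _ = ((s * s : ℝ) * (1 / (Fintype.card V : ℝ))) * N := by ring
      _ ≤ _ := mul_le_mul_of_nonneg_right this hN0.le
  have c23 : ((s : ℝ) ^ r + (s : ℝ) ^ r * (r * s)) * δc = 1 / 20 := by
    rw [hδc]; field_simp
  have c2 : cnt (E2 cls : (Fin s → V) → Prop) ≤ 1 / 20 * N := by
    refine (cnt_E2 (s := s) hV cls δc hδc0.le hexc).trans ?_
    rw [← hN, ← mul_assoc]
    refine mul_le_mul_of_nonneg_right ?_ hN0.le
    have : 0 ≤ (s : ℝ) ^ r * (r * s) * δc := by positivity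
    linarith
  have c3 : cnt (E3 c cls : (Fin s → V) → Prop) ≤ 1 / 20 * N := by
    refine (cnt_E3 (s := s) hV c cls δc hδc0.le hcr).trans ?_
    rw [← hN, ← mul_assoc]
    refine mul_le_mul_of_nonneg_right ?_ hN0.le
    have : 0 ≤ (s : ℝ) ^ r * δc := by positivity
    linarith
  have c4 := hs1 s hsb V hV (fun x y => ok (cls x) (cls y)) (fun x y => Z (cls x) (cls y))
    (fun x y h => ⟨(hZ _ _ h).1, (hZ _ _ h).2.1, (hZ _ _ h).2.2.1⟩)
  have c5 := hs2 s hsc V hV (fun x y => ok (cls x) (cls y)) (fun x y => Z (cls x) (cls y))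
    (fun x y h => ⟨(hZ _ _ h).1, (hZ _ _ h).2.1, (hZ _ _ h).2.2.2.1⟩)
  have c6 : cnt (fun S : Fin s → V => ∃ q : (Fin r → Fin s) × (Fin r → Fin s) × (Fin r → Fin s),
      Function.Injective q.2.2 ∧ (∀ i, q.2.2 i ∈ rest q.1 q.2.1) ∧
        (fun (x y w : Fin r → V) => ok (cls x) (cls y) ∧ (cls w = cls x ∨ cls w = cls y) ∧
          ∑ i, Z (cls x) (cls y) (w i) < 0) (S ∘ q.1) (S ∘ q.2.1) (S ∘ q.2.2)) ≤ 1 / 20 * N := by
    refine (rare_event (s := s) hV β hβ0.le (fun (x y w : Fin r → V) => ok (cls x) (cls y) ∧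
      (cls w = cls x ∨ cls w = cls y) ∧ ∑ i, Z (cls x) (cls y) (w i) < 0) ?_).trans ?_
    · intro x y
      by_cases h : ok (cls x) (cls y)
      · exact (cnt_mono (fun w hw => hw.2)).trans (hZ _ _ h).2.2.2.2
      · rw [cnt_false (fun w hw => h hw.1)]
        positivity
    · rw [← hN, ← mul_assoc]
      refine mul_le_mul_of_nonneg_right (le_of_eq ?_) hN0.le
      rw [hβ]; field_simp
  obtain ⟨Φ, hΦ⟩ : ∃ Φ : Equiv.Perm (Fin r) × Fin r → (Fin r → V) → (Fin r → V) →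
      (Fin (r + 1) → V) → Prop, ∀ p x y w, Φ p x y w ↔ (cls (w ∘ Fin.castSucc) = cls x ∧
        cls (Function.update (w ∘ Fin.castSucc) p.2 (w (Fin.last r)) ∘ p.1) = cls y) :=
    ⟨_, fun _ _ _ _ => Iff.rfl⟩
  have c7 := cnt_exists (V := V) (s := s) (ι := Equiv.Perm (Fin r) × Fin r)
    (fun p S => ∃ q : (Fin r → Fin s) × (Fin r → Fin s),
        2 * ρ * (s : ℝ) ^ (r + 1) ≤ ((univ.filter fun ω : Fin (r + 1) → Fin s =>
          Function.Injective ω ∧ (∀ i, ω i ∈ rest q.1 q.2) ∧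
          Φ p (S ∘ q.1) (S ∘ q.2) (S ∘ ω)).card : ℝ) ∧
        cnt (Φ p (S ∘ q.1) (S ∘ q.2)) < ρ * (Fintype.card V : ℝ) ^ (r + 1))
    (1 / (20 * ((r.factorial : ℝ) * r)) * N) (by
      intro p
      rw [hN]
      exact hs3 s hsd V hV (Φ p))
  have c7' : (Fintype.card (Equiv.Perm (Fin r) × Fin r) : ℝ) *
      (1 / (20 * ((r.factorial : ℝ) * r)) * N) ≤ 1 / 20 * N := by
    rw [Fintype.card_prod, Fintype.card_perm, Fintype.card_fin, Nat.cast_mul, ← mul_assoc]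
    refine mul_le_mul_of_nonneg_right (le_of_eq ?_) hN0.le
    field_simp
  have c8 := hs4 s hse V hV c (fun x y => Z (cls x) (cls y))
  have c9 := hs5 s hsf V hV c
  rw [← hN] at c4 c5 c8 c9
  obtain ⟨S, g1, g2, g3, g4, g5, g6, g7, g8, g9⟩ := D6_nine N hN0 hN _ _ _ _ _ _ _ _ _
    c1 c2 c3 c4 c5 c6 (c7.trans c7') c8 c9
  refine ⟨S, g1, g2, g3, ?_, ?_, ?_, ?_, ?_, ?_⟩
  · intro a b h
    by_contra hc
    exact g4 ⟨(a, b), h, not_le.1 hc⟩
  · intro a b h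
    by_contra hc
    exact g5 ⟨(a, b), h, not_le.1 hc⟩
  · intro a b d hd hdr h h'
    by_contra hc
    exact g6 ⟨(a, b, d), hd, hdr, h, h', not_le.1 hc⟩
  · intro a b τ i h
    by_contra hc
    rw [not_le] at hc
    apply g7
    refine ⟨(τ, i), (a, b), h.trans ?_, lt_of_le_of_lt ?_ hc⟩
    · refine Nat.cast_le.2 (card_le_card ?_)
      intro ω hω
      rw [mem_filter] at hω ⊢
      refine ⟨mem_univ _, hω.2.1, hω.2.2.1, (hΦ _ _ _ _).2 ⟨hω.2.2.2.1, ?_⟩⟩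
      have h2 := hω.2.2.2.2
      have h3 : S ∘ (Function.update (ω ∘ Fin.castSucc) i (ω (Fin.last r)) ∘ τ) =
          Function.update ((S ∘ ω) ∘ Fin.castSucc) i ((S ∘ ω) (Fin.last r)) ∘ τ := by
        rw [← Function.comp_assoc, Function.comp_update]
        rfl
      rw [h3] at h2
      exact h2
    · rw [cnt_eq]
      refine Nat.cast_le.2 (card_le_card_of_injOn (fun w => (w ∘ Fin.castSucc, w (Fin.last r)))
        ?_ ?_)
      · intro w hw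
        rw [mem_coe, mem_filter] at hw
        rw [mem_coe, mem_filter]
        have h2 := (hΦ _ _ _ _).1 hw.2
        exact ⟨mem_univ _, h2.1, h2.2⟩
      · intro w _ w' _ hww
        funext k
        refine Fin.lastCases ?_ (fun j => ?_) k
        · exact congrArg Prod.snd hww
        · exact congrFun (congrArg Prod.fst hww) j
  · intro a b i κ h1 h2 h3
    by_contra hc
    exact g8 ⟨(a, b), i, κ, h1, h2, h3, hc⟩
  · intro κ h
    by_contra hc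
    exact g9 ⟨κ, h, not_le.1 hc⟩

end Pool.Agent.Lib.TwoPaths
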