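import Pool.Agent.Lib.TwoPaths.F1

/-!
# F3: branches of a component

Let `C` be the component of `f`.  For a neighbour pair `(d, f')` (`NPair`) with potential `ψ` of
`(d, f')` the *branch* of `d` is `{g : ψ g = ψ d}`.

(branch) `ψ` is constant along adjacent pairs outside `C` (`pot_step` applied to the potential of
`(d, f')`: note `Conn f' g ↔ Conn f g`), `ψ` is constant `= ψ f'` on `C` (`pot_conn`), and
`ψ d ≠ ψ f'` (`pot_ne`).

(exists_branch) every `r`-set `h ∉ C` lies in some branch: take a `JAdj` path from `h` to `f`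
(`j_connected`), and its first entry (`first_entry`) into `C`: a path from `h` to `d` outside `C`,
`JAdj d f'`, `f' ∈ C`.  `c d ≠ c f'` since otherwise `d ∈ C`.  A potential `ψ` of `(d, f')` exists
(`exists_pot`), and `ψ h = ψ d` by (branch) along the path (`rtg_const`).

(pot_unique) two potentials of the same pair differ by a constant on `r`-sets, and a potential of
`(e, f)` is a potential of `(e', f')` if `Conn e e'`, `Conn f f'` (because `chi` only depends on the
components).
-/

namespace Pool.Agent.Lib.TwoPaths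

open Finset Relation
open Pool.Agent.Lib.MP_952639_co

theorem branch {S : Type*} [Fintype S] [DecidableEq S] {c : Finset S → Bool} {r : ℕ}
    {f d f' : Finset S} (h : NPair c r f d f') {ψ : Finset S → ZMod 2} (hψ : IsPot c r d f' ψ) :
    (∀ g g', JAdj r g g' → ¬ Conn c r f g → ¬ Conn c r f g' → ψ g = ψ g') ∧
    (∀ g, Conn c r f g → ψ g = ψ f') ∧ ψ d ≠ ψ f' ∧ ¬ Conn c r f d := by
  obtain ⟨hff', hadj, hcol⟩ := h
  refine ⟨?_, ?_, pot_ne hadj hψ, ?_⟩
  · intro g g' hg h1 h2
    exact pot_step hψ hg (fun h => h1 (hff'.trans h)) (fun h => h2 (hff'.trans h))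
  · intro g hg
    exact (pot_conn hcol hψ (hff'.symm.trans hg)).symm
  · intro hd
    exact hcol (by rw [← hd.color, ← hff'.color])

theorem exists_branch {S : Type*} [Fintype S] [DecidableEq S] {c : Finset S → Bool} {r : ℕ}
    {f h : Finset S} (hf : f.card = r) (hh : h.card = r) (hC : ¬ Conn c r f h) :
    ∃ d f' ψ, NPair c r f d f' ∧ IsPot c r d f' ψ ∧ ψ h = ψ d := by
  obtain ⟨d, f', hpath, hd, hdf, hf'⟩ := first_entry (P := fun g => Conn c r f g)
    (j_connected r hh hf) hC ReflTransGen.refl
  have hcd : c d ≠ c f' := by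
    intro h'
    exact hd ((conn_iff_of_step hdf h' f).mpr hf')
  obtain ⟨ψ, hψ⟩ := exists_pot (r := r) hcd
  have hN : NPair c r f d f' := ⟨hf', hdf, hcd⟩
  have hb := (branch hN hψ).1
  exact ⟨d, f', ψ, hN, hψ, rtg_const (fun a b hab => hb a b hab.1 hab.2.1 hab.2.2) hpath⟩

theorem pot_congr {S : Type*} [Fintype S] [DecidableEq S] {c : Finset S → Bool} {r : ℕ}
    {e f e' f' : Finset S} (he : Conn c r e e') (hf : Conn c r f f') {φ : Finset S → ZMod 2}
    (hφ : IsPot c r e f φ) : IsPot c r e' f' φ := by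
  intro a b hab
  rw [hφ a b hab]
  have h1 : ∀ g, Conn c r e g ↔ Conn c r e' g := fun g =>
    ⟨fun h => he.symm.trans h, fun h => he.trans h⟩
  have h2 : ∀ g, Conn c r f g ↔ Conn c r f' g := fun g =>
    ⟨fun h => hf.symm.trans h, fun h => hf.trans h⟩
  unfold chi
  rw [h1 a, h1 b, h2 a, h2 b]

theorem pot_unique {S : Type*} [Fintype S] [DecidableEq S] {c : Finset S → Bool} {r : ℕ}
    {e f : Finset S} {φ φ' : Finset S → ZMod 2}
    (hφ : IsPot c r e f φ) (hφ' : IsPot c r e f φ') {a b : Finset S} (ha : a.card = r)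
    (hb : b.card = r) : φ a = φ b ↔ φ' a = φ' b := by
  have h1 : φ a - φ' a = φ b - φ' b := by
    refine rtg_const (φ := fun g => φ g - φ' g) ?_ (j_connected r ha hb)
    intro x y hxy
    have h2 := hφ x y hxy
    have h3 := hφ' x y hxy
    have two : ∀ z : ZMod 2, z + z = 0 := CharTwo.add_self_eq_zero
    show φ x - φ' x = φ y - φ' y
    linear_combination h2 - h3 - two (φ y) + two (φ' y)
  constructor
  · intro h
    linear_combination h - h1
  · intro h
    linear_combination h1 + h

end Pool.Agent.Lib.TwoPaths
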