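import Pool.Agent.Lib.TwoPaths.FDefs

/-!
# F4: all branches small implies the component is almost everything

`C` a set of `r`-sets of `S`, `s = |S| > 0`.  Suppose every `r`-set `h ∉ C` has a class `B_h` of
`r`-sets with `h ∈ B_h`, closed under adjacency outside `C`, containing at most `μ₀ s^r` injective
tuples.  Then the number `m` of injective tuples `x` with `[x] ∉ C` satisfies
`(m / s^r)^(2^r) ≤ μ₀`.

PROOF. Let `A` be the finset of these tuples.  By `cube_ineq` the number of pairs `(x, y)` all of
whose mixtures `mix x y I` lie in `A` is at least `(m/s^r)^(2^r) s^(2r)`.  For such a pair let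
`w_j = mix x y {i | i < j}`, `0 ≤ j ≤ r`: `w_0 = x`, `w_r = y`, all `[w_j] ∉ C`, and `w_{j+1}` is
`w_j` with coordinate `j` replaced by `y j`, so `[w_j] = [w_{j+1}]` (if `x j = y j`) or
`JAdj r [w_j] [w_{j+1}]` (both tuples are injective).  By the closure property
`[y] ∈ B_{[x]}`.  So for given `x` there are at most `μ₀ s^r` such `y`, and the number of pairs is
at most `s^r · μ₀ s^r`.  Divide by `s^(2r)`.
-/

namespace Pool.Agent.Lib.TwoPaths

open Finset Relation
open Pool.Agent.Lib.MP_952639_co

private lemma mix_succ_aux {S : Type*} {r : ℕ} (x y : Fin r → S) (j : Fin r) :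
    mix x y (univ.filter fun i : Fin r => (i : ℕ) < (j : ℕ) + 1) =
      Function.update (mix x y (univ.filter fun i : Fin r => (i : ℕ) < (j : ℕ))) j (y j) := by
  funext i
  by_cases h : i = j
  · subst h
    simp [mix]
  · rw [Function.update_of_ne h]
    have h1 : (i : ℕ) ≠ j := fun h' => h (Fin.ext h')
    have h2 : ((i : ℕ) < (j : ℕ) + 1) ↔ ((i : ℕ) < j) := by omega
    unfold mix
    simp only [mem_filter, mem_univ, true_and, h2]

private lemma step_aux {S : Type*} [DecidableEq S] {r : ℕ} (x : Fin r → S) (j : Fin r) (v : S)
    (hx : Function.Injective x) (hx' : Function.Injective (Function.update x j v)) :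
    univ.image x = univ.image (Function.update x j v) ∨
      JAdj r (univ.image x) (univ.image (Function.update x j v)) := by
  by_cases h : v = x j
  · left
    rw [h, Function.update_eq_self]
  · right
    refine ⟨?_, ?_, x j, mem_image_of_mem _ (mem_univ _), v, ?_, ?_⟩
    · rw [card_image_of_injective _ hx, card_univ, Fintype.card_fin]
    · rw [card_image_of_injective _ hx', card_univ, Fintype.card_fin]
    · intro hv
      obtain ⟨i, -, hi⟩ := mem_image.mp hv
      by_cases hij : i = j
      · subst hij
        exact h hi.symm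
      · have h1 : Function.update x j v i = Function.update x j v j := by
          rw [Function.update_of_ne hij, Function.update_self, hi]
        exact hij (hx' h1)
    · ext z
      simp only [mem_image, mem_univ, true_and, mem_insert, mem_erase]
      constructor
      · rintro ⟨i, rfl⟩
        by_cases hij : i = j
        · subst hij
          left
          rw [Function.update_self]
        · right
          rw [Function.update_of_ne hij]
          exact ⟨fun h' => hij (hx h'), i, rfl⟩
      · rintro (rfl | ⟨hz, i, rfl⟩)
        · exact ⟨j, Function.update_self ..⟩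
        · have hij : i ≠ j := fun h' => hz (by rw [h'])
          exact ⟨i, Function.update_of_ne hij ..⟩

theorem case_small {S : Type*} [Fintype S] [DecidableEq S] {r : ℕ} (hS : 0 < Fintype.card S)
    (C : Finset S → Prop) (μ₀ : ℝ) (hμ₀ : 0 ≤ μ₀)
    (hB : ∀ h : Finset S, h.card = r → ¬ C h → ∃ B : Finset S → Prop, B h ∧
      (∀ g g', JAdj r g g' → ¬ C g → ¬ C g' → B g → B g') ∧
      (ntup r B : ℝ) ≤ μ₀ * (Fintype.card S : ℝ) ^ r) :
    ((ntup r (fun g => ¬ C g) : ℝ) / (Fintype.card S : ℝ) ^ r) ^ (2 ^ r) ≤ μ₀ := by
  classical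
  have hN0 : (0 : ℝ) < (Fintype.card S : ℝ) := by exact_mod_cast hS
  obtain ⟨A, hAdef⟩ : ∃ A : Finset (Fin r → S), A = univ.filter fun x : Fin r → S =>
    Function.Injective x ∧ ¬ C (univ.image x) := ⟨_, rfl⟩
  have hA : ntup r (fun g => ¬ C g) = A.card := by
    rw [hAdef]
    unfold ntup
    congr 1
    ext x
    simp only [mem_filter]
  have hAmem : ∀ x, x ∈ A ↔ Function.Injective x ∧ ¬ C (univ.image x) := by
    intro x
    rw [hAdef, mem_filter]
    exact ⟨fun h => h.2, fun h => ⟨mem_univ _, h⟩⟩
  have hcube := cube_ineq hS r A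
  obtain ⟨E, hEdef⟩ : ∃ E : Finset ((Fin r → S) × (Fin r → S)),
    E = univ.filter fun p : (Fin r → S) × (Fin r → S) => ∀ I, mix p.1 p.2 I ∈ A := ⟨_, rfl⟩
  rw [← hEdef] at hcube
  have hEmem : ∀ p ∈ E, ∀ I, mix p.1 p.2 I ∈ A := by
    intro p hp
    rw [hEdef, mem_filter] at hp
    exact hp.2
  have hfib : ∀ x : Fin r → S, ((E.filter fun p => p.1 = x).card : ℝ) ≤
      μ₀ * (Fintype.card S : ℝ) ^ r := by
    intro x
    by_cases hx : x ∈ A
    · obtain ⟨hxi, hxC⟩ := (hAmem x).1 hx
      obtain ⟨B, hBx, hBcl, hBn⟩ := hB (univ.image x)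
        (by rw [card_image_of_injective _ hxi, card_univ, Fintype.card_fin]) hxC
      refine le_trans ?_ hBn
      unfold ntup
      norm_cast
      apply card_le_card_of_injOn (fun p => p.2)
      · intro p hp
        rw [mem_coe, mem_filter] at hp
        obtain ⟨hpE, hp1⟩ := hp
        have hm := hEmem p hpE
        have key : ∀ j, j ≤ r →
            B (univ.image (mix p.1 p.2 (univ.filter fun i : Fin r => (i : ℕ) < j))) := by
          intro j
          induction j with
          | zero =>
            intro _
            have h0 : (univ.filter fun i : Fin r => (i : ℕ) < 0) = ∅ := by simp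
            rw [h0, mix_empty, hp1]
            exact hBx
          | succ j ih =>
            intro hj
            have h1 := ih (by omega)
            have h2 := (hAmem _).1 (hm (univ.filter fun i : Fin r => (i : ℕ) < j))
            have h3 := (hAmem _).1 (hm (univ.filter fun i : Fin r => (i : ℕ) < j + 1))
            have h4 := mix_succ_aux p.1 p.2 (⟨j, by omega⟩ : Fin r)
            simp only at h4
            rw [h4] at h3 ⊢
            rcases step_aux _ _ _ h2.1 h3.1 with h5 | h5
            · rw [← h5]
              exact h1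
            · exact hBcl _ _ h5 h2.2 h3.2 h1
        have hr := key r le_rfl
        have hu : (univ.filter fun i : Fin r => (i : ℕ) < r) = univ := by
          ext i
          simp
        rw [hu, mix_univ] at hr
        have h2 := (hAmem _).1 (hm univ)
        rw [mix_univ] at h2
        rw [mem_coe, mem_filter]
        exact ⟨mem_univ _, h2.1, hr⟩
      · intro p hp q hq h
        rw [mem_coe, mem_filter] at hp hq
        exact Prod.ext (hp.2.trans hq.2.symm) h
    · have h0 : (E.filter fun p => p.1 = x) = ∅ := by
        rw [filter_eq_empty_iff]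
        intro p hp hpx
        have h1 := hEmem p hp ∅
        rw [mix_empty, hpx] at h1
        exact hx h1
      rw [h0, card_empty, Nat.cast_zero]
      positivity
  have hE : (E.card : ℝ) ≤ (Fintype.card S : ℝ) ^ r * (μ₀ * (Fintype.card S : ℝ) ^ r) := by
    have h1 := card_eq_sum_card_fiberwise (s := E) (t := univ) (f := fun p => p.1)
      (fun p _ => mem_coe.2 (mem_univ _))
    rw [h1, Nat.cast_sum]
    refine (sum_le_sum fun x _ => hfib x).trans ?_
    rw [sum_const, card_univ, Fintype.card_fun, Fintype.card_fin, nsmul_eq_mul, Nat.cast_pow]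
  rw [hA]
  have h2 : (Fintype.card S : ℝ) ^ (2 * r) =
      (Fintype.card S : ℝ) ^ r * (Fintype.card S : ℝ) ^ r := by rw [two_mul, pow_add]
  rw [h2] at hcube
  refine le_of_mul_le_mul_right (a := (Fintype.card S : ℝ) ^ r * (Fintype.card S : ℝ) ^ r) ?_
    (by positivity)
  refine (hcube.trans hE).trans (le_of_eq ?_)
  ring

end Pool.Agent.Lib.TwoPaths
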