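import Pool.Agent.Lib.TwoPaths.FDefs

/-!
# F5: a witness supported on a tiny branch implies the component is almost everything

`s = |S| > 0`, `r ≥ 2`.  `C, B` sets of `r`-sets, `B` closed under adjacency outside `C`, at most
`ω^r s^r` injective tuples in `B`.  `l ≥ -1`, `∑ l ≤ ε₁ s`, `∑ |l| ≥ η s`, `3 ε₁ ≤ η`, `0 < η`, and
`HS r l g` implies `g ∉ C`, `g ∈ B`.

PROOF. Write `l⁺ = max (l, 0)`, `l⁻ = max (-l, 0)`, `θ s = ∑ l⁻`.  Then
`η s ≤ ∑ |l| = ∑ l + 2 ∑ l⁻ ≤ ε₁ s + 2 θ s`, so `θ ≥ (η - ε₁)/2 ≥ ε₁` and `θ > 0`, and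
`∑ l⁺ = ∑ l + ∑ l⁻ ≤ (ε₁ + θ) s ≤ 2 θ s`.
Let `Neg = {v : l v < 0}`, `N = |Neg|`.  Every injective tuple with entries in `Neg` has
`HS r l [x]`, so it lies in `B`: `N (N-1) ⋯ (N-r+1) ≤ ω^r s^r`, hence `(N - r)^r ≤ ω^r s^r` if
`N ≥ r`, and `N ≤ ω s + r = ω' s` with `ω' = ω + r/s`.
Since `∑ l⁻ = θ s` and at most `ω' s` terms are nonzero there is `v` with `l⁻ v ≥ θ/ω'`
(`N ≥ 1` because `θ > 0`; note `ω' > 0`).
Consider tuples `x` (arbitrary functions `Fin r → S`) and let `j₀ = 0`.
 (1) the number of `x` with `∑_{j ≠ 0} l⁺ (x j) ≥ θ/ω'` is at most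
     `(r-1) (∑ l⁺) s^(r-1) / (θ/ω') ≤ 2 (r-1) ω' s^r` (Markov).
 (2) the number of `x` with `x j = v` for some `j` is at most `r s^(r-1)`.
 (3) the number of injective `x` with `[x] ∈ B` is at most `ω^r s^r`.
Let `x` be injective, `[x] ∉ C`, not of type (1), (2).  Let `x' = update x 0 v`, injective.
`∑ l over [x'] = l v + ∑_{j≠0} l (x j) < -θ/ω' + θ/ω' = 0`, so `[x'] ∉ C`, `[x'] ∈ B`; `[x]` and
`[x']` are adjacent and both outside `C`, so `[x] ∈ B`: type (3).
Total: `ntup r (¬C) ≤ (2 (r-1) (ω + r/s) + r/s + ω^r) s^r`.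
-/

namespace Pool.Agent.Lib.TwoPaths

open Finset Relation
open Pool.Agent.Lib.MP_952639_co

/-- The sum over all tuples of a function of one coordinate. -/
private lemma sum_coord {S : Type*} [Fintype S] [DecidableEq S] {r : ℕ} (j : Fin r) (f : S → ℝ) :
    ∑ x : Fin r → S, f (x j) = (Fintype.card S : ℝ) ^ (r - 1) * ∑ v, f v := by
  have h1 : ∀ x : Fin r → S, f (x j) = ∏ i, (if i = j then f (x i) else 1) := by
    intro x
    rw [Finset.prod_ite_eq' univ j (fun i => f (x i)), if_pos (mem_univ _)]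
  have h2 : ∑ x : Fin r → S, ∏ i, (if i = j then f (x i) else 1)
      = ∏ i : Fin r, ∑ v : S, (if i = j then f v else 1) := by
    have := Finset.prod_univ_sum (fun _ : Fin r => (univ : Finset S))
      (fun i v => (if i = j then f v else (1 : ℝ)))
    rw [this, Fintype.piFinset_univ]
  rw [Finset.sum_congr rfl (fun x _ => h1 x), h2, ← Finset.mul_prod_erase univ _ (mem_univ j)]
  have h3 : ∏ i ∈ univ.erase j, ∑ v : S, (if i = j then f v else 1)
      = (Fintype.card S : ℝ) ^ (r - 1) := by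
    rw [Finset.prod_congr rfl (fun i hi => ?_), Finset.prod_const, card_erase_of_mem (mem_univ j),
      card_univ, Fintype.card_fin]
    simp [ne_of_mem_erase hi]
  rw [h3]
  simp only [if_true]
  ring

/-- The number of elements of a set all of whose injective tuples are in `B`. -/
private lemma card_neg_le {S : Type*} [Fintype S] [DecidableEq S] {r : ℕ} (hr : 2 ≤ r)
    (B : Finset S → Prop) (ω s : ℝ) (hω : 0 ≤ ω) (hs : 0 ≤ s)
    (hB : (ntup r B : ℝ) ≤ ω ^ r * s ^ r) (Neg : Finset S)
    (hNeg : ∀ x : Fin r → S, Function.Injective x → (∀ j, x j ∈ Neg) → B (univ.image x)) :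
    (Neg.card : ℝ) ≤ ω * s + r := by
  classical
  have h1 : Fintype.card (Fin r ↪ Neg) ≤ ntup r B := by
    unfold ntup
    rw [← Finset.card_univ]
    refine Finset.card_le_card_of_injOn (fun e : Fin r ↪ Neg => fun i => ((e i : Neg) : S)) ?_ ?_
    · intro e _
      have hi : Function.Injective (fun i => ((e i : Neg) : S)) :=
        Subtype.val_injective.comp e.injective
      rw [mem_coe, mem_filter]
      exact ⟨mem_univ _, hi, hNeg _ hi (fun j => (e j).2)⟩
    · intro e _ e' _ h
      ext i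
      exact congrFun h i
  rw [Fintype.card_embedding_eq, Fintype.card_coe, Fintype.card_fin] at h1
  have h2 := Nat.pow_sub_le_descFactorial Neg.card r
  have h3 : ((Neg.card + 1 - r : ℕ) : ℝ) ^ r ≤ (ω * s) ^ r := by
    rw [mul_pow]
    refine le_trans ?_ hB
    exact_mod_cast h2.trans h1
  have h4 : ((Neg.card + 1 - r : ℕ) : ℝ) ≤ ω * s :=
    (pow_le_pow_iff_left₀ (Nat.cast_nonneg _) (mul_nonneg hω hs) (by omega)).1 h3
  have h5 : (Neg.card : ℝ) + 1 - r ≤ ((Neg.card + 1 - r : ℕ) : ℝ) := by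
    have : Neg.card + 1 ≤ (Neg.card + 1 - r) + r := by omega
    have h6 : ((Neg.card + 1 : ℕ) : ℝ) ≤ (((Neg.card + 1 - r) + r : ℕ) : ℝ) := by exact_mod_cast this
    push_cast at h6
    linarith
  linarith

theorem case_tiny {S : Type*} [Fintype S] [DecidableEq S] {r : ℕ} (hr : 2 ≤ r)
    (hS : 0 < Fintype.card S) (C B : Finset S → Prop) (ω ε₁ η : ℝ) (hω : 0 ≤ ω)
    (hε₁ : 0 ≤ ε₁) (hη : 0 < η) (hεη : 3 * ε₁ ≤ η)
    (hBcl : ∀ g g', JAdj r g g' → ¬ C g → ¬ C g' → B g → B g')
    (hB : (ntup r B : ℝ) ≤ ω ^ r * (Fintype.card S : ℝ) ^ r)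
    (l : S → ℝ) (hl : ∀ v, -1 ≤ l v) (hsum : ∑ v, l v ≤ ε₁ * Fintype.card S)
    (habs : η * Fintype.card S ≤ ∑ v, |l v|)
    (hHS : ∀ g, HS r l g → ¬ C g ∧ B g) :
    (ntup r (fun g => ¬ C g) : ℝ) ≤
      (2 * ((r : ℝ) - 1) * (ω + r / Fintype.card S) + r / Fintype.card S + ω ^ r) *
        (Fintype.card S : ℝ) ^ r := by
  classical
  set s : ℝ := (Fintype.card S : ℝ) with hsdef
  have hs0 : 0 < s := by rw [hsdef]; exact_mod_cast hS
  have hr0 : 0 < r := by omega
  have hrR : (2 : ℝ) ≤ r := by exact_mod_cast hr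
  let j0 : Fin r := ⟨0, hr0⟩
  set lm : S → ℝ := fun v => max (-(l v)) 0 with hlm
  set lp : S → ℝ := fun v => max (l v) 0 with hlp
  have hlm0 : ∀ v, 0 ≤ lm v := fun v => le_max_right _ _
  have hlp0 : ∀ v, 0 ≤ lp v := fun v => le_max_right _ _
  have hsub : ∀ v, lp v - lm v = l v := by
    intro v
    simp only [hlm, hlp]
    rcases le_total 0 (l v) with h | h
    · rw [max_eq_left h, max_eq_right (by linarith)]; ring
    · rw [max_eq_right h, max_eq_left (by linarith)]; ring
  have hadd : ∀ v, lp v + lm v = |l v| := by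
    intro v
    simp only [hlm, hlp]
    rcases le_total 0 (l v) with h | h
    · rw [max_eq_left h, max_eq_right (by linarith), abs_of_nonneg h]; ring
    · rw [max_eq_right h, max_eq_left (by linarith), abs_of_nonpos h]; ring
  have hS1 : ∑ v, lp v - ∑ v, lm v = ∑ v, l v := by
    rw [← Finset.sum_sub_distrib]
    exact Finset.sum_congr rfl (fun v _ => hsub v)
  have hS2 : ∑ v, lp v + ∑ v, lm v = ∑ v, |l v| := by
    rw [← Finset.sum_add_distrib]
    exact Finset.sum_congr rfl (fun v _ => hadd v)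
  set θ : ℝ := (∑ v, lm v) / s with hθ
  have hθs : θ * s = ∑ v, lm v := by
    rw [hθ]; field_simp
  have hθ1 : (η - ε₁) * s ≤ 2 * θ * s := by
    have : η * s ≤ ε₁ * s + 2 * (∑ v, lm v) := by linarith
    rw [← hθs] at this
    linarith
  have hθ2 : η - ε₁ ≤ 2 * θ := le_of_mul_le_mul_right hθ1 hs0
  have hθ0 : 0 < θ := by linarith
  have hlpS : ∑ v, lp v ≤ 2 * θ * s := by
    have h1 : ∑ v, lp v ≤ ε₁ * s + θ * s := by linarith
    have h2 : ε₁ ≤ θ := by linarith
    have h3 : ε₁ * s ≤ θ * s := mul_le_mul_of_nonneg_right h2 hs0.le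
    linarith
  set ω' : ℝ := ω + r / s with hω'
  have hω'0 : 0 < ω' := by positivity
  -- the negative vertices
  set Neg : Finset S := univ.filter (fun v => l v < 0) with hNeg
  have himg : ∀ x : Fin r → S, Function.Injective x → (univ.image x).card = r := by
    intro x hx
    rw [card_image_of_injective _ hx, card_univ, Fintype.card_fin]
  have hsumimg : ∀ x : Fin r → S, Function.Injective x →
      ∑ v ∈ univ.image x, l v = ∑ j, l (x j) := by
    intro x hx
    rw [Finset.sum_image (fun a _ b _ h => hx h)]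
  have hN : (Neg.card : ℝ) ≤ ω' * s := by
    have h1 := card_neg_le hr B ω s hω hs0.le hB Neg (fun x hx hxN => by
      refine (hHS _ ⟨himg x hx, ?_⟩).2
      rw [hsumimg x hx]
      refine Finset.sum_neg (fun j _ => ?_) ⟨j0, mem_univ _⟩
      exact (mem_filter.1 (hxN j)).2)
    have h2 : ω' * s = ω * s + r := by
      rw [hω']; field_simp
    rw [h2]; exact h1
  obtain ⟨v, hv⟩ : ∃ v, θ / ω' ≤ lm v := by
    by_contra hcon
    push Not at hcon
    have h1 : ∑ v, lm v = ∑ v ∈ Neg, lm v := by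
      symm
      refine Finset.sum_subset (subset_univ _) (fun v _ hv => ?_)
      have : ¬ l v < 0 := fun h => hv (mem_filter.2 ⟨mem_univ _, h⟩)
      simp only [hlm]
      exact max_eq_right (by linarith)
    have hne : Neg.Nonempty := by
      by_contra hne
      rw [not_nonempty_iff_eq_empty] at hne
      rw [hne, sum_empty] at h1
      have : 0 < θ * s := mul_pos hθ0 hs0
      linarith
    have h2 : ∑ v ∈ Neg, lm v < ∑ v ∈ Neg, θ / ω' :=
      Finset.sum_lt_sum_of_nonempty hne (fun v _ => hcon v)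
    rw [sum_const, nsmul_eq_mul, ← h1, ← hθs] at h2
    have h3 : (Neg.card : ℝ) * (θ / ω') ≤ ω' * s * (θ / ω') :=
      mul_le_mul_of_nonneg_right hN (by positivity)
    have h4 : ω' * s * (θ / ω') = θ * s := by field_simp
    linarith
  have hlv : l v ≤ - (θ / ω') := by
    have h1 : 0 < θ / ω' := by positivity
    have h2 : lm v = -(l v) := by
      simp only [hlm] at hv ⊢
      rcases le_total 0 (-(l v)) with h | h
      · exact max_eq_left h
      · rw [max_eq_right h] at hv
        linarith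
    rw [h2] at hv
    linarith
  -- the three types of tuples
  set T1 : Finset (Fin r → S) := univ.filter fun x => θ / ω' ≤ ∑ j ∈ univ.erase j0, lp (x j)
    with hT1
  set T2 : Finset (Fin r → S) := univ.filter fun x => ∃ j, x j = v with hT2
  have hpw : s ^ r = s ^ (r - 1) * s := by
    rw [← pow_succ]
    congr 1
    omega
  have hc1 : (T1.card : ℝ) ≤ 2 * ((r : ℝ) - 1) * ω' * s ^ r := by
    have h1 : (T1.card : ℝ) * (θ / ω') ≤ ∑ x : Fin r → S, ∑ j ∈ univ.erase j0, lp (x j) := by
      calc (T1.card : ℝ) * (θ / ω') = ∑ x ∈ T1, (θ / ω') := by rw [sum_const, nsmul_eq_mul]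
        _ ≤ ∑ x ∈ T1, ∑ j ∈ univ.erase j0, lp (x j) :=
          Finset.sum_le_sum (fun x hx => (mem_filter.1 hx).2)
        _ ≤ _ := Finset.sum_le_sum_of_subset_of_nonneg (subset_univ _)
          (fun x _ _ => Finset.sum_nonneg (fun j _ => hlp0 _))
    rw [Finset.sum_comm] at h1
    have h2 : ∑ j ∈ univ.erase j0, ∑ x : Fin r → S, lp (x j)
        = ((r : ℝ) - 1) * (s ^ (r - 1) * ∑ v, lp v) := by
      rw [Finset.sum_congr rfl (fun j _ => sum_coord j lp), sum_const, nsmul_eq_mul,
        card_erase_of_mem (mem_univ _), card_univ, Fintype.card_fin, Nat.cast_sub (by omega),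
        Nat.cast_one]
    rw [h2] at h1
    have h3 : ((r : ℝ) - 1) * (s ^ (r - 1) * ∑ v, lp v)
        ≤ ((r : ℝ) - 1) * (s ^ (r - 1) * (2 * θ * s)) := by
      refine mul_le_mul_of_nonneg_left ?_ (by linarith)
      exact mul_le_mul_of_nonneg_left hlpS (by positivity)
    have h4 : (T1.card : ℝ) * (θ / ω') ≤ (2 * ((r : ℝ) - 1) * ω' * s ^ r) * (θ / ω') := by
      refine (h1.trans h3).trans (le_of_eq ?_)
      rw [hpw]
      field_simp
    exact le_of_mul_le_mul_right h4 (by positivity)
  have hc2 : (T2.card : ℝ) ≤ r / s * s ^ r := by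
    have h1 : (T2.card : ℝ) ≤ ∑ x : Fin r → S, ∑ j : Fin r, (if x j = v then (1 : ℝ) else 0) := by
      calc (T2.card : ℝ) = ∑ x ∈ T2, (1 : ℝ) := by rw [sum_const, nsmul_eq_mul, mul_one]
        _ ≤ ∑ x ∈ T2, ∑ j : Fin r, (if x j = v then (1 : ℝ) else 0) := by
          refine Finset.sum_le_sum (fun x hx => ?_)
          obtain ⟨j, hj⟩ := (mem_filter.1 hx).2
          have h2 := Finset.single_le_sum (f := fun j : Fin r => (if x j = v then (1 : ℝ) else 0))
            (fun i _ => by positivity) (mem_univ j)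
          simp only [hj, if_true] at h2
          exact h2
        _ ≤ _ := Finset.sum_le_sum_of_subset_of_nonneg (subset_univ _)
          (fun x _ _ => Finset.sum_nonneg (fun j _ => by positivity))
    rw [Finset.sum_comm] at h1
    have h2 : ∑ j : Fin r, ∑ x : Fin r → S, (if x j = v then (1 : ℝ) else 0)
        = r * s ^ (r - 1) := by
      rw [Finset.sum_congr rfl (fun j _ => sum_coord j (fun u => if u = v then (1 : ℝ) else 0)),
        sum_const, nsmul_eq_mul, card_univ, Fintype.card_fin, Finset.sum_ite_eq' univ v,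
        if_pos (mem_univ _), mul_one]
    rw [h2] at h1
    refine h1.trans (le_of_eq ?_)
    rw [hpw]
    field_simp
  have hsubset : (univ.filter fun x : Fin r → S => Function.Injective x ∧ ¬ C (univ.image x))
      ⊆ T1 ∪ T2 ∪ (univ.filter fun x : Fin r → S => Function.Injective x ∧ B (univ.image x)) := by
    intro x hx
    obtain ⟨-, hxi, hxC⟩ := mem_filter.1 hx
    by_cases h1 : x ∈ T1
    · exact mem_union_left _ (mem_union_left _ h1)
    by_cases h2 : x ∈ T2
    · exact mem_union_left _ (mem_union_right _ h2)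
    refine mem_union_right _ (mem_filter.2 ⟨mem_univ _, hxi, ?_⟩)
    have h1' : ∑ j ∈ univ.erase j0, lp (x j) < θ / ω' := by
      by_contra h
      exact h1 (mem_filter.2 ⟨mem_univ _, not_lt.1 h⟩)
    have h2' : ∀ j, x j ≠ v := fun j hj => h2 (mem_filter.2 ⟨mem_univ _, j, hj⟩)
    set x' : Fin r → S := Function.update x j0 v with hx'
    have hx'0 : x' j0 = v := by rw [hx', Function.update_self]
    have hx'j : ∀ j, j ≠ j0 → x' j = x j := fun j hj => by rw [hx', Function.update_of_ne hj]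
    have hx'i : Function.Injective x' := by
      intro a b hab
      by_cases ha : a = j0
      · by_cases hb : b = j0
        · rw [ha, hb]
        · rw [ha, hx'0, hx'j b hb] at hab
          exact absurd hab.symm (h2' b)
      · by_cases hb : b = j0
        · rw [hb, hx'0, hx'j a ha] at hab
          exact absurd hab (h2' a)
        · rw [hx'j a ha, hx'j b hb] at hab
          exact hxi hab
    have hHSx : HS r l (univ.image x') := by
      refine ⟨himg x' hx'i, ?_⟩
      rw [hsumimg x' hx'i, ← Finset.add_sum_erase univ _ (mem_univ j0), hx'0]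
      have h3 : ∑ j ∈ univ.erase j0, l (x' j) ≤ ∑ j ∈ univ.erase j0, lp (x j) := by
        refine Finset.sum_le_sum (fun j hj => ?_)
        rw [hx'j j (ne_of_mem_erase hj)]
        exact le_max_left _ _
      linarith
    obtain ⟨hC', hB'⟩ := hHS _ hHSx
    refine hBcl _ _ ⟨himg x' hx'i, himg x hxi, v, ?_, x j0, ?_, ?_⟩ hC' hxC hB'
    · exact mem_image.2 ⟨j0, mem_univ _, hx'0⟩
    · intro h
      obtain ⟨j, -, hj⟩ := mem_image.1 h
      by_cases hj0 : j = j0
      · rw [hj0, hx'0] at hj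
        exact h2' j0 hj.symm
      · rw [hx'j j hj0] at hj
        exact hj0 (hxi hj)
    · ext u
      simp only [mem_insert, mem_erase, mem_image, mem_univ, true_and]
      constructor
      · rintro ⟨j, rfl⟩
        by_cases hj0 : j = j0
        · left; rw [hj0]
        · right
          exact ⟨h2' j, j, hx'j j hj0⟩
      · rintro (rfl | ⟨hu, j, rfl⟩)
        · exact ⟨j0, rfl⟩
        · have hj0 : j ≠ j0 := fun h => hu (by rw [h, hx'0])
          exact ⟨j, (hx'j j hj0).symm⟩
  have hfin : (ntup r (fun g => ¬ C g) : ℝ) ≤ T1.card + T2.card + ntup r B := by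
    have h1 := (card_le_card hsubset).trans (card_union_le _ _)
    have h2 := card_union_le T1 T2
    have e1 : ntup r (fun g => ¬ C g) = (univ.filter fun x : Fin r → S =>
        Function.Injective x ∧ ¬ C (univ.image x)).card := by
      unfold ntup
      congr!
    have e2 : ntup r B = (univ.filter fun x : Fin r → S =>
        Function.Injective x ∧ B (univ.image x)).card := by
      unfold ntup
      congr!
    have h3 : ntup r (fun g => ¬ C g) ≤ T1.card + T2.card + ntup r B := by
      rw [e1, e2]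
      omega
    exact_mod_cast h3
  have hexp : (2 * ((r : ℝ) - 1) * (ω + r / s) + r / s + ω ^ r) * s ^ r
      = 2 * ((r : ℝ) - 1) * ω' * s ^ r + r / s * s ^ r + ω ^ r * s ^ r := by
    rw [hω']; ring
  rw [hexp]
  linarith

end Pool.Agent.Lib.TwoPaths
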