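import Pool.Agent.Lib.TwoPaths.FDefs

/-!
# F6: two half spaces touch or some interpolation is nonnegative

PROOF (as in `hs_touch`).  Let `L t v = (1-t) l v + t l' v`.  Suppose the second alternative fails:
for every `t ∈ [0,1]` there is an `r`-set `g` with `∑ g L t < 0`, i.e. `HS r (L t) g`; as
`∑ g L t = (1-t) ∑ g l + t ∑ g l'`, such a `g` satisfies `HS r l g` or `HS r l' g`.  Let `A` (`B`)
be the set of `t` for which some `g` with `HS r l g` (resp. `HS r l' g`) has `∑ g L t < 0`.  `A`,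
`B` are open, cover `[0,1]`, `0 ∈ A` and `1 ∈ B` (by h, h'), so by preconnectedness of `[0,1]` there
is `t ∈ [0,1] ∩ A ∩ B`: `e` with `HS r l e`, `HS r (L t) e` and `f` with `HS r l' f`,
`HS r (L t) f`.  `hs_connected` gives a path from `e` to `f` inside `HS r (L t)`.  If `HS r l' e`
then take `(e, e)`.  Otherwise `first_entry` into `HS r l'` gives adjacent `d, f'` with
`¬ HS r l' d`, `HS r l' f'`, `HS r (L t) d`; hence `HS r l d`.  Take `(d, f')`.
-/

namespace Pool.Agent.Lib.TwoPaths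

open Finset Relation
open Pool.Agent.Lib.MP_952639_co

theorem touch_or_nonneg {S : Type*} [Fintype S] [DecidableEq S] (r : ℕ) (l l' : S → ℝ)
    (h : ∃ e, HS r l e) (h' : ∃ e, HS r l' e) :
    (∃ e f, HS r l e ∧ HS r l' f ∧ (e = f ∨ JAdj r e f)) ∨
    ∃ t : ℝ, 0 ≤ t ∧ t ≤ 1 ∧ ∀ g : Finset S, g.card = r →
      0 ≤ ∑ v ∈ g, ((1 - t) * l v + t * l' v) := by
  classical
  by_contra hcon0
  rw [not_or] at hcon0
  obtain ⟨hcon, hcon2⟩ := hcon0
  push Not at hcon hcon2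
  let L : ℝ → S → ℝ := fun t v => (1 - t) * l v + t * l' v
  have hLsum : ∀ t (g : Finset S), ∑ v ∈ g, L t v = (1 - t) * ∑ v ∈ g, l v + t * ∑ v ∈ g, l' v := by
    intro t g
    simp only [L, sum_add_distrib, mul_sum]
  let A : Set ℝ := ⋃ e ∈ {e : Finset S | HS r l e}, {t | ∑ v ∈ e, L t v < 0}
  let B : Set ℝ := ⋃ e ∈ {e : Finset S | HS r l' e}, {t | ∑ v ∈ e, L t v < 0}
  have hopen : ∀ e : Finset S, IsOpen {t : ℝ | ∑ v ∈ e, L t v < 0} := by
    intro e
    simp only [hLsum]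
    exact isOpen_lt (by fun_prop) continuous_const
  have hA : IsOpen A := isOpen_biUnion fun e _ => hopen e
  have hB : IsOpen B := isOpen_biUnion fun e _ => hopen e
  have hcov0 : ∀ t ∈ Set.Icc (0 : ℝ) 1, ∀ e, HS r (L t) e → HS r l e ∨ HS r l' e := by
    intro t ht e he
    by_contra hno
    push Not at hno
    have h1 : 0 ≤ ∑ v ∈ e, l v := by
      by_contra h; exact hno.1 ⟨he.1, not_le.mp h⟩
    have h2 : 0 ≤ ∑ v ∈ e, l' v := by
      by_contra h; exact hno.2 ⟨he.1, not_le.mp h⟩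
    have h3 := he.2
    rw [hLsum] at h3
    have h4 := mul_nonneg (sub_nonneg.mpr ht.2) h1
    have h5 := mul_nonneg ht.1 h2
    linarith
  have hcov : Set.Icc (0 : ℝ) 1 ⊆ A ∪ B := by
    intro t ht
    obtain ⟨e, hec, hes⟩ := hcon2 t ht.1 ht.2
    have he : HS r (L t) e := ⟨hec, hes⟩
    rcases hcov0 t ht e he with h | h
    · left; exact Set.mem_biUnion h he.2
    · right; exact Set.mem_biUnion h he.2
  obtain ⟨e₀, he₀⟩ := h
  obtain ⟨f₀, hf₀⟩ := h'
  have h0 : (Set.Icc (0 : ℝ) 1 ∩ A).Nonempty :=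
    ⟨0, by simp, Set.mem_biUnion he₀ (by simp only [Set.mem_ofPred_eq, hLsum]; linarith [he₀.2])⟩
  have h1 : (Set.Icc (0 : ℝ) 1 ∩ B).Nonempty :=
    ⟨1, by simp, Set.mem_biUnion hf₀ (by simp only [Set.mem_ofPred_eq, hLsum]; linarith [hf₀.2])⟩
  obtain ⟨t, ht, htA, htB⟩ := isPreconnected_Icc A B hA hB hcov h0 h1
  obtain ⟨e, he, het⟩ := Set.mem_iUnion₂.mp htA
  obtain ⟨f, hf, hft⟩ := Set.mem_iUnion₂.mp htB
  have hpath := hs_connected r (L t) (e := e) (f := f) ⟨he.1, het⟩ ⟨hf.1, hft⟩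
  -- a path from `HS l` to `HS l'` inside the union
  have hne : ¬ HS r l' e := fun h => (hcon e e he h).1 rfl
  obtain ⟨d, f', _, hd, hdf, hf'⟩ := first_entry hpath hne hf
  have hdl : HS r l d := by
    rcases hcov0 t ht d hdf.2.1 with h | h
    · exact h
    · exact absurd h hd
  exact (hcon d f' hdl hf').2 hdf.1

end Pool.Agent.Lib.TwoPaths
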