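import Pool.Agent.Lib.TwoPaths.FDefs

/-!
# F7b: a functional without a jump is two-valued

`S' ⊆ S`, `l : S → ℝ`, `0 ≤ ξ₂ < ξ₃`, `(r + 2) ξ₃ ≤ α`, and
(star): for adjacent `r`-sets `g, h ⊆ S'`: `ξ₂ < ∑ g l` implies `0 ≤ ∑ h l`.
At least `4r` vertices of `S'` have `l ≥ α` and at least `4r` have `l ≤ -α`.

PROOF. Let `T ⊆ S'` be a set of `r` vertices with largest `l`-values, `a₀ = min_T l`, and `G ⊆ S'` a
set of `r` vertices with smallest values, `g₀ = max_G l`: `l v ≤ a₀` for `v ∈ S' \ T` and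
`l v ≥ g₀` for `v ∈ S' \ G`.  `a₀ ≥ α` and `g₀ ≤ -α` (there are `≥ r` vertices with `l ≥ α`, resp.
`l ≤ -α`).  (Existence of `T`: `exists_min_set` for `-l` on the subtype, or take a maximiser of
`∑ T l` over `powersetCard r S'`; then `l x ≤ l y` for `x ∈ S' \ T`, `y ∈ T`.)
Let `M = {v ∈ S' : g₀ + ξ₃ ≤ l v ≤ a₀ - ξ₃}`; `M` is disjoint from `T` and `G`.

Claim: `|M| < r`.  Suppose `M' ⊆ M`, `|M'| = r`.
 (i) for all `D ⊆ M'`, `T'' ⊆ T` with `|D| + |T''| = r`: `∑ (D ∪ T'') l > ξ₂`.  Induction on `|D|`.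
   `D = ∅`: `T'' = T`, the sum is `≥ r a₀ ≥ r α > ξ₂`.  Step: let `w ∈ D`, `D' = D \ {w}`, pick
   `v ∈ T \ T''` and `w' ∈ G`.  `g = D' ∪ T'' ∪ {v}` has sum `> ξ₂` by induction;
   `h = D' ∪ T'' ∪ {w'}` is adjacent to `g`, so its sum is `≥ 0` by (star).  Hence
   `∑ (D ∪ T'') l = ∑ h l - l w' + l w ≥ 0 - g₀ + (g₀ + ξ₃) = ξ₃ > ξ₂`.
   For `T'' = ∅`, `D = M'`: `∑ M' l > ξ₂ ≥ 0`.
 (ii) for all `D ⊆ M'`, `G'' ⊆ G` with `|D| + |G''| = r`: `∑ (D ∪ G'') l < 0`.  `D = ∅`: the sum is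
   `≤ r g₀ ≤ -r α < 0`.  Step: `w ∈ D`, `D' = D \ {w}`, `v ∈ G \ G''`, `w' ∈ T`.
   `g = D' ∪ G'' ∪ {v}` has sum `< 0`; `h = D' ∪ G'' ∪ {w'}` is adjacent to `g`, so
   `∑ h l ≤ ξ₂` (else (star) gives `∑ g l ≥ 0`).  Hence
   `∑ (D ∪ G'') l = ∑ h l - l w' + l w ≤ ξ₂ - a₀ + (a₀ - ξ₃) < 0`.
   For `D = M'`: `∑ M' l < 0`.  Contradiction with (i).

Let `X = T ∪ G ∪ M`, `|X| ≤ 3r`.  For `v ∈ S' \ X`: `g₀ ≤ l v ≤ a₀` and (`l v < g₀ + ξ₃` or
`l v > a₀ - ξ₃`).  In the first case `l v < -α + ξ₃ < 0` and `|l v - g₀| ≤ ξ₃`; in the second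
`l v > α - ξ₃ > 0` and `|l v - a₀| ≤ ξ₃`.  Let `A₁` (`B₁`) be the set of `v ∈ S' \ X` of the second
(first) kind.  `|A₁| ≥ r`: the `≥ 4r` vertices of `S'` with `l ≥ α` are, up to at most `3r` in `X`,
in `A₁`.  Same for `B₁`.

Choice of `i`: `F j = j a₀ + (r - j) g₀` is increasing in `j`, `F 0 = r g₀ ≤ -r α < -(r+1) ξ₃`,
`F r = r a₀ ≥ r α > (r+1) ξ₃`.  Let `i` be the largest `j ≤ r` with `F j ≤ (r+1) ξ₃`; `i < r`.
Take an `r`-set `g ⊆ A₁ ∪ B₁` with `i + 1` vertices in `A₁` and `r - i - 1` in `B₁`, and `h`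
obtained from `g` by exchanging a vertex of `A₁` for a new vertex of `B₁` (possible as
`|B₁| ≥ r`).  `∑ g l ≥ F (i+1) - r ξ₃ > (r+1) ξ₃ - r ξ₃ = ξ₃ > ξ₂`, so `∑ h l ≥ 0` by (star), and
`∑ h l ≤ F i + r ξ₃`.  So `F i ≥ -r ξ₃` and `|F i| ≤ (r+1) ξ₃`; moreover `i ≥ 1` because
`F 0 < -(r+1) ξ₃`.  (With `(r + 2) ξ₃ ≤ α` all the strict inequalities hold, `r α ≥ 2 α`.)
-/

namespace Pool.Agent.Lib.TwoPaths

open Finset Relation
open Pool.Agent.Lib.MP_952639_co

private theorem top_set {S : Type*} [DecidableEq S] (S' : Finset S) (l : S → ℝ) :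
    ∀ r : ℕ, r ≤ S'.card →
      ∃ T ⊆ S', T.card = r ∧ ∀ x ∈ S', x ∉ T → ∀ y ∈ T, l x ≤ l y := by
  intro r
  induction r with
  | zero =>
    intro _
    exact ⟨∅, by simp, by simp, by simp⟩
  | succ r ih =>
    intro h
    obtain ⟨T, hT, hc, hmax⟩ := ih (by omega)
    have hne : (S' \ T).Nonempty := by
      rw [← Finset.card_pos, Finset.card_sdiff_of_subset hT]
      omega
    obtain ⟨x, hx, hxm⟩ := Finset.exists_max_image (S' \ T) l hne
    rw [Finset.mem_sdiff] at hx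
    refine ⟨insert x T, ?_, ?_, ?_⟩
    · intro z hz
      rcases Finset.mem_insert.1 hz with rfl | hz
      · exact hx.1
      · exact hT hz
    · rw [Finset.card_insert_of_notMem hx.2, hc]
    · intro z hz hzn y hy
      have hzT : z ∉ T := fun h => hzn (Finset.mem_insert_of_mem h)
      rcases Finset.mem_insert.1 hy with rfl | hy
      · exact hxm z (Finset.mem_sdiff.2 ⟨hz, hzT⟩)
      · exact hmax z hz hzT y hy

private theorem sum_swap {S : Type*} [DecidableEq S] (l : S → ℝ) (g : Finset S) (v w : S)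
    (hv : v ∈ g) (hw : w ∉ g) : ∑ x ∈ insert w (g.erase v), l x = ∑ x ∈ g, l x - l v + l w := by
  rw [Finset.sum_insert (fun h => hw (Finset.mem_of_mem_erase h))]
  have := Finset.sum_erase_add g l hv
  linarith

private theorem jadj_swap {S : Type*} [DecidableEq S] {r : ℕ} (g : Finset S) (v w : S)
    (hg : g.card = r) (hv : v ∈ g) (hw : w ∉ g) : JAdj r g (insert w (g.erase v)) := by
  refine ⟨hg, ?_, v, hv, w, hw, rfl⟩
  rw [Finset.card_insert_of_notMem (fun h => hw (Finset.mem_of_mem_erase h)),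
    Finset.card_erase_of_mem hv]
  have : 0 < g.card := Finset.card_pos.2 ⟨v, hv⟩
  omega

private theorem chain {S : Type*} [DecidableEq S] {r : ℕ} (S' T G M' : Finset S) (l : S → ℝ)
    (a b ξ g₀ : ℝ)
    (hstar : ∀ g h : Finset S, JAdj r g h → g ⊆ S' → h ⊆ S' → a < ∑ v ∈ g, l v →
      b ≤ ∑ v ∈ h, l v) (hab : a < b + ξ)
    (hT : T ⊆ S') (hG : G ⊆ S') (hM : M' ⊆ S') (hTc : T.card = r) (hGn : G.Nonempty)
    (hTG : Disjoint T G) (hMT : Disjoint M' T) (hMG : Disjoint M' G)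
    (hg : ∀ w ∈ G, l w ≤ g₀) (hm : ∀ w ∈ M', g₀ + ξ ≤ l w) (haT : a < ∑ v ∈ T, l v) :
    ∀ (n : ℕ) (D T'' : Finset S), D ⊆ M' → T'' ⊆ T → D.card = n → n + T''.card = r →
      a < ∑ v ∈ D ∪ T'', l v := by
  intro n
  induction n with
  | zero =>
    intro D T'' hD hT'' hn hr
    rw [Finset.card_eq_zero] at hn
    subst hn
    have : T'' = T := Finset.eq_of_subset_of_card_le hT'' (by omega)
    rw [this, Finset.empty_union]
    exact haT
  | succ n ih =>
    intro D T'' hD hT'' hn hr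
    have hDn : D.Nonempty := by
      rw [← Finset.card_pos]; omega
    obtain ⟨w, hw⟩ := hDn
    have hex : ∃ v ∈ T, v ∉ T'' := by
      by_contra hcon
      push Not at hcon
      have := Finset.card_le_card (show T ⊆ T'' from hcon)
      omega
    obtain ⟨v, hvT, hvT''⟩ := hex
    obtain ⟨w', hw'⟩ := hGn
    have hD' : D.erase w ⊆ M' := (Finset.erase_subset _ _).trans hD
    have hvM : v ∉ M' := fun h => (Finset.disjoint_left.1 hMT) h hvT
    have hvD : v ∉ D.erase w := fun h => hvM (hD' h)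
    have hins : insert v T'' ⊆ T := by
      intro z hz
      rcases Finset.mem_insert.1 hz with rfl | hz
      · exact hvT
      · exact hT'' hz
    have hDc : (D.erase w).card = n := by
      rw [Finset.card_erase_of_mem hw]; omega
    have hTc'' : (insert v T'').card = T''.card + 1 := Finset.card_insert_of_notMem hvT''
    have h1 := ih (D.erase w) (insert v T'') hD' hins hDc (by omega)
    have hdis : Disjoint (D.erase w) (insert v T'') :=
      Finset.disjoint_of_subset_left hD' (Finset.disjoint_of_subset_right hins hMT)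
    have hdis2 : Disjoint D T'' :=
      Finset.disjoint_of_subset_left hD (Finset.disjoint_of_subset_right hT'' hMT)
    have hgc : (D.erase w ∪ insert v T'').card = r := by
      rw [Finset.card_union_of_disjoint hdis]; omega
    have hvg : v ∈ D.erase w ∪ insert v T'' := by simp
    have hw'g : w' ∉ D.erase w ∪ insert v T'' := by
      intro h
      rcases Finset.mem_union.1 h with h | h
      · exact (Finset.disjoint_left.1 hMG) (hD' h) hw'
      · exact (Finset.disjoint_left.1 hTG) (hins h) hw'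
    have hgS : D.erase w ∪ insert v T'' ⊆ S' :=
      Finset.union_subset (hD'.trans hM) (hins.trans hT)
    have hhS : insert w' ((D.erase w ∪ insert v T'').erase v) ⊆ S' := by
      intro z hz
      rcases Finset.mem_insert.1 hz with rfl | hz
      · exact hG hw'
      · exact hgS (Finset.mem_of_mem_erase hz)
    have h2 := hstar _ _ (jadj_swap _ v w' hgc hvg hw'g) hgS hhS h1
    rw [sum_swap l _ v w' hvg hw'g] at h2
    have h3 : ∑ x ∈ D.erase w ∪ insert v T'', l x = ∑ x ∈ D ∪ T'', l x - l w + l v := by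
      rw [Finset.sum_union hdis, Finset.sum_union hdis2, Finset.sum_insert hvT'']
      have := Finset.sum_erase_add D l hw
      linarith
    have h4 := hg w' hw'
    have h5 := hm w (hD hw)
    linarith

private theorem card_ge_of_few {S : Type*} [DecidableEq S] {r : ℕ} (S' X : Finset S)
    (p q : S → Prop) [DecidablePred p] [DecidablePred q] (hpq : ∀ v, p v → q v)
    (hX : X.card ≤ 3 * r) (h : 4 * r ≤ (S'.filter p).card) :
    r ≤ ((S' \ X).filter q).card := by
  have h1 : S'.filter p ⊆ X ∪ (S' \ X).filter q := by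
    intro v hv
    rw [Finset.mem_filter] at hv
    by_cases hvX : v ∈ X
    · exact Finset.mem_union_left _ hvX
    · exact Finset.mem_union_right _ (Finset.mem_filter.2
        ⟨Finset.mem_sdiff.2 ⟨hv.1, hvX⟩, hpq v hv.2⟩)
  have h2 := Finset.card_le_card h1
  have h3 := Finset.card_union_le X ((S' \ X).filter q)
  omega

theorem two_valued {S : Type*} [Fintype S] [DecidableEq S] {r : ℕ} (hr : 2 ≤ r)
    (S' : Finset S) (l : S → ℝ) (ξ₂ ξ₃ α : ℝ) (h2 : 0 ≤ ξ₂) (h23 : ξ₂ < ξ₃)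
    (h3 : ((r : ℝ) + 2) * ξ₃ ≤ α)
    (hstar : ∀ g h : Finset S, JAdj r g h → g ⊆ S' → h ⊆ S' → ξ₂ < ∑ v ∈ g, l v →
      0 ≤ ∑ v ∈ h, l v)
    (hpos : 4 * r ≤ (S'.filter fun v => α ≤ l v).card)
    (hneg : 4 * r ≤ (S'.filter fun v => l v ≤ -α).card) :
    ∃ (X : Finset S) (a₀ g₀ : ℝ) (i : ℕ), X.card ≤ 3 * r ∧ α ≤ a₀ ∧ g₀ ≤ -α ∧ 1 ≤ i ∧ i < r ∧
      |(i : ℝ) * a₀ + ((r : ℝ) - i) * g₀| ≤ (r + 1) * ξ₃ ∧
      (∀ v ∈ S' \ X, (0 < l v ∧ |l v - a₀| ≤ ξ₃) ∨ (l v < 0 ∧ |l v - g₀| ≤ ξ₃)) ∧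
      r ≤ ((S' \ X).filter fun v => 0 < l v).card ∧
      r ≤ ((S' \ X).filter fun v => l v < 0).card := by
  have hr1 : (2 : ℝ) ≤ (r : ℝ) := by exact_mod_cast hr
  have hξ : 0 < ξ₃ := lt_of_le_of_lt h2 h23
  have hα : 0 < α := by nlinarith
  have hαξ : ξ₃ < α := by nlinarith
  have hSr : r ≤ S'.card := by
    have := Finset.card_le_card (Finset.filter_subset (fun v => α ≤ l v) S')
    omega
  obtain ⟨T, hTS, hTc, hTmax⟩ := top_set S' l r hSr
  obtain ⟨G, hGS, hGc, hGmax⟩ := top_set S' (fun v => - l v) r hSr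
  have hTne : T.Nonempty := by rw [← Finset.card_pos]; omega
  have hGne : G.Nonempty := by rw [← Finset.card_pos]; omega
  obtain ⟨y₀, hy₀, hy₀m⟩ := Finset.exists_min_image T l hTne
  obtain ⟨z₀, hz₀, hz₀m⟩ := Finset.exists_max_image G l hGne
  obtain ⟨a₀, ha₀⟩ : ∃ a₀, a₀ = l y₀ := ⟨_, rfl⟩
  obtain ⟨g₀, hg₀⟩ : ∃ g₀, g₀ = l z₀ := ⟨_, rfl⟩
  rw [← ha₀] at hy₀m
  rw [← hg₀] at hz₀m
  have hTout : ∀ v ∈ S', v ∉ T → l v ≤ a₀ := fun v hv hvT => by
    rw [ha₀]; exact hTmax v hv hvT y₀ hy₀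
  have hGout : ∀ v ∈ S', v ∉ G → g₀ ≤ l v := fun v hv hvG => by
    rw [hg₀]
    have := hGmax v hv hvG z₀ hz₀
    simp only [neg_le_neg_iff] at this
    exact this
  have hαa : α ≤ a₀ := by
    by_contra hcon
    push Not at hcon
    have h1 : S'.filter (fun v => α ≤ l v) ⊆ T := by
      intro v hv
      rw [Finset.mem_filter] at hv
      by_contra hvT
      have := hTout v hv.1 hvT
      linarith [hv.2]
    have := Finset.card_le_card h1
    omega
  have hgα : g₀ ≤ -α := by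
    by_contra hcon
    push Not at hcon
    have h1 : S'.filter (fun v => l v ≤ -α) ⊆ G := by
      intro v hv
      rw [Finset.mem_filter] at hv
      by_contra hvG
      have := hGout v hv.1 hvG
      linarith [hv.2]
    have := Finset.card_le_card h1
    omega
  have hTG : Disjoint T G := by
    rw [Finset.disjoint_left]
    intro v hv hv'
    have := hy₀m v hv
    have := hz₀m v hv'
    linarith
  obtain ⟨M, hMdef⟩ : ∃ M, M = S'.filter (fun v => g₀ + ξ₃ ≤ l v ∧ l v ≤ a₀ - ξ₃) := ⟨_, rfl⟩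
  have hsumT : α < ∑ v ∈ T, l v := by
    have h1 : T.card • a₀ ≤ ∑ v ∈ T, l v := Finset.card_nsmul_le_sum T l a₀ hy₀m
    rw [hTc, nsmul_eq_mul] at h1
    nlinarith
  have hsumG : α < ∑ v ∈ G, - l v := by
    have h1 : G.card • (-g₀) ≤ ∑ v ∈ G, - l v :=
      Finset.card_nsmul_le_sum G (fun v => - l v) (-g₀) (fun v hv => by
        have := hz₀m v hv
        linarith)
    rw [hGc, nsmul_eq_mul] at h1
    nlinarith
  have hMc : M.card < r := by
    by_contra hcon
    push Not at hcon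
    obtain ⟨M', hM', hM'c⟩ := Finset.exists_subset_card_eq hcon
    have hmem : ∀ v ∈ M', v ∈ S' ∧ g₀ + ξ₃ ≤ l v ∧ l v ≤ a₀ - ξ₃ := by
      intro v hv
      have := hM' hv
      rw [hMdef, Finset.mem_filter] at this
      exact this
    have hM'S : M' ⊆ S' := fun v hv => (hmem v hv).1
    have hMT : Disjoint M' T := by
      rw [Finset.disjoint_left]
      intro v hv hv'
      have := hy₀m v hv'
      have := (hmem v hv).2.2
      linarith
    have hMG : Disjoint M' G := by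
      rw [Finset.disjoint_left]
      intro v hv hv'
      have := hz₀m v hv'
      have := (hmem v hv).2.1
      linarith
    have c1 := chain (r := r) S' T G M' l ξ₂ 0 ξ₃ g₀ hstar (by linarith) hTS hGS hM'S hTc hGne
      hTG hMT hMG hz₀m (fun w hw => (hmem w hw).2.1) (by linarith)
      r M' ∅ (Finset.Subset.refl _) (by simp) hM'c (by simp)
    have c2 := chain (r := r) S' G T M' (fun v => - l v) 0 (-ξ₂) ξ₃ (-a₀) (by
        intro g h hgh hg hh hsum
        by_contra hcon2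
        push Not at hcon2
        have hsym : JAdj r h g := by
          obtain ⟨h1, h2', x, hx, y, hy, hxy⟩ := hgh
          refine ⟨h2', h1, y, by rw [hxy]; exact Finset.mem_insert_self _ _, x, ?_, ?_⟩
          · rw [hxy]
            intro hm
            rcases Finset.mem_insert.1 hm with hm | hm
            · exact hy (hm ▸ hx)
            · exact (Finset.notMem_erase x g) hm
          · rw [hxy, Finset.erase_insert (fun hm => hy (Finset.mem_of_mem_erase hm)),
              Finset.insert_erase hx]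
        have h3 := hstar h g hsym hh hg (by
          rw [Finset.sum_neg_distrib] at hcon2
          linarith)
        rw [Finset.sum_neg_distrib] at hsum
        linarith) (by linarith) hGS hTS hM'S hGc hTne hTG.symm hMG hMT
      (fun w hw => by
        have := hy₀m w hw
        show - l w ≤ - a₀
        linarith)
      (fun w hw => by
        have := (hmem w hw).2.2
        show - a₀ + ξ₃ ≤ - l w
        linarith) (by linarith)
      r M' ∅ (Finset.Subset.refl _) (by simp) hM'c (by simp)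
    rw [Finset.union_empty] at c1 c2
    rw [Finset.sum_neg_distrib] at c2
    linarith
  obtain ⟨X, hXdef⟩ : ∃ X, X = T ∪ G ∪ M := ⟨_, rfl⟩
  have hXc : X.card ≤ 3 * r := by
    have e1 := Finset.card_union_le (T ∪ G) M
    have e2 := Finset.card_union_le T G
    rw [hXdef]
    omega
  have hval : ∀ v ∈ S' \ X, (0 < l v ∧ |l v - a₀| ≤ ξ₃) ∨ (l v < 0 ∧ |l v - g₀| ≤ ξ₃) := by
    intro v hv
    rw [Finset.mem_sdiff, hXdef, Finset.mem_union, Finset.mem_union] at hv
    obtain ⟨hvS, hvX⟩ := hv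
    push Not at hvX
    obtain ⟨⟨hvT, hvG⟩, hvM⟩ := hvX
    have u1 := hTout v hvS hvT
    have u2 := hGout v hvS hvG
    by_cases hc : g₀ + ξ₃ ≤ l v
    · have hc2 : a₀ - ξ₃ < l v := by
        by_contra hcon
        push Not at hcon
        apply hvM
        rw [hMdef, Finset.mem_filter]
        exact ⟨hvS, hc, hcon⟩
      left
      refine ⟨by linarith, ?_⟩
      rw [abs_le]
      constructor <;> linarith
    · push Not at hc
      right
      refine ⟨by linarith, ?_⟩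
      rw [abs_le]
      constructor <;> linarith
  have hA : r ≤ ((S' \ X).filter fun v => 0 < l v).card :=
    card_ge_of_few S' X (fun v => α ≤ l v) (fun v => 0 < l v) (fun v hv => by linarith) hXc hpos
  have hB : r ≤ ((S' \ X).filter fun v => l v < 0).card :=
    card_ge_of_few S' X (fun v => l v ≤ -α) (fun v => l v < 0) (fun v hv => by linarith) hXc hneg
  -- choice of the index
  have hexj : ∃ j : ℕ, ((r : ℝ) + 1) * ξ₃ < (j : ℝ) * a₀ + ((r : ℝ) - j) * g₀ :=
    ⟨r, by nlinarith⟩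
  classical
  obtain ⟨j, hj, hjmin⟩ : ∃ j : ℕ, ((r : ℝ) + 1) * ξ₃ < (j : ℝ) * a₀ + ((r : ℝ) - j) * g₀ ∧
      ∀ k < j, ¬ ((r : ℝ) + 1) * ξ₃ < (k : ℝ) * a₀ + ((r : ℝ) - k) * g₀ :=
    ⟨Nat.find hexj, Nat.find_spec hexj, fun k hk => Nat.find_min hexj hk⟩
  have hjr : j ≤ r := by
    by_contra hcon
    push Not at hcon
    exact hjmin r hcon (by nlinarith)
  have hj0 : j ≠ 0 := by
    rintro rfl
    push_cast at hj
    nlinarith
  obtain ⟨i, rfl⟩ : ∃ i, j = i + 1 := ⟨j - 1, by omega⟩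
  have hi := hjmin i (by omega)
  push Not at hi
  obtain ⟨A, hAsub, hAc⟩ := Finset.exists_subset_card_eq (show i + 1 ≤ _ from hjr.trans hA)
  obtain ⟨B, hBsub, hBc⟩ := Finset.exists_subset_card_eq (show r - i ≤ _ from
    (Nat.sub_le r i).trans hB)
  have hAmem : ∀ v ∈ A, v ∈ S' ∧ 0 < l v ∧ |l v - a₀| ≤ ξ₃ := by
    intro v hv
    have h1 := Finset.mem_filter.1 (hAsub hv)
    rcases hval v h1.1 with h3' | h3'
    · exact ⟨(Finset.mem_sdiff.1 h1.1).1, h3'⟩
    · exact absurd h1.2 (by linarith [h3'.1])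
  have hBmem : ∀ v ∈ B, v ∈ S' ∧ l v < 0 ∧ |l v - g₀| ≤ ξ₃ := by
    intro v hv
    have h1 := Finset.mem_filter.1 (hBsub hv)
    rcases hval v h1.1 with h3' | h3'
    · exact absurd h1.2 (by linarith [h3'.1])
    · exact ⟨(Finset.mem_sdiff.1 h1.1).1, h3'⟩
  have hAB : Disjoint A B := by
    rw [Finset.disjoint_left]
    intro v hv hv'
    have u1 := (hAmem v hv).2.1
    have u2 := (hBmem v hv').2.1
    linarith
  have hAne : A.Nonempty := by rw [← Finset.card_pos]; omega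
  have hBne : B.Nonempty := by rw [← Finset.card_pos]; omega
  obtain ⟨x, hx⟩ := hAne
  obtain ⟨y, hy⟩ := hBne
  have hAB' : Disjoint A (B.erase y) :=
    Finset.disjoint_of_subset_right (Finset.erase_subset _ _) hAB
  have hgc : (A ∪ B.erase y).card = r := by
    rw [Finset.card_union_of_disjoint hAB', Finset.card_erase_of_mem hy]
    omega
  have hxg : x ∈ A ∪ B.erase y := Finset.mem_union_left _ hx
  have hyg : y ∉ A ∪ B.erase y := by
    intro h
    rcases Finset.mem_union.1 h with h | h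
    · exact (Finset.disjoint_left.1 hAB) h hy
    · exact (Finset.notMem_erase y B) h
  have hgS : A ∪ B.erase y ⊆ S' := by
    intro z hz
    rcases Finset.mem_union.1 hz with h | h
    · exact (hAmem z h).1
    · exact (hBmem z (Finset.mem_of_mem_erase h)).1
  have hhS : insert y ((A ∪ B.erase y).erase x) ⊆ S' := by
    intro z hz
    rcases Finset.mem_insert.1 hz with rfl | h
    · exact (hBmem z hy).1
    · exact hgS (Finset.mem_of_mem_erase h)
  -- sums
  have sA1 : ((i : ℝ) + 1) * (a₀ - ξ₃) ≤ ∑ v ∈ A, l v := by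
    have h1 : A.card • (a₀ - ξ₃) ≤ ∑ v ∈ A, l v :=
      Finset.card_nsmul_le_sum A l _ (fun v hv => by
        have := (abs_le.1 (hAmem v hv).2.2).1
        linarith)
    rw [hAc, nsmul_eq_mul] at h1
    push_cast at h1
    exact h1
  have hcast : ((r - i : ℕ) : ℝ) = (r : ℝ) - i := by
    rw [Nat.cast_sub (by omega)]
  have hcast2 : ((r - i - 1 : ℕ) : ℝ) = (r : ℝ) - i - 1 := by
    rw [Nat.cast_sub (by omega), Nat.cast_sub (by omega)]
    simp
  have sB1 : ((r : ℝ) - i - 1) * (g₀ - ξ₃) ≤ ∑ v ∈ B.erase y, l v := by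
    have h1 : (B.erase y).card • (g₀ - ξ₃) ≤ ∑ v ∈ B.erase y, l v :=
      Finset.card_nsmul_le_sum (B.erase y) l _ (fun v hv => by
        have := (abs_le.1 (hBmem v (Finset.mem_of_mem_erase hv)).2.2).1
        linarith)
    rw [Finset.card_erase_of_mem hy, hBc, nsmul_eq_mul, hcast2] at h1
    exact h1
  have sg : ξ₂ < ∑ v ∈ A ∪ B.erase y, l v := by
    rw [Finset.sum_union hAB']
    push_cast at hj
    nlinarith
  have sh := hstar _ _ (jadj_swap _ x y hgc hxg hyg) hgS hhS sg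
  rw [sum_swap l _ x y hxg hyg, Finset.sum_union hAB'] at sh
  have sA2 : ∑ v ∈ A.erase x, l v ≤ (i : ℝ) * (a₀ + ξ₃) := by
    have h1 : ∑ v ∈ A.erase x, l v ≤ (A.erase x).card • (a₀ + ξ₃) :=
      Finset.sum_le_card_nsmul (A.erase x) l _ (fun v hv => by
        have := (abs_le.1 (hAmem v (Finset.mem_of_mem_erase hv)).2.2).2
        linarith)
    rw [Finset.card_erase_of_mem hx, hAc, nsmul_eq_mul] at h1
    simpa using h1
  have sB2 : ∑ v ∈ B, l v ≤ ((r : ℝ) - i) * (g₀ + ξ₃) := by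
    have h1 : ∑ v ∈ B, l v ≤ B.card • (g₀ + ξ₃) :=
      Finset.sum_le_card_nsmul B l _ (fun v hv => by
        have := (abs_le.1 (hBmem v hv).2.2).2
        linarith)
    rw [hBc, nsmul_eq_mul, hcast] at h1
    exact h1
  have eA := Finset.sum_erase_add A l hx
  have eB := Finset.sum_erase_add B l hy
  have hFi : -((r : ℝ) * ξ₃) ≤ (i : ℝ) * a₀ + ((r : ℝ) - i) * g₀ := by
    nlinarith
  have hi1 : 1 ≤ i := by
    by_contra hcon
    have : i = 0 := by omega
    subst this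
    push_cast at hFi
    nlinarith
  refine ⟨X, a₀, g₀, i, hXc, hαa, hgα, hi1, by omega, ?_, hval, hA, hB⟩
  rw [abs_le]
  constructor
  · have e : ((r : ℝ) + 1) * ξ₃ = (r : ℝ) * ξ₃ + ξ₃ := by ring
    rw [e]
    linarith
  · exact hi
end Pool.Agent.Lib.TwoPaths
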