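import Pool.Agent.Lib.TwoPaths.F7a
import Pool.Agent.Lib.TwoPaths.F7b

/-!
# F7: opposite witnesses give the extremal structure

`C` = a component, `B` = a branch of it (abstractly: `B` is invariant under adjacency outside `C`;
`C` has one colour `κ`, and an adjacent set of colour `κ` is again in `C`).  `l` lives in `B`, `l₁`
lives outside `B` and `C`, and some interpolation of `l, l₁` is nonnegative on all `r`-sets.

CONSTANTS. `α = η/8`, `ξ₃ = min (η/(16(r+2))) (δ η/96)`, `ξ₂ = ξ₃/2`, `ξ₁ = η ξ₂/(4 r²)`,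
`ζ = min (δ η/(64 r)) (δ/(16 r))`,
`ε₁ = min {η/8, η²/(32 r), η ξ₁/(16 r), ζ ξ₁/4, δ η²/(256 r)}`, and `s₀` so large that for `s ≥ s₀`:
`2 (r-1) ≤ ε₁ s`, `32 r² ≤ η s`, `3 r ≤ ζ s/2`.

PROOF. Let `L = (1-t) l + t l₁`.  By `opposite`: `∑ |L| ≤ 2 ε₁ s`, `t, 1-t ≥ η/(4r)`,
`|∑ l| ≤ 8 r ε₁ s/η ≤ η s/4`.  Let `X₁ = {v : |L v| > ξ₁}`, `|X₁| ≤ 2 ε₁ s/ξ₁ ≤ ζ s / 2`, and
`S' = S \ X₁`.

(a) If `g ⊆ S'` is an `r`-set with `∑ g l > ξ₂` then `HS r l₁ g`:
`t ∑ g l₁ = ∑ g L - (1-t) ∑ g l < r ξ₁ - (η/(4r)) ξ₂ ≤ 0`.  If `∑ g l < 0` then `HS r l g`.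
(star) If `g, h ⊆ S'` are adjacent, `∑ g l > ξ₂` and `∑ h l < 0`, then `g ∉ C ∪ B`, `h ∉ C`,
`h ∈ B`, contradicting the invariance of `B`.

(b) counts: `∑ l⁺ = (∑|l| + ∑ l)/2 ≥ 3 η s/8`, `∑_{S'} l⁺ ≥ 3 η s/8 - (r-1)|X₁| ≥ η s/4`
(as `(r-1) 2 ε₁/ξ₁ ≤ η/8`); vertices with `l < α` contribute at most `α s = η s/8`, the others at
most `r - 1` each, so at least `η s/(8 r) ≥ 4 r` vertices of `S'` have `l ≥ α`.  Similarly
`∑ l⁻ = (∑|l| - ∑ l)/2 ≥ (η - ε₁) s/2 ≥ 3 η s/8`, `l⁻ ≤ 1`, so at least `η s/8 ≥ 4r` vertices of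
`S'` have `l ≤ -α`.

(c) `two_valued` gives `X₂, a₀, g₀, i`.  Let `Y = X₁ ∪ X₂`, `|Y| ≤ ζ s`.  Let `A₁ = {v ∉ Y : 0 < l v}`,
`B₁ = {v ∉ Y : l v < 0}`; they partition `S \ Y` and have at least `r` elements each.  An `r`-set
`g ⊆ S \ Y` with exactly `j` vertices in `A₁` (type `j`) has `|∑ g l - F j| ≤ r ξ₃` with
`F j = j a₀ + (r-j) g₀ = F i + (j-i)(a₀ - g₀)`, `|F i| ≤ (r+1) ξ₃`, `a₀ - g₀ ≥ 2 α`.
So type `j > i`: `∑ g l ≥ 2α - (2r+1) ξ₃ > ξ₂`, hence `HS r l₁ g`, `g ∉ C`, `g ∉ B`;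
type `j < i`: `∑ g l ≤ -2α + (2r+1) ξ₃ < 0`, hence `g ∉ C`, `g ∈ B`.

(d) type `i` sets `g ⊆ S \ Y` are in `C`: otherwise let `h` be obtained from `g` by exchanging a
vertex of `B₁` for a vertex of `A₁ \ g` and `h'` by exchanging a vertex of `A₁` for a vertex of
`B₁ \ g` (possible since `1 ≤ i < r`, `|A₁|, |B₁| ≥ r`): `h` has type `i+1` (`∉ C ∪ B`), `h'` has
type `i-1` (`∉ C`, `∈ B`), both adjacent to `g ∉ C`: contradiction.  So `c g = κ`.
(e) type `i±1` sets `h ⊆ S \ Y` have `c h ≠ κ`: exchanging one vertex gives an adjacent set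
`g ⊆ S \ Y` of type `i`, `g ∈ C`; if `c h = κ` then `h ∈ C`, contradicting (c).

(f) counts of violating tuples: with `A = {v : 0 < l v}` an injective tuple `x` with
`#{j : x j ∈ A} = i` and `c [x] ≠ κ` has an entry in `Y`; so there are at most
`r |Y| s^(r-1) ≤ r ζ s^r ≤ δ s^r` of them; same for types `i ± 1` and colour `κ`.

(g) size: `a = |A₁|`, `b = |B₁|`, `a + b = s - |Y|`.
`|a a₀ + b g₀| ≤ |∑ l| + ξ₃ s + (r-1)|Y| ≤ (8 r ε₁/η + ξ₃ + r ζ) s =: e₁ s`.  With `G = -g₀ ≥ α`: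
`(a (r-i) - i b) G = i (a a₀ - b G) - a F i`, so `|a (r-i) - i b| ≤ (r e₁ + (r+1) ξ₃) s/α`;
`a (r-i) - i b = r a - i (s - |Y|)`.  Hence `|a - i s/r| ≤ ((e₁ + 2 ξ₃) 8/η + ζ) s`, and
`a ≤ |A| ≤ a + |Y|`, so `||A| - i s/r| ≤ (8 (8 r ε₁/η + 3 ξ₃ + r ζ)/η + 2 ζ) s ≤ δ s`.
-/

namespace Pool.Agent.Lib.TwoPaths

open Finset Relation
open Pool.Agent.Lib.MP_952639_co

private theorem f7_exch {S : Type*} [DecidableEq S] {r j : ℕ} (W : Finset S) (p : S → Prop)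
    [DecidablePred p] (hW : r ≤ (W.filter p).card) {h : Finset S} (hh : h ⊆ W) (hc : h.card = r)
    (hj : (h.filter p).card = j) (hjr : j < r) :
    ∃ g : Finset S, g ⊆ W ∧ JAdj r h g ∧ (g.filter p).card = j + 1 := by
  have h1 : ∃ v ∈ h, ¬ p v := by
    by_contra hcon
    push Not at hcon
    have h2 : h.filter p = h := Finset.filter_true_of_mem hcon
    rw [h2, hc] at hj
    omega
  have h2 : ∃ w ∈ W.filter p, w ∉ h := by
    by_contra hcon
    push Not at hcon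
    have h3 : W.filter p ⊆ h.filter p :=
      fun w hw => Finset.mem_filter.2 ⟨hcon w hw, (Finset.mem_filter.1 hw).2⟩
    have h4 := Finset.card_le_card h3
    omega
  obtain ⟨v, hv, hpv⟩ := h1
  obtain ⟨w, hw, hwh⟩ := h2
  rw [Finset.mem_filter] at hw
  have hwv : w ∉ h.erase v := fun h' => hwh (Finset.mem_of_mem_erase h')
  refine ⟨insert w (h.erase v), ?_, ⟨hc, ?_, v, hv, w, hwh, rfl⟩, ?_⟩
  · intro x hx
    rcases Finset.mem_insert.1 hx with rfl | hx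
    · exact hw.1
    · exact hh (Finset.mem_of_mem_erase hx)
  · rw [Finset.card_insert_of_notMem hwv, Finset.card_erase_of_mem hv, hc]
    omega
  · rw [Finset.filter_insert, if_pos hw.2, Finset.card_insert_of_notMem
      (fun h' => hwv (Finset.mem_filter.1 h').1)]
    have h5 : (h.erase v).filter p = h.filter p := by
      ext x
      simp only [Finset.mem_filter, Finset.mem_erase]
      constructor
      · rintro ⟨⟨_, h6⟩, h7⟩
        exact ⟨h6, h7⟩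
      · rintro ⟨h6, h7⟩
        refine ⟨⟨?_, h6⟩, h7⟩
        rintro rfl
        exact hpv h7
    rw [h5, hj]

private theorem f7_cnt {S : Type*} [Fintype S] [DecidableEq S] {r : ℕ} (Y : Finset S)
    (T : Finset (Fin r → S)) (hT : ∀ x ∈ T, ∃ j, x j ∈ Y) :
    (T.card : ℝ) ≤ r * Y.card * (Fintype.card S : ℝ) ^ (r - 1) := by
  have h1 : T ⊆ (univ : Finset (Fin r)).biUnion
      fun j => Fintype.piFinset fun i => if i = j then Y else univ := by
    intro x hx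
    obtain ⟨j, hj⟩ := hT x hx
    refine Finset.mem_biUnion.2 ⟨j, Finset.mem_univ _, Fintype.mem_piFinset.2 fun i => ?_⟩
    by_cases h : i = j
    · rw [if_pos h, h]
      exact hj
    · rw [if_neg h]
      exact Finset.mem_univ _
  have h2 : ∀ j : Fin r, (Fintype.piFinset fun i : Fin r => if i = j then Y else
      (univ : Finset S)).card = Y.card * Fintype.card S ^ (r - 1) := by
    intro j
    rw [Fintype.card_piFinset]
    have h3 : ∀ i : Fin r, (if i = j then Y else (univ : Finset S)).card =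
        if i = j then Y.card else Fintype.card S := by
      intro i
      split_ifs
      · rfl
      · exact Finset.card_univ
    rw [Finset.prod_congr rfl fun i _ => h3 i, ← Finset.mul_prod_erase univ _ (Finset.mem_univ j),
      if_pos rfl]
    congr 1
    rw [Finset.prod_congr rfl (g := fun _ => Fintype.card S), Finset.prod_const,
      Finset.card_erase_of_mem (Finset.mem_univ j), Finset.card_univ, Fintype.card_fin]
    intro i hi
    rw [if_neg (Finset.ne_of_mem_erase hi)]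
  have h3 : T.card ≤ r * (Y.card * Fintype.card S ^ (r - 1)) := by
    refine (Finset.card_le_card h1).trans (Finset.card_biUnion_le.trans ?_)
    rw [Finset.sum_congr rfl fun j _ => h2 j, Finset.sum_const, Finset.card_univ,
      Fintype.card_fin, smul_eq_mul]
  calc (T.card : ℝ) ≤ ((r * (Y.card * Fintype.card S ^ (r - 1)) : ℕ) : ℝ) := by exact_mod_cast h3
    _ = r * Y.card * (Fintype.card S : ℝ) ^ (r - 1) := by push_cast; ring

/-- sums over two-valued sets -/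
private theorem f7_sum {S : Type*} [DecidableEq S] (l : S → ℝ) (g : Finset S) (a₀ g₀ ξ : ℝ)
    (r j : ℕ) (hc : g.card = r) (hj : (g.filter fun v => 0 < l v).card = j)
    (htwo : ∀ v ∈ g, (0 < l v ∧ |l v - a₀| ≤ ξ) ∨ (l v < 0 ∧ |l v - g₀| ≤ ξ)) :
    |∑ v ∈ g, l v - ((j : ℝ) * a₀ + ((r : ℝ) - j) * g₀)| ≤ r * ξ := by
  have h1 : ∑ v ∈ g, (if 0 < l v then a₀ else g₀) = (j : ℝ) * a₀ + ((r : ℝ) - j) * g₀ := by
    rw [Finset.sum_ite, Finset.sum_const, Finset.sum_const, hj]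
    have h2 : (g.filter fun v => ¬ 0 < l v).card = r - j := by
      have h3 := Finset.card_filter_add_card_filter_not (s := g) (fun v => 0 < l v)
      omega
    have h4 : j ≤ r := by
      rw [← hj, ← hc]
      exact Finset.card_filter_le _ _
    rw [h2, nsmul_eq_mul, nsmul_eq_mul, Nat.cast_sub h4]
  rw [← h1, ← Finset.sum_sub_distrib]
  refine (Finset.abs_sum_le_sum_abs _ _).trans ?_
  calc ∑ v ∈ g, |l v - (if 0 < l v then a₀ else g₀)| ≤ ∑ _v ∈ g, ξ := by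
        refine Finset.sum_le_sum fun v hv => ?_
        rcases htwo v hv with ⟨h2, h3⟩ | ⟨h2, h3⟩
        · rw [if_pos h2]
          exact h3
        · rw [if_neg (not_lt.2 h2.le)]
          exact h3
    _ = r * ξ := by rw [Finset.sum_const, hc, nsmul_eq_mul]

/-- parts (a) and (b) -/
private theorem f7_a {S : Type*} [Fintype S] [DecidableEq S] {r : ℕ} (hr : 2 ≤ r)
    (η ε₁ ξ₁ ξ₂ ζ : ℝ) (hη : 0 < η) (hε : 0 < ε₁) (hξ₁ : 0 < ξ₁) (hξ₂ : 0 < ξ₂)
    (c3 : 4 * (r : ℝ) ^ 2 * ξ₁ ≤ η * ξ₂) (c6 : 8 * ε₁ ≤ η) (c7 : 32 * r * ε₁ ≤ η ^ 2)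
    (c8 : 16 * r * ε₁ ≤ η * ξ₁) (c9 : 4 * ε₁ ≤ ζ * ξ₁)
    (s1 : 2 * ((r : ℝ) - 1) ≤ ε₁ * Fintype.card S) (s2 : 32 * (r : ℝ) ^ 2 ≤ η * Fintype.card S)
    (l l₁ : S → ℝ) (hl : ∀ v, -1 ≤ l v) (hl' : ∀ v, l v ≤ (r : ℝ) - 1)
    (hl₁ : ∀ v, -1 ≤ l₁ v) (hl₁' : ∀ v, l₁ v ≤ (r : ℝ) - 1)
    (hsum : ∑ v, l v ≤ ε₁ * Fintype.card S) (hsum₁ : ∑ v, l₁ v ≤ ε₁ * Fintype.card S)
    (habs : η * Fintype.card S ≤ ∑ v, |l v|) (habs₁ : η * Fintype.card S ≤ ∑ v, |l₁ v|)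
    (t : ℝ) (ht0 : 0 ≤ t) (ht1 : t ≤ 1)
    (hL : ∀ g : Finset S, g.card = r → 0 ≤ ∑ v ∈ g, ((1 - t) * l v + t * l₁ v)) :
    ∃ X₁ : Finset S, 2 * (X₁.card : ℝ) ≤ ζ * Fintype.card S ∧
      |∑ v, l v| ≤ 8 * r * ε₁ / η * Fintype.card S ∧
      (∀ g : Finset S, g ⊆ X₁ᶜ → g.card = r → ξ₂ < ∑ v ∈ g, l v → HS r l₁ g) ∧
      4 * r ≤ (X₁ᶜ.filter fun v => η / 8 ≤ l v).card ∧
      4 * r ≤ (X₁ᶜ.filter fun v => l v ≤ -(η / 8)).card := by
  obtain ⟨o1, o2, o3, o4⟩ := opposite hr η ε₁ hη hε c6 s1 l l₁ hl hl' hl₁ hl₁' hsum hsum₁ habs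
    habs₁ t ht0 ht1 hL
  have hR : (2 : ℝ) ≤ (r : ℝ) := by exact_mod_cast hr
  have hR0 : (0 : ℝ) < (r : ℝ) := by linarith
  have hs0 : (0 : ℝ) ≤ (Fintype.card S : ℝ) := Nat.cast_nonneg _
  obtain ⟨s, hs⟩ : ∃ s : ℝ, s = (Fintype.card S : ℝ) := ⟨_, rfl⟩
  rw [← hs] at o1 o4 hs0 habs habs₁ hsum hsum₁ s1 s2 ⊢
  obtain ⟨X₁, hX⟩ : ∃ X₁ : Finset S, X₁ = univ.filter fun v => ξ₁ < |(1 - t) * l v + t * l₁ v| :=
    ⟨_, rfl⟩
  have hX1 : (X₁.card : ℝ) * ξ₁ ≤ 2 * ε₁ * s := by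
    refine le_trans ?_ o1
    calc (X₁.card : ℝ) * ξ₁ = ∑ _v ∈ X₁, ξ₁ := by rw [Finset.sum_const, nsmul_eq_mul]
      _ ≤ ∑ v ∈ X₁, |(1 - t) * l v + t * l₁ v| := by
          refine Finset.sum_le_sum fun v hv => ?_
          rw [hX, Finset.mem_filter] at hv
          exact hv.2.le
      _ ≤ ∑ v, |(1 - t) * l v + t * l₁ v| :=
          Finset.sum_le_sum_of_subset_of_nonneg (Finset.subset_univ _) fun v _ _ => abs_nonneg _
  have hX0 : (0 : ℝ) ≤ (X₁.card : ℝ) := Nat.cast_nonneg _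
  have hX2 : 2 * (X₁.card : ℝ) ≤ ζ * s := by
    by_contra hcon
    push Not at hcon
    have h1 : ζ * s * ξ₁ < 2 * (X₁.card : ℝ) * ξ₁ := mul_lt_mul_of_pos_right hcon hξ₁
    have h2 : 4 * ε₁ * s ≤ ζ * ξ₁ * s := mul_le_mul_of_nonneg_right c9 hs0
    linarith
  have hX3 : (r : ℝ) * (X₁.card : ℝ) ≤ η * s / 8 := by
    by_contra hcon
    push Not at hcon
    have h1 : η * s / 8 * ξ₁ < (r : ℝ) * (X₁.card : ℝ) * ξ₁ := mul_lt_mul_of_pos_right hcon hξ₁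
    have h2 : 16 * r * ε₁ * s ≤ η * ξ₁ * s := mul_le_mul_of_nonneg_right c8 hs0
    have h3 : (r : ℝ) * ((X₁.card : ℝ) * ξ₁) ≤ r * (2 * ε₁ * s) :=
      mul_le_mul_of_nonneg_left hX1 hR0.le
    linarith
  have hsl : -(η * s / 4) ≤ ∑ v, l v := by
    have h1 := (abs_le.1 o4).1
    have h2 : 8 * r * ε₁ / η * s ≤ η / 4 * s := by
      refine mul_le_mul_of_nonneg_right ?_ hs0
      rw [div_le_iff₀ hη]
      nlinarith
    linarith
  have hsl2 : ∑ v, l v ≤ η * s / 8 := by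
    have h1 : 8 * ε₁ * s ≤ η * s := mul_le_mul_of_nonneg_right c6 hs0
    linarith
  have hmemc : ∀ v, v ∉ X₁ → |(1 - t) * l v + t * l₁ v| ≤ ξ₁ := by
    intro v hv
    rw [hX, Finset.mem_filter] at hv
    push Not at hv
    exact hv (Finset.mem_univ _)
  refine ⟨X₁, hX2, o4, ?_, ?_, ?_⟩
  · intro g hg hgc hgl
    refine ⟨hgc, ?_⟩
    have h1 : ∑ v ∈ g, ((1 - t) * l v + t * l₁ v) ≤ r * ξ₁ := by
      calc ∑ v ∈ g, ((1 - t) * l v + t * l₁ v) ≤ ∑ _v ∈ g, ξ₁ :=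
            Finset.sum_le_sum fun v hv =>
              (le_abs_self _).trans (hmemc v (Finset.mem_compl.1 (hg hv)))
        _ = r * ξ₁ := by rw [Finset.sum_const, hgc, nsmul_eq_mul]
    rw [Finset.sum_add_distrib, ← Finset.mul_sum, ← Finset.mul_sum] at h1
    have h2 : η / (4 * r) * ξ₂ < (1 - t) * ∑ v ∈ g, l v := by
      have h3 : 0 < η / (4 * r) := by positivity
      calc η / (4 * r) * ξ₂ < η / (4 * r) * ∑ v ∈ g, l v := mul_lt_mul_of_pos_left hgl h3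
        _ ≤ (1 - t) * ∑ v ∈ g, l v := mul_le_mul_of_nonneg_right o3 (hξ₂.trans hgl).le
    have h3 : (r : ℝ) * ξ₁ ≤ η / (4 * r) * ξ₂ := by
      rw [div_mul_eq_mul_div, le_div_iff₀ (by positivity)]
      nlinarith
    have h4 : t * ∑ v ∈ g, l₁ v < 0 := by linarith
    by_contra hcon
    push Not at hcon
    have h5 := mul_nonneg ht0 hcon
    linarith
  · have h1 : ∑ v, (|l v| + l v) / 2 ≤ ∑ v, (η / 8 + r * (if v ∈ X₁ᶜ.filter fun v => η / 8 ≤ l v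
        then (1 : ℝ) else 0) + r * (if v ∈ X₁ then (1 : ℝ) else 0)) := by
      refine Finset.sum_le_sum fun v _ => ?_
      have h2 := hl' v
      have h3 : (|l v| + l v) / 2 ≤ r := by
        have h4 := hl v
        rcases abs_cases (l v) with ⟨h5, _⟩ | ⟨h5, _⟩ <;> rw [h5] <;> linarith
      by_cases hv : v ∈ X₁
      · rw [if_pos hv]
        have h4 : (0 : ℝ) ≤ r * (if v ∈ X₁ᶜ.filter fun v => η / 8 ≤ l v then (1 : ℝ) else 0) := by
          split_ifs <;> simp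
        linarith
      · rw [if_neg hv]
        by_cases hv2 : η / 8 ≤ l v
        · rw [if_pos (Finset.mem_filter.2 ⟨Finset.mem_compl.2 hv, hv2⟩)]
          linarith
        · rw [if_neg (show ¬ v ∈ X₁ᶜ.filter fun v => η / 8 ≤ l v from
            fun h => hv2 (Finset.mem_filter.1 h).2)]
          push Not at hv2
          rcases abs_cases (l v) with ⟨h5, _⟩ | ⟨h5, _⟩ <;> rw [h5] <;> linarith
    rw [Finset.sum_add_distrib, Finset.sum_add_distrib, ← Finset.mul_sum, ← Finset.mul_sum,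
      Finset.sum_boole, Finset.sum_boole, ← Finset.sum_div, Finset.sum_add_distrib,
      Finset.sum_const, Finset.card_univ, nsmul_eq_mul, ← hs, Finset.filter_mem_eq_inter,
      Finset.filter_mem_eq_inter, Finset.univ_inter, Finset.univ_inter] at h1
    have h2 : η * s / 8 ≤ r * ((X₁ᶜ.filter fun v => η / 8 ≤ l v).card : ℝ) := by linarith
    have h3 : (4 * r : ℝ) ≤ ((X₁ᶜ.filter fun v => η / 8 ≤ l v).card : ℝ) := by
      have h4 : (r : ℝ) * (4 * r) ≤ r * ((X₁ᶜ.filter fun v => η / 8 ≤ l v).card : ℝ) := by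
        nlinarith
      exact le_of_mul_le_mul_left h4 hR0
    exact_mod_cast h3
  · have h1 : ∑ v, (|l v| - l v) / 2 ≤ ∑ v, (η / 8 + (if v ∈ X₁ᶜ.filter fun v => l v ≤ -(η / 8)
        then (1 : ℝ) else 0) + (if v ∈ X₁ then (1 : ℝ) else 0)) := by
      refine Finset.sum_le_sum fun v _ => ?_
      have h2 := hl v
      have h3 : (|l v| - l v) / 2 ≤ 1 := by
        rcases abs_cases (l v) with ⟨h5, _⟩ | ⟨h5, _⟩ <;> rw [h5] <;> linarith
      by_cases hv : v ∈ X₁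
      · rw [if_pos hv]
        have h4 : (0 : ℝ) ≤ (if v ∈ X₁ᶜ.filter fun v => l v ≤ -(η / 8) then (1 : ℝ) else 0) := by
          split_ifs <;> simp
        linarith
      · rw [if_neg hv]
        by_cases hv2 : l v ≤ -(η / 8)
        · rw [if_pos (Finset.mem_filter.2 ⟨Finset.mem_compl.2 hv, hv2⟩)]
          linarith
        · rw [if_neg (show ¬ v ∈ X₁ᶜ.filter fun v => l v ≤ -(η / 8) from
            fun h => hv2 (Finset.mem_filter.1 h).2)]
          push Not at hv2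
          rcases abs_cases (l v) with ⟨h5, _⟩ | ⟨h5, _⟩ <;> rw [h5] <;> linarith
    rw [Finset.sum_add_distrib, Finset.sum_add_distrib,
      Finset.sum_boole, Finset.sum_boole, ← Finset.sum_div, Finset.sum_sub_distrib,
      Finset.sum_const, Finset.card_univ, nsmul_eq_mul, ← hs, Finset.filter_mem_eq_inter,
      Finset.filter_mem_eq_inter, Finset.univ_inter, Finset.univ_inter] at h1
    have h2 : (X₁.card : ℝ) ≤ r * (X₁.card : ℝ) := by nlinarith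
    have h3 : (4 * r : ℝ) ≤ ((X₁ᶜ.filter fun v => l v ≤ -(η / 8)).card : ℝ) := by
      nlinarith
    exact_mod_cast h3

/-- parts (c), (d), (e) -/
private theorem f7_b {S : Type*} [Fintype S] [DecidableEq S] {r : ℕ} (hr : 2 ≤ r)
    (α ξ₂ ξ₃ : ℝ) (hξ₂ : 0 < ξ₂) (h23 : 2 * ξ₂ ≤ ξ₃) (c1 : 2 * (((r : ℝ) + 2) * ξ₃) ≤ α)
    (c : Finset S → Bool) (C B : Finset S → Prop) (κ : Bool) (l l₁ : S → ℝ) (W : Finset S)
    (a₀ g₀ : ℝ) (i : ℕ) (hi1 : 1 ≤ i) (hir : i < r) (ha₀ : α ≤ a₀) (hg₀ : g₀ ≤ -α)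
    (hF : |(i : ℝ) * a₀ + ((r : ℝ) - i) * g₀| ≤ (r + 1) * ξ₃)
    (htwo : ∀ v ∈ W, (0 < l v ∧ |l v - a₀| ≤ ξ₃) ∨ (l v < 0 ∧ |l v - g₀| ≤ ξ₃))
    (hA : r ≤ (W.filter fun v => 0 < l v).card) (hB : r ≤ (W.filter fun v => l v < 0).card)
    (hHS : ∀ g : Finset S, g ⊆ W → g.card = r → ξ₂ < ∑ v ∈ g, l v → HS r l₁ g)
    (h1 : ∀ g, HS r l g → ¬ C g ∧ B g) (h2 : ∀ g, HS r l₁ g → ¬ C g ∧ ¬ B g)
    (h3 : ∀ g h, JAdj r g h → ¬ C g → ¬ C h → B g → B h)
    (h4 : ∀ g, C g → c g = κ) (h5 : ∀ g h, JAdj r g h → C g → c h = κ → C h) :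
    ∀ g : Finset S, g ⊆ W → g.card = r →
      ((g.filter fun v => 0 < l v).card = i → c g = κ) ∧
      (((g.filter fun v => 0 < l v).card + 1 = i ∨ (g.filter fun v => 0 < l v).card = i + 1) →
        c g ≠ κ) := by
  have hR : (2 : ℝ) ≤ (r : ℝ) := by exact_mod_cast hr
  have hξ₃ : 0 < ξ₃ := by linarith
  have hα : 0 < α := by
    have : 0 < ((r : ℝ) + 2) * ξ₃ := by positivity
    linarith
  have hb := abs_le.1 hF
  have hsumj : ∀ g : Finset S, g ⊆ W → g.card = r →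
      |∑ v ∈ g, l v - (((g.filter fun v => 0 < l v).card : ℝ) * a₀ +
        ((r : ℝ) - (g.filter fun v => 0 < l v).card) * g₀)| ≤ r * ξ₃ := fun g hg hgc =>
    f7_sum l g a₀ g₀ ξ₃ r _ hgc rfl fun v hv => htwo v (hg hv)
  -- types above `i`
  have hup : ∀ g : Finset S, g ⊆ W → g.card = r → i < (g.filter fun v => 0 < l v).card →
      ¬ C g ∧ ¬ B g := by
    intro g hg hgc hj
    refine h2 g (hHS g hg hgc ?_)
    have h6 := (abs_le.1 (hsumj g hg hgc)).1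
    have h7 : (i : ℝ) + 1 ≤ ((g.filter fun v => 0 < l v).card : ℝ) := by exact_mod_cast hj
    generalize ((g.filter fun v => 0 < l v).card : ℝ) = j at h6 h7
    have h8 : (i : ℝ) * a₀ + ((r : ℝ) - i) * g₀ + 2 * α ≤ j * a₀ + ((r : ℝ) - j) * g₀ := by
      nlinarith
    nlinarith [hb.1]
  have hdn : ∀ g : Finset S, g ⊆ W → g.card = r → (g.filter fun v => 0 < l v).card < i →
      ¬ C g ∧ B g := by
    intro g hg hgc hj
    refine h1 g ⟨hgc, ?_⟩
    have h6 := (abs_le.1 (hsumj g hg hgc)).2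
    have h7 : ((g.filter fun v => 0 < l v).card : ℝ) + 1 ≤ (i : ℝ) := by exact_mod_cast hj
    generalize ((g.filter fun v => 0 < l v).card : ℝ) = j at h6 h7
    have h8 : j * a₀ + ((r : ℝ) - j) * g₀ + 2 * α ≤ (i : ℝ) * a₀ + ((r : ℝ) - i) * g₀ := by
      nlinarith
    nlinarith [hb.2]
  -- complementary counts
  have hcomp : ∀ g : Finset S, g ⊆ W → (g.filter fun v => 0 < l v).card +
      (g.filter fun v => l v < 0).card = g.card := by
    intro g hg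
    rw [← Finset.card_filter_add_card_filter_not (s := g) (fun v => 0 < l v)]
    congr 2
    refine Finset.filter_congr fun v hv => ?_
    rcases htwo v (hg hv) with ⟨h6, _⟩ | ⟨h6, _⟩
    · constructor
      · intro h7
        linarith
      · intro h7
        exact absurd h6 h7
    · constructor
      · intro h7
        exact not_lt.2 h6.le
      · intro h7
        exact h6
  -- exchange up and down
  have hexu : ∀ g : Finset S, g ⊆ W → g.card = r → (g.filter fun v => 0 < l v).card < r →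
      ∃ h : Finset S, h ⊆ W ∧ JAdj r g h ∧
        (h.filter fun v => 0 < l v).card = (g.filter fun v => 0 < l v).card + 1 :=
    fun g hg hgc hj => f7_exch W _ hA hg hgc rfl hj
  have hexd : ∀ g : Finset S, g ⊆ W → g.card = r → 0 < (g.filter fun v => 0 < l v).card →
      ∃ h : Finset S, h ⊆ W ∧ JAdj r g h ∧
        (h.filter fun v => 0 < l v).card + 1 = (g.filter fun v => 0 < l v).card := by
    intro g hg hgc hj
    have h6 := hcomp g hg
    obtain ⟨h, hh1, hh2, hh3⟩ := f7_exch W (fun v => l v < 0) hB hg hgc rfl (by omega)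
    have h7 := hcomp h hh1
    have h8 := hh2.2.1
    exact ⟨h, hh1, hh2, by omega⟩
  -- type `i` sets are in `C`
  have hC : ∀ g : Finset S, g ⊆ W → g.card = r → (g.filter fun v => 0 < l v).card = i → C g := by
    intro g hg hgc hj
    by_contra hcon
    obtain ⟨h, hh1, hh2, hh3⟩ := hexu g hg hgc (by omega)
    obtain ⟨k, hk1, hk2, hk3⟩ := hexd g hg hgc (by omega)
    have h6 := hup h hh1 hh2.2.1 (by omega)
    have h7 := hdn k hk1 hk2.2.1 (by omega)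
    exact h6.2 (h3 g h hh2 hcon h6.1 (h3 k g hk2.symm h7.1 hcon h7.2))
  intro g hg hgc
  refine ⟨fun hj => h4 g (hC g hg hgc hj), ?_⟩
  rintro (hj | hj) hcg
  · obtain ⟨h, hh1, hh2, hh3⟩ := hexu g hg hgc (by omega)
    exact (hdn g hg hgc (by omega)).1 (h5 h g hh2.symm (hC h hh1 hh2.2.1 (by omega)) hcg)
  · obtain ⟨h, hh1, hh2, hh3⟩ := hexd g hg hgc (by omega)
    exact (hup g hg hgc (by omega)).1 (h5 h g hh2.symm (hC h hh1 hh2.2.1 (by omega)) hcg)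

/-- part (g) -/
private theorem f7_g {S : Type*} [Fintype S] [DecidableEq S] {r : ℕ} (hr : 2 ≤ r)
    (δ η ε₁ ξ₃ ζ : ℝ) (hδ : 0 < δ) (hη : 0 < η) (hξ₃ : 0 < ξ₃)
    (c2 : 96 * ξ₃ ≤ δ * η) (c4 : 64 * r * ζ ≤ δ * η) (c5 : 16 * r * ζ ≤ δ)
    (c10 : 256 * r * ε₁ ≤ δ * η ^ 2)
    (l : S → ℝ) (hl : ∀ v, -1 ≤ l v) (hl' : ∀ v, l v ≤ (r : ℝ) - 1)
    (hsl : |∑ v, l v| ≤ 8 * r * ε₁ / η * Fintype.card S)
    (Y : Finset S) (hY : (Y.card : ℝ) ≤ ζ * Fintype.card S)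
    (a₀ g₀ : ℝ) (i : ℕ) (hir : i < r) (hg₀ : g₀ ≤ -(η / 8))
    (hF : |(i : ℝ) * a₀ + ((r : ℝ) - i) * g₀| ≤ (r + 1) * ξ₃)
    (htwo : ∀ v ∈ Yᶜ, (0 < l v ∧ |l v - a₀| ≤ ξ₃) ∨ (l v < 0 ∧ |l v - g₀| ≤ ξ₃)) :
    |((univ.filter fun v => 0 < l v).card : ℝ) - i * Fintype.card S / r| ≤
      δ * Fintype.card S := by
  have hR : (2 : ℝ) ≤ (r : ℝ) := by exact_mod_cast hr
  have hR0 : (0 : ℝ) < (r : ℝ) := by linarith
  have hiR : (i : ℝ) ≤ (r : ℝ) := by exact_mod_cast hir.le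
  have hi0 : (0 : ℝ) ≤ (i : ℝ) := Nat.cast_nonneg _
  have hs0 : (0 : ℝ) ≤ (Fintype.card S : ℝ) := Nat.cast_nonneg _
  have hY0 : (0 : ℝ) ≤ (Y.card : ℝ) := Nat.cast_nonneg _
  have hcc : (Yᶜ.card : ℝ) + (Y.card : ℝ) = (Fintype.card S : ℝ) := by
    have h1 := Finset.card_add_card_compl Y
    have h2 : ((Y.card + Yᶜ.card : ℕ) : ℝ) = (Fintype.card S : ℝ) := by rw [h1]
    push_cast at h2
    linarith
  have hsumc := f7_sum l Yᶜ a₀ g₀ ξ₃ Yᶜ.card _ rfl rfl htwo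
  have ha1 : ((Yᶜ.filter fun v => 0 < l v).card : ℝ) ≤ (Yᶜ.card : ℝ) := by
    exact_mod_cast Finset.card_filter_le _ _
  have ha0 : (0 : ℝ) ≤ ((Yᶜ.filter fun v => 0 < l v).card : ℝ) := Nat.cast_nonneg _
  have hA1 : ((Yᶜ.filter fun v => 0 < l v).card : ℝ) ≤
      ((univ.filter fun v => 0 < l v).card : ℝ) := by
    exact_mod_cast Finset.card_le_card (Finset.filter_subset_filter _ (Finset.subset_univ _))
  have hA2 : ((univ.filter fun v => 0 < l v).card : ℝ) ≤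
      ((Yᶜ.filter fun v => 0 < l v).card : ℝ) + (Y.card : ℝ) := by
    have h1 : (univ.filter fun v => 0 < l v) ⊆ (Yᶜ.filter fun v => 0 < l v) ∪ Y := by
      intro v hv
      rw [Finset.mem_union]
      by_cases h : v ∈ Y
      · exact Or.inr h
      · exact Or.inl (Finset.mem_filter.2 ⟨Finset.mem_compl.2 h, (Finset.mem_filter.1 hv).2⟩)
    exact_mod_cast (Finset.card_le_card h1).trans (Finset.card_union_le _ _)
  have hYs : |∑ v ∈ Y, l v| ≤ r * (Y.card : ℝ) := by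
    refine (Finset.abs_sum_le_sum_abs _ _).trans ?_
    calc ∑ v ∈ Y, |l v| ≤ ∑ _v ∈ Y, (r : ℝ) := Finset.sum_le_sum fun v _ => by
          rw [abs_le]
          have h1 := hl v
          have h2 := hl' v
          constructor <;> linarith
      _ = r * (Y.card : ℝ) := by rw [Finset.sum_const, nsmul_eq_mul, mul_comm]
  have hsplit : ∑ v ∈ Y, l v + ∑ v ∈ Yᶜ, l v = ∑ v, l v := Finset.sum_add_sum_compl Y l
  generalize ((univ.filter fun v => 0 < l v).card : ℝ) = A at hA1 hA2 ⊢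
  generalize ((Yᶜ.filter fun v => 0 < l v).card : ℝ) = a at hsumc ha1 ha0 hA1 hA2
  generalize (Yᶜ.card : ℝ) = w at hsumc ha1 hcc
  generalize (Y.card : ℝ) = y at hcc hA2 hYs hY hY0
  generalize (Fintype.card S : ℝ) = s at hs0 hsl hY hcc ⊢
  generalize ∑ v ∈ Y, l v = sY at hYs hsplit
  generalize ∑ v ∈ Yᶜ, l v = sW at hsumc hsplit
  generalize ∑ v, l v = sT at hsl hsplit
  -- the quantity e
  have hE : 32 * (8 * r * ε₁ / η * s) ≤ δ * η * s := by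
    have h1 : 32 * (8 * r * ε₁ / η * s) = (256 * r * ε₁) * s / η := by
      field_simp
      ring
    rw [h1, div_le_iff₀ hη]
    nlinarith
  have hry : 64 * (r * y) ≤ δ * η * s := by
    have h1 : r * y ≤ r * (ζ * s) := mul_le_mul_of_nonneg_left hY hR0.le
    have h2 : 64 * r * ζ * s ≤ δ * η * s := mul_le_mul_of_nonneg_right c4 hs0
    linarith
  have hry2 : 16 * (r * y) ≤ δ * s := by
    have h1 : r * y ≤ r * (ζ * s) := mul_le_mul_of_nonneg_left hY hR0.le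
    have h2 : 16 * r * ζ * s ≤ δ * s := mul_le_mul_of_nonneg_right c5 hs0
    linarith
  have hxs : 96 * (ξ₃ * s) ≤ δ * η * s := by
    have h2 : 96 * ξ₃ * s ≤ δ * η * s := mul_le_mul_of_nonneg_right c2 hs0
    linarith
  have hws : w ≤ s := by linarith
  have hwx : w * ξ₃ ≤ ξ₃ * s := by nlinarith
  have he : |a * a₀ + (w - a) * g₀| ≤ δ * η * s * (11 / 192) := by
    rw [abs_le] at hsumc hYs hsl ⊢
    constructor <;> linarith [hsumc.1, hsumc.2, hYs.1, hYs.2, hsl.1, hsl.2]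
  have hG : η / 8 ≤ -g₀ := by linarith
  have hid : (a * (r - i) - i * (w - a)) * (-g₀) =
      i * (a * a₀ + (w - a) * g₀) - a * (i * a₀ + (r - i) * g₀) := by ring
  have hD : |a * (r - i) - i * (w - a)| * (η / 8) ≤
      r * (δ * η * s * (11 / 192)) + s * ((r + 1) * ξ₃) := by
    calc |a * (r - i) - i * (w - a)| * (η / 8) ≤ |a * (r - i) - i * (w - a)| * (-g₀) :=
          mul_le_mul_of_nonneg_left hG (abs_nonneg _)
      _ = |(a * (r - i) - i * (w - a)) * (-g₀)| := by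
          rw [abs_mul, abs_of_nonneg (show (0 : ℝ) ≤ -g₀ by linarith)]
      _ = |i * (a * a₀ + (w - a) * g₀) - a * (i * a₀ + (r - i) * g₀)| := by rw [hid]
      _ ≤ |i * (a * a₀ + (w - a) * g₀)| + |a * (i * a₀ + (r - i) * g₀)| := abs_sub _ _
      _ = i * |a * a₀ + (w - a) * g₀| + a * |i * a₀ + (r - i) * g₀| := by
          rw [abs_mul, abs_mul, abs_of_nonneg hi0, abs_of_nonneg ha0]
      _ ≤ r * (δ * η * s * (11 / 192)) + s * ((r + 1) * ξ₃) := by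
          refine add_le_add ?_ ?_
          · exact mul_le_mul hiR he (abs_nonneg _) hR0.le
          · exact mul_le_mul (by linarith) hF (abs_nonneg _) hs0
  have hD2 : |a * (r - i) - i * (w - a)| ≤ r * (δ * s) * (15 / 16) := by
    have h1 : s * ((r + 1) * ξ₃) ≤ r * (3 / 2) * (δ * η * s / 96) := by
      have h2 : (r : ℝ) + 1 ≤ r * (3 / 2) := by linarith
      have h3 : (r + 1) * (ξ₃ * s) ≤ r * (3 / 2) * (δ * η * s / 96) :=
        mul_le_mul h2 (by linarith) (by positivity) (by positivity)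
      linarith
    have h2 : |a * (r - i) - i * (w - a)| * (η / 8) ≤ r * (δ * s) * (15 / 16) * (η / 8) := by
      have h4 : 0 ≤ r * (δ * s) * η := by positivity
      linarith
    exact le_of_mul_le_mul_right h2 (by positivity)
  have hfin : |r * A - i * s| ≤ r * (δ * s) := by
    have h1 : r * A - i * s = (a * (r - i) - i * (w - a)) + r * (A - a) - i * y := by
      rw [← hcc]
      ring
    have h2 : 0 ≤ r * (A - a) := mul_nonneg hR0.le (by linarith)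
    have h3 : r * (A - a) ≤ r * y := mul_le_mul_of_nonneg_left (by linarith) hR0.le
    have h4 : 0 ≤ (i : ℝ) * y := mul_nonneg hi0 hY0
    have h5 : (i : ℝ) * y ≤ r * y := mul_le_mul_of_nonneg_right hiR hY0
    have h6 : δ * s ≤ r * (δ * s) := by
      have : 0 ≤ δ * s := by positivity
      nlinarith
    rw [h1, abs_le]
    have h7 := abs_le.1 hD2
    constructor <;> linarith [h7.1, h7.2]
  have h8 : A - i * s / r = (r * A - i * s) / r := by
    field_simp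
  rw [h8, abs_div, abs_of_pos hR0, div_le_iff₀ hR0]
  linarith

private theorem f7_tc {S : Type*} [DecidableEq S] {r : ℕ} (A : Finset S) (l : S → ℝ)
    (x : Fin r → S) (hx : Function.Injective x) (hA : ∀ v, v ∈ A ↔ 0 < l v)
    (inst : DecidablePred fun j => x j ∈ A) :
    ((univ.image x).filter fun v => 0 < l v).card =
      (@Finset.filter _ (fun j => x j ∈ A) inst univ).card := by
  rw [← Finset.card_image_of_injective _ hx]
  congr 1
  ext v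
  simp only [Finset.mem_filter, Finset.mem_image, Finset.mem_univ, true_and]
  constructor
  · rintro ⟨⟨j, rfl⟩, h⟩
    exact ⟨j, (hA _).2 h, rfl⟩
  · rintro ⟨j, h, rfl⟩
    exact ⟨⟨j, rfl⟩, (hA _).1 h⟩

theorem type_structure (r : ℕ) (hr : 2 ≤ r) (δ η : ℝ) (hδ : 0 < δ) (hη : 0 < η) :
    ∃ ε₁ : ℝ, 0 < ε₁ ∧ ∃ s₀ : ℕ, ∀ (S : Type) [Fintype S] [DecidableEq S],
      s₀ ≤ Fintype.card S → ∀ (c : Finset S → Bool) (C B : Finset S → Prop) (κ : Bool)
      (l l₁ : S → ℝ) (t : ℝ),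
      (∀ v, -1 ≤ l v) → (∀ v, l v ≤ (r : ℝ) - 1) →
      (∀ v, -1 ≤ l₁ v) → (∀ v, l₁ v ≤ (r : ℝ) - 1) →
      ∑ v, l v ≤ ε₁ * Fintype.card S → ∑ v, l₁ v ≤ ε₁ * Fintype.card S →
      η * Fintype.card S ≤ ∑ v, |l v| → η * Fintype.card S ≤ ∑ v, |l₁ v| →
      0 ≤ t → t ≤ 1 →
      (∀ g : Finset S, g.card = r → 0 ≤ ∑ v ∈ g, ((1 - t) * l v + t * l₁ v)) →
      (∀ g, HS r l g → ¬ C g ∧ B g) → (∀ g, HS r l₁ g → ¬ C g ∧ ¬ B g) →
      (∀ g h, JAdj r g h → ¬ C g → ¬ C h → B g → B h) →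
      (∀ g, C g → c g = κ) → (∀ g h, JAdj r g h → C g → c h = κ → C h) →
      ∃ i : ℕ, 1 ≤ i ∧ i < r ∧ ExtType r δ i (univ.filter fun v => 0 < l v) c κ := by
  have hR : (2 : ℝ) ≤ (r : ℝ) := by exact_mod_cast hr
  have hR0 : (0 : ℝ) < (r : ℝ) := by linarith
  -- constants
  obtain ⟨ξ₃, hξ₃, c1, c2⟩ : ∃ ξ₃ : ℝ, 0 < ξ₃ ∧ ((r : ℝ) + 2) * ξ₃ ≤ η / 16 ∧
      96 * ξ₃ ≤ δ * η := by
    refine ⟨min (η / (16 * (r + 2))) (δ * η / 96), lt_min (by positivity) (by positivity), ?_, ?_⟩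
    · have h1 := min_le_left (η / (16 * ((r : ℝ) + 2))) (δ * η / 96)
      calc ((r : ℝ) + 2) * min (η / (16 * (r + 2))) (δ * η / 96) ≤
          ((r : ℝ) + 2) * (η / (16 * (r + 2))) := mul_le_mul_of_nonneg_left h1 (by positivity)
        _ = η / 16 := by field_simp
    · have h1 := min_le_right (η / (16 * ((r : ℝ) + 2))) (δ * η / 96)
      linarith
  obtain ⟨ξ₂, hξ₂e⟩ : ∃ ξ₂ : ℝ, ξ₂ = ξ₃ / 2 := ⟨_, rfl⟩
  have hξ₂ : 0 < ξ₂ := by rw [hξ₂e]; positivity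
  obtain ⟨ξ₁, hξ₁, c3⟩ : ∃ ξ₁ : ℝ, 0 < ξ₁ ∧ 4 * (r : ℝ) ^ 2 * ξ₁ ≤ η * ξ₂ := by
    refine ⟨η * ξ₂ / (4 * r ^ 2), by positivity, le_of_eq ?_⟩
    field_simp
  obtain ⟨ζ, hζ, c4, c5⟩ : ∃ ζ : ℝ, 0 < ζ ∧ 64 * r * ζ ≤ δ * η ∧ 16 * r * ζ ≤ δ := by
    refine ⟨min (δ * η / (64 * r)) (δ / (16 * r)), lt_min (by positivity) (by positivity), ?_, ?_⟩
    · have h1 := min_le_left (δ * η / (64 * (r : ℝ))) (δ / (16 * r))
      calc 64 * r * min (δ * η / (64 * r)) (δ / (16 * r)) ≤ 64 * r * (δ * η / (64 * r)) :=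
            mul_le_mul_of_nonneg_left h1 (by positivity)
        _ = δ * η := by field_simp
    · have h1 := min_le_right (δ * η / (64 * (r : ℝ))) (δ / (16 * r))
      calc 16 * r * min (δ * η / (64 * r)) (δ / (16 * r)) ≤ 16 * r * (δ / (16 * r)) :=
            mul_le_mul_of_nonneg_left h1 (by positivity)
        _ = δ := by field_simp
  obtain ⟨ε₁, hε, c6, c7, c8, c9, c10⟩ : ∃ ε₁ : ℝ, 0 < ε₁ ∧ 8 * ε₁ ≤ η ∧
      32 * r * ε₁ ≤ η ^ 2 ∧ 16 * r * ε₁ ≤ η * ξ₁ ∧ 4 * ε₁ ≤ ζ * ξ₁ ∧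
      256 * r * ε₁ ≤ δ * η ^ 2 := by
    obtain ⟨m, hm⟩ : ∃ m : ℝ, m = min η (min (η ^ 2) (min (η * ξ₁) (min (ζ * ξ₁)
        (δ * η ^ 2)))) := ⟨_, rfl⟩
    have hm0 : 0 < m := by
      rw [hm]
      exact lt_min hη (lt_min (by positivity) (lt_min (by positivity) (lt_min (by positivity)
        (by positivity))))
    have m1 : m ≤ η := by rw [hm]; exact min_le_left _ _
    have m2 : m ≤ η ^ 2 := by rw [hm]; exact (min_le_right _ _).trans (min_le_left _ _)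
    have m3 : m ≤ η * ξ₁ := by
      rw [hm]
      exact (min_le_right _ _).trans ((min_le_right _ _).trans (min_le_left _ _))
    have m4 : m ≤ ζ * ξ₁ := by
      rw [hm]
      exact (min_le_right _ _).trans ((min_le_right _ _).trans ((min_le_right _ _).trans
        (min_le_left _ _)))
    have m5 : m ≤ δ * η ^ 2 := by
      rw [hm]
      exact (min_le_right _ _).trans ((min_le_right _ _).trans ((min_le_right _ _).trans
        (min_le_right _ _)))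
    have h0 : 256 * r * (m / (256 * r)) = m := by field_simp
    have h1 : 0 < m / (256 * r) := by positivity
    have h2 : m / (256 * r) ≤ r * (m / (256 * r)) := by nlinarith
    refine ⟨m / (256 * r), h1, ?_, ?_, ?_, ?_, ?_⟩ <;> nlinarith
  obtain ⟨s₀, hs₀⟩ := exists_nat_ge (2 * ((r : ℝ) - 1) / ε₁ + 32 * (r : ℝ) ^ 2 / η + 6 * r / ζ)
  refine ⟨ε₁, hε, s₀, ?_⟩
  intro S _ _ hS c C B κ l l₁ t hl hl' hl₁ hl₁' hsum hsum₁ habs habs₁ ht0 ht1 hL h1 h2 h3 h4 h5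
  have hSR : 2 * ((r : ℝ) - 1) / ε₁ + 32 * (r : ℝ) ^ 2 / η + 6 * r / ζ ≤ Fintype.card S :=
    hs₀.trans (by exact_mod_cast hS)
  have hp1 : 0 ≤ 2 * ((r : ℝ) - 1) / ε₁ := div_nonneg (by linarith) hε.le
  have hp2 : 0 ≤ 32 * (r : ℝ) ^ 2 / η := by positivity
  have hp3 : 0 ≤ 6 * r / ζ := by positivity
  have s1 : 2 * ((r : ℝ) - 1) ≤ ε₁ * Fintype.card S := by
    have h6 : 2 * ((r : ℝ) - 1) / ε₁ ≤ Fintype.card S := by linarith
    rwa [div_le_iff₀ hε, mul_comm (Fintype.card S : ℝ)] at h6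
  have s2 : 32 * (r : ℝ) ^ 2 ≤ η * Fintype.card S := by
    have h6 : 32 * (r : ℝ) ^ 2 / η ≤ Fintype.card S := by linarith
    rwa [div_le_iff₀ hη, mul_comm (Fintype.card S : ℝ)] at h6
  have s3 : 6 * r ≤ ζ * Fintype.card S := by
    have h6 : 6 * r / ζ ≤ Fintype.card S := by linarith
    rwa [div_le_iff₀ hζ, mul_comm (Fintype.card S : ℝ)] at h6
  obtain ⟨X₁, hX₁, hsl, hHS, hpos, hneg⟩ := f7_a hr η ε₁ ξ₁ ξ₂ ζ hη hε hξ₁ hξ₂ c3 c6 c7 c8 c9
    s1 s2 l l₁ hl hl' hl₁ hl₁' hsum hsum₁ habs habs₁ t ht0 ht1 hL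
  obtain ⟨X₂, a₀, g₀, i, hX₂, ha₀, hg₀, hi1, hir, hF, htwo, hA, hB⟩ := two_valued hr X₁ᶜ l ξ₂ ξ₃
    (η / 8) hξ₂.le (by linarith) (by linarith) (by
      intro g h hgh hg hh hgl
      by_contra hcon
      push Not at hcon
      have h6 := h2 g (hHS g hg hgh.1 hgl)
      have h7 := h1 h ⟨hgh.2.1, hcon⟩
      exact h6.2 (h3 h g hgh.symm h7.1 h6.1 h7.2)) hpos hneg
  have hWe : X₁ᶜ \ X₂ = (X₁ ∪ X₂)ᶜ := by
    ext v
    simp only [Finset.mem_sdiff, Finset.mem_compl, Finset.mem_union]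
    tauto
  rw [hWe] at htwo hA hB
  have hY : ((X₁ ∪ X₂).card : ℝ) ≤ ζ * Fintype.card S := by
    have h6 : ((X₁ ∪ X₂).card : ℝ) ≤ (X₁.card : ℝ) + X₂.card := by
      exact_mod_cast Finset.card_union_le _ _
    have h7 : (X₂.card : ℝ) ≤ 3 * r := by exact_mod_cast hX₂
    linarith
  have hsub : (X₁ ∪ X₂)ᶜ ⊆ X₁ᶜ := Finset.compl_subset_compl.2 Finset.subset_union_left
  have hkey := f7_b hr (η / 8) ξ₂ ξ₃ hξ₂ (by linarith) (by linarith) c C B κ l l₁ (X₁ ∪ X₂)ᶜ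
    a₀ g₀ i hi1 hir ha₀ hg₀ hF htwo hA hB (fun g hg => hHS g (hg.trans hsub)) h1 h2 h3 h4 h5
  have hsize := f7_g hr δ η ε₁ ξ₃ ζ hδ hη hξ₃ c2 c4 c5 c10 l hl hl' hsl (X₁ ∪ X₂) hY a₀ g₀ i hir
    hg₀ hF htwo
  generalize X₁ ∪ X₂ = Y at hY htwo hkey
  have hmem : ∀ v, v ∈ (univ.filter fun v => 0 < l v) ↔ 0 < l v := fun v => by simp
  have hcount : ∀ T : Finset (Fin r → S), (∀ x ∈ T, ∃ j, x j ∈ Y) →
      (T.card : ℝ) ≤ δ * (Fintype.card S : ℝ) ^ r := by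
    intro T hT
    refine (f7_cnt Y T hT).trans ?_
    have h6 : (r : ℝ) * Y.card ≤ δ * Fintype.card S := by
      have h7 : (r : ℝ) * Y.card ≤ r * (ζ * Fintype.card S) := mul_le_mul_of_nonneg_left hY hR0.le
      have h8 : 16 * r * ζ * Fintype.card S ≤ δ * Fintype.card S :=
        mul_le_mul_of_nonneg_right c5 (Nat.cast_nonneg _)
      have h9 : 0 ≤ δ * (Fintype.card S : ℝ) := by positivity
      linarith
    calc (r : ℝ) * Y.card * (Fintype.card S : ℝ) ^ (r - 1) ≤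
        δ * Fintype.card S * (Fintype.card S : ℝ) ^ (r - 1) :=
          mul_le_mul_of_nonneg_right h6 (by positivity)
      _ = δ * (Fintype.card S : ℝ) ^ r := by
          rw [mul_assoc, ← pow_succ', Nat.sub_add_cancel (by omega)]
  have himg : ∀ x : Fin r → S, Function.Injective x → (∀ j, x j ∉ Y) →
      univ.image x ⊆ Yᶜ ∧ (univ.image x).card = r := by
    intro x hx hxY
    refine ⟨fun v hv => ?_, ?_⟩
    · obtain ⟨j, _, rfl⟩ := Finset.mem_image.1 hv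
      exact Finset.mem_compl.2 (hxY j)
    · rw [Finset.card_image_of_injective _ hx, Finset.card_univ, Fintype.card_fin]
  refine ⟨i, hi1, hir, hsize, hcount _ ?_, fun _ => hcount _ ?_⟩
  · intro x hx
    rw [Finset.mem_filter] at hx
    obtain ⟨_, hx1, hx2, hx3⟩ := hx
    by_contra hcon
    push Not at hcon
    obtain ⟨h6, h7⟩ := himg x hx1 hcon
    refine hx3 ((hkey _ h6 h7).1 ?_)
    rw [f7_tc _ l x hx1 hmem]
    exact hx2
  · intro x hx
    rw [Finset.mem_filter] at hx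
    obtain ⟨_, hx1, hx2, hx3⟩ := hx
    by_contra hcon
    push Not at hcon
    obtain ⟨h6, h7⟩ := himg x hx1 hcon
    refine (hkey _ h6 h7).2 ?_ hx3
    rw [f7_tc _ l x hx1 hmem]
    exact hx2

end Pool.Agent.Lib.TwoPaths
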