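import Pool.Agent.Lib.TwoPaths.F2
import Pool.Agent.Lib.TwoPaths.F3
import Pool.Agent.Lib.TwoPaths.F4
import Pool.Agent.Lib.TwoPaths.F5
import Pool.Agent.Lib.TwoPaths.F6
import Pool.Agent.Lib.TwoPaths.F7

/-!
# F8: the finite structure lemma

CONSTANTS. `ω = min (δ/(8r)) (min (δ^(2^r)) (1/2))`, `μ₀ = ω^r` (so `μ₀ ≤ ω ≤ δ^(2^r)`),
`ρ₁ = μ₀²/4`.  Given `η`: `ε₁ = min (ε₁ of type_structure r δ η) (η/8)`, `s₀` at least `s₀` of
`type_structure` and such that `s ≥ s₀` gives `s ≥ r`, `s ≥ 4r²/μ₀²·(1)` (so that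
`r² ≤ (μ₀²/4) s`), `8 r² ≤ δ s`, `4 r < η s`.

PROOF.  If there is no adjacent bichromatic pair, `c` is constant on `r`-sets (`j_connected`): the
first alternative holds with count `0`.  Otherwise call `l` *good for* `(e, f)` if `Wit l`, `-1 ≤ l ≤ r-1`,
`∑ l ≤ ε₁ s`, `η s ≤ ∑ |l|` and `Avoids c r l e`, `Avoids c r l f` (i.e. `∑ g l ≥ 0` for all `g` in
the two components).  Define
`Or e f :⇔ ∃ φ, IsPot c r e f φ ∧ (ntup r {φ = φ e} < μ₀ s^r  ∨
            ∃ l good for (e,f), ∀ g, HS r l g → φ g = φ f)`.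
(h2 of `sink`) by `pot_congr` and `pot_conn`, since goodness only depends on the components.
(h1 of `sink`) let `(e, f)` be adjacent bichromatic, `φ` a potential.
 * if `nadj c r e f < ρ₁ s^(r+1)`: by `cut` the product of `ntup {φ = φ e}`, `ntup {φ = φ f}` is
   `< μ₀² s^(2r)`, so one of them is `< μ₀ s^r`: `Or e f` or `Or f e` (`φ` is also a potential of
   `(f, e)` by `chi_comm`).
 * otherwise take `l` from the hypothesis.  `HS r l` is nonempty: else fewer than `r` vertices have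
   `l < 0` and `∑ |l| = ∑ l + 2 ∑ l⁻ ≤ ε₁ s + 2 (r-1) < η s`.  `φ` is constant on `HS r l`
   (`hs_const`), equal to `φ e` or `φ f` (`zmod2_cases`, `pot_ne`): `Or f e` or `Or e f`.
`sink` gives `f`; let `C g ⇔ Conn c r f g`.

Case 1: every neighbour pair `(d, f')` has a potential `φ` with `ntup {φ = φ d} < μ₀ s^r`.  For an
`r`-set `h ∉ C` take `(d, f', ψ)` from `exists_branch` and `B_h = {g : g.card = r ∧ ψ g = ψ d}`; by
`pot_unique` `ntup r B_h = ntup r {φ = φ d} ≤ μ₀ s^r`; closure by `branch`.  `case_small` gives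
`(m/s^r)^(2^r) ≤ μ₀ ≤ δ^(2^r)`, `m = ntup r (¬C) ≤ δ s^r`, and sets of colour `≠ c f` are not in
`C`.  First alternative with `κ = c f`.

Case 2: some neighbour pair `(d₀, f₀)` has no such potential.  `Or d₀ f₀` gives `φ₀` and `l` good for
`(d₀, f₀)`, `HS r l ≠ ∅` (as above); `HS r l g` implies `g ∉ C` (Avoids; `Conn f₀ g ↔ Conn f g`).
Pick `h` with `HS r l h`, `(d₁, f₁, ψ)` from `exists_branch`, `B g :⇔ ψ g = ψ d₁`.  By
`hs_connected` and `branch`, `HS r l g → ¬ C g ∧ B g`.  `Or d₁ f₁` gives `φ₁` and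
 * `ntup {φ₁ = φ₁ d₁} < μ₀ s^r`: then `ntup B ≤ ω^r s^r` (`pot_unique`) and `case_tiny` gives
   `ntup (¬C) ≤ (2(r-1)(ω + r/s) + r/s + ω^r) s^r ≤ δ s^r` (`2(r-1) ω ≤ δ/4`, `ω^r ≤ ω ≤ δ/8`,
   `2(r-1) r/s + r/s ≤ 2r²/s ≤ δ/4`): first alternative; or
 * `l₁` good for `(d₁, f₁)` with `HS r l₁ g → φ₁ g = φ₁ f₁`; then `ψ g = ψ f₁ ≠ ψ d₁`
   (`pot_unique`), so `HS r l₁ g → ¬ C g ∧ ¬ B g`.  `HS r l`, `HS r l₁` are nonempty and do not touch
   (`branch`), so `touch_or_nonneg` gives `t`, and `type_structure` (with `κ = c f`) gives the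
   second alternative for `l`.
-/

namespace Pool.Agent.Lib.TwoPaths

open Finset Relation
open Pool.Agent.Lib.MP_952639_co

/-- Half spaces of functionals with large total variation are nonempty. -/
private lemma hs_nonempty_big {S : Type*} [Fintype S] [DecidableEq S] {r : ℕ} (hr : 2 ≤ r)
    {ε₁ η : ℝ} (hη : 0 < η) (hε : ε₁ ≤ η / 8) (hS : 0 < Fintype.card S)
    (h4 : 4 * (r : ℝ) < η * Fintype.card S) (l : S → ℝ) (hl : ∀ v, -1 ≤ l v)
    (hsum : ∑ v, l v ≤ ε₁ * Fintype.card S) (habs : η * Fintype.card S ≤ ∑ v, |l v|) :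
    ∃ g, HS r l g := by
  classical
  by_contra hcon
  push Not at hcon
  set N : Finset S := univ.filter fun v => l v < 0 with hN
  have hNr : N.card < r := by
    by_contra hge
    push Not at hge
    obtain ⟨g, hg, hgc⟩ := exists_subset_card_eq hge
    apply hcon g
    refine ⟨hgc, ?_⟩
    apply Finset.sum_neg
    · intro v hv
      have := hg hv
      rw [hN, mem_filter] at this
      exact this.2
    · rw [← card_pos, hgc]; omega
  have h1 : ∑ v, |l v| ≤ ∑ v, l v + 2 * N.card := by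
    have : ∀ v, |l v| ≤ l v + 2 * (if v ∈ N then (1 : ℝ) else 0) := by
      intro v
      by_cases hv : l v < 0
      · have hm : v ∈ N := by rw [hN, mem_filter]; exact ⟨mem_univ _, hv⟩
        rw [if_pos hm, abs_of_neg hv]
        have := hl v
        linarith
      · have hm : v ∉ N := by rw [hN, mem_filter]; exact fun h => hv h.2
        rw [if_neg hm, abs_of_nonneg (not_lt.mp hv)]
        linarith
    calc ∑ v, |l v| ≤ ∑ v, (l v + 2 * (if v ∈ N then (1 : ℝ) else 0)) :=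
          sum_le_sum fun v _ => this v
      _ = ∑ v, l v + 2 * N.card := by
          rw [sum_add_distrib, ← mul_sum]
          congr 2
          simp
  have h2 : (N.card : ℝ) ≤ r := by exact_mod_cast hNr.le
  have hs : (0 : ℝ) < Fintype.card S := by exact_mod_cast hS
  have h3 : ε₁ * Fintype.card S ≤ η / 8 * Fintype.card S := by gcongr
  have h5 : 0 < η * Fintype.card S := by positivity
  nlinarith

private lemma ntup_mono {S : Type*} [Fintype S] [DecidableEq S] {r : ℕ} {X Y : Finset S → Prop}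
    (h : ∀ g : Finset S, g.card = r → X g → Y g) : ntup r X ≤ ntup r Y := by
  classical
  unfold ntup
  apply card_le_card
  intro x hx
  simp only [mem_filter, mem_univ, true_and] at hx ⊢
  refine ⟨hx.1, h _ ?_ hx.2⟩
  rw [card_image_of_injective _ hx.1, card_univ, Fintype.card_fin]

private lemma ntup_zero {S : Type*} [Fintype S] [DecidableEq S] {r : ℕ} {X : Finset S → Prop}
    (h : ∀ g : Finset S, g.card = r → ¬ X g) : ntup r X = 0 := by
  classical
  unfold ntup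
  rw [card_eq_zero, eq_empty_iff_forall_notMem]
  intro x hx
  simp only [mem_filter, mem_univ, true_and] at hx
  refine h _ ?_ hx.2
  rw [card_image_of_injective _ hx.1, card_univ, Fintype.card_fin]

theorem finite_structure (r : ℕ) (hr : 2 ≤ r) (δ : ℝ) (hδ : 0 < δ) :
    ∃ ρ₁ : ℝ, 0 < ρ₁ ∧ ∀ η : ℝ, 0 < η → ∃ ε₁ : ℝ, 0 < ε₁ ∧ ∃ s₀ : ℕ,
      ∀ (S : Type) [Fintype S] [DecidableEq S], s₀ ≤ Fintype.card S →
      ∀ (c : Finset S → Bool) (Wit : (S → ℝ) → Prop),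
      (∀ e f : Finset S, JAdj r e f → c e ≠ c f →
        ρ₁ * (Fintype.card S : ℝ) ^ (r + 1) ≤ nadj c r e f →
        ∃ l : S → ℝ, Wit l ∧ (∀ v, -1 ≤ l v) ∧ (∀ v, l v ≤ (r : ℝ) - 1) ∧
          ∑ v, l v ≤ ε₁ * Fintype.card S ∧ η * Fintype.card S ≤ ∑ v, |l v| ∧
          ∀ g, Conn c r e g ∨ Conn c r f g → 0 ≤ ∑ v ∈ g, l v) →
      (∃ κ : Bool, (ntup r (fun g => c g ≠ κ) : ℝ) ≤ δ * (Fintype.card S : ℝ) ^ r) ∨
      ∃ l : S → ℝ, Wit l ∧ ∃ (i : ℕ) (κ : Bool), 1 ≤ i ∧ i < r ∧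
        ExtType r δ i (univ.filter fun v => 0 < l v) c κ := by
  have hr0 : (0 : ℝ) < r := by exact_mod_cast (by omega : 0 < r)
  have hr1 : (1 : ℝ) ≤ r := by exact_mod_cast (by omega : 1 ≤ r)
  obtain ⟨ω, hω⟩ : ∃ ω : ℝ, ω = min (δ / (8 * r)) (min (δ ^ (2 ^ r)) (1 / 2)) := ⟨_, rfl⟩
  have hω0 : 0 < ω := by rw [hω]; positivity
  have hω1 : ω ≤ δ / (8 * r) := by rw [hω]; exact min_le_left _ _
  have hω2 : ω ≤ δ ^ (2 ^ r) := by rw [hω]; exact (min_le_right _ _).trans (min_le_left _ _)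
  have hω3 : ω ≤ 1 := by
    rw [hω]; exact ((min_le_right _ _).trans (min_le_right _ _)).trans (by norm_num)
  obtain ⟨μ₀, hμ⟩ : ∃ μ₀ : ℝ, μ₀ = ω ^ r := ⟨_, rfl⟩
  have hμ0 : 0 < μ₀ := by rw [hμ]; positivity
  have hμω : μ₀ ≤ ω := by
    rw [hμ]
    exact pow_le_of_le_one hω0.le hω3 (by omega)
  refine ⟨μ₀ ^ 2 / 4, by positivity, ?_⟩
  intro η hη
  obtain ⟨ε', hε', s', hts⟩ := type_structure r hr δ η hδ hη
  refine ⟨min ε' (η / 8), by positivity, ?_⟩
  obtain ⟨ε₁, hε₁⟩ : ∃ ε₁ : ℝ, ε₁ = min ε' (η / 8) := ⟨_, rfl⟩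
  rw [← hε₁]
  have hεa : ε₁ ≤ ε' := by rw [hε₁]; exact min_le_left _ _
  have hεb : ε₁ ≤ η / 8 := by rw [hε₁]; exact min_le_right _ _
  have hε0 : 0 < ε₁ := by rw [hε₁]; positivity
  obtain ⟨s1, hs1⟩ := exists_nat_ge ((r : ℝ) ^ 2 / (μ₀ ^ 2 / 4))
  obtain ⟨s2, hs2⟩ := exists_nat_ge (8 * (r : ℝ) ^ 2 / δ)
  obtain ⟨s3, hs3⟩ := exists_nat_gt (4 * (r : ℝ) / η)
  refine ⟨s' + s1 + s2 + s3 + 1, ?_⟩
  intro S _ _ hS c Wit hyp
  obtain ⟨s, hsdef⟩ : ∃ s : ℝ, s = (Fintype.card S : ℝ) := ⟨_, rfl⟩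
  have hScard : 0 < Fintype.card S := by omega
  have hs0 : 0 < s := by rw [hsdef]; exact_mod_cast hScard
  have hge1 : (r : ℝ) ^ 2 ≤ (μ₀ ^ 2 / 4) * s := by
    have : (s1 : ℝ) ≤ s := by rw [hsdef]; exact_mod_cast (by omega : s1 ≤ Fintype.card S)
    have h := hs1.trans this
    rw [div_le_iff₀ (by positivity)] at h
    linarith
  have hge2 : 8 * (r : ℝ) ^ 2 ≤ δ * s := by
    have : (s2 : ℝ) ≤ s := by rw [hsdef]; exact_mod_cast (by omega : s2 ≤ Fintype.card S)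
    have h := hs2.trans this
    rw [div_le_iff₀ (by positivity)] at h
    linarith
  have hge3 : 4 * (r : ℝ) < η * s := by
    have : (s3 : ℝ) ≤ s := by rw [hsdef]; exact_mod_cast (by omega : s3 ≤ Fintype.card S)
    have h := hs3.trans_le this
    rw [div_lt_iff₀ (by positivity)] at h
    linarith
  have hS' : s' ≤ Fintype.card S := by omega
  by_cases hbi : ∃ e f, JAdj r e f ∧ c e ≠ c f
  swap
  · -- no bichromatic pair
    left
    push Not at hbi
    have hconst : ∀ e f : Finset S, e.card = r → f.card = r → c e = c f := by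
      intro e f he hf
      exact rtg_const (fun a b hab => hbi a b hab) (j_connected r he hf)
    by_cases hex : ∃ g : Finset S, g.card = r
    · obtain ⟨g, hg⟩ := hex
      refine ⟨c g, ?_⟩
      have : ntup r (fun g' => c g' ≠ c g) = 0 := by
        refine ntup_zero fun g' hg' hc => hc (hconst _ _ hg' hg)
      rw [this, Nat.cast_zero]
      positivity
    · refine ⟨true, ?_⟩
      have : ntup r (fun g' => c g' ≠ true) = 0 := by
        refine ntup_zero fun g' hg' _ => hex ⟨g', hg'⟩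
      rw [this, Nat.cast_zero]
      positivity
  -- main case
  let Good : (S → ℝ) → Finset S → Finset S → Prop := fun l e f =>
    Wit l ∧ (∀ v, -1 ≤ l v) ∧ (∀ v, l v ≤ (r : ℝ) - 1) ∧ ∑ v, l v ≤ ε₁ * Fintype.card S ∧
      η * Fintype.card S ≤ ∑ v, |l v| ∧ Avoids c r l e ∧ Avoids c r l f
  let Ori : Finset S → Finset S → Prop := fun e f =>
    ∃ φ : Finset S → ZMod 2, IsPot c r e f φ ∧
      ((ntup r (fun g => φ g = φ e) : ℝ) < μ₀ * s ^ r ∨
        ∃ l, Good l e f ∧ ∀ g, HS r l g → φ g = φ f)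
  have hne : ∀ l e f, Good l e f → ∃ g, HS r l g := by
    intro l e f hg
    exact hs_nonempty_big hr hη hεb hScard (by rw [← hsdef]; exact hge3) l hg.2.1 hg.2.2.2.1
      hg.2.2.2.2.1
  have h1 : ∀ e f, JAdj r e f → c e ≠ c f → Ori e f ∨ Ori f e := by
    intro e f hadj hef
    obtain ⟨φ, hφ⟩ := exists_pot (r := r) hef
    have hφ' : IsPot c r f e φ := by
      intro a b hab
      rw [hφ a b hab, chi_comm]
    by_cases hn : μ₀ ^ 2 / 4 * (Fintype.card S : ℝ) ^ (r + 1) ≤ nadj c r e f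
    · obtain ⟨l, hw, hl1, hl2, hl3, hl4, hl5⟩ := hyp e f hadj hef hn
      have hae : Avoids c r l e := fun g hg hg' => absurd hg'.2 (not_lt.mpr (hl5 g (Or.inl hg)))
      have haf : Avoids c r l f := fun g hg hg' => absurd hg'.2 (not_lt.mpr (hl5 g (Or.inr hg)))
      have hgood : Good l e f := ⟨hw, hl1, hl2, hl3, hl4, hae, haf⟩
      have hgood' : Good l f e := ⟨hw, hl1, hl2, hl3, hl4, haf, hae⟩
      obtain ⟨h, hh⟩ := hne l e f hgood
      rcases zmod2_cases (z := φ h) (pot_ne hadj hφ) with hφh | hφh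
      · right
        refine ⟨φ, hφ', Or.inr ⟨l, hgood', ?_⟩⟩
        intro g hg
        rw [hs_const hφ haf hg hh, hφh]
      · left
        refine ⟨φ, hφ, Or.inr ⟨l, hgood, ?_⟩⟩
        intro g hg
        rw [hs_const hφ haf hg hh, hφh]
    · push Not at hn
      have hcut := cut (by omega : 1 ≤ r) hadj hef hφ
      rw [← hsdef] at hcut hn
      have hA0 : (0 : ℝ) ≤ ntup r (fun g => φ g = φ e) := Nat.cast_nonneg _
      have hB0 : (0 : ℝ) ≤ ntup r (fun g => φ g = φ f) := Nat.cast_nonneg _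
      by_cases hA : (ntup r (fun g => φ g = φ e) : ℝ) < μ₀ * s ^ r
      · left; exact ⟨φ, hφ, Or.inl hA⟩
      by_cases hB : (ntup r (fun g => φ g = φ f) : ℝ) < μ₀ * s ^ r
      · right; exact ⟨φ, hφ', Or.inl hB⟩
      exfalso
      push Not at hA hB
      have hp : (μ₀ * s ^ r) * (μ₀ * s ^ r) ≤
          (ntup r (fun g => φ g = φ e) : ℝ) * ntup r (fun g => φ g = φ f) :=
        mul_le_mul hA hB (by positivity) hA0
      have e1 : s ^ (r - 1) * (μ₀ ^ 2 / 4 * s ^ (r + 1)) = μ₀ ^ 2 / 4 * (s ^ r * s ^ r) := by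
        have : s ^ (r - 1) * s ^ (r + 1) = s ^ r * s ^ r := by
          rw [← pow_add, ← pow_add]; congr 1; omega
        calc s ^ (r - 1) * (μ₀ ^ 2 / 4 * s ^ (r + 1))
            = μ₀ ^ 2 / 4 * (s ^ (r - 1) * s ^ (r + 1)) := by ring
          _ = _ := by rw [this]
      have e2 : (r : ℝ) ^ 2 * s ^ (2 * r - 1) ≤ μ₀ ^ 2 / 4 * (s ^ r * s ^ r) := by
        have : s * s ^ (2 * r - 1) = s ^ r * s ^ r := by
          rw [← pow_succ', ← pow_add]; congr 1; omega
        calc (r : ℝ) ^ 2 * s ^ (2 * r - 1) ≤ (μ₀ ^ 2 / 4 * s) * s ^ (2 * r - 1) := by gcongr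
          _ = μ₀ ^ 2 / 4 * (s * s ^ (2 * r - 1)) := by ring
          _ = _ := by rw [this]
      have e3 : s ^ (r - 1) * (nadj c r e f : ℝ) ≤ s ^ (r - 1) * (μ₀ ^ 2 / 4 * s ^ (r + 1)) := by
        gcongr
      have e4 : 0 < μ₀ ^ 2 * (s ^ r * s ^ r) := by positivity
      nlinarith
  have h2 : ∀ e f e' f', JAdj r e f → c e ≠ c f → JAdj r e' f' → Conn c r e e' → Conn c r f f' →
      Ori e f → Ori e' f' := by
    rintro e f e' f' hadj hef hadj' hee' hff' ⟨φ, hφ, h⟩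
    refine ⟨φ, pot_congr hee' hff' hφ, ?_⟩
    have he : φ e = φ e' := pot_conn hef hφ hee'
    have hf : φ f = φ f' := pot_conn hef hφ hff'
    rw [← he, ← hf]
    rcases h with h | ⟨l, hgood, hl⟩
    · exact Or.inl h
    · refine Or.inr ⟨l, ⟨hgood.1, hgood.2.1, hgood.2.2.1, hgood.2.2.2.1, hgood.2.2.2.2.1, ?_, ?_⟩,
        hl⟩
      · intro g hg
        exact hgood.2.2.2.2.2.1 g (hee'.trans hg)
      · intro g hg
        exact hgood.2.2.2.2.2.2 g (hff'.trans hg)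
  obtain ⟨f, hf, hsink⟩ := sink c r Ori h1 h2 hbi
  have hcolC : ∀ g, Conn c r f g → c g = c f := fun g hg => hg.color.symm
  have hfinish : (ntup r (fun g => ¬ Conn c r f g) : ℝ) ≤ δ * s ^ r →
      (ntup r (fun g => c g ≠ c f) : ℝ) ≤ δ * (Fintype.card S : ℝ) ^ r := by
    intro h
    rw [← hsdef]
    refine le_trans ?_ h
    exact_mod_cast ntup_mono (X := fun g => c g ≠ c f) (Y := fun g => ¬ Conn c r f g)
      (fun g _ hg hC => hg (hcolC g hC))
  by_cases hcase : ∀ d f', NPair c r f d f' → ∃ φ : Finset S → ZMod 2, IsPot c r d f' φ ∧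
      (ntup r (fun g => φ g = φ d) : ℝ) < μ₀ * s ^ r
  · -- Case 1
    left
    refine ⟨c f, hfinish ?_⟩
    have key := case_small (r := r) hScard (fun g => Conn c r f g) μ₀ hμ0.le (by
      intro h hh hC
      obtain ⟨d, f', ψ, hnp, hψ, hψh⟩ := exists_branch hf hh hC
      obtain ⟨φ, hφ, hφs⟩ := hcase d f' hnp
      refine ⟨fun g => g.card = r ∧ ψ g = ψ d, ⟨hh, hψh⟩, ?_, ?_⟩
      · intro g g' hgg' hCg hCg' hB
        refine ⟨hgg'.2.1, ?_⟩
        rw [← (branch hnp hψ).1 g g' hgg' hCg hCg']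
        exact hB.2
      · rw [← hsdef]
        refine le_trans ?_ hφs.le
        have hmono : ntup r (fun g => g.card = r ∧ ψ g = ψ d) ≤ ntup r (fun g => φ g = φ d) :=
          ntup_mono (fun g hg hB => (pot_unique hψ hφ hg hnp.2.1.1).mp hB.2)
        exact_mod_cast hmono)
    rw [← hsdef] at key
    have hm0 : (0 : ℝ) ≤ (ntup r (fun g => ¬ Conn c r f g) : ℝ) / s ^ r := by positivity
    have key2 : ((ntup r (fun g => ¬ Conn c r f g) : ℝ) / s ^ r) ^ (2 ^ r) ≤ δ ^ (2 ^ r) :=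
      key.trans (hμω.trans hω2)
    have key3 : (ntup r (fun g => ¬ Conn c r f g) : ℝ) / s ^ r ≤ δ :=
      le_of_pow_le_pow_left₀ (by positivity) hδ.le key2
    rwa [div_le_iff₀ (by positivity)] at key3
  · -- Case 2
    push Not at hcase
    obtain ⟨d₀, f₀, hnp₀, hbig⟩ := hcase
    obtain ⟨φ₀, hφ₀, hor⟩ := hsink d₀ f₀ hnp₀
    obtain ⟨l, hgood, hl⟩ : ∃ l, Good l d₀ f₀ ∧ ∀ g, HS r l g → φ₀ g = φ₀ f₀ := by
      rcases hor with h | h
      · exact absurd h (not_lt.mpr (hbig φ₀ hφ₀))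
      · exact h
    obtain ⟨h, hh⟩ := hne l d₀ f₀ hgood
    have hHSC : ∀ g, HS r l g → ¬ Conn c r f g := by
      intro g hg hC
      exact hgood.2.2.2.2.2.2 g (hnp₀.1.symm.trans hC) hg
    obtain ⟨d₁, f₁, ψ, hnp₁, hψ, hψh⟩ := exists_branch hf hh.1 (hHSC h hh)
    have hbr := branch hnp₁ hψ
    have hHSB : ∀ g, HS r l g → ¬ Conn c r f g ∧ ψ g = ψ d₁ := by
      intro g hg
      refine ⟨hHSC g hg, ?_⟩
      rw [← hψh]
      have hp := hs_connected r l hg hh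
      exact rtg_const (fun a b hab => hbr.1 a b hab.1 (hHSC a hab.2.1) (hHSC b hab.2.2)) hp
    have hBcl : ∀ g g', JAdj r g g' → ¬ Conn c r f g → ¬ Conn c r f g' → ψ g = ψ d₁ →
        ψ g' = ψ d₁ := by
      intro g g' hgg' hg hg' hB
      rw [← hbr.1 g g' hgg' hg hg', hB]
    obtain ⟨φ₁, hφ₁, hor₁⟩ := hsink d₁ f₁ hnp₁
    rcases hor₁ with hsm | ⟨l₁, hgood₁, hl₁⟩
    · left
      refine ⟨c f, hfinish ?_⟩
      have hBt : (ntup r (fun g => ψ g = ψ d₁) : ℝ) ≤ ω ^ r * (Fintype.card S : ℝ) ^ r := by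
        rw [← hμ, ← hsdef]
        refine le_trans ?_ hsm.le
        have hmono : ntup r (fun g => ψ g = ψ d₁) ≤ ntup r (fun g => φ₁ g = φ₁ d₁) :=
          ntup_mono (fun g hg hB => (pot_unique hψ hφ₁ hg hnp₁.2.1.1).mp hB)
        exact_mod_cast hmono
      have key := case_tiny hr hScard (fun g => Conn c r f g) (fun g => ψ g = ψ d₁) ω ε₁ η hω0.le
        hε0.le hη (by linarith) hBcl hBt l hgood.2.1 hgood.2.2.2.1 hgood.2.2.2.2.1 hHSB
      rw [← hsdef] at key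
      refine key.trans ?_
      have hsr : 0 < s ^ r := by positivity
      apply mul_le_mul_of_nonneg_right _ hsr.le
      have a1 : (r : ℝ) * ω ≤ δ / 8 := by
        have : (r : ℝ) * ω ≤ r * (δ / (8 * r)) := by gcongr
        have e : (r : ℝ) * (δ / (8 * r)) = δ / 8 := by field_simp
        linarith
      have a2 : (r : ℝ) ^ 2 / s ≤ δ / 8 := by
        rw [div_le_iff₀ hs0]; linarith
      have a3 : ω ^ r ≤ δ / 8 := by
        rw [← hμ]
        have : ω ≤ r * ω := by nlinarith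
        linarith
      have a4 : (0 : ℝ) ≤ r / s := by positivity
      have e1 : 2 * ((r : ℝ) - 1) * (ω + r / s) + r / s + ω ^ r =
          2 * (r * ω) - 2 * ω + 2 * (r ^ 2 / s) - r / s + ω ^ r := by ring
      rw [e1]
      linarith
    · right
      have hHSB₁ : ∀ g, HS r l₁ g → ¬ Conn c r f g ∧ ¬ ψ g = ψ d₁ := by
        intro g hg
        refine ⟨fun hC => hgood₁.2.2.2.2.2.2 g (hnp₁.1.symm.trans hC) hg, ?_⟩
        intro hB
        have h3 := (pot_unique hψ hφ₁ hg.1 hnp₁.2.1.1).mp hB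
        rw [hl₁ g hg] at h3
        exact pot_ne hnp₁.2.1 hφ₁ h3.symm
      obtain ⟨h', hh'⟩ := hne l₁ d₁ f₁ hgood₁
      rcases touch_or_nonneg r l l₁ ⟨h, hh⟩ ⟨h', hh'⟩ with ⟨e, g, he, hg, heg⟩ | ⟨t, ht0, ht1, ht⟩
      · exfalso
        rcases heg with heg | heg
        · rw [← heg] at hg
          exact (hHSB₁ e hg).2 (hHSB e he).2
        · exact (hHSB₁ g hg).2 (hBcl e g heg (hHSB e he).1 (hHSB₁ g hg).1 (hHSB e he).2)
      · have hsε : ε₁ * (Fintype.card S : ℝ) ≤ ε' * Fintype.card S := by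
          gcongr
        obtain ⟨i, hi1, hi2, hext⟩ := hts S hS' c (fun g => Conn c r f g) (fun g => ψ g = ψ d₁)
          (c f) l l₁ t hgood.2.1 hgood.2.2.1 hgood₁.2.1 hgood₁.2.2.1
          (hgood.2.2.2.1.trans hsε) (hgood₁.2.2.2.1.trans hsε) hgood.2.2.2.2.1 hgood₁.2.2.2.2.1
          ht0 ht1 ht hHSB hHSB₁ hBcl hcolC (by
            intro g g' hgg' hC hc
            exact ReflTransGen.tail hC ⟨hgg', by rw [hcolC g hC, hc]⟩)
        exact ⟨l, hgood.1, i, c f, hi1, hi2, hext⟩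

end Pool.Agent.Lib.TwoPaths
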