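import Pool.Agent.Lib.TwoPaths.D6
import Pool.Agent.Lib.TwoPaths.F8

/-!
# D7: the dichotomy

For large `n = |V|` a 2-colouring `c` of the `r`-sets is nearly monochromatic, or has the extremal
structure of some type `1 ≤ i < r`, or has a pair of families `A true, A false` of `r`-tuples of
different colours, each well connected by walks (`AM r c ^ l`), with positive density of adjacencies
between them, and with the interior property.

CONSTANTS.  `finite_structure r (δ/4)` gives `ρ₁`.  `ρ₂ = ρ₁/(2 (r!)² r)`, `ρ = min (ρ₂/2) 1`.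
Given `η`: `finite_structure` with `η/2` gives `ε₁F`, `s₀F`; `ε₁ = ε₁F/4`.  Let `s` be at least
`s₀F`, `s₀` of `exists_sample r δ η ρ ε₁`, `r`, and such that `2 r² (r+1) ≤ (ρ₁/2) s` and
`3 ε₁ s + 2 r (r-1) ≤ ε₁F s` (i.e. `2 r (r-1) ≤ ε₁ s`).  `exists_sample` gives `δc, β, n₀`.
`exists_classes r δc` gives `cc, L`.

PROOF.  Let `V, c` be given, `cls, l` from `exists_classes`.
Suppose there is a *good pair*: tuples `x, y` with `cls x ≠ 0`, `cls y ≠ 0`, `c [x] ≠ c [y]`,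
`∃ τ i, ρ n^(r+1) ≤ #{(u, v) | cls u = cls x ∧ cls ((update u i v) ∘ τ) = cls y}`, and
`Interior η ε₁ β A` for `A b = {u | cls u = if b then cls x else cls y}`.  Then the third alternative
holds with `κ₀ = c [x]`: tuples of one class are injective and have one colour
(`AMpow_pos_col`, as in the proof of `AlmostCover.result`: `hsame`), and the walk bound is that of
`exists_classes`.

Otherwise define `ok j j' :⇔ ∃ z, W j j' z`, where `W j j' z` says: `-1 ≤ z ≤ r-1`,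
`∑ z ≤ ε₁ n`, `η n ≤ ∑ |z|`, `cnt (fun u => (cls u = j ∨ cls u = j') ∧ ∑ z (u i) < 0) ≤ β n^r`; and let
`Z j j'` be a chosen such `z`.  The hypothesis of `exists_sample` holds; get `S`.  We check the
hypotheses of `sample_core` with `ρ₁, ρ₂, η/2, ε = 3 ε₁, ε' = ε₁F, δ/4`: only (h6) needs an
argument.  Let `a, b` be injective, `c [S∘a] ≠ c [S∘b]`, and let `(τ, i)` have at least `ρ₂ s^(r+1)`
(`≥ 2 ρ s^(r+1)`) tuples `ω`.  Then by `exists_sample` the global count is at least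
`ρ n^(r+1)`.  `cls (S∘a) ≠ 0` and `cls (S∘b) ≠ 0` by `¬E1`, `¬E2`.  As `(S∘a, S∘b)` is not a good
pair, `Interior η ε₁ β A` fails: there is `z` with the bounds and
`#{u ∈ A true ∪ A false | ∑ z (u i) < 0} < β n^r`, i.e. `W (cls (S∘a)) (cls (S∘b)) z`.
`sample_core` (with `hF` = `finite_structure` for the type `Fin s`, `Fintype.card (Fin s) = s`) gives
 * `κ` with at most `(δ/4) s^r` injective `a` with `c [S∘a] ≠ κ`: the transfer statement gives the
   first alternative;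
 * or `a, b, i, κ` with the structure on the sample: the transfer statement gives the second
   alternative.
-/

namespace Pool.Agent.Lib.TwoPaths

open Finset
open Pool.Agent.Lib.MP_952639_co

open Classical in
theorem dichotomy (r : ℕ) (hr : 2 ≤ r) (δ : ℝ) (hδ : 0 < δ) :
    ∃ ρ : ℝ, 0 < ρ ∧ ρ ≤ 1 ∧ ∀ η : ℝ, 0 < η → ∃ (ε₁ β cc : ℝ) (L n₀ : ℕ), 0 < ε₁ ∧ 0 < β ∧
      0 < cc ∧ ∀ (V : Type) [Fintype V] [DecidableEq V], n₀ ≤ Fintype.card V →
      ∀ c : Finset V → Bool,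
      (∃ κ : Bool, ((univ.filter fun x : Fin r → V => Function.Injective x ∧
          c (univ.image x) ≠ κ).card : ℝ) ≤ δ * (Fintype.card V : ℝ) ^ r) ∨
      (∃ (i : ℕ) (A : Finset V) (κ : Bool), 1 ≤ i ∧ i < r ∧ ExtType r δ i A c κ) ∨
      (∃ (A : Bool → Finset (Fin r → V)) (κ₀ : Bool) (l : ℕ), 1 ≤ l ∧ l ≤ L ∧
        (∀ b, ∀ x ∈ A b, Col c (if b then κ₀ else !κ₀) x) ∧
        (∀ b, ∀ x ∈ A b, ∀ y ∈ A b,
          cc * (Fintype.card V : ℝ) ^ (r * (l - 1)) ≤ (AM r c ^ l) x y) ∧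
        (∃ (τ : Equiv.Perm (Fin r)) (i : Fin r), ρ * (Fintype.card V : ℝ) ^ (r + 1) ≤
          ((univ.filter fun p : (Fin r → V) × V => p.1 ∈ A true ∧
            (Function.update p.1 i p.2) ∘ τ ∈ A false).card : ℝ)) ∧
        Interior η ε₁ β A) := by
  have hr0 : (0 : ℝ) < r := by exact_mod_cast (by omega : 0 < r)
  obtain ⟨ρ₁, hρ₁, hfs⟩ := finite_structure r hr (δ / 4) (by positivity)
  have hfac : (0 : ℝ) < (r.factorial : ℝ) ^ 2 * r := by
    have : (0 : ℝ) < r.factorial := by exact_mod_cast Nat.factorial_pos r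
    positivity
  obtain ⟨ρ₂, hρ₂⟩ : ∃ ρ₂ : ℝ, ρ₂ = ρ₁ / 2 / ((r.factorial : ℝ) ^ 2 * r) := ⟨_, rfl⟩
  have hρ₂0 : 0 < ρ₂ := by rw [hρ₂]; positivity
  have hρ₂le : ρ₂ * ((r.factorial : ℝ) ^ 2 * r) ≤ ρ₁ / 2 := by
    rw [hρ₂, div_mul_cancel₀ _ hfac.ne']
  obtain ⟨ρ, hρ⟩ : ∃ ρ : ℝ, ρ = min (ρ₂ / 2) 1 := ⟨_, rfl⟩
  have hρ0 : 0 < ρ := by rw [hρ]; positivity
  have hρ1 : ρ ≤ 1 := by rw [hρ]; exact min_le_right _ _
  have hρ2 : 2 * ρ ≤ ρ₂ := by
    have : ρ ≤ ρ₂ / 2 := by rw [hρ]; exact min_le_left _ _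
    linarith
  refine ⟨ρ, hρ0, hρ1, ?_⟩
  intro η hη
  obtain ⟨εF, hεF, s₀F, hF⟩ := hfs (η / 2) (by positivity)
  obtain ⟨ε₁, hε₁⟩ : ∃ ε₁ : ℝ, ε₁ = εF / 4 := ⟨_, rfl⟩
  have hε₁0 : 0 < ε₁ := by rw [hε₁]; positivity
  obtain ⟨s₁, hsam⟩ := exists_sample r hr δ η ρ ε₁ hδ hη hρ0 hε₁0
  obtain ⟨s₂, hs₂⟩ := exists_nat_ge (2 * (r : ℝ) ^ 2 * (r + 1) / (ρ₁ / 2))
  obtain ⟨s₃, hs₃⟩ := exists_nat_ge (2 * r * ((r : ℝ) - 1) / ε₁)
  obtain ⟨s, hs⟩ : ∃ s : ℕ, s = s₀F + s₁ + s₂ + s₃ + r := ⟨_, rfl⟩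
  have hsρ : 2 * (r : ℝ) ^ 2 * (r + 1) ≤ ρ₁ / 2 * s := by
    have h1 : (s₂ : ℝ) ≤ s := by exact_mod_cast (by omega : s₂ ≤ s)
    have h2 := hs₂.trans h1
    rw [div_le_iff₀ (by positivity)] at h2
    linarith
  have hsε : 2 * r * ((r : ℝ) - 1) ≤ ε₁ * s := by
    have h1 : (s₃ : ℝ) ≤ s := by exact_mod_cast (by omega : s₃ ≤ s)
    have h2 := hs₃.trans h1
    rw [div_le_iff₀ (by positivity)] at h2
    linarith
  obtain ⟨δc, β, n₀, hδc, hβ, hsam⟩ := hsam s (by omega)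
  obtain ⟨cc, L, hcc, hcls⟩ := exists_classes r (by omega) δc hδc
  refine ⟨ε₁, β, cc, L, n₀ + 1, hε₁0, hβ, hcc, ?_⟩
  intro V _ _ hV c
  have hVpos : 0 < Fintype.card V := by omega
  have hne : Nonempty V := Fintype.card_pos_iff.mp hVpos
  obtain ⟨cls, l, hl1, hlL, hinj, hexc, hcr, hconn⟩ := hcls V c
  have hsame : ∀ u w : Fin r → V, cls u ≠ 0 → cls u = cls w →
      c (univ.image u) = c (univ.image w) := by
    intro u w hu huw
    have h1 := hconn u w hu huw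
    obtain ⟨m, rfl⟩ : ∃ m, l = m + 1 := ⟨l - 1, by omega⟩
    have h2 : (0 : ℝ) < Fintype.card V := by exact_mod_cast hVpos
    obtain ⟨κ', h3, h4⟩ := AMpow_pos_col m u w (lt_of_lt_of_le (by positivity) h1)
    rw [h3.2, h4.2]
  by_cases hgp : ∃ x y : Fin r → V, cls x ≠ 0 ∧ cls y ≠ 0 ∧
      c (univ.image x) ≠ c (univ.image y) ∧
      (∃ (τ : Equiv.Perm (Fin r)) (i : Fin r), ρ * (Fintype.card V : ℝ) ^ (r + 1) ≤
        ((univ.filter fun p : (Fin r → V) × V => cls p.1 = cls x ∧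
          cls ((Function.update p.1 i p.2) ∘ τ) = cls y).card : ℝ)) ∧
      Interior η ε₁ β (fun b => univ.filter fun u : Fin r → V => cls u = if b then cls x else cls y)
  · right; right
    obtain ⟨x, y, hx, hy, hxy, ⟨τ, i, hcount⟩, hint⟩ := hgp
    refine ⟨fun b => univ.filter fun u : Fin r → V => cls u = if b then cls x else cls y,
      c (univ.image x), l, hl1, hlL, ?_, ?_, ⟨τ, i, ?_⟩, hint⟩
    · intro b u hu
      simp only [mem_filter, mem_univ, true_and] at hu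
      cases b with
      | true =>
        simp only [if_true] at hu ⊢
        have hu0 : cls u ≠ 0 := by rw [hu]; exact hx
        exact ⟨hinj u hu0, hsame u x hu0 hu⟩
      | false =>
        simp only [Bool.false_eq_true, if_false] at hu ⊢
        have hu0 : cls u ≠ 0 := by rw [hu]; exact hy
        refine ⟨hinj u hu0, ?_⟩
        rw [hsame u y hu0 hu]
        revert hxy
        cases c (univ.image x) <;> cases c (univ.image y) <;> simp
    · intro b u hu w hw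
      simp only [mem_filter, mem_univ, true_and] at hu hw
      apply hconn u w
      · rw [hu]; cases b <;> simp [hx, hy]
      · rw [hu, hw]
    · refine hcount.trans (le_of_eq ?_)
      congr 2
      ext p
      simp
  -- no good pair
  let W : ℕ → ℕ → (V → ℝ) → Prop := fun j j' z =>
    (∀ v, -1 ≤ z v) ∧ (∀ v, z v ≤ (r : ℝ) - 1) ∧
        ∑ v, z v ≤ ε₁ * Fintype.card V ∧ η * Fintype.card V ≤ ∑ v, |z v| ∧
        cnt (fun u : Fin r → V => (cls u = j ∨ cls u = j') ∧ ∑ i, z (u i) < 0) ≤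
          β * (Fintype.card V : ℝ) ^ r
  let ok : ℕ → ℕ → Prop := fun j j' => ∃ z, W j j' z
  let Z : ℕ → ℕ → V → ℝ := fun j j' => if h : ∃ z, W j j' z then h.choose else 0
  have hZ : ∀ j j', ok j j' → W j j' (Z j j') := by
    intro j j' h
    have h' : ∃ z, W j j' z := h
    have : Z j j' = h'.choose := dif_pos h'
    rw [this]
    exact h'.choose_spec
  obtain ⟨S, hE1, hE2, hE3, hsum, habs, hneg, htrans, hext, hmono⟩ :=
    hsam V (by omega) c cls hexc hcr Z ok hZ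
  have hSinj : Function.Injective S := by
    intro p q hpq
    by_contra h
    exact hE1 ⟨(p, q), h, hpq⟩
  have hcls0 : ∀ a : Fin r → Fin s, Function.Injective a → cls (S ∘ a) ≠ 0 := by
    intro a ha h
    exact hE2 ⟨a, ha, hSinj.comp ha, h⟩
  have hF' : ∀ (c : Finset (Fin s) → Bool) (Wit : (Fin s → ℝ) → Prop),
      (∀ e f : Finset (Fin s), JAdj r e f → c e ≠ c f →
        ρ₁ * (s : ℝ) ^ (r + 1) ≤ nadj c r e f →
        ∃ l : Fin s → ℝ, Wit l ∧ (∀ v, -1 ≤ l v) ∧ (∀ v, l v ≤ (r : ℝ) - 1) ∧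
          ∑ v, l v ≤ εF * s ∧ η / 2 * s ≤ ∑ v, |l v| ∧
          ∀ g, Conn c r e g ∨ Conn c r f g → 0 ≤ ∑ v ∈ g, l v) →
      (∃ κ : Bool, (ntup r (fun g => c g ≠ κ) : ℝ) ≤ δ / 4 * (s : ℝ) ^ r) ∨
      ∃ l : Fin s → ℝ, Wit l ∧ ∃ (i : ℕ) (κ : Bool), 1 ≤ i ∧ i < r ∧
        ExtType r (δ / 4) i (univ.filter fun v => 0 < l v) c κ := by
    intro c Wit
    have h := hF (Fin s) (by rw [Fintype.card_fin]; omega) c Wit
    simp only [Fintype.card_fin] at h
    exact h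
  have hcore := sample_core hr (by omega : r ≤ s) c cls Z ok
    (fun j j' h v => ⟨(hZ j j' h).1 v, (hZ j j' h).2.1 v⟩)
    ρ₁ ρ₂ (η / 2) (3 * ε₁) εF (δ / 4) hρ₂le hsρ (by rw [hε₁] at hsε ⊢; linarith)
    S hE1 hE2 hE3 hsum habs hneg ?_ hF'
  · rcases hcore with ⟨κ, hκ⟩ | ⟨a, b, hab, i, κ, hi1, hi2, hE⟩
    · left
      exact ⟨κ, hmono κ hκ⟩
    · right; left
      exact ⟨i, _, κ, hi1, hi2, hext a b i κ hi1 hi2 hE⟩
  · rintro a b ha hb hcab ⟨τ, i, hcount⟩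
    have hglob := htrans a b τ i (le_trans (by gcongr) hcount)
    by_contra hnok
    apply hgp
    refine ⟨S ∘ a, S ∘ b, hcls0 a ha, hcls0 b hb, hcab, ⟨τ, i, hglob⟩, ?_⟩
    intro z hz1 hz2 hz3 hz4
    by_contra hlt
    push Not at hlt
    apply hnok
    refine ⟨z, hz1, hz2, hz3, hz4, ?_⟩
    refine le_trans (le_of_eq ?_) hlt.le
    rw [cnt_eq]
    congr 2
    ext u
    simp only [mem_filter, mem_union, mem_univ, true_and, if_true, Bool.false_eq_true, if_false]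

end Pool.Agent.Lib.TwoPaths
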