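import Pool.Agent.Lib.MP_952639_co.Classes3
import Pool.Agent.Lib.MP_952639_co.Sampling
import Pool.Agent.Lib.MP_952639_co.Tiling
import Pool.Agent.Lib.MP_952639_co.Connect
import Pool.Agent.Lib.MP_952639_co.Cycle

/-!
# Two tight paths partitioning a 2-coloured complete `r`-graph: definitions
-/

namespace Pool.Agent.Lib.TwoPaths

open Finset Relation
open Pool.Agent.Lib.MP_952639_co

/-- `v` lists the vertices of a tight path all of whose edges have colour `κ`. -/
def MonoPath {V : Type*} [DecidableEq V] (r : ℕ) (c : Finset V → Bool) (κ : Bool)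
    (v : List V) : Prop :=
  v.Nodup ∧ ∀ i, i + r ≤ v.length → c ((v.drop i).take r).toFinset = κ

/-- Prefix adjacency: all the tuples `(y 0, …, y (j-1), x j, …, x (r-1))` are injective and of
colour `κ`. -/
def PAdj {V : Type*} [DecidableEq V] {r : ℕ} (c : Finset V → Bool) (κ : Bool)
    (x y : Fin r → V) : Prop :=
  ∀ j : ℕ, Col c κ (mix x y (univ.filter fun i : Fin r => (i : ℕ) < j))

open Classical in
/-- The 0-1 matrix of a relation. -/
noncomputable def RM {α : Type*} (R : α → α → Prop) : Matrix α α ℝ :=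
  fun x y => if R x y then 1 else 0

/-- Adjacency between admissible tuples. -/
def RAdj {V : Type*} [DecidableEq V] {r : ℕ} (c : Finset V → Bool) (P : (Fin r → V) → Prop)
    (x y : Fin r → V) : Prop :=
  Adj c x y ∧ P x ∧ P y

/-- A template for a core absorber with index set `H`: the tuples of the initial state and of the
final state, with their labels.  In the initial state the used indices are covered exactly once,
in the final state the used indices and the `r` additional indices are covered exactly once. -/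
structure Template (r : ℕ) (H : Type) where
  ini : List (Bool × (Fin r → H))
  fin : List (Bool × (Fin r → H ⊕ Fin r))
  ini_nodup : (ini.flatMap fun p => List.ofFn p.2).Nodup
  fin_nodup : (fin.flatMap fun p => List.ofFn p.2).Nodup
  inl_iff : ∀ h, Sum.inl h ∈ (fin.flatMap fun p => List.ofFn p.2) ↔
    h ∈ (ini.flatMap fun p => List.ofFn p.2)
  inr_mem : ∀ i, Sum.inr i ∈ (fin.flatMap fun p => List.ofFn p.2)

/-- `U` is a core absorber of type `t` for the tuple `T`. -/
def CoreAbs {V : Type*} {r : ℕ} {H : Type} (K : Bool → Finset (Fin r → V)) (t : Template r H)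
    (U : H → V) (T : Fin r → V) : Prop :=
  (∀ p ∈ t.ini, U ∘ p.2 ∈ K p.1) ∧ (∀ p ∈ t.fin, Sum.elim U T ∘ p.2 ∈ K p.1)

/-- Robustness outside `W`. -/
def RobustOff {V : Type*} [Fintype V] [DecidableEq V] {r : ℕ} (κ β : ℝ)
    (A : Bool → Finset (Fin r → V)) (W : Finset V) : Prop :=
  ∀ z : V → ℝ, (∀ v, 0 ≤ z v) → (∀ v, z v ≤ 1) → ∑ v ∈ Wᶜ, z v ≤ κ * (Wᶜ.card : ℝ) →
    β * (Fintype.card V : ℝ) ^ r ≤
      (((A true ∪ A false).filter fun u => (∀ i, u i ∉ W) ∧ ∑ i, z (u i) < 1).card : ℝ)

/-- Robustness for signed weights. -/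
def Interior {V : Type*} [Fintype V] [DecidableEq V] {r : ℕ} (η ε₁ β : ℝ)
    (A : Bool → Finset (Fin r → V)) : Prop :=
  ∀ l : V → ℝ, (∀ v, -1 ≤ l v) → (∀ v, l v ≤ (r : ℝ) - 1) → ∑ v, l v ≤ ε₁ * Fintype.card V →
    η * Fintype.card V ≤ ∑ v, |l v| →
    β * (Fintype.card V : ℝ) ^ r ≤
      (((A true ∪ A false).filter fun u => ∑ i, l (u i) < 0).card : ℝ)

open Classical in
/-- Extremal structure of type `i`: `|A|` is about `i n / r`, almost all sets with exactly `i`
vertices in `A` have colour `κ`, and (if `i < r`) almost all sets with exactly `i - 1` or `i + 1`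
vertices in `A` have the other colour. -/
def ExtType {V : Type*} [Fintype V] [DecidableEq V] (r : ℕ) (δ : ℝ) (i : ℕ) (A : Finset V)
    (c : Finset V → Bool) (κ : Bool) : Prop :=
  |(A.card : ℝ) - i * Fintype.card V / r| ≤ δ * Fintype.card V ∧
  ((univ.filter fun x : Fin r → V => Function.Injective x ∧
      (univ.filter fun j => x j ∈ A).card = i ∧ c (univ.image x) ≠ κ).card : ℝ) ≤
    δ * (Fintype.card V : ℝ) ^ r ∧
  (i < r → ((univ.filter fun x : Fin r → V => Function.Injective x ∧
      ((univ.filter fun j => x j ∈ A).card + 1 = i ∨ (univ.filter fun j => x j ∈ A).card = i + 1) ∧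
      c (univ.image x) = κ).card : ℝ) ≤ δ * (Fintype.card V : ℝ) ^ r)

end Pool.Agent.Lib.TwoPaths
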