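import Pool.Agent.Lib.TwoPaths.FDefs

/-!
# F1: the cut inequality

`S` finite, `s = |S|`, `c` a 2-colouring of the `r`-subsets of `S`.  Let `(e, f)` be adjacent
(`JAdj`) of different colours and `φ` a potential of `(e, f)` (`IsPot`).  Write `[x]` for
`univ.image x`.

FACT (potential). If `JAdj r a b` and `φ a = φ e`, `φ b = φ f` then `Conn e a` and `Conn f b`.
Proof. `φ e ≠ φ f` (`pot_ne`), so `φ a + φ b = 1` hence `chi c r e f a b = 1`, i.e.
(`Conn e a` and `Conn f b`) or (`Conn f a` and `Conn e b`).  In the second case `φ a = φ f` by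
`pot_conn` (`φ` is constant along `Conn`), contradicting `φ a = φ e ≠ φ f`.

PROOF of `cut`. Let `X_e` (`X_f`) be the set of injective tuples `x` with `φ [x] = φ e`
(resp. `φ f`).  The pairs `(x, y) ∈ X_e × X_f` with `x i = y j` for some `i, j` number at most
`r^2 s^(2r-1)`.  For every other pair (all `2 r` entries distinct) let
`w_j = (y 0, …, y (j-1), x j, …, x (r-1))` for `0 ≤ j ≤ r`: these are injective, `w_0 = x`,
`w_r = y`, `w_{j+1} = update w_j j (y j)`, and `[w_j]`, `[w_{j+1}]` are `JAdj`.  All values of `φ`
are `φ e` or `φ f` (`zmod2_cases`).  Take the first `j` with `φ [w_{j+1}] = φ f`; then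
`φ [w_j] = φ e`, so by FACT `(w_j, y j, j)` is counted by `nadj c r e f`.  Given `(w_j, y j, j)` the
pair `(x, y)` is determined by the remaining `r - 1` entries `x 0, …, x (j-1)`,
`y (j+1), …, y (r-1)`; so each triple arises from at most `s^(r-1)` pairs.  (Formally: the map
`(x, y) ↦ ((w_j, y j, j), u)` with `u i = x i` for `i < j`, `u i = y (i+1)` for `j ≤ i < r-1`,
`u : Fin (r-1) → S`, is injective.)  Hence `|X_e| |X_f| ≤ s^(r-1) nadj + r^2 s^(2r-1)`.
-/

namespace Pool.Agent.Lib.TwoPaths

open Finset Relation
open Pool.Agent.Lib.MP_952639_co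


private lemma bad_card {S : Type*} [Fintype S] [DecidableEq S] {m : ℕ} :
    ((univ.filter fun p : (Fin (m + 1) → S) × (Fin (m + 1) → S) => ∃ i j, p.1 i = p.2 j).card : ℝ) ≤
      ((m + 1 : ℕ) : ℝ) ^ 2 * (Fintype.card S : ℝ) ^ (2 * (m + 1) - 1) := by
  classical
  have h1 : (univ.filter fun p : (Fin (m + 1) → S) × (Fin (m + 1) → S) => ∃ i j, p.1 i = p.2 j) ⊆
      (univ : Finset ((Fin (m + 1) × Fin (m + 1)) × ((Fin (m + 1) → S) × (Fin m → S)))).image
        (fun z => (z.2.1, Fin.insertNth z.1.2 (z.2.1 z.1.1) z.2.2)) := by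
    rintro ⟨x, y⟩ hp
    obtain ⟨i, j, hij⟩ := (mem_filter.mp hp).2
    refine mem_image.mpr ⟨((i, j), (x, fun k => y (j.succAbove k))), mem_univ _, ?_⟩
    simp only [Prod.mk.injEq, true_and]
    simp only at hij
    rw [hij]
    exact Fin.insertNth_self_removeNth j y
  have h2 := (card_le_card h1).trans card_image_le
  rw [card_univ, Fintype.card_prod, Fintype.card_prod, Fintype.card_prod, Fintype.card_fun,
    Fintype.card_fun, Fintype.card_fin, Fintype.card_fin] at h2
  calc ((univ.filter fun p : (Fin (m + 1) → S) × (Fin (m + 1) → S) =>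
        ∃ i j, p.1 i = p.2 j).card : ℝ)
      ≤ (((m + 1) * (m + 1) * (Fintype.card S ^ (m + 1) * Fintype.card S ^ m) : ℕ) : ℝ) := by
        exact_mod_cast h2
    _ = ((m + 1 : ℕ) : ℝ) ^ 2 * (Fintype.card S : ℝ) ^ (2 * (m + 1) - 1) := by
        have h3 : 2 * (m + 1) - 1 = (m + 1) + m := by omega
        rw [h3, pow_add]
        push_cast
        ring

private def dec {S : Type*} {m : ℕ} (z : ((Fin (m + 1) → S) × S × Fin (m + 1)) × (Fin m → S)) :
    (Fin (m + 1) → S) × (Fin (m + 1) → S) :=
  (fun i => if h : (i : ℕ) < z.1.2.2 then z.2 ⟨i, by have := z.1.2.2.2; omega⟩ else z.1.1 i,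
   fun i => if (i : ℕ) < z.1.2.2 then z.1.1 i else
     if h : (i : ℕ) = z.1.2.2 then z.1.2.1 else z.2 ⟨(i : ℕ) - 1, by have := i.2; omega⟩)

private lemma jadj_update {S : Type*} [DecidableEq S] {r : ℕ} {a : Fin r → S} {k : S}
    (ha : Function.Injective a) (hk : ∀ j, a j ≠ k) (i : Fin r) :
    JAdj r (univ.image a) (univ.image (Function.update a i k)) := by
  classical
  have hu : Function.Injective (Function.update a i k) := by
    intro p q hpq
    by_cases hp : p = i
    · by_cases hq : q = i
      · rw [hp, hq]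
      · rw [hp, Function.update_self, Function.update_of_ne hq] at hpq
        exact absurd hpq.symm (hk q)
    · by_cases hq : q = i
      · rw [hq, Function.update_self, Function.update_of_ne hp] at hpq
        exact absurd hpq (hk p)
      · rw [Function.update_of_ne hp, Function.update_of_ne hq] at hpq
        exact ha hpq
  refine ⟨by rw [card_image_of_injective _ ha, card_univ, Fintype.card_fin],
    by rw [card_image_of_injective _ hu, card_univ, Fintype.card_fin], a i,
    mem_image_of_mem _ (mem_univ _), k, ?_, ?_⟩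
  · intro h
    obtain ⟨j, _, hj⟩ := mem_image.mp h
    exact hk j hj
  · ext z
    simp only [mem_image, mem_univ, true_and, mem_insert, mem_erase]
    constructor
    · rintro ⟨j, rfl⟩
      by_cases hj : j = i
      · left; rw [hj, Function.update_self]
      · right
        rw [Function.update_of_ne hj]
        exact ⟨fun h => hj (ha h), j, rfl⟩
    · rintro (rfl | ⟨hz, j, rfl⟩)
      · exact ⟨i, Function.update_self _ _ _⟩
      · refine ⟨j, Function.update_of_ne ?_ _ _⟩
        rintro rfl
        exact hz rfl

theorem pot_adj {S : Type*} [Fintype S] [DecidableEq S] {c : Finset S → Bool} {r : ℕ}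
    {e f : Finset S} (hef : JAdj r e f) (hc : c e ≠ c f) {φ : Finset S → ZMod 2}
    (hφ : IsPot c r e f φ) {a b : Finset S} (hab : JAdj r a b) (ha : φ a = φ e) (hb : φ b = φ f) :
    Conn c r e a ∧ Conn c r f b := by
  have hne : φ e ≠ φ f := pot_ne hef hφ
  have h1 := hφ a b hab
  have h2 := hφ e f hef
  rw [ha, hb, h2] at h1
  have h3 : chi c r e f e f = 1 := by
    unfold chi
    rw [if_pos (Or.inl ⟨ReflTransGen.refl, ReflTransGen.refl⟩)]
  rw [h3] at h1
  unfold chi at h1
  split_ifs at h1 with h
  · rcases h with h | ⟨h, _⟩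
    · exact h
    · exact absurd ((pot_conn hc hφ h).trans ha).symm hne
  · exact absurd h1 (by decide)

theorem cut {S : Type*} [Fintype S] [DecidableEq S] {c : Finset S → Bool} {r : ℕ} (hr : 1 ≤ r)
    {e f : Finset S} (hef : JAdj r e f) (hc : c e ≠ c f) {φ : Finset S → ZMod 2}
    (hφ : IsPot c r e f φ) :
    (ntup r (fun g => φ g = φ e) : ℝ) * ntup r (fun g => φ g = φ f) ≤
      (Fintype.card S : ℝ) ^ (r - 1) * nadj c r e f + (r : ℝ) ^ 2 * (Fintype.card S : ℝ) ^ (2 * r - 1) := by
  classical
  obtain ⟨m, rfl⟩ : ∃ m, r = m + 1 := ⟨r - 1, by omega⟩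
  set n : ℕ := Fintype.card S with hn
  set A := univ.filter fun x : Fin (m + 1) → S => Function.Injective x ∧ φ (univ.image x) = φ e
    with hA
  set B := univ.filter fun x : Fin (m + 1) → S => Function.Injective x ∧ φ (univ.image x) = φ f
    with hB
  set N := univ.filter fun q : (Fin (m + 1) → S) × S × Fin (m + 1) => Function.Injective q.1 ∧
    (∀ j, q.1 j ≠ q.2.1) ∧ Conn c (m + 1) e (univ.image q.1) ∧
    Conn c (m + 1) f (univ.image (Function.update q.1 q.2.2 q.2.1)) with hN
  have hAc : ntup (m + 1) (fun g => φ g = φ e) = A.card := by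
    unfold ntup
    rw [hA]
    congr
  have hBc : ntup (m + 1) (fun g => φ g = φ f) = B.card := by
    unfold ntup
    rw [hB]
    congr
  have hNc : nadj c (m + 1) e f = N.card := by
    unfold nadj
    rw [hN]
  have hsub : A ×ˢ B ⊆ (univ.filter fun p : (Fin (m + 1) → S) × (Fin (m + 1) → S) =>
      ∃ i j, p.1 i = p.2 j) ∪ (N ×ˢ (univ : Finset (Fin m → S))).image dec := by
    rintro ⟨x, y⟩ hxy
    obtain ⟨hx, hy⟩ := mem_product.mp hxy
    simp only at hx hy
    obtain ⟨hxi, hxφ⟩ := (mem_filter.mp hx).2
    obtain ⟨hyi, hyφ⟩ := (mem_filter.mp hy).2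
    by_cases hbad : ∃ i j, x i = y j
    · exact mem_union_left _ (mem_filter.mpr ⟨mem_univ _, hbad⟩)
    apply mem_union_right
    push Not at hbad
    set w : ℕ → Fin (m + 1) → S := fun j i => if (i : ℕ) < j then y i else x i with hw
    have hw0 : w 0 = x := by
      funext i
      simp [hw]
    have hwm : w (m + 1) = y := by
      funext i
      simp only [hw]
      rw [if_pos i.2]
    have hex : ∃ j, φ (univ.image (w (j + 1))) = φ f := ⟨m, by rw [hwm]; exact hyφ⟩
    set j := Nat.find hex with hj
    have hjs : φ (univ.image (w (j + 1))) = φ f := Nat.find_spec hex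
    have hjm : j ≤ m := Nat.find_min' hex (by rw [hwm]; exact hyφ)
    have hje : φ (univ.image (w j)) = φ e := by
      rcases Nat.eq_zero_or_pos j with h0 | h0
      · rw [h0, hw0]; exact hxφ
      · have h1 : ¬ φ (univ.image (w (j - 1 + 1))) = φ f := Nat.find_min hex (by omega)
        rw [Nat.sub_add_cancel h0] at h1
        rcases zmod2_cases (z := φ (univ.image (w j))) (pot_ne hef hφ) with h | h
        · exact h
        · exact absurd h h1
    set jj : Fin (m + 1) := ⟨j, by omega⟩ with hjj
    have hwinj : Function.Injective (w j) := by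
      intro p q hpq
      simp only [hw] at hpq
      split_ifs at hpq with h1 h2 h2
      · exact hyi hpq
      · exact absurd hpq.symm (hbad _ _)
      · exact absurd hpq (hbad _ _)
      · exact hxi hpq
    have hwk : ∀ i, w j i ≠ y jj := by
      intro i h
      simp only [hw] at h
      split_ifs at h with h1
      · have := hyi h
        rw [this] at h1
        simp [hjj] at h1
      · exact hbad _ _ h
    have hwu : w (j + 1) = Function.update (w j) jj (y jj) := by
      funext i
      by_cases hi : i = jj
      · rw [hi, Function.update_self]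
        simp [hw, hjj]
      · rw [Function.update_of_ne hi]
        have hi' : (i : ℕ) ≠ j := fun h => hi (Fin.ext h)
        simp only [hw]
        by_cases h1 : (i : ℕ) < j
        · rw [if_pos h1, if_pos (by omega)]
        · rw [if_neg h1, if_neg (by omega)]
    have hadj : JAdj (m + 1) (univ.image (w j)) (univ.image (w (j + 1))) := by
      rw [hwu]
      exact jadj_update hwinj hwk jj
    obtain ⟨hc1, hc2⟩ := pot_adj hef hc hφ hadj hje hjs
    refine mem_image.mpr ⟨((w j, y jj, jj),
      fun t => if (t : ℕ) < j then x t.castSucc else y t.succ), ?_, ?_⟩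
    · refine mem_product.mpr ⟨mem_filter.mpr ⟨mem_univ _, hwinj, hwk, hc1, ?_⟩, mem_univ _⟩
      simp only
      rw [← hwu]
      exact hc2
    · simp only [dec, Prod.mk.injEq]
      constructor
      · funext i
        have hjv : (jj : ℕ) = j := rfl
        simp only [hjv]
        by_cases hi : (i : ℕ) < j
        · rw [dif_pos hi, if_pos hi]
          rfl
        · rw [dif_neg hi]
          simp only [hw]
          rw [if_neg hi]
      · funext i
        have hjv : (jj : ℕ) = j := rfl
        simp only [hjv]
        by_cases hi : (i : ℕ) < j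
        · rw [if_pos hi]
          simp only [hw]
          rw [if_pos hi]
        · rw [if_neg hi]
          by_cases hi2 : (i : ℕ) = j
          · rw [dif_pos hi2]
            congr 1
            exact Fin.ext hi2.symm
          · rw [dif_neg hi2, if_neg (by omega)]
            congr 1
            apply Fin.ext
            simp only [Fin.val_succ]
            omega
  have h1 := card_le_card hsub
  rw [card_product] at h1
  have h2 := h1.trans (card_union_le _ _)
  have h3 : ((N ×ˢ (univ : Finset (Fin m → S))).image dec).card ≤ N.card * n ^ m := by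
    refine card_image_le.trans ?_
    rw [card_product, card_univ, Fintype.card_fun, Fintype.card_fin]
  have h4 := bad_card (S := S) (m := m)
  rw [hAc, hBc, hNc]
  have h5 : (A.card : ℝ) * B.card ≤
      ((univ.filter fun p : (Fin (m + 1) → S) × (Fin (m + 1) → S) =>
        ∃ i j, p.1 i = p.2 j).card : ℝ) + N.card * (n : ℝ) ^ m := by
    have h6 : A.card * B.card ≤ (univ.filter fun p : (Fin (m + 1) → S) × (Fin (m + 1) → S) =>
        ∃ i j, p.1 i = p.2 j).card + N.card * n ^ m := by omega
    exact_mod_cast h6
  have h7 : m + 1 - 1 = m := rfl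
  rw [h7]
  linarith

end Pool.Agent.Lib.TwoPaths
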