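import Pool.Agent.Lib.TwoPaths.FDefs

/-!
# F2: the sink lemma

`Or e f` is any relation defined on adjacent bichromatic pairs such that (h1) every such pair is
oriented in at least one direction, (h2) the orientation depends only on the monochromatic tight
components of `e` and `f`.  Claim: there is a component (that of `f`) such that every neighbour pair
`(d, f')` of it is oriented towards it.  (This is the argument inside `tree_lemma`.)

For an adjacent bichromatic pair `(e, f)` with potential `φ` let `side = {g : g.card = r ∧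
φ g = φ f}` (`side r φ f` of `Tree.lean`).  It does not depend on the choice of the potential: if
`φ, φ'` are two potentials of `(e, f)`, then `φ + φ'` is constant along `JAdj` steps, hence constant
on the `r`-sets (`j_connected`).

PROOF. Choose `(e, f, φ)`, adjacent bichromatic, `IsPot c r e f φ`, `Or e f`, with
`(side r φ f).card` minimal (exists by hbi, h1, `exists_pot`; `chi_comm` turns a potential of
`(f, e)` into one of `(e, f)`).  Let `Conn f f'`, `JAdj d f'`, `c d ≠ c f'` and suppose
`¬ Or d f'`.  By (h1) `Or f' d`.  Let `ψ` be a potential of `(f', d)`; it is also one of `(d, f')`.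
`φ f' = φ f` (`pot_conn`).

Case `φ d ≠ φ f`. Then `φ d + φ f' = 1`, so `chi c r e f d f' = 1`: either (`Conn e d` and
`Conn f f'`) or (`Conn f d` and `Conn e f'`); the second is impossible (colours: `c f' = c f` and
`Conn e f'` gives `c f' = c e ≠ c f`).  By (h2) applied to `Or e f` we get `Or d f'`,
a contradiction.

Case `φ d = φ f`. We show `side r ψ d ⊂ side r φ f`, contradicting minimality (the triple
`(f', d, ψ)` has `Or f' d`).  Strict: `f` lies in the right side but `ψ f = ψ f' ≠ ψ d`
(`pot_conn`, `pot_ne`).  Inclusion: let `g` be an `r`-set with `ψ g = ψ d`.  `g` is not in the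
component of `f` (else `ψ g = ψ f' ≠ ψ d`).  By `first_entry` applied to a `JAdj` path from `g`
to `f` there are `d'`, `f''` with a path from `g` to `d'` all of whose members are outside the
component of `f`, `JAdj d' f''`, `Conn f f''`.  `ψ` and `φ` are constant along this path
(`pot_step`): `ψ g = ψ d'`, `φ g = φ d'`.  As `ψ d' = ψ d ≠ ψ f' = ψ f''`,
`chi c r d f' d' f'' = 1`, so `Conn d d'` (the alternative `Conn f' d'` is impossible as `d'` is
outside).  Hence `φ d' = φ d` (`pot_conn`), so `φ g = φ d = φ f`.  (All this is literally in the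
proof of `tree_lemma` in `Tree.lean`.)
-/

namespace Pool.Agent.Lib.TwoPaths

open Finset Relation
open Pool.Agent.Lib.MP_952639_co

theorem sink {S : Type*} [Fintype S] [DecidableEq S] (c : Finset S → Bool) (r : ℕ)
    (Or : Finset S → Finset S → Prop)
    (h1 : ∀ e f, JAdj r e f → c e ≠ c f → Or e f ∨ Or f e)
    (h2 : ∀ e f e' f', JAdj r e f → c e ≠ c f → JAdj r e' f' → Conn c r e e' → Conn c r f f' →
      Or e f → Or e' f')
    (hbi : ∃ e f, JAdj r e f ∧ c e ≠ c f) :
    ∃ f : Finset S, f.card = r ∧ ∀ d f', NPair c r f d f' → Or d f' := by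
  classical
  have hex : ∃ n : ℕ, ∃ e f φ, (JAdj r e f ∧ c e ≠ c f ∧ IsPot c r e f φ ∧ Or e f) ∧
      (side r φ f).card = n := by
    obtain ⟨e, f, hadj, hef⟩ := hbi
    obtain ⟨φ, hφ⟩ := exists_pot (r := r) hef
    rcases h1 e f hadj hef with h | h
    · exact ⟨_, e, f, φ, ⟨hadj, hef, hφ, h⟩, rfl⟩
    · refine ⟨_, f, e, φ, ⟨hadj.symm, hef.symm, ?_, h⟩, rfl⟩
      intro a b hab
      rw [hφ a b hab, chi_comm]
  obtain ⟨e, f, φ, ⟨hadj, hef, hφ, hor⟩, hcard⟩ := Nat.find_spec hex
  have hmin : ∀ e' f' φ', JAdj r e' f' → c e' ≠ c f' → IsPot c r e' f' φ' → Or e' f' →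
      Nat.find hex ≤ (side r φ' f').card := fun e' f' φ' g1 g2 g3 g4 =>
    Nat.find_le ⟨e', f', φ', ⟨g1, g2, g3, g4⟩, rfl⟩
  refine ⟨f, hadj.2.1, ?_⟩
  rintro d f' ⟨hf', hdf, hcd'⟩
  by_contra hno
  have hcd : c f' ≠ c d := hcd'.symm
  have hor' : Or f' d := by
    rcases h1 d f' hdf hcd' with h | h
    · exact absurd h hno
    · exact h
  have hφf : φ f = φ f' := pot_conn hef hφ hf'
  by_cases hpd : φ d = φ f
  · obtain ⟨ψ, hψ⟩ := exists_pot (r := r) hcd
    have hψ' : ∀ a b, JAdj r a b → ψ a + ψ b = chi c r d f' a b := fun a b hab => by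
      rw [hψ a b hab, chi_comm]
    have hconn_ff' : ∀ g, Conn c r f' g ↔ Conn c r f g := fun g =>
      ⟨fun h => hf'.trans h, fun h => hf'.symm.trans h⟩
    have hψstep : ∀ a b, JAdj r a b → ¬ Conn c r f a → ¬ Conn c r f b → ψ a = ψ b := by
      intro a b hab ha hb
      exact pot_step hψ' hab (fun h => ha ((hconn_ff' _).mp h)) (fun h => hb ((hconn_ff' _).mp h))
    have hne : ψ f' ≠ ψ d := pot_ne hdf.symm hψ
    have hmin' := hmin _ _ _ hdf.symm hcd hψ hor'
    rw [← hcard] at hmin'
    have hss : side r ψ d ⊂ side r φ f := by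
      rw [ssubset_iff_of_subset]
      · refine ⟨f, ?_, ?_⟩
        · simp only [side, mem_filter, mem_powersetCard]
          exact ⟨⟨subset_univ _, hadj.2.1⟩, trivial⟩
        · simp only [side, mem_filter, mem_powersetCard]
          rintro ⟨_, h2⟩
          rw [pot_conn hcd hψ hf'] at h2
          exact hne h2
      · intro g hg
        simp only [side, mem_filter, mem_powersetCard] at hg ⊢
        refine ⟨hg.1, ?_⟩
        have hgf : ¬ Conn c r f g := by
          intro h2
          apply hne
          rw [← hg.2]
          exact pot_conn hcd hψ (hf'.symm.trans h2)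
        obtain ⟨d', f'', hp2, hd', hdf'', hf''⟩ := first_entry (P := fun g => Conn c r f g)
          (j_connected r hg.1.2 hadj.2.1) hgf ReflTransGen.refl
        have h3 : ψ g = ψ d' :=
          rtg_const (fun a b hab => hψstep a b hab.1 hab.2.1 hab.2.2) hp2
        have h4 : φ g = φ d' :=
          rtg_const (fun a b hab => pot_step hφ hab.1 hab.2.1 hab.2.2) hp2
        have h5 : ψ f'' = ψ f' := by
          rw [← pot_conn hcd hψ hf'', pot_conn hcd hψ hf']
        have h6 : Conn c r d d' := by
          by_contra h7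
          have h8 := hψ d' f'' hdf''
          have h9 : chi c r f' d d' f'' = 0 := by
            unfold chi
            rw [if_neg]
            rintro (⟨h10, _⟩ | ⟨h10, _⟩)
            · exact hd' ((hconn_ff' _).mp h10)
            · exact h7 h10
          rw [h9] at h8
          have two : ψ f'' + ψ f'' = 0 := CharTwo.add_self_eq_zero _
          have h10 : ψ d' = ψ f'' := by linear_combination h8 - two
          apply hne
          rw [← h5, ← h10, ← h3, hg.2]
        rw [h4, ← pot_conn hef hφ h6, hpd]
    exact absurd (card_lt_card hss) (not_lt.mpr hmin')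
  · have h3 := hφ d f' hdf
    by_cases hc : (Conn c r e d ∧ Conn c r f f') ∨ (Conn c r f d ∧ Conn c r e f')
    · rcases hc with ⟨g1, g2⟩ | ⟨_, g2⟩
      · exact hno (h2 e f d f' hadj hef hdf g1 g2 hor)
      · exact hef (by rw [g2.color, hf'.color])
    · have h4 : chi c r e f d f' = 0 := by
        unfold chi
        rw [if_neg hc]
      rw [h4] at h3
      have two : φ f' + φ f' = 0 := CharTwo.add_self_eq_zero _
      apply hpd
      rw [hφf]
      linear_combination h3 - two

end Pool.Agent.Lib.TwoPaths
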