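import Pool.Agent.Lib.TwoPaths.FDefs

/-!
# F7a: two witnesses with a nonnegative interpolation are opposite

`s = |S|`, `r ≥ 2`, `l, l₁ : S → [-1, r-1]`, sums `≤ ε₁ s`, `∑ |l|, ∑ |l₁| ≥ η s`, `t ∈ [0,1]` and
`L = (1-t) l + t l₁` has `∑ g L ≥ 0` for all `r`-sets.  Assume `2 (r-1) ≤ ε₁ s` and `8 ε₁ ≤ η`.
Then `∑ |L| ≤ 2 ε₁ s`, `η/(4r) ≤ t`, `η/(4r) ≤ 1 - t`, and `|∑ l| ≤ 8 r ε₁ s / η`.

PROOF. `|l|, |l₁| ≤ r - 1` (as `r ≥ 2`), so `η s ≤ (r-1) s`, `η ≤ r - 1` (`s > 0` since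
`2 (r-1) ≤ ε₁ s`), and `η/(4r) ≤ 1/4`.  `L ≥ -1`.  Fewer than `r` vertices have `L v < 0`
(otherwise `r` of them form an `r`-set with negative sum), so `∑ L⁻ ≤ r - 1`.  `∑ L ≤ ε₁ s`
(convex combination), hence `∑ |L| = ∑ L + 2 ∑ L⁻ ≤ ε₁ s + 2 (r-1) ≤ 2 ε₁ s`.
If `1 - t < η/(4r)`: `∑ |L| ≥ t ∑ |l₁| - (1-t) ∑ |l| ≥ (1 - η/(4r)) η s - (η/(4r)) (r-1) s
≥ (3/4) η s - (1/4) η s = η s/2`, but `∑ |L| ≤ 2 ε₁ s ≤ η s / 4 < η s / 2`; contradiction.
Symmetrically for `t`.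
`(1-t) ∑ l = ∑ L - t ∑ l₁ ≥ -(r-1) - t ε₁ s ≥ -2 ε₁ s`, so
`∑ l ≥ -2 ε₁ s/(1-t) ≥ -8 r ε₁ s/η`; and `∑ l ≤ ε₁ s ≤ 8 r ε₁ s/η` because `η ≤ r`.
-/

namespace Pool.Agent.Lib.TwoPaths

open Finset Relation
open Pool.Agent.Lib.MP_952639_co

theorem opposite {S : Type*} [Fintype S] [DecidableEq S] {r : ℕ} (hr : 2 ≤ r) (η ε₁ : ℝ)
    (hη : 0 < η) (hε₁ : 0 < ε₁) (hεη : 8 * ε₁ ≤ η)
    (hs : 2 * ((r : ℝ) - 1) ≤ ε₁ * Fintype.card S)
    (l l₁ : S → ℝ) (hl : ∀ v, -1 ≤ l v) (hl' : ∀ v, l v ≤ (r : ℝ) - 1)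
    (hl₁ : ∀ v, -1 ≤ l₁ v) (hl₁' : ∀ v, l₁ v ≤ (r : ℝ) - 1)
    (hsum : ∑ v, l v ≤ ε₁ * Fintype.card S) (hsum₁ : ∑ v, l₁ v ≤ ε₁ * Fintype.card S)
    (habs : η * Fintype.card S ≤ ∑ v, |l v|) (habs₁ : η * Fintype.card S ≤ ∑ v, |l₁ v|)
    (t : ℝ) (ht0 : 0 ≤ t) (ht1 : t ≤ 1)
    (hL : ∀ g : Finset S, g.card = r → 0 ≤ ∑ v ∈ g, ((1 - t) * l v + t * l₁ v)) :
    ∑ v, |(1 - t) * l v + t * l₁ v| ≤ 2 * ε₁ * Fintype.card S ∧
    η / (4 * r) ≤ t ∧ η / (4 * r) ≤ 1 - t ∧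
    |∑ v, l v| ≤ 8 * r * ε₁ / η * Fintype.card S := by
  classical
  set s : ℝ := (Fintype.card S : ℝ) with hsdef
  have hr' : (2 : ℝ) ≤ r := by exact_mod_cast hr
  have hs0 : 0 < s := by
    by_contra h
    have h1 : s ≤ 0 := not_lt.mp h
    nlinarith [mul_nonneg hε₁.le (neg_nonneg.mpr h1)]
  -- absolute values
  have hab : ∀ v, |l v| ≤ (r : ℝ) - 1 := fun v => abs_le.mpr ⟨by linarith [hl v], hl' v⟩
  have hab₁ : ∀ v, |l₁ v| ≤ (r : ℝ) - 1 := fun v => abs_le.mpr ⟨by linarith [hl₁ v], hl₁' v⟩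
  have hcard : ∀ c : ℝ, ∑ _v : S, c = c * s := by
    intro c
    rw [sum_const, card_univ, nsmul_eq_mul, mul_comm]
  have hSl : ∑ v, |l v| ≤ ((r : ℝ) - 1) * s := by
    rw [← hcard]
    exact sum_le_sum fun v _ => hab v
  have hSl₁ : ∑ v, |l₁ v| ≤ ((r : ℝ) - 1) * s := by
    rw [← hcard]
    exact sum_le_sum fun v _ => hab₁ v
  have hηr : η ≤ (r : ℝ) - 1 := le_of_mul_le_mul_right (habs.trans hSl) hs0
  set L : S → ℝ := fun v => (1 - t) * l v + t * l₁ v with hLdef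
  have hL1 : ∀ v, -1 ≤ L v := by
    intro v
    simp only [hLdef]
    nlinarith [mul_nonneg (sub_nonneg.mpr ht1) (sub_nonneg.mpr (hl v)),
      mul_nonneg ht0 (sub_nonneg.mpr (hl₁ v))]
  set Nn : Finset S := univ.filter fun v => L v < 0 with hNn
  have hNc : Nn.card + 1 ≤ r := by
    by_contra h
    have h1 : r ≤ Nn.card := by omega
    obtain ⟨g, hg, hgc⟩ := exists_subset_card_eq h1
    have h2 := hL g hgc
    have hgne : g.Nonempty := by
      rw [← card_pos]; omega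
    have h3 : ∑ v ∈ g, L v < 0 := by
      refine sum_neg (fun v hv => ?_) hgne
      exact (mem_filter.mp (hg hv)).2
    linarith
  have hNcr : (Nn.card : ℝ) ≤ (r : ℝ) - 1 := by
    have : ((Nn.card + 1 : ℕ) : ℝ) ≤ r := by exact_mod_cast hNc
    push_cast at this
    linarith
  have hneg : ∑ v ∈ Nn, (-L v) ≤ (r : ℝ) - 1 := by
    have h1 : ∑ v ∈ Nn, (-L v) ≤ ∑ _v ∈ Nn, (1 : ℝ) :=
      sum_le_sum fun v _ => by linarith [hL1 v]
    rw [sum_const, nsmul_eq_mul, mul_one] at h1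
    linarith
  have hdec : ∀ v, |L v| = L v + 2 * (if L v < 0 then -L v else 0) := by
    intro v
    split_ifs with h
    · rw [abs_of_neg h]; ring
    · rw [abs_of_nonneg (not_lt.mp h)]; ring
  have hsumabs : ∑ v, |L v| = ∑ v, L v + 2 * ∑ v ∈ Nn, (-L v) := by
    rw [sum_congr rfl fun v _ => hdec v, sum_add_distrib, ← mul_sum, hNn, sum_filter]
  have hsumL : ∑ v, L v = (1 - t) * ∑ v, l v + t * ∑ v, l₁ v := by
    simp only [hLdef]
    rw [sum_add_distrib, ← mul_sum, ← mul_sum]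
  have hsumLle : ∑ v, L v ≤ ε₁ * s := by
    rw [hsumL]
    nlinarith [mul_le_mul_of_nonneg_left hsum (sub_nonneg.mpr ht1),
      mul_le_mul_of_nonneg_left hsum₁ ht0]
  have hsumLge : -((r : ℝ) - 1) ≤ ∑ v, L v := by
    have h1 : -∑ v ∈ Nn, (-L v) ≤ ∑ v, L v := by
      have h2 : 0 ≤ ∑ v, |L v| + ∑ v, L v := by
        rw [← sum_add_distrib]
        exact sum_nonneg fun v _ => by linarith [neg_abs_le (L v)]
      linarith
    linarith
  have hA : ∑ v, |L v| ≤ 2 * ε₁ * s := by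
    rw [hsumabs]
    linarith
  -- lower bounds
  have hB : t * ∑ v, |l₁ v| - (1 - t) * ∑ v, |l v| ≤ ∑ v, |L v| := by
    rw [mul_sum, mul_sum, ← sum_sub_distrib]
    refine sum_le_sum fun v _ => ?_
    have h1 : |t * l₁ v| - |(1 - t) * l v| ≤ |L v| := by
      have h2 : |t * l₁ v| ≤ |L v| + |(1 - t) * l v| := by
        have h3 : t * l₁ v = L v + -((1 - t) * l v) := by simp only [hLdef]; ring
        calc |t * l₁ v| = |L v + -((1 - t) * l v)| := by rw [← h3]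
          _ ≤ |L v| + |-((1 - t) * l v)| := abs_add_le _ _
          _ = |L v| + |(1 - t) * l v| := by rw [abs_neg]
      linarith
    rwa [abs_mul, abs_mul, abs_of_nonneg ht0, abs_of_nonneg (sub_nonneg.mpr ht1)] at h1
  have hC : (1 - t) * ∑ v, |l v| - t * ∑ v, |l₁ v| ≤ ∑ v, |L v| := by
    rw [mul_sum, mul_sum, ← sum_sub_distrib]
    refine sum_le_sum fun v _ => ?_
    have h1 : |(1 - t) * l v| - |t * l₁ v| ≤ |L v| := by
      have h2 : |(1 - t) * l v| ≤ |L v| + |t * l₁ v| := by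
        have h3 : (1 - t) * l v = L v + -(t * l₁ v) := by simp only [hLdef]; ring
        calc |(1 - t) * l v| = |L v + -(t * l₁ v)| := by rw [← h3]
          _ ≤ |L v| + |-(t * l₁ v)| := abs_add_le _ _
          _ = |L v| + |t * l₁ v| := by rw [abs_neg]
      linarith
    rwa [abs_mul, abs_mul, abs_of_nonneg ht0, abs_of_nonneg (sub_nonneg.mpr ht1)] at h1
  set x : ℝ := η / (4 * r) with hx
  have hr0 : (0 : ℝ) < r := by linarith
  have hxr : x * (4 * r) = η := by rw [hx]; field_simp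
  have hx0 : 0 < x := by rw [hx]; positivity
  have hx4 : x ≤ 1 / 4 := by
    rw [hx, div_le_iff₀ (by positivity)]
    linarith
  have hxr1 : x * ((r : ℝ) - 1) ≤ η / 4 := by nlinarith
  have hηs : 0 < η * s := mul_pos hη hs0
  have hεs : 8 * (ε₁ * s) ≤ η * s := by nlinarith
  have h1t : x ≤ 1 - t := by
    by_contra h
    have h1 : 1 - t < x := not_le.mp h
    have h2 : t * (η * s) - (1 - t) * (((r : ℝ) - 1) * s) ≤ 2 * ε₁ * s := by
      have e1 := mul_le_mul_of_nonneg_left habs₁ ht0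
      have e2 := mul_le_mul_of_nonneg_left hSl (sub_nonneg.mpr ht1)
      linarith
    have h3 : (1 - t) * (((r : ℝ) - 1) * s) ≤ η / 4 * s := by
      have e1 : (1 - t) * (((r : ℝ) - 1) * s) ≤ x * (((r : ℝ) - 1) * s) :=
        mul_le_mul_of_nonneg_right h1.le (mul_nonneg (by linarith) hs0.le)
      nlinarith
    have h4 : 3 / 4 * (η * s) ≤ t * (η * s) :=
      mul_le_mul_of_nonneg_right (by linarith) hηs.le
    nlinarith
  have ht : x ≤ t := by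
    by_contra h
    have h1 : t < x := not_le.mp h
    have h2 : (1 - t) * (η * s) - t * (((r : ℝ) - 1) * s) ≤ 2 * ε₁ * s := by
      have e1 := mul_le_mul_of_nonneg_left habs (sub_nonneg.mpr ht1)
      have e2 := mul_le_mul_of_nonneg_left hSl₁ ht0
      linarith
    have h3 : t * (((r : ℝ) - 1) * s) ≤ η / 4 * s := by
      have e1 : t * (((r : ℝ) - 1) * s) ≤ x * (((r : ℝ) - 1) * s) :=
        mul_le_mul_of_nonneg_right h1.le (mul_nonneg (by linarith) hs0.le)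
      nlinarith
    have h4 : 3 / 4 * (η * s) ≤ (1 - t) * (η * s) :=
      mul_le_mul_of_nonneg_right (by linarith) hηs.le
    nlinarith
  refine ⟨hA, ht, h1t, ?_⟩
  have hεs0 : 0 < ε₁ * s := mul_pos hε₁ hs0
  have hK : 8 * r * ε₁ / η * s = 2 * (ε₁ * s) / x := by
    rw [hx]; field_simp; ring
  rw [hK, abs_le]
  constructor
  · by_contra h
    have h1 : ∑ v, l v < -(2 * (ε₁ * s) / x) := not_le.mp h
    have h2 : ∑ v, l v < 0 := lt_of_lt_of_le h1 (by rw [neg_nonpos]; positivity)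
    have h3 : x * ∑ v, l v < -(2 * (ε₁ * s)) := by
      have := mul_lt_mul_of_pos_left h1 hx0
      have e : x * -(2 * (ε₁ * s) / x) = -(2 * (ε₁ * s)) := by field_simp
      rwa [e] at this
    have h4 : (1 - t) * ∑ v, l v ≤ x * ∑ v, l v :=
      mul_le_mul_of_nonpos_right h1t h2.le
    have h5 : t * ∑ v, l₁ v ≤ ε₁ * s := by
      have e1 := mul_le_mul_of_nonneg_left hsum₁ ht0
      nlinarith
    linarith
  · refine hsum.trans ?_
    rw [le_div_iff₀ hx0]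
    nlinarith

end Pool.Agent.Lib.TwoPaths
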