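import Pool.Agent.Lib.TwoPaths.Defs

/-!
# Finite structure lemma: definitions
-/

namespace Pool.Agent.Lib.TwoPaths

open Finset Relation
open Pool.Agent.Lib.MP_952639_co

section

variable {S : Type*} [Fintype S] [DecidableEq S]

/-- `φ` is a potential of the pair `(e, f)`. -/
def IsPot (c : Finset S → Bool) (r : ℕ) (e f : Finset S) (φ : Finset S → ZMod 2) : Prop :=
  ∀ a b, JAdj r a b → φ a + φ b = chi c r e f a b

open Classical in
/-- Number of adjacent pairs between the components of `e` and of `f`, in ordered form: `(a, k, i)`
with `a` an injective tuple whose set lies in the component of `e` such that replacing coordinate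
`i` by the new vertex `k` gives a set in the component of `f`. -/
noncomputable def nadj (c : Finset S → Bool) (r : ℕ) (e f : Finset S) : ℕ :=
  (univ.filter fun q : (Fin r → S) × S × Fin r => Function.Injective q.1 ∧
    (∀ j, q.1 j ≠ q.2.1) ∧ Conn c r e (univ.image q.1) ∧
    Conn c r f (univ.image (Function.update q.1 q.2.2 q.2.1))).card

open Classical in
/-- Number of injective tuples whose set satisfies `X`. -/
noncomputable def ntup (r : ℕ) (X : Finset S → Prop) : ℕ :=
  (univ.filter fun x : Fin r → S => Function.Injective x ∧ X (univ.image x)).card

/-- `(d, f')` is a neighbour pair of the component of `f`: `f'` lies in it and `d` is an adjacent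
set of the other colour. -/
def NPair (c : Finset S → Bool) (r : ℕ) (f d f' : Finset S) : Prop :=
  Conn c r f f' ∧ JAdj r d f' ∧ c d ≠ c f'

end

end Pool.Agent.Lib.TwoPaths
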