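import Pool.Agent.Lib.TwoPaths.Defs

/-!
# M1: connectors for a general relation; colours along chains; from chains to paths

(rconnectors) The proofs of `connector` (`ConnectA.lean`) and `connectors` (`ConnectB.lean`) with
`AM r c` replaced by `RM R`; the only property of `Adj c` used is `Adj.right_inj`, here `hR`.

(chain_col) along a chain of `RAdj c P` adjacent tuples have the same colour (`Adj.col`,
`Col.unique`) and satisfy `P`.

(mono_path_of_chain) Let `P` be a `PAdj c κ`-chain of tuples of colour `κ`, and `t` a list of
vertices with `t.length < r` such that either `t = []`, or `P = L ++ [z]` and there is a tuple `y`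
with `PAdj c κ z y` and `t = (List.ofFn y).take t.length`.  If `vs P ++ t` has no repetition then
`MonoPath r c κ (vs P ++ t)`.
Proof: a window of length `r` at position `q r + j` (`0 ≤ j < r`) is contained in the
concatenation of the tuples number `q`, `q+1` (or of `z` and `t`, in which case `j ≤ t.length`); its set is
`univ.image (mix x y {i | i < j})` with `x`, `y` the two tuples (`window_toFinset` in `Cycle.lean` is
this computation), which has colour `κ` by `PAdj`; if `j = 0` it is the set of the tuple number `q`.
If `P = []` (then `t = []` or no window exists since `t.length < r`) there is nothing to prove.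

(padj_of_adj) `Adj c x y` and `Col c κ x` give `PAdj c κ x y`.
-/

namespace Pool.Agent.Lib.TwoPaths

open Finset
open Pool.Agent.Lib.MP_952639_co

section

variable {V : Type*} [Fintype V] [DecidableEq V] {r : ℕ}

private lemma RM_pow_nonneg (R : (Fin r → V) → (Fin r → V) → Prop) (l : ℕ) (x y : Fin r → V) :
    0 ≤ (RM R ^ l) x y := by
  induction l generalizing x with
  | zero => rw [pow_zero, Matrix.one_apply]; split_ifs <;> norm_num
  | succ l ih =>
    rw [pow_succ', Matrix.mul_apply]
    apply Finset.sum_nonneg
    intro w _
    apply mul_nonneg _ (ih w)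
    rw [RM]; split_ifs <;> norm_num

private lemma RM_pow_le (R : (Fin r → V) → (Fin r → V) → Prop) (l : ℕ) (x y : Fin r → V) :
    (RM R ^ (l + 1)) x y ≤ (Fintype.card V : ℝ) ^ (r * l) := by
  induction l generalizing x with
  | zero =>
    rw [zero_add, pow_one, mul_zero, pow_zero, RM]
    split_ifs <;> norm_num
  | succ l ih =>
    rw [pow_succ', Matrix.mul_apply]
    calc ∑ w, RM R x w * (RM R ^ (l + 1)) w y
        ≤ ∑ _w : Fin r → V, (Fintype.card V : ℝ) ^ (r * l) := by
          apply Finset.sum_le_sum
          intro w _
          have h1 : RM R x w ≤ 1 := by rw [RM]; split_ifs <;> norm_num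
          calc RM R x w * (RM R ^ (l + 1)) w y ≤ 1 * (RM R ^ (l + 1)) w y :=
                mul_le_mul_of_nonneg_right h1 (RM_pow_nonneg R _ _ _)
            _ ≤ _ := by rw [one_mul]; exact ih w
      _ = (Fintype.card V : ℝ) ^ (r * (l + 1)) := by
          rw [Finset.sum_const, card_univ, Fintype.card_fun, Fintype.card_fin, nsmul_eq_mul]
          push_cast
          rw [← pow_add]; congr 1; ring

private theorem rconnector (R : (Fin r → V) → (Fin r → V) → Prop)
    (hR : ∀ x y, R x y → Function.Injective y) (l : ℕ) :
    ∀ (c' : ℝ) (F : Finset V) (x y : Fin r → V), 0 < c' →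
      c' * (Fintype.card V : ℝ) ^ (r * l) ≤ (RM R ^ (l + 1)) x y →
      r * ((F.card : ℝ) + r * (l + 1)) ≤ (Fintype.card V : ℝ) * c' / 2 ^ (l + 1) →
      0 < Fintype.card V →
      ∃ W : List (Fin r → V), W.length = l ∧ (x :: (W ++ [y])).IsChain R ∧
        (vs W).Nodup ∧ ∀ v ∈ vs W, v ∉ F := by
  induction l with
  | zero =>
    intro c' F x y hc' h _ _
    refine ⟨[], rfl, ?_, by simp [vs], by simp [vs]⟩
    rw [mul_zero, pow_zero, mul_one, zero_add, pow_one, RM] at h
    have : R x y := by
      by_contra hcon
      rw [if_neg hcon] at h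
      linarith
    simpa using this
  | succ l ih =>
    intro c' F x y hc' h hF hn
    set n : ℝ := (Fintype.card V : ℝ) with hndef
    have hn0 : 0 < n := by rw [hndef]; exact_mod_cast hn
    -- find `w`
    obtain ⟨w, hw1, hw2, hw3⟩ : ∃ w : Fin r → V, (∀ i, w i ∉ F) ∧ R x w ∧
        c' / 2 * n ^ (r * l) ≤ (RM R ^ (l + 1)) w y := by
      by_contra hcon
      push Not at hcon
      rw [pow_succ', Matrix.mul_apply] at h
      have hle : ∀ w : Fin r → V, RM R x w * (RM R ^ (l + 1)) w y ≤
          (if ∃ i, w i ∈ F then n ^ (r * l) else 0) + c' / 2 * n ^ (r * l) := by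
        intro w
        by_cases hw : ∃ i, w i ∈ F
        · rw [if_pos hw]
          have h1 : RM R x w ≤ 1 := by rw [RM]; split_ifs <;> norm_num
          have h2 : RM R x w * (RM R ^ (l + 1)) w y ≤ n ^ (r * l) :=
            calc RM R x w * (RM R ^ (l + 1)) w y ≤ 1 * (RM R ^ (l + 1)) w y :=
                  mul_le_mul_of_nonneg_right h1 (RM_pow_nonneg R _ _ _)
              _ ≤ _ := by rw [one_mul]; exact RM_pow_le R l w y
          have h3 : 0 ≤ c' / 2 * n ^ (r * l) := by positivity
          linarith
        · rw [if_neg hw, zero_add]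
          by_cases ha : R x w
          · have := hcon w (by simpa using hw) ha
            have h1 : RM R x w = 1 := by rw [RM, if_pos ha]
            rw [h1, one_mul]; exact this.le
          · have h1 : RM R x w = 0 := by rw [RM, if_neg ha]
            rw [h1, zero_mul]; positivity
      have hsum := h.trans (Finset.sum_le_sum fun w _ => hle w)
      rw [Finset.sum_add_distrib, ← Finset.sum_filter, Finset.sum_const, Finset.sum_const,
        card_univ, Fintype.card_fun, Fintype.card_fin, nsmul_eq_mul, nsmul_eq_mul] at hsum
      push_cast at hsum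
      rw [← hndef] at hsum
      set K : ℝ := ((univ.filter fun w : Fin r → V => ∃ i, w i ∈ F).card : ℝ) with hK
      have hK1 : K * n ≤ r * F.card * n ^ r := card_touch F
      have hrF : (r : ℝ) * F.card ≤ n * c' / 4 := by
        have h4 : (4 : ℝ) ≤ 2 ^ (l + 1 + 1) := by
          have : (1 : ℝ) ≤ 2 ^ l := one_le_pow₀ (by norm_num)
          rw [pow_succ, pow_succ]; linarith
        have h5 : n * c' / 2 ^ (l + 1 + 1) ≤ n * c' / 4 :=
          div_le_div_of_nonneg_left (by positivity) (by norm_num) h4
        have h6 : (r : ℝ) * F.card ≤ r * ((F.card : ℝ) + r * (((l + 1 : ℕ) : ℝ) + 1)) := by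
          apply mul_le_mul_of_nonneg_left _ (Nat.cast_nonneg r)
          have : (0 : ℝ) ≤ r * (((l + 1 : ℕ) : ℝ) + 1) := by positivity
          linarith
        linarith
      have hK2 : K ≤ c' / 4 * n ^ r := by
        have h7 : K * n ≤ (c' / 4 * n ^ r) * n := by
          refine hK1.trans ?_
          calc (r : ℝ) * F.card * n ^ r ≤ (n * c' / 4) * n ^ r :=
                mul_le_mul_of_nonneg_right hrF (by positivity)
            _ = _ := by ring
        exact le_of_mul_le_mul_right h7 hn0
      have hX : 0 < n ^ r * n ^ (r * l) := by positivity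
      have h8 : n ^ (r * (l + 1)) = n ^ r * n ^ (r * l) := by rw [← pow_add]; congr 1; ring
      rw [h8] at hsum
      have h9 : K * n ^ (r * l) ≤ c' / 4 * (n ^ r * n ^ (r * l)) := by
        calc K * n ^ (r * l) ≤ (c' / 4 * n ^ r) * n ^ (r * l) :=
              mul_le_mul_of_nonneg_right hK2 (by positivity)
          _ = _ := by ring
      nlinarith
    have hwinj : Function.Injective w := hR _ _ hw2
    obtain ⟨W, hWl, hWc, hWn, hWF⟩ := ih (c' / 2) (F ∪ univ.image w) w y (by linarith) hw3 (by
      have h1 : ((F ∪ univ.image w).card : ℝ) ≤ F.card + r := by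
        have : (F ∪ univ.image w).card ≤ F.card + r := by
          refine (card_union_le _ _).trans ?_
          have : (univ.image w).card ≤ r := by
            simpa using card_image_le (s := univ) (f := w)
          omega
        exact_mod_cast this
      push_cast at hF
      have h2 : (r : ℝ) * (((F ∪ univ.image w).card : ℝ) + r * (l + 1)) ≤
          r * ((F.card : ℝ) + r * (l + 1 + 1)) := by
        apply mul_le_mul_of_nonneg_left _ (Nat.cast_nonneg r)
        linarith
      refine h2.trans (hF.trans (le_of_eq ?_))
      rw [pow_succ 2 (l + 1)]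
      field_simp) hn
    refine ⟨w :: W, by simp [hWl], ?_, ?_, ?_⟩
    · rw [List.cons_append, List.isChain_cons_cons]
      exact ⟨hw2, hWc⟩
    · rw [nodup_vs_iff] at hWn ⊢
      refine ⟨?_, ?_⟩
      · intro z hz
        rcases List.mem_cons.mp hz with rfl | hz
        · exact hwinj
        · exact hWn.1 z hz
      · rw [List.pairwise_cons]
        refine ⟨?_, hWn.2⟩
        intro z hz i j hij
        apply hWF (w i) (mem_vs.mpr ⟨z, hz, j, hij.symm⟩)
        simp
    · intro v hv
      rw [mem_vs] at hv
      obtain ⟨z, hz, i, rfl⟩ := hv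
      rcases List.mem_cons.mp hz with rfl | hz
      · exact hw1 i
      · intro hF'
        exact hWF (z i) (mem_vs.mpr ⟨z, hz, i, rfl⟩) (mem_union_left _ hF')

end

theorem rconnectors {V : Type*} [Fintype V] [DecidableEq V] {r : ℕ}
    (R : (Fin r → V) → (Fin r → V) → Prop) (hR : ∀ x y, R x y → Function.Injective y)
    (l : ℕ) (cc : ℝ) (hcc : 0 < cc) {J : Type*} [DecidableEq J] (x y : J → Fin r → V)
    (F0 : Finset V) (hV : 0 < Fintype.card V) (s : Finset J)
    (hJ : ∀ j ∈ s, cc * (Fintype.card V : ℝ) ^ (r * l) ≤ (RM R ^ (l + 1)) (x j) (y j))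
    (hF : r * ((F0.card : ℝ) + r * l * s.card + r * (l + 1)) ≤
      (Fintype.card V : ℝ) * cc / 2 ^ (l + 1)) :
    ∃ W : J → List (Fin r → V), (∀ j ∈ s, (W j).length = l ∧
      (x j :: (W j ++ [y j])).IsChain R ∧ (vs (W j)).Nodup ∧ ∀ v ∈ vs (W j), v ∉ F0) ∧
      ∀ j ∈ s, ∀ j' ∈ s, j ≠ j' → ∀ v ∈ vs (W j), v ∉ vs (W j') := by
  induction s using Finset.induction_on with
  | empty => exact ⟨fun _ => [], by simp, by simp⟩
  | insert a s ha ih =>
    rw [card_insert_of_notMem ha] at hF
    push_cast at hF
    obtain ⟨W, hW1, hW2⟩ := ih (fun j hj => hJ j (mem_insert_of_mem hj)) (by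
      refine le_trans ?_ hF
      apply mul_le_mul_of_nonneg_left _ (Nat.cast_nonneg r)
      have : (0 : ℝ) ≤ r * l := by positivity
      nlinarith)
    set F := F0 ∪ s.biUnion (fun j => (vs (W j)).toFinset) with hFdef
    have hFc : (F.card : ℝ) ≤ F0.card + r * l * s.card := by
      have h1 : F.card ≤ F0.card + s.card * (r * l) := by
        refine (card_union_le _ _).trans ?_
        apply Nat.add_le_add_left
        apply card_biUnion_le_card_mul
        intro j hj
        refine (List.toFinset_card_le _).trans ?_
        rw [length_vs, (hW1 j hj).1]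
      have h2 : (F.card : ℝ) ≤ ((F0.card + s.card * (r * l) : ℕ) : ℝ) := by exact_mod_cast h1
      refine h2.trans (le_of_eq ?_)
      push_cast; ring
    obtain ⟨Wa, h1, h2, h3, h4⟩ := rconnector R hR l cc F (x a) (y a) hcc
      (hJ a (mem_insert_self a s)) (by
        refine le_trans ?_ hF
        apply mul_le_mul_of_nonneg_left _ (Nat.cast_nonneg r)
        have : (0 : ℝ) ≤ r * l := by positivity
        nlinarith) hV
    refine ⟨fun j => if j = a then Wa else W j, ?_, ?_⟩
    · intro j hj
      by_cases hja : j = a
      · subst hja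
        simp only [if_true]
        refine ⟨h1, h2, h3, fun v hv hF0 => h4 v hv (mem_union_left _ hF0)⟩
      · simp only [if_neg hja]
        exact hW1 j ((mem_insert.mp hj).resolve_left hja)
    · have key : ∀ j ∈ s, ∀ v ∈ vs Wa, v ∉ vs (W j) := by
        intro j hj v hv hvj
        exact h4 v hv (mem_union_right _ (mem_biUnion.mpr ⟨j, hj, List.mem_toFinset.mpr hvj⟩))
      intro j hj j' hj' hjj v hv
      by_cases hja : j = a
      · subst hja
        simp only [if_true] at hv
        simp only [if_neg (Ne.symm hjj)]
        exact key j' ((mem_insert.mp hj').resolve_left (Ne.symm hjj)) v hv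
      · simp only [if_neg hja] at hv
        have hj2 := (mem_insert.mp hj).resolve_left hja
        by_cases hja' : j' = a
        · subst hja'
          simp only [if_true]
          intro hv'
          exact key j hj2 v hv' hv
        · simp only [if_neg hja']
          exact hW2 j hj2 j' ((mem_insert.mp hj').resolve_left hja') hjj v hv

private lemma adj_col' {V : Type*} [DecidableEq V] {r : ℕ} {c : Finset V → Bool}
    {x y : Fin r → V} (h : Adj c x y) : ∃ κ, Col c κ x ∧ Col c κ y := by
  obtain ⟨κ, hκ⟩ := h
  refine ⟨κ, ?_, ?_⟩
  · have := hκ ∅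
    have e : mix x y ∅ = x := by ext i; simp [mix]
    rwa [e] at this
  · have := hκ univ
    have e : mix x y univ = y := by ext i; simp [mix]
    rwa [e] at this

private lemma col_unique' {V : Type*} [DecidableEq V] {r : ℕ} {c : Finset V → Bool}
    {κ κ' : Bool} {x : Fin r → V} (h : Col c κ x) (h' : Col c κ' x) : κ = κ' :=
  h.2.symm.trans h'.2

private lemma mix_empty' {V : Type*} {r : ℕ} (x y : Fin r → V) : mix x y ∅ = x := by
  ext i; simp [mix]

theorem chain_col {V : Type*} [DecidableEq V] {r : ℕ} {c : Finset V → Bool}
    {P : (Fin r → V) → Prop} {L : List (Fin r → V)} (h : L.IsChain (RAdj c P)) {κ : Bool}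
    {x : Fin r → V} (hx : x ∈ L) (hc : Col c κ x) (hP : P x) : ∀ y ∈ L, Col c κ y ∧ P y := by
  induction L generalizing x with
  | nil => simp at hx
  | cons a l ih =>
    cases l with
    | nil =>
      intro y hy
      rw [List.mem_singleton] at hx hy
      subst hx; subst hy
      exact ⟨hc, hP⟩
    | cons b l =>
      rw [List.isChain_cons_cons] at h
      obtain ⟨⟨hab, hPa, hPb⟩, hch⟩ := h
      obtain ⟨κ', hκa, hκb⟩ := adj_col' hab
      have hb : Col c κ b := by
        rcases List.mem_cons.mp hx with rfl | hx
        · rw [col_unique' hc hκa]; exact hκb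
        · exact (ih hch hx hc hP b (by simp)).1
      intro y hy
      rcases List.mem_cons.mp hy with rfl | hy
      · rw [col_unique' hb hκb]; exact ⟨hκa, hPa⟩
      · exact ih hch (x := b) (by simp) hb hPb y hy

theorem padj_of_adj {V : Type*} [DecidableEq V] {r : ℕ} {c : Finset V → Bool} {κ : Bool}
    {x y : Fin r → V} (h : Adj c x y) (hx : Col c κ x) : PAdj c κ x y := by
  obtain ⟨κ', hκ⟩ := h
  have h2 := hκ ∅
  rw [mix_empty'] at h2
  rw [col_unique' hx h2]
  intro j
  exact hκ _

private lemma mono_path_windows {V : Type*} [DecidableEq V] {r : ℕ}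
    {c : Finset V → Bool} {κ : Bool} {t : List V} (ht : t.length < r)
    {P : List (Fin r → V)}
    (hP : P.IsChain (PAdj c κ)) (hcol : ∀ x ∈ P, Col c κ x)
    (htail : t = [] ∨ P = [] ∨ ∃ L z y, P = L ++ [z] ∧ PAdj c κ z y ∧
      t = (List.ofFn y).take t.length) :
    ∀ i, i + r ≤ (vs P ++ t).length → c (((vs P ++ t).drop i).take r).toFinset = κ := by
  induction P with
  | nil =>
    intro i hi
    simp only [vs, List.flatMap_nil, List.nil_append] at hi
    omega
  | cons x L ih =>
    have hvs : vs (x :: L) ++ t = List.ofFn x ++ (vs L ++ t) := by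
      simp [vs]
    have hlen : (List.ofFn x).length = r := List.length_ofFn
    intro i hi
    rw [hvs] at hi ⊢
    rw [List.length_append, hlen] at hi
    by_cases hir : i < r
    · obtain ⟨y, hy1, hy2⟩ : ∃ y, (i = 0 ∨ PAdj c κ x y) ∧
          (vs L ++ t).take i = (List.ofFn y).take i := by
        cases L with
        | nil =>
          rcases htail with h | h | ⟨L', z, y, h1, h2, h3⟩
          · subst h
            refine ⟨x, Or.inl ?_, ?_⟩
            · simp only [vs, List.flatMap_nil, List.nil_append, List.length_nil] at hi
              omega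
            · simp only [vs, List.flatMap_nil, List.nil_append, List.length_nil] at hi ⊢
              have : i = 0 := by omega
              subst this
              simp
          · simp at h
          · have hzx : z = x := by
              cases L' with
              | nil => simpa using h1.symm
              | cons a L' => simp at h1
            subst hzx
            refine ⟨y, Or.inr h2, ?_⟩
            simp only [vs, List.flatMap_nil, List.nil_append] at hi ⊢
            rw [h3, List.take_take]
            congr 1
            omega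
        | cons y L =>
          rw [List.isChain_cons_cons] at hP
          refine ⟨y, Or.inr hP.1, ?_⟩
          have : vs (y :: L) ++ t = List.ofFn y ++ (vs L ++ t) := by simp [vs]
          rw [this, List.take_append_of_le_length]
          rw [List.length_ofFn]; omega
      have hdl : ((List.ofFn x).drop i).length = r - i := by rw [List.length_drop, hlen]
      rw [List.drop_append_of_le_length (by rw [hlen]; omega), List.take_append, hdl,
        List.take_of_length_le (by rw [hdl]; omega), show r - (r - i) = i by omega, hy2,
        window_toFinset x y i hir.le]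
      rcases hy1 with h0 | h0
      · subst h0
        have : (univ.filter fun t : Fin r => (t : ℕ) < 0) = ∅ := by simp
        rw [this, mix_empty']
        exact (hcol x (by simp)).2
      · exact (h0 i).2
    · push Not at hir
      have h1 : (List.ofFn x ++ (vs L ++ t)).drop i = (vs L ++ t).drop (i - r) := by
        rw [List.drop_append, hlen, List.drop_of_length_le (by rw [hlen]; exact hir),
          List.nil_append]
      rw [h1]
      apply ih hP.tail (fun y hy => hcol y (List.mem_cons_of_mem _ hy)) _ (i - r) (by omega)
      rcases htail with h | h | ⟨L', z, y, h1, h2, h3⟩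
      · exact Or.inl h
      · simp at h
      · cases L' with
        | nil =>
          right; left
          simpa using (List.cons.inj h1).2
        | cons a L' =>
          right; right
          exact ⟨L', z, y, (List.cons.inj h1).2, h2, h3⟩

theorem mono_path_of_chain {V : Type*} [DecidableEq V] {r : ℕ} (hr : 1 ≤ r)
    {c : Finset V → Bool} {κ : Bool} {P : List (Fin r → V)} {t : List V}
    (hP : P.IsChain (PAdj c κ)) (hcol : ∀ x ∈ P, Col c κ x) (ht : t.length < r)
    (htail : t = [] ∨ P = [] ∨ ∃ L z y, P = L ++ [z] ∧ PAdj c κ z y ∧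
      t = (List.ofFn y).take t.length)
    (hnd : (vs P ++ t).Nodup) : MonoPath r c κ (vs P ++ t) :=
  ⟨hnd, mono_path_windows ht hP hcol htail⟩

end Pool.Agent.Lib.TwoPaths
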