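import Pool.Agent.Lib.TwoPaths.Defs

/-!
# M2: a random family of disjoint absorbers

PROOF.  `N = |H| ≥ 1`, `n = |V|`, `Ω = J × (H → V)`, `|Ω| = |J| n^N`.  If `J` is empty then every
`Abs T` is empty, so there is no `T ∈ 𝒯` (`c₂ n^N > 0`); take `Fm = ∅`.  Let `p₀ = c₂/|J|` (WLOG
`≤ 1`), `γ = min γ₀ (min 1 (p₀/(64 N²)))`, `k = ⌊γ n⌋`, `μ = p₀ γ/8`, `n ≥ 2/γ` so `k ≥ γ n/2`.
Consider `X : Fin k → Ω` uniformly (count over `Ω^k`).
 (1) for `T ∈ 𝒯` let `Y_T = #{i | X i ∈ Abs T}`, `|Abs T| ≥ p₀ |Ω|`.  Number of `X` with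
   `Y_T ≤ p₀ k/2`: at most `∑_X exp(p₀ k/2 - Y_T) = exp(p₀ k/2) (∑_{ω ∈ Ω} exp(-[ω ∈ Abs T]))^k
   ≤ exp(p₀ k/2) |Ω|^k (1 - (1 - 1/e) p₀)^k ≤ |Ω|^k exp(-(1/2 - 1/e) p₀ k) ≤ |Ω|^k exp(-p₀ k/8)`.
   There are at most `n^r` tuples `T`; for large `n`, `n^r exp(-p₀ k/8) < 1/4` (`k ≥ γ n/2`).
 (2) `Z = #{(i,i') | i ≠ i', (X i).2 h = (X i').2 h' for some h, h'}`:
   `∑_X Z ≤ k² N² |Ω|^k/n`, so the number of `X` with `Z ≥ 4 k² N²/n` is at most `|Ω|^k/4`, and
   `4 k² N²/n ≤ 4 γ N² k ≤ p₀ k/16`.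
So some `X` has `Y_T > p₀ k/2` for all `T ∈ 𝒯` and `Z < 4k²N²/n ≤ p₀ k/16`
(`k ≥ 1`).  Let `Fm` be the set of the `X i` with `i` in no pair counted by `Z` and
`X i ∈ Abs T` for some `T ∈ 𝒯`.  For such `i ≠ i'`, `X i ≠ X i'` and the images of `(X i).2`,
`(X i').2` are disjoint (`H` nonempty, else they would be a counted pair).  `|Fm| ≤ k ≤ γ₀ n`, and for
`T ∈ 𝒯` at least `Y_T - Z ≥ p₀ k/2 - p₀ k/16 ≥ p₀ k/4 ≥ μ n` elements of `Fm` are in `Abs T`.
-/

namespace Pool.Agent.Lib.TwoPaths

open Finset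

open Classical in
/-- Exponential moment of the number of samples in a dense set. -/
private lemma m2_exp {Ω : Type*} [Fintype Ω] (A : Finset Ω) (p : ℝ) (hp : 0 ≤ p)
    (hA : p * (Fintype.card Ω : ℝ) ≤ A.card) (k : ℕ) :
    ∑ X : Fin k → Ω, Real.exp (p * k / 2 - ((univ.filter fun i => X i ∈ A).card : ℝ)) ≤
      Real.exp (-(p * k / 8)) * (Fintype.card Ω : ℝ) ^ k := by
  set f : Ω → ℝ := fun ω => if ω ∈ A then Real.exp (-1) else 1 with hf
  have h1 : ∀ X : Fin k → Ω,
      Real.exp (p * k / 2 - ((univ.filter fun i => X i ∈ A).card : ℝ)) =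
        Real.exp (p * k / 2) * ∏ i, f (X i) := by
    intro X
    rw [sub_eq_add_neg, Real.exp_add]
    congr 1
    rw [hf]
    simp only
    rw [prod_ite, prod_const_one, mul_one, prod_const, ← Real.exp_nat_mul]
    congr 1
    ring
  have h2 : ∑ X : Fin k → Ω, ∏ i, f (X i) = (∑ ω, f ω) ^ k := by
    rw [Fintype.sum_pow]
  have he : Real.exp (-1) ≤ 3 / 8 := by
    rw [Real.exp_neg]
    have := Real.exp_one_gt_d9
    rw [inv_le_comm₀ (Real.exp_pos 1) (by norm_num)]
    linarith
  have h3 : ∑ ω, f ω ≤ (Fintype.card Ω : ℝ) * Real.exp (-(5 / 8 * p)) := by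
    have h4 : ∑ ω, f ω = (Fintype.card Ω : ℝ) - (1 - Real.exp (-1)) * A.card := by
      have : ∀ ω, f ω = 1 - (1 - Real.exp (-1)) * (if ω ∈ A then 1 else 0) := by
        intro ω
        rw [hf]
        simp only
        split_ifs <;> ring
      simp only [this]
      rw [sum_sub_distrib, ← mul_sum]
      simp
    have h5 : -(5 / 8 * p) + 1 ≤ Real.exp (-(5 / 8 * p)) := Real.add_one_le_exp _
    have h6 : (0 : ℝ) ≤ (Fintype.card Ω : ℝ) := by positivity
    have h7 : (5 / 8 : ℝ) * (p * (Fintype.card Ω : ℝ)) ≤ (1 - Real.exp (-1)) * A.card := by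
      have : (0 : ℝ) ≤ p * (Fintype.card Ω : ℝ) := by positivity
      calc (5 / 8 : ℝ) * (p * (Fintype.card Ω : ℝ)) ≤
          (1 - Real.exp (-1)) * (p * (Fintype.card Ω : ℝ)) := by
            apply mul_le_mul_of_nonneg_right _ this
            linarith
        _ ≤ _ := by
            apply mul_le_mul_of_nonneg_left hA
            linarith
    have h8 := mul_le_mul_of_nonneg_left h5 h6
    rw [h4]
    linarith
  have h0 : 0 ≤ ∑ ω, f ω := by
    apply sum_nonneg
    intro ω _
    rw [hf]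
    simp only
    split_ifs
    · positivity
    · norm_num
  simp only [h1]
  rw [← mul_sum, h2]
  calc Real.exp (p * k / 2) * (∑ ω, f ω) ^ k ≤
      Real.exp (p * k / 2) * ((Fintype.card Ω : ℝ) * Real.exp (-(5 / 8 * p))) ^ k := by
        apply mul_le_mul_of_nonneg_left _ (by positivity)
        exact pow_le_pow_left₀ h0 h3 k
    _ = _ := by
        rw [mul_pow, ← Real.exp_nat_mul]
        rw [mul_left_comm, ← Real.exp_add, mul_comm]
        congr 2
        ring

open Classical in
/-- The number of samples with a prescribed coincidence. -/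
private lemma m2_coll {J H V : Type} [Fintype J] [Fintype H] [DecidableEq H] [Fintype V]
    {k : ℕ} (i i' : Fin k) (hii : i ≠ i') (h h' : H) :
    Fintype.card V *
      (univ.filter fun X : Fin k → J × (H → V) => (X i).2 h = (X i').2 h').card ≤
      Fintype.card (Fin k → J × (H → V)) := by
  rw [← card_univ (α := V), ← card_product, ← card_univ (α := Fin k → J × (H → V))]
  apply card_le_card_of_injOn (fun q => Function.update q.2 i ((q.2 i).1,
    Function.update (q.2 i).2 h q.1))
  · intro q _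
    exact mem_coe.2 (mem_univ _)
  · rintro ⟨v, X⟩ hX ⟨v', X'⟩ hX' he
    rw [mem_coe, mem_product, mem_filter] at hX hX'
    have e1 := hX.2.2
    have e2 := hX'.2.2
    simp only at he e1 e2
    have hv : v = v' := by
      have := congrFun he i
      simp only [Function.update_self] at this
      have h3 := congrFun (congrArg Prod.snd this) h
      simpa using h3
    subst hv
    have ho : ∀ j, j ≠ i → X j = X' j := by
      intro j hj
      have := congrFun he j
      rwa [Function.update_of_ne hj, Function.update_of_ne hj] at this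
    have hi : X i = X' i := by
      have := congrFun he i
      simp only [Function.update_self] at this
      apply Prod.ext
      · exact (Prod.mk.inj this).1
      · funext g
        by_cases hg : g = h
        · subst hg
          rw [e1, e2, ho i' hii.symm]
        · have h3 := congrFun (congrArg Prod.snd this) g
          simp only at h3
          rwa [Function.update_of_ne hg, Function.update_of_ne hg] at h3
    rw [Prod.mk.injEq]
    refine ⟨rfl, ?_⟩
    funext j
    by_cases hj : j = i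
    · rw [hj, hi]
    · exact ho j hj

open Classical in
/-- The pairs of samples with a coincidence. -/
private noncomputable def m2_Z {J H V : Type} {k : ℕ} (X : Fin k → J × (H → V)) :
    Finset (Fin k × Fin k) :=
  univ.filter fun q => q.1 ≠ q.2 ∧ ∃ h h', (X q.1).2 h = (X q.2).2 h'

private lemma m2_memZ {J H V : Type} {k : ℕ} (X : Fin k → J × (H → V)) (q : Fin k × Fin k) :
    q ∈ m2_Z X ↔ q.1 ≠ q.2 ∧ ∃ h h', (X q.1).2 h = (X q.2).2 h' := by
  unfold m2_Z
  simp

open Classical in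
private lemma m2_sumZ {J H V : Type} [Fintype J] [Fintype H] [DecidableEq H] [Fintype V]
    (k : ℕ) :
    Fintype.card V * ∑ X : Fin k → J × (H → V), (m2_Z X).card ≤
      k ^ 2 * Fintype.card H ^ 2 * Fintype.card (Fin k → J × (H → V)) := by
  have h1 : ∑ X : Fin k → J × (H → V), (m2_Z X).card =
      ∑ q : Fin k × Fin k, (univ.filter fun X : Fin k → J × (H → V) =>
        q.1 ≠ q.2 ∧ ∃ h h', (X q.1).2 h = (X q.2).2 h').card := by
    unfold m2_Z
    simp only [card_filter]
    rw [sum_comm]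
    refine sum_congr rfl fun _ _ => sum_congr rfl fun _ _ => ?_
    congr
  rw [h1, mul_sum]
  have h2 : ∀ q : Fin k × Fin k, Fintype.card V *
      (univ.filter fun X : Fin k → J × (H → V) =>
        q.1 ≠ q.2 ∧ ∃ h h', (X q.1).2 h = (X q.2).2 h').card ≤
      Fintype.card H ^ 2 * Fintype.card (Fin k → J × (H → V)) := by
    intro q
    by_cases hq : q.1 = q.2
    · have : (univ.filter fun X : Fin k → J × (H → V) =>
        q.1 ≠ q.2 ∧ ∃ h h', (X q.1).2 h = (X q.2).2 h') = ∅ := by
        apply filter_false_of_mem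
        intro X _ h
        exact h.1 hq
      rw [this]
      simp
    · have hsub : (univ.filter fun X : Fin k → J × (H → V) =>
          q.1 ≠ q.2 ∧ ∃ h h', (X q.1).2 h = (X q.2).2 h') ⊆
          (univ : Finset (H × H)).biUnion fun g =>
            (univ.filter fun X : Fin k → J × (H → V) => (X q.1).2 g.1 = (X q.2).2 g.2) := by
        intro X hX
        rw [mem_filter] at hX
        obtain ⟨_, _, h, h', he⟩ := hX
        rw [mem_biUnion]
        exact ⟨(h, h'), mem_univ _, mem_filter.2 ⟨mem_univ _, he⟩⟩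
      calc _ ≤ Fintype.card V * ∑ g : H × H,
            (univ.filter fun X : Fin k → J × (H → V) => (X q.1).2 g.1 = (X q.2).2 g.2).card :=
            Nat.mul_le_mul_left _ ((card_le_card hsub).trans card_biUnion_le)
        _ = ∑ g : H × H, Fintype.card V *
            (univ.filter fun X : Fin k → J × (H → V) => (X q.1).2 g.1 = (X q.2).2 g.2).card :=
            mul_sum _ _ _
        _ ≤ ∑ g : H × H, Fintype.card (Fin k → J × (H → V)) :=
            sum_le_sum fun g _ => m2_coll q.1 q.2 hq g.1 g.2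
        _ = _ := by
            rw [sum_const, card_univ, Fintype.card_prod, smul_eq_mul, sq]
  calc _ ≤ ∑ q : Fin k × Fin k, Fintype.card H ^ 2 * Fintype.card (Fin k → J × (H → V)) :=
        sum_le_sum fun q _ => h2 q
    _ = _ := by
        rw [sum_const, card_univ, Fintype.card_prod, smul_eq_mul, Fintype.card_fin]
        ring

open Classical in
/-- A good sample. -/
private lemma m2_sample {r : ℕ} {J H V : Type} [Fintype J] [Fintype H] [DecidableEq H]
    [Fintype V] (p : ℝ) (hp : 0 ≤ p) (k : ℕ) (hk : 1 ≤ k) (hJ : 1 ≤ Fintype.card J)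
    (hH : 1 ≤ Fintype.card H) (hV : 1 ≤ Fintype.card V)
    (Abs : (Fin r → V) → Finset (J × (H → V))) (𝒯 : Finset (Fin r → V))
    (hAbs : ∀ T ∈ 𝒯, p * (Fintype.card (J × (H → V)) : ℝ) ≤ (Abs T).card)
    (hsmall : (Fintype.card V : ℝ) ^ r * Real.exp (-(p * k / 8)) ≤ 1 / 2) :
    ∃ X : Fin k → J × (H → V),
      (∀ T ∈ 𝒯, p * k / 2 ≤ ((univ.filter fun i => X i ∈ Abs T).card : ℝ)) ∧
      (Fintype.card V : ℝ) * (m2_Z X).card ≤ 4 * k ^ 2 * (Fintype.card H : ℝ) ^ 2 := by
  set n : ℝ := (Fintype.card V : ℝ) with hn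
  set N : ℝ := (Fintype.card H : ℝ) with hN
  have hN1 : (1 : ℝ) ≤ N := by rw [hN]; exact_mod_cast hH
  have hk1 : (1 : ℝ) ≤ (k : ℝ) := by exact_mod_cast hk
  have hn1 : (1 : ℝ) ≤ n := by rw [hn]; exact_mod_cast hV
  set Ω := (Fintype.card (J × (H → V)) : ℝ) with hΩ
  have hΩ1 : 0 < Ω := by
    rw [hΩ, Fintype.card_prod, Fintype.card_fun]
    have : 0 < Fintype.card J * Fintype.card V ^ Fintype.card H :=
      Nat.mul_pos hJ (pow_pos hV _)
    exact_mod_cast this
  have hc : (Fintype.card (Fin k → J × (H → V)) : ℝ) = Ω ^ k := by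
    rw [Fintype.card_fun, Fintype.card_fin, hΩ]
    push_cast
    rfl
  set F : (Fin k → J × (H → V)) → ℝ := fun X =>
    (∑ T ∈ 𝒯, Real.exp (p * k / 2 - ((univ.filter fun i => X i ∈ Abs T).card : ℝ))) +
      n * (m2_Z X).card / (4 * k ^ 2 * N ^ 2) with hF
  have hsum : ∑ X : Fin k → J × (H → V), F X < ∑ X : Fin k → J × (H → V), (1 : ℝ) := by
    have h1 : ∑ X : Fin k → J × (H → V), (∑ T ∈ 𝒯,
        Real.exp (p * k / 2 - ((univ.filter fun i => X i ∈ Abs T).card : ℝ))) ≤
        1 / 2 * Ω ^ k := by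
      rw [sum_comm]
      calc _ ≤ ∑ T ∈ 𝒯, Real.exp (-(p * k / 8)) * Ω ^ k := by
            refine sum_le_sum fun T hT => ?_
            refine le_trans (le_of_eq ?_) (m2_exp (Abs T) p hp (hAbs T hT) k)
            congr!
        _ = (𝒯.card : ℝ) * Real.exp (-(p * k / 8)) * Ω ^ k := by
            rw [sum_const, nsmul_eq_mul, mul_assoc]
        _ ≤ n ^ r * Real.exp (-(p * k / 8)) * Ω ^ k := by
            apply mul_le_mul_of_nonneg_right _ (by positivity)
            apply mul_le_mul_of_nonneg_right _ (by positivity)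
            have : 𝒯.card ≤ Fintype.card V ^ r := by
              refine (card_le_univ 𝒯).trans (le_of_eq ?_)
              rw [Fintype.card_fun, Fintype.card_fin]
            rw [hn]
            exact_mod_cast this
        _ ≤ 1 / 2 * Ω ^ k := by
            apply mul_le_mul_of_nonneg_right hsmall (by positivity)
    have h2 : ∑ X : Fin k → J × (H → V), n * (m2_Z X).card / (4 * k ^ 2 * N ^ 2) ≤
        1 / 4 * Ω ^ k := by
      rw [← sum_div, ← mul_sum, div_le_iff₀ (by positivity)]
      have h3 := m2_sumZ (J := J) (H := H) (V := V) k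
      have h4 : (Fintype.card V : ℝ) * ∑ X : Fin k → J × (H → V), ((m2_Z X).card : ℝ) ≤
          (k : ℝ) ^ 2 * (Fintype.card H : ℝ) ^ 2 *
            (Fintype.card (Fin k → J × (H → V)) : ℝ) := by
        exact_mod_cast h3
      rw [hc] at h4
      refine h4.trans (le_of_eq ?_)
      rw [← hN]
      ring
    have h5 : ∑ X : Fin k → J × (H → V), (1 : ℝ) = Ω ^ k := by
      rw [sum_const, card_univ, nsmul_eq_mul, mul_one, hc]
    rw [h5, hF]
    simp only
    rw [sum_add_distrib]
    have : 0 < Ω ^ k := by positivity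
    linarith
  obtain ⟨X, _, hX⟩ := exists_lt_of_sum_lt hsum
  refine ⟨X, ?_, ?_⟩
  · intro T hT
    have h1 : Real.exp (p * k / 2 - ((univ.filter fun i => X i ∈ Abs T).card : ℝ)) ≤
        ∑ T ∈ 𝒯, Real.exp (p * k / 2 - ((univ.filter fun i => X i ∈ Abs T).card : ℝ)) :=
      single_le_sum (f := fun T => Real.exp (p * k / 2 -
        ((univ.filter fun i => X i ∈ Abs T).card : ℝ))) (fun _ _ => (Real.exp_pos _).le) hT
    have h2 : 0 ≤ n * (m2_Z X).card / (4 * k ^ 2 * N ^ 2) := by positivity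
    have h3 : Real.exp (p * k / 2 - ((univ.filter fun i => X i ∈ Abs T).card : ℝ)) < 1 := by
      rw [hF] at hX
      simp only at hX
      linarith
    rw [Real.exp_lt_one_iff] at h3
    linarith
  · have h1 : 0 ≤ ∑ T ∈ 𝒯,
        Real.exp (p * k / 2 - ((univ.filter fun i => X i ∈ Abs T).card : ℝ)) :=
      sum_nonneg fun _ _ => (Real.exp_pos _).le
    have h2 : n * (m2_Z X).card / (4 * k ^ 2 * N ^ 2) < 1 := by
      rw [hF] at hX
      simp only at hX
      linarith
    rw [div_lt_one (by positivity)] at h2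
    exact h2.le

open Classical in
theorem fam (r : ℕ) (H J : Type) [Fintype H] [DecidableEq H] [Nonempty H] [Fintype J]
    (c₂ γ₀ : ℝ) (hc₂ : 0 < c₂) (hγ₀ : 0 < γ₀) :
    ∃ μ : ℝ, 0 < μ ∧ ∃ n₀ : ℕ, ∀ (V : Type) [Fintype V] [DecidableEq V], n₀ ≤ Fintype.card V →
      ∀ (Abs : (Fin r → V) → Finset (J × (H → V))) (𝒯 : Finset (Fin r → V)),
      (∀ T ∈ 𝒯, c₂ * (Fintype.card V : ℝ) ^ Fintype.card H ≤ (Abs T).card) →
      ∃ Fm : Finset (J × (H → V)), (Fm.card : ℝ) ≤ γ₀ * Fintype.card V ∧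
        (∀ a ∈ Fm, ∃ T ∈ 𝒯, a ∈ Abs T) ∧
        (∀ a ∈ Fm, ∀ a' ∈ Fm, a ≠ a' → ∀ h h', a.2 h ≠ a'.2 h') ∧
        ∀ T ∈ 𝒯, μ * Fintype.card V ≤ ((Fm.filter fun a => a ∈ Abs T).card : ℝ) := by
  have hH : 1 ≤ Fintype.card H := Fintype.card_pos
  by_cases hJ : Fintype.card J = 0
  · refine ⟨1, one_pos, 1, ?_⟩
    intro V _ _ hV Abs 𝒯 hAbs
    have hno : ∀ T, T ∉ 𝒯 := by
      intro T hT
      have h1 := hAbs T hT
      have h2 : (Abs T).card = 0 := by
        have := card_le_univ (Abs T)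
        rw [Fintype.card_prod, hJ, zero_mul] at this
        omega
      rw [h2] at h1
      have h3 : (0 : ℝ) < Fintype.card V := by exact_mod_cast hV
      have h4 : 0 < c₂ * (Fintype.card V : ℝ) ^ Fintype.card H := by positivity
      rw [Nat.cast_zero] at h1
      linarith
    refine ⟨∅, ?_, ?_, ?_, ?_⟩
    · rw [card_empty, Nat.cast_zero]
      positivity
    · simp
    · simp
    · intro T hT
      exact absurd hT (hno T)
  · have hJ1 : 1 ≤ Fintype.card J := Nat.one_le_iff_ne_zero.2 hJ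
    have hJr : (0 : ℝ) < Fintype.card J := by exact_mod_cast hJ1
    set N : ℝ := (Fintype.card H : ℝ) with hN
    have hN1 : (1 : ℝ) ≤ N := by rw [hN]; exact_mod_cast hH
    obtain ⟨p, hp0, hpc⟩ : ∃ p : ℝ, 0 < p ∧ p * Fintype.card J ≤ c₂ :=
      ⟨c₂ / Fintype.card J, by positivity, by rw [div_mul_cancel₀ _ hJr.ne']⟩
    obtain ⟨γ, hγ, hγ1, hγ2⟩ : ∃ γ : ℝ, 0 < γ ∧ γ ≤ γ₀ ∧ γ * (64 * N ^ 2) ≤ p := by
      refine ⟨min γ₀ (p / (64 * N ^ 2)), by positivity, min_le_left _ _, ?_⟩
      rw [← le_div_iff₀ (by positivity)]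
      exact min_le_right _ _
    have hev : ∀ᶠ x : ℝ in Filter.atTop, x ^ r * Real.exp (-(p * γ / 16) * x) < 1 / 2 := by
      have h1 := tendsto_rpow_mul_exp_neg_mul_atTop_nhds_zero (r : ℝ) (p * γ / 16)
        (by positivity)
      have h2 := h1.eventually (gt_mem_nhds (show (0 : ℝ) < 1 / 2 by norm_num))
      filter_upwards [h2] with x hx
      rwa [Real.rpow_natCast] at hx
    obtain ⟨x₀, hx₀⟩ := Filter.eventually_atTop.1 hev
    refine ⟨p * γ / 8, by positivity, max 1 (max ⌈x₀⌉₊ ⌈2 / γ⌉₊), ?_⟩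
    intro V _ _ hV Abs 𝒯 hAbs
    have hV1 : 1 ≤ Fintype.card V := (le_max_left _ _).trans hV
    have hVx : x₀ ≤ (Fintype.card V : ℝ) := by
      have : ⌈x₀⌉₊ ≤ Fintype.card V := ((le_max_left _ _).trans (le_max_right _ _)).trans hV
      exact (Nat.le_ceil _).trans (by exact_mod_cast this)
    have hVg : 2 / γ ≤ (Fintype.card V : ℝ) := by
      have : ⌈2 / γ⌉₊ ≤ Fintype.card V := ((le_max_right _ _).trans (le_max_right _ _)).trans hV
      exact (Nat.le_ceil _).trans (by exact_mod_cast this)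
    set n : ℝ := (Fintype.card V : ℝ) with hn
    have hn1 : (1 : ℝ) ≤ n := by rw [hn]; exact_mod_cast hV1
    rw [div_le_iff₀ hγ] at hVg
    set k : ℕ := ⌊γ * n⌋₊ with hk
    have hk1 : (k : ℝ) ≤ γ * n := Nat.floor_le (by positivity)
    have hk2 : γ * n / 2 ≤ (k : ℝ) := by
      have := Nat.lt_floor_add_one (γ * n)
      rw [← hk] at this
      linarith
    have hk3 : 1 ≤ k := by
      rw [hk, Nat.one_le_floor_iff]
      linarith
    have hk4 : (1 : ℝ) ≤ k := by exact_mod_cast hk3
    have hAbs' : ∀ T ∈ 𝒯, p * (Fintype.card (J × (H → V)) : ℝ) ≤ (Abs T).card := by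
      intro T hT
      refine le_trans ?_ (hAbs T hT)
      rw [Fintype.card_prod, Fintype.card_fun]
      push_cast
      rw [← mul_assoc]
      exact mul_le_mul_of_nonneg_right hpc (by positivity)
    have hsmall : (Fintype.card V : ℝ) ^ r * Real.exp (-(p * k / 8)) ≤ 1 / 2 := by
      refine le_trans ?_ (hx₀ n hVx).le
      apply mul_le_mul_of_nonneg_left _ (by positivity)
      apply Real.exp_le_exp.2
      have := mul_le_mul_of_nonneg_left hk2 hp0.le
      linarith
    obtain ⟨X, hX1, hX2⟩ := m2_sample p hp0.le k hk3 hJ1 hH hV1 Abs 𝒯 hAbs' hsmall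
    have hZ : ((m2_Z X).card : ℝ) ≤ p * k / 16 := by
      have h1 : n * ((m2_Z X).card : ℝ) ≤ n * (p * k / 16) := by
        refine hX2.trans ?_
        have h2 : (k : ℝ) * N ^ 2 * k ≤ k * N ^ 2 * (γ * n) :=
          mul_le_mul_of_nonneg_left hk1 (by positivity)
        have h3 : n * k * (γ * (64 * N ^ 2)) ≤ n * k * p :=
          mul_le_mul_of_nonneg_left hγ2 (by positivity)
        rw [← hN]
        nlinarith
      exact le_of_mul_le_mul_left h1 (by linarith)
    set G : Finset (Fin k) := univ.filter fun i =>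
      (∀ i', i ≠ i' → ∀ h h', (X i).2 h ≠ (X i').2 h') ∧ ∃ T ∈ 𝒯, X i ∈ Abs T with hG
    have hGinj : Set.InjOn X G := by
      intro i hi i' _ he
      by_contra hne
      rw [mem_coe, hG, mem_filter] at hi
      obtain ⟨h⟩ := ‹Nonempty H›
      exact hi.2.1 i' hne h h (by rw [he])
    refine ⟨G.image X, ?_, ?_, ?_, ?_⟩
    · have h1 : (G.image X).card ≤ k := by
        refine card_image_le.trans ((card_le_univ G).trans (le_of_eq ?_))
        rw [Fintype.card_fin]
      have h2 : ((G.image X).card : ℝ) ≤ k := by exact_mod_cast h1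
      refine h2.trans (hk1.trans ?_)
      exact mul_le_mul_of_nonneg_right hγ1 (by positivity)
    · intro a ha
      rw [mem_image] at ha
      obtain ⟨i, hi, rfl⟩ := ha
      rw [hG, mem_filter] at hi
      exact hi.2.2
    · intro a ha a' ha' hne h h'
      rw [mem_image] at ha ha'
      obtain ⟨i, hi, rfl⟩ := ha
      obtain ⟨i', hi', rfl⟩ := ha'
      rw [hG, mem_filter] at hi
      exact hi.2.1 i' (fun e => hne (by rw [e])) h h'
    · intro T hT
      have h1 : (G.image X).filter (fun a => a ∈ Abs T) = (G.filter fun i => X i ∈ Abs T).image X := by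
        rw [filter_image]
      rw [h1, card_image_of_injOn (hGinj.mono (by
        intro i hi
        rw [mem_coe] at hi ⊢
        exact (mem_filter.1 hi).1))]
      have h2 : (univ.filter fun i => X i ∈ Abs T) ⊆
          (G.filter fun i => X i ∈ Abs T) ∪ (m2_Z X).image Prod.fst := by
        intro i hi
        rw [mem_filter] at hi
        rw [mem_union]
        by_cases hb : ∀ i', i ≠ i' → ∀ h h', (X i).2 h ≠ (X i').2 h'
        · left
          rw [mem_filter, hG, mem_filter]
          exact ⟨⟨mem_univ _, hb, T, hT, hi.2⟩, hi.2⟩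
        · right
          push Not at hb
          obtain ⟨i', hne, h, h', he⟩ := hb
          rw [mem_image]
          exact ⟨(i, i'), (m2_memZ X _).2 ⟨hne, h, h', he⟩, rfl⟩
      have h3 : (univ.filter fun i => X i ∈ Abs T).card ≤
          (G.filter fun i => X i ∈ Abs T).card + (m2_Z X).card :=
        (card_le_card h2).trans ((card_union_le _ _).trans
          (Nat.add_le_add_left card_image_le _))
      have h4 : ((univ.filter fun i => X i ∈ Abs T).card : ℝ) ≤
          ((G.filter fun i => X i ∈ Abs T).card : ℝ) + ((m2_Z X).card : ℝ) := by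
        exact_mod_cast h3
      have h5 : p * k / 2 ≤ ((univ.filter fun i => X i ∈ Abs T).card : ℝ) := by
        convert hX1 T hT
      have h6 := mul_le_mul_of_nonneg_left hk2 hp0.le
      have h7 : 0 ≤ p * k := by positivity
      linarith

end Pool.Agent.Lib.TwoPaths
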