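import Pool.Agent.Lib.TwoPaths.Defs

/-!
# M3: blow-ups over general index types; slot gadgets

(cube_idx), (blow_idx): `cube_ineq` and `blow_card` (`Blowup.lean`) for tuples indexed by any finite
type `ι` instead of `Fin r` (transport along `Fintype.equivFin ι`).

(slots)  `R = RAdj c P`, `lam ≥ 1`, `ρ` a tuple of colour `κ`.  Let `Ab` be a set of tuples with
`∑_{y ∈ Ab} (RM R ^ lam) ρ y ≥ cc n^(r lam)`.  A *gadget* for `ρ` is a pair `W : Bool → Fin lam → Fin r → V` such that
`off W = (List.ofFn (W false)).reverse ++ List.ofFn (W true)` and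
`on W ρ = (List.ofFn (W false)).reverse ++ ρ :: List.ofFn (W true)` are chains of `R` and the first
and last tuples `W false (lam-1)`, `W true (lam-1)` are in `Ab`.
Claim: there are at least `cc^(2^(lam r)) n^(2 lam r)` gadgets.

PROOF.  Let `Γ` be the set of `w : Fin lam → Fin r → V` with `R ρ (w 0)`, `R (w i) (w (i+1))` for
`i + 1 < lam`, and `w (lam-1) ∈ Ab`.  `|Γ| = ∑_{y ∈ Ab} (RM R ^ lam) ρ y ≥ cc n^(r lam)` (expand the
matrix power as a number of walks).  View `w` as a function on `Fin lam × Fin r` and apply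
`cube_idx`: at least `(|Γ|/n^(r lam))^(2^(r lam)) n^(2 r lam)` pairs `(w⁰, w¹)` have all mixtures in
`Γ`.  Put `W false = w⁰`, `W true = w¹`.  `R` is symmetric (`Adj.symm`), so `(List.ofFn w⁰).reverse`
followed by `ρ`, and `ρ` followed by `List.ofFn w¹`, are chains; ends are in `Ab`.  For `off` we need
`R (w⁰ 0) (w¹ 0)`: both satisfy `P`; a mixture `mix (w⁰ 0) (w¹ 0) I` is the first tuple of the mixture
of `w⁰, w¹` over `{0} × I`, which is in `Γ`, so `R ρ (mix …)`, hence it has colour `κ` (`Adj.col`,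
`Col.unique`).  So `Adj c (w⁰ 0) (w¹ 0)` with colour `κ`.
-/

namespace Pool.Agent.Lib.TwoPaths

open Finset
open Pool.Agent.Lib.MP_952639_co

open Classical in
theorem blow_idx {V ι : Type*} [Fintype V] [Fintype ι] [DecidableEq ι] (hV : 0 < Fintype.card V) (M : ℕ)
    (A : Finset (ι → V)) :
    ((A.card : ℝ) / (Fintype.card V : ℝ) ^ Fintype.card ι) ^ (M ^ Fintype.card ι) *
        (Fintype.card V : ℝ) ^ (Fintype.card ι * M) ≤
      ((univ.filter fun U : ι × Fin M → V =>
        ∀ j : ι → Fin M, (fun i => U (i, j i)) ∈ A).card : ℝ) := by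
  obtain ⟨e⟩ : Nonempty (ι ≃ Fin (Fintype.card ι)) := ⟨Fintype.equivFin ι⟩
  set m := Fintype.card ι with hm
  set A' : Finset (Fin m → V) := A.image (fun x => x ∘ e.symm) with hA'
  have hcard : A'.card = A.card := by
    rw [hA']
    apply card_image_of_injective
    intro x y hxy
    funext i
    have := congrFun hxy (e i)
    simpa using this
  have hmem : ∀ x : Fin m → V, x ∈ A' → x ∘ e ∈ A := by
    intro x hx
    rw [hA', mem_image] at hx
    obtain ⟨a, ha, rfl⟩ := hx
    have : (a ∘ e.symm) ∘ e = a := by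
      funext i
      simp
    rwa [this]
  have h := blow_card hV M m A'
  rw [hcard] at h
  refine h.trans ?_
  norm_cast
  apply card_le_card_of_injOn (fun (U : Fin m → Fin M → V) (q : ι × Fin M) => U (e q.1) q.2)
  · intro U hU
    rw [mem_coe, mem_filter] at hU ⊢
    refine ⟨mem_univ _, fun j => ?_⟩
    have h1 := hmem _ (hU.2 (j ∘ e.symm))
    have h2 : ((fun i => U i ((j ∘ e.symm) i)) ∘ e) = fun i => U (e i) (j i) := by
      funext i
      simp
    rw [h2] at h1
    exact h1
  · intro U _ U' _ hUU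
    funext i k
    have := congrFun hUU (e.symm i, k)
    simpa using this

open Classical in
theorem cube_idx {V ι : Type*} [Fintype V] [Fintype ι] [DecidableEq ι] (hV : 0 < Fintype.card V)
    (A : Finset (ι → V)) :
    ((A.card : ℝ) / (Fintype.card V : ℝ) ^ Fintype.card ι) ^ (2 ^ Fintype.card ι) *
        (Fintype.card V : ℝ) ^ (2 * Fintype.card ι) ≤
      ((univ.filter fun p : (ι → V) × (ι → V) =>
        ∀ I : Finset ι, (fun i => if i ∈ I then p.2 i else p.1 i) ∈ A).card : ℝ) := by
  have h := blow_idx hV 2 A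
  rw [mul_comm (Fintype.card ι) 2] at h
  refine h.trans ?_
  norm_cast
  apply card_le_card_of_injOn (fun (U : ι × Fin 2 → V) => ((fun i => U (i, 0)), fun i => U (i, 1)))
  · intro U hU
    rw [mem_coe, mem_filter] at hU ⊢
    refine ⟨mem_univ _, fun I => ?_⟩
    have h1 := hU.2 (fun i => if i ∈ I then 1 else 0)
    have h2 : (fun i => U (i, if i ∈ I then 1 else 0)) =
        fun i => if i ∈ I then U (i, 1) else U (i, 0) := by
      funext i
      split_ifs <;> rfl
    rw [h2] at h1
    exact h1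
  · intro U _ U' _ hUU
    funext q
    obtain ⟨i, k⟩ := q
    rw [Prod.mk.injEq] at hUU
    fin_cases k
    · exact congrFun hUU.1 i
    · exact congrFun hUU.2 i

open Classical in
/-- Walks are counted by the powers of the matrix. -/
private lemma m3_walks {α : Type*} [Fintype α] [DecidableEq α] (R : α → α → Prop) (S : Finset α) (l : ℕ) :
    ∀ x, ∑ y ∈ S, (RM R ^ (l + 1)) x y =
      ((univ.filter fun w : Fin (l + 1) → α =>
        (x :: List.ofFn w).IsChain R ∧ w (Fin.last l) ∈ S).card : ℝ) := by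
  induction l with
  | zero =>
    intro x
    rw [card_filter, Nat.cast_sum]
    rw [Fintype.sum_equiv (Equiv.funUnique (Fin 1) α) _
      (fun a => ((if R x a ∧ a ∈ S then 1 else 0 : ℕ) : ℝ))
      (fun w => by
        have h1 : List.ofFn w = [w 0] := by simp
        have h2 : (x :: List.ofFn w).IsChain R ↔ R x (w 0) := by rw [h1]; simp
        have h3 : w (Fin.last 0) = w 0 := rfl
        have h4 : Equiv.funUnique (Fin 1) α w = w 0 := rfl
        rw [h3, h4]
        simp only [h2])]
    rw [zero_add, pow_one, ← sum_filter_add_sum_filter_not univ (fun a => a ∈ S)]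
    have h5 : ∑ a ∈ univ.filter (fun a => ¬ a ∈ S),
        ((if R x a ∧ a ∈ S then 1 else 0 : ℕ) : ℝ) = 0 := by
      apply sum_eq_zero
      intro a ha
      rw [mem_filter] at ha
      simp [ha.2]
    rw [h5, add_zero]
    have h6 : (univ.filter fun a => a ∈ S) = S := by ext a; simp
    rw [h6]
    apply sum_congr rfl
    intro a ha
    rw [RM]
    by_cases h : R x a
    · simp [h, ha]
    · simp [h]
  | succ l ih =>
    intro x
    rw [card_filter, Nat.cast_sum]
    have h1 : ∀ y, (RM R ^ (l + 1 + 1)) x y = ∑ z, RM R x z * (RM R ^ (l + 1)) z y := by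
      intro y
      rw [pow_succ', Matrix.mul_apply]
    simp only [h1]
    rw [sum_comm]
    have h2 : ∀ z, ∑ y ∈ S, RM R x z * (RM R ^ (l + 1)) z y =
        RM R x z * ∑ w : Fin (l + 1) → α,
          ((if (z :: List.ofFn w).IsChain R ∧ w (Fin.last l) ∈ S then 1 else 0 : ℕ) : ℝ) := by
      intro z
      rw [← mul_sum, ih z, card_filter, Nat.cast_sum]
    rw [sum_congr rfl fun z _ => h2 z]
    rw [← Fintype.sum_equiv (Fin.consEquiv (fun _ : Fin (l + 1 + 1) => α))
      (fun q : α × (Fin (l + 1) → α) => RM R x q.1 *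
        ((if (q.1 :: List.ofFn q.2).IsChain R ∧ q.2 (Fin.last l) ∈ S then 1 else 0 : ℕ) : ℝ)) _
      (fun q => ?_)]
    · rw [Fintype.sum_prod_type]
      apply sum_congr rfl
      intro z _
      rw [mul_sum]
    · obtain ⟨z, w⟩ := q
      have h3 : Fin.consEquiv (fun _ : Fin (l + 1 + 1) => α) (z, w) = Fin.cons z w := rfl
      rw [h3]
      have h4 : (x :: List.ofFn (Fin.cons z w : Fin (l + 1 + 1) → α)).IsChain R ↔
          R x z ∧ (z :: List.ofFn w).IsChain R := by
        rw [List.ofFn_cons, List.isChain_cons_cons]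
      have h5 : (Fin.cons z w : Fin (l + 1 + 1) → α) (Fin.last (l + 1)) = w (Fin.last l) := by
        rw [← Fin.succ_last, Fin.cons_succ]
      simp only [h4, h5, RM]
      by_cases h : R x z
      · simp [h]
      · simp [h]

/-- The two states of a slot. -/
def offSeg {V : Type*} {r lam : ℕ} (W : Bool → Fin lam → Fin r → V) : List (Fin r → V) :=
  (List.ofFn (W false)).reverse ++ List.ofFn (W true)

def onSeg {V : Type*} {r lam : ℕ} (W : Bool → Fin lam → Fin r → V) (ρ : Fin r → V) :
    List (Fin r → V) :=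
  (List.ofFn (W false)).reverse ++ ρ :: List.ofFn (W true)

/-- `W` is a slot gadget for `ρ` with ends in `Ab`. -/
def Gadget {V : Type*} [DecidableEq V] {r lam : ℕ} (R : (Fin r → V) → (Fin r → V) → Prop)
    (Ab : Finset (Fin r → V)) (W : Bool → Fin lam → Fin r → V) (ρ : Fin r → V) : Prop :=
  (offSeg W).IsChain R ∧ (onSeg W ρ).IsChain R ∧
    (∃ h ∈ Ab, (offSeg W).head? = some h ∧ (onSeg W ρ).head? = some h) ∧
    (∃ e ∈ Ab, (offSeg W).getLast? = some e ∧ (onSeg W ρ).getLast? = some e)

private lemma m3_symm {V : Type*} [Fintype V] [DecidableEq V] {r : ℕ} {c : Finset V → Bool}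
    {P : (Fin r → V) → Prop} {x y : Fin r → V} (h : RAdj c P x y) : RAdj c P y x :=
  ⟨h.1.symm, h.2.2, h.2.1⟩

private lemma m3_gadget {V : Type*} [Fintype V] [DecidableEq V] {r l : ℕ} {c : Finset V → Bool}
    {P : (Fin r → V) → Prop} {Ab : Finset (Fin r → V)} {ρ : Fin r → V}
    {W : Bool → Fin (l + 1) → Fin r → V}
    (hW : ∀ b, (ρ :: List.ofFn (W b)).IsChain (RAdj c P) ∧ W b (Fin.last l) ∈ Ab)
    (h01 : RAdj c P (W false 0) (W true 0)) : Gadget (RAdj c P) Ab W ρ := by
  have hofn : ∀ b, List.ofFn (W b) = W b 0 :: List.ofFn (fun i : Fin l => W b i.succ) :=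
    fun b => List.ofFn_succ
  have hlast : ∀ b, (List.ofFn (W b)).getLast? = some (W b (Fin.last l)) := by
    intro b
    rw [List.ofFn_succ', List.concat_eq_append, List.getLast?_append]
    simp
  have hhead : ∀ b, (List.ofFn (W b)).head? = some (W b 0) := by
    intro b
    rw [hofn]
    rfl
  have hρ : ∀ b, RAdj c P ρ (W b 0) := by
    intro b
    have h1 := (hW b).1
    rw [hofn, List.isChain_cons_cons] at h1
    exact h1.1
  have hch : ∀ b, (List.ofFn (W b)).IsChain (RAdj c P) := by
    intro b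
    have h1 := (hW b).1
    rw [hofn, List.isChain_cons_cons] at h1
    rw [hofn]
    exact h1.2
  have hrev : (List.ofFn (W false)).reverse.IsChain (RAdj c P) := by
    rw [List.isChain_reverse]
    exact (hch false).imp fun a b h => m3_symm h
  have hrl : (List.ofFn (W false)).reverse.getLast? = some (W false 0) := by
    rw [List.getLast?_reverse, hhead]
  have hrh : (List.ofFn (W false)).reverse.head? = some (W false (Fin.last l)) := by
    rw [List.head?_reverse, hlast]
  refine ⟨?_, ?_, ⟨W false (Fin.last l), (hW false).2, ?_, ?_⟩,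
    ⟨W true (Fin.last l), (hW true).2, ?_, ?_⟩⟩
  · refine List.IsChain.append hrev (hch true) ?_
    intro x hx y hy
    rw [hrl] at hx
    rw [hhead] at hy
    simp only [Option.mem_def, Option.some.injEq] at hx hy
    rw [← hx, ← hy]
    exact h01
  · refine List.IsChain.append hrev (hW true).1 ?_
    intro x hx y hy
    rw [hrl] at hx
    simp only [Option.mem_def, Option.some.injEq, List.head?_cons] at hx hy
    rw [← hx, ← hy]
    exact m3_symm (hρ false)
  · unfold offSeg
    rw [List.head?_append, hrh]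
    rfl
  · unfold onSeg
    rw [List.head?_append, hrh]
    rfl
  · unfold offSeg
    rw [List.getLast?_append, hlast]
    rfl
  · unfold onSeg
    rw [List.getLast?_append, List.getLast?_cons, hlast]
    rfl

private lemma m3_pair {V : Type*} [Fintype V] [DecidableEq V] {r l : ℕ} {c : Finset V → Bool}
    {P : (Fin r → V) → Prop} {Ab : Finset (Fin r → V)} {ρ : Fin r → V}
    (p q : Fin (l + 1) × Fin r → V)
    (hall : ∀ I : Finset (Fin (l + 1) × Fin r),
      (ρ :: List.ofFn (fun (a : Fin (l + 1)) (i : Fin r) =>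
        if (a, i) ∈ I then q (a, i) else p (a, i))).IsChain (RAdj c P) ∧
      (fun i : Fin r => if (Fin.last l, i) ∈ I then q (Fin.last l, i) else p (Fin.last l, i)) ∈ Ab) :
    Gadget (RAdj c P) Ab
      (fun (b : Bool) (a : Fin (l + 1)) (i : Fin r) => if b then q (a, i) else p (a, i)) ρ := by
  have hfirst : ∀ w : Fin (l + 1) → Fin r → V, (ρ :: List.ofFn w).IsChain (RAdj c P) →
      RAdj c P ρ (w 0) := by
    intro w h3
    rw [List.ofFn_succ, List.isChain_cons_cons] at h3
    exact h3.1
  have hp : (ρ :: List.ofFn (fun (a : Fin (l + 1)) (i : Fin r) => p (a, i))).IsChain (RAdj c P) ∧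
      (fun i : Fin r => p (Fin.last l, i)) ∈ Ab := by
    have := hall ∅
    simpa using this
  have hq : (ρ :: List.ofFn (fun (a : Fin (l + 1)) (i : Fin r) => q (a, i))).IsChain (RAdj c P) ∧
      (fun i : Fin r => q (Fin.last l, i)) ∈ Ab := by
    have := hall univ
    simpa using this
  apply m3_gadget
  · intro b
    cases b
    · simpa using hp
    · simpa using hq
  · have hp0 := hfirst _ hp.1
    have hq0 := hfirst _ hq.1
    refine ⟨⟨c (univ.image ρ), fun I => ?_⟩, ?_, ?_⟩
    · have h4 := hfirst _ (hall (({0} : Finset (Fin (l + 1))) ×ˢ I)).1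
      obtain ⟨κ, hκ1, hκ2⟩ := h4.1.col
      rw [hκ1.2]
      have h5 : (fun i : Fin r => if ((0 : Fin (l + 1)), i) ∈ ({0} : Finset (Fin (l + 1))) ×ˢ I
          then q (0, i) else p (0, i)) =
          mix (fun i => if (false : Bool) = true then q (0, i) else p (0, i))
            (fun i => if (true : Bool) = true then q (0, i) else p (0, i)) I := by
        funext i
        simp [mix]
      rw [h5] at hκ2
      exact hκ2
    · simpa using hp0.2.2
    · simpa using hq0.2.2

private lemma m3_cube {V ι : Type*} [Fintype V] [Fintype ι] [DecidableEq ι]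
    (hV : 0 < Fintype.card V) (A : Finset (ι → V)) :
    ∃ B : Finset ((ι → V) × (ι → V)),
      (∀ p ∈ B, ∀ I : Finset ι, (fun i => if i ∈ I then p.2 i else p.1 i) ∈ A) ∧
      ((A.card : ℝ) / (Fintype.card V : ℝ) ^ Fintype.card ι) ^ (2 ^ Fintype.card ι) *
        (Fintype.card V : ℝ) ^ (2 * Fintype.card ι) ≤ (B.card : ℝ) := by
  classical
  refine ⟨_, ?_, cube_idx hV A⟩
  intro p hp
  rw [mem_filter] at hp
  exact hp.2

private lemma m3_card {α β : Type*} [Fintype β] (Q : β → Prop) [DecidablePred Q] (B : Finset α)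
    (f : α → β) (hf : ∀ b ∈ B, Q (f b)) (hinj : Function.Injective f) :
    B.card ≤ (univ.filter Q).card := by
  apply card_le_card_of_injOn f
  · intro b hb
    rw [mem_coe] at hb ⊢
    exact mem_filter.2 ⟨mem_univ _, hf b hb⟩
  · intro a _ b _ h
    exact hinj h

open Classical in
theorem slots {V : Type*} [Fintype V] [DecidableEq V] {r : ℕ} (hV : 0 < Fintype.card V) (lam : ℕ)
    (hlam : 1 ≤ lam) (c : Finset V → Bool) (P : (Fin r → V) → Prop) (Ab : Finset (Fin r → V))
    (cc : ℝ) (hcc : 0 < cc) (ρ : Fin r → V)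
    (hρ : cc * (Fintype.card V : ℝ) ^ (r * lam) ≤ ∑ y ∈ Ab, (RM (RAdj c P) ^ lam) ρ y) :
    cc ^ (2 ^ (r * lam)) * (Fintype.card V : ℝ) ^ (2 * (r * lam)) ≤
      ((univ.filter fun W : Bool → Fin lam → Fin r → V => Gadget (RAdj c P) Ab W ρ).card : ℝ) := by
  obtain ⟨l, rfl⟩ : ∃ l, lam = l + 1 := ⟨lam - 1, by omega⟩
  replace hρ := hρ.trans_eq (m3_walks (RAdj c P) Ab l ρ)
  obtain ⟨Γ, hΓ⟩ : ∃ Γ : Finset (Fin (l + 1) → Fin r → V),
      Γ = univ.filter fun w : Fin (l + 1) → Fin r → V =>
        (ρ :: List.ofFn w).IsChain (RAdj c P) ∧ w (Fin.last l) ∈ Ab := ⟨_, rfl⟩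
  rw [← hΓ] at hρ
  have hΓm : ∀ w ∈ Γ, (ρ :: List.ofFn w).IsChain (RAdj c P) ∧ w (Fin.last l) ∈ Ab := by
    intro w hw
    rw [hΓ, mem_filter] at hw
    exact hw.2
  clear hΓ
  have hn : (0 : ℝ) < Fintype.card V := by exact_mod_cast hV
  obtain ⟨A, hA⟩ : ∃ A : Finset (Fin (l + 1) × Fin r → V), A = Γ.image Function.uncurry :=
    ⟨_, rfl⟩
  have hAcard : A.card = Γ.card := by
    rw [hA]
    apply card_image_of_injective
    intro w w' hww
    funext a i
    exact congrFun hww (a, i)
  have hAmem : ∀ x : Fin (l + 1) × Fin r → V, x ∈ A → (fun a i => x (a, i)) ∈ Γ := by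
    intro x hx
    rw [hA, mem_image] at hx
    obtain ⟨w, hw, rfl⟩ := hx
    exact hw
  clear hA
  have hι : Fintype.card (Fin (l + 1) × Fin r) = r * (l + 1) := by
    rw [Fintype.card_prod, Fintype.card_fin, Fintype.card_fin, mul_comm]
  obtain ⟨B, hB, h⟩ := m3_cube hV A
  rw [hι, hAcard] at h
  have h1 : cc ≤ (Γ.card : ℝ) / (Fintype.card V : ℝ) ^ (r * (l + 1)) := by
    rw [le_div_iff₀ (by positivity)]
    exact hρ
  have h2 : cc ^ (2 ^ (r * (l + 1))) * (Fintype.card V : ℝ) ^ (2 * (r * (l + 1))) ≤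
      ((Γ.card : ℝ) / (Fintype.card V : ℝ) ^ (r * (l + 1))) ^ (2 ^ (r * (l + 1))) *
        (Fintype.card V : ℝ) ^ (2 * (r * (l + 1))) :=
    mul_le_mul_of_nonneg_right (pow_le_pow_left₀ hcc.le h1 _) (by positivity)
  refine h2.trans (h.trans ?_)
  rw [Nat.cast_le]
  apply m3_card _ B (fun (q : (Fin (l + 1) × Fin r → V) × (Fin (l + 1) × Fin r → V))
    (b : Bool) (a : Fin (l + 1)) (i : Fin r) => if b then q.2 (a, i) else q.1 (a, i))
  · rintro ⟨p, q⟩ hpq
    refine m3_pair p q fun I => ?_
    exact hΓm _ (hAmem (fun x => if x ∈ I then q x else p x) (hB _ hpq I))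
  · rintro ⟨p, q⟩ ⟨p', q'⟩ he
    rw [Prod.mk.injEq]
    constructor
    · funext x
      have := congrFun (congrFun (congrFun he false) x.1) x.2
      simpa using this
    · funext x
      have := congrFun (congrFun (congrFun he true) x.1) x.2
      simpa using this

end Pool.Agent.Lib.TwoPaths
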