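import Pool.Agent.Lib.TwoPaths.MDefs
import Pool.Agent.Lib.TwoPaths.M2
import Pool.Agent.Lib.TwoPaths.M3

/-!
# M4: the absorber family

From core absorbers (`CoreAbs`, for every tuple `T ∈ 𝒯` a positive proportion of the pairs `(j, U)`)
we get a family of at most `γ₀ n` disjoint absorbers (`AbsFam`, `Valid`), each with at most `m₀` segments and
vertices, such that every `T ∈ 𝒯` is absorbed by at least `μ n` of them.

PROOF. `R = RAdj c P`, `n = |V|`.  Let `Sx` be the maximum over `j : J` of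
`(tm j).ini.length + (tm j).fin.length` (plus `1`), and `H' = H ⊕ (Fin Sx × Bool × Fin lam × Fin r)`
(nonempty because `r, lam, Sx ≥ 1`).  `m₀ = Sx + |H'| `.  For `U' : H' → V` let `U = U' ∘ inl` and
`W_s = fun ε i k => U' (inr (s, ε, i, k))`.
For `T`, let `Abs T` be the set of `(j, U') ∈ J × (H' → V)` with: `U'` injective with values outside
`F0`; with `a = (tm j).ini.length`, `a' = (tm j).fin.length`: for `s < a`, with `(β, ω)` the `s`-th
entry of `ini`: `Gadget R (A β) W_s (U ∘ ω)`; for `a ≤ s < a + a'`, with `(β, ω)` the `(s-a)`-th entry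
of `fin`: `Gadget R (A β) W_s (Sum.elim U T ∘ ω)`.

Count: for `(j, U)` with `CoreAbs K (tm j) U T` every tuple above lies in the corresponding `K β`, so
by (hKA) and `slots` it has at least `cg n^(2 r lam)` gadgets, `cg = cc^(2^(r lam)) ≤ 1` (WLOG
`cc ≤ 1`); the slots `s ≥ a + a'` are free.  So the number of `(j, U')` with all conditions except
injectivity and avoiding `F0` is at least `c₁ n^|H| (cg n^(2 r lam))^Sx = c₁ cg^Sx n^|H'|`.  At most
`|J| |H'|² n^(|H'|-1)` are not injective and at most `|J| |H'| |F0| n^(|H'|-1) ≤ |J| |H'| θ₀ n^|H'|` meet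
`F0`.  With `c₂ = c₁ cg^Sx/2`, `θ₀ = c₂/(2 |J| |H'| + 1)` and `n` large: `|Abs T| ≥ c₂ n^|H'|` for all
`T ∈ 𝒯`.  (If `J` is empty then `𝒯` is empty; take `N = 0`.)

`fam` gives `Fm`, `μ`.  `N = |Fm|`, enumerate `Fm`; for `a = (j, U') ∈ Fm` put
`m a = (tm j).ini.length + (tm j).fin.length`, the label of segment `s` is `β` as above, and
`I a s = onSeg W_s (U ∘ ω)` for `s < a`, `I a s = offSeg W_s` for the others.
`Valid`: chains and ends by `Gadget` (each `a ∈ Fm` is in `Abs T` for some `T`); the vertices of absorber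
`(j, U')` are `U'` at the gadget indices `inr (s, …)`, `s < m a`, and at `inl h`, `h` in the flattened
`ini` (each once, `ini_nodup`): distinct since `U'` is injective; different absorbers are disjoint by
`fam`; outside `F0`.  The number of vertices is at most `|H'| ≤ m₀`.
`Absorbs`: if `a = (j, U') ∈ Abs T`, take `F s = offSeg W_s` for `s < a` and
`F s = onSeg W_s (Sum.elim U T ∘ ω)` for the others: same ends; the vertices are the same gadget
vertices together with the flattened `fin` mapped by `Sum.elim U T`, which by `fin_nodup`, `inl_iff`,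
`inr_mem` is a permutation of (flattened `ini` mapped by `U`) `++ List.ofFn T`.
-/

namespace Pool.Agent.Lib.TwoPaths

open Finset
open Pool.Agent.Lib.MP_952639_co

section lists

variable {V : Type*} {r lam : ℕ}

private theorem vsf_append (l l' : List (Fin r → V)) : vs (l ++ l') = vs l ++ vs l' :=
  List.flatMap_append

private theorem vsf_flatten (L : List (List (Fin r → V))) :
    vs L.flatten = (L.map (fun l => vs l)).flatten := by
  induction L with
  | nil => rfl
  | cons l L ih => rw [List.flatten_cons, vsf_append, ih, List.map_cons, List.flatten_cons]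

private theorem on_perm (W : Bool → Fin lam → Fin r → V) (ρ : Fin r → V) :
    (vs (onSeg W ρ)).Perm (vs (offSeg W) ++ List.ofFn ρ) := by
  have h : vs (onSeg W ρ) = vs (List.ofFn (W false)).reverse ++
      (List.ofFn ρ ++ vs (List.ofFn (W true))) := by
    unfold onSeg
    rw [vsf_append]
    rfl
  rw [h]
  unfold offSeg
  rw [vsf_append, List.append_assoc]
  exact List.Perm.append_left _ List.perm_append_comm

private theorem on_perm_ofFn (k : ℕ) (W : Fin k → Bool → Fin lam → Fin r → V)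
    (ρ : Fin k → Fin r → V) :
    (vs (List.ofFn (fun s => onSeg (W s) (ρ s))).flatten).Perm
      (vs (List.ofFn (fun s => offSeg (W s))).flatten ++
        (List.ofFn (fun s => List.ofFn (ρ s))).flatten) := by
  induction k with
  | zero => simp
  | succ k ih =>
    rw [List.ofFn_succ, List.ofFn_succ (f := fun s => offSeg (W s)),
      List.ofFn_succ (f := fun s => List.ofFn (ρ s)), List.flatten_cons, List.flatten_cons,
      List.flatten_cons, vsf_append, vsf_append]
    have h1 := on_perm (W 0) (ρ 0)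
    have h2 := ih (fun s => W s.succ) (fun s => ρ s.succ)
    rw [← Multiset.coe_eq_coe] at h1 h2 ⊢
    simp only [← Multiset.coe_add] at h1 h2 ⊢
    rw [h1, h2]
    abel

private theorem mem_off {W : Bool → Fin lam → Fin r → V} {v : V} :
    v ∈ vs (offSeg W) ↔ ∃ ε i k, W ε i k = v := by
  unfold offSeg
  rw [List.mem_flatMap]
  constructor
  · rintro ⟨x, hx, hv⟩
    rw [List.mem_append, List.mem_reverse, List.mem_ofFn, List.mem_ofFn] at hx
    rw [List.mem_ofFn] at hv
    obtain ⟨k, rfl⟩ := hv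
    rcases hx with ⟨i, rfl⟩ | ⟨i, rfl⟩
    · exact ⟨false, i, k, rfl⟩
    · exact ⟨true, i, k, rfl⟩
  · rintro ⟨ε, i, k, rfl⟩
    refine ⟨W ε i, ?_, List.mem_ofFn.2 ⟨k, rfl⟩⟩
    rw [List.mem_append, List.mem_reverse, List.mem_ofFn, List.mem_ofFn]
    cases ε
    · exact Or.inl ⟨i, rfl⟩
    · exact Or.inr ⟨i, rfl⟩

private theorem nodup_off {W : Bool → Fin lam → Fin r → V}
    (h : ∀ ε i k ε' i' k', W ε i k = W ε' i' k' → ε = ε' ∧ i = i' ∧ k = k') :
    (vs (offSeg W)).Nodup := by
  unfold offSeg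
  rw [List.nodup_flatMap]
  constructor
  · intro x hx
    rw [List.mem_append, List.mem_reverse, List.mem_ofFn, List.mem_ofFn] at hx
    rw [List.nodup_ofFn]
    rcases hx with ⟨i, rfl⟩ | ⟨i, rfl⟩
    · intro k k' hk
      exact (h _ _ _ _ _ _ hk).2.2
    · intro k k' hk
      exact (h _ _ _ _ _ _ hk).2.2
  · rw [List.pairwise_append, List.pairwise_reverse]
    refine ⟨?_, ?_, ?_⟩
    · rw [List.pairwise_ofFn]
      intro i j hij v hv hv'
      rw [List.mem_ofFn] at hv hv'
      obtain ⟨k, hk⟩ := hv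
      obtain ⟨k', hk'⟩ := hv'
      exact absurd (h _ _ _ _ _ _ (hk.trans hk'.symm)).2.1 (by simpa using hij.ne')
    · rw [List.pairwise_ofFn]
      intro i j hij v hv hv'
      rw [List.mem_ofFn] at hv hv'
      obtain ⟨k, hk⟩ := hv
      obtain ⟨k', hk'⟩ := hv'
      exact absurd (h _ _ _ _ _ _ (hk.trans hk'.symm)).2.1 (by simpa using hij.ne)
    · intro x hx y hy v hv hv'
      rw [List.mem_reverse, List.mem_ofFn] at hx
      rw [List.mem_ofFn] at hy
      obtain ⟨i, rfl⟩ := hx
      obtain ⟨j, rfl⟩ := hy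
      rw [List.mem_ofFn] at hv hv'
      obtain ⟨k, hk⟩ := hv
      obtain ⟨k', hk'⟩ := hv'
      exact absurd (h _ _ _ _ _ _ (hk.trans hk'.symm)).1 (by simp)

private theorem mem_offs {k : ℕ} {W : Fin k → Bool → Fin lam → Fin r → V} {v : V} :
    v ∈ vs (List.ofFn (fun s => offSeg (W s))).flatten ↔ ∃ s ε i k, W s ε i k = v := by
  rw [vsf_flatten, List.map_ofFn, List.mem_flatten]
  constructor
  · rintro ⟨l, hl, hv⟩
    rw [List.mem_ofFn] at hl
    obtain ⟨s, rfl⟩ := hl
    exact ⟨s, mem_off.1 hv⟩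
  · rintro ⟨s, h⟩
    exact ⟨_, List.mem_ofFn.2 ⟨s, rfl⟩, mem_off.2 h⟩

private theorem nodup_offs {k : ℕ} {W : Fin k → Bool → Fin lam → Fin r → V}
    (h : ∀ s ε i k s' ε' i' k', W s ε i k = W s' ε' i' k' → s = s' ∧ ε = ε' ∧ i = i' ∧ k = k') :
    (vs (List.ofFn (fun s => offSeg (W s))).flatten).Nodup := by
  rw [vsf_flatten, List.map_ofFn, List.nodup_flatten]
  constructor
  · intro l hl
    rw [List.mem_ofFn] at hl
    obtain ⟨s, rfl⟩ := hl
    exact nodup_off (fun ε i k ε' i' k' hh => (h s ε i k s ε' i' k' hh).2)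
  · rw [List.pairwise_ofFn]
    intro s s' hs v hv hv'
    obtain ⟨ε, i, k, hk⟩ := mem_off.1 hv
    obtain ⟨ε', i', k', hk'⟩ := mem_off.1 hv'
    exact absurd (h _ _ _ _ _ _ _ _ (hk.trans hk'.symm)).1 hs.ne

end lists


section absorber

variable {V : Type} [DecidableEq V] {r lam Sx : ℕ} {H : Type}

/-- the gadget in slot `s` -/
private def Wf (U' : H ⊕ (Fin Sx × Bool × Fin lam × Fin r) → V) (s : Fin Sx) :
    Bool → Fin lam → Fin r → V := fun ε i k => U' (Sum.inr (s, ε, i, k))

private def segI (t : Template r H) (h : t.ini.length + t.fin.length ≤ Sx)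
    (U' : H ⊕ (Fin Sx × Bool × Fin lam × Fin r) → V) :
    Fin (t.ini.length + t.fin.length) → List (Fin r → V) :=
  Fin.append (fun s => onSeg (Wf U' (Fin.castLE h (Fin.castAdd t.fin.length s)))
      ((fun x => U' (Sum.inl x)) ∘ (t.ini.get s).2))
    (fun s => offSeg (Wf U' (Fin.castLE h (Fin.natAdd t.ini.length s))))

private def segF (t : Template r H) (h : t.ini.length + t.fin.length ≤ Sx)
    (U' : H ⊕ (Fin Sx × Bool × Fin lam × Fin r) → V) (T : Fin r → V) :
    Fin (t.ini.length + t.fin.length) → List (Fin r → V) :=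
  Fin.append (fun s => offSeg (Wf U' (Fin.castLE h (Fin.castAdd t.fin.length s))))
    (fun s => onSeg (Wf U' (Fin.castLE h (Fin.natAdd t.ini.length s)))
      (Sum.elim (fun x => U' (Sum.inl x)) T ∘ (t.fin.get s).2))

private def lab (t : Template r H) : Fin (t.ini.length + t.fin.length) → Bool :=
  Fin.append (fun s => (t.ini.get s).1) (fun s => (t.fin.get s).1)

private def gad (t : Template r H) (h : t.ini.length + t.fin.length ≤ Sx)
    (U' : H ⊕ (Fin Sx × Bool × Fin lam × Fin r) → V) : List V :=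
  vs (List.ofFn (fun s : Fin (t.ini.length + t.fin.length) =>
    offSeg (Wf U' (Fin.castLE h s)))).flatten

omit [DecidableEq V] in
private theorem perm_segI (t : Template r H) (h : t.ini.length + t.fin.length ≤ Sx)
    (U' : H ⊕ (Fin Sx × Bool × Fin lam × Fin r) → V) :
    (vs (List.ofFn (segI t h U')).flatten).Perm
      (gad t h U' ++ (t.ini.flatMap fun p => List.ofFn p.2).map (fun x => U' (Sum.inl x))) := by
  have h1 := on_perm_ofFn t.ini.length
    (fun s => Wf U' (Fin.castLE h (Fin.castAdd t.fin.length s)))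
    (fun s => (fun x => U' (Sum.inl x)) ∘ (t.ini.get s).2)
  have h2 : (List.ofFn (fun s => List.ofFn ((fun x => U' (Sum.inl x)) ∘ (t.ini.get s).2))).flatten =
      (t.ini.flatMap fun p => List.ofFn p.2).map (fun x => U' (Sum.inl x)) := by
    have h3 : List.ofFn (fun s => List.ofFn ((fun x => U' (Sum.inl x)) ∘ (t.ini.get s).2)) =
        t.ini.map (fun p => List.ofFn ((fun x => U' (Sum.inl x)) ∘ p.2)) := by
      conv_rhs => rw [← List.ofFn_get t.ini, List.map_ofFn]
      rfl
    rw [h3, List.map_flatMap, List.flatMap_def]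
    congr 1
    refine List.map_congr_left (fun p _ => ?_)
    rw [List.map_ofFn]
  rw [h2] at h1
  have h5 : (List.ofFn fun s : Fin (t.ini.length + t.fin.length) =>
      offSeg (Wf U' (Fin.castLE h s))) =
      (List.ofFn fun s => offSeg (Wf U' (Fin.castLE h (Fin.castAdd t.fin.length s)))) ++
      List.ofFn fun s => offSeg (Wf U' (Fin.castLE h (Fin.natAdd t.ini.length s))) :=
    List.ofFn_add
  unfold segI gad
  rw [List.ofFn_fin_append, List.flatten_append, vsf_append, h5, List.flatten_append,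
    vsf_append]
  rw [← Multiset.coe_eq_coe] at h1 ⊢
  simp only [← Multiset.coe_add] at h1 ⊢
  rw [h1]
  abel

omit [DecidableEq V] in
private theorem perm_segF (t : Template r H) (h : t.ini.length + t.fin.length ≤ Sx)
    (U' : H ⊕ (Fin Sx × Bool × Fin lam × Fin r) → V) (T : Fin r → V) :
    (vs (List.ofFn (segF t h U' T)).flatten).Perm
      (gad t h U' ++ (t.fin.flatMap fun p => List.ofFn p.2).map
        (Sum.elim (fun x => U' (Sum.inl x)) T)) := by
  have h1 := on_perm_ofFn t.fin.length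
    (fun s => Wf U' (Fin.castLE h (Fin.natAdd t.ini.length s)))
    (fun s => Sum.elim (fun x => U' (Sum.inl x)) T ∘ (t.fin.get s).2)
  have h2 : (List.ofFn (fun s => List.ofFn (Sum.elim (fun x => U' (Sum.inl x)) T ∘
      (t.fin.get s).2))).flatten =
      (t.fin.flatMap fun p => List.ofFn p.2).map (Sum.elim (fun x => U' (Sum.inl x)) T) := by
    have h3 : List.ofFn (fun s => List.ofFn (Sum.elim (fun x => U' (Sum.inl x)) T ∘
        (t.fin.get s).2)) =
        t.fin.map (fun p => List.ofFn (Sum.elim (fun x => U' (Sum.inl x)) T ∘ p.2)) := by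
      conv_rhs => rw [← List.ofFn_get t.fin, List.map_ofFn]
      rfl
    rw [h3, List.map_flatMap, List.flatMap_def]
    congr 1
    refine List.map_congr_left (fun p _ => ?_)
    rw [List.map_ofFn]
  rw [h2] at h1
  have h5 : (List.ofFn fun s : Fin (t.ini.length + t.fin.length) =>
      offSeg (Wf U' (Fin.castLE h s))) =
      (List.ofFn fun s => offSeg (Wf U' (Fin.castLE h (Fin.castAdd t.fin.length s)))) ++
      List.ofFn fun s => offSeg (Wf U' (Fin.castLE h (Fin.natAdd t.ini.length s))) :=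
    List.ofFn_add
  unfold segF gad
  rw [List.ofFn_fin_append, List.flatten_append, vsf_append, h5, List.flatten_append,
    vsf_append]
  rw [← Multiset.coe_eq_coe] at h1 ⊢
  simp only [← Multiset.coe_add] at h1 ⊢
  rw [h1]
  abel

private theorem perm_idx (t : Template r H) :
    (t.fin.flatMap fun p => List.ofFn p.2).Perm
      ((t.ini.flatMap fun p => List.ofFn p.2).map Sum.inl ++ List.ofFn (fun i : Fin r => Sum.inr i)) := by
  rw [List.perm_ext_iff_of_nodup t.fin_nodup]
  · intro x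
    rw [List.mem_append, List.mem_map, List.mem_ofFn]
    cases x with
    | inl a =>
      rw [t.inl_iff]
      constructor
      · intro ha
        exact Or.inl ⟨a, ha, rfl⟩
      · rintro (⟨b, hb, hab⟩ | ⟨i, hi⟩)
        · rw [← Sum.inl.inj hab]
          exact hb
        · exact absurd hi (by simp)
    | inr i =>
      constructor
      · intro _
        exact Or.inr ⟨i, rfl⟩
      · intro _
        exact t.inr_mem i
  · rw [List.nodup_append]
    refine ⟨t.ini_nodup.map Sum.inl_injective, ?_, ?_⟩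
    · rw [List.nodup_ofFn]
      exact Sum.inr_injective
    · intro x hx y hy hxy
      rw [List.mem_map] at hx
      rw [List.mem_ofFn] at hy
      obtain ⟨a, _, rfl⟩ := hx
      obtain ⟨i, rfl⟩ := hy
      exact absurd hxy (by simp)

omit [DecidableEq V] in
private theorem perm_FI (t : Template r H) (h : t.ini.length + t.fin.length ≤ Sx)
    (U' : H ⊕ (Fin Sx × Bool × Fin lam × Fin r) → V) (T : Fin r → V) :
    (vs (List.ofFn (segF t h U' T)).flatten).Perm
      (vs (List.ofFn (segI t h U')).flatten ++ List.ofFn T) := by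
  have h1 := perm_segI t h U'
  have h2 := perm_segF t h U' T
  have h3 := (perm_idx t).map (Sum.elim (fun x => U' (Sum.inl x)) T)
  have h4 : (((t.ini.flatMap fun p : Bool × (Fin r → H) => List.ofFn p.2).map Sum.inl ++
      List.ofFn (fun i : Fin r => (Sum.inr i : H ⊕ Fin r))).map
        (Sum.elim (fun x => U' (Sum.inl x)) T)) =
      (t.ini.flatMap fun p => List.ofFn p.2).map (fun x => U' (Sum.inl x)) ++ List.ofFn T := by
    rw [List.map_append, List.map_map, List.map_ofFn]
    rfl
  rw [h4] at h3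
  rw [← Multiset.coe_eq_coe] at h1 h2 h3 ⊢
  simp only [← Multiset.coe_add] at h1 h2 h3 ⊢
  rw [h1, h2, h3]
  abel

omit [DecidableEq V] in
private theorem mem_segI {t : Template r H} {h : t.ini.length + t.fin.length ≤ Sx}
    {U' : H ⊕ (Fin Sx × Bool × Fin lam × Fin r) → V} {v : V}
    (hv : v ∈ vs (List.ofFn (segI t h U')).flatten) : ∃ x, U' x = v := by
  rw [(perm_segI t h U').mem_iff, List.mem_append] at hv
  rcases hv with hv | hv
  · unfold gad at hv
    obtain ⟨s, ε, i, k, rfl⟩ := mem_offs.1 hv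
    exact ⟨_, rfl⟩
  · rw [List.mem_map] at hv
    obtain ⟨x, _, rfl⟩ := hv
    exact ⟨_, rfl⟩

omit [DecidableEq V] in
private theorem nodup_segI (t : Template r H) (h : t.ini.length + t.fin.length ≤ Sx)
    {U' : H ⊕ (Fin Sx × Bool × Fin lam × Fin r) → V} (hU : Function.Injective U') :
    (vs (List.ofFn (segI t h U')).flatten).Nodup := by
  rw [(perm_segI t h U').nodup_iff, List.nodup_append]
  refine ⟨?_, ?_, ?_⟩
  · unfold gad
    refine nodup_offs (fun s ε i k s' ε' i' k' hh => ?_)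
    have h1 := Sum.inr.inj (hU hh)
    rw [Prod.mk.injEq, Prod.mk.injEq, Prod.mk.injEq] at h1
    exact ⟨Fin.castLE_injective h h1.1, h1.2.1, h1.2.2.1, h1.2.2.2⟩
  · exact t.ini_nodup.map (fun x y hxy => Sum.inl.inj (hU hxy))
  · intro x hx y hy hxy
    unfold gad at hx
    obtain ⟨s, ε, i, k, rfl⟩ := mem_offs.1 hx
    rw [List.mem_map] at hy
    obtain ⟨z, _, rfl⟩ := hy
    exact absurd (hU hxy) (by simp)

omit [DecidableEq V] in
private theorem length_segI [Fintype H] (t : Template r H)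
    (h : t.ini.length + t.fin.length ≤ Sx)
    {U' : H ⊕ (Fin Sx × Bool × Fin lam × Fin r) → V} (hU : Function.Injective U') :
    (vs (List.ofFn (segI t h U')).flatten).length ≤
      Fintype.card (H ⊕ (Fin Sx × Bool × Fin lam × Fin r)) := by
  classical
  rw [← List.toFinset_card_of_nodup (nodup_segI t h hU)]
  have h1 : (vs (List.ofFn (segI t h U')).flatten).toFinset ⊆ univ.image U' := by
    intro v hv
    rw [List.mem_toFinset] at hv
    obtain ⟨x, hx⟩ := mem_segI hv
    rw [Finset.mem_image]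
    exact ⟨x, Finset.mem_univ _, hx⟩
  exact (Finset.card_le_card h1).trans (Finset.card_image_le.trans (by rw [Finset.card_univ]))

/-- the conditions on the gadgets -/
private def GdI (R : (Fin r → V) → (Fin r → V) → Prop) (A : Bool → Finset (Fin r → V))
    (t : Template r H) (h : t.ini.length + t.fin.length ≤ Sx)
    (U' : H ⊕ (Fin Sx × Bool × Fin lam × Fin r) → V) : Prop :=
  ∀ s : Fin t.ini.length, Gadget R (A (t.ini.get s).1)
    (Wf U' (Fin.castLE h (Fin.castAdd t.fin.length s)))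
    ((fun x => U' (Sum.inl x)) ∘ (t.ini.get s).2)

private def GdF (R : (Fin r → V) → (Fin r → V) → Prop) (A : Bool → Finset (Fin r → V))
    (t : Template r H) (h : t.ini.length + t.fin.length ≤ Sx)
    (U' : H ⊕ (Fin Sx × Bool × Fin lam × Fin r) → V) (T : Fin r → V) : Prop :=
  ∀ s : Fin t.fin.length, Gadget R (A (t.fin.get s).1)
    (Wf U' (Fin.castLE h (Fin.natAdd t.ini.length s)))
    (Sum.elim (fun x => U' (Sum.inl x)) T ∘ (t.fin.get s).2)

private theorem segI_ok {R : (Fin r → V) → (Fin r → V) → Prop} {A : Bool → Finset (Fin r → V)}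
    {t : Template r H} {h : t.ini.length + t.fin.length ≤ Sx}
    {U' : H ⊕ (Fin Sx × Bool × Fin lam × Fin r) → V} {T : Fin r → V}
    (hI : GdI R A t h U') (hF : GdF R A t h U' T) (s : Fin (t.ini.length + t.fin.length)) :
    (segI t h U' s).IsChain R ∧ ∃ a ∈ A (lab t s), ∃ e ∈ A (lab t s),
      (segI t h U' s).head? = some a ∧ (segI t h U' s).getLast? = some e := by
  unfold segI lab
  refine Fin.addCases (fun s => ?_) (fun s => ?_) s
  · rw [Fin.append_left, Fin.append_left]
    obtain ⟨-, h2, ⟨a, ha, -, ha2⟩, e, he, -, he2⟩ := hI s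
    exact ⟨h2, a, ha, e, he, ha2, he2⟩
  · rw [Fin.append_right, Fin.append_right]
    obtain ⟨h1, -, ⟨a, ha, ha1, -⟩, e, he, he1, -⟩ := hF s
    exact ⟨h1, a, ha, e, he, ha1, he1⟩

private theorem segF_ok {R : (Fin r → V) → (Fin r → V) → Prop} {A : Bool → Finset (Fin r → V)}
    {t : Template r H} {h : t.ini.length + t.fin.length ≤ Sx}
    {U' : H ⊕ (Fin Sx × Bool × Fin lam × Fin r) → V} {T : Fin r → V}
    (hI : GdI R A t h U') (hF : GdF R A t h U' T) (s : Fin (t.ini.length + t.fin.length)) :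
    (segF t h U' T s).IsChain R ∧ (segF t h U' T s).head? = (segI t h U' s).head? ∧
      (segF t h U' T s).getLast? = (segI t h U' s).getLast? := by
  unfold segI segF
  refine Fin.addCases (fun s => ?_) (fun s => ?_) s
  · rw [Fin.append_left, Fin.append_left]
    obtain ⟨h1, -, ⟨a, -, ha1, ha2⟩, e, -, he1, he2⟩ := hI s
    exact ⟨h1, ha1.trans ha2.symm, he1.trans he2.symm⟩
  · rw [Fin.append_right, Fin.append_right]
    obtain ⟨-, h2, ⟨a, -, ha1, ha2⟩, e, -, he1, he2⟩ := hF s
    exact ⟨h2, ha2.trans ha1.symm, he2.trans he1.symm⟩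

end absorber

section counting

variable {V ι : Type} [Fintype V] [DecidableEq V] [Fintype ι] [DecidableEq ι]

private theorem card_eq_le (h h' : ι) (hh : h ≠ h') :
    (univ.filter fun U : ι → V => U h = U h').card * Fintype.card V ≤
      Fintype.card V ^ Fintype.card ι := by
  classical
  rw [← Finset.card_univ (α := V), ← Finset.card_product]
  have h1 : ((univ.filter fun U : ι → V => U h = U h') ×ˢ (univ : Finset V)).card ≤
      (univ : Finset (ι → V)).card := by
    refine Finset.card_le_card_of_injOn (fun p => Function.update p.1 h p.2)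
      (fun _ _ => Finset.mem_coe.2 (Finset.mem_univ _)) ?_
    rintro ⟨U, v⟩ hU ⟨U', v'⟩ hU' he
    rw [Finset.mem_coe, Finset.mem_product, Finset.mem_filter] at hU hU'
    simp only at he hU hU'
    have hv : v = v' := by
      have := congrFun he h
      rwa [Function.update_self, Function.update_self] at this
    have ho : ∀ i, i ≠ h → U i = U' i := by
      intro i hi
      have := congrFun he i
      rwa [Function.update_of_ne hi, Function.update_of_ne hi] at this
    have hU1 : U = U' := by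
      funext i
      by_cases hi : i = h
      · rw [hi, hU.1.2, hU'.1.2]
        exact ho h' hh.symm
      · exact ho i hi
    rw [hU1, hv]
  refine h1.trans ?_
  rw [Finset.card_univ, Fintype.card_fun, Finset.card_univ]

private theorem card_mem_le (h : ι) (F0 : Finset V) :
    (univ.filter fun U : ι → V => U h ∈ F0).card * Fintype.card V ≤
      F0.card * Fintype.card V ^ Fintype.card ι := by
  classical
  rw [← Finset.card_univ (α := V), ← Finset.card_product]
  have h1 : ((univ.filter fun U : ι → V => U h ∈ F0) ×ˢ (univ : Finset V)).card ≤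
      (F0 ×ˢ (univ : Finset (ι → V))).card := by
    refine Finset.card_le_card_of_injOn (fun p => (p.1 h, Function.update p.1 h p.2)) ?_ ?_
    · rintro ⟨U, v⟩ hU
      rw [Finset.mem_coe, Finset.mem_product, Finset.mem_filter] at hU
      rw [Finset.mem_coe, Finset.mem_product]
      exact ⟨hU.1.2, Finset.mem_univ _⟩
    · rintro ⟨U, v⟩ hU ⟨U', v'⟩ hU' he
      simp only [Prod.mk.injEq] at he
      have hv : v = v' := by
        have := congrFun he.2 h
        rwa [Function.update_self, Function.update_self] at this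
      have hU1 : U = U' := by
        funext i
        by_cases hi : i = h
        · rw [hi]
          exact he.1
        · have := congrFun he.2 i
          rwa [Function.update_of_ne hi, Function.update_of_ne hi] at this
      rw [hU1, hv]
  refine h1.trans ?_
  rw [Finset.card_product, Finset.card_univ, Fintype.card_fun, Finset.card_univ]

open Classical in
/-- the functions which are not injective or meet `F0` -/
private theorem card_bad_le (F0 : Finset V) :
    ((univ.filter fun U : ι → V => ¬ (Function.Injective U ∧ ∀ h, U h ∉ F0)).card : ℝ) *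
      Fintype.card V ≤
      ((Fintype.card ι : ℝ) ^ 2 + Fintype.card ι * F0.card) *
        (Fintype.card V : ℝ) ^ Fintype.card ι := by
  have hsub : (univ.filter fun U : ι → V => ¬ (Function.Injective U ∧ ∀ h, U h ∉ F0)) ⊆
      ((univ : Finset (ι × ι)).filter (fun p => p.1 ≠ p.2)).biUnion
        (fun p => univ.filter fun U : ι → V => U p.1 = U p.2) ∪
      (univ : Finset ι).biUnion (fun h => univ.filter fun U : ι → V => U h ∈ F0) := by
    intro U hU
    rw [Finset.mem_filter] at hU
    rw [Finset.mem_union, Finset.mem_biUnion, Finset.mem_biUnion]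
    by_cases h1 : Function.Injective U
    · right
      by_contra h2
      refine hU.2 ⟨h1, fun h h3 => h2 ⟨h, Finset.mem_univ _, ?_⟩⟩
      rw [Finset.mem_filter]
      exact ⟨Finset.mem_univ _, h3⟩
    · left
      unfold Function.Injective at h1
      push Not at h1
      obtain ⟨a, b, hab, hne⟩ := h1
      refine ⟨(a, b), ?_, ?_⟩
      · rw [Finset.mem_filter]
        exact ⟨Finset.mem_univ _, hne⟩
      · rw [Finset.mem_filter]
        exact ⟨Finset.mem_univ _, hab⟩
  have h1 : (univ.filter fun U : ι → V => ¬ (Function.Injective U ∧ ∀ h, U h ∉ F0)).card *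
      Fintype.card V ≤
      (Fintype.card ι ^ 2 + Fintype.card ι * F0.card) * Fintype.card V ^ Fintype.card ι := by
    refine (Nat.mul_le_mul_right _ ((Finset.card_le_card hsub).trans
      (Finset.card_union_le _ _))).trans ?_
    rw [Nat.add_mul, Nat.add_mul]
    refine Nat.add_le_add ?_ ?_
    · refine (Nat.mul_le_mul_right _ Finset.card_biUnion_le).trans ?_
      rw [Finset.sum_mul]
      refine (Finset.sum_le_card_nsmul _ _ (Fintype.card V ^ Fintype.card ι) ?_).trans ?_
      · rintro ⟨a, b⟩ hab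
        rw [Finset.mem_filter] at hab
        exact card_eq_le a b hab.2
      · rw [smul_eq_mul]
        refine Nat.mul_le_mul_right _ ((Finset.card_le_univ _).trans ?_)
        rw [Fintype.card_prod, sq]
    · refine (Nat.mul_le_mul_right _ Finset.card_biUnion_le).trans ?_
      rw [Finset.sum_mul]
      refine (Finset.sum_le_card_nsmul _ _ (F0.card * Fintype.card V ^ Fintype.card ι) ?_).trans ?_
      · intro h _
        exact card_mem_le h F0
      · rw [smul_eq_mul, Finset.card_univ, Nat.mul_assoc]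
  exact_mod_cast h1

end counting

section fibres

variable {V : Type} [Fintype V] [DecidableEq V] {r lam Sx : ℕ} {H J : Type} [Fintype H]
  [DecidableEq H] [Fintype J]

open Classical in
private theorem count_core (Core : Finset (J × (H → V)))
    (G : J × (H → V) → Fin Sx → Finset (Bool → Fin lam → Fin r → V)) (g : ℝ) (hg : 0 ≤ g)
    (hG : ∀ q ∈ Core, ∀ s, g ≤ ((G q s).card : ℝ)) :
    (Core.card : ℝ) * g ^ Sx ≤
      ((univ.filter fun q : J × (H ⊕ (Fin Sx × Bool × Fin lam × Fin r) → V) =>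
        (q.1, fun x => q.2 (Sum.inl x)) ∈ Core ∧
          ∀ s, Wf q.2 s ∈ G (q.1, fun x => q.2 (Sum.inl x)) s).card : ℝ) := by
  have h1 : (Core.sigma (fun q => Fintype.piFinset (G q))).card ≤
      (univ.filter fun q : J × (H ⊕ (Fin Sx × Bool × Fin lam × Fin r) → V) =>
        (q.1, fun x => q.2 (Sum.inl x)) ∈ Core ∧
          ∀ s, Wf q.2 s ∈ G (q.1, fun x => q.2 (Sum.inl x)) s).card := by
    refine Finset.card_le_card_of_injOn
      (fun p => (p.1.1, Sum.elim p.1.2 (fun y => p.2 y.1 y.2.1 y.2.2.1 y.2.2.2))) ?_ ?_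
    · rintro ⟨⟨j, U⟩, W⟩ hp
      rw [Finset.mem_coe, Finset.mem_sigma, Fintype.mem_piFinset] at hp
      rw [Finset.mem_coe, Finset.mem_filter]
      refine ⟨Finset.mem_univ _, hp.1, fun s => ?_⟩
      exact hp.2 s
    · rintro ⟨⟨j, U⟩, W⟩ _ ⟨⟨j', U'⟩, W'⟩ _ he
      simp only [Prod.mk.injEq] at he
      obtain ⟨h2, h3⟩ := he
      have h4 : U = U' := by
        funext x
        exact congrFun h3 (Sum.inl x)
      have h5 : W = W' := by
        funext s ε i k
        exact congrFun h3 (Sum.inr (s, ε, i, k))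
      subst h2 h4 h5
      rfl
  rw [Finset.card_sigma] at h1
  have h2 : ∑ q ∈ Core, g ^ Sx ≤ ∑ q ∈ Core, ((Fintype.piFinset (G q)).card : ℝ) := by
    refine Finset.sum_le_sum (fun q hq => ?_)
    rw [Fintype.card_piFinset]
    push_cast
    have h3 : g ^ Sx = ∏ _s : Fin Sx, g := by
      rw [Finset.prod_const, Finset.card_univ, Fintype.card_fin]
    rw [h3]
    exact Finset.prod_le_prod (fun _ _ => hg) (fun s _ => hG q hq s)
  rw [Finset.sum_const, nsmul_eq_mul] at h2
  refine h2.trans ?_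
  exact_mod_cast h1

open Classical in
private theorem slot_count (hV : 0 < Fintype.card V) (hlam : 1 ≤ lam) (c : Finset V → Bool)
    (P : (Fin r → V) → Prop) (A K : Bool → Finset (Fin r → V)) (cc : ℝ) (hcc : 0 < cc)
    (hcc1 : cc ≤ 1)
    (hKA : ∀ b, ∀ x ∈ K b, cc * (Fintype.card V : ℝ) ^ (r * lam) ≤
      ∑ y ∈ A b, (RM (RAdj c P) ^ lam) x y)
    (t : Template r H) (h : t.ini.length + t.fin.length ≤ Sx) (U : H → V) (T : Fin r → V)
    (hcore : CoreAbs K t U T) (s : Fin Sx) :
    cc ^ (2 ^ (r * lam)) * (Fintype.card V : ℝ) ^ (2 * (r * lam)) ≤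
      ((univ.filter fun W : Bool → Fin lam → Fin r → V =>
        (∀ s' : Fin t.ini.length, Fin.castLE h (Fin.castAdd t.fin.length s') = s →
          Gadget (RAdj c P) (A (t.ini.get s').1) W (U ∘ (t.ini.get s').2)) ∧
        (∀ s' : Fin t.fin.length, Fin.castLE h (Fin.natAdd t.ini.length s') = s →
          Gadget (RAdj c P) (A (t.fin.get s').1) W
            (Sum.elim U T ∘ (t.fin.get s').2))).card : ℝ) := by
  have hnat : ∀ (s1 : Fin t.ini.length) (s2 : Fin t.fin.length),
      Fin.castLE h (Fin.castAdd t.fin.length s1) ≠ Fin.castLE h (Fin.natAdd t.ini.length s2) := by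
    intro s1 s2 he
    have h1 := congrArg Fin.val he
    simp only [Fin.val_castLE, Fin.val_castAdd, Fin.val_natAdd] at h1
    have h2 := s1.isLt
    omega
  by_cases h1 : ∃ s1 : Fin t.ini.length, Fin.castLE h (Fin.castAdd t.fin.length s1) = s
  · obtain ⟨s1, hs1⟩ := h1
    refine (slots hV lam hlam c P (A (t.ini.get s1).1) cc hcc (U ∘ (t.ini.get s1).2)
      (hKA _ _ (hcore.1 _ (List.get_mem _ _)))).trans ?_
    refine Nat.cast_le.2 (Finset.card_le_card (fun W hW => ?_))
    rw [Finset.mem_filter] at hW ⊢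
    refine ⟨Finset.mem_univ _, fun s' hs' => ?_, fun s' hs' => ?_⟩
    · have h2 : s' = s1 := by
        have h3 := hs'.trans hs1.symm
        exact Fin.castAdd_injective _ _ (Fin.castLE_injective h h3)
      rw [h2]
      exact hW.2
    · exact absurd (hs1.trans hs'.symm) (hnat _ _)
  · by_cases h2 : ∃ s2 : Fin t.fin.length, Fin.castLE h (Fin.natAdd t.ini.length s2) = s
    · obtain ⟨s2, hs2⟩ := h2
      refine (slots hV lam hlam c P (A (t.fin.get s2).1) cc hcc (Sum.elim U T ∘ (t.fin.get s2).2)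
        (hKA _ _ (hcore.2 _ (List.get_mem _ _)))).trans ?_
      refine Nat.cast_le.2 (Finset.card_le_card (fun W hW => ?_))
      rw [Finset.mem_filter] at hW ⊢
      refine ⟨Finset.mem_univ _, fun s' hs' => ?_, fun s' hs' => ?_⟩
      · exact absurd (hs'.trans hs2.symm) (hnat _ _)
      · have h3 : s' = s2 := by
          have h4 := hs'.trans hs2.symm
          exact Fin.natAdd_injective _ _ (Fin.castLE_injective h h4)
        rw [h3]
        exact hW.2
    · have h3 : (univ.filter fun W : Bool → Fin lam → Fin r → V =>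
          (∀ s' : Fin t.ini.length, Fin.castLE h (Fin.castAdd t.fin.length s') = s →
            Gadget (RAdj c P) (A (t.ini.get s').1) W (U ∘ (t.ini.get s').2)) ∧
          (∀ s' : Fin t.fin.length, Fin.castLE h (Fin.natAdd t.ini.length s') = s →
            Gadget (RAdj c P) (A (t.fin.get s').1) W
              (Sum.elim U T ∘ (t.fin.get s').2))) = univ := by
        refine Finset.filter_true_of_mem (fun W _ => ⟨fun s' hs' => ?_, fun s' hs' => ?_⟩)
        · exact absurd ⟨s', hs'⟩ h1
        · exact absurd ⟨s', hs'⟩ h2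
      rw [h3, Finset.card_univ, Fintype.card_fun, Fintype.card_fun, Fintype.card_fun,
        Fintype.card_bool, Fintype.card_fin, Fintype.card_fin]
      push_cast
      rw [← pow_mul, ← pow_mul]
      have h4 : cc ^ (2 ^ (r * lam)) ≤ 1 := pow_le_one₀ hcc.le hcc1
      have h5 : r * (lam * 2) = 2 * (r * lam) := by ring
      rw [h5]
      have h6 : (0 : ℝ) ≤ (Fintype.card V : ℝ) ^ (2 * (r * lam)) := by positivity
      nlinarith

end fibres

open Classical in
/-- absorbers of type `j` for `T` -/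
private noncomputable def Abf {V : Type} [Fintype V] [DecidableEq V] {r lam Sx : ℕ} {H J : Type}
    [Fintype H] [DecidableEq H] [Fintype J] (R : (Fin r → V) → (Fin r → V) → Prop)
    (A : Bool → Finset (Fin r → V)) (F0 : Finset V) (tm : J → Template r H)
    (hSx : ∀ j, (tm j).ini.length + (tm j).fin.length ≤ Sx) (T : Fin r → V) :
    Finset (J × (H ⊕ (Fin Sx × Bool × Fin lam × Fin r) → V)) :=
  univ.filter fun q => (Function.Injective q.2 ∧ ∀ h, q.2 h ∉ F0) ∧
    GdI R A (tm q.1) (hSx q.1) q.2 ∧ GdF R A (tm q.1) (hSx q.1) q.2 T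

open Classical in
private theorem abs_count {V : Type} [Fintype V] [DecidableEq V] {r lam Sx : ℕ} {H J : Type}
    [Fintype H] [DecidableEq H] [Fintype J] (hV : 0 < Fintype.card V) (hlam : 1 ≤ lam)
    (c : Finset V → Bool)
    (P : (Fin r → V) → Prop) (A K : Bool → Finset (Fin r → V)) (cc c₁ : ℝ) (hcc : 0 < cc)
    (hcc1 : cc ≤ 1) (hc₁ : 0 < c₁)
    (hKA : ∀ b, ∀ x ∈ K b, cc * (Fintype.card V : ℝ) ^ (r * lam) ≤
      ∑ y ∈ A b, (RM (RAdj c P) ^ lam) x y) (F0 : Finset V) (tm : J → Template r H)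
    (hSx : ∀ j, (tm j).ini.length + (tm j).fin.length ≤ Sx) (T : Fin r → V)
    (hT : c₁ * (Fintype.card V : ℝ) ^ Fintype.card H ≤
        ((univ.filter fun q : J × (H → V) => CoreAbs K (tm q.1) q.2 T).card : ℝ))
    (hbad : Fintype.card J * ((Fintype.card (H ⊕ (Fin Sx × Bool × Fin lam × Fin r)) : ℝ) ^ 2 +
      Fintype.card (H ⊕ (Fin Sx × Bool × Fin lam × Fin r)) * F0.card) ≤
        c₁ * (cc ^ (2 ^ (r * lam))) ^ Sx / 2 * Fintype.card V) :
    c₁ * (cc ^ (2 ^ (r * lam))) ^ Sx / 2 *
        (Fintype.card V : ℝ) ^ Fintype.card (H ⊕ (Fin Sx × Bool × Fin lam × Fin r)) ≤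
      ((Abf (lam := lam) (RAdj c P) A F0 tm hSx T).card : ℝ) := by
  obtain ⟨n, hn⟩ : ∃ n : ℝ, n = (Fintype.card V : ℝ) := ⟨_, rfl⟩
  have hn0 : 0 < n := by
    rw [hn]
    exact_mod_cast hV
  obtain ⟨cg, hcg⟩ : ∃ cg : ℝ, cg = cc ^ (2 ^ (r * lam)) := ⟨_, rfl⟩
  have hcg0 : 0 < cg := by
    rw [hcg]
    positivity
  have h1 := count_core (lam := lam) (Sx := Sx)
    (univ.filter fun q : J × (H → V) => CoreAbs K (tm q.1) q.2 T)
    (fun q s => univ.filter fun W : Bool → Fin lam → Fin r → V =>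
        (∀ s' : Fin (tm q.1).ini.length, Fin.castLE (hSx q.1) (Fin.castAdd (tm q.1).fin.length s') = s →
          Gadget (RAdj c P) (A ((tm q.1).ini.get s').1) W (q.2 ∘ ((tm q.1).ini.get s').2)) ∧
        (∀ s' : Fin (tm q.1).fin.length, Fin.castLE (hSx q.1) (Fin.natAdd (tm q.1).ini.length s') = s →
          Gadget (RAdj c P) (A ((tm q.1).fin.get s').1) W
            (Sum.elim q.2 T ∘ ((tm q.1).fin.get s').2)))
    (cg * n ^ (2 * (r * lam))) (by positivity) (by
      intro q hq s
      rw [Finset.mem_filter] at hq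
      rw [hcg, hn]
      exact slot_count hV hlam c P A K cc hcc hcc1 hKA (tm q.1) (hSx q.1) q.2 T hq.2 s)
  rw [← hn, ← hcg] at hbad ⊢
  rw [← hn] at hT
  obtain ⟨S, hS⟩ : ∃ S : Finset (J × (H ⊕ (Fin Sx × Bool × Fin lam × Fin r) → V)), S =
      univ.filter fun q => GdI (RAdj c P) A (tm q.1) (hSx q.1) q.2 ∧
        GdF (RAdj c P) A (tm q.1) (hSx q.1) q.2 T := ⟨_, rfl⟩
  have h2 : c₁ * n ^ Fintype.card H * (cg * n ^ (2 * (r * lam))) ^ Sx ≤ (S.card : ℝ) := by
    refine (mul_le_mul_of_nonneg_right hT (by positivity)).trans (h1.trans ?_)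
    refine Nat.cast_le.2 (Finset.card_le_card (fun q hq => ?_))
    rw [Finset.mem_filter] at hq
    rw [hS, Finset.mem_filter]
    refine ⟨Finset.mem_univ _, fun s' => ?_, fun s' => ?_⟩
    · have h3 := hq.2.2 (Fin.castLE (hSx q.1) (Fin.castAdd (tm q.1).fin.length s'))
      rw [Finset.mem_filter] at h3
      exact h3.2.1 s' rfl
    · have h3 := hq.2.2 (Fin.castLE (hSx q.1) (Fin.natAdd (tm q.1).ini.length s'))
      rw [Finset.mem_filter] at h3
      exact h3.2.2 s' rfl
  obtain ⟨h', hh'⟩ : ∃ h' : ℕ, h' = Fintype.card (H ⊕ (Fin Sx × Bool × Fin lam × Fin r)) :=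
    ⟨_, rfl⟩
  have hh2 : h' = Fintype.card H + 2 * (r * lam) * Sx := by
    rw [hh', Fintype.card_sum, Fintype.card_prod, Fintype.card_prod, Fintype.card_prod,
      Fintype.card_fin, Fintype.card_bool, Fintype.card_fin, Fintype.card_fin]
    ring
  have h3 : c₁ * n ^ Fintype.card H * (cg * n ^ (2 * (r * lam))) ^ Sx =
      c₁ * cg ^ Sx * n ^ h' := by
    rw [hh2, mul_pow, ← pow_mul, pow_add]
    ring
  rw [h3] at h2
  -- the bad ones
  have h4 := card_bad_le (V := V) (ι := H ⊕ (Fin Sx × Bool × Fin lam × Fin r)) F0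
  rw [← hh'] at h4 hbad ⊢
  rw [← hn] at h4
  obtain ⟨B, hB⟩ : ∃ B : Finset (J × (H ⊕ (Fin Sx × Bool × Fin lam × Fin r) → V)), B =
      univ ×ˢ (univ.filter fun U => ¬ (Function.Injective U ∧ ∀ h, U h ∉ F0)) := ⟨_, rfl⟩
  have h5 : (B.card : ℝ) * n ≤ c₁ * cg ^ Sx / 2 * n * n ^ h' := by
    rw [hB, Finset.card_product, Finset.card_univ]
    push_cast
    have h6 : (0 : ℝ) ≤ n ^ h' := by positivity
    have h7 : (0 : ℝ) ≤ (Fintype.card J : ℝ) := Nat.cast_nonneg _
    calc (Fintype.card J : ℝ) * ((univ.filter fun U : H ⊕ (Fin Sx × Bool × Fin lam × Fin r) → V =>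
          ¬ (Function.Injective U ∧ ∀ h, U h ∉ F0)).card : ℝ) * n
        = (Fintype.card J : ℝ) * (((univ.filter fun U : H ⊕ (Fin Sx × Bool × Fin lam × Fin r) → V =>
          ¬ (Function.Injective U ∧ ∀ h, U h ∉ F0)).card : ℝ) * n) := by ring
      _ ≤ (Fintype.card J : ℝ) * (((h' : ℝ) ^ 2 + h' * F0.card) * n ^ h') :=
          mul_le_mul_of_nonneg_left h4 h7
      _ = (Fintype.card J : ℝ) * ((h' : ℝ) ^ 2 + h' * F0.card) * n ^ h' := by ring
      _ ≤ _ := mul_le_mul_of_nonneg_right hbad h6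
  have h6 : (B.card : ℝ) ≤ c₁ * cg ^ Sx / 2 * n ^ h' := by
    have h7 : (B.card : ℝ) * n ≤ c₁ * cg ^ Sx / 2 * n ^ h' * n := by
      refine h5.trans (le_of_eq ?_)
      ring
    exact le_of_mul_le_mul_right h7 hn0
  have h7 : S.card ≤ (Abf (lam := lam) (RAdj c P) A F0 tm hSx T).card + B.card := by
    have h8 : S ⊆ Abf (lam := lam) (RAdj c P) A F0 tm hSx T ∪ B := by
      intro q hq
      rw [hS, Finset.mem_filter] at hq
      rw [Finset.mem_union]
      by_cases h9 : Function.Injective q.2 ∧ ∀ h, q.2 h ∉ F0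
      · left
        unfold Abf
        rw [Finset.mem_filter]
        exact ⟨Finset.mem_univ _, h9, hq.2⟩
      · right
        rw [hB, Finset.mem_product, Finset.mem_filter]
        exact ⟨Finset.mem_univ _, Finset.mem_univ _, h9⟩
    exact (Finset.card_le_card h8).trans (Finset.card_union_le _ _)
  have h8 : (S.card : ℝ) ≤ ((Abf (lam := lam) (RAdj c P) A F0 tm hSx T).card : ℝ) + B.card := by
    exact_mod_cast h7
  linarith

open Classical in
theorem absorber_family (r : ℕ) (hr : 1 ≤ r) (lam : ℕ) (hlam : 1 ≤ lam) (cc c₁ : ℝ)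
    (hcc : 0 < cc) (hc₁ : 0 < c₁) (H J : Type) [Fintype H] [DecidableEq H] [Fintype J]
    (tm : J → Template r H) :
    ∃ m₀ : ℕ, ∀ γ₀ : ℝ, 0 < γ₀ → ∃ μ θ₀ : ℝ, 0 < μ ∧ 0 < θ₀ ∧ ∃ n₀ : ℕ,
      ∀ (V : Type) [Fintype V] [DecidableEq V], n₀ ≤ Fintype.card V →
      ∀ (c : Finset V → Bool) (P : (Fin r → V) → Prop) (A K : Bool → Finset (Fin r → V))
        (F0 : Finset V) (𝒯 : Finset (Fin r → V)),
      (∀ b, ∀ x ∈ K b, cc * (Fintype.card V : ℝ) ^ (r * lam) ≤
        ∑ y ∈ A b, (RM (RAdj c P) ^ lam) x y) →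
      (∀ T ∈ 𝒯, c₁ * (Fintype.card V : ℝ) ^ Fintype.card H ≤
        ((univ.filter fun q : J × (H → V) => CoreAbs K (tm q.1) q.2 T).card : ℝ)) →
      (F0.card : ℝ) ≤ θ₀ * Fintype.card V →
      ∃ (N : ℕ) (D : AbsFam V r N), (N : ℝ) ≤ γ₀ * Fintype.card V ∧ (∀ a, D.m a ≤ m₀) ∧
        (∀ a, (D.vertsOf D.I a).length ≤ m₀) ∧ D.Valid (RAdj c P) A F0 ∧
        ∀ T ∈ 𝒯, μ * Fintype.card V ≤
          ((univ.filter fun a : Fin N => D.Absorbs (RAdj c P) a T).card : ℝ) := by
  obtain ⟨Sx, hSx1, hSx⟩ : ∃ Sx : ℕ, 1 ≤ Sx ∧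
      ∀ j, (tm j).ini.length + (tm j).fin.length ≤ Sx := by
    refine ⟨1 + ∑ j, ((tm j).ini.length + (tm j).fin.length), by omega, fun j => ?_⟩
    have h1 : (tm j).ini.length + (tm j).fin.length ≤
        ∑ j, ((tm j).ini.length + (tm j).fin.length) :=
      Finset.single_le_sum (f := fun j => (tm j).ini.length + (tm j).fin.length)
        (fun _ _ => Nat.zero_le _) (Finset.mem_univ j)
    omega
  refine ⟨Sx + Fintype.card (H ⊕ (Fin Sx × Bool × Fin lam × Fin r)), fun γ₀ hγ₀ => ?_⟩
  have hne : Nonempty (H ⊕ (Fin Sx × Bool × Fin lam × Fin r)) :=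
    ⟨Sum.inr (⟨0, by omega⟩, true, ⟨0, by omega⟩, ⟨0, by omega⟩)⟩
  have hcc' : 0 < min cc 1 := lt_min hcc one_pos
  obtain ⟨c₂, hc₂⟩ : ∃ c₂ : ℝ, c₂ = c₁ * ((min cc 1) ^ (2 ^ (r * lam))) ^ Sx / 2 := ⟨_, rfl⟩
  have hc₂0 : 0 < c₂ := by
    rw [hc₂]
    positivity
  obtain ⟨μ, hμ, n₁, hfam⟩ := fam r (H ⊕ (Fin Sx × Bool × Fin lam × Fin r)) J c₂ γ₀ hc₂0 hγ₀
  obtain ⟨h', hh'⟩ : ∃ h' : ℕ, h' = Fintype.card (H ⊕ (Fin Sx × Bool × Fin lam × Fin r)) :=
    ⟨_, rfl⟩
  obtain ⟨E, hE⟩ : ∃ E : ℝ, E = (Fintype.card J : ℝ) * (h' : ℝ) := ⟨_, rfl⟩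
  have hE0 : 0 ≤ E := by
    rw [hE]
    positivity
  refine ⟨μ, c₂ / (2 * (E + 1)), hμ, by positivity, max n₁ (max 1 ⌈2 * (E * h') / c₂⌉₊), ?_⟩
  intro V _ _ hVn c P A K F0 𝒯 hKA hcore hF0
  have hn1 : n₁ ≤ Fintype.card V := (le_max_left _ _).trans hVn
  have hn2 : 1 ≤ Fintype.card V := ((le_max_left _ _).trans (le_max_right _ _)).trans hVn
  have hn3 : ⌈2 * (E * h') / c₂⌉₊ ≤ Fintype.card V :=
    ((le_max_right _ _).trans (le_max_right _ _)).trans hVn
  have hn4 : 2 * (E * h') ≤ c₂ * Fintype.card V := by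
    have h1 : 2 * (E * h') / c₂ ≤ (Fintype.card V : ℝ) :=
      (Nat.le_ceil _).trans (by exact_mod_cast hn3)
    rw [div_le_iff₀ hc₂0] at h1
    linarith
  have hbad : (Fintype.card J : ℝ) * ((h' : ℝ) ^ 2 + h' * F0.card) ≤ c₂ * Fintype.card V := by
    have h1 : (Fintype.card J : ℝ) * ((h' : ℝ) ^ 2 + h' * F0.card) = E * h' + E * F0.card := by
      rw [hE]
      ring
    rw [h1]
    have h2 : E * F0.card ≤ c₂ / 2 * Fintype.card V := by
      refine (mul_le_mul_of_nonneg_left hF0 hE0).trans ?_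
      have h3 : E * (c₂ / (2 * (E + 1)) * Fintype.card V) =
          E / (E + 1) * (c₂ / 2 * Fintype.card V) := by
        field_simp
      rw [h3]
      have h4 : E / (E + 1) ≤ 1 := by
        rw [div_le_one (by positivity)]
        linarith
      have h5 : (0 : ℝ) ≤ c₂ / 2 * Fintype.card V := by positivity
      nlinarith
    linarith
  have hAbs : ∀ T ∈ 𝒯, c₂ * (Fintype.card V : ℝ) ^
      Fintype.card (H ⊕ (Fin Sx × Bool × Fin lam × Fin r)) ≤
        ((Abf (lam := lam) (RAdj c P) A F0 tm hSx T).card : ℝ) := by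
    intro T hT
    rw [hc₂]
    refine abs_count hn2 hlam c P A K (min cc 1) c₁ hcc' (min_le_right _ _) hc₁ (fun b x hx => ?_)
      F0 tm hSx T (hcore T hT) ?_
    · refine le_trans ?_ (hKA b x hx)
      exact mul_le_mul_of_nonneg_right (min_le_left _ _) (by positivity)
    · rw [← hh', ← hc₂]
      exact hbad
  obtain ⟨Fm, hFm1, hFm2, hFm3, hFm4⟩ := hfam V hn1
    (fun T => Abf (lam := lam) (RAdj c P) A F0 tm hSx T) 𝒯 hAbs
  obtain ⟨ab, hab⟩ : ∃ ab : Fin Fm.card → J × (H ⊕ (Fin Sx × Bool × Fin lam × Fin r) → V),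
      ab = fun a => (Fm.equivFin.symm a : J × (H ⊕ (Fin Sx × Bool × Fin lam × Fin r) → V)) :=
    ⟨_, rfl⟩
  have habm : ∀ a, ab a ∈ Fm := by
    intro a
    rw [hab]
    exact (Fm.equivFin.symm a).2
  have habi : Function.Injective ab := by
    intro a a' h
    rw [hab] at h
    exact Fm.equivFin.symm.injective (Subtype.ext h)
  have habs : ∀ x ∈ Fm, ∃ a, ab a = x := by
    intro x hx
    refine ⟨Fm.equivFin ⟨x, hx⟩, ?_⟩
    rw [hab]
    simp
  have hgood : ∀ a, (Function.Injective (ab a).2 ∧ ∀ h, (ab a).2 h ∉ F0) ∧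
      ∃ T, GdI (RAdj c P) A (tm (ab a).1) (hSx (ab a).1) (ab a).2 ∧
        GdF (RAdj c P) A (tm (ab a).1) (hSx (ab a).1) (ab a).2 T := by
    intro a
    obtain ⟨T, _, hT2⟩ := hFm2 _ (habm a)
    unfold Abf at hT2
    rw [Finset.mem_filter] at hT2
    exact ⟨hT2.2.1, T, hT2.2.2⟩
  let D : AbsFam V r Fm.card :=
    { m := fun a => (tm (ab a).1).ini.length + (tm (ab a).1).fin.length
      b := fun a => lab (tm (ab a).1)
      I := fun a => segI (tm (ab a).1) (hSx (ab a).1) (ab a).2 }
  have hDv : ∀ a, D.vertsOf D.I a =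
      vs (List.ofFn (segI (tm (ab a).1) (hSx (ab a).1) (ab a).2)).flatten := fun a => rfl
  refine ⟨Fm.card, D, hFm1, fun a => (hSx (ab a).1).trans (Nat.le_add_right _ _), fun a => ?_,
    ⟨fun a s => ?_, ?_, fun v hv => ?_⟩, fun T hT => ?_⟩
  · rw [hDv]
    exact (length_segI _ _ (hgood a).1.1).trans (Nat.le_add_left _ _)
  · obtain ⟨-, T, h1, h2⟩ := hgood a
    exact segI_ok h1 h2 s
  · unfold AbsFam.allOf
    rw [List.nodup_flatten]
    constructor
    · intro l hl
      rw [List.mem_ofFn] at hl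
      obtain ⟨a, rfl⟩ := hl
      simp only [hDv]
      exact nodup_segI _ _ (hgood a).1.1
    · rw [List.pairwise_ofFn]
      intro a a' haa v hv hv'
      rw [hDv] at hv hv'
      obtain ⟨x, hx⟩ := mem_segI hv
      obtain ⟨x', hx'⟩ := mem_segI hv'
      refine hFm3 _ (habm a) _ (habm a') (fun h => ?_) x x' (hx.trans hx'.symm)
      exact absurd (habi h) haa.ne
  · unfold AbsFam.allOf at hv
    rw [List.mem_flatten] at hv
    obtain ⟨l, hl, hv⟩ := hv
    rw [List.mem_ofFn] at hl
    obtain ⟨a, rfl⟩ := hl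
    rw [hDv] at hv
    obtain ⟨x, rfl⟩ := mem_segI hv
    exact (hgood a).1.2 x
  · refine (hFm4 T hT).trans ?_
    refine Nat.cast_le.2 ?_
    have h1 : (Fm.filter fun a => a ∈ Abf (lam := lam) (RAdj c P) A F0 tm hSx T) ⊆
        (univ.filter fun a : Fin Fm.card => D.Absorbs (RAdj c P) a T).image ab := by
      intro x hx
      rw [Finset.mem_filter] at hx
      obtain ⟨a, ha⟩ := habs x hx.1
      rw [Finset.mem_image]
      refine ⟨a, ?_, ha⟩
      rw [Finset.mem_filter]
      refine ⟨Finset.mem_univ _, ?_⟩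
      have h2 := hx.2
      unfold Abf at h2
      rw [Finset.mem_filter, ← ha] at h2
      obtain ⟨-, -, h3, h4⟩ := h2
      refine ⟨segF (tm (ab a).1) (hSx (ab a).1) (ab a).2 T, fun s => segF_ok h3 h4 s, ?_⟩
      rw [hDv]
      exact perm_FI _ _ _ _
    exact (Finset.card_le_card h1).trans Finset.card_image_le

end Pool.Agent.Lib.TwoPaths
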