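import Pool.Agent.Lib.TwoPaths.Defs

/-!
# M5: tiling outside a small set

PROOF.  `exists_tiling r hr (ε)` gives `κ`.  Given `β, ν` let `n₁` be its `n₀` for `β` and `ν`;
`n₀ = 2 n₁ + 1`.  Let `V' = {v // v ∉ W}`, `|V'| = n - |W| ≥ n/2 ≥ n₁`, and
`A' b = {u : Fin r → V' | (fun i => (u i : V)) ∈ A b}`.  `Robust κ β A'`: let `z' : V' → [0,1]` with
`∑ z' ≤ κ |V'|`; extend `z'` by `0` to `z : V → [0,1]`; `∑_{Wᶜ} z = ∑ z' ≤ κ |Wᶜ|`; by `RobustOff` at
least `β n^r ≥ β |V'|^r` tuples `u ∈ A true ∪ A false` avoid `W` and have `∑ z (u i) < 1`; these are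
exactly the images of the tuples of `A' true ∪ A' false` with `∑ z' < 1`.  `exists_tiling` gives
`T, b, D', m` with `T ≤ ν |V'| ≤ ν n`; `D t i = (D' t i).map (Subtype coe)`.  The blocks avoid `W`, are
disjoint, a tuple `x` with `x i ∈ D t i` for all `i` lifts to `V'` and is in `A (b t)`, and
`∑ r m t ≥ (1 - ε)|V'| ≥ |Wᶜ| - ε n`.
-/

namespace Pool.Agent.Lib.TwoPaths

open Finset
open Pool.Agent.Lib.MP_952639_co

theorem tiling_off (r : ℕ) (hr : 1 ≤ r) (ε : ℝ) (hε : 0 < ε) :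
    ∃ κ : ℝ, 0 < κ ∧ κ * r < 1 ∧ ∀ β : ℝ, 0 < β → ∀ ν : ℝ, 0 < ν → ∃ n₀ : ℕ,
      ∀ (V : Type) [Fintype V] [DecidableEq V], n₀ ≤ Fintype.card V →
      ∀ (A : Bool → Finset (Fin r → V)) (W : Finset V),
      (∀ b, ∀ x ∈ A b, Function.Injective x) → 2 * W.card ≤ Fintype.card V →
      RobustOff κ β A W →
      ∃ (T : ℕ) (b : Fin T → Bool) (D : Fin T → Fin r → Finset V) (m : Fin T → ℕ),
        (T : ℝ) ≤ ν * Fintype.card V ∧
        (∀ t i, (D t i).card = m t) ∧
        (∀ t i t' i', (t, i) ≠ (t', i') → Disjoint (D t i) (D t' i')) ∧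
        (∀ t (x : Fin r → V), (∀ i, x i ∈ D t i) → x ∈ A (b t)) ∧
        (∀ t i, Disjoint (D t i) W) ∧
        (Wᶜ.card : ℝ) - ε * Fintype.card V ≤ ∑ t, (r : ℝ) * m t := by
  obtain ⟨κ, hκ0, hκr, hκ⟩ := exists_tiling r hr ε hε
  refine ⟨κ, hκ0, hκr, fun β hβ ν hν => ?_⟩
  obtain ⟨n₁, hn₁⟩ := hκ β hβ ν hν
  refine ⟨2 * n₁, ?_⟩
  intro V _ _ hV A W hinj hW hrob
  have hcard : Fintype.card {v : V // v ∉ W} = Wᶜ.card := by
    rw [Fintype.card_subtype]
    congr 1
    ext v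
    simp
  have hcc := Finset.card_compl_add_card W
  have hn' : n₁ ≤ Fintype.card {v : V // v ∉ W} := by
    rw [hcard]
    omega
  have hle : (Fintype.card {v : V // v ∉ W} : ℝ) ≤ Fintype.card V := by
    rw [hcard]
    exact_mod_cast Finset.card_le_univ _
  have hn0 : (0 : ℝ) ≤ Fintype.card {v : V // v ∉ W} := Nat.cast_nonneg _
  obtain ⟨A', hA'⟩ : ∃ A' : Bool → Finset (Fin r → {v : V // v ∉ W}), ∀ b u, u ∈ A' b ↔
      (fun i => (u i : V)) ∈ A b :=
    ⟨fun b => univ.filter fun u => (fun i => (u i : V)) ∈ A b, fun b u => by simp⟩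
  have hinj' : ∀ b, ∀ x ∈ A' b, Function.Injective x := by
    intro b x hx i j hij
    have h1 := hinj b _ ((hA' b x).1 hx)
    exact h1 (by simp only [hij])
  have hrob' : Robust κ β A' := by
    intro z' hz0 hz1 hzs
    obtain ⟨z, hz, hz2⟩ : ∃ z : V → ℝ, (∀ v : {v : V // v ∉ W}, z v = z' v) ∧
        (∀ v ∈ W, z v = 0) :=
      ⟨fun v => if h : v ∉ W then z' ⟨v, h⟩ else 0, fun v => by simp [v.2], fun v hv => by
        simp [hv]⟩
    have h1 : ∀ v, 0 ≤ z v := by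
      intro v
      by_cases hv : v ∈ W
      · rw [hz2 v hv]
      · have h2 := hz ⟨v, hv⟩
        simp only at h2
        rw [h2]
        exact hz0 _
    have h2 : ∀ v, z v ≤ 1 := by
      intro v
      by_cases hv : v ∈ W
      · rw [hz2 v hv]
        exact zero_le_one
      · have h2 := hz ⟨v, hv⟩
        simp only at h2
        rw [h2]
        exact hz1 _
    have h3 : ∑ v ∈ Wᶜ, z v = ∑ v : {v : V // v ∉ W}, z' v := by
      rw [Finset.sum_subtype Wᶜ (p := fun v => v ∉ W) (fun v => Finset.mem_compl) z]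
      exact Finset.sum_congr rfl fun v _ => hz v
    have h4 := hrob z h1 h2 (by rw [h3, ← hcard]; exact hzs)
    refine le_trans (mul_le_mul_of_nonneg_left (pow_le_pow_left₀ hn0 hle r) hβ.le) (h4.trans ?_)
    have h5 : (A true ∪ A false).filter (fun u => (∀ i, u i ∉ W) ∧ ∑ i, z (u i) < 1) ⊆
        ((A' true ∪ A' false).filter fun u => ∑ i, z' (u i) < 1).image
          (fun u i => (u i : V)) := by
      intro u hu
      rw [Finset.mem_filter, Finset.mem_union] at hu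
      obtain ⟨hu1, hu2, hu3⟩ := hu
      rw [Finset.mem_image]
      refine ⟨fun i => ⟨u i, hu2 i⟩, ?_, rfl⟩
      rw [Finset.mem_filter, Finset.mem_union, hA', hA']
      refine ⟨hu1, ?_⟩
      have h6 : ∀ i, z (u i) = z' ⟨u i, hu2 i⟩ := fun i => hz ⟨u i, hu2 i⟩
      simp only [h6] at hu3
      exact hu3
    exact_mod_cast (Finset.card_le_card h5).trans Finset.card_image_le
  obtain ⟨T, b, D', m, hT, hDc, hDd, hDA, hDs⟩ := hn₁ {v : V // v ∉ W} hn' A' hinj' hrob'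
  refine ⟨T, b, fun t i => (D' t i).map (Function.Embedding.subtype _), m, ?_, ?_, ?_, ?_, ?_, ?_⟩
  · exact hT.trans (mul_le_mul_of_nonneg_left hle hν.le)
  · intro t i
    rw [Finset.card_map, hDc]
  · intro t i t' i' hne
    exact (Finset.disjoint_map _).2 (hDd t i t' i' hne)
  · intro t x hx
    have h1 : ∀ i, ∃ a ∈ D' t i, (a : V) = x i := by
      intro i
      have h2 := hx i
      rw [Finset.mem_map] at h2
      exact h2
    choose x' hx'1 hx'2 using h1
    have h2 := (hA' (b t) x').1 (hDA t x' hx'1)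
    have h3 : (fun i => (x' i : V)) = x := funext hx'2
    rw [h3] at h2
    exact h2
  · intro t i
    rw [Finset.disjoint_left]
    intro v hv
    rw [Finset.mem_map] at hv
    obtain ⟨a, _, rfl⟩ := hv
    exact a.2
  · refine le_trans ?_ hDs
    rw [hcard] at hle ⊢
    have h1 : ε * (Wᶜ.card : ℝ) ≤ ε * Fintype.card V := mul_le_mul_of_nonneg_left hle hε.le
    linarith

end Pool.Agent.Lib.TwoPaths
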