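import Pool.Agent.Lib.TwoPaths.M1

/-!
# M6: linking segments

Segments are indexed by `ι`, segment `i` has label `b i : Bool` and ends `h i, e i ∈ A (b i)`.  For
each label `β` there may be a target tuple `tgt β ∈ A β` which has to come after the last segment.
Claim: there are an enumeration `ord β` of the segments with label `β` and connectors `W i` (lists of
at most `lam` tuples, disjoint from `F` and from each other) such that for every choice of chains
`S i` from `h i` to `e i` the concatenation of `S i ++ W i` over `ord β`, followed by the target, is a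
chain.

PROOF. `ord β = (univ.filter (b i = β)).toList`.  For `i` with label `β` which is not the last member
of `ord β` let `y i = h i'` with `i'` the next member of `ord β`; for the last member let
`y i = z` if `tgt β = some z`; if `tgt β = none` put `W i = []`.  Let `s` be the set of the `i` for
which `y i` is defined.  `rconnectors` with `l = lam - 1`, `x = e`, gives `W i` (length `lam - 1`) for
`i ∈ s`: `(e i :: (W i ++ [y i])).IsChain R`.  (hF is the requirement of `rconnectors`.)
Concatenation: `S i` ends in `e i`, so `S i ++ W i ++ [y i]` is a chain; glue consecutive ones (the next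
`S i'` starts with `h i' = y i`), compare `chain_flatMap` in `Connect.lean`.
-/

namespace Pool.Agent.Lib.TwoPaths

open Finset
open Pool.Agent.Lib.MP_952639_co

private lemma chain_link {α J : Type*} {R : α → α → Prop} (S W : J → List α) (h e : J → α)
    (y : J → Option α) (tg : Option α)
    (hS : ∀ i, (S i).IsChain R ∧ (S i).head? = some (h i) ∧ (S i).getLast? = some (e i))
    (hW : ∀ i z, y i = some z → (e i :: (W i ++ [z])).IsChain R)
    (hW0 : ∀ i, y i = none → W i = []) :
    ∀ L : List J, L.IsChain (fun a a' => y a = some (h a')) →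
      (∀ a, L.getLast? = some a → y a = tg) →
      ((L.flatMap fun i => S i ++ W i) ++ tg.toList).IsChain R := by
  have hone : ∀ i z, y i = some z → ((S i ++ W i) ++ [z]).IsChain R := by
    intro i z hz
    obtain ⟨h1, h2, h3⟩ := hS i
    obtain ⟨S', hS'⟩ := List.getLast?_eq_some_iff.1 h3
    have e1 : (S i ++ W i) ++ [z] = S' ++ e i :: (W i ++ [z]) := by rw [hS']; simp
    rw [e1, List.isChain_split]
    exact ⟨hS' ▸ h1, hW i z hz⟩
  intro L
  induction L with
  | nil =>
    intro _ _
    cases tg <;> simp
  | cons a L ih =>
    intro hL hlast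
    cases L with
    | nil =>
      have hy : y a = tg := hlast a rfl
      cases htg : tg with
      | none =>
        rw [htg] at hy
        simp [hW0 a hy, (hS a).1]
      | some z =>
        rw [htg] at hy
        simpa using hone a z hy
    | cons a' L =>
      rw [List.isChain_cons_cons] at hL
      have h1 := ih hL.2 (fun c hc => hlast c (by
        rw [List.getLast?_cons_cons]; exact hc))
      obtain ⟨l, hl⟩ : ∃ l, S a' = h a' :: l := by
        have := (hS a').2.1
        cases hsa : S a' with
        | nil => rw [hsa] at this; simp at this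
        | cons x l => rw [hsa] at this; simp at this; exact ⟨l, by rw [this]⟩
      have e1 : ((a :: a' :: L).flatMap fun i => S i ++ W i) ++ tg.toList =
          (S a ++ W a) ++ h a' :: ((l ++ W a') ++ (L.flatMap fun i => S i ++ W i) ++ tg.toList) := by
        simp [List.flatMap_cons, hl]
      have e2 : ((a' :: L).flatMap fun i => S i ++ W i) ++ tg.toList =
          h a' :: ((l ++ W a') ++ (L.flatMap fun i => S i ++ W i) ++ tg.toList) := by
        simp [List.flatMap_cons, hl]
      rw [e1, List.isChain_split]
      exact ⟨hone a _ hL.1, e2 ▸ h1⟩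

theorem link {V : Type*} [Fintype V] [DecidableEq V] {r : ℕ} (hr : 1 ≤ r)
    (R : (Fin r → V) → (Fin r → V) → Prop) (hR : ∀ x y, R x y → Function.Injective y)
    (lam : ℕ) (hlam : 1 ≤ lam) (cc : ℝ) (hcc : 0 < cc) (A : Bool → Finset (Fin r → V))
    (hA : ∀ b, ∀ x ∈ A b, ∀ y ∈ A b,
      cc * (Fintype.card V : ℝ) ^ (r * (lam - 1)) ≤ (RM R ^ lam) x y)
    (hV : 0 < Fintype.card V) {ι : Type} [Fintype ι] [DecidableEq ι] (b : ι → Bool)
    (h e : ι → Fin r → V) (hh : ∀ i, h i ∈ A (b i)) (he : ∀ i, e i ∈ A (b i))
    (tgt : Bool → Option (Fin r → V)) (htgt : ∀ β z, tgt β = some z → z ∈ A β)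
    (F : Finset V)
    (hF : r * ((F.card : ℝ) + r * lam * Fintype.card ι + r * lam) ≤
      (Fintype.card V : ℝ) * cc / 2 ^ lam) :
    ∃ (ord : Bool → List ι) (W : ι → List (Fin r → V)),
      (∀ β, (ord β).Nodup) ∧ (∀ β i, i ∈ ord β ↔ b i = β) ∧ (∀ i, (W i).length ≤ lam) ∧
      (∀ i, (vs (W i)).Nodup ∧ ∀ v ∈ vs (W i), v ∉ F) ∧
      (∀ i j, i ≠ j → ∀ v ∈ vs (W i), v ∉ vs (W j)) ∧
      ∀ S : ι → List (Fin r → V),
        (∀ i, (S i).IsChain R ∧ (S i).head? = some (h i) ∧ (S i).getLast? = some (e i)) →
        ∀ β, (((ord β).flatMap fun i => S i ++ W i) ++ (tgt β).toList).IsChain R := by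
  classical
  obtain ⟨l, rfl⟩ : ∃ l, lam = l + 1 := ⟨lam - 1, by omega⟩
  simp only [Nat.add_sub_cancel] at hA
  set ord : Bool → List ι := fun β => (univ.filter fun i => b i = β).toList with hord
  have hordn : ∀ β, (ord β).Nodup := fun β => Finset.nodup_toList _
  have hordm : ∀ β i, i ∈ ord β ↔ b i = β := by intro β i; simp [hord]
  set y : ι → Option (Fin r → V) := fun i =>
    match (ord (b i))[(ord (b i)).idxOf i + 1]? with
    | some i' => some (h i')
    | none => tgt (b i) with hy
  have hyA : ∀ i z, y i = some z → z ∈ A (b i) := by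
    intro i z hz
    simp only [hy] at hz
    cases hc : (ord (b i))[(ord (b i)).idxOf i + 1]? with
    | none => rw [hc] at hz; exact htgt _ _ hz
    | some i' =>
      rw [hc] at hz
      have hm : i' ∈ ord (b i) := List.mem_of_getElem? hc
      simp only [Option.some.injEq] at hz
      rw [← hz, ← (hordm _ _).1 hm]
      exact hh i'
  set s : Finset ι := univ.filter fun i => (y i).isSome with hs
  obtain ⟨W0, hW1, hW2⟩ := rconnectors R hR l cc hcc e (fun i => (y i).getD (h i)) F hV s
    (by
      intro i hi
      have hi' : (y i).isSome := (mem_filter.1 hi).2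
      obtain ⟨z, hz⟩ := Option.isSome_iff_exists.1 hi'
      have := hA (b i) (e i) (he i) z (hyA i z hz)
      simpa [hz] using this)
    (by
      refine le_trans ?_ hF
      apply mul_le_mul_of_nonneg_left _ (Nat.cast_nonneg r)
      have h1 : (s.card : ℝ) ≤ Fintype.card ι := by exact_mod_cast card_le_univ s
      have h2 : (r * l : ℝ) * s.card ≤ r * (l + 1) * Fintype.card ι := by
        apply mul_le_mul _ h1 (Nat.cast_nonneg _) (by positivity)
        apply mul_le_mul_of_nonneg_left _ (Nat.cast_nonneg r)
        linarith
      push_cast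
      linarith)
  refine ⟨ord, fun i => if i ∈ s then W0 i else [], hordn, hordm, ?_, ?_, ?_, ?_⟩
  · intro i
    by_cases hi : i ∈ s
    · simp only [hi, if_true]
      rw [(hW1 i hi).1]; omega
    · simp [hi]
  · intro i
    by_cases hi : i ∈ s
    · simp only [hi, if_true]
      exact (hW1 i hi).2.2
    · simp [hi, vs]
  · intro i j hij v hv
    by_cases hi : i ∈ s
    · by_cases hj : j ∈ s
      · simp only [hi, hj, if_true] at hv ⊢
        exact hW2 i hi j hj hij v hv
      · simp [hj, vs]
    · simp [hi, vs] at hv
  · intro S hS β
    have hgen : ∀ i z, y i = some z → i ∈ s := by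
      intro i z hz
      rw [hs, mem_filter]
      exact ⟨mem_univ _, by rw [hz]; rfl⟩
    refine chain_link S (fun i => if i ∈ s then W0 i else []) h e y (tgt β) hS ?_ ?_ (ord β) ?_ ?_
    · intro i z hz
      have hi := hgen i z hz
      simp only [hi, if_true]
      have := (hW1 i hi).2.1
      simpa [hz] using this
    · intro i hi
      have : i ∉ s := by
        intro h'
        have := (mem_filter.1 h').2
        rw [hi] at this
        exact absurd this (by simp)
      simp [this]
    · rw [List.isChain_iff_getElem]
      intro k hk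
      have hb : b (ord β)[k] = β := (hordm β _).1 (List.getElem_mem _)
      simp only [hy]
      rw [hb, (hordn β).idxOf_getElem, List.getElem?_eq_getElem hk]
    · intro a ha
      have hm : a ∈ ord β := List.mem_of_getLast? ha
      have hb : b a = β := (hordm β _).1 hm
      simp only [hy]
      rw [hb]
      have hlen : 0 < (ord β).length := List.length_pos_of_mem hm
      have h1 : (ord β)[(ord β).length - 1]? = some a := by
        rw [← List.getLast?_eq_getElem?]; exact ha
      have h2 : (ord β).length - 1 < (ord β).length := by omega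
      have h3 : (ord β)[(ord β).length - 1] = a := by
        rw [List.getElem?_eq_getElem h2] at h1
        exact Option.some.inj h1
      have h4 : (ord β).idxOf a = (ord β).length - 1 := by
        rw [← h3]; exact (hordn β).idxOf_getElem _ _
      rw [h4, List.getElem?_eq_none (by omega)]

end Pool.Agent.Lib.TwoPaths
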