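import Pool.Agent.Lib.TwoPaths.MDefs
import Pool.Agent.Lib.TwoPaths.M6

/-!
# M7: phase 1, linking the absorbers

`R = RAdj c P`.  `D` is a valid family of absorbers outside `F0`, `z ∈ A true` with all entries in
`F0`.  The segments of all absorbers are linked into one chain for each label, the chain of label
`true` ending in `z`, by connectors with vertex list `lk`, and this works simultaneously for all
replacements `F` of the segments.  `tgt β` is the first tuple of the chain of label `β` (it does not
depend on `F`); `tgt false = none` if there is no segment of label `false`.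

PROOF. `link` for the index type `Σ a, Fin (D.m a)`, the heads `h` and last tuples `e` of the
segments (`Valid`), targets `true ↦ some z`, `false ↦ none`, and
`F := F0 ∪ (D.allOf D.I).toFinset`.  `C β F = (ord β).flatMap (fun i => F i ++ W i)`, `Lk` = all the
tuples of all `W i` (concatenated over `ord true ++ ord false`), `lk = vs Lk`.
The tuples in `Lk` satisfy `P`: each `W i` occurs in a chain of `RAdj c P` between `e i` and the next
tuple (apply the last statement of `link` to `S = D.I`; every tuple of a chain with at least two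
members satisfies `P`; `W i` is preceded by `e i`).
`tgt true = (C true ++ [z]).head?`: the head of the first segment of `ord true`, or `z`;
`tgt false` = the head of the first segment of `ord false`, or `none`.
`vs (C true ++ C false)` is a permutation of `D.allOf F ++ lk`: both are the concatenation of the
`vs (F i)` and the `vs (W i)` over all segments `i` in some order (`List.Perm`, `ord β` enumerates the
segments of label `β`).
-/

namespace Pool.Agent.Lib.TwoPaths

open Finset
open Pool.Agent.Lib.MP_952639_co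

private lemma m7_flat {α : Type*} {n : ℕ} (g : Fin n → List α) :
    (List.ofFn g).flatten = (List.finRange n).flatMap g := by
  rw [List.ofFn_eq_map, List.flatMap_def]

/-- all segments -/
private def m7_seg {N : ℕ} (m : Fin N → ℕ) : List (Σ a, Fin (m a)) :=
  (List.finRange N).sigma fun a => List.finRange (m a)

private lemma m7_seg_nodup {N : ℕ} (m : Fin N → ℕ) : (m7_seg m).Nodup :=
  (List.nodup_finRange N).sigma fun a => List.nodup_finRange (m a)

private lemma m7_mem_seg {N : ℕ} (m : Fin N → ℕ) (i : Σ a, Fin (m a)) : i ∈ m7_seg m := by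
  obtain ⟨a, s⟩ := i
  exact List.mem_sigma.mpr ⟨List.mem_finRange a, List.mem_finRange s⟩

private lemma m7_allOf {V : Type} [DecidableEq V] {r N : ℕ} (D : AbsFam V r N)
    (F : ∀ a, Fin (D.m a) → List (Fin r → V)) :
    D.allOf F = (m7_seg D.m).flatMap fun i => vs (F i.1 i.2) := by
  unfold AbsFam.allOf AbsFam.vertsOf m7_seg List.sigma
  rw [m7_flat, List.flatMap_assoc]
  congr 1
  funext a
  rw [m7_flat, List.flatMap_map]
  unfold vs
  rw [List.flatMap_assoc]

private lemma m7_chainP {V : Type} [DecidableEq V] {r : ℕ} {c : Finset V → Bool}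
    {P : (Fin r → V) → Prop} : ∀ (l : List (Fin r → V)) (a : Fin r → V),
    (a :: l).IsChain (RAdj c P) → ∀ x ∈ l, P x := by
  intro l
  induction l with
  | nil => intro a _ x hx; simp at hx
  | cons y l ih =>
    intro a h x hx
    rw [List.isChain_cons_cons] at h
    rcases List.mem_cons.mp hx with rfl | hx
    · exact h.1.2.2
    · exact ih y h.2 x hx

private lemma m7_chainP' {V : Type} [DecidableEq V] {r : ℕ} {c : Finset V → Bool}
    {P : (Fin r → V) → Prop} (l₁ l₂ : List (Fin r → V)) (h1 : l₁ ≠ [])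
    (h : (l₁ ++ l₂).IsChain (RAdj c P)) : ∀ x ∈ l₂, P x := by
  intro x hx
  obtain ⟨a, l, rfl⟩ := List.exists_cons_of_ne_nil h1
  exact m7_chainP (l ++ l₂) a (by simpa using h) x (List.mem_append_right _ hx)

theorem phase1 {V : Type} [Fintype V] [DecidableEq V] {r : ℕ} (hr : 1 ≤ r)
    (c : Finset V → Bool) (P : (Fin r → V) → Prop)
    (lam : ℕ) (hlam : 1 ≤ lam) (cc : ℝ) (hcc : 0 < cc) (A : Bool → Finset (Fin r → V))
    (hA : ∀ b, ∀ x ∈ A b, ∀ y ∈ A b,
      cc * (Fintype.card V : ℝ) ^ (r * (lam - 1)) ≤ (RM (RAdj c P) ^ lam) x y)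
    (hV : 0 < Fintype.card V) {N : ℕ} (D : AbsFam V r N) (F0 : Finset V)
    (hD : D.Valid (RAdj c P) A F0) (z : Fin r → V) (hz : z ∈ A true) (hzF : ∀ i, z i ∈ F0)
    (hF : r * ((F0.card : ℝ) + (D.allOf D.I).length + r * lam * (∑ a, D.m a : ℕ) + r * lam) ≤
      (Fintype.card V : ℝ) * cc / 2 ^ lam) :
    ∃ (Lk : List (Fin r → V)) (tgt : Bool → Option (Fin r → V)),
      (∀ x ∈ Lk, P x) ∧ (vs Lk).Nodup ∧ (∀ v ∈ vs Lk, v ∉ F0 ∧ v ∉ D.allOf D.I) ∧
      (vs Lk).length ≤ r * lam * ∑ a, D.m a ∧
      (∀ β z', tgt β = some z' → z' ∈ A β ∧ ∀ i, z' i ∈ F0 ∨ z' i ∈ D.allOf D.I) ∧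
      ∀ F, D.Repl (RAdj c P) F → ∃ C : Bool → List (Fin r → V),
        (C true ++ [z]).IsChain (RAdj c P) ∧ (C true ++ [z]).head? = tgt true ∧
        (C false).IsChain (RAdj c P) ∧ (C false).head? = tgt false ∧
        (vs (C true ++ C false)).Perm (D.allOf F ++ vs Lk) := by
  classical
  obtain ⟨hD1, hD2, hD3⟩ := hD
  have hch : ∀ i : Σ a, Fin (D.m a), ∃ p : (Fin r → V) × (Fin r → V),
      p.1 ∈ A (D.b i.1 i.2) ∧ p.2 ∈ A (D.b i.1 i.2) ∧ (D.I i.1 i.2).head? = some p.1 ∧
        (D.I i.1 i.2).getLast? = some p.2 := by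
    intro i
    obtain ⟨_, h, hh, e, he, h1, h2⟩ := hD1 i.1 i.2
    exact ⟨(h, e), hh, he, h1, h2⟩
  choose he hhe using hch
  have hseg : ∀ i : Σ a, Fin (D.m a), i ∈ m7_seg D.m := m7_mem_seg D.m
  have hallI := m7_allOf D D.I
  obtain ⟨tgt0, htgt0⟩ : ∃ tgt0 : Bool → Option (Fin r → V),
      tgt0 true = some z ∧ tgt0 false = none := ⟨fun β => if β then some z else none, by simp⟩
  have hcard : Fintype.card (Σ a, Fin (D.m a)) = ∑ a, D.m a := by
    rw [Fintype.card_sigma]
    simp
  have hFc : ((F0 ∪ (D.allOf D.I).toFinset).card : ℝ) ≤ F0.card + (D.allOf D.I).length := by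
    have h1 : (F0 ∪ (D.allOf D.I).toFinset).card ≤ F0.card + (D.allOf D.I).length :=
      (card_union_le _ _).trans (Nat.add_le_add_left (List.toFinset_card_le _) _)
    exact_mod_cast h1
  obtain ⟨ord, W, ho1, ho2, hW1, hW2, hW3, hW4⟩ := link hr (RAdj c P)
    (fun x y h => h.1.right_inj) lam hlam cc hcc A hA hV (ι := Σ a, Fin (D.m a))
    (fun i => D.b i.1 i.2) (fun i => (he i).1) (fun i => (he i).2)
    (fun i => (hhe i).1) (fun i => (hhe i).2.1) tgt0 (by
      intro β z' hz'
      cases β
      · rw [htgt0.2] at hz'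
        exact absurd hz' (by simp)
      · rw [htgt0.1] at hz'
        rw [← Option.some.inj hz']
        exact hz) (F0 ∪ (D.allOf D.I).toFinset) (by
      refine le_trans ?_ hF
      rw [hcard]
      have h1 : (0 : ℝ) ≤ r := Nat.cast_nonneg r
      apply mul_le_mul_of_nonneg_left _ h1
      linarith)
  -- the list of all segments
  obtain ⟨L, hL⟩ : ∃ L, L = ord true ++ ord false := ⟨_, rfl⟩
  have hLn : L.Nodup := by
    rw [hL, List.nodup_append]
    refine ⟨ho1 true, ho1 false, ?_⟩
    intro i hi j hj hij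
    subst hij
    have h1 := (ho2 true i).mp hi
    have h2 := (ho2 false i).mp hj
    rw [h1] at h2
    exact absurd h2 (by simp)
  have hLm : ∀ i, i ∈ L := by
    intro i
    rw [hL, List.mem_append]
    cases hb : D.b i.1 i.2
    · exact Or.inr ((ho2 false i).mpr hb)
    · exact Or.inl ((ho2 true i).mpr hb)
  have hLp : L.Perm (m7_seg D.m) := by
    rw [List.perm_ext_iff_of_nodup hLn (m7_seg_nodup D.m)]
    intro i
    exact ⟨fun _ => hseg i, fun _ => hLm i⟩
  have hvsf : ∀ G : (Σ a, Fin (D.m a)) → List (Fin r → V), ∀ l : List (Σ a, Fin (D.m a)),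
      vs (l.flatMap G) = l.flatMap fun i => vs (G i) := by
    intro G l
    unfold vs
    rw [List.flatMap_assoc]
  have hne : ∀ i : Σ a, Fin (D.m a), ∀ l : List (Fin r → V),
      l.head? = (D.I i.1 i.2).head? → ∃ l', l = (he i).1 :: l' := by
    intro i l hl
    rw [(hhe i).2.2.1] at hl
    cases l with
    | nil => simp at hl
    | cons x l =>
      simp only [List.head?_cons, Option.some.injEq] at hl
      exact ⟨l, by rw [hl]⟩
  -- the first tuple
  have hhead : ∀ (S : (Σ a, Fin (D.m a)) → List (Fin r → V)),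
      (∀ i, (S i).head? = (D.I i.1 i.2).head?) → ∀ (l : List (Σ a, Fin (D.m a)))
        (t : List (Fin r → V)), ((l.flatMap fun i => S i ++ W i) ++ t).head? =
          (match l with
            | [] => t.head?
            | i :: _ => some (he i).1) := by
    intro S hS l t
    cases l with
    | nil => simp
    | cons i l =>
      obtain ⟨l', hl'⟩ := hne i (S i) (hS i)
      rw [List.flatMap_cons, hl']
      simp
  refine ⟨L.flatMap W, fun β => (((ord β).flatMap fun i => D.I i.1 i.2 ++ W i) ++
    (tgt0 β).toList).head?, ?_, ?_, ?_, ?_, ?_, ?_⟩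
  · intro x hx
    obtain ⟨i, _, hxi⟩ := List.mem_flatMap.mp hx
    have hi : i ∈ ord (D.b i.1 i.2) := (ho2 _ i).mpr rfl
    obtain ⟨s, t, hst⟩ := List.append_of_mem hi
    have hc := hW4 (fun i => D.I i.1 i.2)
      (fun i => ⟨(hD1 i.1 i.2).1, (hhe i).2.2.1, (hhe i).2.2.2⟩) (D.b i.1 i.2)
    rw [hst, List.flatMap_append, List.flatMap_cons] at hc
    refine m7_chainP' (c := c) (s.flatMap (fun i => D.I i.1 i.2 ++ W i) ++ D.I i.1 i.2)
      (W i ++ (t.flatMap (fun i => D.I i.1 i.2 ++ W i) ++ (tgt0 (D.b i.1 i.2)).toList)) ?_ ?_ x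
      (List.mem_append_left _ hxi)
    · obtain ⟨l', hl'⟩ := hne i (D.I i.1 i.2) rfl
      rw [hl']
      simp
    · simpa [List.append_assoc] using hc
  · rw [hvsf, List.nodup_flatMap]
    refine ⟨fun i _ => (hW2 i).1, ?_⟩
    refine hLn.pairwise_of_forall_ne ?_
    intro i _ j _ hij v hv hv'
    exact hW3 i j hij v hv hv'
  · intro v hv
    rw [hvsf, List.mem_flatMap] at hv
    obtain ⟨i, _, hvi⟩ := hv
    have h1 := (hW2 i).2 v hvi
    rw [mem_union, List.mem_toFinset] at h1
    push Not at h1
    exact h1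
  · rw [length_vs, mul_assoc]
    apply Nat.mul_le_mul_left
    rw [List.length_flatMap]
    refine (List.sum_le_card_nsmul _ lam ?_).trans ?_
    · intro x hx
      obtain ⟨i, _, rfl⟩ := List.mem_map.mp hx
      exact hW1 i
    · rw [List.length_map, smul_eq_mul, mul_comm, ← hcard]
      exact Nat.mul_le_mul_left _ hLn.length_le_card
  · intro β z' hz'
    simp only at hz'
    rw [hhead (fun i => D.I i.1 i.2) (fun _ => rfl)] at hz'
    cases ho : ord β with
    | nil =>
      rw [ho] at hz'
      simp only at hz'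
      cases β
      · rw [htgt0.2] at hz'
        simp at hz'
      · rw [htgt0.1] at hz'
        simp only [Option.toList_some, List.head?_cons, Option.some.injEq] at hz'
        rw [← hz']
        exact ⟨hz, fun i => Or.inl (hzF i)⟩
    | cons i l =>
      rw [ho] at hz'
      simp only [Option.some.injEq] at hz'
      have hb : D.b i.1 i.2 = β := (ho2 β i).mp (by rw [ho]; simp)
      rw [← hz', ← hb]
      refine ⟨(hhe i).1, fun k => Or.inr ?_⟩
      rw [hallI, List.mem_flatMap]
      refine ⟨i, hseg i, ?_⟩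
      obtain ⟨l', hl'⟩ := hne i (D.I i.1 i.2) rfl
      rw [mem_vs]
      exact ⟨(he i).1, by rw [hl']; simp, k, rfl⟩
  · intro F hF'
    have hS : ∀ i : Σ a, Fin (D.m a), (F i.1 i.2).IsChain (RAdj c P) ∧
        (F i.1 i.2).head? = some (he i).1 ∧ (F i.1 i.2).getLast? = some (he i).2 := by
      intro i
      obtain ⟨h1, h2, h3⟩ := hF' i.1 i.2
      exact ⟨h1, h2.trans (hhe i).2.2.1, h3.trans (hhe i).2.2.2⟩
    have hc := hW4 (fun i => F i.1 i.2) hS
    have hct := hc true
    have hcf := hc false
    rw [htgt0.1] at hct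
    rw [htgt0.2] at hcf
    refine ⟨fun β => (ord β).flatMap fun i => F i.1 i.2 ++ W i, by simpa using hct, ?_,
      by simpa using hcf, ?_, ?_⟩
    · simp only
      rw [hhead (fun i => D.I i.1 i.2) (fun _ => rfl),
        hhead (fun i => F i.1 i.2) (fun i => (hF' i.1 i.2).2.1), htgt0.1]
      rfl
    · simp only
      have h1 := hhead (fun i => F i.1 i.2) (fun i => (hF' i.1 i.2).2.1) (ord false) []
      rw [List.append_nil] at h1
      rw [hhead (fun i => D.I i.1 i.2) (fun _ => rfl), h1, htgt0.2]
      rfl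
    · have h1 : (ord true).flatMap (fun i => F i.1 i.2 ++ W i) ++
          (ord false).flatMap (fun i => F i.1 i.2 ++ W i) =
          L.flatMap (fun i => F i.1 i.2 ++ W i) := by
        rw [hL, List.flatMap_append]
      simp only
      rw [h1, hvsf, hvsf, m7_allOf]
      have h2 : (fun i : Σ a, Fin (D.m a) => vs (F i.1 i.2 ++ W i)) =
          fun i => vs (F i.1 i.2) ++ vs (W i) := by
        funext i
        unfold vs
        rw [List.flatMap_append]
      rw [h2]
      refine (List.flatMap_append_perm L (fun i => vs (F i.1 i.2)) fun i => vs (W i)).symm.trans ?_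
      exact (List.Perm.flatMap_right _ hLp).append_right _

end Pool.Agent.Lib.TwoPaths
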