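import Pool.Agent.Lib.TwoPaths.M5
import Pool.Agent.Lib.TwoPaths.M6

/-!
# M8: phase 2, covering almost everything outside a set by two chains ending in given tuples

CONSTANTS. `θ₁ = min (1/4) (cc/(4 r 2^lam))`.  Given `ε`: `κ` from `tiling_off r hr (ε/2)`.  Given
`β`: `ν = min (ε/(2 (r² lam r + r + r)) ) (cc/(8 r (2 r + r lam) 2^lam))` (any sufficiently small
positive number), `n₀` from `tiling_off` and large enough that `r · r lam ≤ n cc/(8·2^lam)`.

PROOF.  `R = RAdj c P`.  `tiling_off` (with `W = F1`, `2 |F1| ≤ n`) gives blocks `D t`, `t < T ≤ ν n`.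
Let `ι = {t // 2 ≤ m t}`.  In each block choose tuples `s t`, `e t` with entries `s t i ≠ e t i` in
`D t i`; they are in `A (b t)`.  `link` with index type `ι`, `h = s`, `e = e`, the targets `tgt`, and
`F = F1 ∪ ⋃_t (entries of s t and e t)`, `|F| ≤ |F1| + 2 r T`; its condition holds by the choice of
`θ₁, ν, n₀`: `r |F1| ≤ n cc/(4·2^lam)`, `r (2 r T + r lam T) ≤ n cc/(8·2^lam)`, etc.  Let
`X = ⋃ vs (W t)`, `|X| ≤ T r lam`; `X` is disjoint from `F`.
`exists_path` for each `t ∈ ι` gives a list `Q t` of tuples of the block, disjoint from `X`, such that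
`S t = s t :: (Q t ++ [e t])` has distinct vertices and
`m t ≤ (Q t).length + 2 + |X ∩ ⋃ D t|`.  `S t` is a chain of `R`: for `x, y` in the same block all
mixtures are in `A (b t)`, hence of colour `col (b t)` and with `P` (so `Adj c x y`, `P x`, `P y`).
Put `B β = (ord β).flatMap (fun t => S t ++ W t)`; `B β ++ (tgt β).toList` is a chain.  Every tuple of
`B β` has colour `col β` and satisfies `P`: for `S t` clear, for `W t` by `chain_col` (its chain
contains `e t ∈ A β`).  If `A β = ∅` there is no `t ∈ ι` with `b t = β` (`s t ∈ A (b t)`), so `ord β = []` and `B β = []`.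
The vertices are distinct: the `S t` lie in disjoint blocks outside `X` and
`F1`, the `W t` are disjoint from `F` and from each other and from the `S t` (which avoid `X`).  They are
outside `F1`.  Number of vertices: at least
`∑_{t ∈ ι} r (m t - |X ∩ ⋃ D t|) ≥ ∑_t r m t - r T - r |X| ≥ |F1ᶜ| - (ε/2) n - (r + r² lam) T
≥ n - |F1| - ε n`.
-/

namespace Pool.Agent.Lib.TwoPaths

open Finset
open Pool.Agent.Lib.MP_952639_co

/-- The core of the covering: blocks of size at least two, linked. -/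
private theorem cover_core {V : Type} [Fintype V] [DecidableEq V] {r : ℕ} (hr : 1 ≤ r) (lam : ℕ)
    (hlam : 1 ≤ lam) (cc : ℝ) (hcc : 0 < cc) (c : Finset V → Bool) (P : (Fin r → V) → Prop)
    (A : Bool → Finset (Fin r → V)) (col : Bool → Bool) (F1 : Finset V)
    (tgt : Bool → Option (Fin r → V)) (hV : 0 < Fintype.card V)
    (h1 : ∀ b, ∀ x ∈ A b, Col c (col b) x ∧ P x)
    (h3 : ∀ b, ∀ x ∈ A b, ∀ y ∈ A b,
      cc * (Fintype.card V : ℝ) ^ (r * (lam - 1)) ≤ (RM (RAdj c P) ^ lam) x y)
    (htgt : ∀ β z, tgt β = some z → z ∈ A β)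
    {J : Type} [Fintype J] [DecidableEq J] (b : J → Bool) (D : J → Fin r → Finset V) (m : J → ℕ)
    (hm2 : ∀ j, 2 ≤ m j) (hDm : ∀ j i, (D j i).card = m j)
    (hD : ∀ j i j' i', (j, i) ≠ (j', i') → Disjoint (D j i) (D j' i'))
    (hDA : ∀ j (x : Fin r → V), (∀ i, x i ∈ D j i) → x ∈ A (b j))
    (hDF : ∀ j i, Disjoint (D j i) F1)
    (hF : r * ((F1.card : ℝ) + 2 * r * Fintype.card J + r * lam * Fintype.card J + r * lam) ≤
      (Fintype.card V : ℝ) * cc / 2 ^ lam) :
    ∃ B : Bool → List (Fin r → V),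
        (∀ β, (B β ++ (tgt β).toList).IsChain (RAdj c P)) ∧
        (∀ β, ∀ x ∈ B β, Col c (col β) x ∧ P x) ∧ (∀ β, A β = ∅ → B β = []) ∧
        (vs (B true ++ B false)).Nodup ∧ (∀ v ∈ vs (B true ++ B false), v ∉ F1) ∧
        ∑ j, r * m j ≤
          (vs (B true ++ B false)).length + r * (Fintype.card J * (r * lam)) := by
  -- start and end tuples
  have hex : ∀ j i, ∃ p : V × V, p.1 ∈ D j i ∧ p.2 ∈ D j i ∧ p.1 ≠ p.2 := by
    intro j i
    have : 1 < (D j i).card := by rw [hDm]; exact hm2 j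
    obtain ⟨a, ha, a', ha', haa⟩ := Finset.one_lt_card.mp this
    exact ⟨(a, a'), ha, ha', haa⟩
  choose p hp1 hp2 hp3 using hex
  set s : J → Fin r → V := fun j i => (p j i).1 with hs
  set e : J → Fin r → V := fun j i => (p j i).2 with he
  have hsA : ∀ j, s j ∈ A (b j) := fun j => hDA j _ (fun i => hp1 j i)
  have heA : ∀ j, e j ∈ A (b j) := fun j => hDA j _ (fun i => hp2 j i)
  -- connectors
  set F0 : Finset V := univ.biUnion (fun j => univ.image (s j) ∪ univ.image (e j)) with hF0
  have hF0c : (F0.card : ℝ) ≤ 2 * r * Fintype.card J := by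
    have : F0.card ≤ Fintype.card J * (2 * r) := by
      rw [hF0, ← card_univ (α := J)]
      apply card_biUnion_le_card_mul
      intro j _
      refine (card_union_le _ _).trans ?_
      have h1 : (univ.image (s j)).card ≤ r := by simpa using card_image_le (s := univ) (f := s j)
      have h2 : (univ.image (e j)).card ≤ r := by simpa using card_image_le (s := univ) (f := e j)
      omega
    have h' : (F0.card : ℝ) ≤ ((Fintype.card J * (2 * r) : ℕ) : ℝ) := by exact_mod_cast this
    refine h'.trans (le_of_eq ?_)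
    push_cast; ring
  have hFc : ((F1 ∪ F0).card : ℝ) ≤ F1.card + 2 * r * Fintype.card J := by
    have h5 : ((F1 ∪ F0).card : ℝ) ≤ F1.card + F0.card := by
      exact_mod_cast card_union_le F1 F0
    linarith
  obtain ⟨ord, W, hon, hob, hWl, hW1, hW2, hWS⟩ := link hr (RAdj c P)
    (fun x y h => h.1.right_inj) lam hlam cc hcc A h3 hV b s e hsA heA tgt htgt (F1 ∪ F0) (by
      refine le_trans ?_ hF
      apply mul_le_mul_of_nonneg_left _ (Nat.cast_nonneg r)
      linarith)
  set X : Finset V := univ.biUnion (fun j => (vs (W j)).toFinset) with hX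
  have hWX : ∀ j, ∀ v ∈ vs (W j), v ∈ X := fun j v hv =>
    mem_biUnion.mpr ⟨j, mem_univ j, List.mem_toFinset.mpr hv⟩
  have hXF : ∀ v ∈ X, v ∉ F1 ∪ F0 := by
    intro v hv
    obtain ⟨j, -, hj⟩ := mem_biUnion.mp hv
    exact (hW1 j).2 v (List.mem_toFinset.mp hj)
  have hXc : X.card ≤ Fintype.card J * (r * lam) := by
    rw [hX, ← card_univ (α := J)]
    apply card_biUnion_le_card_mul
    intro j _
    refine (List.toFinset_card_le _).trans ?_
    rw [length_vs]
    exact Nat.mul_le_mul_left _ (hWl j)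
  -- paths
  have hpath : ∀ j, ∃ I : List (Fin r → V), (∀ x ∈ s j :: (I ++ [e j]), ∀ i, x i ∈ D j i ∧ x i ∉ X) ∧
      (vs (s j :: (I ++ [e j]))).Nodup ∧
      m j ≤ I.length + 2 + (X ∩ univ.biUnion (D j)).card := by
    intro j
    refine exists_path (D j) (fun i i' hii => hD j i j i' (by simpa using hii)) (m j) (hDm j) X
      (s j) (e j) (fun i => hp1 j i) (fun i => hp2 j i) (fun i => hp3 j i) ?_ ?_
    · intro i hi
      exact hXF _ hi (mem_union_right _ (mem_biUnion.mpr ⟨j, mem_univ j,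
        mem_union_left _ (mem_image_of_mem _ (mem_univ i))⟩))
    · intro i hi
      exact hXF _ hi (mem_union_right _ (mem_biUnion.mpr ⟨j, mem_univ j,
        mem_union_right _ (mem_image_of_mem _ (mem_univ i))⟩))
  choose I hI1 hI2 hI3 using hpath
  set S : J → List (Fin r → V) := fun j => s j :: (I j ++ [e j]) with hS
  -- chains
  have hadj : ∀ j (x y : Fin r → V), (∀ i, x i ∈ D j i) → (∀ i, y i ∈ D j i) →
      RAdj c P x y := by
    intro j x y hx hy
    refine ⟨⟨col (b j), fun K => ?_⟩, (h1 _ _ (hDA j x hx)).2, (h1 _ _ (hDA j y hy)).2⟩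
    have hmix : mix x y K ∈ A (b j) := hDA j _ (fun i => by
      rw [mix]; split_ifs
      · exact hy i
      · exact hx i)
    exact (h1 _ _ hmix).1
  have hSc : ∀ j, (S j).IsChain (RAdj c P) ∧ (S j).head? = some (s j) ∧
      (S j).getLast? = some (e j) := by
    intro j
    refine ⟨?_, rfl, ?_⟩
    · apply List.Pairwise.isChain
      have : (S j).Pairwise (fun _ _ => True) := by
        apply List.pairwise_of_forall
        simp
      refine this.imp_of_mem ?_
      intro x y hx hy _
      exact hadj j x y (fun i => (hI1 j x hx i).1) (fun i => (hI1 j y hy i).1)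
    · have e1 : S j = (s j :: I j) ++ [e j] := by simp [hS]
      rw [e1, List.getLast?_append]
      rfl
  have hch := hWS S hSc
  set f : J → List (Fin r → V) := fun j => S j ++ W j with hf
  set B : Bool → List (Fin r → V) := fun β => (ord β).flatMap f with hB
  set L := ord true ++ ord false with hL
  have hLn : L.Nodup := by
    rw [hL, List.nodup_append]
    refine ⟨hon _, hon _, ?_⟩
    intro j hj j' hj' hjj
    rw [hob] at hj hj'
    rw [hjj, hj'] at hj
    exact absurd hj (by simp)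
  have hLm : ∀ j, j ∈ L := by
    intro j
    rw [hL, List.mem_append, hob, hob]
    cases b j <;> simp
  have e0 : vs (B true ++ B false) = L.flatMap (fun j => vs (f j)) := by
    rw [hB, hL]
    simp only [vs]
    rw [← List.flatMap_append, List.flatMap_assoc]
  have hvsf : ∀ j, vs (f j) = vs (S j) ++ vs (W j) := by
    intro j
    rw [hf]
    simp only [vs]
    rw [List.flatMap_append]
  refine ⟨B, hch, ?_, ?_, ?_, ?_, ?_⟩
  · intro β x hx
    have hne : ord β ≠ [] := by
      intro h
      simp [hB, h] at hx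
    obtain ⟨t0, tl, htl⟩ := List.exists_cons_of_ne_nil hne
    have hb : b t0 = β := (hob β _).mp (by rw [htl]; simp)
    have hsB : s t0 ∈ B β := by simp [hB, htl, hf, hS]
    have h5 := h1 _ _ (hsA t0)
    rw [hb] at h5
    exact chain_col (hch β).left_of_append hsB h5.1 h5.2 x hx
  · intro β hAβ
    have hord : ord β = [] := by
      by_contra hne
      obtain ⟨t0, tl, htl⟩ := List.exists_cons_of_ne_nil hne
      have hb : b t0 = β := (hob β _).mp (by rw [htl]; simp)
      have h5 := hsA t0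
      rw [hb, hAβ] at h5
      simp at h5
    simp [hB, hord]
  · rw [e0, List.nodup_flatMap]
    refine ⟨fun j _ => ?_, ?_⟩
    · rw [hvsf, List.nodup_append]
      refine ⟨hI2 j, (hW1 j).1, ?_⟩
      intro v hv v' hv' hvv
      subst hvv
      obtain ⟨x, hx, i, rfl⟩ := mem_vs.mp hv
      exact (hI1 j x hx i).2 (hWX j _ hv')
    · have : L.Pairwise (fun a a' => a ≠ a') := hLn
      refine this.imp ?_
      intro j j' hjj v hv hv'
      simp only [] at hv hv'
      rw [hvsf, List.mem_append] at hv hv'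
      rcases hv with hv | hv
      · obtain ⟨x, hx, i, rfl⟩ := mem_vs.mp hv
        rcases hv' with hv' | hv'
        · obtain ⟨x', hx', i', hxx⟩ := mem_vs.mp hv'
          have h5 := hD j i j' i' (by simp [hjj])
          rw [Finset.disjoint_left] at h5
          exact h5 (hI1 j x hx i).1 (hxx ▸ (hI1 j' x' hx' i').1)
        · exact (hI1 j x hx i).2 (hWX j' _ hv')
      · rcases hv' with hv' | hv'
        · obtain ⟨x', hx', i', rfl⟩ := mem_vs.mp hv'
          exact (hI1 j' x' hx' i').2 (hWX j _ hv)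
        · exact hW2 j j' hjj v hv hv'
  · intro v hv
    rw [e0, List.mem_flatMap] at hv
    obtain ⟨j, -, hj⟩ := hv
    rw [hvsf, List.mem_append] at hj
    rcases hj with hj | hj
    · obtain ⟨x, hx, i, rfl⟩ := mem_vs.mp hj
      exact Finset.disjoint_left.mp (hDF j i) (hI1 j x hx i).1
    · intro hv1
      exact (hW1 j).2 v hj (mem_union_left _ hv1)
  · rw [e0, List.length_flatMap]
    have hsum : (L.map (fun j => (vs (f j)).length)).sum = ∑ j, (vs (f j)).length := by
      rw [← List.sum_toFinset _ hLn]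
      congr 1
      ext j; simp [hLm j]
    rw [hsum]
    have hone : ∀ j, r * m j ≤ (vs (f j)).length + r * (X ∩ univ.biUnion (D j)).card := by
      intro j
      rw [length_vs]
      have h6 : m j ≤ (f j).length + (X ∩ univ.biUnion (D j)).card := by
        have := hI3 j
        simp only [hf, hS, List.length_cons, List.length_append, List.length_nil]
        omega
      calc r * m j ≤ r * ((f j).length + (X ∩ univ.biUnion (D j)).card) :=
            Nat.mul_le_mul_left _ h6
        _ = _ := by ring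
    have hXs : ∑ j, (X ∩ univ.biUnion (D j)).card ≤ X.card := by
      rw [← card_biUnion]
      · apply card_le_card
        intro v hv
        obtain ⟨j, -, hj⟩ := mem_biUnion.mp hv
        exact (mem_inter.mp hj).1
      · intro j _ j' _ hjj
        rw [Function.onFun, Finset.disjoint_left]
        intro v hv hv'
        obtain ⟨i, -, hi⟩ := mem_biUnion.mp (mem_inter.mp hv).2
        obtain ⟨i', -, hi'⟩ := mem_biUnion.mp (mem_inter.mp hv').2
        exact (Finset.disjoint_left.mp (hD j i j' i' (by simp [hjj]))) hi hi'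
    calc ∑ j, r * m j ≤ ∑ j, ((vs (f j)).length + r * (X ∩ univ.biUnion (D j)).card) :=
          Finset.sum_le_sum fun j _ => hone j
      _ = ∑ j, (vs (f j)).length + r * ∑ j, (X ∩ univ.biUnion (D j)).card := by
          rw [Finset.sum_add_distrib, Finset.mul_sum]
      _ ≤ _ := by
          apply Nat.add_le_add_left
          exact Nat.mul_le_mul_left _ (hXs.trans hXc)

theorem cover (r : ℕ) (hr : 1 ≤ r) (lam : ℕ) (hlam : 1 ≤ lam) (cc : ℝ) (hcc : 0 < cc) :
    ∃ θ₁ : ℝ, 0 < θ₁ ∧ ∀ ε : ℝ, 0 < ε → ∃ κ : ℝ, 0 < κ ∧ κ * r < 1 ∧ ∀ β : ℝ, 0 < β →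
      ∃ n₀ : ℕ, ∀ (V : Type) [Fintype V] [DecidableEq V], n₀ ≤ Fintype.card V →
      ∀ (c : Finset V → Bool) (P : (Fin r → V) → Prop) (A : Bool → Finset (Fin r → V))
        (col : Bool → Bool) (F1 : Finset V) (tgt : Bool → Option (Fin r → V)),
      (∀ b, ∀ x ∈ A b, Col c (col b) x ∧ P x) →
      (∀ b, ∀ x ∈ A b, ∀ y ∈ A b,
        cc * (Fintype.card V : ℝ) ^ (r * (lam - 1)) ≤ (RM (RAdj c P) ^ lam) x y) →
      (F1.card : ℝ) ≤ θ₁ * Fintype.card V →
      (∀ β z, tgt β = some z → z ∈ A β ∧ ∀ i, z i ∈ F1) →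
      RobustOff κ β A F1 →
      ∃ B : Bool → List (Fin r → V),
        (∀ β, (B β ++ (tgt β).toList).IsChain (RAdj c P)) ∧
        (∀ β, ∀ x ∈ B β, Col c (col β) x ∧ P x) ∧ (∀ β, A β = ∅ → B β = []) ∧
        (vs (B true ++ B false)).Nodup ∧ (∀ v ∈ vs (B true ++ B false), v ∉ F1) ∧
        (Fintype.card V : ℝ) - F1.card - ε * Fintype.card V ≤
          ((vs (B true ++ B false)).length : ℝ) := by
  set a1 : ℝ := r + r * (r * lam) + 1 with ha1
  set a2 : ℝ := r * (2 * r + r * lam) + 1 with ha2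
  have ha1p : 0 < a1 := by positivity
  have ha2p : 0 < a2 := by positivity
  have hrp : (0 : ℝ) < r := by exact_mod_cast hr
  have hrn : (0 : ℝ) ≤ r := hrp.le
  refine ⟨min (1 / 4) (cc / (4 * r * 2 ^ lam)), by positivity, ?_⟩
  intro ε hε
  obtain ⟨κ, hκ, hκr, htil⟩ := tiling_off r hr (ε / 2) (by positivity)
  refine ⟨κ, hκ, hκr, ?_⟩
  intro β hβ
  obtain ⟨n₁, hn₁⟩ := htil β hβ (min (ε / (2 * a1)) (cc / (4 * a2 * 2 ^ lam))) (by positivity)
  refine ⟨n₁ + ⌈(4 * (r * (r * lam)) : ℝ) * 2 ^ lam / cc⌉₊ + 1, ?_⟩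
  intro V _ _ hn c P A col F1 tgt h1 h3 hF1 htgt hrob
  set n : ℝ := (Fintype.card V : ℝ) with hndef
  have hn1 : (4 * (r * (r * lam)) : ℝ) * 2 ^ lam / cc ≤ n := by
    have h5 := Nat.le_ceil ((4 * (r * (r * lam)) : ℝ) * 2 ^ lam / cc)
    have h6 : ((⌈(4 * (r * (r * lam)) : ℝ) * 2 ^ lam / cc⌉₊ : ℕ) : ℝ) ≤ n := by
      rw [hndef]
      exact_mod_cast (by omega :
        ⌈(4 * (r * (r * lam)) : ℝ) * 2 ^ lam / cc⌉₊ ≤ Fintype.card V)
    linarith
  have hVpos : 0 < Fintype.card V := by omega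
  have hn0 : 0 < n := by rw [hndef]; exact_mod_cast hVpos
  have hF1a : (F1.card : ℝ) ≤ 1 / 4 * n :=
    hF1.trans (mul_le_mul_of_nonneg_right (min_le_left _ _) hn0.le)
  have hF1b : (r : ℝ) * F1.card ≤ n * cc / 2 ^ lam / 4 := by
    have h5 : (F1.card : ℝ) ≤ cc / (4 * r * 2 ^ lam) * n :=
      hF1.trans (mul_le_mul_of_nonneg_right (min_le_right _ _) hn0.le)
    calc (r : ℝ) * F1.card ≤ r * (cc / (4 * r * 2 ^ lam) * n) :=
          mul_le_mul_of_nonneg_left h5 hrn
      _ = _ := by field_simp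
  have hF2 : 2 * F1.card ≤ Fintype.card V := by
    have h5 : (2 : ℝ) * F1.card ≤ n := by linarith
    rw [hndef] at h5
    exact_mod_cast h5
  obtain ⟨T, b, D, m, hT, hDm, hD, hDA, hDW, hsumm⟩ := hn₁ V (by omega) A F1
    (fun b x hx => (h1 b x hx).1.1) hF2 hrob
  set J := {t : Fin T // 2 ≤ m t} with hJ
  have hJT : (Fintype.card J : ℝ) ≤ T := by
    have : Fintype.card J ≤ T := by
      simpa using Fintype.card_subtype_le (fun t : Fin T => 2 ≤ m t)
    exact_mod_cast this
  have hT1 : (T : ℝ) * a1 ≤ ε / 2 * n := by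
    have : (T : ℝ) ≤ ε / (2 * a1) * n :=
      hT.trans (mul_le_mul_of_nonneg_right (min_le_left _ _) hn0.le)
    calc (T : ℝ) * a1 ≤ (ε / (2 * a1) * n) * a1 := mul_le_mul_of_nonneg_right this ha1p.le
      _ = ε / 2 * n := by field_simp
  have hT2 : (T : ℝ) * a2 ≤ n * cc / 2 ^ lam / 4 := by
    have : (T : ℝ) ≤ cc / (4 * a2 * 2 ^ lam) * n :=
      hT.trans (mul_le_mul_of_nonneg_right (min_le_right _ _) hn0.le)
    calc (T : ℝ) * a2 ≤ (cc / (4 * a2 * 2 ^ lam) * n) * a2 :=
          mul_le_mul_of_nonneg_right this ha2p.le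
      _ = _ := by field_simp
  have hTn : (0 : ℝ) ≤ T := Nat.cast_nonneg T
  have hcJ : (0 : ℝ) ≤ Fintype.card J := Nat.cast_nonneg _
  have hln : (0 : ℝ) ≤ lam := Nat.cast_nonneg lam
  have hE : (r * (r * lam) : ℝ) ≤ n * cc / 2 ^ lam / 4 := by
    rw [div_le_iff₀ hcc] at hn1
    rw [le_div_iff₀ (by norm_num), le_div_iff₀ (by positivity)]
    linarith
  have hq : (0 : ℝ) ≤ n * cc / 2 ^ lam := by positivity
  have hF : r * ((F1.card : ℝ) + 2 * r * Fintype.card J + r * lam * Fintype.card J + r * lam) ≤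
      n * cc / 2 ^ lam := by
    have hb1 : (2 * r + r * lam : ℝ) * Fintype.card J ≤ (2 * r + r * lam) * T :=
      mul_le_mul_of_nonneg_left hJT (by positivity)
    have hb2 : r * ((2 * r + r * lam : ℝ) * Fintype.card J) ≤ T * a2 := by
      calc r * ((2 * r + r * lam : ℝ) * Fintype.card J) ≤ r * ((2 * r + r * lam) * T) :=
            mul_le_mul_of_nonneg_left hb1 hrn
        _ ≤ T * a2 := by rw [ha2]; nlinarith
    calc r * ((F1.card : ℝ) + 2 * r * Fintype.card J + r * lam * Fintype.card J + r * lam)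
        = r * F1.card + r * ((2 * r + r * lam : ℝ) * Fintype.card J) + r * (r * lam) := by ring
      _ ≤ n * cc / 2 ^ lam := by linarith
  obtain ⟨B, hB1, hB2, hB3, hB4, hB5, hB6⟩ := cover_core hr lam hlam cc hcc c P A col F1 tgt
    hVpos h1 h3 (fun β z hz => (htgt β z hz).1)
    (J := J) (fun j => b j.1) (fun j => D j.1) (fun j => m j.1) (fun j => j.2)
    (fun j i => hDm j.1 i)
    (fun j i j' i' hne => hD j.1 i j'.1 i' (by
      intro h
      apply hne
      rw [Prod.mk.injEq] at h ⊢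
      exact ⟨Subtype.ext h.1, h.2⟩))
    (fun j x hx => hDA j.1 x hx) (fun j i => hDW j.1 i) hF
  refine ⟨B, hB1, hB2, hB3, hB4, hB5, ?_⟩
  have hsum : ∑ t, (r : ℝ) * m t ≤ ∑ j : J, (r : ℝ) * m j.1 + r * T := by
    have e1 : ∑ j : J, (r : ℝ) * m j.1 = ∑ t ∈ univ.filter (fun t => 2 ≤ m t), (r : ℝ) * m t :=
      (Finset.sum_subtype (univ.filter (fun t => 2 ≤ m t)) (by intro x; simp)
        (fun t => (r : ℝ) * m t)).symm
    rw [e1, ← Finset.sum_filter_add_sum_filter_not univ (fun t => 2 ≤ m t)]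
    have e2 : ∑ t ∈ univ.filter (fun t => ¬ 2 ≤ m t), (r : ℝ) * m t ≤ r * T := by
      calc ∑ t ∈ univ.filter (fun t => ¬ 2 ≤ m t), (r : ℝ) * m t
          ≤ ∑ t ∈ univ.filter (fun t => ¬ 2 ≤ m t), (r : ℝ) * 1 := by
            apply Finset.sum_le_sum
            intro t ht
            apply mul_le_mul_of_nonneg_left _ hrn
            have : m t ≤ 1 := by
              have := (mem_filter.mp ht).2
              omega
            exact_mod_cast this
        _ = ((univ.filter (fun t => ¬ 2 ≤ m t)).card : ℝ) * r := by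
            rw [Finset.sum_const, nsmul_eq_mul]; ring
        _ ≤ (T : ℝ) * r := by
            apply mul_le_mul_of_nonneg_right _ hrn
            have := card_filter_le (univ : Finset (Fin T)) (fun t => ¬ 2 ≤ m t)
            rw [card_univ, Fintype.card_fin] at this
            exact_mod_cast this
        _ = r * T := by ring
    linarith
  have h4' : ∑ j : J, (r : ℝ) * m j.1 ≤
      ((vs (B true ++ B false)).length : ℝ) +
        r * (Fintype.card J * (r * lam)) := by exact_mod_cast hB6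
  have h5 : r * (Fintype.card J * (r * lam) : ℝ) + r * T ≤ T * a1 := by
    have h6 : (Fintype.card J : ℝ) * (r * lam) ≤ T * (r * lam) :=
      mul_le_mul_of_nonneg_right hJT (by positivity)
    have h7 := mul_le_mul_of_nonneg_left h6 hrn
    rw [ha1]
    nlinarith
  have h8 : (F1ᶜ.card : ℝ) = n - F1.card := by
    rw [card_compl, Nat.cast_sub (card_le_univ F1)]
  linarith

end Pool.Agent.Lib.TwoPaths
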