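import Pool.Agent.Lib.TwoPaths.M4
import Pool.Agent.Lib.TwoPaths.M7
import Pool.Agent.Lib.TwoPaths.M8

/-!
# M9: the master lemma

CONSTANTS.  `θ₁` from `cover`; WLOG `θ ≤ θ₁` (the hypothesis `hrob` is only used for sets `W` with
`|W| ≤ min θ θ₁ n`).  `m₀` from `absorber_family` (for `cc, c₁, tm`).  Let
`C = m₀ + r lam m₀ + 1` and `γ₀ = min (min θ θ₁/(2 C)) (cc/(4 r C 2^lam))`.  `absorber_family` gives `μ, θ₀'`.  `θ₀ = min θ₀' (min (min θ θ₁/2) (cc/(8 r 2^lam)))`.
`ε = μ` and `κ` from `cover` with this `ε`.  Given `β`, `n₀` is the maximum of the `n₀`'s and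
sufficiently large.

PROOF.  `R = RAdj c P`, `n = |V|`.  Let `𝒯` be the set of injective `T : Fin r → V` with `T i ∉ F0`,
`∑ wt (T i) = 0`.  `absorber_family` gives `D` with `N ≤ γ₀ n`.  `(D.allOf D.I).length ≤ m₀ N`,
`∑ m a ≤ m₀ N`.  The condition of `phase1` holds:
`r (|F0| + m₀ N + r lam m₀ N + r lam) ≤ n cc/2^lam` by the choices.  `phase1` gives `Lk, tgt`.
Let `F1 = F0 ∪ {vertices of D.allOf D.I} ∪ {vertices of Lk}`; `|F1| ≤ θ₀ n + C γ₀ n ≤ min θ θ₁ n`.
Every tuple of the segments `D.I a s` satisfies `P` (a chain of `RAdj c P` with at least two members,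
or a single tuple in `A ⊆ K`), hence has weight `0`; the same for `Lk`.  As the vertices of `D.allOf D.I`,
`Lk` are distinct and outside `F0`: `∑_{v ∉ F1} wt v = ∑_{v ∉ F0} wt v = 0`.  So `RobustOff κ β A F1`.
`cover` gives `B`.  Let `Y` be the set of the vertices outside `F1` and outside `vs (B true ++ B false)`;
`|Y| ≤ ε n`.  `∑_Y wt = 0` and `r ∣ |Y|`, since `F0ᶜ` is the disjoint union of `Y` and of the vertices of
tuples of weight `0` (`D.I`, `Lk`, `B`), each tuple having `r` vertices.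
`hpart` gives a list `L = [T_1, …, T_k]` of tuples of weight `0` with `vs L` = `Y`, `k = |Y|/r ≤ μ n`;
`T_j ∈ 𝒯`.  Each `T_j` is absorbed by at least `μ n ≥ k` members of the family, so we can choose
distinct `a_1, …, a_k` with `D.Absorbs R a_j T_j` (greedily; `k - 1 < μ n`).  Let `F a = D.I a` for
`a ∉ {a_j}`, and for `a = a_j` the chains of `D.Absorbs`.  `D.Repl R F`, and
`D.allOf F` is a permutation of `D.allOf D.I ++ vs L`.  `phase1` gives `C`.  Put
`Q true = B true ++ C true`, `Q false = B false ++ C false`.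
Chains: `Q true ++ [z] = B true ++ (C true ++ [z])`; `B true ++ (tgt true).toList` is a chain and
`tgt true = (C true ++ [z]).head?`, so the concatenation of the two chains is a chain
(`List.isChain_append`); same for `false` (if `tgt false = none` then `C false = []`).
Colours: `z ∈ A true` has colour `col true`, so all tuples of `Q true` have (chain_col); for `false`:
if `C false = []` by `cover`; otherwise `tgt false = some z'`, `z' ∈ A false`, chain_col.
If `A false = ∅` then `B false = []` (`cover`) and `tgt false = none`, so `C false = []`.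
Vertices: `vs (Q true ++ Q false)` is a permutation of
`vs (B true ++ B false) ++ D.allOf D.I ++ vs Lk ++ vs L`, which has no repetition and enumerates
`V \ F0`.
-/

namespace Pool.Agent.Lib.TwoPaths

open Finset
open Pool.Agent.Lib.MP_952639_co

private lemma vs_append {V : Type*} {r : ℕ} (l l' : List (Fin r → V)) :
    vs (l ++ l') = vs l ++ vs l' := by
  simp [vs]

private lemma vs_flatten {V : Type*} {r : ℕ} (L : List (List (Fin r → V))) :
    vs L.flatten = (L.map vs).flatten := by
  induction L with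
  | nil => simp [vs]
  | cons a L ih => rw [List.flatten_cons, vs_append, ih, List.map_cons, List.flatten_cons]

/-- the tuples of a choice. -/
private def tl {V : Type} [DecidableEq V] {r N : ℕ} (D : AbsFam V r N)
    (F : ∀ a, Fin (D.m a) → List (Fin r → V)) : List (Fin r → V) :=
  (List.ofFn fun a => (List.ofFn (F a)).flatten).flatten

private lemma allOf_eq {V : Type} [DecidableEq V] {r N : ℕ} (D : AbsFam V r N)
    (F : ∀ a, Fin (D.m a) → List (Fin r → V)) : D.allOf F = vs (tl D F) := by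
  rw [tl, vs_flatten, AbsFam.allOf, List.map_ofFn]
  rfl

private lemma mem_tl {V : Type} [DecidableEq V] {r N : ℕ} {D : AbsFam V r N}
    {F : ∀ a, Fin (D.m a) → List (Fin r → V)} {x : Fin r → V} :
    x ∈ tl D F ↔ ∃ a s, x ∈ F a s := by
  simp [tl, List.mem_flatten, List.mem_ofFn]

private lemma coe_flatten {α : Type*} (L : List (List α)) :
    (L.flatten : Multiset α) = (L.map (fun l : List α => Multiset.ofList l)).sum := by
  induction L with
  | nil => simp
  | cons a L ih =>
    rw [List.flatten_cons, ← Multiset.coe_add, ih, List.map_cons, List.sum_cons]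

private lemma coe_flatten_ofFn {α : Type*} {N : ℕ} (g : Fin N → List α) :
    ((List.ofFn g).flatten : Multiset α) = ∑ a, Multiset.ofList (g a) := by
  rw [coe_flatten, List.map_ofFn, List.sum_ofFn]
  rfl

private lemma coe_vs {V : Type*} {r : ℕ} (L : List (Fin r → V)) :
    (vs L : Multiset V) = ∑ j : Fin L.length, Multiset.ofList (List.ofFn (L.get j)) := by
  have h : vs L = (List.ofFn fun j : Fin L.length => List.ofFn (L.get j)).flatten := by
    have h2 : (List.ofFn fun j : Fin L.length => List.ofFn (L.get j)) = L.map List.ofFn := by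
      conv_rhs => rw [← List.ofFn_get L, List.map_ofFn]
      rfl
    rw [h2, vs, List.flatMap_def]
  rw [h, coe_flatten_ofFn]

private lemma sum_toFinset_vs {V : Type*} [DecidableEq V] {r : ℕ} (wt : V → ℤ)
    (L : List (Fin r → V)) (hL : (vs L).Nodup) (h : ∀ x ∈ L, ∑ i, wt (x i) = 0) :
    ∑ v ∈ (vs L).toFinset, wt v = 0 := by
  rw [List.sum_toFinset _ hL]
  clear hL
  induction L with
  | nil => simp [vs]
  | cons a L ih =>
    have e : vs (a :: L) = List.ofFn a ++ vs L := by simp [vs]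
    rw [e, List.map_append, List.sum_append, ih fun x hx => h x (List.mem_cons_of_mem _ hx),
      List.map_ofFn, List.sum_ofFn, add_zero]
    exact h a List.mem_cons_self

private lemma sum_compl_union {V : Type*} [Fintype V] [DecidableEq V] {r : ℕ} (wt : V → ℤ)
    (F : Finset V) (L : List (Fin r → V)) (hL : (vs L).Nodup)
    (h : ∀ x ∈ L, ∑ i, wt (x i) = 0) (hF : ∀ v ∈ vs L, v ∉ F) :
    ∑ v ∈ (F ∪ (vs L).toFinset)ᶜ, wt v = ∑ v ∈ Fᶜ, wt v ∧
      Fᶜ.card = (F ∪ (vs L).toFinset)ᶜ.card + r * L.length := by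
  have e : Fᶜ = (F ∪ (vs L).toFinset)ᶜ ∪ (vs L).toFinset := by
    ext v
    simp only [mem_compl, mem_union, List.mem_toFinset]
    by_cases hv : v ∈ vs L
    · simp [hv, hF v hv]
    · simp [hv]
  have hd : Disjoint (F ∪ (vs L).toFinset)ᶜ (vs L).toFinset := by
    rw [Finset.disjoint_left]
    intro v hv hv'
    rw [mem_compl, mem_union] at hv
    exact hv (Or.inr hv')
  constructor
  · conv_rhs => rw [e, Finset.sum_union hd, sum_toFinset_vs wt L hL h, add_zero]
  · conv_lhs => rw [e, card_union_of_disjoint hd, List.toFinset_card_of_nodup hL, length_vs]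

private lemma chain_glue {α : Type*} {R : α → α → Prop} {l l' : List α}
    (h : (l ++ l'.head?.toList).IsChain R) (h' : l'.IsChain R) : (l ++ l').IsChain R := by
  cases l' with
  | nil => simpa using h
  | cons y t =>
    rw [List.isChain_append] at h ⊢
    refine ⟨h.1, h', ?_⟩
    intro x hx z hz
    exact h.2.2 x hx z (by simpa using hz)

/-- distinct absorbers for the members of a list. -/
private lemma exists_distinct {α : Type*} {N : ℕ} (L : List α) (A : Fin N → α → Prop)
    [∀ x, DecidablePred fun a => A a x] (μ : ℝ)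
    (hμ : (L.length : ℝ) ≤ μ)
    (h : ∀ x ∈ L, μ ≤ ((univ.filter fun a : Fin N => A a x).card : ℝ)) :
    ∃ f : Fin L.length → Fin N, Function.Injective f ∧ ∀ j, A (f j) (L.get j) := by
  classical
  have key := (Finset.all_card_le_biUnion_card_iff_exists_injective
    (fun j : Fin L.length => univ.filter fun a : Fin N => A a (L.get j))).mp ?_
  · obtain ⟨f, hf, hf2⟩ := key
    exact ⟨f, hf, fun j => (mem_filter.mp (hf2 j)).2⟩
  · intro s
    rcases s.eq_empty_or_nonempty with rfl | ⟨j, hj⟩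
    · simp
    · have h1 : s.card ≤ L.length := by
        have := card_le_univ s
        simpa using this
      have h2 : L.length ≤ (univ.filter fun a : Fin N => A a (L.get j)).card := by
        have := hμ.trans (h (L.get j) (List.get_mem L j))
        exact_mod_cast this
      exact h1.trans (h2.trans (card_le_card
        (Finset.subset_biUnion_of_mem (fun j : Fin L.length =>
          univ.filter fun a : Fin N => A a (L.get j)) hj)))

/-- simultaneous absorption. -/
private lemma exists_repl {V : Type} [DecidableEq V] {r N : ℕ}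
    (R : (Fin r → V) → (Fin r → V) → Prop) (D : AbsFam V r N) (L : List (Fin r → V))
    (hI : ∀ a s, (D.I a s).IsChain R) (f : Fin L.length → Fin N) (hf : Function.Injective f)
    (hA : ∀ j, D.Absorbs R (f j) (L.get j)) :
    ∃ F, D.Repl R F ∧ (D.allOf F).Perm (D.allOf D.I ++ vs L) := by
  classical
  set extra : Fin N → List V := fun a =>
    if h : ∃ j, f j = a then List.ofFn (L.get h.choose) else [] with hextra
  have hex : ∀ j, extra (f j) = List.ofFn (L.get j) := by
    intro j
    have h : ∃ j', f j' = f j := ⟨j, rfl⟩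
    rw [hextra]
    simp only [dif_pos h]
    rw [hf h.choose_spec]
  have h1 : ∀ a, ∃ Fa : Fin (D.m a) → List (Fin r → V),
      (∀ s, (Fa s).IsChain R ∧ (Fa s).head? = (D.I a s).head? ∧
        (Fa s).getLast? = (D.I a s).getLast?) ∧
      (vs (List.ofFn Fa).flatten).Perm (D.vertsOf D.I a ++ extra a) := by
    intro a
    by_cases h : ∃ j, f j = a
    · obtain ⟨j, rfl⟩ := h
      rw [hex j]
      exact hA j
    · refine ⟨D.I a, fun s => ⟨hI a s, rfl, rfl⟩, ?_⟩
      rw [hextra]
      simp only [dif_neg h, List.append_nil]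
      exact List.Perm.refl _
  choose F hF1 hF2 using h1
  refine ⟨F, fun a s => hF1 a s, ?_⟩
  rw [← Multiset.coe_eq_coe, ← Multiset.coe_add, AbsFam.allOf, AbsFam.allOf, coe_flatten_ofFn,
    coe_flatten_ofFn, coe_vs]
  have h2 : ∑ j : Fin L.length, Multiset.ofList (List.ofFn (L.get j)) =
      ∑ a, Multiset.ofList (extra a) := by
    apply Fintype.sum_of_injective f hf
    · intro a ha
      have : ¬ ∃ j, f j = a := fun h => ha h
      rw [hextra]
      simp only [dif_neg this]
      rfl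
    · intro j
      rw [hex j]
  rw [h2, ← Finset.sum_add_distrib]
  refine Finset.sum_congr rfl fun a _ => ?_
  rw [Multiset.coe_add, Multiset.coe_eq_coe]
  exact hF2 a

private lemma assemble {V : Type} [Fintype V] [DecidableEq V] {r : ℕ}
    (c : Finset V → Bool) (P : (Fin r → V) → Prop) (A : Bool → Finset (Fin r → V))
    (col : Bool → Bool) (F0 : Finset V) (z : Fin r → V)
    (hA : ∀ b, ∀ x ∈ A b, Col c (col b) x ∧ P x) (hz : z ∈ A true)
    (B C : Bool → List (Fin r → V)) (tgt : Bool → Option (Fin r → V))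
    (htgt : ∀ β z', tgt β = some z' → z' ∈ A β)
    (hBchain : ∀ β, (B β ++ (tgt β).toList).IsChain (RAdj c P))
    (hBcol : ∀ β, ∀ x ∈ B β, Col c (col β) x) (hBempty : ∀ β, A β = ∅ → B β = [])
    (hC1 : (C true ++ [z]).IsChain (RAdj c P)) (hC2 : (C true ++ [z]).head? = tgt true)
    (hC3 : (C false).IsChain (RAdj c P)) (hC4 : (C false).head? = tgt false)
    (hnd : (vs (B true ++ B false) ++ vs (C true ++ C false)).Nodup)
    (hmem : ∀ v, v ∈ vs (B true ++ B false) ++ vs (C true ++ C false) ↔ v ∉ F0) :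
    ∃ Q : Bool → List (Fin r → V),
        (Q true ++ [z]).IsChain (Adj c) ∧ (Q false).IsChain (Adj c) ∧
        (∀ b, ∀ x ∈ Q b, Col c (col b) x) ∧ (A false = ∅ → Q false = []) ∧
        (vs (Q true ++ Q false)).Nodup ∧
        ∀ v, v ∈ vs (Q true ++ Q false) ↔ v ∉ F0 := by
  have himp : ∀ l : List (Fin r → V), l.IsChain (RAdj c P) → l.IsChain (Adj c) :=
    fun l hl => hl.imp fun x y h => h.1
  have hperm : (vs ((B true ++ C true) ++ (B false ++ C false))).Perm
      (vs (B true ++ B false) ++ vs (C true ++ C false)) := by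
    simp only [vs_append]
    rw [← Multiset.coe_eq_coe]
    simp only [← Multiset.coe_add]
    abel
  refine ⟨fun b => B b ++ C b, ?_, ?_, ?_, ?_, ?_, ?_⟩
  · rw [List.append_assoc]
    apply himp
    apply chain_glue _ hC1
    rw [hC2]
    exact hBchain true
  · apply himp
    apply chain_glue _ hC3
    rw [hC4]
    exact hBchain false
  · intro b x hx
    rcases List.mem_append.mp hx with hx | hx
    · exact hBcol b x hx
    · cases b with
      | true =>
        exact (chain_col hC1 (List.mem_append_right _ List.mem_cons_self) (hA true z hz).1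
          (hA true z hz).2 x (List.mem_append_left _ hx)).1
      | false =>
        cases hC : C false with
        | nil => rw [hC] at hx; simp at hx
        | cons y t =>
          have hy : tgt false = some y := by rw [← hC4, hC]; rfl
          have hyA := htgt false y hy
          exact (chain_col hC3 (x := y) (by rw [hC]; exact List.mem_cons_self)
            (hA false y hyA).1 (hA false y hyA).2 x hx).1
  · intro hAe
    have h1 := hBempty false hAe
    have h2 : C false = [] := by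
      cases hC : C false with
      | nil => rfl
      | cons y t =>
        have hy : tgt false = some y := by rw [← hC4, hC]; rfl
        have hyA := htgt false y hy
        rw [hAe] at hyA
        simp at hyA
    simp only [h1, h2, List.append_nil]
  · exact (hperm.nodup_iff).mpr hnd
  · intro v
    rw [← hmem v]
    exact hperm.mem_iff

open Classical in
theorem master (r : ℕ) (hr : 1 ≤ r) (lam : ℕ) (hlam : 1 ≤ lam) (cc θ c₁ : ℝ) (hcc : 0 < cc)
    (hθ : 0 < θ) (hc₁ : 0 < c₁) (H J : Type) [Fintype H] [DecidableEq H] [Fintype J]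
    (tm : J → Template r H) :
    ∃ θ₀ κ : ℝ, 0 < θ₀ ∧ 0 < κ ∧ κ * r < 1 ∧ ∀ β : ℝ, 0 < β → ∃ n₀ : ℕ,
      ∀ (V : Type) [Fintype V] [DecidableEq V], n₀ ≤ Fintype.card V →
      ∀ (c : Finset V → Bool) (P : (Fin r → V) → Prop) (wt : V → ℤ)
        (A K : Bool → Finset (Fin r → V)) (col : Bool → Bool) (F0 : Finset V) (z : Fin r → V),
      (∀ x, P x → ∑ i, wt (x i) = 0) →
      (∀ b, A b ⊆ K b) → (∀ b, ∀ x ∈ K b, Col c (col b) x ∧ P x) →
      (∀ b, ∀ x ∈ A b, ∀ y ∈ A b,
        cc * (Fintype.card V : ℝ) ^ (r * (lam - 1)) ≤ (RM (RAdj c P) ^ lam) x y) →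
      (∀ b, ∀ x ∈ K b, cc * (Fintype.card V : ℝ) ^ (r * lam) ≤
        ∑ y ∈ A b, (RM (RAdj c P) ^ lam) x y) →
      (∀ T : Fin r → V, Function.Injective T → (∀ i, T i ∉ F0) → ∑ i, wt (T i) = 0 →
        c₁ * (Fintype.card V : ℝ) ^ Fintype.card H ≤
          ((univ.filter fun q : J × (H → V) => CoreAbs K (tm q.1) q.2 T).card : ℝ)) →
      (F0.card : ℝ) ≤ θ₀ * Fintype.card V → z ∈ A true → (∀ i, z i ∈ F0) →
      (∀ W : Finset V, F0 ⊆ W → (W.card : ℝ) ≤ θ * Fintype.card V → ∑ v ∈ Wᶜ, wt v = 0 →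
        RobustOff κ β A W) →
      ∑ v ∈ F0ᶜ, wt v = 0 → r ∣ F0ᶜ.card →
      (∀ X : Finset V, Disjoint X F0 → r ∣ X.card → ∑ v ∈ X, wt v = 0 →
        ∃ L : List (Fin r → V), (vs L).Nodup ∧ (∀ v, v ∈ vs L ↔ v ∈ X) ∧
          ∀ T ∈ L, ∑ i, wt (T i) = 0) →
      ∃ Q : Bool → List (Fin r → V),
        (Q true ++ [z]).IsChain (Adj c) ∧ (Q false).IsChain (Adj c) ∧
        (∀ b, ∀ x ∈ Q b, Col c (col b) x) ∧ (A false = ∅ → Q false = []) ∧
        (vs (Q true ++ Q false)).Nodup ∧
        ∀ v, v ∈ vs (Q true ++ Q false) ↔ v ∉ F0 := by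
  obtain ⟨θ₁, hθ₁, hcover⟩ := cover r hr lam hlam cc hcc
  obtain ⟨m₀, hm₀⟩ := absorber_family r hr lam hlam cc c₁ hcc hc₁ H J tm
  set θm : ℝ := min θ θ₁ with hθm
  have hθm0 : 0 < θm := lt_min hθ hθ₁
  have hr0 : (0 : ℝ) < r := by exact_mod_cast hr
  have hr1 : (1 : ℝ) ≤ r := by exact_mod_cast hr
  have h2l : (0 : ℝ) < 2 ^ lam := by positivity
  set Cm : ℝ := m₀ + r * lam * m₀ + 1 with hCm
  have hCm1 : 1 ≤ Cm := by
    have : (0 : ℝ) ≤ m₀ + r * lam * m₀ := by positivity
    linarith
  have hCm0 : 0 < Cm := by linarith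
  set γ₀ : ℝ := min (θm / (2 * Cm)) (cc / (4 * r * Cm * 2 ^ lam)) with hγ₀
  have hγ₀0 : 0 < γ₀ := lt_min (by positivity) (by positivity)
  obtain ⟨μ, θ₀', hμ, hθ₀', n₁, hfam⟩ := hm₀ γ₀ hγ₀0
  set θ₀ : ℝ := min θ₀' (min (θm / 2) (cc / (8 * r * 2 ^ lam))) with hθ₀
  have hθ₀0 : 0 < θ₀ := lt_min hθ₀' (lt_min (by positivity) (by positivity))
  obtain ⟨κ, hκ, hκr, hcov⟩ := hcover μ hμ
  refine ⟨θ₀, κ, hθ₀0, hκ, hκr, fun β hβ => ?_⟩
  obtain ⟨n₂, hcov2⟩ := hcov β hβ
  obtain ⟨n₃, hn₃⟩ := exists_nat_ge (8 * r * (r * lam) * 2 ^ lam / cc)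
  refine ⟨max n₁ (max n₂ (max n₃ 1)), ?_⟩
  intro V _ _ hn c P wt A K col F0 z hPwt hAK hK hconn hKA hcore hF0 hzA hzF hrob hsum hdvd
    hpart
  have hn1 : n₁ ≤ Fintype.card V := le_trans (le_max_left _ _) hn
  have hn2 : n₂ ≤ Fintype.card V :=
    le_trans (le_trans (le_max_left _ _) (le_max_right _ _)) hn
  have hn3 : n₃ ≤ Fintype.card V :=
    le_trans (le_trans (le_trans (le_max_left _ _) (le_max_right _ _)) (le_max_right _ _)) hn
  have hn4 : 0 < Fintype.card V :=
    lt_of_lt_of_le Nat.zero_lt_one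
      (le_trans (le_trans (le_trans (le_max_right _ _) (le_max_right _ _)) (le_max_right _ _)) hn)
  set n : ℝ := (Fintype.card V : ℝ) with hndef
  have hn0 : 0 < n := by rw [hndef]; exact_mod_cast hn4
  have hnlarge : r * (r * lam) ≤ n * cc / (8 * 2 ^ lam) := by
    have h1 : (n₃ : ℝ) ≤ n := by rw [hndef]; exact_mod_cast hn3
    have h2 : 8 * r * (r * lam) * 2 ^ lam / cc ≤ n := hn₃.trans h1
    rw [div_le_iff₀ hcc] at h2
    rw [le_div_iff₀ (by positivity)]
    nlinarith
  have hAcol : ∀ b, ∀ x ∈ A b, Col c (col b) x ∧ P x := fun b x hx => hK b x (hAK b hx)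
  -- the family of absorbers
  set 𝒯 : Finset (Fin r → V) :=
    univ.filter fun T => Function.Injective T ∧ (∀ i, T i ∉ F0) ∧ ∑ i, wt (T i) = 0 with h𝒯
  obtain ⟨N, D, hN, hDm, hDv, hDvalid, hDabs⟩ := hfam V hn1 c P A K F0 𝒯 hKA
    (fun T hT => by
      rw [h𝒯, mem_filter] at hT
      exact hcore T hT.2.1 hT.2.2.1 hT.2.2.2)
    (hF0.trans (mul_le_mul_of_nonneg_right (min_le_left _ _) hn0.le))
  have hlenD : ((D.allOf D.I).length : ℝ) ≤ m₀ * N := by
    have h1 : (D.allOf D.I).length ≤ N * m₀ := by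
      rw [AbsFam.allOf, List.length_flatten, List.map_ofFn, List.sum_ofFn]
      calc ∑ a, (List.length ∘ fun a => D.vertsOf D.I a) a ≤ ∑ _a : Fin N, m₀ :=
            Finset.sum_le_sum fun a _ => hDv a
        _ = N * m₀ := by simp
    have h2 : ((D.allOf D.I).length : ℝ) ≤ ((N * m₀ : ℕ) : ℝ) := by exact_mod_cast h1
    push_cast at h2
    linarith
  have hsumm : ((∑ a, D.m a : ℕ) : ℝ) ≤ m₀ * N := by
    have h1 : ∑ a, D.m a ≤ N * m₀ := by
      calc ∑ a, D.m a ≤ ∑ _a : Fin N, m₀ := Finset.sum_le_sum fun a _ => hDm a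
        _ = N * m₀ := by simp
    have h2 : ((∑ a, D.m a : ℕ) : ℝ) ≤ ((N * m₀ : ℕ) : ℝ) := by exact_mod_cast h1
    push_cast at h2 ⊢
    linarith
  have hCN : m₀ * N + r * lam * (m₀ * N) ≤ Cm * (γ₀ * n) := by
    have h1 : (m₀ : ℝ) * N + r * lam * (m₀ * N) ≤ Cm * N := by
      rw [hCm]
      have : (0 : ℝ) ≤ N := by positivity
      nlinarith
    exact h1.trans (mul_le_mul_of_nonneg_left hN hCm0.le)
  have hrl : (0 : ℝ) ≤ r * lam := by positivity
  have hcond : r * ((F0.card : ℝ) + (D.allOf D.I).length + r * lam * (∑ a, D.m a : ℕ) + r * lam) ≤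
      n * cc / 2 ^ lam := by
    have e1 : r * (F0.card : ℝ) ≤ n * cc / (8 * 2 ^ lam) := by
      have h1 : (F0.card : ℝ) ≤ cc / (8 * r * 2 ^ lam) * n :=
        hF0.trans (mul_le_mul_of_nonneg_right
          ((min_le_right _ _).trans (min_le_right _ _)) hn0.le)
      calc r * (F0.card : ℝ) ≤ r * (cc / (8 * r * 2 ^ lam) * n) :=
            mul_le_mul_of_nonneg_left h1 hr0.le
        _ = n * cc / (8 * 2 ^ lam) := by field_simp
    have e2 : r * (((D.allOf D.I).length : ℝ) + r * lam * (∑ a, D.m a : ℕ)) ≤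
        n * cc / (4 * 2 ^ lam) := by
      have h1 : ((D.allOf D.I).length : ℝ) + r * lam * (∑ a, D.m a : ℕ) ≤ Cm * (γ₀ * n) := by
        refine le_trans ?_ hCN
        exact add_le_add hlenD (mul_le_mul_of_nonneg_left hsumm hrl)
      calc r * (((D.allOf D.I).length : ℝ) + r * lam * (∑ a, D.m a : ℕ))
          ≤ r * (Cm * (γ₀ * n)) := mul_le_mul_of_nonneg_left h1 hr0.le
        _ ≤ r * (Cm * (cc / (4 * r * Cm * 2 ^ lam) * n)) := by
            apply mul_le_mul_of_nonneg_left _ hr0.le
            apply mul_le_mul_of_nonneg_left _ hCm0.le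
            exact mul_le_mul_of_nonneg_right (min_le_right _ _) hn0.le
        _ = n * cc / (4 * 2 ^ lam) := by field_simp
    have e3 : n * cc / (8 * 2 ^ lam) + n * cc / (4 * 2 ^ lam) + n * cc / (8 * 2 ^ lam) ≤
        n * cc / 2 ^ lam := by
      have : (0 : ℝ) < n * cc / 2 ^ lam := by positivity
      have h1 : n * cc / (8 * 2 ^ lam) = (n * cc / 2 ^ lam) / 8 := by field_simp
      have h2 : n * cc / (4 * 2 ^ lam) = (n * cc / 2 ^ lam) / 4 := by field_simp
      rw [h1, h2]
      linarith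
    calc r * ((F0.card : ℝ) + (D.allOf D.I).length + r * lam * (∑ a, D.m a : ℕ) + r * lam)
        = r * (F0.card : ℝ) + r * (((D.allOf D.I).length : ℝ) + r * lam * (∑ a, D.m a : ℕ)) +
          r * (r * lam) := by ring
      _ ≤ n * cc / (8 * 2 ^ lam) + n * cc / (4 * 2 ^ lam) + n * cc / (8 * 2 ^ lam) := by
          linarith
      _ ≤ _ := e3
  -- phase 1
  obtain ⟨Lk, tgt, hLkP, hLknd, hLkF, hLklen, htgt, hrepl⟩ := phase1 hr c P lam hlam cc hcc A
    hconn hn4 D F0 hDvalid z hzA hzF hcond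
  have hsegP : ∀ a s, ∀ x ∈ D.I a s, P x := by
    intro a s x hx
    obtain ⟨hch, h, hh, e, he, h1, h2⟩ := hDvalid.1 a s
    exact (chain_col hch (List.mem_of_mem_head? (by rw [h1]; rfl)) (hAcol _ h hh).1
      (hAcol _ h hh).2 x hx).2
  have htlP : ∀ x ∈ tl D D.I ++ Lk, ∑ i, wt (x i) = 0 := by
    intro x hx
    rcases List.mem_append.mp hx with hx | hx
    · obtain ⟨a, s, hx⟩ := mem_tl.mp hx
      exact hPwt x (hsegP a s x hx)
    · exact hPwt x (hLkP x hx)
  have hallnd : (vs (tl D D.I ++ Lk)).Nodup := by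
    rw [vs_append, ← allOf_eq, List.nodup_append]
    refine ⟨hDvalid.2.1, hLknd, ?_⟩
    intro v hv w hw hvw
    subst hvw
    exact (hLkF v hw).2 hv
  have hallF : ∀ v ∈ vs (tl D D.I ++ Lk), v ∉ F0 := by
    intro v hv
    rw [vs_append, ← allOf_eq] at hv
    rcases List.mem_append.mp hv with hv | hv
    · exact hDvalid.2.2 v hv
    · exact (hLkF v hv).1
  obtain ⟨hs1, hc1⟩ := sum_compl_union wt F0 _ hallnd htlP hallF
  set F1 : Finset V := F0 ∪ (vs (tl D D.I ++ Lk)).toFinset with hF1
  have hF1c : (F1.card : ℝ) ≤ θm * n := by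
    have h1 : F1.card ≤ F0.card + ((D.allOf D.I).length + (vs Lk).length) := by
      refine (card_union_le _ _).trans (Nat.add_le_add_left ?_ _)
      refine (List.toFinset_card_le _).trans ?_
      rw [vs_append, ← allOf_eq, List.length_append]
    have h2 : (F1.card : ℝ) ≤ F0.card + ((D.allOf D.I).length + (vs Lk).length) := by
      exact_mod_cast h1
    have h3 : ((vs Lk).length : ℝ) ≤ r * lam * (m₀ * N) := by
      have : ((vs Lk).length : ℝ) ≤ ((r * lam * ∑ a, D.m a : ℕ) : ℝ) := by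
        exact_mod_cast hLklen
      refine this.trans ?_
      push_cast
      push_cast at hsumm
      exact mul_le_mul_of_nonneg_left hsumm hrl
    have h4 : Cm * (γ₀ * n) ≤ θm / 2 * n := by
      calc Cm * (γ₀ * n) ≤ Cm * (θm / (2 * Cm) * n) := by
            apply mul_le_mul_of_nonneg_left _ hCm0.le
            exact mul_le_mul_of_nonneg_right (min_le_left _ _) hn0.le
        _ = θm / 2 * n := by field_simp
    have h5 : (F0.card : ℝ) ≤ θm / 2 * n :=
      hF0.trans (mul_le_mul_of_nonneg_right ((min_le_right _ _).trans (min_le_left _ _)) hn0.le)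
    linarith
  have hF1θ : (F1.card : ℝ) ≤ θ * n :=
    hF1c.trans (mul_le_mul_of_nonneg_right (min_le_left _ _) hn0.le)
  have hF1θ₁ : (F1.card : ℝ) ≤ θ₁ * n :=
    hF1c.trans (mul_le_mul_of_nonneg_right (min_le_right _ _) hn0.le)
  have hrob1 : RobustOff κ β A F1 := by
    apply hrob F1 subset_union_left hF1θ
    rw [hs1]
    exact hsum
  -- phase 2
  obtain ⟨B, hBchain, hBcol, hBempty, hBnd, hBF, hBlen⟩ := hcov2 V hn2 c P A col F1 tgt hAcol
    hconn hF1θ₁ (by
      intro β' z' hz'
      obtain ⟨h1, h2⟩ := htgt β' z' hz'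
      refine ⟨h1, fun i => ?_⟩
      rw [hF1, mem_union, List.mem_toFinset, vs_append, ← allOf_eq, List.mem_append]
      rcases h2 i with h | h
      · exact Or.inl h
      · exact Or.inr (Or.inl h)) hrob1
  have hBP : ∀ x ∈ B true ++ B false, ∑ i, wt (x i) = 0 := by
    intro x hx
    rcases List.mem_append.mp hx with hx | hx
    · exact hPwt x (hBcol _ x hx).2
    · exact hPwt x (hBcol _ x hx).2
  obtain ⟨hs2, hc2⟩ := sum_compl_union wt F1 _ hBnd hBP hBF
  set Y : Finset V := (F1 ∪ (vs (B true ++ B false)).toFinset)ᶜ with hY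
  have hYsum : ∑ v ∈ Y, wt v = 0 := by rw [hs2, hs1]; exact hsum
  have hYdvd : r ∣ Y.card := by
    have h1 : r ∣ Y.card + r * (B true ++ B false).length + r * (tl D D.I ++ Lk).length := by
      rw [← hc2, ← hc1]; exact hdvd
    have h2 := (Nat.dvd_add_left (Dvd.intro _ rfl)).mp h1
    exact (Nat.dvd_add_left (Dvd.intro _ rfl)).mp h2
  have hYF : Disjoint Y F0 := by
    rw [Finset.disjoint_left]
    intro v hv hv0
    rw [hY, mem_compl, mem_union, hF1, mem_union] at hv
    exact hv (Or.inl (Or.inl hv0))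
  have hYcard : (Y.card : ℝ) ≤ μ * n := by
    have h1 : (F1ᶜ.card : ℝ) = n - F1.card := by
      rw [card_compl, Nat.cast_sub (card_le_univ _)]
    have h2 : (F1ᶜ.card : ℝ) = Y.card + (vs (B true ++ B false)).length := by
      rw [hc2, length_vs]; push_cast; ring
    linarith
  obtain ⟨L, hLnd, hLmem, hLwt⟩ := hpart Y hYF hYdvd hYsum
  have hLcard : Y.card = r * L.length := by
    rw [← length_vs, ← List.toFinset_card_of_nodup hLnd]
    congr 1
    ext v
    rw [List.mem_toFinset, hLmem]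
  have hLlen : (L.length : ℝ) ≤ μ * n := by
    refine le_trans ?_ hYcard
    rw [hLcard]
    push_cast
    have : (0 : ℝ) ≤ L.length := by positivity
    exact le_mul_of_one_le_left this hr1
  have hL𝒯 : ∀ T ∈ L, T ∈ 𝒯 := by
    intro T hT
    rw [h𝒯, mem_filter]
    refine ⟨mem_univ _, (nodup_vs_iff.mp hLnd).1 T hT, ?_, hLwt T hT⟩
    intro i hi
    have : T i ∈ Y := (hLmem _).mp (mem_vs.mpr ⟨T, hT, i, rfl⟩)
    exact (Finset.disjoint_left.mp hYF) this hi
  obtain ⟨f, hf, hfA⟩ := exists_distinct L (fun a T => D.Absorbs (RAdj c P) a T) (μ * n) hLlen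
    (fun T hT => hDabs T (hL𝒯 T hT))
  obtain ⟨F, hFrepl, hFperm⟩ := exists_repl (RAdj c P) D L (fun a s => (hDvalid.1 a s).1) f hf hfA
  obtain ⟨Cc, hC1, hC2, hC3, hC4, hCperm⟩ := hrepl F hFrepl
  have hbig : (vs (B true ++ B false) ++ vs (Cc true ++ Cc false)).Perm
      ((vs (B true ++ B false) ++ vs (tl D D.I ++ Lk)) ++ vs L) := by
    have h1 : (vs (Cc true ++ Cc false)).Perm ((D.allOf D.I ++ vs L) ++ vs Lk) :=
      hCperm.trans (hFperm.append_right _)
    have h2 : ((D.allOf D.I ++ vs L) ++ vs Lk).Perm (vs (tl D D.I ++ Lk) ++ vs L) := by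
      rw [vs_append (tl D D.I), ← allOf_eq, ← Multiset.coe_eq_coe]
      simp only [← Multiset.coe_add]
      abel
    rw [List.append_assoc]
    exact (h1.trans h2).append_left _
  apply assemble c P A col F0 z hAcol hzA B Cc tgt (fun β' z' h => (htgt β' z' h).1) hBchain
    (fun β' x hx => (hBcol β' x hx).1) hBempty hC1 hC2 hC3 hC4
  · rw [hbig.nodup_iff, List.nodup_append, List.nodup_append]
    refine ⟨⟨hBnd, hallnd, ?_⟩, hLnd, ?_⟩
    · intro v hv w hw hvw
      subst hvw
      apply hBF v hv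
      rw [hF1, mem_union, List.mem_toFinset]
      exact Or.inr hw
    · intro v hv w hw hvw
      subst hvw
      have hvY := (hLmem v).mp hw
      rw [hY, mem_compl, mem_union, hF1, mem_union, List.mem_toFinset, List.mem_toFinset] at hvY
      rcases List.mem_append.mp hv with hv | hv
      · exact hvY (Or.inr hv)
      · exact hvY (Or.inl (Or.inr hv))
  · intro v
    rw [hbig.mem_iff, List.mem_append, List.mem_append, hLmem, hY, mem_compl, mem_union, hF1,
      mem_union, List.mem_toFinset, List.mem_toFinset]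
    have h1 : v ∈ vs (B true ++ B false) → v ∉ F0 := fun h h0 =>
      hBF v h (by rw [hF1]; exact mem_union_left _ h0)
    have h2 : v ∈ vs (tl D D.I ++ Lk) → v ∉ F0 := hallF v
    tauto

end Pool.Agent.Lib.TwoPaths
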