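import Pool.Agent.Lib.TwoPaths.Defs

/-!
# Families of absorbers: definitions
-/

namespace Pool.Agent.Lib.TwoPaths

open Finset
open Pool.Agent.Lib.MP_952639_co

/-- A family of `N` absorbers; absorber `a` consists of `m a` labelled segments (lists of tuples)
`I a s` in its initial state. -/
structure AbsFam (V : Type) (r N : ℕ) where
  m : Fin N → ℕ
  b : ∀ a, Fin (m a) → Bool
  I : ∀ a, Fin (m a) → List (Fin r → V)

namespace AbsFam

variable {V : Type} [DecidableEq V] {r N : ℕ}

/-- The vertices of a choice `F a s` of lists of tuples for the segments of absorber `a`. -/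
def vertsOf (D : AbsFam V r N) (F : ∀ a, Fin (D.m a) → List (Fin r → V)) (a : Fin N) : List V :=
  vs (List.ofFn (F a)).flatten

/-- The vertices of a choice for all absorbers. -/
def allOf (D : AbsFam V r N) (F : ∀ a, Fin (D.m a) → List (Fin r → V)) : List V :=
  (List.ofFn fun a => D.vertsOf F a).flatten

/-- The segments are chains with both ends in the family `A` of their label, and all vertices are
distinct and outside `F0`. -/
def Valid (D : AbsFam V r N) (R : (Fin r → V) → (Fin r → V) → Prop)
    (A : Bool → Finset (Fin r → V)) (F0 : Finset V) : Prop :=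
  (∀ a s, (D.I a s).IsChain R ∧ ∃ h ∈ A (D.b a s), ∃ e ∈ A (D.b a s),
    (D.I a s).head? = some h ∧ (D.I a s).getLast? = some e) ∧
  (D.allOf D.I).Nodup ∧ ∀ v ∈ D.allOf D.I, v ∉ F0

/-- `F` is a replacement of the segments by chains with the same ends. -/
def Repl (D : AbsFam V r N) (R : (Fin r → V) → (Fin r → V) → Prop)
    (F : ∀ a, Fin (D.m a) → List (Fin r → V)) : Prop :=
  ∀ a s, (F a s).IsChain R ∧ (F a s).head? = (D.I a s).head? ∧
    (F a s).getLast? = (D.I a s).getLast?

/-- Absorber `a` absorbs the tuple `T`: there are chains with the same ends as the segments of `a`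
which cover exactly the vertices of `a` and of `T`. -/
def Absorbs (D : AbsFam V r N) (R : (Fin r → V) → (Fin r → V) → Prop) (a : Fin N)
    (T : Fin r → V) : Prop :=
  ∃ F : Fin (D.m a) → List (Fin r → V),
    (∀ s, (F s).IsChain R ∧ (F s).head? = (D.I a s).head? ∧
      (F s).getLast? = (D.I a s).getLast?) ∧
    (vs (List.ofFn F).flatten).Perm (D.vertsOf D.I a ++ List.ofFn T)

end AbsFam

end Pool.Agent.Lib.TwoPaths
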