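import Pool.Agent.Lib.TwoPaths.NDefs

/-!
# N2: connectivity of the enlarged family

`Ab` a family of tuples of colour `κ`, `|Ab| ≥ ρ n^r`, any two joined by `≥ cc n^(r(l-1))` walks of
length `l`.  Then any two members of `Ab ∪ Aplus α c κ Ab` are joined by
`≥ cc' n^(r(2l+1))` walks of length `2l+2`.

PROOF (`NN V r = n^r`, `Rel c m s x y : s n^(r(m-1)) ≤ (AM^m) x y`).
(i) `u, w ∈ Ab`: `(AM^(2l)) u w ≥ ∑_{y ∈ Ab} (AM^l) u y (AM^l) y w ≥ ρ cc² n^(r(2l-1))`; so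
`Rel c (2l) s₁ u w`, `s₁ = ρ cc²`; as `2 ≤ 2l`, `Rel.pad` twice gives `Rel c (2l+2) s₂ u w`,
`s₂ = (padf r)^[2] s₁`.
(ii) `u ∈ Aplus`, `w ∈ Ab`: `(AM^(2l+1)) u w ≥ ∑_{x ∈ Ab, Adj u x} (AM^(2l)) x w ≥ α s₁ n^(2lr)`; pad
once.  Symmetric for `u ∈ Ab`, `w ∈ Aplus` (`AMpow_symm`).
(iii) `u, w ∈ Aplus`: `(AM^(2l+2)) u w ≥ ∑_{x, y ∈ Ab, Adj u x, Adj y w} (AM^(2l)) x y
≥ α² s₁ n^(r(2l+1))`.
`cc'` = the minimum of the constants.
-/

namespace Pool.Agent.Lib.TwoPaths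

open Finset
open Pool.Agent.Lib.MP_952639_co

/-- One step from a tuple with many neighbours. -/
private lemma step_rel {V : Type} [Fintype V] [DecidableEq V] {r : ℕ} {c : Finset V → Bool}
    {Ab : Finset (Fin r → V)} {α s : ℝ} (hs : 0 ≤ s) {m : ℕ} (hm : 1 ≤ m) {κ : Bool}
    {u w : Fin r → V} (hu : u ∈ Aplus α c κ Ab) (h : ∀ x ∈ Ab, Rel c m s x w) :
    Rel c (m + 1) (α * s) u w := by
  classical
  have hN : 0 ≤ NN V r := by unfold NN; positivity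
  obtain ⟨k, rfl⟩ : ∃ k, m = k + 1 := ⟨m - 1, by omega⟩
  have hu2 : α * NN V r ≤ ((Ab.filter fun w => Adj c u w).card : ℝ) := by
    have h1 := (mem_filter.mp hu).2.2
    unfold NN
    convert h1 using 1
  unfold MP_952639_co.Rel at h ⊢
  simp only [Nat.add_sub_cancel] at h ⊢
  calc α * s * NN V r ^ (k + 1) = (α * NN V r) * (s * NN V r ^ k) := by ring
    _ ≤ ((Ab.filter fun w => Adj c u w).card : ℝ) * (s * NN V r ^ k) :=
        mul_le_mul_of_nonneg_right hu2 (by positivity)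
    _ = ∑ _x ∈ Ab.filter (fun w => Adj c u w), (s * NN V r ^ k) := by
        rw [sum_const, nsmul_eq_mul]
    _ ≤ ∑ x ∈ Ab.filter (fun w => Adj c u w), AM r c u x * (AM r c ^ (k + 1)) x w := by
        refine sum_le_sum fun x hx => ?_
        rw [mem_filter] at hx
        rw [AM_eq_one hx.2, one_mul]
        exact h x hx.1
    _ ≤ ∑ x, AM r c u x * (AM r c ^ (k + 1)) x w :=
        sum_le_sum_of_subset_of_nonneg (subset_univ _)
          fun x _ _ => mul_nonneg (AM_nonneg _ _) (AMpow_nonneg _ _ _)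
    _ = (AM r c ^ (k + 1 + 1)) u w := by rw [pow_succ' _ (k + 1), Matrix.mul_apply]

theorem k1_conn (r : ℕ) (hr : 1 ≤ r) (cc ρ α : ℝ) (hcc : 0 < cc) (hρ : 0 < ρ) (hα : 0 < α)
    (l : ℕ) (hl : 1 ≤ l) :
    ∃ cc' : ℝ, 0 < cc' ∧ ∀ (V : Type) [Fintype V] [DecidableEq V], 0 < Fintype.card V →
      ∀ (c : Finset V → Bool) (κ : Bool) (Ab : Finset (Fin r → V)), (∀ x ∈ Ab, Col c κ x) →
      ρ * (Fintype.card V : ℝ) ^ r ≤ Ab.card →
      (∀ x ∈ Ab, ∀ y ∈ Ab, cc * (Fintype.card V : ℝ) ^ (r * (l - 1)) ≤ (AM r c ^ l) x y) →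
      ∀ u ∈ Ab ∪ Aplus α c κ Ab, ∀ w ∈ Ab ∪ Aplus α c κ Ab,
        cc' * (Fintype.card V : ℝ) ^ (r * (2 * l + 1)) ≤ (AM r c ^ (2 * l + 2)) u w := by
  have hs1 : 0 < ρ * cc ^ 2 := by positivity
  refine ⟨min ((padf r)^[2] (ρ * cc ^ 2)) (min (padf r (α * (ρ * cc ^ 2)))
    (α * (α * (ρ * cc ^ 2)))), lt_min (padf_iter_pos hs1 2)
    (lt_min (padf_pos (by positivity)) (by positivity)), ?_⟩
  intro V _ _ hV c κ Ab hAb hcard hconn
  have hN : 0 < NN V r := NN_pos hV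
  have hconn' : ∀ x ∈ Ab, ∀ y ∈ Ab, cc * NN V r ^ (l - 1) ≤ (AM r c ^ l) x y := by
    intro x hx y hy
    have := hconn x hx y hy
    rwa [pow_mul] at this
  have hbase : ∀ u ∈ Ab, ∀ w ∈ Ab, Rel c (2 * l) (ρ * cc ^ 2) u w := by
    intro u hu w hw
    obtain ⟨k, rfl⟩ : ∃ k, l = k + 1 := ⟨l - 1, by omega⟩
    unfold MP_952639_co.Rel
    simp only [Nat.add_sub_cancel] at hconn'
    have e1 : 2 * (k + 1) - 1 = 2 * k + 1 := by omega
    rw [e1, two_mul (k + 1), pow_add (AM r c) (k + 1) (k + 1), Matrix.mul_apply]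
    calc ρ * cc ^ 2 * NN V r ^ (2 * k + 1)
        = (ρ * NN V r) * ((cc * NN V r ^ k) * (cc * NN V r ^ k)) := by ring
      _ ≤ (Ab.card : ℝ) * ((cc * NN V r ^ k) * (cc * NN V r ^ k)) :=
          mul_le_mul_of_nonneg_right hcard (by positivity)
      _ = ∑ _y ∈ Ab, ((cc * NN V r ^ k) * (cc * NN V r ^ k)) := by rw [sum_const, nsmul_eq_mul]
      _ ≤ ∑ y ∈ Ab, (AM r c ^ (k + 1)) u y * (AM r c ^ (k + 1)) y w := by
          refine sum_le_sum fun y hy => ?_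
          exact mul_le_mul (hconn' u hu y hy) (hconn' y hy w hw) (by positivity)
            (AMpow_nonneg _ _ _)
      _ ≤ ∑ y, (AM r c ^ (k + 1)) u y * (AM r c ^ (k + 1)) y w :=
          sum_le_sum_of_subset_of_nonneg (subset_univ _)
            fun y _ _ => mul_nonneg (AMpow_nonneg _ _ _) (AMpow_nonneg _ _ _)
  have hmid : ∀ u ∈ Aplus α c κ Ab, ∀ w ∈ Ab,
      Rel c (2 * l + 1) (α * (ρ * cc ^ 2)) u w := by
    intro u hu w hw
    exact step_rel hs1.le (by omega) hu fun x hx => hbase x hx w hw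
  have hfin : ∀ u ∈ Ab ∪ Aplus α c κ Ab, ∀ w ∈ Ab ∪ Aplus α c κ Ab,
      Rel c (2 * l + 2) (min ((padf r)^[2] (ρ * cc ^ 2)) (min (padf r (α * (ρ * cc ^ 2)))
        (α * (α * (ρ * cc ^ 2))))) u w := by
    intro u hu w hw
    rcases mem_union.mp hu with hu | hu <;> rcases mem_union.mp hw with hw | hw
    · exact (Rel.pad_iter hV (by omega) hs1 (hbase u hu w hw) 2).mono (min_le_left _ _)
    · refine Rel.mono ?_ ((min_le_right _ _).trans (min_le_left _ _))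
      exact (Rel.pad hV (by omega) (by positivity) (hmid w hw u hu)).symm
    · refine Rel.mono ?_ ((min_le_right _ _).trans (min_le_left _ _))
      exact Rel.pad hV (by omega) (by positivity) (hmid u hu w hw)
    · refine Rel.mono ?_ ((min_le_right _ _).trans (min_le_right _ _))
      exact step_rel (m := 2 * l + 1) (by positivity) (by omega) hu
        fun x hx => (hmid w hw x hx).symm
  intro u hu w hw
  have := hfin u hu w hw
  unfold MP_952639_co.Rel at this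
  have e2 : 2 * l + 2 - 1 = 2 * l + 1 := by omega
  rw [e2] at this
  rwa [pow_mul]

end Pool.Agent.Lib.TwoPaths
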