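import Pool.Agent.Lib.TwoPaths.NDefs

/-!
# N3: robustness outside small sets from the interior property

`A b ⊆ K₁ b`, `Interior (α/(2r²)) ε₁ β A`, `Deg α K₁`.  `θ = min (α/(4r)) (min (ε₁/(2r)) (1/2))`.  Given
`κ` with `0 < κ`, `κ r < 1` put `δ₂ = min (ε₁/(2r)) ((1 - κ r)/4)`, `β' = min β (α δ₂/(4 r))`.

PROOF.  Let `|W| ≤ θ n`, `z : V → [0,1]` with `∑_{Wᶜ} z ≤ κ |Wᶜ|`, and suppose that fewer than `β' n^r`
tuples `u ∈ K₁ true ∪ K₁ false` avoid `W` and have `∑ z (u i) < 1`.  Let `l v = z v - 1/r`; for a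
tuple `u`, `∑ l (u i) < 0 ⇔ ∑ z (u i) < 1`.  (If `n = 0` everything is trivial; note `r ≥ 2`.)
For each `v` let `(b_v, i_v)` be as in `Deg`.  Let `Bad` be the set of `v ∉ W` for which at least
`(α/4) n^(r-1)` tuples `x ∈ K₁ b_v` with `x i_v = v` avoid `W` and have `∑ l (x j) < 0`.  Each tuple
is counted for at most `r` vertices `v`, so `|Bad| (α/4) n^(r-1) ≤ r β' n^r`, i.e.
`|Bad| ≤ (4 r β'/α) n ≤ δ₂ n`.
Let `V'' = V \ (W ∪ Bad)`.  `∑_{V''} l ≤ ∑_{Wᶜ} z - |V''|/r ≤ κ |Wᶜ| - (|Wᶜ| - |Bad|)/r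
= (|Bad| - (1 - κ r)|Wᶜ|)/r < 0`, because `|Wᶜ| ≥ n/2` and `|Bad| ≤ (1-κr) n/4`.  So
`λ := max_{V''} (-l) > 0`, attained at `v₀ ∈ V''`.
Define `l' v = min (l v/λ) (r-1)` for `v ∈ V''` and `l' v = r - 1` for `v ∈ W ∪ Bad`.
Then `-1 ≤ l' ≤ r-1` and `∑ l' ≤ (∑_{V''} l)/λ + (r-1)(|W| + |Bad|) ≤ (r-1)(θ + δ₂) n ≤ ε₁ n`.
`∑ |l'| ≥ (α/(2r²)) n`: at least `α n^(r-1)` tuples `x ∈ K₁ b` have `x i = v₀` (`b = b_{v₀}`,
`i = i_{v₀}`); at most `(r-1)|W| n^(r-2) ≤ (α/4) n^(r-1)` of them have another entry in `W` (`v₀ ∉ W`); fewer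
than `(α/4) n^(r-1)` avoid `W` and have `∑ l (x j) < 0` (`v₀ ∉ Bad`).  So at least
`(α/2) n^(r-1)` tuples `x` with `x i = v₀` avoid `W` and have `∑ l (x j) ≥ 0`, hence
`∑_{j ≠ i} l (x j) ≥ λ`, so `l (x j) ≥ λ/(r-1)` for some `j ≠ i`.  With
`Z = {v ∉ W : l v ≥ λ/(r-1)}` the number of such tuples is at most `(r-1)|Z| n^(r-2)`.  Hence
`|Z| ≥ α n/(2(r-1))`, and `l' ≥ 1/(r-1)` on `Z` (also on `Z ∩ Bad`, `r - 1 ≥ 1/(r-1)`).  So
`∑ |l'| ≥ α n/(2 (r-1)²) ≥ (α/(2r²)) n`.
By `Interior`, at least `β n^r` tuples `u ∈ A true ∪ A false` have `∑ l' (u i) < 0`.  No entry `v` of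
such `u` has `l' v = r - 1` (the sum would be `≥ (r-1) - (r-1) = 0`); so all entries are in `V''`,
`l' (u i) = l (u i)/λ`, and `∑ l (u i) < 0`: `u` avoids `W`, `∑ z (u i) < 1`, and
`u ∈ K₁ true ∪ K₁ false`.  So there are at least `β n^r ≥ β' n^r` such tuples; contradiction.
-/

namespace Pool.Agent.Lib.TwoPaths

open Finset
open Pool.Agent.Lib.MP_952639_co

/-- tuples with one prescribed entry and one entry in a set -/
private theorem cnt2 {V : Type} [Fintype V] [DecidableEq V] {r : ℕ} {i j : Fin r} (hij : j ≠ i)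
    (v : V) (S : Finset V) :
    (univ.filter fun x : Fin r → V => x i = v ∧ x j ∈ S).card =
      S.card * Fintype.card V ^ (r - 2) := by
  have h1 : (univ.filter fun x : Fin r → V => x i = v ∧ x j ∈ S) =
      Fintype.piFinset (fun k => if k = i then {v} else if k = j then S else univ) := by
    ext x
    rw [mem_filter, Fintype.mem_piFinset]
    constructor
    · rintro ⟨-, h1, h2⟩ k
      split_ifs with h3 h4
      · rw [h3]; exact mem_singleton.2 h1
      · rw [h4]; exact h2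
      · exact mem_univ _
    · intro h
      refine ⟨mem_univ _, ?_, ?_⟩
      · have := h i
        rw [if_pos rfl] at this
        exact mem_singleton.1 this
      · have := h j
        rw [if_neg hij, if_pos rfl] at this
        exact this
  rw [h1, Fintype.card_piFinset, ← mul_prod_erase univ _ (mem_univ i),
    ← mul_prod_erase (univ.erase i) _ (mem_erase.2 ⟨hij, mem_univ j⟩)]
  have h2 : ∏ k ∈ (univ.erase i).erase j,
      (if k = i then ({v} : Finset V) else if k = j then S else univ).card =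
      ∏ _k ∈ (univ.erase i).erase j, Fintype.card V := by
    refine prod_congr rfl fun k hk => ?_
    rw [mem_erase, mem_erase] at hk
    rw [if_neg hk.2.1, if_neg hk.1, card_univ]
  rw [h2, prod_const, card_erase_of_mem (mem_erase.2 ⟨hij, mem_univ j⟩),
    card_erase_of_mem (mem_univ i), if_pos rfl, if_neg hij, if_pos rfl, card_singleton, one_mul,
    card_univ, Fintype.card_fin]
  rfl

/-- tuples with one prescribed entry and another entry in a set -/
private theorem cnt_other {V : Type} [Fintype V] [DecidableEq V] {r : ℕ} (i : Fin r)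
    (v : V) (S : Finset V) (T : Finset (Fin r → V))
    (hT : ∀ x ∈ T, x i = v ∧ ∃ j, j ≠ i ∧ x j ∈ S) :
    T.card ≤ (r - 1) * (S.card * Fintype.card V ^ (r - 2)) := by
  have h1 : T ⊆ (univ.erase i).biUnion
      (fun j => univ.filter fun x : Fin r → V => x i = v ∧ x j ∈ S) := by
    intro x hx
    obtain ⟨h2, j, h3, h4⟩ := hT x hx
    rw [mem_biUnion]
    exact ⟨j, mem_erase.2 ⟨h3, mem_univ j⟩, mem_filter.2 ⟨mem_univ _, h2, h4⟩⟩
  refine (card_le_card h1).trans ((card_biUnion_le).trans ?_)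
  have h2 : ∑ j ∈ univ.erase i, (univ.filter fun x : Fin r → V => x i = v ∧ x j ∈ S).card =
      ∑ _j ∈ (univ : Finset (Fin r)).erase i, S.card * Fintype.card V ^ (r - 2) :=
    sum_congr rfl fun j hj => cnt2 (ne_of_mem_erase hj) v S
  rw [h2, sum_const, card_erase_of_mem (mem_univ i), card_univ, Fintype.card_fin, smul_eq_mul]

/-- double counting of the entries -/
private theorem cnt_fib {V : Type} [Fintype V] [DecidableEq V] {r : ℕ} (i : V → Fin r)
    (G : Finset (Fin r → V)) : ∑ v : V, (G.filter fun x => x (i v) = v).card ≤ r * G.card := by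
  have h1 : ∀ v : V, (G.filter fun x => x (i v) = v).card ≤
      ∑ k : Fin r, (G.filter fun x => x k = v).card := fun v =>
    single_le_sum (f := fun k => (G.filter fun x => x k = v).card) (fun _ _ => Nat.zero_le _)
      (mem_univ (i v))
  refine (sum_le_sum fun v _ => h1 v).trans ?_
  rw [sum_comm]
  have h2 : ∀ k : Fin r, ∑ v : V, (G.filter fun x => x k = v).card = G.card := fun k =>
    (card_eq_sum_card_fiberwise (fun x _ => mem_univ (x k))).symm
  rw [sum_congr rfl fun k _ => h2 k, sum_const, card_univ, Fintype.card_fin, smul_eq_mul]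

theorem robust_off (r : ℕ) (hr : 2 ≤ r) (α ε₁ β : ℝ) (hα : 0 < α) (hε₁ : 0 < ε₁) (hβ : 0 < β) :
    ∃ θ : ℝ, 0 < θ ∧ ∀ κ : ℝ, 0 < κ → κ * r < 1 → ∃ β' : ℝ, 0 < β' ∧
      ∀ (V : Type) [Fintype V] [DecidableEq V], 0 < Fintype.card V →
      ∀ (A K₁ : Bool → Finset (Fin r → V)), (∀ b, A b ⊆ K₁ b) →
      Interior (α / (2 * r ^ 2)) ε₁ β A → Deg α K₁ →
      ∀ W : Finset V, (W.card : ℝ) ≤ θ * Fintype.card V → RobustOff κ β' K₁ W := by
  have hr0 : (0 : ℝ) < r := by exact_mod_cast (by omega : 0 < r)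
  have hr2 : (2 : ℝ) ≤ r := by exact_mod_cast hr
  refine ⟨min (α / (4 * r)) (min (ε₁ / (2 * r)) (1 / 2)), by positivity, ?_⟩
  intro κ hκ hκr
  obtain ⟨δ₂, hδ₂⟩ : ∃ δ₂ : ℝ, δ₂ = min (ε₁ / (2 * r)) ((1 - κ * r) / 4) := ⟨_, rfl⟩
  have hδpos : 0 < δ₂ := by
    rw [hδ₂]
    exact lt_min (by positivity) (by linarith)
  refine ⟨min β (α * δ₂ / (4 * r)), by positivity, ?_⟩
  intro V _ _ hn A K₁ hAK hint hdeg W hW z hz0 hz1 hzs
  have hn0 : (0 : ℝ) < Fintype.card V := by exact_mod_cast hn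
  have hn1 : (1 : ℝ) ≤ Fintype.card V := by exact_mod_cast hn
  by_contra hcon
  push Not at hcon
  choose b i hbi using hdeg
  -- the tuples counted
  set G : Finset (Fin r → V) := (K₁ true ∪ K₁ false).filter
    fun u => (∀ i, u i ∉ W) ∧ ∑ i, z (u i) < 1 with hG
  have hK : ∀ c, K₁ c ⊆ K₁ true ∪ K₁ false := by
    intro c
    cases c
    · exact subset_union_right
    · exact subset_union_left
  -- the bad vertices
  set cb : V → ℕ := fun v => ((K₁ (b v)).filter
    fun x => x (i v) = v ∧ ((∀ j, x j ∉ W) ∧ ∑ j, z (x j) < 1)).card with hcb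
  set Bad : Finset V := univ.filter fun v => v ∉ W ∧
    α / 4 * (Fintype.card V : ℝ) ^ (r - 1) ≤ (cb v : ℝ) with hBad
  have hcbG : ∀ v, cb v ≤ (G.filter fun x => x (i v) = v).card := by
    intro v
    refine card_le_card fun x hx => ?_
    rw [mem_filter] at hx
    rw [mem_filter, hG, mem_filter]
    exact ⟨⟨hK _ hx.1, hx.2.2⟩, hx.2.1⟩
  have hpow : (Fintype.card V : ℝ) ^ r = (Fintype.card V : ℝ) ^ (r - 1) * Fintype.card V := by
    rw [← pow_succ]
    congr 1
    omega
  have hpow2 : (Fintype.card V : ℝ) ^ (r - 1) =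
      (Fintype.card V : ℝ) ^ (r - 2) * Fintype.card V := by
    rw [← pow_succ]
    congr 1
    omega
  have hp1 : (0 : ℝ) < (Fintype.card V : ℝ) ^ (r - 1) := by positivity
  have hp2 : (0 : ℝ) < (Fintype.card V : ℝ) ^ (r - 2) := by positivity
  have hBadc : (Bad.card : ℝ) ≤ δ₂ * Fintype.card V := by
    have h1 : (Bad.card : ℝ) * (α / 4 * (Fintype.card V : ℝ) ^ (r - 1)) ≤
        ∑ v ∈ Bad, (cb v : ℝ) := by
      rw [← nsmul_eq_mul]
      exact card_nsmul_le_sum _ _ _ fun v hv => (mem_filter.1 hv).2.2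
    have h2 : ∑ v ∈ Bad, (cb v : ℝ) ≤ ((r * G.card : ℕ) : ℝ) := by
      rw [← Nat.cast_sum]
      have h3 : ∑ v ∈ Bad, cb v ≤ ∑ v, (G.filter fun x => x (i v) = v).card :=
        (sum_le_sum fun v _ => hcbG v).trans
          (sum_le_sum_of_subset (subset_univ _))
      exact_mod_cast h3.trans (cnt_fib i G)
    have h4 : (G.card : ℝ) ≤ α * δ₂ / (4 * r) * (Fintype.card V : ℝ) ^ r :=
      hcon.le.trans (mul_le_mul_of_nonneg_right (min_le_right _ _) (by positivity))
    push_cast at h2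
    have h5 : (r : ℝ) * G.card ≤ r * (α * δ₂ / (4 * r) * (Fintype.card V : ℝ) ^ r) :=
      mul_le_mul_of_nonneg_left h4 hr0.le
    have h6 : (r : ℝ) * (α * δ₂ / (4 * r) * (Fintype.card V : ℝ) ^ r) =
        (δ₂ * Fintype.card V) * (α / 4 * (Fintype.card V : ℝ) ^ (r - 1)) := by
      rw [hpow]
      field_simp
    have h7 : (Bad.card : ℝ) * (α / 4 * (Fintype.card V : ℝ) ^ (r - 1)) ≤
        (δ₂ * Fintype.card V) * (α / 4 * (Fintype.card V : ℝ) ^ (r - 1)) := by linarith
    exact le_of_mul_le_mul_right h7 (by positivity)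
  have hWa : (W.card : ℝ) ≤ α / (4 * r) * Fintype.card V :=
    hW.trans (mul_le_mul_of_nonneg_right (min_le_left _ _) hn0.le)
  have hWb : (W.card : ℝ) ≤ ε₁ / (2 * r) * Fintype.card V :=
    hW.trans (mul_le_mul_of_nonneg_right ((min_le_right _ _).trans (min_le_left _ _)) hn0.le)
  have hWc : (W.card : ℝ) ≤ 1 / 2 * Fintype.card V :=
    hW.trans (mul_le_mul_of_nonneg_right ((min_le_right _ _).trans (min_le_right _ _)) hn0.le)
  have hBa : (Bad.card : ℝ) ≤ ε₁ / (2 * r) * Fintype.card V :=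
    hBadc.trans (mul_le_mul_of_nonneg_right (by rw [hδ₂]; exact min_le_left _ _) hn0.le)
  have hBb : (Bad.card : ℝ) ≤ (1 - κ * r) / 4 * Fintype.card V :=
    hBadc.trans (mul_le_mul_of_nonneg_right (by rw [hδ₂]; exact min_le_right _ _) hn0.le)
  have hdis : Disjoint W Bad := by
    rw [disjoint_left]
    intro v hv hv'
    exact (mem_filter.1 hv').2.1 hv
  set V'' : Finset V := (W ∪ Bad)ᶜ with hV''
  have hV''c : (V''.card : ℝ) = Fintype.card V - W.card - Bad.card := by
    have h1 := card_compl_add_card (W ∪ Bad)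
    rw [card_union_of_disjoint hdis] at h1
    have h2 : ((V''.card + (W.card + Bad.card) : ℕ) : ℝ) = (Fintype.card V : ℕ) := by
      rw [hV'', h1]
    push_cast at h2
    linarith
  have hWcc : ((Wᶜ).card : ℝ) = Fintype.card V - W.card := by
    have h1 := card_compl_add_card W
    have h2 : (((Wᶜ).card + W.card : ℕ) : ℝ) = (Fintype.card V : ℕ) := by rw [h1]
    push_cast at h2
    linarith
  obtain ⟨l, hl⟩ : ∃ l : V → ℝ, l = fun v => z v - 1 / r := ⟨_, rfl⟩
  have hlv : ∀ v, l v = z v - 1 / r := fun v => by rw [hl]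
  have hlsum : ∀ x : Fin r → V, ∑ j, l (x j) = ∑ j, z (x j) - 1 := by
    intro x
    simp only [hlv]
    rw [sum_sub_distrib, sum_const, card_univ, Fintype.card_fin, nsmul_eq_mul]
    congr 1
    field_simp
  have hsumV : ∑ v ∈ V'', l v < 0 := by
    have h1 : ∑ v ∈ V'', l v = ∑ v ∈ V'', z v - V''.card * (1 / r) := by
      simp only [hlv]
      rw [sum_sub_distrib, sum_const, nsmul_eq_mul]
    have h2 : ∑ v ∈ V'', z v ≤ ∑ v ∈ Wᶜ, z v := by
      refine sum_le_sum_of_subset_of_nonneg ?_ (fun v _ _ => hz0 v)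
      rw [hV'']
      exact compl_subset_compl.2 subset_union_left
    have h3 : ∑ v ∈ V'', l v ≤ κ * (Wᶜ.card : ℝ) - V''.card * (1 / r) := by
      rw [h1]
      linarith
    have h4 : r * (κ * (Wᶜ.card : ℝ) - V''.card * (1 / r)) < 0 := by
      have h5 : (r : ℝ) * (κ * (Wᶜ.card : ℝ) - V''.card * (1 / r)) =
          κ * r * (Wᶜ.card : ℝ) - V''.card := by field_simp
      rw [h5, hV''c, hWcc]
      have h6 : (1 - κ * r) * (1 / 2 * Fintype.card V) ≤
          (1 - κ * r) * (Fintype.card V - W.card) :=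
        mul_le_mul_of_nonneg_left (by linarith) (by linarith)
      have h7 : 0 < (1 - κ * r) * Fintype.card V := mul_pos (by linarith) hn0
      nlinarith
    have h5 : κ * (Wᶜ.card : ℝ) - V''.card * (1 / r) < 0 := by
      by_contra hc
      push Not at hc
      exact absurd (mul_nonneg hr0.le hc) (not_le.2 h4)
    linarith
  obtain ⟨v1, hv1, hv1l⟩ : ∃ v ∈ V'', l v < 0 := by
    by_contra hc
    push Not at hc
    exact absurd (sum_nonneg hc) (not_le.2 hsumV)
  obtain ⟨v₀, hv₀, hmax⟩ := exists_max_image V'' (fun v => -l v) ⟨v1, hv1⟩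
  obtain ⟨lam, hlam⟩ : ∃ lam : ℝ, lam = -l v₀ := ⟨_, rfl⟩
  have hlam0 : 0 < lam := by
    have := hmax v1 hv1
    rw [hlam]
    linarith
  have hge : ∀ v ∈ V'', -1 ≤ l v / lam := by
    intro v hv
    rw [le_div_iff₀ hlam0]
    have := hmax v hv
    linarith
  -- the signed weight
  obtain ⟨l', hl'⟩ : ∃ l' : V → ℝ, l' = fun v => if v ∈ V'' then min (l v / lam) ((r : ℝ) - 1)
      else (r : ℝ) - 1 := ⟨_, rfl⟩
  have hl'v : ∀ v ∈ V'', l' v = min (l v / lam) ((r : ℝ) - 1) := fun v hv => by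
    rw [hl']
    exact if_pos hv
  have hl'w : ∀ v, v ∉ V'' → l' v = (r : ℝ) - 1 := fun v hv => by
    rw [hl']
    exact if_neg hv
  have hl'lo : ∀ v, -1 ≤ l' v := by
    intro v
    by_cases hv : v ∈ V''
    · rw [hl'v v hv]
      exact le_min (hge v hv) (by linarith)
    · rw [hl'w v hv]
      linarith
  have hl'hi : ∀ v, l' v ≤ (r : ℝ) - 1 := by
    intro v
    by_cases hv : v ∈ V''
    · rw [hl'v v hv]
      exact min_le_right _ _
    · rw [hl'w v hv]
  have hcompl : V''ᶜ = W ∪ Bad := by rw [hV'', compl_compl]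
  have hl'sum : ∑ v, l' v ≤ ε₁ * Fintype.card V := by
    rw [← sum_add_sum_compl V'' l', hcompl]
    have h1 : ∑ v ∈ V'', l' v ≤ 0 := by
      have h2 : ∑ v ∈ V'', l' v ≤ ∑ v ∈ V'', l v / lam :=
        sum_le_sum fun v hv => by rw [hl'v v hv]; exact min_le_left _ _
      have h3 : ∑ v ∈ V'', l v / lam = (∑ v ∈ V'', l v) / lam := (sum_div _ _ _).symm
      have h4 : (∑ v ∈ V'', l v) / lam ≤ 0 := div_nonpos_of_nonpos_of_nonneg hsumV.le hlam0.le
      linarith
    have h2 : ∑ v ∈ W ∪ Bad, l' v = ((W.card : ℝ) + Bad.card) * ((r : ℝ) - 1) := by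
      have h3 : ∑ v ∈ W ∪ Bad, l' v = ∑ _v ∈ W ∪ Bad, ((r : ℝ) - 1) :=
        sum_congr rfl fun v hv => hl'w v (by rw [hV'', mem_compl]; exact not_not.2 hv)
      rw [h3, sum_const, card_union_of_disjoint hdis, nsmul_eq_mul]
      push_cast
      ring
    have h3 : ((W.card : ℝ) + Bad.card) * ((r : ℝ) - 1) ≤
        (ε₁ / r * Fintype.card V) * ((r : ℝ) - 1) := by
      refine mul_le_mul_of_nonneg_right ?_ (by linarith)
      have h4 : ε₁ / r * Fintype.card V = ε₁ / (2 * r) * Fintype.card V +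
          ε₁ / (2 * r) * Fintype.card V := by
        field_simp
        ring
      linarith
    have h4 : (ε₁ / r * Fintype.card V) * ((r : ℝ) - 1) ≤ (ε₁ / r * Fintype.card V) * r :=
      mul_le_mul_of_nonneg_left (by linarith) (by positivity)
    have h5 : (ε₁ / r * Fintype.card V) * (r : ℝ) = ε₁ * Fintype.card V := by
      field_simp
    linarith
  -- the vertices with a large weight
  set Z : Finset V := univ.filter fun v => v ∉ W ∧ lam / ((r : ℝ) - 1) ≤ l v with hZ
  have hr1 : (0 : ℝ) < (r : ℝ) - 1 := by linarith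
  have hv₀W : v₀ ∉ W := by
    intro h
    rw [hV'', mem_compl] at hv₀
    exact hv₀ (mem_union_left _ h)
  have hv₀B : v₀ ∉ Bad := by
    intro h
    rw [hV'', mem_compl] at hv₀
    exact hv₀ (mem_union_right _ h)
  have hcast : ((r - 1 : ℕ) : ℝ) = (r : ℝ) - 1 := by
    rw [Nat.cast_sub (by omega)]
    simp
  have hZc : α * Fintype.card V ≤ 2 * ((r : ℝ) - 1) * Z.card := by
    set T : Finset (Fin r → V) := (K₁ (b v₀)).filter fun x => x (i v₀) = v₀ with hT
    have hTc : α * (Fintype.card V : ℝ) ^ (r - 1) ≤ (T.card : ℝ) := hbi v₀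
    set T1 := T.filter fun x => ∃ j, j ≠ i v₀ ∧ x j ∈ W with hT1
    set T2 := T.filter fun x => (∀ j, x j ∉ W) ∧ ∑ j, z (x j) < 1 with hT2
    set T3 := T.filter fun x => (∀ j, x j ∉ W) ∧ 1 ≤ ∑ j, z (x j) with hT3
    have hsub : T ⊆ T1 ∪ (T2 ∪ T3) := by
      intro x hx
      by_cases h1 : ∃ j, j ≠ i v₀ ∧ x j ∈ W
      · exact mem_union_left _ (mem_filter.2 ⟨hx, h1⟩)
      · refine mem_union_right _ ?_
        have h2 : ∀ j, x j ∉ W := by
          intro j hj
          by_cases h3 : j = i v₀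
          · rw [h3, (mem_filter.1 hx).2] at hj
            exact hv₀W hj
          · exact h1 ⟨j, h3, hj⟩
        by_cases h3 : ∑ j, z (x j) < 1
        · exact mem_union_left _ (mem_filter.2 ⟨hx, h2, h3⟩)
        · exact mem_union_right _ (mem_filter.2 ⟨hx, h2, not_lt.1 h3⟩)
    have hc : (T.card : ℝ) ≤ T1.card + (T2.card + T3.card) := by
      have h1 := (card_le_card hsub).trans (card_union_le _ _)
      have h2 := card_union_le T2 T3
      exact_mod_cast h1.trans (by omega)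
    have hc1 : (T1.card : ℝ) ≤ α / 4 * (Fintype.card V : ℝ) ^ (r - 1) := by
      have h1 := cnt_other (i v₀) v₀ W T1 (fun x hx => by
        rw [hT1, mem_filter, hT, mem_filter] at hx
        exact ⟨hx.1.2, hx.2⟩)
      have h2 : (T1.card : ℝ) ≤ ((r - 1 : ℕ) : ℝ) * (W.card * (Fintype.card V : ℝ) ^ (r - 2)) := by
        exact_mod_cast h1
      rw [hcast] at h2
      have h3 : ((r : ℝ) - 1) * (W.card * (Fintype.card V : ℝ) ^ (r - 2)) ≤
          r * ((α / (4 * r) * Fintype.card V) * (Fintype.card V : ℝ) ^ (r - 2)) := by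
        refine mul_le_mul (by linarith) (mul_le_mul_of_nonneg_right hWa hp2.le)
          (by positivity) hr0.le
      have h4 : r * ((α / (4 * r) * Fintype.card V) * (Fintype.card V : ℝ) ^ (r - 2)) =
          α / 4 * (Fintype.card V : ℝ) ^ (r - 1) := by
        rw [hpow2]
        field_simp
      linarith
    have hc2 : (T2.card : ℝ) ≤ α / 4 * (Fintype.card V : ℝ) ^ (r - 1) := by
      have h1 : T2.card ≤ cb v₀ := by
        refine card_le_card fun x hx => ?_
        rw [hT2, mem_filter, hT, mem_filter] at hx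
        rw [mem_filter]
        exact ⟨hx.1.1, hx.1.2, hx.2⟩
      have h2 : (cb v₀ : ℝ) < α / 4 * (Fintype.card V : ℝ) ^ (r - 1) := by
        by_contra hc'
        push Not at hc'
        exact hv₀B (mem_filter.2 ⟨mem_univ _, hv₀W, hc'⟩)
      have h3 : (T2.card : ℝ) ≤ cb v₀ := by exact_mod_cast h1
      linarith
    have hc3 : (T3.card : ℝ) ≤ ((r : ℝ) - 1) * (Z.card * (Fintype.card V : ℝ) ^ (r - 2)) := by
      have h1 := cnt_other (i v₀) v₀ Z T3 (fun x hx => by
        rw [hT3, mem_filter, hT, mem_filter] at hx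
        obtain ⟨⟨-, h2⟩, h3, h4⟩ := hx
        refine ⟨h2, ?_⟩
        by_contra hno
        push Not at hno
        have h5 : ∀ j ∈ univ.erase (i v₀), l (x j) < lam / ((r : ℝ) - 1) := by
          intro j hj
          by_contra h6
          push Not at h6
          exact hno j (ne_of_mem_erase hj) (mem_filter.2 ⟨mem_univ _, h3 j, h6⟩)
        have h6 : ∑ j ∈ univ.erase (i v₀), l (x j) <
            ∑ _j ∈ univ.erase (i v₀), lam / ((r : ℝ) - 1) := by
          refine sum_lt_sum_of_nonempty ?_ h5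
          rw [← card_pos, card_erase_of_mem (mem_univ _), card_univ, Fintype.card_fin]
          omega
        rw [sum_const, card_erase_of_mem (mem_univ _), card_univ, Fintype.card_fin, nsmul_eq_mul,
          hcast] at h6
        have h7 : ((r : ℝ) - 1) * (lam / ((r : ℝ) - 1)) = lam := by field_simp
        have h8 := hlsum x
        rw [← add_sum_erase univ (fun j => l (x j)) (mem_univ (i v₀))] at h8
        have h9 : l (x (i v₀)) = -lam := by rw [h2, hlam]; ring
        linarith)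
      have h2 : (T3.card : ℝ) ≤ ((r - 1 : ℕ) : ℝ) * (Z.card * (Fintype.card V : ℝ) ^ (r - 2)) := by
        exact_mod_cast h1
      rwa [hcast] at h2
    have h1 : α / 2 * (Fintype.card V : ℝ) ^ (r - 1) ≤
        ((r : ℝ) - 1) * (Z.card * (Fintype.card V : ℝ) ^ (r - 2)) := by linarith
    rw [hpow2] at h1
    have h2 : (α / 2 * Fintype.card V) * (Fintype.card V : ℝ) ^ (r - 2) ≤
        (((r : ℝ) - 1) * Z.card) * (Fintype.card V : ℝ) ^ (r - 2) := by
      calc _ = α / 2 * ((Fintype.card V : ℝ) ^ (r - 2) * Fintype.card V) := by ring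
        _ ≤ _ := h1
        _ = _ := by ring
    have h3 := le_of_mul_le_mul_right h2 hp2
    linarith
  have hZl : ∀ v ∈ Z, 1 / ((r : ℝ) - 1) ≤ l' v := by
    intro v hv
    have h1 : 1 / ((r : ℝ) - 1) ≤ (r : ℝ) - 1 := by
      rw [div_le_iff₀ hr1]
      nlinarith
    by_cases hv2 : v ∈ V''
    · rw [hl'v v hv2]
      refine le_min ?_ h1
      have h2 := (mem_filter.1 hv).2.2
      rw [le_div_iff₀ hlam0]
      calc 1 / ((r : ℝ) - 1) * lam = lam / ((r : ℝ) - 1) := by ring
        _ ≤ _ := h2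
    · rw [hl'w v hv2]
      exact h1
  have habs : α / (2 * r ^ 2) * Fintype.card V ≤ ∑ v, |l' v| := by
    have h1 : ∑ v ∈ Z, |l' v| ≤ ∑ v, |l' v| :=
      sum_le_sum_of_subset_of_nonneg (subset_univ _) (fun v _ _ => abs_nonneg _)
    have h2 : (Z.card : ℝ) * (1 / ((r : ℝ) - 1)) ≤ ∑ v ∈ Z, |l' v| := by
      rw [← nsmul_eq_mul]
      exact card_nsmul_le_sum _ _ _ fun v hv => (hZl v hv).trans (le_abs_self _)
    have h3 : α / (2 * r ^ 2) * Fintype.card V ≤ (Z.card : ℝ) * (1 / ((r : ℝ) - 1)) := by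
      have h4 : (Z.card : ℝ) * (1 / ((r : ℝ) - 1)) = Z.card / ((r : ℝ) - 1) := by ring
      have h5 : α / (2 * r ^ 2) * Fintype.card V = (α * Fintype.card V) / (2 * r ^ 2) := by ring
      rw [h4, h5, div_le_div_iff₀ (by positivity) hr1]
      calc α * Fintype.card V * ((r : ℝ) - 1) ≤ 2 * ((r : ℝ) - 1) * Z.card * ((r : ℝ) - 1) :=
            mul_le_mul_of_nonneg_right hZc hr1.le
        _ = Z.card * (2 * ((r : ℝ) - 1) ^ 2) := by ring
        _ ≤ Z.card * (2 * (r : ℝ) ^ 2) := by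
            refine mul_le_mul_of_nonneg_left ?_ (Nat.cast_nonneg _)
            have h6 : ((r : ℝ) - 1) ^ 2 ≤ (r : ℝ) ^ 2 :=
              pow_le_pow_left₀ hr1.le (by linarith) 2
            linarith
    linarith
  have hfin := hint l' hl'lo hl'hi hl'sum habs
  have hsubG : ((A true ∪ A false).filter fun u => ∑ i, l' (u i) < 0) ⊆ G := by
    intro u hu
    rw [mem_filter] at hu
    obtain ⟨hu1, hu2⟩ := hu
    have hne : ∀ j, l' (u j) ≠ (r : ℝ) - 1 := by
      intro j hj
      rw [← add_sum_erase univ (fun j => l' (u j)) (mem_univ j)] at hu2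
      have h1 : -((r : ℝ) - 1) ≤ ∑ k ∈ univ.erase j, l' (u k) := by
        have h2 : ∑ _k ∈ univ.erase j, (-1 : ℝ) ≤ ∑ k ∈ univ.erase j, l' (u k) :=
          sum_le_sum fun k _ => hl'lo _
        rw [sum_const, card_erase_of_mem (mem_univ _), card_univ, Fintype.card_fin, nsmul_eq_mul,
          hcast] at h2
        linarith
      linarith
    have hmem : ∀ j, u j ∈ V'' := by
      intro j
      by_contra h
      exact hne j (hl'w _ h)
    have hval : ∀ j, l' (u j) = l (u j) / lam := by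
      intro j
      have h1 := hne j
      rw [hl'v _ (hmem j)] at h1 ⊢
      rcases min_choice (l (u j) / lam) ((r : ℝ) - 1) with h2 | h2
      · exact h2
      · exact absurd h2 h1
    have hsum : ∑ j, l (u j) < 0 := by
      simp only [hval] at hu2
      rw [← sum_div] at hu2
      by_contra h
      push Not at h
      exact absurd (div_nonneg h hlam0.le) (not_le.2 hu2)
    rw [hG, mem_filter]
    refine ⟨?_, ?_, ?_⟩
    · rcases mem_union.1 hu1 with h | h
      · exact mem_union_left _ (hAK _ h)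
      · exact mem_union_right _ (hAK _ h)
    · intro j hj
      have h1 := hmem j
      rw [hV'', mem_compl] at h1
      exact h1 (mem_union_left _ hj)
    · have := hlsum u
      linarith
  have h1 : (((A true ∪ A false).filter fun u => ∑ i, l' (u i) < 0).card : ℝ) ≤ G.card := by
    exact_mod_cast card_le_card hsubG
  have h2 : min β (α * δ₂ / (4 * r)) * (Fintype.card V : ℝ) ^ r ≤
      β * (Fintype.card V : ℝ) ^ r :=
    mul_le_mul_of_nonneg_right (min_le_left _ _) (by positivity)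
  linarith

end Pool.Agent.Lib.TwoPaths
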