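import Pool.Agent.Lib.TwoPaths.NDefs
import Pool.Agent.Lib.TwoPaths.M3

/-!
# N5: rich walks

`A₁` a family of tuples of colour `κ`, `|A₁| ≥ ρ n^r`, any two joined by `≥ cc n^(r(lam-1))` walks of
length `lam ≥ 2`.  `N = n^r`, `k = 2 lam - 1`, `lam' = 2 lam + 1`.

PROOF.  Fix `u, w ∈ A₁`.  Let `Γ` be the set of `W : Fin k → Fin r → V` with `Adj` between
consecutive members of `u, W 0, …, W (k-1), w` and `W (lam-1) ∈ A₁`.
`|Γ| = ∑_{y ∈ A₁} (AM^lam) u y (AM^lam) y w ≥ ρ N cc² N^(2 lam - 2) = ρ cc² N^k`.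
`cube_idx` (index type `Fin k × Fin r`): at least `2 s₁ N^(2k)` pairs `(W⁰, W¹)` have all mixtures in
`Γ`, `2 s₁ = (ρ cc²)^(2^(k r))`.  Call `W⁰` rich if it has at least `s₁ N^k` partners `W¹`; at least
`s₁ N^k` of the `W⁰` are rich.
Let `W⁰` be rich.  Write `W_{-1} = u`, `W_k = w`.  Let `0 ≤ i ≤ k` and `m = mix (W⁰_{i-1}) (W⁰_i) I`.
We show that many walks lead from `m` to `A₁`.  For a partner `W¹`:
 * if `i < k`: `Adj m W¹_i`: for `J`, `mix m W¹_i J = mix W⁰_{i-1} M (I ∪ J)` with
   `M = mix W⁰_i W¹_i J`, and `W⁰_{i-1}` and `M` are adjacent since `W⁰` with the `i`-th tuple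
   replaced by `M` is a mixture of `W⁰, W¹`, so is in `Γ`.  So the mixture has colour `κ`.
 * if `i = k`: `Adj m W¹_{k-1}`: `mix m W¹_{k-1} J = mix M w (I \ J)` with
   `M = mix W⁰_{k-1} W¹_{k-1} J`, and `M, w` are adjacent.
In both cases `m` (colour `κ`) is adjacent to `W¹_e` (`e = i` or `k-1`), and
`W¹_e, …, W¹_{lam-1}` (in increasing or decreasing order of indices) is a walk to
`W¹_{lam-1} ∈ A₁`.  With `d = 1 + |lam - 1 - e| ≤ lam` this gives at least
`s₁ N^k/N^(k-d) = s₁ N^d` walks of length `d` from `m` to `A₁`: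
`∑_{y ∈ A₁} (AM^d) m y ≥ s₁ N^d`.
Then `∑_{y' ∈ A₁} (AM^(d+lam)) m y' ≥ ∑_{y, y' ∈ A₁} (AM^d) m y (AM^lam) y y' ≥ s₁ N^d ρ N cc N^(lam-1)
= s₂ N^(d+lam)`, `s₂ = s₁ ρ cc`.  As `(AM^(d+lam)) m y' ≤ N^(d+lam-1)`, at least `(s₂/2) N` of the
`y' ∈ A₁` have `Rel c (d+lam) (s₂/2) m y'`; pad `lam + 1 - d` times (`Rel.pad_iter`, `2 ≤ d + lam`) to length
`lam' = 2 lam + 1`: `Rel c lam' s₃ m y'` with `s₃` the minimum of the finitely many constants
`(padf r)^[e] (s₂/2)`, `e ≤ lam`.  So `∑_{y' ∈ A₁} (AM^lam') m y' ≥ (s₂/2) s₃ N^lam'`.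
Put `s = min` of `(s₂/2) s₃`, `s₁`, `(padf r)^[lam+1] cc`, `ρ (padf r)^[lam+1] cc`.
Then all mixtures above are in `Kset s lam' c κ A₁`: third claim (`RichWalks` for one family).
Second claim: `Rel c lam cc x y` padded `lam + 1` times.  First claim: sum the second one over
`y ∈ A₁`.
-/

namespace Pool.Agent.Lib.TwoPaths

open Finset
open Pool.Agent.Lib.MP_952639_co

set_option linter.unusedSectionVars false

private lemma card_cons {T : Type*} [Fintype T] (k : ℕ) (P : (Fin (k + 1) → T) → Prop)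
    [DecidablePred P] :
    ((univ.filter P).card : ℝ) =
      ∑ z, ((univ.filter fun W : Fin k → T => P (Fin.cons z W : Fin (k + 1) → T)).card : ℝ) := by
  classical
  rw [card_filter, Nat.cast_sum,
    ← (Fin.consEquiv (fun _ : Fin (k + 1) => T)).sum_comp, Fintype.sum_prod_type]
  refine sum_congr rfl fun z _ => ?_
  rw [card_filter, Nat.cast_sum]
  rfl

private lemma card_snoc {T : Type*} [Fintype T] (k : ℕ) (P : (Fin (k + 1) → T) → Prop)
    [DecidablePred P] :
    ((univ.filter P).card : ℝ) =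
      ∑ z, ((univ.filter fun W : Fin k → T => P (Fin.snoc W z : Fin (k + 1) → T)).card : ℝ) := by
  classical
  rw [card_filter, Nat.cast_sum,
    ← (Fin.snocEquiv (fun _ : Fin (k + 1) => T)).sum_comp, Fintype.sum_prod_type]
  refine sum_congr rfl fun z _ => ?_
  rw [card_filter, Nat.cast_sum]
  rfl

section

variable {V : Type} [Fintype V] [DecidableEq V] {r : ℕ} {c : Finset V → Bool}

/-- `W` is a walk from `u` to `w`. -/
private def Ch (c : Finset V → Bool) {k : ℕ} (u w : Fin r → V) (W : Fin k → Fin r → V) : Prop :=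
  (u :: (List.ofFn W ++ [w])).IsChain (Adj c)

omit [Fintype V] in
private lemma ch_cons {k : ℕ} {u w z : Fin r → V} {W : Fin k → Fin r → V} :
    Ch c u w (Fin.cons z W : Fin (k + 1) → Fin r → V) ↔ Adj c u z ∧ Ch c z w W := by
  unfold Ch
  rw [List.ofFn_cons, List.cons_append, List.isChain_cons_cons]

open Classical in
private lemma count_ch (k : ℕ) : ∀ u w : Fin r → V,
    ((univ.filter fun W : Fin k → Fin r → V => Ch c u w W).card : ℝ) =
      (AM r c ^ (k + 1)) u w := by
  induction k with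
  | zero =>
    intro u w
    rw [zero_add, pow_one, AM]
    have h : ∀ W : Fin 0 → Fin r → V, Ch c u w W ↔ Adj c u w := by
      intro W
      unfold Ch
      simp
    simp only [h]
    by_cases ha : Adj c u w
    · simp [ha]
    · simp [ha]
  | succ k ih =>
    intro u w
    rw [card_cons, pow_succ', Matrix.mul_apply]
    refine sum_congr rfl fun z _ => ?_
    simp only [ch_cons]
    by_cases ha : Adj c u z
    · simp only [ha, true_and]
      rw [ih, AM_eq_one ha, one_mul]
    · simp [ha, AM]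

open Classical in
private lemma count_mid (A₁ : Finset (Fin r → V)) (w : Fin r → V) (k : ℕ) :
    ∀ (a : ℕ) (ha : a < k) (u : Fin r → V),
    ((univ.filter fun W : Fin k → Fin r → V => Ch c u w W ∧ W ⟨a, ha⟩ ∈ A₁).card : ℝ) =
      ∑ y ∈ A₁, (AM r c ^ (a + 1)) u y * (AM r c ^ (k - a)) y w := by
  induction k with
  | zero => intro a ha; omega
  | succ k ih =>
    intro a ha u
    rw [card_cons]
    rcases Nat.eq_zero_or_pos a with rfl | ha0
    · rw [zero_add, pow_one, Nat.sub_zero, ← sum_filter_add_sum_filter_not univ (· ∈ A₁)]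
      have h2 : ∑ z ∈ univ.filter (fun z : Fin r → V => z ∉ A₁),
          ((univ.filter fun W : Fin k → Fin r → V =>
            Ch c u w (Fin.cons z W : Fin (k + 1) → Fin r → V) ∧
            (Fin.cons z W : Fin (k + 1) → Fin r → V) ⟨0, ha⟩ ∈ A₁).card : ℝ) = 0 := by
        refine sum_eq_zero fun z hz => ?_
        rw [mem_filter] at hz
        rw [Nat.cast_eq_zero, card_eq_zero, filter_eq_empty_iff]
        intro W _ hW
        exact hz.2 hW.2
      rw [h2, add_zero]
      rw [show univ.filter (fun z : Fin r → V => z ∈ A₁) = A₁ by ext; simp]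
      refine sum_congr rfl fun z hz => ?_
      have h3 : (univ.filter fun W : Fin k → Fin r → V =>
            Ch c u w (Fin.cons z W : Fin (k + 1) → Fin r → V) ∧
            (Fin.cons z W : Fin (k + 1) → Fin r → V) ⟨0, ha⟩ ∈ A₁) =
          univ.filter fun W : Fin k → Fin r → V => Adj c u z ∧ Ch c z w W := by
        refine filter_congr fun W _ => ?_
        rw [ch_cons]
        constructor
        · exact fun h => h.1
        · exact fun h => ⟨h, hz⟩
      rw [h3]
      by_cases hadj : Adj c u z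
      · simp only [hadj, true_and]
        rw [count_ch, AM_eq_one hadj, one_mul]
      · simp [hadj, AM]
    · obtain ⟨b, rfl⟩ : ∃ b, a = b + 1 := ⟨a - 1, by omega⟩
      have hb : b < k := by omega
      have e : k + 1 - (b + 1) = k - b := by omega
      rw [e]
      have h1 : ∑ y ∈ A₁, (AM r c ^ (b + 1 + 1)) u y * (AM r c ^ (k - b)) y w =
          ∑ z, AM r c u z * ∑ y ∈ A₁, (AM r c ^ (b + 1)) z y * (AM r c ^ (k - b)) y w := by
        simp only [mul_sum]
        rw [sum_comm]
        refine sum_congr rfl fun y _ => ?_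
        rw [pow_succ' _ (b + 1), Matrix.mul_apply, sum_mul]
        refine sum_congr rfl fun z _ => ?_
        ring
      rw [h1]
      refine sum_congr rfl fun z _ => ?_
      rw [← ih b hb z]
      have h3 : (univ.filter fun W : Fin k → Fin r → V =>
            Ch c u w (Fin.cons z W : Fin (k + 1) → Fin r → V) ∧
            (Fin.cons z W : Fin (k + 1) → Fin r → V) ⟨b + 1, ha⟩ ∈ A₁) =
          univ.filter fun W : Fin k → Fin r → V => Adj c u z ∧ (Ch c z w W ∧ W ⟨b, hb⟩ ∈ A₁) := by
        refine filter_congr fun W _ => ?_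
        rw [ch_cons, and_assoc]
        have : (Fin.cons z W : Fin (k + 1) → Fin r → V) ⟨b + 1, ha⟩ = W ⟨b, hb⟩ := by
          rw [show (⟨b + 1, ha⟩ : Fin (k + 1)) = Fin.succ ⟨b, hb⟩ from rfl, Fin.cons_succ]
        rw [this]
      rw [h3]
      by_cases hadj : Adj c u z
      · simp only [hadj, true_and]
        rw [AM_eq_one hadj, one_mul]
      · simp [hadj, AM]

open Classical in
/-- Walks starting at `m` and ending in `A₁`. -/
private lemma count_end (A₁ : Finset (Fin r → V)) (m : Fin r → V) (d : ℕ) :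
    ((univ.filter fun z : Fin (d + 1) → Fin r → V =>
      (m :: List.ofFn z).IsChain (Adj c) ∧ z (Fin.last d) ∈ A₁).card : ℝ) =
      ∑ y ∈ A₁, (AM r c ^ (d + 1)) m y := by
  rw [card_snoc, ← sum_filter_add_sum_filter_not univ (· ∈ A₁)]
  have h2 : ∑ y ∈ univ.filter (fun z : Fin r → V => z ∉ A₁),
      ((univ.filter fun W : Fin d → Fin r → V =>
        (m :: List.ofFn (Fin.snoc W y : Fin (d + 1) → Fin r → V)).IsChain (Adj c) ∧
        (Fin.snoc W y : Fin (d + 1) → Fin r → V) (Fin.last d) ∈ A₁).card : ℝ) = 0 := by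
    refine sum_eq_zero fun z hz => ?_
    rw [mem_filter] at hz
    rw [Nat.cast_eq_zero, card_eq_zero, filter_eq_empty_iff]
    intro W _ hW
    rw [Fin.snoc_last] at hW
    exact hz.2 hW.2
  rw [h2, add_zero]
  rw [show univ.filter (fun z : Fin r → V => z ∈ A₁) = A₁ by ext; simp]
  refine sum_congr rfl fun y hy => ?_
  rw [← count_ch d m y]
  congr 2
  refine filter_congr fun W _ => ?_
  rw [Fin.snoc_last]
  have : List.ofFn (Fin.snoc W y : Fin (d + 1) → Fin r → V) = List.ofFn W ++ [y] := by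
    rw [List.ofFn_succ', List.concat_eq_append, Fin.snoc_last]
    congr 2
    funext i
    rw [Fin.snoc_castSucc]
  rw [this]
  unfold Ch
  constructor
  · exact fun h => h.1
  · exact fun h => ⟨h, hy⟩


private def ex {T : Type*} {k : ℕ} (u w : T) (W : Fin k → T) (i : ℕ) : T :=
  if i = 0 then u else if h : i - 1 < k then W ⟨i - 1, h⟩ else w

private lemma getElem_ex {T : Type*} {k : ℕ} (u w : T) (W : Fin k → T) (i : ℕ)
    (h : i < (u :: (List.ofFn W ++ [w])).length) :
    (u :: (List.ofFn W ++ [w]))[i] = ex u w W i := by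
  cases i with
  | zero => simp [ex]
  | succ j =>
    rw [List.getElem_cons_succ, List.getElem_append]
    simp only [List.length_cons, List.length_append, List.length_ofFn, List.length_nil] at h
    unfold ex
    rw [if_neg (by omega)]
    by_cases hj : j < k
    · rw [dif_pos (by simpa using hj), dif_pos (by simpa using hj)]
      simp
    · rw [dif_neg (by simpa using hj), dif_neg (by simpa using hj)]
      simp

private lemma chain_iff {T : Type*} {R : T → T → Prop} {k : ℕ} {u w : T} {W : Fin k → T} :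
    (u :: (List.ofFn W ++ [w])).IsChain R ↔
      ∀ i ≤ k, R (ex u w W i) (ex u w W (i + 1)) := by
  rw [List.isChain_iff_getElem]
  have hl : (u :: (List.ofFn W ++ [w])).length = k + 2 := by simp
  constructor
  · intro h i hi
    have := h i (by omega)
    rwa [getElem_ex, getElem_ex] at this
  · intro h i hi
    rw [getElem_ex, getElem_ex]
    exact h i (by omega)

private lemma ex_zero {T : Type*} {k : ℕ} (u w : T) (W : Fin k → T) : ex u w W 0 = u := by
  simp [ex]

private lemma ex_succ {T : Type*} {k : ℕ} (u w : T) (W : Fin k → T) {i : ℕ} (h : i < k) :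
    ex u w W (i + 1) = W ⟨i, h⟩ := by
  unfold ex
  rw [if_neg (by omega), dif_pos (by simpa using h)]
  rfl

private lemma ex_last {T : Type*} {k : ℕ} (u w : T) (W : Fin k → T) :
    ex u w W (k + 1) = w := by
  unfold ex
  rw [if_neg (by omega), dif_neg (by simp)]

private lemma ch_col {κ : Bool} {k : ℕ} {u w : Fin r → V} {W : Fin k → Fin r → V}
    (h : Ch c u w W) (hu : Col c κ u) : ∀ i ≤ k + 1, Col c κ (ex u w W i) := by
  unfold Ch at h
  rw [chain_iff] at h
  intro i
  induction i with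
  | zero => intro _; rw [ex_zero]; exact hu
  | succ i ih =>
    intro hi
    obtain ⟨κ', h1, h2⟩ := (h i (by omega)).col
    rw [(ih (by omega)).unique h1]
    exact h2

private lemma adj_mix {κ : Bool} {k : ℕ} (hk : 0 < k) {u w : Fin r → V}
    {W0 W1 : Fin k → Fin r → V}
    (hpr : ∀ J : Fin k → Finset (Fin r), Ch c u w (fun j => mix (W0 j) (W1 j) (J j)))
    (hu : Col c κ u) {i : ℕ} (hi : i ≤ k) (I : Finset (Fin r)) :
    Col c κ (mix (ex u w W0 i) (ex u w W0 (i + 1)) I) ∧
      Adj c (mix (ex u w W0 i) (ex u w W0 (i + 1)) I) (W1 ⟨min i (k - 1), by omega⟩) := by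
  have h0 : Ch c u w W0 := by
    have := hpr fun _ => ∅
    simpa only [mix_empty] using this
  have hcol := ch_col h0 hu
  have key : ∀ J : Finset (Fin r),
      Col c κ (mix (mix (ex u w W0 i) (ex u w W0 (i + 1)) I) (W1 ⟨min i (k - 1), by omega⟩) J) := by
    intro J
    rcases Nat.lt_or_ge i k with hik | hik
    · have hmin : min i (k - 1) = i := by omega
      have h1 := hpr fun j => if j = ⟨i, hik⟩ then J else ∅
      unfold Ch at h1
      rw [chain_iff] at h1
      obtain ⟨κ', h2⟩ := h1 i hi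
      have e1 : ex u w (fun j => mix (W0 j) (W1 j) (if j = ⟨i, hik⟩ then J else ∅)) i =
          ex u w W0 i := by
        rcases Nat.eq_zero_or_pos i with h | h
        · subst h; rw [ex_zero, ex_zero]
        · obtain ⟨b, rfl⟩ : ∃ b, i = b + 1 := ⟨i - 1, by omega⟩
          rw [ex_succ _ _ _ (by omega : b < k), ex_succ _ _ _ (by omega : b < k)]
          rw [if_neg (by intro h; rw [Fin.mk.injEq] at h; omega), mix_empty]
      have e2 : ex u w (fun j => mix (W0 j) (W1 j) (if j = ⟨i, hik⟩ then J else ∅)) (i + 1) =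
          mix (W0 ⟨i, hik⟩) (W1 ⟨i, hik⟩) J := by
        rw [ex_succ _ _ _ hik, if_pos rfl]
      rw [e1, e2] at h2
      have h3 := h2 ∅
      rw [mix_empty] at h3
      have e3 : κ' = κ := h3.unique (hcol i (by omega))
      subst e3
      have h4 := h2 (I ∪ J)
      have e4 : mix (mix (ex u w W0 i) (ex u w W0 (i + 1)) I) (W1 ⟨min i (k - 1), by omega⟩) J =
          mix (ex u w W0 i) (mix (W0 ⟨i, hik⟩) (W1 ⟨i, hik⟩) J) (I ∪ J) := by
        rw [ex_succ _ _ _ hik]
        have e5 : (⟨min i (k - 1), by omega⟩ : Fin k) = ⟨i, hik⟩ := by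
          rw [Fin.mk.injEq]; exact hmin
        rw [e5]
        funext a
        by_cases ha : a ∈ J <;> by_cases hb : a ∈ I <;> simp [mix, ha, hb]
      rw [e4]
      exact h4
    · have hik' : i = k := by omega
      subst hik'
      have hmin : min i (i - 1) = i - 1 := by omega
      have hlt : i - 1 < i := by omega
      have h1 := hpr fun j => if j = ⟨i - 1, hlt⟩ then J else ∅
      unfold Ch at h1
      rw [chain_iff] at h1
      obtain ⟨κ', h2⟩ := h1 i le_rfl
      have e1 : ex u w (fun j => mix (W0 j) (W1 j) (if j = ⟨i - 1, hlt⟩ then J else ∅)) i =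
          mix (W0 ⟨i - 1, hlt⟩) (W1 ⟨i - 1, hlt⟩) J := by
        have := ex_succ u w (fun j => mix (W0 j) (W1 j) (if j = ⟨i - 1, hlt⟩ then J else ∅)) hlt
        rw [show i - 1 + 1 = i by omega] at this
        rw [this, if_pos rfl]
      rw [e1, ex_last] at h2
      have h3 := h2 univ
      rw [mix_univ] at h3
      have e3 : κ' = κ := by
        have h5 := hcol (i + 1) le_rfl
        rw [ex_last] at h5
        exact h3.unique h5
      subst e3
      have h4 := h2 (I \ J)
      have e4 : mix (mix (ex u w W0 i) (ex u w W0 (i + 1)) I) (W1 ⟨min i (i - 1), by omega⟩) J =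
          mix (mix (W0 ⟨i - 1, hlt⟩) (W1 ⟨i - 1, hlt⟩) J) w (I \ J) := by
        have h6 := ex_succ u w W0 hlt
        rw [show i - 1 + 1 = i by omega] at h6
        rw [ex_last, h6]
        have e5 : (⟨min i (i - 1), by omega⟩ : Fin i) = ⟨i - 1, hlt⟩ := by
          rw [Fin.mk.injEq]; exact hmin
        rw [e5]
        funext a
        by_cases ha : a ∈ J <;> by_cases hb : a ∈ I <;> simp [mix, ha, hb]
      rw [e4]
      exact h4
  refine ⟨?_, κ, key⟩
  have := key ∅
  rwa [mix_empty] at this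


private lemma card_tupN : (Fintype.card (Fin r → V) : ℝ) = NN V r := by
  rw [← card_tup (V := V) (r := r), card_univ]

open Classical in
/-- Many partners give many walks. -/
private lemma partner_count (A₁ : Finset (Fin r → V)) {k a e : ℕ} (ha : a < k) (he : e < k)
    {u w m : Fin r → V} (P : (Fin k → Fin r → V) → Prop)
    (hP : ∀ W, P W → Ch c u w W ∧ W ⟨a, ha⟩ ∈ A₁ ∧ Adj c m (W ⟨e, he⟩)) {d : ℕ}
    (hd : d = (a - e) + (e - a)) :
    cnt P * NN V r ^ (d + 1) ≤
      NN V r ^ k * ∑ y ∈ A₁, (AM r c ^ (d + 1)) m y := by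
  have hidx : ∀ j : Fin (d + 1), (if e ≤ a then e + (j : ℕ) else e - (j : ℕ)) < k := by
    intro j
    have := j.2
    split_ifs <;> omega
  let idx : Fin (d + 1) → Fin k := fun j => ⟨if e ≤ a then e + (j : ℕ) else e - (j : ℕ), hidx j⟩
  have hinj : Function.Injective idx := by
    intro i j hij
    simp only [idx, Fin.mk.injEq] at hij
    have h1 := i.2
    have h2 := j.2
    apply Fin.ext
    split_ifs at hij with h
    · omega
    · omega
  have h := cnt_cond (V := Fin r → V) idx hinj P (∑ y ∈ A₁, (AM r c ^ (d + 1)) m y) (by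
    intro S
    rw [← count_end A₁ m d, ← cnt_eq]
    refine cnt_mono fun y hy => ?_
    obtain ⟨h1, h2, h3⟩ := hP _ hy
    have hy' : ∀ j : Fin (d + 1), Function.extend idx y S (idx j) = y j := fun j =>
      hinj.extend_apply _ _ _
    unfold Ch at h1
    rw [chain_iff] at h1
    have hadj : ∀ (i : ℕ) (hi : i + 1 < k),
        Adj c (Function.extend idx y S ⟨i, by omega⟩) (Function.extend idx y S ⟨i + 1, hi⟩) := by
      intro i hi
      have := h1 (i + 1) (by omega)
      rwa [ex_succ _ _ _ (by omega : i < k), ex_succ _ _ _ hi] at this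
    constructor
    · rw [List.isChain_cons]
      constructor
      · intro z hz
        have hz' : z = y 0 := by
          rw [List.ofFn_succ] at hz
          simpa using hz.symm
        rw [hz', ← hy' 0]
        have : idx 0 = ⟨e, he⟩ := by simp [idx]
        rw [this]
        exact h3
      · rw [List.isChain_ofFn]
        intro i hi
        rw [← hy' ⟨i, by omega⟩, ← hy' ⟨i + 1, hi⟩]
        by_cases hea : e ≤ a
        · have e1 : idx ⟨i, by omega⟩ = ⟨e + i, by omega⟩ := by simp [idx, hea]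
          have e2 : idx ⟨i + 1, hi⟩ = ⟨e + i + 1, by omega⟩ := by
            simp only [idx, hea, if_true]; rfl
          rw [e1, e2]
          exact hadj _ _
        · have e1 : idx ⟨i, by omega⟩ = ⟨(e - (i + 1)) + 1, by omega⟩ := by
            simp only [idx, hea, if_false, Fin.mk.injEq]
            omega
          have e2 : idx ⟨i + 1, hi⟩ = ⟨e - (i + 1), by omega⟩ := by
            simp only [idx, hea, if_false]
          rw [e1, e2]
          exact (hadj _ _).symm
    · rw [← hy' (Fin.last d)]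
      have : idx (Fin.last d) = ⟨a, ha⟩ := by
        simp only [idx, Fin.val_last, Fin.mk.injEq]
        split_ifs <;> omega
      rw [this]
      exact h2)
  rwa [card_tupN] at h

private lemma pad_min (r : ℕ) {t : ℝ} (ht : 0 < t) (n : ℕ) :
    ∃ s : ℝ, 0 < s ∧ ∀ e ≤ n, s ≤ (padf r)^[e] t := by
  induction n with
  | zero => exact ⟨t, ht, fun e he => by rw [Nat.le_zero.mp he]; exact le_refl _⟩
  | succ n ih =>
    obtain ⟨s, hs, h⟩ := ih
    refine ⟨min s ((padf r)^[n + 1] t), lt_min hs (padf_iter_pos ht _), fun e he => ?_⟩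
    rcases Nat.lt_or_ge e (n + 1) with h1 | h1
    · exact (min_le_left _ _).trans (h e (by omega))
    · have : e = n + 1 := by omega
      rw [this]
      exact min_le_right _ _

open Classical in
private lemma extend_sum (hV : 0 < Fintype.card V) {lam : ℕ} (hlam : 2 ≤ lam)
    {s₁ ρ cc t : ℝ} (hs : 0 < s₁) (hρ : 0 < ρ) (hcc0 : 0 < cc) (ht : 0 < t)
    (A₁ : Finset (Fin r → V)) (hA : ρ * NN V r ≤ A₁.card)
    (hcc : ∀ x ∈ A₁, ∀ y ∈ A₁, cc * NN V r ^ (lam - 1) ≤ (AM r c ^ lam) x y)
    {d : ℕ} (hd1 : 1 ≤ d) (hd2 : d ≤ lam) {m : Fin r → V}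
    (h : s₁ * NN V r ^ d ≤ ∑ y ∈ A₁, (AM r c ^ d) m y)
    (ht' : ∀ e ≤ lam, t ≤ (padf r)^[e] (s₁ * ρ * cc / 2)) :
    (s₁ * ρ * cc / 2) * t * NN V r ^ (2 * lam + 1) ≤
      ∑ y ∈ A₁, (AM r c ^ (2 * lam + 1)) m y := by
  have hN := NN_pos (r := r) hV
  set N := NN V r with hNdef
  set s₂ := s₁ * ρ * cc with hs₂
  have hs₂0 : 0 < s₂ := by positivity
  -- long walks
  have h1 : s₂ * N ^ (d + lam) ≤ ∑ y' ∈ A₁, (AM r c ^ (d + lam)) m y' := by
    have h2 : ∀ y' ∈ A₁, ∑ y ∈ A₁, (AM r c ^ d) m y * (cc * N ^ (lam - 1)) ≤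
        (AM r c ^ (d + lam)) m y' := by
      intro y' hy'
      rw [pow_add, Matrix.mul_apply]
      calc ∑ y ∈ A₁, (AM r c ^ d) m y * (cc * N ^ (lam - 1))
          ≤ ∑ y ∈ A₁, (AM r c ^ d) m y * (AM r c ^ lam) y y' :=
            sum_le_sum fun y hy => mul_le_mul_of_nonneg_left (hcc y hy y' hy') (AMpow_nonneg _ _ _)
        _ ≤ _ := sum_le_sum_of_subset_of_nonneg (subset_univ _) fun y _ _ =>
            mul_nonneg (AMpow_nonneg _ _ _) (AMpow_nonneg _ _ _)
    calc s₂ * N ^ (d + lam) = (ρ * N) * ((s₁ * N ^ d) * (cc * N ^ (lam - 1))) := by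
          have : N ^ (d + lam) = N * (N ^ d * N ^ (lam - 1)) := by
            rw [← pow_add, ← pow_succ']
            congr 1
            omega
          rw [this, hs₂]
          ring
      _ ≤ A₁.card * ((s₁ * N ^ d) * (cc * N ^ (lam - 1))) :=
          mul_le_mul_of_nonneg_right hA (by positivity)
      _ ≤ A₁.card * ((∑ y ∈ A₁, (AM r c ^ d) m y) * (cc * N ^ (lam - 1))) := by
          apply mul_le_mul_of_nonneg_left _ (Nat.cast_nonneg _)
          exact mul_le_mul_of_nonneg_right h (by positivity)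
      _ = ∑ y' ∈ A₁, ∑ y ∈ A₁, (AM r c ^ d) m y * (cc * N ^ (lam - 1)) := by
          rw [sum_const, nsmul_eq_mul, sum_mul]
      _ ≤ _ := sum_le_sum h2
  -- many good ends
  obtain ⟨D, hD, hDmem⟩ : ∃ D : ℝ, s₂ / 2 * N ≤ D ∧
      D = ((A₁.filter fun y' => MP_952639_co.Rel c (d + lam) (s₂ / 2) m y').card : ℝ) := by
    refine ⟨_, ?_, rfl⟩
    have h2 : ∑ y' ∈ A₁, (AM r c ^ (d + lam)) m y' ≤
        ∑ y' ∈ A₁, ((if MP_952639_co.Rel c (d + lam) (s₂ / 2) m y' then N ^ (d + lam - 1) else 0) +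
          s₂ / 2 * N ^ (d + lam - 1)) := by
      refine sum_le_sum fun y' _ => ?_
      by_cases hr : MP_952639_co.Rel c (d + lam) (s₂ / 2) m y'
      · rw [if_pos hr]
        obtain ⟨q, hq⟩ : ∃ q, d + lam = q + 1 := ⟨d + lam - 1, by omega⟩
        have h3 := AMpow_le (c := c) q m y'
        rw [← hq] at h3
        have h4 : q = d + lam - 1 := by omega
        rw [h4] at h3
        have h5 : 0 ≤ s₂ / 2 * N ^ (d + lam - 1) := by positivity
        linarith
      · rw [if_neg hr, zero_add]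
        unfold MP_952639_co.Rel at hr
        push Not at hr
        exact hr.le
    rw [sum_add_distrib, ← sum_filter, sum_const, sum_const, nsmul_eq_mul, nsmul_eq_mul] at h2
    have h3 : (A₁.card : ℝ) ≤ N := by
      rw [hNdef, ← card_tup]
      exact_mod_cast card_le_card (subset_univ _)
    have h4 : (A₁.card : ℝ) * (s₂ / 2 * N ^ (d + lam - 1)) ≤ N * (s₂ / 2 * N ^ (d + lam - 1)) :=
      mul_le_mul_of_nonneg_right h3 (by positivity)
    have h5 : N ^ (d + lam) = N * N ^ (d + lam - 1) := by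
      rw [← pow_succ']; congr 1; omega
    rw [h5] at h1
    have h6 : (s₂ / 2 * N) * N ^ (d + lam - 1) ≤
        ((A₁.filter fun y' => MP_952639_co.Rel c (d + lam) (s₂ / 2) m y').card : ℝ) * N ^ (d + lam - 1) := by
      nlinarith
    exact le_of_mul_le_mul_right h6 (by positivity)
  -- padding
  have hpad : ∀ y', MP_952639_co.Rel c (d + lam) (s₂ / 2) m y' → t * N ^ (2 * lam) ≤
      (AM r c ^ (2 * lam + 1)) m y' := by
    intro y' hy'
    have h2 := MP_952639_co.Rel.pad_iter hV (by omega) (by positivity) hy' (lam + 1 - d)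
    have h3 : d + lam + (lam + 1 - d) = 2 * lam + 1 := by omega
    rw [h3] at h2
    have h4 := h2.mono (ht' (lam + 1 - d) (by omega))
    unfold MP_952639_co.Rel at h4
    exact h4
  calc s₂ / 2 * t * N ^ (2 * lam + 1) = (s₂ / 2 * N) * (t * N ^ (2 * lam)) := by ring
    _ ≤ D * (t * N ^ (2 * lam)) := mul_le_mul_of_nonneg_right hD (by positivity)
    _ = ∑ y' ∈ A₁.filter (fun y' => MP_952639_co.Rel c (d + lam) (s₂ / 2) m y'), t * N ^ (2 * lam) := by
        rw [hDmem, sum_const, nsmul_eq_mul]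
    _ ≤ ∑ y' ∈ A₁.filter (fun y' => MP_952639_co.Rel c (d + lam) (s₂ / 2) m y'),
          (AM r c ^ (2 * lam + 1)) m y' :=
        sum_le_sum fun y' hy' => hpad y' (mem_filter.mp hy').2
    _ ≤ _ := sum_le_sum_of_subset_of_nonneg (filter_subset _ _) fun y' _ _ => AMpow_nonneg _ _ _

end

open Classical in
private lemma cube_cnt {V ι : Type*} [Fintype V] [Fintype ι] [DecidableEq ι]
    (hV : 0 < Fintype.card V) (G : (ι → V) → Prop) :
    (((univ.filter G).card : ℝ) / (Fintype.card V : ℝ) ^ Fintype.card ι) ^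
        (2 ^ Fintype.card ι) * (Fintype.card V : ℝ) ^ (2 * Fintype.card ι) ≤
      ((univ.filter fun p : (ι → V) × (ι → V) =>
        ∀ I : Finset ι, G (fun i => if i ∈ I then p.2 i else p.1 i)).card : ℝ) := by
  have h := cube_idx hV (univ.filter G)
  have e : (univ.filter fun p : (ι → V) × (ι → V) =>
        ∀ I : Finset ι, (fun i => if i ∈ I then p.2 i else p.1 i) ∈ univ.filter G) =
      (univ.filter fun p : (ι → V) × (ι → V) =>
        ∀ I : Finset ι, G (fun i => if i ∈ I then p.2 i else p.1 i)) := by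
    refine filter_congr fun p _ => forall_congr' fun I => ?_
    rw [mem_filter]
    exact ⟨fun h => h.2, fun h => ⟨mem_univ _, h⟩⟩
  rw [e] at h
  exact h

open Classical in
/-- The cube inequality for sequences of tuples. -/
private lemma cube_seq {V : Type} [Fintype V] [DecidableEq V] {r k : ℕ}
    (hV : 0 < Fintype.card V) (G : (Fin k → Fin r → V) → Prop) :
    (cnt G / (Fintype.card V : ℝ) ^ (k * r)) ^
        (2 ^ (k * r)) * (Fintype.card V : ℝ) ^ (2 * (k * r)) ≤
      ∑ W0 : Fin k → Fin r → V, cnt (fun W1 : Fin k → Fin r → V =>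
        ∀ J : Fin k → Finset (Fin r), G (fun j => mix (W0 j) (W1 j) (J j))) := by
  have h1 := cube_cnt hV (fun U : Fin k × Fin r → V => G (fun i a => U (i, a)))
  have hcardA : ((univ.filter fun U : Fin k × Fin r → V => G (fun i a => U (i, a))).card : ℝ) =
      cnt G := by
    rw [cnt_eq]
    congr 1
    refine card_equiv (Equiv.curry (Fin k) (Fin r) V) fun U => ?_
    simp only [mem_filter, mem_univ, true_and]
    rfl
  have hι : Fintype.card (Fin k × Fin r) = k * r := by simp
  rw [hcardA, hι] at h1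
  have h4 : ∑ W0 : Fin k → Fin r → V, cnt (fun W1 : Fin k → Fin r → V =>
        ∀ J : Fin k → Finset (Fin r), G (fun j => mix (W0 j) (W1 j) (J j))) =
      ((univ.filter fun q : (Fin k → Fin r → V) × (Fin k → Fin r → V) =>
        ∀ J : Fin k → Finset (Fin r), G (fun j => mix (q.1 j) (q.2 j) (J j))).card : ℝ) := by
    rw [card_filter, Nat.cast_sum, Fintype.sum_prod_type]
    refine sum_congr rfl fun W0 _ => ?_
    rw [cnt_eq, card_filter, Nat.cast_sum]
  rw [h4]
  refine h1.trans (Nat.cast_le.mpr ?_)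
  apply card_le_card_of_injOn
    (fun p => (Equiv.curry (Fin k) (Fin r) V p.1, Equiv.curry (Fin k) (Fin r) V p.2))
  · intro p hp
    have hp2 := (mem_filter.mp (mem_coe.mp hp)).2
    refine mem_coe.mpr (mem_filter.mpr ⟨mem_univ _, fun J => ?_⟩)
    have h6 := hp2 (univ.filter fun q : Fin k × Fin r => q.2 ∈ J q.1)
    have h8 : (fun (i : Fin k) (a : Fin r) =>
        if (i, a) ∈ (univ.filter fun q : Fin k × Fin r => q.2 ∈ J q.1) then p.2 (i, a)
          else p.1 (i, a)) = fun j => mix (Equiv.curry (Fin k) (Fin r) V p.1 j)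
            (Equiv.curry (Fin k) (Fin r) V p.2 j) (J j) := by
      funext i a
      simp only [mem_filter, mem_univ, true_and, mix, Equiv.curry_apply, Function.curry]
    rw [h8] at h6
    exact h6
  · intro p _ q _ hpq
    rw [Prod.mk.injEq] at hpq
    exact Prod.ext ((Equiv.curry _ _ _).injective hpq.1)
      ((Equiv.curry _ _ _).injective hpq.2)

open Classical in
theorem rich_walks (r : ℕ) (hr : 1 ≤ r) (lam : ℕ) (hlam : 2 ≤ lam) (cc ρ : ℝ) (hcc : 0 < cc)
    (hρ : 0 < ρ) :
    ∃ s : ℝ, 0 < s ∧ ∀ (V : Type) [Fintype V] [DecidableEq V], 0 < Fintype.card V →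
      ∀ (c : Finset V → Bool) (κ : Bool) (A₁ : Finset (Fin r → V)), (∀ x ∈ A₁, Col c κ x) →
      ρ * (Fintype.card V : ℝ) ^ r ≤ A₁.card →
      (∀ x ∈ A₁, ∀ y ∈ A₁, cc * (Fintype.card V : ℝ) ^ (r * (lam - 1)) ≤ (AM r c ^ lam) x y) →
      A₁ ⊆ Kset s (2 * lam + 1) c κ A₁ ∧
      (∀ x ∈ A₁, ∀ y ∈ A₁, s * (Fintype.card V : ℝ) ^ (r * (2 * lam)) ≤
        (AM r c ^ (2 * lam + 1)) x y) ∧
      ∀ u ∈ A₁, ∀ w ∈ A₁, s * (Fintype.card V : ℝ) ^ (r * (2 * lam - 1)) ≤
        ((univ.filter fun W : Fin (2 * lam - 1) → Fin r → V =>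
          (u :: (List.ofFn W ++ [w])).IsChain
            (fun x y => ∀ I, mix x y I ∈ Kset s (2 * lam + 1) c κ A₁)).card : ℝ) := by
  obtain ⟨k, hk⟩ : ∃ k, k = 2 * lam - 1 := ⟨_, rfl⟩
  obtain ⟨s₁, hs₁⟩ : ∃ s₁ : ℝ, s₁ = (ρ * cc ^ 2) ^ (2 ^ (k * r)) / 2 := ⟨_, rfl⟩
  have hs₁0 : 0 < s₁ := by rw [hs₁]; positivity
  obtain ⟨t, ht, ht'⟩ := pad_min r (t := s₁ * ρ * cc / 2) (by positivity) lam
  obtain ⟨s', hs'⟩ : ∃ s' : ℝ, s' = (padf r)^[lam + 1] cc := ⟨_, rfl⟩
  have hs'0 : 0 < s' := by rw [hs']; exact padf_iter_pos hcc _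
  refine ⟨min (min (s₁ * ρ * cc / 2 * t) s₁) (min s' (ρ * s')),
    lt_min (lt_min (by positivity) hs₁0) (lt_min hs'0 (by positivity)), ?_⟩
  intro V _ _ hV c κ A₁ hcol hA hw
  obtain ⟨s, hs⟩ : ∃ s : ℝ, s = min (min (s₁ * ρ * cc / 2 * t) s₁) (min s' (ρ * s')) := ⟨_, rfl⟩
  rw [← hs]
  have hsa : s ≤ s₁ * ρ * cc / 2 * t := by
    rw [hs]; exact (min_le_left _ _).trans (min_le_left _ _)
  have hsb : s ≤ s₁ := by rw [hs]; exact (min_le_left _ _).trans (min_le_right _ _)
  have hsc : s ≤ s' := by rw [hs]; exact (min_le_right _ _).trans (min_le_left _ _)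
  have hsd : s ≤ ρ * s' := by rw [hs]; exact (min_le_right _ _).trans (min_le_right _ _)
  clear hs
  have hNN : ∀ j : ℕ, (Fintype.card V : ℝ) ^ (r * j) = NN V r ^ j := by
    intro j; unfold NN; rw [pow_mul]
  have hN := NN_pos (r := r) hV
  have hA' : ρ * NN V r ≤ A₁.card := hA
  have hw' : ∀ x ∈ A₁, ∀ y ∈ A₁, cc * NN V r ^ (lam - 1) ≤ (AM r c ^ lam) x y := by
    intro x hx y hy
    have := hw x hx y hy
    rwa [hNN] at this
  -- second claim
  have hB : ∀ x ∈ A₁, ∀ y ∈ A₁, s' * NN V r ^ (2 * lam) ≤ (AM r c ^ (2 * lam + 1)) x y := by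
    intro x hx y hy
    have h1 : MP_952639_co.Rel c lam cc x y := hw' x hx y hy
    have h2 := MP_952639_co.Rel.pad_iter hV hlam hcc h1 (lam + 1)
    have h3 : lam + (lam + 1) = 2 * lam + 1 := by omega
    rw [h3, ← hs'] at h2
    exact h2
  refine ⟨?_, ?_, ?_⟩
  · intro x hx
    unfold Kset
    rw [mem_filter, hNN]
    refine ⟨mem_univ _, hcol x hx, ?_⟩
    calc s * NN V r ^ (2 * lam + 1) ≤ (ρ * s') * NN V r ^ (2 * lam + 1) :=
          mul_le_mul_of_nonneg_right hsd (by positivity)
      _ = (ρ * NN V r) * (s' * NN V r ^ (2 * lam)) := by ring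
      _ ≤ A₁.card * (s' * NN V r ^ (2 * lam)) := mul_le_mul_of_nonneg_right hA' (by positivity)
      _ = ∑ y ∈ A₁, s' * NN V r ^ (2 * lam) := by rw [sum_const, nsmul_eq_mul]
      _ ≤ _ := sum_le_sum fun y hy => hB x hx y hy
  · intro x hx y hy
    rw [hNN]
    exact (mul_le_mul_of_nonneg_right hsc (by positivity)).trans (hB x hx y hy)
  · intro u hu w hw0
    rw [← hk, hNN]
    have hk1 : lam - 1 < k := by omega
    -- the set of walks
    let G : (Fin k → Fin r → V) → Prop := fun W => Ch c u w W ∧ W ⟨lam - 1, hk1⟩ ∈ A₁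
    have hG : ρ * cc ^ 2 * NN V r ^ k ≤ cnt G := by
      have h1 := count_mid (c := c) A₁ w k (lam - 1) hk1 u
      have e1 : lam - 1 + 1 = lam := by omega
      have e2 : k - (lam - 1) = lam := by omega
      rw [e1, e2] at h1
      have h2 : cnt G = ∑ y ∈ A₁, (AM r c ^ lam) u y * (AM r c ^ lam) y w := by
        rw [cnt_eq]; exact h1
      rw [h2]
      calc ρ * cc ^ 2 * NN V r ^ k
          = (ρ * NN V r) * ((cc * NN V r ^ (lam - 1)) * (cc * NN V r ^ (lam - 1))) := by
            have : NN V r ^ k = NN V r * (NN V r ^ (lam - 1) * NN V r ^ (lam - 1)) := by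
              rw [← pow_add, ← pow_succ']; congr 1; omega
            rw [this]; ring
        _ ≤ A₁.card * ((cc * NN V r ^ (lam - 1)) * (cc * NN V r ^ (lam - 1))) :=
            mul_le_mul_of_nonneg_right hA' (by positivity)
        _ = ∑ y ∈ A₁, (cc * NN V r ^ (lam - 1)) * (cc * NN V r ^ (lam - 1)) := by
            rw [sum_const, nsmul_eq_mul]
        _ ≤ _ := sum_le_sum fun y hy =>
            mul_le_mul (hw' u hu y hy) (hw' y hy w hw0) (by positivity) (AMpow_nonneg _ _ _)
    let PP : (Fin k → Fin r → V) → (Fin k → Fin r → V) → Prop := fun W0 W1 =>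
      ∀ J : Fin k → Finset (Fin r), G (fun j => mix (W0 j) (W1 j) (J j))
    -- pairs
    have hpairs : 2 * s₁ * (NN V r ^ k * NN V r ^ k) ≤ ∑ W0, cnt (PP W0) := by
      have h1 := cube_seq hV G
      have e1 : (Fintype.card V : ℝ) ^ (k * r) = NN V r ^ k := by rw [mul_comm, hNN]
      have e2 : (Fintype.card V : ℝ) ^ (2 * (k * r)) = NN V r ^ k * NN V r ^ k := by
        rw [two_mul, pow_add, e1]
      rw [e1, e2] at h1
      have h2 : (ρ * cc ^ 2) ^ (2 ^ (k * r)) * (NN V r ^ k * NN V r ^ k) ≤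
          (cnt G / NN V r ^ k) ^ (2 ^ (k * r)) *
            (NN V r ^ k * NN V r ^ k) := by
        apply mul_le_mul_of_nonneg_right _ (by positivity)
        apply pow_le_pow_left₀ (by positivity)
        rw [le_div_iff₀ (by positivity)]
        exact hG
      have h3 : 2 * s₁ = (ρ * cc ^ 2) ^ (2 ^ (k * r)) := by rw [hs₁]; ring
      rw [h3]
      exact h2.trans h1
    -- rich walks
    have hrich : s₁ * NN V r ^ k ≤
        ((univ.filter fun W0 : Fin k → Fin r → V => s₁ * NN V r ^ k ≤ cnt (PP W0)).card : ℝ) := by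
      have hall : ((univ : Finset (Fin k → Fin r → V)).card : ℝ) = NN V r ^ k := by
        rw [card_univ, Fintype.card_fun, Fintype.card_fin, Nat.cast_pow, card_tupN]
      have h1 : ∑ W0, cnt (PP W0) ≤ ∑ W0 : Fin k → Fin r → V,
          ((if s₁ * NN V r ^ k ≤ cnt (PP W0) then NN V r ^ k else 0) + s₁ * NN V r ^ k) := by
        refine sum_le_sum fun W0 _ => ?_
        by_cases h : s₁ * NN V r ^ k ≤ cnt (PP W0)
        · rw [if_pos h]
          have h2 : cnt (PP W0) ≤ NN V r ^ k := by
            rw [cnt_eq, ← hall]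
            exact Nat.cast_le.mpr (card_le_card (subset_univ _))
          have h3 : 0 ≤ s₁ * NN V r ^ k := by positivity
          linarith
        · rw [if_neg h, zero_add]
          push Not at h
          exact h.le
      rw [sum_add_distrib, ← sum_filter, sum_const, sum_const, nsmul_eq_mul, nsmul_eq_mul,
        hall] at h1
      have h2 := hpairs.trans h1
      have h3 : (s₁ * NN V r ^ k) * NN V r ^ k ≤
          ((univ.filter fun W0 : Fin k → Fin r → V => s₁ * NN V r ^ k ≤ cnt (PP W0)).card : ℝ) *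
            NN V r ^ k := by
        linarith
      exact le_of_mul_le_mul_right h3 (by positivity)
    refine (mul_le_mul_of_nonneg_right hsb (by positivity)).trans (hrich.trans ?_)
    have hsub : (univ.filter fun W0 : Fin k → Fin r → V => s₁ * NN V r ^ k ≤ cnt (PP W0)) ⊆
        (univ.filter fun W : Fin k → Fin r → V => (u :: (List.ofFn W ++ [w])).IsChain
            (fun x y => ∀ I, mix x y I ∈ Kset s (2 * lam + 1) c κ A₁)) := by
      intro W0 hW0
      rw [mem_filter] at hW0 ⊢
      refine ⟨mem_univ _, ?_⟩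
      have hW := hW0.2
      have hk0 : 0 < k := by omega
      have hPP : ∀ W1, PP W0 W1 → ∀ J : Fin k → Finset (Fin r),
          Ch c u w (fun j => mix (W0 j) (W1 j) (J j)) := fun W1 h J => (h J).1
      rw [chain_iff]
      intro i hi I
      unfold Kset
      rw [mem_filter, hNN]
      refine ⟨mem_univ _, ?_, ?_⟩
      · have hpos : 0 < cnt (PP W0) := lt_of_lt_of_le (by positivity) hW
        obtain ⟨W1, hW1⟩ : ∃ W1, PP W0 W1 := by
          by_contra hcon
          push Not at hcon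
          rw [cnt_eq, filter_false_of_mem (fun W1 _ => hcon W1)] at hpos
          simp at hpos
        exact (adj_mix hk0 (hPP W1 hW1) (hcol u hu) hi I).1
      · have he : min i (k - 1) < k := by omega
        obtain ⟨d, hd⟩ : ∃ d, d = (lam - 1 - min i (k - 1)) + (min i (k - 1) - (lam - 1)) :=
          ⟨_, rfl⟩
        have h1 := partner_count (c := c) A₁ (u := u) (w := w)
          (m := mix (ex u w W0 i) (ex u w W0 (i + 1)) I) hk1 he (PP W0) (by
            intro W1 hW1
            have h2 := hW1 fun _ => univ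
            simp only [mix_univ] at h2
            exact ⟨h2.1, h2.2, (adj_mix hk0 (hPP W1 hW1) (hcol u hu) hi I).2⟩) hd
        have h2 : s₁ * NN V r ^ (d + 1) ≤
            ∑ y ∈ A₁, (AM r c ^ (d + 1)) (mix (ex u w W0 i) (ex u w W0 (i + 1)) I) y := by
          have h3 : (s₁ * NN V r ^ (d + 1)) * NN V r ^ k ≤
              (∑ y ∈ A₁, (AM r c ^ (d + 1)) (mix (ex u w W0 i) (ex u w W0 (i + 1)) I) y) *
                NN V r ^ k := by
            calc (s₁ * NN V r ^ (d + 1)) * NN V r ^ k
                = (s₁ * NN V r ^ k) * NN V r ^ (d + 1) := by ring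
              _ ≤ cnt (PP W0) * NN V r ^ (d + 1) := mul_le_mul_of_nonneg_right hW (by positivity)
              _ ≤ _ := h1
              _ = _ := by ring
          exact le_of_mul_le_mul_right h3 (by positivity)
        have h3 := extend_sum hV hlam hs₁0 hρ hcc ht A₁ hA' hw' (by omega) (by omega) h2 ht'
        exact (mul_le_mul_of_nonneg_right hsa (by positivity)).trans h3
    exact Nat.cast_le.mpr (card_le_card hsub)

end Pool.Agent.Lib.TwoPaths
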