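import Pool.Agent.Lib.TwoPaths.NDefs

/-!
# N6: the lattice of a sample

`K₁ b ⊆ K b` are sets of injective index tuples `Fin r → Fin q` (`b : Bool`), with
(link) for `ω, ω' ∈ K₁ b` there is a list `L` of index tuples such that all mixtures of consecutive
members of `ω :: (L ++ [ω'])` are in `K b`;
(adj) some `ω ∈ K₁ true` and `k, i, τ` with `k ≠ ω j` for all `j` and `(update ω i k) ∘ τ ∈ K₁ false`;
(not split) for every `P ⊆ Fin q`, `P ≠ ∅, Fin q`, and every `a` some `ω ∈ K₁ b` has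
`|P ∩ im ω| ≠ a`.
Claim: `GoodIdx K`.

PROOF.  Let `Λ` be the subgroup generated by the vectors `1_ω = ∑ i, single (ω i) 1`, `ω ∈ K b`, and
`x ∼ y` if `single x 1 - single y 1 ∈ Λ`: an equivalence relation.
(1) If `ω, ω' ∈ K₁ b` then `ω j ∼ ω' j` for every `j : Fin r`.  It is enough to show this for
consecutive members `x, y` of the list in (link): fix `j`; the mixtures `mix x y ∅ = x` and
`mix x y {j} = update x j (y j)` are in `K b`, and their vectors differ by
`single (x j) 1 - single (y j) 1`.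
(2) By (adj), with `ω' = (update ω i k) ∘ τ ∈ K₁ false`: `1_{ω} - 1_{ω'} = single (ω i) 1 - single k 1`,
so `ω i ∼ k`.
Suppose that not all indices are equivalent and let `P` be an equivalence class, `P ≠ ∅, Fin q`.  For
injective `ω`, `|P ∩ im ω| = #{j : ω j ∈ P}`.  By (1) this number is the same for all `ω ∈ K₁ true`, say
`a`, and the same for all `ω ∈ K₁ false`, say `a'`; by (2) `a = a'` (`k ∈ P ⇔ ω i ∈ P`, and `τ` only
permutes).  This contradicts (not split).  So all differences are in `Λ`.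
-/

namespace Pool.Agent.Lib.TwoPaths

open Finset
open Pool.Agent.Lib.MP_952639_co

private lemma n6_vec_update {q r : ℕ} (x : Fin r → Fin q) (i : Fin r) (k : Fin q) :
    (∑ l, Pi.single (x l) (1 : ℤ) : Fin q → ℤ) - ∑ l, Pi.single (Function.update x i k l) (1 : ℤ) =
      Pi.single (x i) 1 - Pi.single k 1 := by
  rw [← Finset.sum_sub_distrib, Finset.sum_eq_single i]
  · simp
  · intro b _ hb
    simp [Function.update_of_ne hb]
  · intro h
    exact absurd (Finset.mem_univ i) h

private lemma n6_mix_single {q r : ℕ} (x y : Fin r → Fin q) (j : Fin r) :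
    mix x y {j} = Function.update x j (y j) := by
  funext i
  by_cases h : i = j
  · subst h
    simp [mix]
  · simp [mix, h, Function.update_of_ne h]

private lemma n6_mix_empty {q r : ℕ} (x y : Fin r → Fin q) :
    mix x y ∅ = x := by
  funext i
  simp [mix]

private lemma n6_chain {q r : ℕ} (K : Finset (Fin r → Fin q)) (Λ : AddSubgroup (Fin q → ℤ))
    (hΛ : ∀ ω ∈ K, (∑ i, Pi.single (ω i) 1 : Fin q → ℤ) ∈ Λ) (j : Fin r)
    (L : List (Fin r → Fin q)) : ∀ (ω ω' : Fin r → Fin q),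
      (ω :: (L ++ [ω'])).IsChain (fun x y => ∀ I, mix x y I ∈ K) →
      (Pi.single (ω j) 1 - Pi.single (ω' j) 1 : Fin q → ℤ) ∈ Λ := by
  have step : ∀ x y : Fin r → Fin q, (∀ I, mix x y I ∈ K) →
      (Pi.single (x j) 1 - Pi.single (y j) 1 : Fin q → ℤ) ∈ Λ := by
    intro x y h
    have h0 := hΛ _ (h ∅)
    have h1 := hΛ _ (h {j})
    rw [n6_mix_empty] at h0
    rw [n6_mix_single] at h1
    rw [← n6_vec_update x j (y j)]
    exact Λ.sub_mem h0 h1
  induction L with
  | nil =>
    intro ω ω' h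
    simp only [List.nil_append, List.isChain_cons_cons] at h
    exact step _ _ h.1
  | cons z L ih =>
    intro ω ω' h
    rw [List.cons_append, List.isChain_cons_cons] at h
    have h1 := step _ _ h.1
    have h2 := ih z ω' h.2
    have h3 := Λ.add_mem h1 h2
    rwa [sub_add_sub_cancel] at h3

private lemma n6_card {q r : ℕ} (P : Finset (Fin q)) (ω : Fin r → Fin q)
    (h : Function.Injective ω) :
    (P ∩ univ.image ω).card = (univ.filter fun j => ω j ∈ P).card := by
  rw [← Finset.card_image_of_injective (univ.filter fun j => ω j ∈ P) h]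
  congr 1
  ext z
  simp only [mem_inter, mem_image, mem_univ, true_and, mem_filter]
  constructor
  · rintro ⟨hz, j, rfl⟩
    exact ⟨j, hz, rfl⟩
  · rintro ⟨j, hj, rfl⟩
    exact ⟨hj, j, rfl⟩

theorem lattice_of_sample {q r : ℕ} (K₁ K : Bool → Finset (Fin r → Fin q))
    (hinj : ∀ b, ∀ ω ∈ K b, Function.Injective ω) (hK : ∀ b, K₁ b ⊆ K b)
    (hlink : ∀ b, ∀ ω ∈ K₁ b, ∀ ω' ∈ K₁ b, ∃ L : List (Fin r → Fin q),
      (ω :: (L ++ [ω'])).IsChain (fun x y => ∀ I, mix x y I ∈ K b))
    (hadj : ∃ ω ∈ K₁ true, ∃ (k : Fin q) (i : Fin r) (τ : Equiv.Perm (Fin r)),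
      (∀ j, ω j ≠ k) ∧ (Function.update ω i k) ∘ τ ∈ K₁ false)
    (hsplit : ∀ P : Finset (Fin q), P.Nonempty → P ≠ univ → ∀ a : ℕ,
      ∃ b, ∃ ω ∈ K₁ b, (P ∩ univ.image ω).card ≠ a) :
    GoodIdx K := by
  classical
  obtain ⟨ω₀, hω₀, k, i, τ, hk, hω₁⟩ := hadj
  refine ⟨⟨true, ω₀, hK _ hω₀⟩, ?_⟩
  set Λ : AddSubgroup (Fin q → ℤ) :=
    AddSubgroup.closure {v : Fin q → ℤ | ∃ b, ∃ ω ∈ K b, v = ∑ i, Pi.single (ω i) 1} with hΛdef
  have hΛ : ∀ b, ∀ ω ∈ K b, (∑ i, Pi.single (ω i) 1 : Fin q → ℤ) ∈ Λ := by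
    intro b ω hω
    exact AddSubgroup.subset_closure ⟨b, ω, hω, rfl⟩
  have h1 : ∀ b, ∀ ω ∈ K₁ b, ∀ ω' ∈ K₁ b, ∀ j : Fin r,
      (Pi.single (ω j) 1 - Pi.single (ω' j) 1 : Fin q → ℤ) ∈ Λ := by
    intro b ω hω ω' hω' j
    obtain ⟨L, hL⟩ := hlink b ω hω ω' hω'
    exact n6_chain (K b) Λ (hΛ b) j L ω ω' hL
  have h2 : (Pi.single (ω₀ i) 1 - Pi.single k 1 : Fin q → ℤ) ∈ Λ := by
    have ha := hΛ _ _ (hK _ hω₀)
    have hb := hΛ _ _ (hK _ hω₁)
    have hc : (∑ l, Pi.single (((Function.update ω₀ i k) ∘ τ) l) 1 : Fin q → ℤ) =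
        ∑ l, Pi.single (Function.update ω₀ i k l) 1 := by
      exact Equiv.sum_comp τ (fun l => (Pi.single (Function.update ω₀ i k l) 1 : Fin q → ℤ))
    rw [hc] at hb
    rw [← n6_vec_update ω₀ i k]
    exact Λ.sub_mem ha hb
  by_contra hcon
  push Not at hcon
  obtain ⟨x, y, hxy⟩ := hcon
  let P : Finset (Fin q) := univ.filter fun z => (Pi.single x 1 - Pi.single z 1 : Fin q → ℤ) ∈ Λ
  have hPmem : ∀ z, z ∈ P ↔ (Pi.single x 1 - Pi.single z 1 : Fin q → ℤ) ∈ Λ := by
    intro z
    simp [P]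
  have hPrel : ∀ z w, (Pi.single z 1 - Pi.single w 1 : Fin q → ℤ) ∈ Λ → (z ∈ P ↔ w ∈ P) := by
    intro z w hzw
    rw [hPmem, hPmem]
    constructor
    · intro h
      have := Λ.add_mem h hzw
      rwa [sub_add_sub_cancel] at this
    · intro h
      have := Λ.sub_mem h hzw
      have e : (Pi.single x 1 - Pi.single w 1 - (Pi.single z 1 - Pi.single w 1) : Fin q → ℤ) =
          Pi.single x 1 - Pi.single z 1 := by abel
      rwa [e] at this
  have hPne : P.Nonempty := ⟨x, by rw [hPmem]; simp⟩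
  have hPuniv : P ≠ univ := by
    intro h
    have : y ∈ P := by rw [h]; exact mem_univ y
    exact hxy ((hPmem y).1 this)
  obtain ⟨b, ω, hω, hcard⟩ := hsplit P hPne hPuniv (univ.filter fun j => ω₀ j ∈ P).card
  apply hcard
  rw [n6_card P ω (hinj b ω (hK b hω))]
  cases b with
  | true =>
    congr 1
    ext j
    simp only [mem_filter, mem_univ, true_and]
    exact hPrel _ _ (h1 true ω hω ω₀ hω₀ j)
  | false =>
    have e1 : (univ.filter fun j => ω j ∈ P) =
        univ.filter fun j => (((Function.update ω₀ i k) ∘ τ) j) ∈ P := by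
      ext j
      simp only [mem_filter, mem_univ, true_and]
      exact hPrel _ _ (h1 false ω hω _ hω₁ j)
    have e2 : (univ.filter fun j => ω₀ j ∈ P) =
        univ.filter fun j => (Function.update ω₀ i k j) ∈ P := by
      ext j
      simp only [mem_filter, mem_univ, true_and]
      by_cases hj : j = i
      · subst hj
        rw [Function.update_self]
        exact hPrel _ _ h2
      · rw [Function.update_of_ne hj]
    rw [e1, e2]
    have e3 : (univ.filter fun j => (((Function.update ω₀ i k) ∘ τ) j) ∈ P) =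
        (univ.filter fun j => (Function.update ω₀ i k j) ∈ P).map τ.symm.toEmbedding := by
      ext j
      simp only [mem_filter, mem_univ, true_and, mem_map, Function.comp_apply,
        Equiv.coe_toEmbedding]
      constructor
      · intro h
        exact ⟨τ j, h, by simp⟩
      · rintro ⟨l, hl, rfl⟩
        simpa using hl
    rw [e3, card_map]

end Pool.Agent.Lib.TwoPaths
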