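import Pool.Agent.Lib.TwoPaths.N4
import Pool.Agent.Lib.TwoPaths.N6

/-!
# N7: most samples generate the full lattice

PROOF.  `n = |V| > 0`, `k ≥ 1`.  All three probabilities below tend to `0` as `q → ∞`; choose `q ≥ 2r` such
that each is at most `ζ/3`.
(a) `not_split` with `ζ/3`.
(b) some `b` and `ω, ω' ∈ patt K₁ Q b` are not linked: `no_hit_all` with `d = 2r`
(`a = Fin.append ω ω'` up to a cast), `m = r k`, `p = s` (`s ≤ 1` WLOG: otherwise replace `s` by `min s 1`),
`Φ (u, w) = ⋃_b {W : Fin (r k) → V, seen as k tuples | u, w ∈ K₁ b, the sequence u, W, w has all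
mixtures of consecutive members in K b}`; by `RichWalks` it has at least `s n^(r k)` elements if
`u, w ∈ K₁ b`.  For a given `b` use `Φ_b` separately (two events).  Count
`≤ 2 q^(2r) (1-s)^((q-2r)/(r k)) n^q`.  Outside this event, for `ω, ω' ∈ patt K₁ Q b` there is an
injective `Ω : Fin (r k) → Fin q` with `Q ∘ Ω ∈ Φ_b`; let `L` be the list of its `k` blocks; since
`mix (Q∘x) (Q∘y) I = Q ∘ mix x y I`, all mixtures of consecutive members of `ω :: (L ++ [ω'])` are in
`patt K Q b`: (link) of `lattice_of_sample`.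
(c) no adjacency in the sample: `no_hit_all` with `d = 0`, `m = r+1`, `p = ρ` (`ρ ≤ 1` as
`ρ n^(r+1) ≤ n^(r+1)`), `Φ = {(x, v) : x ∈ A true, (update x i v) ∘ τ ∈ A false}` for the `τ, i` of
`HasAdj` (`x = y ∘ castSucc`, `v = y (last r)`).  Count `≤ (1-ρ)^(q/(r+1)) n^q`.  Outside, there is an
injective `ω⁺ : Fin (r+1) → Fin q` with `Q∘ω⁺ ∈ Φ`; `ω = ω⁺ ∘ castSucc`, `k = ω⁺ (last r)`: (adj), because
`A b ⊆ K₁ b`.
Outside the three events `lattice_of_sample` for `patt K₁ Q`, `patt K Q` gives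
`GoodIdx (patt K Q)` (index tuples in `patt K Q b` are injective because `Q ∘ ω` is).
-/

namespace Pool.Agent.Lib.TwoPaths

open Finset
open Pool.Agent.Lib.MP_952639_co

open Classical in
/-- the sequences joining the two halves of `z` -/
private noncomputable def PhiW {V : Type*} [Fintype V] [DecidableEq V] {r : ℕ}
    (K : Bool → Finset (Fin r → V)) (b : Bool) (k : ℕ) (z : Fin (r + r) → V) :
    Finset (Fin (r * k) → V) :=
  univ.filter fun y => ((z ∘ Fin.castAdd r) ::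
    (List.ofFn (fun (j : Fin k) (i : Fin r) => y (finProdFinEquiv (i, j))) ++
      [z ∘ Fin.natAdd r])).IsChain (fun x y => ∀ I, mix x y I ∈ K b)

private def blk (V : Type*) (r k : ℕ) : (Fin (r * k) → V) ≃ (Fin k → Fin r → V) where
  toFun y := fun j i => y (finProdFinEquiv (i, j))
  invFun W := fun t => W (finProdFinEquiv.symm t).2 (finProdFinEquiv.symm t).1
  left_inv y := by
    funext t
    change y (finProdFinEquiv (finProdFinEquiv.symm t)) = y t
    rw [Equiv.apply_symm_apply]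
  right_inv W := by
    funext j i
    change W (finProdFinEquiv.symm (finProdFinEquiv (i, j))).2
      (finProdFinEquiv.symm (finProdFinEquiv (i, j))).1 = W j i
    rw [Equiv.symm_apply_apply]

private theorem PhiW_card {V : Type*} [Fintype V] [DecidableEq V] {r : ℕ} {s : ℝ} {k : ℕ}
    {K₁ K : Bool → Finset (Fin r → V)} (h : RichWalks s k K₁ K) (b : Bool)
    (z : Fin (r + r) → V) (h1 : z ∘ Fin.castAdd r ∈ K₁ b) (h2 : z ∘ Fin.natAdd r ∈ K₁ b) :
    s * (Fintype.card V : ℝ) ^ (r * k) ≤ ((PhiW K b k z).card : ℝ) := by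
  classical
  refine (h b _ h1 _ h2).trans (le_of_eq ?_)
  norm_cast
  symm
  apply Finset.card_equiv (blk V r k)
  intro y
  unfold PhiW
  rw [mem_filter, mem_filter]
  simp only [mem_univ, true_and, blk, Equiv.coe_fn_mk]

open Classical in
private noncomputable def PhiA {V : Type*} [Fintype V] [DecidableEq V] {r : ℕ}
    (A : Bool → Finset (Fin r → V)) (τ : Equiv.Perm (Fin r)) (i : Fin r) (_ : Fin 0 → V) :
    Finset (Fin (r + 1) → V) :=
  univ.filter fun y => y ∘ Fin.castSucc ∈ A true ∧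
    (Function.update (y ∘ Fin.castSucc) i (y (Fin.last r))) ∘ τ ∈ A false

private def snc (V : Type*) (r : ℕ) : (Fin (r + 1) → V) ≃ (Fin r → V) × V where
  toFun y := (y ∘ Fin.castSucc, y (Fin.last r))
  invFun p := Fin.snoc (α := fun _ => V) p.1 p.2
  left_inv y := by
    funext t
    refine Fin.lastCases ?_ (fun j => ?_) t
    · simp
    · simp
  right_inv p := by
    ext
    · simp
    · simp

private theorem PhiA_card {V : Type*} [Fintype V] [DecidableEq V] {r : ℕ}
    (A : Bool → Finset (Fin r → V)) (τ : Equiv.Perm (Fin r)) (i : Fin r) (z : Fin 0 → V) (B : ℝ)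
    (h : B ≤ ((univ.filter fun p : (Fin r → V) × V => p.1 ∈ A true ∧
      (Function.update p.1 i p.2) ∘ τ ∈ A false).card : ℝ)) :
    B ≤ ((PhiA A τ i z).card : ℝ) := by
  classical
  refine h.trans (le_of_eq ?_)
  norm_cast
  symm
  apply Finset.card_equiv (snc V r)
  intro y
  unfold PhiA
  rw [mem_filter, mem_filter]
  simp only [mem_univ, true_and, snc, Equiv.coe_fn_mk]

private theorem choose_t (x y ζ C : ℝ) (hx0 : 0 ≤ x) (hx1 : x < 1) (hy0 : 0 ≤ y) (hy1 : y < 1)
    (hζ : 0 < ζ) (D q₀ : ℕ) :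
    ∃ t : ℕ, 1 ≤ t ∧ q₀ ≤ t ∧ C * ((t : ℝ) ^ D * x ^ t) ≤ ζ ∧ y ^ t ≤ ζ := by
  have h1 : Filter.Tendsto (fun t : ℕ => C * ((t : ℝ) ^ D * x ^ t)) Filter.atTop (nhds 0) := by
    have h := tendsto_pow_const_mul_const_pow_of_abs_lt_one D
      (r := x) (by rw [abs_of_nonneg hx0]; exact hx1)
    have h' := h.const_mul C
    rwa [mul_zero] at h'
  have h2 : Filter.Tendsto (fun t : ℕ => y ^ t) Filter.atTop (nhds 0) :=
    tendsto_pow_atTop_nhds_zero_of_lt_one hy0 hy1
  have e1 := h1.eventually (ge_mem_nhds hζ)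
  have e2 := h2.eventually (ge_mem_nhds hζ)
  obtain ⟨t, ⟨ht1, ht2⟩, ht3, ht4⟩ := ((e1.and e2).and
    ((Filter.eventually_ge_atTop 1).and (Filter.eventually_ge_atTop q₀))).exists
  exact ⟨t, ht3, ht4, ht1, ht2⟩

private theorem mix_comp {V W : Type*} {r : ℕ} (Q : W → V) (x y : Fin r → W) (I : Finset (Fin r)) :
    mix (Q ∘ x) (Q ∘ y) I = Q ∘ mix x y I := by
  funext i
  unfold mix
  simp only [Function.comp_apply]
  split_ifs <;> rfl

theorem good_sample (r : ℕ) (hr : 2 ≤ r) (α ε₁ β ρ s ζ : ℝ) (hα : 0 < α) (hα1 : α ≤ 1)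
    (hε₁ : 0 < ε₁) (hβ : 0 < β) (hβ1 : β ≤ 1) (hρ : 0 < ρ) (hs : 0 < s) (hζ : 0 < ζ)
    (k : ℕ) (hk : 1 ≤ k) :
    ∃ q : ℕ, r ≤ q ∧ ∀ (V : Type) [Fintype V] [DecidableEq V], 0 < Fintype.card V →
      ∀ (A K₁ K : Bool → Finset (Fin r → V)), (∀ b, A b ⊆ K₁ b) → (∀ b, K₁ b ⊆ K b) →
      (∀ b, ∀ x ∈ K b, Function.Injective x) →
      Interior (α / (2 * r ^ 2)) ε₁ β A → Deg α K₁ → HasAdj ρ A → RichWalks s k K₁ K →
      cnt (fun Q : Fin q → V => ¬ GoodIdx (patt K Q)) ≤ ζ * (Fintype.card V : ℝ) ^ q := by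
  obtain ⟨q₀, hq₀⟩ := not_split r hr α ε₁ β (ζ / 4) hα hα1 hε₁ hβ hβ1 (by positivity)
  set s' : ℝ := min s 1 with hs'
  set ρ' : ℝ := min ρ 1 with hρ'
  have hs'0 : 0 < s' := lt_min hs one_pos
  have hs'1 : s' ≤ 1 := min_le_right _ _
  have hρ'0 : 0 < ρ' := lt_min hρ one_pos
  have hρ'1 : ρ' ≤ 1 := min_le_right _ _
  obtain ⟨t, ht1, ht0, hta, htb⟩ := choose_t (1 - s') (1 - ρ') (ζ / 4)
    (((r + r + r * k * (r + 1) : ℕ) : ℝ) ^ (r + r)) (by linarith) (by linarith) (by linarith)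
    (by linarith) (by positivity) (r + r) q₀
  have hrk : 0 < r * k := Nat.mul_pos (by omega) (by omega)
  refine ⟨(r + r) + r * k * ((r + 1) * t), by omega, ?_⟩
  set q : ℕ := (r + r) + r * k * ((r + 1) * t) with hq
  intro V _ _ hV A K₁ K hA hK hinj hint hdeg hadj hrich
  obtain ⟨τ, i₀, hadj⟩ := hadj
  have hn : (0 : ℝ) < Fintype.card V := by exact_mod_cast hV
  have hnq : (0 : ℝ) < (Fintype.card V : ℝ) ^ q := by positivity
  have htq : t ≤ q := by
    have h1 : t ≤ (r + 1) * t := Nat.le_mul_of_pos_left t (by omega)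
    have h2 : (r + 1) * t ≤ r * k * ((r + 1) * t) := Nat.le_mul_of_pos_left _ hrk
    omega
  -- the four events
  have c1 := hq₀ q (ht0.trans htq) V hV A K₁ hA (fun b x hx => hinj b x (hK b hx)) hint hdeg
  have c2 : ∀ b, cnt (fun S : Fin q → V => ∃ a : Fin (r + r) → Fin q,
      s' * (Fintype.card V : ℝ) ^ (r * k) ≤ (PhiW K b k (S ∘ a)).card ∧
      ∀ ω : Fin (r * k) → Fin q, Function.Injective ω → (∀ i j, ω i ≠ a j) →
        S ∘ ω ∉ PhiW K b k (S ∘ a)) ≤ ζ / 4 * (Fintype.card V : ℝ) ^ q := by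
    intro b
    refine (no_hit_all hV (by omega) (by omega) s' hs'0.le hs'1 (PhiW K b k)).trans ?_
    rw [← mul_assoc]
    apply mul_le_mul_of_nonneg_right _ hnq.le
    have e1 : (q - (r + r)) / (r * k) = (r + 1) * t := by
      rw [hq, Nat.add_sub_cancel_left, Nat.mul_div_cancel_left _ hrk]
    rw [e1]
    have e2 : (q : ℝ) ≤ ((r + r + r * k * (r + 1) : ℕ) : ℝ) * t := by
      have : q ≤ (r + r + r * k * (r + 1)) * t := by
        rw [hq]
        have h1 : r + r ≤ (r + r) * t := Nat.le_mul_of_pos_right _ (by omega)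
        have h2 : r * k * ((r + 1) * t) = r * k * (r + 1) * t := by ring
        rw [h2, add_mul (r + r)]
        exact Nat.add_le_add_right h1 _
      exact_mod_cast this
    have e3 : (1 - s') ^ ((r + 1) * t) ≤ (1 - s') ^ t :=
      pow_le_pow_of_le_one (by linarith) (by linarith) (Nat.le_mul_of_pos_left t (by omega))
    calc (q : ℝ) ^ (r + r) * (1 - s') ^ ((r + 1) * t)
        ≤ (((r + r + r * k * (r + 1) : ℕ) : ℝ) * t) ^ (r + r) * (1 - s') ^ t := by
          apply mul_le_mul (pow_le_pow_left₀ (by positivity) e2 _) e3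
            (pow_nonneg (by linarith) _) (by positivity)
      _ = ((r + r + r * k * (r + 1) : ℕ) : ℝ) ^ (r + r) * ((t : ℝ) ^ (r + r) * (1 - s') ^ t) := by
          rw [mul_pow, mul_assoc]
      _ ≤ ζ / 4 := hta
  have c3 : cnt (fun S : Fin q → V => ∃ a : Fin 0 → Fin q,
      ρ' * (Fintype.card V : ℝ) ^ (r + 1) ≤ (PhiA A τ i₀ (S ∘ a)).card ∧
      ∀ ω : Fin (r + 1) → Fin q, Function.Injective ω → (∀ i j, ω i ≠ a j) →
        S ∘ ω ∉ PhiA A τ i₀ (S ∘ a)) ≤ ζ / 4 * (Fintype.card V : ℝ) ^ q := by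
    refine (no_hit_all hV (by omega) (by omega) ρ' hρ'0.le hρ'1 (PhiA A τ i₀)).trans ?_
    rw [← mul_assoc]
    apply mul_le_mul_of_nonneg_right _ hnq.le
    rw [pow_zero, one_mul]
    refine le_trans (pow_le_pow_of_le_one (by linarith) (by linarith) ?_) htb
    rw [Nat.le_div_iff_mul_le (by omega)]
    have h2 : (r + 1) * t ≤ r * k * ((r + 1) * t) := Nat.le_mul_of_pos_left _ hrk
    rw [hq, Nat.sub_zero, mul_comm t (r + 1)]
    exact h2.trans (Nat.le_add_left _ _)
  refine le_trans (cnt_mono (Q := fun Q : Fin q → V =>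
    (∃ P : Finset (Fin q), P.Nonempty ∧ P ≠ univ ∧ ∃ a : ℕ,
        ∀ b, ∀ ω ∈ patt K₁ Q b, (P ∩ univ.image ω).card = a) ∨
    ((∃ a : Fin (r + r) → Fin q,
      s' * (Fintype.card V : ℝ) ^ (r * k) ≤ (PhiW K true k (Q ∘ a)).card ∧
      ∀ ω : Fin (r * k) → Fin q, Function.Injective ω → (∀ i j, ω i ≠ a j) →
        Q ∘ ω ∉ PhiW K true k (Q ∘ a)) ∨
    ((∃ a : Fin (r + r) → Fin q,
      s' * (Fintype.card V : ℝ) ^ (r * k) ≤ (PhiW K false k (Q ∘ a)).card ∧
      ∀ ω : Fin (r * k) → Fin q, Function.Injective ω → (∀ i j, ω i ≠ a j) →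
        Q ∘ ω ∉ PhiW K false k (Q ∘ a)) ∨
    (∃ a : Fin 0 → Fin q,
      ρ' * (Fintype.card V : ℝ) ^ (r + 1) ≤ (PhiA A τ i₀ (Q ∘ a)).card ∧
      ∀ ω : Fin (r + 1) → Fin q, Function.Injective ω → (∀ i j, ω i ≠ a j) →
        Q ∘ ω ∉ PhiA A τ i₀ (Q ∘ a))))) ?_) ?_
  · intro Q hQ
    by_contra hcon
    rw [not_or, not_or, not_or] at hcon
    obtain ⟨n1, n2, n3, n4⟩ := hcon
    apply hQ
    have nb : ∀ b, ¬ ∃ a : Fin (r + r) → Fin q,
      s' * (Fintype.card V : ℝ) ^ (r * k) ≤ (PhiW K b k (Q ∘ a)).card ∧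
      ∀ ω : Fin (r * k) → Fin q, Function.Injective ω → (∀ i j, ω i ≠ a j) →
        Q ∘ ω ∉ PhiW K b k (Q ∘ a) := by
      intro b
      cases b
      · exact n3
      · exact n2
    have hmem : ∀ (L : Bool → Finset (Fin r → V)) (b : Bool) (ω : Fin r → Fin q),
        ω ∈ patt L Q b ↔ Q ∘ ω ∈ L b := by
      intro L b ω
      unfold patt
      rw [mem_filter]
      simp only [mem_univ, true_and]
    apply lattice_of_sample (patt K₁ Q) (patt K Q)
    · intro b ω hω
      exact Function.Injective.of_comp (hinj b _ ((hmem K b ω).1 hω))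
    · intro b ω hω
      exact (hmem K b ω).2 (hK b ((hmem K₁ b ω).1 hω))
    · intro b ω hω ω' hω'
      have hl : (Q ∘ Fin.append ω ω') ∘ Fin.castAdd r = Q ∘ ω := by
        funext j
        simp only [Function.comp_apply, Fin.append_left]
      have hr' : (Q ∘ Fin.append ω ω') ∘ Fin.natAdd r = Q ∘ ω' := by
        funext j
        simp only [Function.comp_apply, Fin.append_right]
      have hcard := PhiW_card hrich b (Q ∘ Fin.append ω ω')
        (by rw [hl]; exact (hmem K₁ b ω).1 hω) (by rw [hr']; exact (hmem K₁ b ω').1 hω')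
      have hex : ∃ Ω : Fin (r * k) → Fin q, Q ∘ Ω ∈ PhiW K b k (Q ∘ Fin.append ω ω') := by
        by_contra hno
        push Not at hno
        exact nb b ⟨Fin.append ω ω', le_trans (mul_le_mul_of_nonneg_right (min_le_left _ _)
          (by positivity)) hcard, fun Ω _ _ => hno Ω⟩
      obtain ⟨Ω, hΩ⟩ := hex
      refine ⟨List.ofFn (fun (j : Fin k) (i : Fin r) => Ω (finProdFinEquiv (i, j))), ?_⟩
      unfold PhiW at hΩ
      rw [mem_filter, hl, hr'] at hΩ
      have hch := hΩ.2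
      have hlist : (Q ∘ ω) :: (List.ofFn (fun (j : Fin k) (i : Fin r) =>
          (Q ∘ Ω) (finProdFinEquiv (i, j))) ++ [Q ∘ ω']) =
          (ω :: (List.ofFn (fun (j : Fin k) (i : Fin r) => Ω (finProdFinEquiv (i, j))) ++
            [ω'])).map (fun x => Q ∘ x) := by
        rw [List.map_cons, List.map_append, List.map_ofFn]
        rfl
      rw [hlist, List.isChain_map] at hch
      refine hch.imp ?_
      intro x y hxy I
      rw [hmem, ← mix_comp]
      exact hxy I
    · have hcard := PhiA_card A τ i₀ (Q ∘ (Fin.elim0 : Fin 0 → Fin q)) _ hadj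
      have hex : ∃ Ω : Fin (r + 1) → Fin q, Function.Injective Ω ∧
          Q ∘ Ω ∈ PhiA A τ i₀ (Q ∘ (Fin.elim0 : Fin 0 → Fin q)) := by
        by_contra hno
        push Not at hno
        exact n4 ⟨Fin.elim0, le_trans (mul_le_mul_of_nonneg_right (min_le_left _ _)
          (by positivity)) hcard, fun Ω hΩ _ => hno Ω hΩ⟩
      obtain ⟨Ω, hΩi, hΩ⟩ := hex
      unfold PhiA at hΩ
      rw [mem_filter] at hΩ
      obtain ⟨_, h1, h2⟩ := hΩ
      refine ⟨Ω ∘ Fin.castSucc, (hmem K₁ true _).2 (hA true ?_), Ω (Fin.last r), i₀, τ, ?_, ?_⟩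
      · exact h1
      · intro j hj
        have := hΩi hj
        exact absurd this (Fin.castSucc_lt_last j).ne
      · rw [hmem]
        apply hA false
        have e : Q ∘ (Function.update (Ω ∘ Fin.castSucc) i₀ (Ω (Fin.last r)) ∘ τ) =
            (Function.update ((Q ∘ Ω) ∘ Fin.castSucc) i₀ ((Q ∘ Ω) (Fin.last r))) ∘ τ := by
          funext j
          simp only [Function.comp_apply, Function.update_apply]
          split_ifs <;> rfl
        rw [e]
        exact h2
    · intro P hP1 hP2 a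
      by_contra hno
      push Not at hno
      exact n1 ⟨P, hP1, hP2, a, fun b ω hω => hno b ω hω⟩
  · refine (cnt_or _ _).trans ?_
    refine (add_le_add c1 ((cnt_or _ _).trans (add_le_add (c2 true)
      ((cnt_or _ _).trans (add_le_add (c2 false) c3))))).trans (le_of_eq ?_)
    ring

end Pool.Agent.Lib.TwoPaths
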