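import Pool.Agent.Lib.TwoPaths.NDefs

/-!
# N8: the template of an absorber from a lattice relation

The index set of the core absorber is `(Fin q ⊕ (Fin r × Fin r)) × Fin M`: `M` copies of the `q`
pattern
vertices and of the vertices `(k, i)` of `r` swap tuples.  `bb k` is the label of the `k`-th swap
tuple and `ι b` the coordinate which is swapped for label `b`.  The `k`-th swap tuple is
`i ↦ (k, i)` for `i ≠ ι (bb k)`, and at `ι (bb k)` it has the pattern vertex number `k` in the
initial
state, and the `k`-th vertex of the absorbed tuple in the final state.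

PROOF.  Let `Λ` be the subgroup in `GoodIdx`, `1_ω = ∑ i, single (ω i) 1`, and
`D = ∑_{k : Fin r} single (castLE k) 1`.  Take `ω₀ ∈ K b₀`.  `D = 1_{ω₀} + ∑_k (single (castLE k)
1 -
single (ω₀ k) 1) ∈ Λ`.  So there are lists `Lp, Lm` of pairs `(b, ω)`, `ω ∈ K b`, with
`D = ∑_{Lp} 1_ω - ∑_{Lm} 1_ω` (`AddSubgroup.closure_induction`).
Let `X = Fin q ⊕ (Fin r × Fin r)`,
`ini₀ = [swap tuple k with castLE k at ι (bb k)]_{k} ++ Lm` (labelled tuples over `X`) and
`fin₀ = [swap tuple k with inr k at ι (bb k)]_k ++ Lp` (labelled tuples over `X ⊕ Fin r`).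
The number of occurrences of `x : Fin q` in the flattened `ini₀` is `D x + ∑_{Lm} 1_ω x =
∑_{Lp} 1_ω x`, the number of occurrences in `fin₀`.  The vertices `(k, i)`, `i ≠ ι (bb k)`, occur
once in
each, `(k, ι (bb k))` never; `inr k` occurs once in `fin₀`.
Numbering of occurrences: for a list `L` of injective tuples over `X` there is a list `L'` of tuples
over `X × ℕ` with the same first components, the flattened `L'` without repetition and
`(x, a) ∈ flatten L' ⇔ a < count x (flatten L)`: by induction on the list, number the entries of the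
head tuple `t` by `(t i, count (t i) (flatten rest))`.  (For `fin₀` number only the entries of the
form
`inl x`.)  All numbers are smaller than `M₀ =` the total length of the lists; for `M ≥ M₀` regard
them as elements of `Fin M`.
`Template` fields: `ini_nodup`, `fin_nodup` by the numbering; `inl_iff`: both sides say that the
number
is smaller than the number of occurrences, which agree; `inr_mem` clear.
-/

namespace Pool.Agent.Lib.TwoPaths

open Finset

/-- The flattened list of the entries of the tuples. -/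
private def fl {r : ℕ} {Y : Type} (L : List (Bool × (Fin r → Y))) : List Y :=
  L.flatMap fun p => List.ofFn p.2

/-- The number of occurrences. -/
private def ct {Y : Type} [DecidableEq Y] (l : List Y) (y : Y) : ℕ := l.count y

private lemma ct_append {Y : Type} [DecidableEq Y] (l l' : List Y) (y : Y) :
    ct (l ++ l') y = ct l y + ct l' y := List.count_append

private lemma ct_pos_iff {Y : Type} [DecidableEq Y] {l : List Y} {y : Y} :
    0 < ct l y ↔ y ∈ l := List.count_pos_iff

private lemma ct_le {Y : Type} [DecidableEq Y] (l : List Y) (y : Y) :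
    ct l y ≤ l.length := List.count_le_length

private lemma ct_nil {Y : Type} [DecidableEq Y] (y : Y) : ct ([] : List Y) y = 0 := rfl

private lemma count_ofFn_inj {r : ℕ} {Y : Type} [DecidableEq Y] (t : Fin r → Y)
    (ht : Function.Injective t) (y : Y) :
    ct (List.ofFn t) y = if ∃ i, t i = y then 1 else 0 := by
  have hnd : (List.ofFn t).Nodup := List.nodup_ofFn.2 ht
  rw [ct, List.Nodup.count hnd]
  simp [List.mem_ofFn]

/-- Numbering of the occurrences. -/
private lemma numbering {r : ℕ} {Y : Type} [DecidableEq Y] (M : ℕ) (hM : 0 < M)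
    (L : List (Bool × (Fin r → Y))) (hinj : ∀ p ∈ L, Function.Injective p.2)
    (hc : ∀ y, ct (fl L) y ≤ M) :
    ∃ L' : List (Bool × (Fin r → Y × Fin M)),
      (∀ p' ∈ L', ∃ p ∈ L, p'.1 = p.1 ∧ ∀ i, (p'.2 i).1 = p.2 i) ∧
      (fl L').Nodup ∧ ∀ y (a : Fin M), (y, a) ∈ fl L' ↔ (a : ℕ) < ct (fl L) y := by
  induction L with
  | nil => exact ⟨[], by simp, by simp [fl], by simp [fl, ct]⟩
  | cons p L ih =>
    obtain ⟨b, t⟩ := p
    have hfl : fl ((b, t) :: L) = List.ofFn t ++ fl L := by simp [fl]
    have ht : Function.Injective t := hinj _ List.mem_cons_self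
    have hcc : ∀ y, ct (fl ((b, t) :: L)) y
        = (if ∃ i, t i = y then 1 else 0) + ct (fl L) y := by
      intro y
      rw [hfl, ct_append, count_ofFn_inj t ht]
    obtain ⟨L', h1, h2, h3⟩ := ih (fun p hp => hinj p (List.mem_cons_of_mem _ hp)) (fun y => by
      have h := hc y
      rw [hcc] at h
      omega)
    let t' : Fin r → Y × Fin M := fun i => (t i, ⟨ct (fl L) (t i) % M, Nat.mod_lt _ hM⟩)
    have hmod : ∀ i, ct (fl L) (t i) % M = ct (fl L) (t i) := by
      intro i
      apply Nat.mod_eq_of_lt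
      have h := hc (t i)
      rw [hcc, if_pos ⟨i, rfl⟩] at h
      omega
    have hmem : ∀ y (a : Fin M), (y, a) ∈ List.ofFn t' ↔
        ((∃ i, t i = y) ∧ (a : ℕ) = ct (fl L) y) := by
      intro y a
      rw [List.mem_ofFn]
      constructor
      · rintro ⟨i, hi⟩
        have h4 : t i = y := congrArg Prod.fst hi
        have h5 : (⟨ct (fl L) (t i) % M, Nat.mod_lt _ hM⟩ : Fin M) = a := congrArg Prod.snd hi
        refine ⟨⟨i, h4⟩, ?_⟩
        rw [← h5, ← h4]
        exact hmod i
      · rintro ⟨⟨i, hi⟩, ha⟩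
        refine ⟨i, ?_⟩
        show (t i, (⟨ct (fl L) (t i) % M, Nat.mod_lt _ hM⟩ : Fin M)) = (y, a)
        refine Prod.ext hi (Fin.ext ?_)
        show ct (fl L) (t i) % M = (a : ℕ)
        rw [hmod i, ha, hi]
    refine ⟨(b, t') :: L', ?_, ?_, ?_⟩
    · intro p' hp'
      rcases List.mem_cons.1 hp' with h | h
      · exact ⟨(b, t), List.mem_cons_self, by rw [h], fun i => by rw [h]⟩
      · obtain ⟨p, hp, h4⟩ := h1 p' h
        exact ⟨p, List.mem_cons_of_mem _ hp, h4⟩
    · have h4 : fl ((b, t') :: L') = List.ofFn t' ++ fl L' := by simp [fl]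
      rw [h4]
      refine List.Nodup.append ?_ h2 ?_
      · rw [List.nodup_ofFn]
        intro i j hij
        exact ht (congrArg Prod.fst hij)
      · rintro ⟨y, a⟩ hy hy'
        have h5 := ((hmem y a).1 hy).2
        have h6 := (h3 y a).1 hy'
        omega
    · intro y a
      have h4 : fl ((b, t') :: L') = List.ofFn t' ++ fl L' := by simp [fl]
      rw [h4, List.mem_append, hmem, h3, hcc]
      by_cases h5 : ∃ i, t i = y
      · rw [if_pos h5]
        constructor
        · rintro (⟨-, h⟩ | h) <;> omega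
        · intro h
          by_cases h6 : (a : ℕ) = ct (fl L) y
          · exact Or.inl ⟨h5, h6⟩
          · right
            omega
      · rw [if_neg h5, zero_add]
        constructor
        · rintro (⟨h, -⟩ | h)
          · exact absurd h h5
          · exact h
        · exact Or.inr

/-- Numbering of the occurrences of the elements of the first summand. -/
private lemma numbering2 {r : ℕ} {Y Z : Type} [DecidableEq Y] [DecidableEq Z] (M : ℕ) (hM : 0 < M)
    (L : List (Bool × (Fin r → Y ⊕ Z))) (hinj : ∀ p ∈ L, Function.Injective p.2)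
    (hc : ∀ y, ct (fl L) (Sum.inl y) ≤ M) (hz : ∀ z, ct (fl L) (Sum.inr z) ≤ 1) :
    ∃ L' : List (Bool × (Fin r → (Y × Fin M) ⊕ Z)),
      (∀ p' ∈ L', ∃ p ∈ L, p'.1 = p.1 ∧ ∀ i, (∀ y, p.2 i = Sum.inl y → ∃ m, p'.2 i =
        Sum.inl (y, m)) ∧ (∀ z, p.2 i = Sum.inr z → p'.2 i = Sum.inr z)) ∧
      (fl L').Nodup ∧
      (∀ y (a : Fin M), Sum.inl (y, a) ∈ fl L' ↔ (a : ℕ) < ct (fl L) (Sum.inl y)) ∧
      ∀ z, Sum.inr z ∈ fl L' ↔ Sum.inr z ∈ fl L := by
  induction L with
  | nil => exact ⟨[], by simp, by simp [fl], by simp [fl, ct], by simp [fl]⟩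
  | cons p L ih =>
    obtain ⟨b, t⟩ := p
    have hfl : fl ((b, t) :: L) = List.ofFn t ++ fl L := by simp [fl]
    have ht : Function.Injective t := hinj _ List.mem_cons_self
    have hcc : ∀ y, ct (fl ((b, t) :: L)) y
        = (if ∃ i, t i = y then 1 else 0) + ct (fl L) y := by
      intro y
      rw [hfl, ct_append, count_ofFn_inj t ht]
    obtain ⟨L', h1, h2, h3, h3'⟩ := ih (fun p hp => hinj p (List.mem_cons_of_mem _ hp))
      (fun y => by
        have h := hc y
        rw [hcc] at h
        omega) (fun z => by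
        have h := hz z
        rw [hcc] at h
        omega)
    let g : Y ⊕ Z → (Y × Fin M) ⊕ Z := fun y => match y with
      | Sum.inl y => Sum.inl (y, ⟨ct (fl L) (Sum.inl y) % M, Nat.mod_lt _ hM⟩)
      | Sum.inr z => Sum.inr z
    have hginj : Function.Injective g := by
      rintro (y | z) (y' | z') h
      · have h4 : (Sum.inl (y, (⟨ct (fl L) (Sum.inl y) % M, Nat.mod_lt _ hM⟩ : Fin M)) :
          (Y × Fin M) ⊕ Z) = Sum.inl (y', ⟨ct (fl L) (Sum.inl y') % M, Nat.mod_lt _ hM⟩) := h
        exact congrArg Sum.inl (congrArg Prod.fst (Sum.inl_injective h4))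
      · exact absurd h (by simp [g])
      · exact absurd h (by simp [g])
      · have h4 : (Sum.inr z : (Y × Fin M) ⊕ Z) = Sum.inr z' := h
        rw [Sum.inr_injective h4]
    have hmod : ∀ i y, t i = Sum.inl y →
        ct (fl L) (Sum.inl y) % M = ct (fl L) (Sum.inl y) := by
      intro i y hy
      apply Nat.mod_eq_of_lt
      have h := hc y
      rw [hcc, if_pos ⟨i, hy⟩] at h
      omega
    have hmem : ∀ y (a : Fin M), Sum.inl (y, a) ∈ List.ofFn (g ∘ t) ↔
        ((∃ i, t i = Sum.inl y) ∧ (a : ℕ) = ct (fl L) (Sum.inl y)) := by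
      intro y a
      rw [List.mem_ofFn]
      constructor
      · rintro ⟨i, hi⟩
        have h0 : g (t i) = Sum.inl (y, a) := hi
        cases hti : t i with
        | inl y' =>
          rw [hti] at h0
          have h4 : (Sum.inl (y', (⟨ct (fl L) (Sum.inl y') % M, Nat.mod_lt _ hM⟩ : Fin M)) :
            (Y × Fin M) ⊕ Z) = Sum.inl (y, a) := h0
          have h5 := Sum.inl_injective h4
          have h6 : y' = y := congrArg Prod.fst h5
          have h7 : (⟨ct (fl L) (Sum.inl y') % M, Nat.mod_lt _ hM⟩ : Fin M) = a :=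
            congrArg Prod.snd h5
          refine ⟨⟨i, by rw [hti, h6]⟩, ?_⟩
          rw [← h7, ← h6]
          exact hmod i y' hti
        | inr z =>
          rw [hti] at h0
          exact absurd h0 (by simp [g])
      · rintro ⟨⟨i, hi⟩, ha⟩
        refine ⟨i, ?_⟩
        show g (t i) = Sum.inl (y, a)
        rw [hi]
        show (Sum.inl (y, (⟨ct (fl L) (Sum.inl y) % M, Nat.mod_lt _ hM⟩ : Fin M)) :
            (Y × Fin M) ⊕ Z) = Sum.inl (y, a)
        congr 1
        refine Prod.ext rfl (Fin.ext ?_)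
        show ct (fl L) (Sum.inl y) % M = (a : ℕ)
        rw [hmod i y hi, ha]
    have hmem' : ∀ z, Sum.inr z ∈ List.ofFn (g ∘ t) ↔ ∃ i, t i = Sum.inr z := by
      intro z
      rw [List.mem_ofFn]
      constructor
      · rintro ⟨i, hi⟩
        have h0 : g (t i) = g (Sum.inr z) := hi
        exact ⟨i, hginj h0⟩
      · rintro ⟨i, hi⟩
        refine ⟨i, ?_⟩
        show g (t i) = Sum.inr z
        rw [hi]
    have h4 : fl ((b, g ∘ t) :: L') = List.ofFn (g ∘ t) ++ fl L' := by simp [fl]
    refine ⟨(b, g ∘ t) :: L', ?_, ?_, ?_, ?_⟩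
    · intro p' hp'
      rcases List.mem_cons.1 hp' with h | h
      · refine ⟨(b, t), List.mem_cons_self, by rw [h], fun i => ⟨fun y hy => ?_, fun z hz => ?_⟩⟩
        · refine ⟨⟨ct (fl L) (Sum.inl y) % M, Nat.mod_lt _ hM⟩, ?_⟩
          have hy' : t i = Sum.inl y := hy
          rw [h]
          show g (t i) = _
          rw [hy']
        · have hz' : t i = Sum.inr z := hz
          rw [h]
          show g (t i) = _
          rw [hz']
      · obtain ⟨p, hp, h4⟩ := h1 p' h
        exact ⟨p, List.mem_cons_of_mem _ hp, h4⟩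
    · rw [h4]
      refine List.Nodup.append ?_ h2 ?_
      · rw [List.nodup_ofFn]
        exact hginj.comp ht
      · rintro (⟨y, a⟩ | z) hy hy'
        · have h5 := ((hmem y a).1 hy).2
          have h6 := (h3 y a).1 hy'
          omega
        · have h5 := (hmem' z).1 hy
          have h6 := ct_pos_iff.2 ((h3' z).1 hy')
          have h7 := hz z
          rw [hcc, if_pos h5] at h7
          omega
    · intro y a
      rw [h4, List.mem_append, hmem, h3, hcc]
      by_cases h5 : ∃ i, t i = Sum.inl y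
      · rw [if_pos h5]
        constructor
        · rintro (⟨-, h⟩ | h) <;> omega
        · intro h
          by_cases h6 : (a : ℕ) = ct (fl L) (Sum.inl y)
          · exact Or.inl ⟨h5, h6⟩
          · right
            omega
      · rw [if_neg h5, zero_add]
        constructor
        · rintro (⟨h, -⟩ | h)
          · exact absurd h h5
          · exact h
        · exact Or.inr
    · intro z
      rw [h4, List.mem_append, hmem', h3', hfl, List.mem_append, List.mem_ofFn]

private lemma count_ofFn_sum {n : ℕ} {Y : Type} [DecidableEq Y] (t : Fin n → Y) (y : Y) :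
    ct (List.ofFn t) y = ∑ i, if t i = y then 1 else 0 := by
  induction n with
  | zero => simp [ct]
  | succ n ih =>
    rw [ct, List.ofFn_succ, List.count_cons]
    have ih' := ih (fun i => t i.succ)
    rw [ct] at ih'
    rw [ih', Fin.sum_univ_succ, add_comm]
    simp only [beq_iff_eq]

private lemma fl_append {r : ℕ} {Y : Type} (L L' : List (Bool × (Fin r → Y))) :
    fl (L ++ L') = fl L ++ fl L' := by
  simp [fl]

private lemma count_fl_map {r : ℕ} {Y : Type} [DecidableEq Y] (F : Fin r → Bool × (Fin r → Y))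
    (y : Y) : ct (fl ((List.finRange r).map F)) y
      = ∑ k, ∑ i, if (F k).2 i = y then 1 else 0 := by
  rw [ct, fl, List.flatMap_map, List.count_flatMap, Fin.sum_univ_def]
  congr 1
  refine List.map_congr_left fun k _ => ?_
  exact count_ofFn_sum _ _

private lemma count_fl_inj {r : ℕ} {Y Y' : Type} [DecidableEq Y] [DecidableEq Y'] (g : Y → Y')
    (hg : Function.Injective g) (L : List (Bool × (Fin r → Y))) (y : Y) :
    ct (fl (L.map fun p => (p.1, g ∘ p.2))) (g y) = ct (fl L) y := by
  have h : fl (L.map fun p => (p.1, g ∘ p.2)) = (fl L).map g := by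
    rw [fl, fl, List.flatMap_map, List.map_flatMap]
    congr 1
    funext p
    rw [List.map_ofFn]
  rw [h]
  exact List.count_map_of_injective _ _ hg _

private lemma count_fl_notmem {r : ℕ} {Y Y' : Type} [DecidableEq Y] [DecidableEq Y'] (g : Y → Y')
    (L : List (Bool × (Fin r → Y))) (y : Y') (hy : ∀ x, g x ≠ y) :
    ct (fl (L.map fun p => (p.1, g ∘ p.2))) y = 0 := by
  refine List.count_eq_zero.2 fun h => ?_
  simp only [fl, List.mem_flatMap, List.mem_map, List.mem_ofFn] at h
  obtain ⟨p, ⟨p', -, hp'⟩, i, hi⟩ := h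
  rw [← hp'] at hi
  exact hy _ hi

/-- Lists from the lattice relation. -/
private lemma lattice_lists {q r : ℕ} (K : Bool → Finset (Fin r → Fin q)) (v : Fin q → ℤ)
    (hv : v ∈ AddSubgroup.closure
      {v : Fin q → ℤ | ∃ b, ∃ ω ∈ K b, v = ∑ i, Pi.single (ω i) 1}) :
    ∃ Lp Lm : List (Bool × (Fin r → Fin q)), (∀ p ∈ Lp, p.2 ∈ K p.1) ∧
      (∀ p ∈ Lm, p.2 ∈ K p.1) ∧
      ∀ x, v x = (ct (fl Lp) x : ℤ) - (ct (fl Lm) x : ℤ) := by
  induction hv using AddSubgroup.closure_induction with
  | mem v hv =>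
    obtain ⟨b, ω, hω, rfl⟩ := hv
    refine ⟨[(b, ω)], [], by simpa using hω, by simp, fun x => ?_⟩
    have h1 : fl [(b, ω)] = List.ofFn ω := by simp [fl]
    rw [h1, count_ofFn_sum]
    simp only [fl, List.flatMap_nil, ct_nil, Finset.sum_apply, Pi.single_apply]
    push_cast
    rw [sub_zero]
    exact Finset.sum_congr rfl fun i _ => by simp only [eq_comm]
  | zero => exact ⟨[], [], by simp, by simp, fun x => by simp [fl, ct]⟩
  | add v w _ _ hv hw =>
    obtain ⟨P1, M1, h1, h2, h3⟩ := hv
    obtain ⟨P2, M2, h4, h5, h6⟩ := hw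
    refine ⟨P1 ++ P2, M1 ++ M2, ?_, ?_, fun x => ?_⟩
    · intro p hp
      rcases List.mem_append.1 hp with h | h
      · exact h1 p h
      · exact h4 p h
    · intro p hp
      rcases List.mem_append.1 hp with h | h
      · exact h2 p h
      · exact h5 p h
    · rw [Pi.add_apply, h3, h6, fl_append, fl_append, ct_append, ct_append]
      push_cast
      ring
  | neg v _ hv =>
    obtain ⟨P1, M1, h1, h2, h3⟩ := hv
    refine ⟨M1, P1, h2, h1, fun x => ?_⟩
    rw [Pi.neg_apply, h3]
    ring

theorem exists_template {q r : ℕ} (hr : 1 ≤ r) (hq : r ≤ q) (K : Bool → Finset (Fin r → Fin q))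
    (hinj : ∀ b, ∀ ω ∈ K b, Function.Injective ω) (hK : GoodIdx K) (bb : Fin r → Bool)
    (ι : Bool → Fin r) :
    ∃ M₀ : ℕ, ∀ M ≥ M₀, ∃ t : Template r ((Fin q ⊕ (Fin r × Fin r)) × Fin M),
      (∀ p ∈ t.ini,
        (∃ k : Fin r, p.1 = bb k ∧ ∀ i, (p.2 i).1 =
          if i = ι (bb k) then Sum.inl (Fin.castLE hq k) else Sum.inr (k, i)) ∨
        (∃ ω ∈ K p.1, ∀ i, (p.2 i).1 = Sum.inl (ω i))) ∧
      (∀ p ∈ t.fin,
        (∃ k : Fin r, p.1 = bb k ∧ ∀ i, (i = ι (bb k) → p.2 i = Sum.inr k) ∧
          (i ≠ ι (bb k) → ∃ m, p.2 i = Sum.inl (Sum.inr (k, i), m))) ∨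
        (∃ ω ∈ K p.1, ∀ i, ∃ m, p.2 i = Sum.inl (Sum.inl (ω i), m))) := by
  classical
  -- the relation
  obtain ⟨⟨b₀, ω₀, hω₀⟩, hdiff⟩ := hK
  set Λ := AddSubgroup.closure {v : Fin q → ℤ | ∃ b, ∃ ω ∈ K b, v = ∑ i, Pi.single (ω i) 1}
    with hΛ
  have hD : (∑ k : Fin r, Pi.single (Fin.castLE hq k) 1 : Fin q → ℤ) ∈ Λ := by
    have h1 : (∑ k : Fin r, Pi.single (Fin.castLE hq k) 1 : Fin q → ℤ) =
        (∑ k : Fin r, Pi.single (ω₀ k) 1) +
          ∑ k : Fin r, (Pi.single (Fin.castLE hq k) 1 - Pi.single (ω₀ k) 1) := by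
      rw [Finset.sum_sub_distrib]
      abel
    rw [h1]
    refine Λ.add_mem ?_ (Λ.sum_mem fun k _ => hdiff _ _)
    exact AddSubgroup.subset_closure ⟨b₀, ω₀, hω₀, rfl⟩
  obtain ⟨Lp, Lm, hLp, hLm, hcnt⟩ := lattice_lists K _ hD
  -- the lists
  let Fi : Fin r → Bool × (Fin r → Fin q ⊕ (Fin r × Fin r)) := fun k =>
    (bb k, fun i => if i = ι (bb k) then Sum.inl (Fin.castLE hq k) else Sum.inr (k, i))
  let Ff : Fin r → Bool × (Fin r → (Fin q ⊕ (Fin r × Fin r)) ⊕ Fin r) := fun k =>
    (bb k, fun i => if i = ι (bb k) then Sum.inr k else Sum.inl (Sum.inr (k, i)))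
  let gi : Fin q → Fin q ⊕ (Fin r × Fin r) := Sum.inl
  let gf : Fin q → (Fin q ⊕ (Fin r × Fin r)) ⊕ Fin r := fun x => Sum.inl (Sum.inl x)
  have hgi : Function.Injective gi := Sum.inl_injective
  have hgf : Function.Injective gf := Sum.inl_injective.comp Sum.inl_injective
  let I0 := (List.finRange r).map Fi ++ Lm.map fun p => (p.1, gi ∘ p.2)
  let F0 := (List.finRange r).map Ff ++ Lp.map fun p => (p.1, gf ∘ p.2)
  have hI0 : ∀ y, ct (fl I0) y = (∑ k, ∑ i, if (Fi k).2 i = y then 1 else 0) +
      ct (fl (Lm.map fun p => (p.1, gi ∘ p.2))) y := by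
    intro y
    rw [fl_append, ct_append, count_fl_map]
  have hF0 : ∀ y, ct (fl F0) y = (∑ k, ∑ i, if (Ff k).2 i = y then 1 else 0) +
      ct (fl (Lp.map fun p => (p.1, gf ∘ p.2))) y := by
    intro y
    rw [fl_append, ct_append, count_fl_map]
  -- counts agree
  have hag : ∀ x, ct (fl F0) (Sum.inl x) = ct (fl I0) x := by
    rintro (x | ⟨k, i⟩)
    · rw [hI0, hF0]
      have e1 : ct (fl (Lm.map fun p => (p.1, gi ∘ p.2))) (Sum.inl x) = ct (fl Lm) x :=
        count_fl_inj gi hgi Lm x
      have e2 : ct (fl (Lp.map fun p => (p.1, gf ∘ p.2))) (Sum.inl (Sum.inl x))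
          = ct (fl Lp) x := count_fl_inj gf hgf Lp x
      rw [e1, e2]
      have e3 : (∑ k, ∑ i, if (Ff k).2 i = Sum.inl (Sum.inl x) then 1 else 0) = 0 := by
        refine Finset.sum_eq_zero fun k _ => Finset.sum_eq_zero fun i _ => if_neg ?_
        show ¬ (if i = ι (bb k) then Sum.inr k else Sum.inl (Sum.inr (k, i))) = _
        split_ifs <;> simp
      have e4 : (∑ k, ∑ i, if (Fi k).2 i = Sum.inl x then 1 else 0) =
          ∑ k, if Fin.castLE hq k = x then 1 else 0 := by
        refine Finset.sum_congr rfl fun k _ => ?_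
        have e5 : ∀ i, (if (Fi k).2 i = Sum.inl x then 1 else 0) =
            if i = ι (bb k) then (if Fin.castLE hq k = x then 1 else 0) else 0 := by
          intro i
          show (if (if i = ι (bb k) then Sum.inl (Fin.castLE hq k) else Sum.inr (k, i))
            = Sum.inl x then 1 else 0) = _
          by_cases h : i = ι (bb k)
          · simp [h]
          · simp [h]
        rw [Finset.sum_congr rfl fun i _ => e5 i, Finset.sum_ite_eq' Finset.univ (ι (bb k)),
          if_pos (Finset.mem_univ _)]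
      rw [e3, e4, zero_add]
      have e6 := hcnt x
      rw [Finset.sum_apply] at e6
      have e7 : (∑ k : Fin r, (Pi.single (Fin.castLE hq k) (1 : ℤ) : Fin q → ℤ) x) =
          ((∑ k : Fin r, if Fin.castLE hq k = x then 1 else 0 : ℕ) : ℤ) := by
        push_cast
        refine Finset.sum_congr rfl fun k _ => ?_
        rw [Pi.single_apply]
        simp only [eq_comm]
      rw [e7] at e6
      omega
    · rw [hI0, hF0]
      have e1 : ct (fl (Lm.map fun p => (p.1, gi ∘ p.2))) (Sum.inr (k, i)) = 0 :=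
        count_fl_notmem gi Lm _ (fun x => by simp [gi])
      have e2 : ct (fl (Lp.map fun p => (p.1, gf ∘ p.2))) (Sum.inl (Sum.inr (k, i))) = 0 :=
        count_fl_notmem gf Lp _ (fun x => by simp [gf])
      rw [e1, e2]
      congr 1
      refine Finset.sum_congr rfl fun k' _ => Finset.sum_congr rfl fun i' _ => ?_
      show (if (if i' = ι (bb k') then Sum.inr k' else Sum.inl (Sum.inr (k', i')))
            = Sum.inl (Sum.inr (k, i)) then 1 else 0) =
          (if (if i' = ι (bb k') then Sum.inl (Fin.castLE hq k') else Sum.inr (k', i'))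
            = Sum.inr (k, i) then 1 else 0)
      by_cases h : i' = ι (bb k')
      · simp [h]
      · simp [h]
  have hz : ∀ z, ct (fl F0) (Sum.inr z) = 1 := by
    intro z
    rw [hF0]
    have e2 : ct (fl (Lp.map fun p => (p.1, gf ∘ p.2))) (Sum.inr z) = 0 :=
        count_fl_notmem gf Lp _ (fun x => by simp [gf])
    rw [e2, add_zero]
    have e5 : ∀ k i, (if (Ff k).2 i = Sum.inr z then 1 else 0) =
            if i = ι (bb k) then (if k = z then 1 else 0) else 0 := by
      intro k i
      show (if (if i = ι (bb k) then Sum.inr k else Sum.inl (Sum.inr (k, i)))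
            = Sum.inr z then 1 else 0) = _
      by_cases h : i = ι (bb k)
      · simp [h]
      · simp [h]
    rw [Finset.sum_congr rfl fun k _ => Finset.sum_congr rfl fun i _ => e5 k i]
    rw [Finset.sum_congr rfl fun k _ => by
      rw [Finset.sum_ite_eq' Finset.univ (ι (bb k)), if_pos (Finset.mem_univ _)]]
    rw [Finset.sum_ite_eq' Finset.univ z, if_pos (Finset.mem_univ _)]
  -- injectivity
  have hinjI : ∀ p ∈ I0, Function.Injective p.2 := by
    intro p hp
    rcases List.mem_append.1 hp with h | h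
    · obtain ⟨k, -, rfl⟩ := List.mem_map.1 h
      intro i j hij
      have hij' : (if i = ι (bb k) then Sum.inl (Fin.castLE hq k) else Sum.inr (k, i)
          : Fin q ⊕ (Fin r × Fin r)) =
        if j = ι (bb k) then Sum.inl (Fin.castLE hq k) else Sum.inr (k, j) := hij
      split_ifs at hij' with h1 h2 h2
      · rw [h1, h2]
      · exact (congrArg Prod.snd (Sum.inr_injective hij'))
    · obtain ⟨p', hp', rfl⟩ := List.mem_map.1 h
      exact hgi.comp (hinj _ _ (hLm p' hp'))
  have hinjF : ∀ p ∈ F0, Function.Injective p.2 := by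
    intro p hp
    rcases List.mem_append.1 hp with h | h
    · obtain ⟨k, -, rfl⟩ := List.mem_map.1 h
      intro i j hij
      have hij' : (if i = ι (bb k) then Sum.inr k else Sum.inl (Sum.inr (k, i))
          : (Fin q ⊕ (Fin r × Fin r)) ⊕ Fin r) =
        if j = ι (bb k) then Sum.inr k else Sum.inl (Sum.inr (k, j)) := hij
      split_ifs at hij' with h1 h2 h2
      · rw [h1, h2]
      · exact (congrArg Prod.snd (Sum.inr_injective (Sum.inl_injective hij')))
    · obtain ⟨p', hp', rfl⟩ := List.mem_map.1 h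
      exact hgf.comp (hinj _ _ (hLp p' hp'))
  refine ⟨(fl I0).length + (fl F0).length + 1, fun M hM => ?_⟩
  obtain ⟨LI, hI1, hI2, hI3⟩ := numbering M (by omega) I0 hinjI (fun y => by
    have := ct_le (fl I0) y
    omega)
  obtain ⟨LF, hF1, hF2, hF3, hF4⟩ := numbering2 M (by omega) F0 hinjF (fun y => by
    have := ct_le (fl F0) (Sum.inl y)
    omega) (fun z => (hz z).le)
  refine ⟨⟨LI, LF, hI2, hF2, ?_, ?_⟩, ?_, ?_⟩
  · rintro ⟨x, a⟩
    exact (hF3 x a).trans (by rw [hag]; exact (hI3 x a).symm)
  · intro z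
    refine (hF4 z).2 ?_
    apply ct_pos_iff.1
    rw [hz]
    exact Nat.one_pos
  · intro p' hp'
    obtain ⟨p, hp, h1, h2⟩ := hI1 p' hp'
    rcases List.mem_append.1 hp with h | h
    · left
      obtain ⟨k, -, rfl⟩ := List.mem_map.1 h
      exact ⟨k, h1, fun i => h2 i⟩
    · right
      obtain ⟨p'', hp'', rfl⟩ := List.mem_map.1 h
      refine ⟨p''.2, ?_, fun i => h2 i⟩
      rw [h1]
      exact hLm p'' hp''
  · intro p' hp'
    obtain ⟨p, hp, h1, h2⟩ := hF1 p' hp'
    rcases List.mem_append.1 hp with h | h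
    · left
      obtain ⟨k, -, rfl⟩ := List.mem_map.1 h
      refine ⟨k, h1, fun i => ⟨fun hi => ?_, fun hi => ?_⟩⟩
      · refine (h2 i).2 k ?_
        show (if i = ι (bb k) then Sum.inr k else Sum.inl (Sum.inr (k, i))) = _
        rw [if_pos hi]
      · refine (h2 i).1 _ ?_
        show (if i = ι (bb k) then Sum.inr k else Sum.inl (Sum.inr (k, i))) = _
        rw [if_neg hi]
    · right
      obtain ⟨p'', hp'', rfl⟩ := List.mem_map.1 h
      refine ⟨p''.2, ?_, fun i => (h2 i).1 _ rfl⟩
      rw [h1]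
      exact hLp p'' hp''

end Pool.Agent.Lib.TwoPaths
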