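import Pool.Agent.Lib.TwoPaths.N1
import Pool.Agent.Lib.TwoPaths.N7
import Pool.Agent.Lib.TwoPaths.N8
import Pool.Agent.Lib.TwoPaths.M3

/-!
# N9: every tuple has many core absorbers

CONSTANTS.  `q` from `good_sample` with `ζ = α^r/2` (`Deg α K₁` by `deg_of_att`).
`Idx = Fin q ⊕ (Fin r × Fin r)`.  `J` = the triples `(π, bb, ι)` with `π : Bool → Finset (Fin r → Fin q)` such
that `GoodIdx π` and all members are injective, `bb : Fin r → Bool`, `ι : Bool → Fin r` (a finite type).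
`M` = the maximum of the `M₀` of `exists_template` over `J` (and `1`), `H = Idx × Fin M`, `tm j` the template
given by `exists_template`.  `Npat` = the number of all `π`.  `δ₁ = α^r/(2 Npat)`,
`c₁ = δ₁^(M^|Idx|)`.

PROOF.  Let `T : Fin r → V`.  By `Att` choose for each `k` a label `bb k` with
`#{x ∈ K₁ (bb k) | update x (ι (bb k)) (T k) ∈ K₁ (bb k)} ≥ α n^r`.  Write an element of `Idx → V` as
`(Q, Y)`, `Q : Fin q → V`, `Y : Fin r → Fin r → V`.  Let `Ω` be the set of `(Q, Y)` such that for all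
`k`, with `i = ι (bb k)`: `update (Y k) i (Q (castLE k)) ∈ K₁ (bb k)` and
`update (Y k) i (T k) ∈ K₁ (bb k)`; and `GoodIdx (patt K Q)`.
The first conditions involve, for different `k`, disjoint sets of coordinates `Q (castLE k)`, `Y k`; for
given `k` the number of `(d, y)` with `update y i d ∈ K₁`, `update y i (T k) ∈ K₁` is
`n · #{x ∈ K₁ | update x i (T k) ∈ K₁} ≥ α n^(r+1)` (bijection `(d, y) ↦ (update y i d, y i)`).  So at
least `α^r n^(q + r²)` pairs satisfy them, and at most `ζ n^(q+r²)` pairs have `¬ GoodIdx`: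
`|Ω| ≥ (α^r/2) n^|Idx|`.  For some `π` the set `Ω_π` of `(Q, Y) ∈ Ω` with `patt K Q = π` has at least
`δ₁ n^|Idx|` elements; in particular `π` is good and its members are injective (`n > 0`, so `Ω_π ≠ ∅`).
`blow_idx`: at least `c₁ n^|H|` functions `U : Idx × Fin M → V` have all their mixtures
`i ↦ U (i, j i)` in `Ω_π`.  For such `U` and `j = (π, bb, ι)` we have `CoreAbs K (tm j) U T`: the first
components of the entries of a tuple of the template are distinct elements of `Idx` (a swap tuple, or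
`ω ∈ π b` injective), so the tuple is read off from some mixture `(Q', Y') ∈ Ω_π`: a swap tuple of the
initial state is `update (Y' k) i (Q' (castLE k)) ∈ K₁ (bb k) ⊆ K (bb k)`, of the final state
`update (Y' k) i (T k) ∈ K₁ (bb k)`, and a pattern tuple is `Q' ∘ ω ∈ K b` because
`ω ∈ π b = patt K Q' b`.
-/

namespace Pool.Agent.Lib.TwoPaths

open Finset
open Pool.Agent.Lib.MP_952639_co

private lemma N9_mix {X : Type*} {r M : ℕ} (hM : 1 ≤ M) (g : Fin r → X × Fin M)
    (hg : Function.Injective fun i => (g i).1) :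
    ∃ j : X → Fin M, ∀ i, g i = ((g i).1, j (g i).1) := by
  refine ⟨Function.extend (fun i => (g i).1) (fun i => (g i).2) (fun _ => ⟨0, hM⟩), fun i => ?_⟩
  have h := hg.extend_apply (fun i => (g i).2) (fun _ => (⟨0, hM⟩ : Fin M)) i
  exact Prod.ext rfl h.symm

open Classical in
private lemma N9_G {V : Type*} [Fintype V] [DecidableEq V] {r : ℕ} (K₁ : Finset (Fin r → V)) (i : Fin r) (t : V) :
    (K₁.filter fun x => Function.update x i t ∈ K₁).card * Fintype.card V ≤
      (univ.filter fun p : V × (Fin r → V) => Function.update p.2 i p.1 ∈ K₁ ∧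
        Function.update p.2 i t ∈ K₁).card := by
  rw [← card_univ (α := V), ← card_product]
  refine card_le_card_of_injOn (fun p : (Fin r → V) × V => (p.1 i, Function.update p.1 i p.2)) ?_ ?_
  · rintro ⟨x, e⟩ h
    rw [mem_coe, mem_product, mem_filter] at h
    rw [mem_coe, mem_filter]
    refine ⟨mem_univ _, ?_, ?_⟩
    · simp only [Function.update_idem, Function.update_eq_self]
      exact h.1.1
    · simp only [Function.update_idem]
      exact h.1.2
  · rintro ⟨x, e⟩ _ ⟨x', e'⟩ _ h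
    rw [Prod.mk.injEq] at h
    have h1 : x i = x' i := h.1
    have h2 : Function.update x i e = Function.update x' i e' := h.2
    have h3 : x = x' := by
      have h4 := congrArg (fun z => Function.update z i (x i)) h2
      simp only [Function.update_idem, Function.update_eq_self] at h4
      rw [h4, h1, Function.update_eq_self]
    have h5 : e = e' := by
      have h6 := congrFun h2 i
      rwa [Function.update_self, Function.update_self] at h6
    rw [h3, h5]

open Classical in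
private lemma N9_prod {V : Type*} [Fintype V] [DecidableEq V] {r q : ℕ} (hq : r ≤ q)
    (G : Fin r → Finset (V × (Fin r → V))) :
    (∏ k, (G k).card) * Fintype.card V ^ (q - r) ≤
      (univ.filter fun Z : (Fin q ⊕ (Fin r × Fin r)) → V => ∀ k,
        (Z (Sum.inl (Fin.castLE hq k)), fun i => Z (Sum.inr (k, i))) ∈ G k).card := by
  have h1 : Fintype.card V ^ (q - r) = (univ : Finset (Fin (q - r) → V)).card := by
    rw [card_univ, Fintype.card_fun, Fintype.card_fin]
  rw [← Fintype.card_piFinset, h1, ← card_product]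
  refine card_le_card_of_injOn (fun p : (Fin r → V × (Fin r → V)) × (Fin (q - r) → V) =>
    (Sum.elim (fun x : Fin q => if hx : (x : ℕ) < r then (p.1 ⟨x, hx⟩).1 else
      p.2 ⟨(x : ℕ) - r, by omega⟩) (fun y : Fin r × Fin r => (p.1 y.1).2 y.2))) ?_ ?_
  · rintro ⟨g, h⟩ hp
    rw [mem_coe, mem_product, Fintype.mem_piFinset] at hp
    rw [mem_coe, mem_filter]
    refine ⟨mem_univ _, fun k => ?_⟩
    simp only [Sum.elim_inl, Sum.elim_inr, Fin.val_castLE, k.2, dif_pos]
    exact hp.1 k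
  · rintro ⟨g, h⟩ _ ⟨g', h'⟩ _ he
    have he' : ∀ z, _ = _ := fun z => congrFun he z
    have h2 : g = g' := by
      funext k
      refine Prod.ext ?_ ?_
      · have h3 := he' (Sum.inl (Fin.castLE hq k))
        simp only [Sum.elim_inl, Fin.val_castLE, k.2, dif_pos] at h3
        exact h3
      · funext i
        have h3 := he' (Sum.inr (k, i))
        simp only [Sum.elim_inr] at h3
        exact h3
    have h4 : h = h' := by
      funext k
      have hk : r + (k : ℕ) < q := by have := k.2; omega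
      have h3 := he' (Sum.inl ⟨r + k, hk⟩)
      have h5 : ¬ (r + (k : ℕ) < r) := by omega
      simp only [Sum.elim_inl, h5, dif_neg, not_false_iff] at h3
      have h6 : (⟨r + (k : ℕ) - r, by omega⟩ : Fin (q - r)) = k := Fin.ext (by simp)
      rw [h6] at h3
      exact h3
    rw [h2, h4]

private lemma N9_bad {V : Type*} [Fintype V] [DecidableEq V] {r q : ℕ} (P : (Fin q → V) → Prop)
    [DecidablePred P] :
    ((univ.filter fun Z : (Fin q ⊕ (Fin r × Fin r)) → V => P (fun x => Z (Sum.inl x))).card : ℝ) ≤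
      cnt P * (Fintype.card V : ℝ) ^ (r * r) := by
  classical
  have h1 : Fintype.card V ^ (r * r) = (univ : Finset (Fin r × Fin r → V)).card := by
    rw [card_univ, Fintype.card_fun, Fintype.card_prod, Fintype.card_fin]
  rw [cnt_eq, ← Nat.cast_pow, h1, ← Nat.cast_mul, ← card_product]
  refine Nat.cast_le.2 (card_le_card_of_injOn (fun Z => (fun x => Z (Sum.inl x),
    fun y => Z (Sum.inr y))) ?_ ?_)
  · intro Z hZ
    rw [mem_coe, mem_filter] at hZ
    rw [mem_coe, mem_product, mem_filter]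
    exact ⟨⟨mem_univ _, hZ.2⟩, mem_univ _⟩
  · intro Z _ Z' _ he
    rw [Prod.mk.injEq] at he
    funext z
    rcases z with x | y
    · exact congrFun he.1 x
    · exact congrFun he.2 y

/-- pigeonhole -/
private lemma N9_pigeon {X Y : Type*} [Fintype Y] [Nonempty Y] [DecidableEq Y] (Ω : Finset X)
    (f : X → Y) (a : ℝ) (h : a ≤ Ω.card) :
    ∃ y, a / Fintype.card Y ≤ ((Ω.filter fun x => f x = y).card : ℝ) := by
  by_contra hcon
  push Not at hcon
  have h1 : (Ω.card : ℝ) = ∑ y : Y, ((Ω.filter fun x => f x = y).card : ℝ) := by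
    rw [card_eq_sum_card_fiberwise (f := f) (t := univ) (fun _ _ => mem_coe.2 (mem_univ _)),
      Nat.cast_sum]
  have h2 : ∑ y : Y, ((Ω.filter fun x => f x = y).card : ℝ) < ∑ _y : Y, a / Fintype.card Y :=
    sum_lt_sum_of_nonempty univ_nonempty (fun y _ => hcon y)
  rw [sum_const, card_univ, nsmul_eq_mul] at h2
  have h3 : (0 : ℝ) < Fintype.card Y := by exact_mod_cast Fintype.card_pos
  rw [mul_div_cancel₀ _ h3.ne'] at h2
  linarith

/-- the core absorber is read off from the mixtures -/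
private lemma N9_core {V : Type*} [Fintype V] [DecidableEq V] {r q M : ℕ} (hM : 1 ≤ M)
    (hq : r ≤ q) (K₁ K : Bool → Finset (Fin r → V)) (hK₁ : ∀ b, K₁ b ⊆ K b)
    (π : Bool → Finset (Fin r → Fin q)) (hπ : ∀ b, ∀ ω ∈ π b, Function.Injective ω)
    (bb : Fin r → Bool) (ι : Bool → Fin r) (T : Fin r → V)
    (t : Template r ((Fin q ⊕ (Fin r × Fin r)) × Fin M))
    (ht1 : ∀ p ∈ t.ini,
        (∃ k : Fin r, p.1 = bb k ∧ ∀ i, (p.2 i).1 =
          if i = ι (bb k) then Sum.inl (Fin.castLE hq k) else Sum.inr (k, i)) ∨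
        (∃ ω ∈ π p.1, ∀ i, (p.2 i).1 = Sum.inl (ω i)))
    (ht2 : ∀ p ∈ t.fin,
        (∃ k : Fin r, p.1 = bb k ∧ ∀ i, (i = ι (bb k) → p.2 i = Sum.inr k) ∧
          (i ≠ ι (bb k) → ∃ m, p.2 i = Sum.inl (Sum.inr (k, i), m))) ∨
        (∃ ω ∈ π p.1, ∀ i, ∃ m, p.2 i = Sum.inl (Sum.inl (ω i), m)))
    (U : (Fin q ⊕ (Fin r × Fin r)) × Fin M → V)
    (hU : ∀ j : (Fin q ⊕ (Fin r × Fin r)) → Fin M,
      (∀ k, Function.update (fun i => U (Sum.inr (k, i), j (Sum.inr (k, i)))) (ι (bb k))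
          (U (Sum.inl (Fin.castLE hq k), j (Sum.inl (Fin.castLE hq k)))) ∈ K₁ (bb k) ∧
        Function.update (fun i => U (Sum.inr (k, i), j (Sum.inr (k, i)))) (ι (bb k)) (T k) ∈
          K₁ (bb k)) ∧
      patt K (fun x => U (Sum.inl x, j (Sum.inl x))) = π) : CoreAbs K t U T := by
  constructor
  · intro p hp
    rcases ht1 p hp with ⟨k, hk1, hk2⟩ | ⟨ω, hω, hω2⟩
    · obtain ⟨j, hj⟩ := N9_mix hM p.2 (by
        intro i i' h
        simp only [hk2] at h
        by_cases h1 : i = ι (bb k)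
        · by_cases h2 : i' = ι (bb k)
          · rw [h1, h2]
          · rw [if_pos h1, if_neg h2] at h
            exact absurd h (by simp)
        · by_cases h2 : i' = ι (bb k)
          · rw [if_neg h1, if_pos h2] at h
            exact absurd h (by simp)
          · rw [if_neg h1, if_neg h2] at h
            have h3 := Sum.inr_injective h
            exact congrArg Prod.snd h3)
      rw [hk1]
      apply hK₁
      convert ((hU j).1 k).1 using 1
      funext i
      by_cases h1 : i = ι (bb k)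
      · rw [Function.comp_apply, hj i, hk2 i, if_pos h1, h1, Function.update_self]
      · rw [Function.comp_apply, hj i, hk2 i, if_neg h1, Function.update_of_ne h1]
    · obtain ⟨j, hj⟩ := N9_mix hM p.2 (by
        intro i i' h
        simp only [hω2] at h
        exact hπ _ _ hω (Sum.inl_injective h))
      have h1 := (hU j).2
      have h2 : ω ∈ patt K (fun x => U (Sum.inl x, j (Sum.inl x))) p.1 := by rw [h1]; exact hω
      unfold patt at h2
      rw [mem_filter] at h2
      convert h2.2 using 1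
      funext i
      rw [Function.comp_apply, hj i, hω2 i]
      rfl
  · intro p hp
    rcases ht2 p hp with ⟨k, hk1, hk2⟩ | ⟨ω, hω, hω2⟩
    · have hm : ∀ i, ∃ m : Fin M, i ≠ ι (bb k) → p.2 i = Sum.inl (Sum.inr (k, i), m) := by
        intro i
        by_cases h1 : i = ι (bb k)
        · exact ⟨⟨0, hM⟩, fun h => absurd h1 h⟩
        · obtain ⟨m, hm⟩ := (hk2 i).2 h1
          exact ⟨m, fun _ => hm⟩
      choose m hm using hm
      obtain ⟨j, hj⟩ := N9_mix hM (fun i => ((Sum.inr (k, i) : Fin q ⊕ (Fin r × Fin r)), m i)) (by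
        intro i i' h
        have h3 := Sum.inr_injective h
        exact congrArg Prod.snd h3)
      rw [hk1]
      apply hK₁
      convert ((hU j).1 k).2 using 1
      funext i
      by_cases h1 : i = ι (bb k)
      · rw [Function.comp_apply, (hk2 i).1 h1, Sum.elim_inr, h1, Function.update_self]
      · rw [Function.comp_apply, hm i h1, Sum.elim_inl, Function.update_of_ne h1]
        have h4 := hj i
        rw [Prod.mk.injEq] at h4
        simp only at h4
        rw [← h4.2]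
    · choose m hm using hω2
      obtain ⟨j, hj⟩ := N9_mix hM (fun i => ((Sum.inl (ω i) : Fin q ⊕ (Fin r × Fin r)), m i)) (by
        intro i i' h
        exact hπ _ _ hω (Sum.inl_injective h))
      have h1 := (hU j).2
      have h2 : ω ∈ patt K (fun x => U (Sum.inl x, j (Sum.inl x))) p.1 := by rw [h1]; exact hω
      unfold patt at h2
      rw [mem_filter] at h2
      convert h2.2 using 1
      funext i
      rw [Function.comp_apply, hm i, Sum.elim_inl]
      have h4 := hj i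
      rw [Prod.mk.injEq] at h4
      simp only at h4
      rw [Function.comp_apply, ← h4.2]

private abbrev NJ (q r : ℕ) : Type :=
  {π : Bool → Finset (Fin r → Fin q) // GoodIdx π ∧ ∀ b, ∀ ω ∈ π b, Function.Injective ω} ×
    (Fin r → Bool) × (Bool → Fin r)

private noncomputable instance NJ_fintype (q r : ℕ) : Fintype (NJ q r) := Fintype.ofFinite _

open Classical in
private lemma N9_omega {V : Type} [Fintype V] [DecidableEq V] {r q : ℕ} (hq : r ≤ q)
    (hV : 0 < Fintype.card V) {α : ℝ} (hα : 0 < α) (K₁ K : Bool → Finset (Fin r → V))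
    (ι : Bool → Fin r) (T : Fin r → V) (bb : Fin r → Bool)
    (hbb : ∀ k, α * (Fintype.card V : ℝ) ^ r ≤
        (((K₁ (bb k)).filter fun x => Function.update x (ι (bb k)) (T k) ∈ K₁ (bb k)).card : ℝ))
    (hgood : cnt (fun Q : Fin q → V => ¬ GoodIdx (patt K Q)) ≤
      α ^ r / 2 * (Fintype.card V : ℝ) ^ q) :
    ∃ (π : Bool → Finset (Fin r → Fin q)) (Ωπ : Finset ((Fin q ⊕ (Fin r × Fin r)) → V)),
      α ^ r / 2 / Fintype.card (Bool → Finset (Fin r → Fin q)) *
        (Fintype.card V : ℝ) ^ Fintype.card (Fin q ⊕ (Fin r × Fin r)) ≤ (Ωπ.card : ℝ) ∧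
      ∀ Z ∈ Ωπ, (∀ k, Function.update (fun i => Z (Sum.inr (k, i))) (ι (bb k))
          (Z (Sum.inl (Fin.castLE hq k))) ∈ K₁ (bb k) ∧
        Function.update (fun i => Z (Sum.inr (k, i))) (ι (bb k)) (T k) ∈ K₁ (bb k)) ∧
        GoodIdx (patt K (fun x => Z (Sum.inl x))) ∧ patt K (fun x => Z (Sum.inl x)) = π := by
  have hn0 : (0 : ℝ) < Fintype.card V := by exact_mod_cast hV
  have hcardI : Fintype.card (Fin q ⊕ (Fin r × Fin r)) = q + r * r := by
    simp only [Fintype.card_sum, Fintype.card_prod, Fintype.card_fin]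
  obtain ⟨G, hGd⟩ : ∃ G : Fin r → Finset (V × (Fin r → V)), ∀ k, G k = univ.filter fun p =>
    Function.update p.2 (ι (bb k)) p.1 ∈ K₁ (bb k) ∧
      Function.update p.2 (ι (bb k)) (T k) ∈ K₁ (bb k) := ⟨_, fun _ => rfl⟩
  have hG : ∀ k, α * (Fintype.card V : ℝ) ^ (r + 1) ≤ ((G k).card : ℝ) := by
    intro k
    have h1 := N9_G (K₁ (bb k)) (ι (bb k)) (T k)
    have h2 := hbb k
    have h3 : (((K₁ (bb k)).filter fun x => Function.update x (ι (bb k)) (T k) ∈
        K₁ (bb k)).card : ℝ) * Fintype.card V ≤ ((G k).card : ℝ) := by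
      rw [← Nat.cast_mul, hGd]
      exact Nat.cast_le.2 h1
    refine le_trans ?_ h3
    rw [pow_succ, ← mul_assoc]
    exact mul_le_mul_of_nonneg_right h2 hn0.le
  obtain ⟨Ω0, hΩ0d⟩ : ∃ Ω0 : Finset ((Fin q ⊕ (Fin r × Fin r)) → V),
    Ω0 = univ.filter fun Z => ∀ k,
      (Z (Sum.inl (Fin.castLE hq k)), fun i => Z (Sum.inr (k, i))) ∈ G k := ⟨_, rfl⟩
  have hΩ0 : α ^ r * (Fintype.card V : ℝ) ^ (q + r * r) ≤ (Ω0.card : ℝ) := by
    have h1 := N9_prod hq G
    have h2 : (∏ k, ((G k).card : ℝ)) * (Fintype.card V : ℝ) ^ (q - r) ≤ (Ω0.card : ℝ) := by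
      rw [← Nat.cast_prod, ← Nat.cast_pow, ← Nat.cast_mul, hΩ0d]
      exact Nat.cast_le.2 h1
    refine le_trans ?_ h2
    have h3 : ∏ _k : Fin r, (α * (Fintype.card V : ℝ) ^ (r + 1)) ≤ ∏ k, ((G k).card : ℝ) :=
      prod_le_prod (fun _ _ => by positivity) (fun k _ => hG k)
    rw [prod_const, card_univ, Fintype.card_fin] at h3
    refine le_trans (le_of_eq ?_) (mul_le_mul_of_nonneg_right h3 (by positivity))
    rw [mul_pow, ← pow_mul, mul_assoc, ← pow_add]
    congr 2
    have : (r + 1) * r = r * r + r := by ring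
    omega
  obtain ⟨Bd, hBdd⟩ : ∃ Bd : Finset ((Fin q ⊕ (Fin r × Fin r)) → V),
    Bd = univ.filter fun Z => ¬ GoodIdx (patt K (fun x => Z (Sum.inl x))) := ⟨_, rfl⟩
  have hBd : (Bd.card : ℝ) ≤ α ^ r / 2 * (Fintype.card V : ℝ) ^ (q + r * r) := by
    rw [hBdd]
    refine (N9_bad (r := r) (fun Q : Fin q → V => ¬ GoodIdx (patt K Q))).trans ?_
    rw [pow_add, ← mul_assoc]
    exact mul_le_mul_of_nonneg_right hgood (by positivity)
  have hΩ : α ^ r / 2 * (Fintype.card V : ℝ) ^ (q + r * r) ≤ ((Ω0 \ Bd).card : ℝ) := by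
    have h0 : Ω0.card ≤ (Ω0 \ Bd).card + Bd.card := by
      have := le_card_sdiff Bd Ω0
      omega
    have h1 : (Ω0.card : ℝ) ≤ ((Ω0 \ Bd).card : ℝ) + Bd.card := by
      rw [← Nat.cast_add]
      exact Nat.cast_le.2 h0
    linarith
  have hne : Nonempty (Bool → Finset (Fin r → Fin q)) := ⟨fun _ => ∅⟩
  obtain ⟨π, hπ⟩ := N9_pigeon (Ω0 \ Bd) (fun Z : (Fin q ⊕ (Fin r × Fin r)) → V =>
    patt K (fun x => Z (Sum.inl x))) _ hΩ
  obtain ⟨Ωπ, hΩπ⟩ : ∃ Ωπ : Finset ((Fin q ⊕ (Fin r × Fin r)) → V),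
    Ωπ = (Ω0 \ Bd).filter fun Z => patt K (fun x => Z (Sum.inl x)) = π := ⟨_, rfl⟩
  rw [← hΩπ] at hπ
  refine ⟨π, Ωπ, ?_, ?_⟩
  · refine le_trans (le_of_eq ?_) hπ
    rw [hcardI]
    ring
  · intro Z hZ
    rw [hΩπ, mem_filter, mem_sdiff, hΩ0d, hBdd, mem_filter, mem_filter] at hZ
    refine ⟨fun k => ?_, ?_, hZ.2⟩
    · have h1 := hZ.1.1.2 k
      rw [hGd, mem_filter] at h1
      exact h1.2
    · by_contra hcon
      exact hZ.1.2 ⟨mem_univ _, hcon⟩

open Classical in
theorem absorber_count (r : ℕ) (hr : 2 ≤ r) (α ε₁ β ρ s : ℝ) (hα : 0 < α) (hα1 : α ≤ 1)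
    (hε₁ : 0 < ε₁) (hβ : 0 < β) (hβ1 : β ≤ 1) (hρ : 0 < ρ) (hs : 0 < s) (k : ℕ) (hk : 1 ≤ k) :
    ∃ (H J : Type) (_ : Fintype H) (_ : DecidableEq H) (_ : Fintype J) (tm : J → Template r H)
      (c₁ : ℝ), 0 < c₁ ∧ ∀ (V : Type) [Fintype V] [DecidableEq V], 0 < Fintype.card V →
      ∀ (A K₁ K : Bool → Finset (Fin r → V)) (ι : Bool → Fin r),
      (∀ b, A b ⊆ K₁ b) → (∀ b, K₁ b ⊆ K b) → (∀ b, ∀ x ∈ K b, Function.Injective x) →
      Interior (α / (2 * r ^ 2)) ε₁ β A → Att α K₁ ι → HasAdj ρ A → RichWalks s k K₁ K →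
      ∀ T : Fin r → V, c₁ * (Fintype.card V : ℝ) ^ Fintype.card H ≤
        ((univ.filter fun p : J × (H → V) => CoreAbs K (tm p.1) p.2 T).card : ℝ) := by
  have hr1 : 1 ≤ r := by omega
  have hαr : 0 < α ^ r := by positivity
  obtain ⟨q, hq, hgood⟩ := good_sample r hr α ε₁ β ρ s (α ^ r / 2) hα hα1 hε₁ hβ hβ1 hρ hs
    (by positivity) k hk
  have htemp := fun j : NJ q r => exists_template hr1 hq j.1.1 j.1.2.2 j.1.2.1 j.2.1 j.2.2
  choose M₀ hM₀ using htemp
  obtain ⟨M, hM1, hMM⟩ : ∃ M : ℕ, 1 ≤ M ∧ ∀ j, M₀ j ≤ M :=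
    ⟨max 1 (univ.sup M₀), le_max_left _ _, fun j => (le_sup (mem_univ j)).trans (le_max_right _ _)⟩
  choose tm htm1 htm2 using fun j : NJ q r => hM₀ j M (hMM j)
  have hPat : (0 : ℝ) < Fintype.card (Bool → Finset (Fin r → Fin q)) :=
    Nat.cast_pos.2 (Fintype.card_pos_iff.2 ⟨fun _ => ∅⟩)
  obtain ⟨δ₁, hδ₁⟩ : ∃ δ₁ : ℝ, δ₁ = α ^ r / 2 /
    Fintype.card (Bool → Finset (Fin r → Fin q)) := ⟨_, rfl⟩
  have hδ₁0 : 0 < δ₁ := by rw [hδ₁]; exact div_pos (by positivity) hPat
  refine ⟨(Fin q ⊕ (Fin r × Fin r)) × Fin M, NJ q r, instFintypeProd _ _, instDecidableEqProd,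
    NJ_fintype q r, tm, δ₁ ^ (M ^ Fintype.card (Fin q ⊕ (Fin r × Fin r))), pow_pos hδ₁0 _, ?_⟩
  intro V _ _ hV A K₁ K ι hA hK₁ hKinj hInt hAtt hAdj hRich T
  have hn0 : (0 : ℝ) < Fintype.card V := by exact_mod_cast hV
  choose bb0 hbb0 using hAtt
  obtain ⟨π, Ωπ, hπ', hmem⟩ := N9_omega hq hV hα K₁ K ι T (fun k => bb0 (T k))
    (fun k => hbb0 (T k)) (hgood V hV A K₁ K hA hK₁ hKinj hInt
      (deg_of_att hr1 hV (fun t => ⟨bb0 t, hbb0 t⟩)) hAdj hRich)
  rw [← hδ₁] at hπ'
  have hpos : 0 < Ωπ.card := by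
    have : (0 : ℝ) < Ωπ.card := lt_of_lt_of_le (mul_pos hδ₁0 (pow_pos hn0 _)) hπ'
    exact Nat.cast_pos.1 this
  obtain ⟨Z0, hZ0⟩ := card_pos.1 hpos
  have hπgood : GoodIdx π := by
    have h1 := hmem Z0 hZ0
    rw [← h1.2.2]
    exact h1.2.1
  have hπinj : ∀ b, ∀ ω ∈ π b, Function.Injective ω := by
    intro b ω hω
    have h1 := hmem Z0 hZ0
    rw [← h1.2.2] at hω
    unfold patt at hω
    rw [mem_filter] at hω
    exact Function.Injective.of_comp (hKinj b _ hω.2)
  have hblow := blow_idx hV M Ωπ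
  have hlow : δ₁ ^ (M ^ Fintype.card (Fin q ⊕ (Fin r × Fin r))) *
      (Fintype.card V : ℝ) ^ Fintype.card ((Fin q ⊕ (Fin r × Fin r)) × Fin M) ≤
      ((Ωπ.card : ℝ) / (Fintype.card V : ℝ) ^ Fintype.card (Fin q ⊕ (Fin r × Fin r))) ^
        (M ^ Fintype.card (Fin q ⊕ (Fin r × Fin r))) *
        (Fintype.card V : ℝ) ^ (Fintype.card (Fin q ⊕ (Fin r × Fin r)) * M) := by
    rw [Fintype.card_prod (Fin q ⊕ (Fin r × Fin r)), Fintype.card_fin M]
    refine mul_le_mul_of_nonneg_right (pow_le_pow_left₀ hδ₁0.le ?_ _) (pow_pos hn0 _).le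
    rw [le_div_iff₀ (pow_pos hn0 _)]
    exact hπ'
  have hlb := hlow.trans hblow
  refine le_trans hlb ?_
  refine Nat.cast_le.2 (card_le_card_of_injOn (fun U =>
    (((⟨π, hπgood, hπinj⟩, (fun k => bb0 (T k)), ι) : NJ q r), U)) ?_ ?_)
  · intro U hU
    rw [coe_filter, Set.mem_ofPred_eq] at hU
    rw [coe_filter, Set.mem_ofPred_eq]
    refine ⟨mem_univ _, ?_⟩
    refine N9_core hM1 hq K₁ K hK₁ π hπinj (fun k => bb0 (T k)) ι T _ (htm1 _) (htm2 _) U ?_
    intro j
    have h1 := hmem _ (hU.2 j)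
    exact ⟨h1.1, h1.2.2⟩
  · intro U _ U' _ h
    exact congrArg Prod.snd h

end Pool.Agent.Lib.TwoPaths
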