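import Pool.Agent.Lib.TwoPaths.N1
import Pool.Agent.Lib.TwoPaths.N2
import Pool.Agent.Lib.TwoPaths.N3
import Pool.Agent.Lib.TwoPaths.N5
import Pool.Agent.Lib.TwoPaths.N9
import Pool.Agent.Lib.TwoPaths.M9

/-!
# N10: the interior case

CONSTANTS.  WLOG `ρ ≤ 1`.  `α = alp r ρ` (`0 < α ≤ 1`), `η = α/(2r²)`.  Given `ε₁, β, cc, l` (WLOG `β ≤ 1`):
`k1_conn r cc ρ α l` gives `cc'`; `lam = 2l+2`; `rich_walks r lam cc' ρ` gives `s`; `lam' = 2 lam + 1`,
`k = 2 lam - 1`; `absorber_count r α ε₁ β ρ s k` gives `H, J, tm, c₁`; `robust_off r α ε₁ β` gives `θ`;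
`master r lam' s θ c₁ H J tm` gives `θ₀, κ`; `robust_off` for `κ` gives `β'`; `master` for `β'` gives `n₀`;
increase `n₀` for `attach` and for the estimates below.

PROOF.  `col b = if b then κ₀ else !κ₀`.  `attach` gives `ι`.  `K₁ b = A b ∪ Aplus α c (col b) (A b)`.
`Att α K₁ ι` by `attach` (`A b ⊆ K₁ b`), hence `Deg α K₁` (`deg_of_att`).  `|K₁ b| ≥ |A b| ≥ ρ n^r`
(`card_of_adj`).  `k1_conn` (for `Ab = A b`), then `rich_walks` for `A₁ = K₁ b`; `K b = Kset s lam' c (col b) (K₁ b)`.
`P = fun _ => True`; `RAdj c P` is `Adj c` and `RM (RAdj c P) = AM r c`.  We apply `master` with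
`A := K₁`, `K := K`, `wt = 0`:
 * `K₁ b ⊆ K b` and the walk bounds between members of `K₁ b`: `rich_walks`;
   the bound from `K b` to `K₁ b` is the definition of `Kset`;
 * absorbers: `absorber_count` (`RichWalks s k K₁ K` by `rich_walks`; all tuples of `K b` are injective);
 * robustness: `robust_off`;
 * the partition property (last hypothesis) for `wt = 0`: a finite set of size divisible by `r` is
   the set of entries of a list of injective tuples (`Finset.toList` cut into pieces).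
Choice of `z, F0`: let `z ∈ K₁ true` and let `y` be a tuple with `Adj c z y` and `y j ≠ z i` for all
`i, j`: it exists since `(AM^lam') z z ≥ s n^(r(lam'-1))` implies that `z` has at least `s n^r`
neighbours, and at most `r² n^(r-1)` tuples meet the entries of `z`.  Let `ρ₀ = n mod r`,
`F0 = {z i} ∪ {y j | j < ρ₀}`, `|F0| = r + ρ₀`, `r ∣ |F0ᶜ|`, `|F0| ≤ 2 r ≤ θ₀ n`.
`master` gives `Q`.  The path of colour `col true = κ₀` is `vs (Q true ++ [z]) ++ (List.ofFn y).take ρ₀`,
the path of colour `!κ₀` is `vs (Q false)`: `mono_path_of_chain`, `padj_of_adj`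
(all tuples of `Q true ++ [z]` have colour `κ₀`; `z ∈ K₁ true`).  Together they list every vertex exactly once.
-/

namespace Pool.Agent.Lib.TwoPaths

open Finset
open Pool.Agent.Lib.MP_952639_co

private lemma exists_tuples {V : Type} [DecidableEq V] {r : ℕ} : ∀ (q : ℕ) (X : Finset V),
    X.card = r * q → ∃ L : List (Fin r → V), (vs L).Nodup ∧ ∀ v, v ∈ vs L ↔ v ∈ X := by
  intro q
  induction q with
  | zero =>
    intro X hX
    rw [mul_zero, Finset.card_eq_zero] at hX
    subst hX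
    exact ⟨[], by simp, by simp⟩
  | succ q ih =>
    intro X hX
    have hXr : r ≤ X.card := by rw [hX]; exact Nat.le_mul_of_pos_right _ (Nat.succ_pos q)
    obtain ⟨T, hTX, hT⟩ := Finset.exists_subset_card_eq hXr
    obtain ⟨L, hL, hLm⟩ := ih (X \ T) (by
      rw [Finset.card_sdiff_of_subset hTX, hX, hT, Nat.mul_succ, Nat.add_sub_cancel])
    set e := T.equivFinOfCardEq hT
    set x : Fin r → V := fun j => (e.symm j : V) with hx
    have hxi : Function.Injective x := by
      intro a b hab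
      exact e.symm.injective (Subtype.ext hab)
    have hxm : ∀ v, v ∈ List.ofFn x ↔ v ∈ T := by
      intro v
      rw [List.mem_ofFn]
      constructor
      · rintro ⟨j, rfl⟩
        exact (e.symm j).2
      · intro hv
        exact ⟨e ⟨v, hv⟩, by simp [hx]⟩
    have hvs : vs (x :: L) = List.ofFn x ++ vs L := by simp [vs]
    refine ⟨x :: L, ?_, ?_⟩
    · rw [hvs, List.nodup_append']
      refine ⟨List.nodup_ofFn.mpr hxi, hL, ?_⟩
      intro v hv hv'
      exact (Finset.mem_sdiff.mp ((hLm v).mp hv')).2 ((hxm v).mp hv)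
    · intro v
      rw [hvs, List.mem_append, hxm, hLm, Finset.mem_sdiff]
      constructor
      · rintro (h | h)
        · exact hTX h
        · exact h.1
      · intro h
        by_cases hT' : v ∈ T
        · exact Or.inl hT'
        · exact Or.inr ⟨h, hT'⟩

private lemma rm_true {V : Type} [Fintype V] [DecidableEq V] {r : ℕ} (c : Finset V → Bool) :
    RM (RAdj (r := r) c (fun _ => True)) = AM r c := by
  classical
  funext x y
  unfold RM AM RAdj
  simp

/-- A neighbour of `z` which is disjoint from `z`. -/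
private lemma exists_nbr {V : Type} [Fintype V] [DecidableEq V] {r : ℕ} (hr : 1 ≤ r)
    (hV : 0 < Fintype.card V) (c : Finset V → Bool) (z : Fin r → V) (s : ℝ) (m : ℕ)
    (h : s * (Fintype.card V : ℝ) ^ (r * (m + 1)) ≤ (AM r c ^ (m + 2)) z z)
    (hbig : (r : ℝ) ^ 2 < s * Fintype.card V) :
    ∃ y, Adj c z y ∧ ∀ i j, y j ≠ z i := by
  classical
  have hn : (0 : ℝ) < Fintype.card V := by exact_mod_cast hV
  set N : ℝ := (Fintype.card V : ℝ) ^ r with hN
  have hNpos : 0 < N := by positivity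
  have h1 : (AM r c ^ (m + 2)) z z ≤
      ((univ.filter fun y => Adj c z y).card : ℝ) * N ^ m := by
    rw [show m + 2 = (m + 1) + 1 by ring, pow_succ', Matrix.mul_apply]
    have h2 : ∀ y : Fin r → V, AM r c z y * (AM r c ^ (m + 1)) y z ≤
        (if Adj c z y then N ^ m else 0) := by
      intro y
      by_cases hy : Adj c z y
      · rw [if_pos hy, AM_eq_one hy, one_mul]
        exact AMpow_le m y z
      · rw [if_neg hy]
        unfold AM
        rw [if_neg hy, zero_mul]
    refine (sum_le_sum fun y _ => h2 y).trans ?_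
    rw [← sum_filter, sum_const, nsmul_eq_mul]
  have h3 : s * N ≤ ((univ.filter fun y => Adj c z y).card : ℝ) := by
    have h4 : s * N * N ^ m ≤ ((univ.filter fun y => Adj c z y).card : ℝ) * N ^ m := by
      refine le_trans (le_of_eq ?_) (h.trans h1)
      rw [pow_mul, hN]; ring
    exact le_of_mul_le_mul_right h4 (by positivity)
  have h5 := card_touch (r := r) (univ.image z)
  have hc : ((univ.image z).card : ℝ) ≤ r := by
    have := Finset.card_image_le (s := (univ : Finset (Fin r))) (f := z)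
    rw [Finset.card_univ, Fintype.card_fin] at this
    exact_mod_cast this
  by_contra hcon
  push Not at hcon
  have h6 : ((univ.filter fun y => Adj c z y).card : ℝ) ≤
      ((univ.filter fun w : Fin r → V => ∃ i, w i ∈ univ.image z).card : ℝ) := by
    exact_mod_cast card_le_card (fun y hy => by
      simp only [mem_filter, mem_univ, true_and] at hy ⊢
      obtain ⟨i, j, hij⟩ := hcon y hy
      exact ⟨j, by rw [hij]; exact mem_image_of_mem _ (mem_univ _)⟩)
  have h7 : s * N * Fintype.card V ≤ (r : ℝ) * r * N := by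
    calc s * N * Fintype.card V ≤
        ((univ.filter fun w : Fin r → V => ∃ i, w i ∈ univ.image z).card : ℝ) * Fintype.card V :=
          mul_le_mul_of_nonneg_right (h3.trans h6) hn.le
      _ ≤ r * ((univ.image z).card : ℝ) * N := h5
      _ ≤ (r : ℝ) * r * N := by gcongr
  have h8 : s * Fintype.card V * N ≤ (r : ℝ) ^ 2 * N := by nlinarith
  have h9 := le_of_mul_le_mul_right h8 hNpos
  linarith

private lemma hasAdj_mono {V : Type*} [Fintype V] [DecidableEq V] {r : ℕ} {ρ ρ' : ℝ}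
    (h : ρ' ≤ ρ) {A : Bool → Finset (Fin r → V)} (hA : HasAdj ρ A) : HasAdj ρ' A := by
  obtain ⟨τ, i, h1⟩ := hA
  exact ⟨τ, i, (mul_le_mul_of_nonneg_right h (by positivity)).trans h1⟩

private lemma chain_padj' {V : Type} [DecidableEq V] {r : ℕ} {c : Finset V → Bool} {κ : Bool}
    {L : List (Fin r → V)} (h : L.IsChain (Adj c)) (hc : ∀ x ∈ L, Col c κ x) :
    L.IsChain (PAdj c κ) :=
  List.IsChain.imp_of_mem_imp (fun x _ hx _ hxy => padj_of_adj hxy (hc x hx)) h

theorem interior_case (r : ℕ) (hr : 2 ≤ r) (ρ : ℝ) (hρ : 0 < ρ) :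
    ∃ η : ℝ, 0 < η ∧ ∀ (ε₁ β cc : ℝ) (l : ℕ), 0 < ε₁ → 0 < β → 0 < cc → 1 ≤ l → ∃ n₀ : ℕ,
      ∀ (V : Type) [Fintype V] [DecidableEq V], n₀ ≤ Fintype.card V →
      ∀ (c : Finset V → Bool) (A : Bool → Finset (Fin r → V)) (κ₀ : Bool),
      (∀ b, ∀ x ∈ A b, Col c (if b then κ₀ else !κ₀) x) →
      (∀ b, ∀ x ∈ A b, ∀ y ∈ A b,
        cc * (Fintype.card V : ℝ) ^ (r * (l - 1)) ≤ (AM r c ^ l) x y) →
      HasAdj ρ A → Interior η ε₁ β A →
      ∃ P Q : List V, MonoPath r c κ₀ P ∧ MonoPath r c (!κ₀) Q ∧ (P ++ Q).Nodup ∧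
        ∀ v, v ∈ P ++ Q := by
  classical
  have hr1 : 1 ≤ r := by omega
  have hrR : (2 : ℝ) ≤ r := by exact_mod_cast hr
  set ρ' := min ρ 1 with hρ'd
  have hρ' : 0 < ρ' := lt_min hρ one_pos
  have hρ'1 : ρ' ≤ 1 := min_le_right _ _
  have hα : 0 < alp r ρ' := by unfold alp; positivity
  have hα1 : alp r ρ' ≤ 1 := by
    unfold alp
    have : (ρ' / 3) ^ (2 ^ r) ≤ 1 := pow_le_one₀ (by positivity) (by linarith)
    linarith
  refine ⟨alp r ρ' / (2 * r ^ 2), by positivity, ?_⟩
  intro ε₁ β cc l hε₁ hβ hcc hl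
  set β' := min β 1 with hβ'd
  have hβ' : 0 < β' := lt_min hβ one_pos
  obtain ⟨cc', hcc', hk1⟩ := k1_conn r hr1 cc ρ' (alp r ρ') hcc hρ' hα l hl
  obtain ⟨s, hs, hrw⟩ := rich_walks r hr1 (2 * l + 2) (by omega) cc' ρ' hcc' hρ'
  obtain ⟨H, J, iH, iDH, iJ, tm, c₁, hc₁, hab⟩ := absorber_count r hr (alp r ρ') ε₁ β' ρ' s hα hα1
    hε₁ hβ' (min_le_right _ _) hρ' hs (2 * (2 * l + 2) - 1) (by omega)
  obtain ⟨θ, hθ, hrob⟩ := robust_off r hr (alp r ρ') ε₁ β' hα hε₁ hβ'
  obtain ⟨θ₀, κ, hθ₀, hκ, hκr, hM⟩ := master r hr1 (2 * (2 * l + 2) + 1) (by omega) s θ c₁ hs hθ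
    hc₁ H J tm
  obtain ⟨β₂, hβ₂, hrob⟩ := hrob κ hκ hκr
  obtain ⟨n₁, hM⟩ := hM β₂ hβ₂
  obtain ⟨n₂, hatt⟩ := attach r hr ρ' hρ'
  obtain ⟨n₃, hn₃⟩ := exists_nat_gt ((r : ℝ) ^ 2 / s)
  obtain ⟨n₄, hn₄⟩ := exists_nat_gt (2 * (r : ℝ) / θ₀)
  refine ⟨max (max n₁ n₂) (max (max n₃ n₄) 1), ?_⟩
  intro V _ _ hV c A κ₀ hcol hwalk hadj hint
  have hV1 : n₁ ≤ Fintype.card V := (le_max_left _ _).trans ((le_max_left _ _).trans hV)
  have hV2 : n₂ ≤ Fintype.card V := (le_max_right _ _).trans ((le_max_left _ _).trans hV)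
  have hV3 : n₃ ≤ Fintype.card V :=
    (le_max_left _ _).trans ((le_max_left _ _).trans ((le_max_right _ _).trans hV))
  have hV4 : n₄ ≤ Fintype.card V :=
    (le_max_right _ _).trans ((le_max_left _ _).trans ((le_max_right _ _).trans hV))
  have hV0 : 0 < Fintype.card V := (le_max_right _ _).trans ((le_max_right _ _).trans hV)
  have hnR : (0 : ℝ) < Fintype.card V := by exact_mod_cast hV0
  have hbig3 : (r : ℝ) ^ 2 < s * Fintype.card V := by
    rw [div_lt_iff₀ hs] at hn₃
    have : (n₃ : ℝ) ≤ Fintype.card V := by exact_mod_cast hV3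
    nlinarith
  have hbig4 : 2 * (r : ℝ) ≤ θ₀ * Fintype.card V := by
    rw [div_lt_iff₀ hθ₀] at hn₄
    have : (n₄ : ℝ) ≤ Fintype.card V := by exact_mod_cast hV4
    nlinarith
  have hadj' : HasAdj ρ' A := hasAdj_mono (min_le_left _ _) hadj
  have hint' : Interior (alp r ρ' / (2 * r ^ 2)) ε₁ β' A := by
    intro lf h1 h2 h3 h4
    exact (mul_le_mul_of_nonneg_right (min_le_left _ _) (by positivity)).trans
      (hint lf h1 h2 h3 h4)
  set col : Bool → Bool := fun b => if b then κ₀ else !κ₀ with hcold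
  set K₁ : Bool → Finset (Fin r → V) := fun b => A b ∪ Aplus (alp r ρ') c (col b) (A b) with hK₁
  set K : Bool → Finset (Fin r → V) :=
    fun b => Kset s (2 * (2 * l + 2) + 1) c (col b) (K₁ b) with hK
  have hAK₁ : ∀ b, A b ⊆ K₁ b := fun b => subset_union_left
  have hK₁col : ∀ b, ∀ x ∈ K₁ b, Col c (col b) x := by
    intro b x hx
    rcases mem_union.mp hx with h | h
    · exact hcol b x h
    · unfold Aplus at h
      exact (mem_filter.mp h).2.1
  have hcardA : ∀ b, ρ' * (Fintype.card V : ℝ) ^ r ≤ (A b).card := fun b =>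
    card_of_adj hV0 hadj' b
  have hcardK₁ : ∀ b, ρ' * (Fintype.card V : ℝ) ^ r ≤ (K₁ b).card := fun b =>
    (hcardA b).trans (by exact_mod_cast card_le_card (hAK₁ b))
  have hw1 : ∀ b, ∀ u ∈ K₁ b, ∀ w ∈ K₁ b,
      cc' * (Fintype.card V : ℝ) ^ (r * (2 * l + 1)) ≤ (AM r c ^ (2 * l + 2)) u w := fun b =>
    hk1 V hV0 c (col b) (A b) (hcol b) (hcardA b) (hwalk b)
  have hR := fun b => hrw V hV0 c (col b) (K₁ b) (hK₁col b) (hcardK₁ b) (hw1 b)
  have hK₁K : ∀ b, K₁ b ⊆ K b := fun b => (hR b).1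
  have hKcol : ∀ b, ∀ x ∈ K b, Col c (col b) x := by
    intro b x hx
    simp only [hK] at hx
    unfold Kset at hx
    exact (mem_filter.mp hx).2.1
  obtain ⟨ι, hι⟩ := hatt V hV2 c A κ₀ hcol hadj'
  have hAtt : Att (alp r ρ') K₁ ι := by
    intro t
    obtain ⟨b, hb⟩ := hι t
    refine ⟨b, hb.trans ?_⟩
    exact_mod_cast card_le_card (fun x hx => by
      rw [mem_filter] at hx ⊢
      exact ⟨hAK₁ b hx.1, mem_union_right _ hx.2⟩)
  have hDeg : Deg (alp r ρ') K₁ := deg_of_att hr1 hV0 hAtt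
  have hRW : RichWalks s (2 * (2 * l + 2) - 1) K₁ K := by
    intro b u hu w hw
    exact (hR b).2.2 u hu w hw
  -- choice of the suffix
  have hne : (K₁ true).Nonempty := by
    rw [← card_pos]
    have h1 : (0 : ℝ) < ρ' * (Fintype.card V : ℝ) ^ r := by positivity
    exact_mod_cast h1.trans_le (hcardK₁ true)
  obtain ⟨z, hz⟩ := hne
  have hzcol := hK₁col true z hz
  obtain ⟨y, hzy, hyz⟩ := exists_nbr hr1 hV0 c z s (4 * l + 3) (by
      have h1 := (hR true).2.1 z hz z hz
      have e1 : 2 * (2 * l + 2) = 4 * l + 3 + 1 := by ring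

      rw [e1] at h1
      exact h1) hbig3
  set ρ₀ := Fintype.card V % r with hρ₀
  have hρ₀r : ρ₀ < r := Nat.mod_lt _ (by omega)
  set t : List V := (List.ofFn y).take ρ₀ with ht
  have htlen : t.length = ρ₀ := by
    rw [ht, List.length_take, List.length_ofFn]; omega
  have hzi : Function.Injective z := hzcol.1
  have hyi : Function.Injective y := Adj.right_inj hzy
  have hztnd : (List.ofFn z ++ t).Nodup := by
    rw [List.nodup_append']
    refine ⟨List.nodup_ofFn.mpr hzi, (List.nodup_ofFn.mpr hyi).sublist (List.take_sublist _ _), ?_⟩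
    intro v hv hv'
    rw [List.mem_ofFn] at hv
    obtain ⟨i, rfl⟩ := hv
    have h2 := List.mem_of_mem_take hv'
    rw [List.mem_ofFn] at h2
    obtain ⟨j, hj⟩ := h2
    exact hyz i j hj
  set F0 : Finset V := (List.ofFn z ++ t).toFinset with hF0
  have hF0card : F0.card = r + ρ₀ := by
    rw [hF0, List.toFinset_card_of_nodup hztnd, List.length_append, List.length_ofFn, htlen]
  have hnge : r + ρ₀ ≤ Fintype.card V := by
    rw [← hF0card]; exact card_le_univ _
  have hF0c : F0ᶜ.card = Fintype.card V - (r + ρ₀) := by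
    rw [card_compl, hF0card]
  have hdvd : r ∣ F0ᶜ.card := by
    rw [hF0c]
    have h1 : Fintype.card V = r * (Fintype.card V / r) + ρ₀ := (Nat.div_add_mod _ _).symm
    refine ⟨Fintype.card V / r - 1, ?_⟩
    rw [Nat.mul_sub, mul_one]
    omega
  have hF0le : (F0.card : ℝ) ≤ θ₀ * Fintype.card V := by
    refine le_trans ?_ hbig4
    rw [hF0card]
    have : r + ρ₀ ≤ 2 * r := by omega
    exact_mod_cast this
  obtain ⟨Q, hQ1, hQ2, hQcol, _, hQnd, hQmem⟩ := hM V hV1 c (fun _ => True) (fun _ => 0) K₁ K col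
    F0 z (fun x _ => by simp) hK₁K (fun b x hx => ⟨hKcol b x hx, trivial⟩)
    (by
      intro b x hx y hy
      rw [rm_true]
      exact (hR b).2.1 x hx y hy)
    (by
      intro b x hx
      rw [rm_true]
      simp only [hK] at hx
      unfold Kset at hx
      exact (mem_filter.mp hx).2.2)
    (by
      intro T _ _ _
      exact hab V hV0 A K₁ K ι hAK₁ hK₁K (fun b x hx => (hKcol b x hx).1) hint' hAtt hadj' hRW T)
    hF0le hz
    (by
      intro i
      rw [hF0, List.mem_toFinset]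
      exact List.mem_append_left _ ((List.mem_ofFn).mpr ⟨i, rfl⟩))
    (fun W _ hW _ => hrob V hV0 A K₁ hAK₁ hint' hDeg W hW)
    (by simp) hdvd
    (by
      intro X _ hX _
      obtain ⟨q, hq⟩ := hX
      obtain ⟨L, hL1, hL2⟩ := exists_tuples q X hq
      exact ⟨L, hL1, hL2, fun T _ => by simp⟩)
  have hvs1 : vs (Q true ++ [z]) = vs (Q true) ++ List.ofFn z := by simp [vs]
  have hvs2 : vs (Q true ++ Q false) = vs (Q true) ++ vs (Q false) := List.flatMap_append
  rw [hvs2] at hQnd hQmem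
  have hdisj : ∀ v ∈ vs (Q true) ++ vs (Q false), v ∉ List.ofFn z ++ t := by
    intro v hv h
    exact (hQmem v).mp hv (List.mem_toFinset.mpr h)
  have hall : ((vs (Q true ++ [z]) ++ t) ++ vs (Q false)).Nodup := by
    have h1 : ((vs (Q true) ++ vs (Q false)) ++ (List.ofFn z ++ t)).Nodup := by
      rw [List.nodup_append']
      exact ⟨hQnd, hztnd, fun v hv hv' => hdisj v hv hv'⟩
    have h2 : ((vs (Q true ++ [z]) ++ t) ++ vs (Q false)).Perm
        ((vs (Q true) ++ vs (Q false)) ++ (List.ofFn z ++ t)) := by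
      rw [hvs1, List.append_assoc, List.append_assoc, List.append_assoc]
      refine List.Perm.append_left _ ?_
      rw [← List.append_assoc]
      exact List.perm_append_comm
    exact (h2.nodup_iff).mpr h1
  have hRcol : ∀ x ∈ Q true ++ [z], Col c κ₀ x := by
    intro x hx
    rcases List.mem_append.mp hx with h | h
    · exact hQcol true x h
    · rw [List.mem_singleton] at h
      rw [h]; exact hzcol
  refine ⟨vs (Q true ++ [z]) ++ t, vs (Q false), ?_, ?_, hall, ?_⟩
  · refine mono_path_of_chain hr1 (chain_padj' hQ1 hRcol) hRcol (by rw [htlen]; exact hρ₀r) ?_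
      hall.of_append_left
    exact Or.inr (Or.inr ⟨Q true, z, y, rfl, padj_of_adj hzy hzcol, by rw [htlen]⟩)
  · have hBcol : ∀ x ∈ Q false, Col c (!κ₀) x := fun x hx => hQcol false x hx
    have h1 := mono_path_of_chain (t := []) hr1 (chain_padj' hQ2 hBcol) hBcol
      (by simp; omega) (Or.inl rfl) (by rw [List.append_nil]; exact hall.of_append_right)
    rwa [List.append_nil] at h1
  · intro v
    by_cases hv : v ∈ F0
    · rw [hF0, List.mem_toFinset] at hv
      refine List.mem_append_left _ ?_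
      rw [hvs1, List.append_assoc]
      exact List.mem_append_right _ hv
    · rcases List.mem_append.mp ((hQmem v).mpr hv) with h | h
      · refine List.mem_append_left _ (List.mem_append_left _ ?_)
        rw [hvs1]
        exact List.mem_append_left _ h
      · exact List.mem_append_right _ h

end Pool.Agent.Lib.TwoPaths
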