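import Pool.Agent.Lib.TwoPaths.XDefs

/-!
# X10: arithmetic of the extremal case

(exists_pattern) `a' = ρ₀ - (r - i)` (natural subtraction) satisfies `a' ≤ ρ₀`, `a' ≤ i` and
`i - a' ≤ r - ρ₀`.  Let `P = {t | t < a'} ∪ {t | ρ₀ ≤ t < ρ₀ + (i - a')}`.

(total_weight) `∑_v wtr v = (n₀ + n₂)(r - i) - (n₁ + n₃) i` with `n_k = nro ro k`, and
`n₁ + n₃ = n - n₀ - n₂ - n₄`.

(pats_weight) a tuple with `PatS ro P`, `|P| = i`: `i (r - i) - (r - i) i = 0`.

(prefix_weight) the first `ρ₀` entries of a tuple of pattern `P` (`ρ₀ ≤ r`): `a'` of them have weight `r - i`,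
`ρ₀ - a'` have weight `-i`: total `r a' - i ρ₀`.

(ext_part) As `∑ wtr = 0` and all roles are `0` or `1`: `a (r - i) = b i`, `a + b = |X| = r q`, so
`a = i q`, `b = (r - i) q`.  Induction on `q`: if `q ≥ 1` choose `i` vertices of role `0` and
`r - i` vertices of role `1` in `X`; a tuple enumerating them has weight `0`; the rest satisfies the
hypotheses with `q - 1`.
-/

namespace Pool.Agent.Lib.TwoPaths

open Finset
open Pool.Agent.Lib.MP_952639_co

theorem exists_pattern (r i ρ₀ : ℕ) (hi : 1 ≤ i ∧ i ≤ r) (hρ : ρ₀ < r) :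
    ∃ P : Finset (Fin r), P.card = i ∧
      (P.filter fun t : Fin r => (t : ℕ) < ρ₀).card = ρ₀ - (r - i) := by
  obtain ⟨a, ha⟩ : ∃ a, a = ρ₀ - (r - i) := ⟨_, rfl⟩
  have h1 : a ≤ ρ₀ := by omega
  have h2 : a ≤ i := by omega
  have h3 : i - a ≤ r - ρ₀ := by omega
  refine ⟨univ.filter fun t : Fin r => (t : ℕ) < a ∨ (ρ₀ ≤ (t : ℕ) ∧ (t : ℕ) < ρ₀ + (i - a)),
    ?_, ?_⟩
  · have e : (univ.filter fun t : Fin r => (t : ℕ) < a ∨
        (ρ₀ ≤ (t : ℕ) ∧ (t : ℕ) < ρ₀ + (i - a))).map Fin.valEmbedding =
        Finset.range a ∪ Finset.Ico ρ₀ (ρ₀ + (i - a)) := by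
      ext m
      simp only [mem_map, mem_filter, mem_univ, true_and, Fin.valEmbedding_apply, mem_union,
        mem_range, mem_Ico]
      constructor
      · rintro ⟨t, ht, rfl⟩
        exact ht
      · intro hm
        have hmr : m < r := by omega
        exact ⟨⟨m, hmr⟩, hm, rfl⟩
    have hd : Disjoint (Finset.range a) (Finset.Ico ρ₀ (ρ₀ + (i - a))) := by
      rw [Finset.disjoint_left]
      intro m hm hm2
      rw [mem_range] at hm
      rw [mem_Ico] at hm2
      omega
    rw [← Finset.card_map Fin.valEmbedding, e, Finset.card_union_of_disjoint hd, card_range,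
      Nat.card_Ico]
    omega
  · have e : ((univ.filter fun t : Fin r => (t : ℕ) < a ∨
        (ρ₀ ≤ (t : ℕ) ∧ (t : ℕ) < ρ₀ + (i - a))).filter
          fun t : Fin r => (t : ℕ) < ρ₀).map Fin.valEmbedding = Finset.range a := by
      ext m
      simp only [mem_map, mem_filter, mem_univ, true_and, Fin.valEmbedding_apply, mem_range]
      constructor
      · rintro ⟨t, ⟨ht, ht2⟩, rfl⟩
        omega
      · intro hm
        have hmr : m < r := by omega
        exact ⟨⟨m, hmr⟩, ⟨Or.inl hm, by simpa using (by omega : m < ρ₀)⟩, rfl⟩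
    rw [← Finset.card_map Fin.valEmbedding, e, card_range, ha]

section

variable {V : Type} [Fintype V] [DecidableEq V] {r i : ℕ}

theorem total_weight (ro : V → Fin 5) :
    ∑ v, wtr r i ro v = r * ((nro ro 0 : ℤ) + nro ro 2) - i * (Fintype.card V - nro ro 4) := by
  have h : ∀ v, wtr r i ro v = r * ((if ro v = 0 then (1 : ℤ) else 0) +
      (if ro v = 2 then (1 : ℤ) else 0)) - i * (1 - (if ro v = 4 then (1 : ℤ) else 0)) := by
    intro v
    unfold wtr
    generalize ro v = k
    fin_cases k <;> simp
  rw [Finset.sum_congr rfl fun v _ => h v, Finset.sum_sub_distrib, ← Finset.mul_sum,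
    ← Finset.mul_sum, Finset.sum_add_distrib, Finset.sum_sub_distrib]
  simp only [nro, Finset.card_filter, Nat.cast_sum, Nat.cast_ite, Nat.cast_one, Nat.cast_zero,
    Finset.sum_const, Finset.card_univ, nsmul_eq_mul, mul_one]

theorem pats_weight (ro : V → Fin 5) (P : Finset (Fin r)) (hP : P.card = i) (x : Fin r → V)
    (hx : PatS ro P x) : ∑ t, wtr r i ro (x t) = 0 := by
  have h : ∀ t, wtr r i ro (x t) = r * (if t ∈ P then (1 : ℤ) else 0) - i := by
    intro t
    obtain ⟨h1, h2⟩ := hx t
    by_cases ht : t ∈ P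
    · rcases h1 ht with h | h <;> simp [wtr, h, ht]
    · rcases h2 ht with h | h <;> simp [wtr, h, ht]
  rw [Finset.sum_congr rfl fun v _ => h v, Finset.sum_sub_distrib, ← Finset.mul_sum]
  have hc : ∑ t : Fin r, (if t ∈ P then (1 : ℤ) else 0) = i := by
    rw [← hP]
    simp
  rw [hc]
  simp

theorem prefix_weight (ro : V → Fin 5) (P : Finset (Fin r)) (x : Fin r → V) (hx : Pat ro P x)
    (ρ₀ : ℕ) (hρ : ρ₀ ≤ r) :
    (((List.ofFn x).take ρ₀).map (wtr r i ro)).sum =
      r * ((P.filter fun t : Fin r => (t : ℕ) < ρ₀).card : ℤ) - i * ρ₀ := by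
  induction ρ₀ with
  | zero => simp
  | succ m ih =>
    have hm : m < r := hρ
    have ih' := ih (le_of_lt hm)
    have hlen : m < ((List.ofFn x).map (wtr r i ro)).length := by simpa using hm
    rw [List.map_take] at ih' ⊢
    rw [List.sum_take_succ _ _ hlen, ih']
    have hget : ((List.ofFn x).map (wtr r i ro))[m] = wtr r i ro (x ⟨m, hm⟩) := by
      simp
    rw [hget]
    have hw : wtr r i ro (x ⟨m, hm⟩) = r * (if (⟨m, hm⟩ : Fin r) ∈ P then (1 : ℤ) else 0) - i := by
      have := hx ⟨m, hm⟩
      by_cases ht : (⟨m, hm⟩ : Fin r) ∈ P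
      · rw [if_pos ht] at this
        simp [wtr, this, ht]
      · rw [if_neg ht] at this
        simp [wtr, this, ht]
    rw [hw]
    have hc : ((P.filter fun t : Fin r => (t : ℕ) < m + 1).card : ℤ) =
        ((P.filter fun t : Fin r => (t : ℕ) < m).card : ℤ) +
          (if (⟨m, hm⟩ : Fin r) ∈ P then (1 : ℤ) else 0) := by
      by_cases ht : (⟨m, hm⟩ : Fin r) ∈ P
      · rw [if_pos ht]
        have e : (P.filter fun t : Fin r => (t : ℕ) < m + 1) =
            insert ⟨m, hm⟩ (P.filter fun t : Fin r => (t : ℕ) < m) := by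
          ext t
          simp only [mem_filter, mem_insert, Fin.ext_iff]
          constructor
          · rintro ⟨h1, h2⟩
            by_cases h3 : (t : ℕ) = m
            · exact Or.inl h3
            · exact Or.inr ⟨h1, by omega⟩
          · rintro (h1 | ⟨h1, h2⟩)
            · refine ⟨?_, by omega⟩
              have : t = ⟨m, hm⟩ := Fin.ext h1
              rw [this]
              exact ht
            · exact ⟨h1, by omega⟩
        rw [e, card_insert_of_notMem]
        · push_cast
          ring
        · simp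
      · rw [if_neg ht]
        have e : (P.filter fun t : Fin r => (t : ℕ) < m + 1) =
            (P.filter fun t : Fin r => (t : ℕ) < m) := by
          ext t
          simp only [mem_filter]
          constructor
          · rintro ⟨h1, h2⟩
            refine ⟨h1, ?_⟩
            by_contra h3
            have h4 : t = ⟨m, hm⟩ := Fin.ext (by simpa using (by omega : (t : ℕ) = m))
            rw [h4] at h1
            exact ht h1
          · rintro ⟨h1, h2⟩
            exact ⟨h1, by omega⟩
        rw [e]
        simp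
    rw [hc]
    push_cast
    ring

private lemma ext_aux (hi : 1 ≤ i ∧ i ≤ r) (ro : V → Fin 5) : ∀ (q : ℕ) (X : Finset V),
    (∀ v ∈ X, ro v = 0 ∨ ro v = 1) → (X.filter fun v => ro v = 0).card = i * q →
    (X.filter fun v => ro v = 1).card = (r - i) * q →
    ∃ L : List (Fin r → V), (vs L).Nodup ∧ (∀ v, v ∈ vs L ↔ v ∈ X) ∧
      ∀ T ∈ L, ∑ t, wtr r i ro (T t) = 0 := by
  intro q
  induction q with
  | zero =>
    intro X hX h0 h1
    have hXe : X = ∅ := by
      rw [Finset.eq_empty_iff_forall_notMem]
      intro v hv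
      rw [Nat.mul_zero, Finset.card_eq_zero] at h0 h1
      rcases hX v hv with h | h
      · have : v ∈ X.filter fun v => ro v = 0 := mem_filter.mpr ⟨hv, h⟩
        rw [h0] at this
        simp at this
      · have : v ∈ X.filter fun v => ro v = 1 := mem_filter.mpr ⟨hv, h⟩
        rw [h1] at this
        simp at this
    refine ⟨[], by simp, ?_, by simp⟩
    intro v
    simp [hXe]
  | succ q ih =>
    intro X hX h0 h1
    obtain ⟨A, hA, hAc⟩ := Finset.exists_subset_card_eq
      (s := X.filter fun v => ro v = 0) (n := i) (by rw [h0]; nlinarith)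
    obtain ⟨B, hB, hBc⟩ := Finset.exists_subset_card_eq
      (s := X.filter fun v => ro v = 1) (n := r - i) (by rw [h1]; nlinarith)
    have hA0 : ∀ v ∈ A, v ∈ X ∧ ro v = 0 := fun v hv => mem_filter.mp (hA hv)
    have hB1 : ∀ v ∈ B, v ∈ X ∧ ro v = 1 := fun v hv => mem_filter.mp (hB hv)
    have hdis : Disjoint A B := by
      rw [Finset.disjoint_left]
      intro v hv hv2
      have a1 := (hA0 v hv).2
      have a2 := (hB1 v hv2).2
      rw [a1] at a2
      exact absurd a2 (by decide)
    have hcard : (A ∪ B).card = r := by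
      rw [Finset.card_union_of_disjoint hdis, hAc, hBc]
      omega
    let e : Fin r ≃ (A ∪ B : Finset V) := ((A ∪ B).equivFinOfCardEq hcard).symm
    let T : Fin r → V := fun t => (e t : V)
    have hTinj : Function.Injective T := fun a b hab => e.injective (Subtype.ext hab)
    have hTmem : ∀ v, v ∈ List.ofFn T ↔ v ∈ A ∪ B := by
      intro v
      rw [List.mem_ofFn]
      constructor
      · rintro ⟨t, rfl⟩
        exact (e t).2
      · intro hv
        exact ⟨e.symm ⟨v, hv⟩, by simp [T]⟩
    have hTw : ∑ t, wtr r i ro (T t) = 0 := by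
      have e1 : ∑ t, wtr r i ro (T t) = ∑ v : (A ∪ B : Finset V), wtr r i ro (v : V) :=
        Equiv.sum_comp e (fun v : (A ∪ B : Finset V) => wtr r i ro (v : V))
      rw [e1, Finset.sum_coe_sort (A ∪ B) (fun v => wtr r i ro v), Finset.sum_union hdis]
      have eA : ∑ v ∈ A, wtr r i ro v = i * ((r : ℤ) - i) := by
        rw [Finset.sum_congr rfl (g := fun _ => (r : ℤ) - i)
          (fun v hv => by simp [wtr, (hA0 v hv).2]), Finset.sum_const, hAc]
        simp
      have eB : ∑ v ∈ B, wtr r i ro v = ((r : ℤ) - i) * (-i) := by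
        rw [Finset.sum_congr rfl (g := fun _ => -(i : ℤ))
          (fun v hv => by simp [wtr, (hB1 v hv).2]), Finset.sum_const, hBc]
        simp [Nat.cast_sub hi.2]
      rw [eA, eB]
      ring
    have hsub : A ∪ B ⊆ X := Finset.union_subset (fun v hv => (hA0 v hv).1) (fun v hv => (hB1 v hv).1)
    obtain ⟨L, hL1, hL2, hL3⟩ := ih (X \ (A ∪ B))
      (fun v hv => hX v (mem_sdiff.mp hv).1)
      (by
        have e0 : ((X \ (A ∪ B)).filter fun v => ro v = 0) = (X.filter fun v => ro v = 0) \ A := by
          ext v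
          simp only [mem_filter, mem_sdiff, mem_union]
          constructor
          · rintro ⟨⟨a1, a2⟩, a3⟩
            exact ⟨⟨a1, a3⟩, fun h => a2 (Or.inl h)⟩
          · rintro ⟨⟨a1, a3⟩, a2⟩
            refine ⟨⟨a1, ?_⟩, a3⟩
            rintro (h | h)
            · exact a2 h
            · have := (hB1 v h).2
              rw [a3] at this
              exact absurd this (by decide)
        rw [e0, Finset.card_sdiff_of_subset hA, h0, hAc, Nat.mul_succ]
        omega)
      (by
        have e0 : ((X \ (A ∪ B)).filter fun v => ro v = 1) = (X.filter fun v => ro v = 1) \ B := by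
          ext v
          simp only [mem_filter, mem_sdiff, mem_union]
          constructor
          · rintro ⟨⟨a1, a2⟩, a3⟩
            exact ⟨⟨a1, a3⟩, fun h => a2 (Or.inr h)⟩
          · rintro ⟨⟨a1, a3⟩, a2⟩
            refine ⟨⟨a1, ?_⟩, a3⟩
            rintro (h | h)
            · have := (hA0 v h).2
              rw [a3] at this
              exact absurd this (by decide)
            · exact a2 h
        rw [e0, Finset.card_sdiff_of_subset hB, h1, hBc, Nat.mul_succ]
        omega)
    refine ⟨T :: L, ?_, ?_, ?_⟩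
    · have e1 : vs (T :: L) = List.ofFn T ++ vs L := by simp [vs]
      rw [e1, List.nodup_append]
      refine ⟨List.nodup_ofFn.mpr hTinj, hL1, ?_⟩
      intro v hv w hw hvw
      subst hvw
      have a1 := (hTmem v).mp hv
      have a2 := (hL2 v).mp hw
      exact (mem_sdiff.mp a2).2 a1
    · intro v
      have e1 : vs (T :: L) = List.ofFn T ++ vs L := by simp [vs]
      rw [e1, List.mem_append, hTmem, hL2, mem_sdiff]
      constructor
      · rintro (h | h)
        · exact hsub h
        · exact h.1
      · intro h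
        by_cases h2 : v ∈ A ∪ B
        · exact Or.inl h2
        · exact Or.inr ⟨h, h2⟩
    · intro T' hT'
      rcases List.mem_cons.mp hT' with h | h
      · rw [h]
        exact hTw
      · exact hL3 T' h

theorem ext_part (hi : 1 ≤ i ∧ i ≤ r) (ro : V → Fin 5) (X : Finset V)
    (hX : ∀ v ∈ X, ro v = 0 ∨ ro v = 1) (hdiv : r ∣ X.card) (hw : ∑ v ∈ X, wtr r i ro v = 0) :
    ∃ L : List (Fin r → V), (vs L).Nodup ∧ (∀ v, v ∈ vs L ↔ v ∈ X) ∧
      ∀ T ∈ L, ∑ t, wtr r i ro (T t) = 0 := by
  obtain ⟨q, hq⟩ := hdiv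
  set a := (X.filter fun v => ro v = 0).card with ha
  set b := (X.filter fun v => ro v = 1).card with hb
  have hab : a + b = r * q := by
    rw [← hq, ha, hb]
    have e1 : (X.filter fun v => ro v = 1) = X.filter fun v => ¬ ro v = 0 := by
      apply Finset.filter_congr
      intro v hv
      rcases hX v hv with h | h
      · simp [h]
      · simp [h]
    rw [e1, Finset.card_filter_add_card_filter_not]
  have hsum : ∑ v ∈ X, wtr r i ro v = a * ((r : ℤ) - i) - b * i := by
    have h : ∀ v ∈ X, wtr r i ro v = ((r : ℤ) - i) * (if ro v = 0 then (1 : ℤ) else 0) -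
        i * (if ro v = 1 then (1 : ℤ) else 0) := by
      intro v hv
      rcases hX v hv with h | h <;> simp [wtr, h]
    rw [Finset.sum_congr rfl h, Finset.sum_sub_distrib, ← Finset.mul_sum, ← Finset.mul_sum, ha, hb,
      Finset.card_filter, Finset.card_filter]
    push_cast
    ring
  rw [hsum] at hw
  have hr : (0 : ℤ) < r := by
    have : 0 < r := by omega
    exact_mod_cast this
  have habz : (a : ℤ) + b = r * q := by exact_mod_cast hab
  have haz : (a : ℤ) = i * q := by
    have : (r : ℤ) * a = r * (i * q) := by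
      have : (b : ℤ) = r * q - a := by linarith
      rw [this] at hw
      linarith [hw]
    exact mul_left_cancel₀ (ne_of_gt hr) this
  have haq : a = i * q := by exact_mod_cast haz
  have hbq : b = (r - i) * q := by
    have : b = r * q - i * q := by omega
    rw [this, Nat.sub_mul]
  exact ext_aux hi ro q X hX haq hbq

end

end Pool.Agent.Lib.TwoPaths
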