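import Pool.Agent.Lib.TwoPaths.X0

/-!
# X2: almost all tuples of pattern `P` are good
-/

namespace Pool.Agent.Lib.TwoPaths

open Finset
open Pool.Agent.Lib.MP_952639_co

private theorem x2_pat_mix {V : Type} [Fintype V] [DecidableEq V] {r : ℕ}
    {ro : V → Fin 5} {P : Finset (Fin r)} {x y : Fin r → V}
    (hx : Pat ro P x) (hy : Pat ro P y) (S : Finset (Fin r)) : Pat ro P (mix x y S) := by
  intro j
  unfold mix
  by_cases h : j ∈ S
  · rw [if_pos h]; exact hy j
  · rw [if_neg h]; exact hx j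

open Classical in
private theorem x2_core {V : Type} [Fintype V] [DecidableEq V] {r : ℕ}
    {c : Finset V → Bool} {ro : V → Fin 5} {ζ ζ₂ N : ℝ}
    (hζ₂ : 0 < ζ₂) (hV : 0 < Fintype.card V) {P : Finset (Fin r)}
    (X Z : Finset (Fin r → V)) (hX : ∀ x ∈ X, Pat ro P x)
    (hZ : (Z.card : ℝ) ≤ ζ * N)
    (hcZ : ∀ x ∈ X, ¬ Col c true x → x ∈ Z)
    (hpair : ∀ S : Finset (Fin r), ∃ (Z' W' : Finset (Fin r → V)) (A B : ℝ),
      (Z'.card : ℝ) ≤ A ∧ (W'.card : ℝ) ≤ B ∧ 0 ≤ A ∧
        A * B ≤ ζ * N * (Fintype.card V : ℝ) ^ r ∧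
        ∀ x y, x ∈ X → Pat ro P y → ¬ Col c true (mix x y S) →
          mix x y S ∈ Z' ∧ mix y x S ∈ W')
    (Y : Finset (Fin r → V)) (hY : ∀ x ∈ Y, x ∈ X ∧ x ∉ Gd c ro P ζ₂) :
    (Y.card : ℝ) ≤ (2 ^ r * ζ / ζ₂ + ζ) * N := by
  have hn : (0 : ℝ) < (Fintype.card V : ℝ) ^ r := by positivity
  have ht : (0 : ℝ) < ζ₂ * (Fintype.card V : ℝ) ^ r := mul_pos hζ₂ hn
  let R : (Fin r → V) → (Fin r → V) → Prop := fun x y => Pat ro P y ∧ ¬ Adj c x y
  have hB : ((univ.filter fun p : (Fin r → V) × (Fin r → V) =>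
      p.1 ∈ X ∧ R p.1 p.2).card : ℝ) ≤
        2 ^ r * (ζ * N * (Fintype.card V : ℝ) ^ r) := by
    have hsub : (univ.filter fun p : (Fin r → V) × (Fin r → V) =>
        p.1 ∈ X ∧ R p.1 p.2) ⊆
        (univ : Finset (Finset (Fin r))).biUnion fun S =>
          univ.filter fun p : (Fin r → V) × (Fin r → V) =>
            p.1 ∈ X ∧ Pat ro P p.2 ∧ ¬ Col c true (mix p.1 p.2 S) := by
      intro p hp
      rw [mem_filter] at hp
      obtain ⟨-, h1, h2, h3⟩ := hp
      unfold Adj at h3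
      push Not at h3
      obtain ⟨S, hS⟩ := h3 true
      rw [mem_biUnion]
      refine ⟨S, mem_univ _, ?_⟩
      rw [mem_filter]
      exact ⟨mem_univ _, h1, h2, hS⟩
    have hone : ∀ S : Finset (Fin r), ((univ.filter fun p : (Fin r → V) × (Fin r → V) =>
        p.1 ∈ X ∧ Pat ro P p.2 ∧ ¬ Col c true (mix p.1 p.2 S)).card : ℝ) ≤
          ζ * N * (Fintype.card V : ℝ) ^ r := by
      intro S
      obtain ⟨Z', W', A, B, hA, hB, hA0, hAB, hmem⟩ := hpair S
      have h1 : (univ.filter fun p : (Fin r → V) × (Fin r → V) =>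
          p.1 ∈ X ∧ Pat ro P p.2 ∧ ¬ Col c true (mix p.1 p.2 S)).card ≤ Z'.card * W'.card := by
        rw [← mix_count S Z' W']
        apply card_le_card
        intro p hp
        rw [mem_filter] at hp ⊢
        obtain ⟨-, h1, h2, h3⟩ := hp
        exact ⟨mem_univ _, hmem _ _ h1 h2 h3⟩
      calc ((univ.filter fun p : (Fin r → V) × (Fin r → V) =>
          p.1 ∈ X ∧ Pat ro P p.2 ∧ ¬ Col c true (mix p.1 p.2 S)).card : ℝ)
          ≤ ((Z'.card * W'.card : ℕ) : ℝ) := by exact_mod_cast h1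
        _ = (Z'.card : ℝ) * W'.card := by push_cast; rfl
        _ ≤ A * B := mul_le_mul hA hB (by positivity) hA0
        _ ≤ _ := hAB
    calc ((univ.filter fun p : (Fin r → V) × (Fin r → V) =>
        p.1 ∈ X ∧ R p.1 p.2).card : ℝ)
        ≤ (((univ : Finset (Finset (Fin r))).biUnion fun S =>
          univ.filter fun p : (Fin r → V) × (Fin r → V) =>
            p.1 ∈ X ∧ Pat ro P p.2 ∧ ¬ Col c true (mix p.1 p.2 S)).card : ℝ) := by
          exact_mod_cast card_le_card hsub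
      _ ≤ ∑ S : Finset (Fin r), ((univ.filter fun p : (Fin r → V) × (Fin r → V) =>
            p.1 ∈ X ∧ Pat ro P p.2 ∧ ¬ Col c true (mix p.1 p.2 S)).card : ℝ) := by
          exact_mod_cast card_biUnion_le
      _ ≤ ∑ S : Finset (Fin r), (ζ * N * (Fintype.card V : ℝ) ^ r) :=
          sum_le_sum fun S _ => hone S
      _ = 2 ^ r * (ζ * N * (Fintype.card V : ℝ) ^ r) := by
          rw [sum_const, nsmul_eq_mul, card_univ, Fintype.card_finset, Fintype.card_fin]
          push_cast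
          ring
  have hM := pairs_markov R X
    (ζ₂ * (Fintype.card V : ℝ) ^ r) (2 ^ r * (ζ * N * (Fintype.card V : ℝ) ^ r)) ht
    (by convert hB)
  have e1 : 2 ^ r * (ζ * N * (Fintype.card V : ℝ) ^ r) / (ζ₂ * (Fintype.card V : ℝ) ^ r) =
      2 ^ r * ζ / ζ₂ * N := by
    field_simp
  rw [e1] at hM
  have hM' : ((X.filter fun x => ζ₂ * (Fintype.card V : ℝ) ^ r <
        ((univ.filter fun y => R x y).card : ℝ)).card : ℝ) ≤ 2 ^ r * ζ / ζ₂ * N := by
    convert hM
  have hsub2 : Y ⊆ (X.filter fun x => ζ₂ * (Fintype.card V : ℝ) ^ r <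
        ((univ.filter fun y => R x y).card : ℝ)) ∪ Z := by
    intro x hx
    obtain ⟨hxX, hxG⟩ := hY x hx
    rw [mem_union]
    by_cases hc : Col c true x
    · left
      rw [mem_filter]
      refine ⟨hxX, ?_⟩
      by_contra hle
      apply hxG
      unfold Gd
      rw [mem_filter]
      refine ⟨mem_univ _, hX x hxX, hc, ?_⟩
      have hle' := not_lt.1 hle
      convert hle' using 4
    · right
      exact hcZ x hxX hc
  calc (Y.card : ℝ)
      ≤ (((X.filter fun x => ζ₂ * (Fintype.card V : ℝ) ^ r <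
        ((univ.filter fun y => R x y).card : ℝ)) ∪ Z).card : ℝ) := by
        exact_mod_cast card_le_card hsub2
    _ ≤ ((X.filter fun x => ζ₂ * (Fintype.card V : ℝ) ^ r <
        ((univ.filter fun y => R x y).card : ℝ)).card : ℝ) + (Z.card : ℝ) := by
        exact_mod_cast card_union_le _ _
    _ ≤ 2 ^ r * ζ / ζ₂ * N + ζ * N := add_le_add hM' hZ
    _ = (2 ^ r * ζ / ζ₂ + ζ) * N := by ring

open Classical in
theorem good_count {V : Type} [Fintype V] [DecidableEq V] {r i : ℕ} (hr : 1 ≤ r)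
    {c : Finset V → Bool} {ro : V → Fin 5} {ξ ζ ν ν' ζ₂ : ℝ} (h : Ctx r i c ro ξ ζ ν ν')
    (hζ : 0 ≤ ζ) (hζ₂ : 0 < ζ₂) (hV : 0 < Fintype.card V) {P : Finset (Fin r)} (hP : P.card = i) :
    ((univ.filter fun x => Pat ro P x ∧ x ∉ Gd c ro P ζ₂).card : ℝ) ≤
        (2 ^ r * ζ / ζ₂ + ζ) * (Fintype.card V : ℝ) ^ r ∧
    ∀ (a : Fin r) (v : V),
      ((univ.filter fun x => Pat ro P x ∧ x a = v ∧ x ∉ Gd c ro P ζ₂).card : ℝ) ≤
        (2 ^ r * ζ / ζ₂ + ζ) * (Fintype.card V : ℝ) ^ (r - 1) := by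
  have hall : ((univ : Finset (Fin r → V)).card : ℝ) ≤ (Fintype.card V : ℝ) ^ r := by
    rw [card_univ, Fintype.card_fun, Fintype.card_fin]
    push_cast
    exact le_rfl
  have hZ := h.red P hP
  constructor
  · refine x2_core (c := c) (ro := ro) (ζ := ζ) (N := (Fintype.card V : ℝ) ^ r) hζ₂ hV
      (P := P) (univ.filter fun x => Pat ro P x)
      (univ.filter fun x => Pat ro P x ∧ ¬ Col c true x) ?_ hZ ?_ ?_ _ ?_
    · intro x hx
      rw [mem_filter] at hx
      exact hx.2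
    · intro x hx hc
      rw [mem_filter] at hx ⊢
      exact ⟨mem_univ _, hx.2, hc⟩
    · intro S
      refine ⟨univ.filter fun x => Pat ro P x ∧ ¬ Col c true x, univ, _, _, hZ, hall,
        by positivity, le_rfl, ?_⟩
      intro x y hx hy hc
      rw [mem_filter] at hx
      refine ⟨?_, mem_univ _⟩
      rw [mem_filter]
      exact ⟨mem_univ _, x2_pat_mix hx.2 hy S, hc⟩
    · intro x hx
      rw [mem_filter] at hx
      rw [mem_filter]
      exact ⟨⟨mem_univ _, hx.2.1⟩, hx.2.2⟩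
  · intro a v
    have hZa := h.redv P hP a v
    have hWa : ((univ.filter fun x : Fin r → V => x a = v).card : ℝ) ≤
        (Fintype.card V : ℝ) ^ (r - 1) := by
      have h0 := card_fix (r := r) a v
      have h1 : ((univ.filter fun x : Fin r → V => x a = v).card : ℝ) =
          ((Fintype.card V ^ (r - 1) : ℕ) : ℝ) := by
        rw [← h0]
      rw [h1]
      push_cast
      exact le_rfl
    refine x2_core (c := c) (ro := ro) (ζ := ζ) (N := (Fintype.card V : ℝ) ^ (r - 1)) hζ₂ hV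
      (P := P) (univ.filter fun x => Pat ro P x ∧ x a = v)
      (univ.filter fun x => Pat ro P x ∧ x a = v ∧ ¬ Col c true x) ?_ hZa ?_ ?_ _ ?_
    · intro x hx
      rw [mem_filter] at hx
      exact hx.2.1
    · intro x hx hc
      rw [mem_filter] at hx ⊢
      exact ⟨mem_univ _, hx.2.1, hx.2.2, hc⟩
    · intro S
      by_cases haS : a ∈ S
      · refine ⟨univ.filter fun x => Pat ro P x ∧ ¬ Col c true x,
          univ.filter fun x : Fin r → V => x a = v, _, _, hZ, hWa, by positivity, ?_, ?_⟩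
        · apply le_of_eq
          ring
        · intro x y hx hy hc
          rw [mem_filter] at hx
          constructor
          · rw [mem_filter]
            exact ⟨mem_univ _, x2_pat_mix hx.2.1 hy S, hc⟩
          · rw [mem_filter]
            refine ⟨mem_univ _, ?_⟩
            unfold mix
            rw [if_pos haS]
            exact hx.2.2
      · refine ⟨univ.filter fun x => Pat ro P x ∧ x a = v ∧ ¬ Col c true x,
          univ, _, _, hZa, hall, by positivity, le_rfl, ?_⟩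
        intro x y hx hy hc
        rw [mem_filter] at hx
        refine ⟨?_, mem_univ _⟩
        rw [mem_filter]
        refine ⟨mem_univ _, x2_pat_mix hx.2.1 hy S, ?_, hc⟩
        unfold mix
        rw [if_neg haS]
        exact hx.2.2
    · intro x hx
      rw [mem_filter] at hx
      rw [mem_filter]
      exact ⟨⟨mem_univ _, hx.2.1, hx.2.2.1⟩, hx.2.2.2⟩

end Pool.Agent.Lib.TwoPaths
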