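import Pool.Agent.Lib.TwoPaths.X3

/-!
# X4: robustness outside balanced sets

PROOF.  `n = |V|`.  Let `z` be given, `m = |Wᶜ| ≥ 3n/4`, `a`, `b` the numbers of vertices of role `0`, `1` outside
`W`; `a + b = m` and `a (r - i) - b i = 0`, so `r a = i m` and `r b = (r - i) m`.
Let `X = {u | Pat ro P u, ∀ j, u j ∉ W}`; `|X| = a^i b^(r-i)`.  As `a ≥ m/r`, and `b ≥ m/r` if `i < r`:
`|X| ≥ (m/r)^r ≥ (n/(2r))^r = kap r n^r`.  For `j ∈ P`, `a ∑_{u ∈ X} z (u j) = |X| Z_a` where
`Z_a` is the sum of `z` over the vertices of role `0` outside `W`; so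
`∑_{j ∈ P} ∑_{u ∈ X} z (u j) = i |X| Z_a / a = |X| r Z_a / m` (if `m > 0`); similarly for `j ∉ P`
(if `i < r`) it is `|X| r Z_b / m`.  So `∑_{u ∈ X} ∑_j z (u j) ≤ |X| r (Z_a + Z_b)/m ≤ κ r |X|`,
at most `κ r |X|` members `u` of `X` have `∑ z (u j) ≥ 1`, and at least
`(1 - κ r)|X| - ζ₃ n^r ≥ ((1 - κ r) kap r - ζ₃) n^r ≥ ((1 - κ r) kap r/2) n^r` members of `X ∩ G` have `∑ z (u j) < 1`.
(If `n = 0` the claim is trivial because `r ≥ 1`.)
-/

namespace Pool.Agent.Lib.TwoPaths

open Finset
open Pool.Agent.Lib.MP_952639_co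

/-- Sum of a function of one coordinate over a product of finite sets. -/
theorem sum_piFinset_coord {V : Type} [DecidableEq V] {r : ℕ} (S : Fin r → Finset V)
    (z : V → ℝ) (j : Fin r) :
    (∑ u ∈ Fintype.piFinset S, z (u j)) * ((S j).card : ℝ) =
      ((Fintype.piFinset S).card : ℝ) * ∑ v ∈ S j, z v := by
  have h1 : ∏ k, ∑ v ∈ S k, (if k = j then z v else 1) =
      ∑ u ∈ Fintype.piFinset S, ∏ k, (if k = j then z (u k) else 1) :=
    Finset.prod_univ_sum S (fun k v => if k = j then z v else 1)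
  have h2 : ∀ u : Fin r → V, ∏ k, (if k = j then z (u k) else 1) = z (u j) := by
    intro u
    rw [Finset.prod_ite_eq' univ j (fun k => z (u k))]
    simp
  have h3 : ∀ k, ∑ v ∈ S k, (if k = j then z v else 1) =
      if k = j then ∑ v ∈ S j, z v else ((S k).card : ℝ) := by
    intro k
    split_ifs with h
    · rw [h]
    · simp
  simp only [h2, h3] at h1
  rw [← h1, Fintype.card_piFinset, Nat.cast_prod,
    ← Finset.mul_prod_erase univ _ (mem_univ j), if_pos rfl,
    ← Finset.mul_prod_erase univ (fun k => ((S k).card : ℝ)) (mem_univ j)]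
  have h4 : ∏ k ∈ univ.erase j, (if k = j then ∑ v ∈ S j, z v else ((S k).card : ℝ)) =
      ∏ k ∈ univ.erase j, ((S k).card : ℝ) :=
    Finset.prod_congr rfl fun k hk => if_neg (Finset.ne_of_mem_erase hk)
  rw [h4]
  ring

open Classical in
theorem robust_ext {V : Type} [Fintype V] [DecidableEq V] {r i : ℕ} (hi : 1 ≤ i ∧ i ≤ r)
    (ro : V → Fin 5) (G : Finset (Fin r → V)) (P : Finset (Fin r)) (hP : P.card = i) (ζ₃ κ : ℝ)
    (hG : ((univ.filter fun x => Pat ro P x ∧ x ∉ G).card : ℝ) ≤ ζ₃ * (Fintype.card V : ℝ) ^ r)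
    (hκ : 0 < κ) (hκr : κ * r < 1) (hζ₃ : ζ₃ ≤ (1 - κ * r) * kap r / 2) (W : Finset V)
    (hW : ∀ v, v ∉ W → ro v = 0 ∨ ro v = 1) (hWc : (W.card : ℝ) ≤ 1 / 4 * Fintype.card V)
    (hbal : ∑ v ∈ Wᶜ, wtr r i ro v = 0) :
    RobustOff κ ((1 - κ * r) * kap r / 2) (fun b => if b then G else ∅) W := by
  intro z hz0 hz1 hzW
  obtain ⟨hi1, hir⟩ := hi
  have hr1 : 1 ≤ r := hi1.trans hir
  have hrR : (0 : ℝ) < r := by exact_mod_cast hr1
  set n : ℝ := (Fintype.card V : ℝ) with hn
  have hn0 : 0 ≤ n := Nat.cast_nonneg _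
  rcases hn0.eq_or_lt with hn1 | hn1
  · rw [← hn1, zero_pow (by omega), mul_zero]
    exact Nat.cast_nonneg _
  set A0 : Finset V := Wᶜ.filter fun v => ro v = 0 with hA0
  set B0 : Finset V := Wᶜ.filter fun v => ro v = 1 with hB0
  have hdisj : Disjoint A0 B0 := by
    rw [Finset.disjoint_left]
    intro v h1 h2
    rw [hA0, mem_filter] at h1
    rw [hB0, mem_filter] at h2
    rw [h1.2] at h2
    exact absurd h2.2 (by decide)
  have hunion : A0 ∪ B0 = Wᶜ := by
    ext v
    rw [mem_union, hA0, hB0, mem_filter, mem_filter]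
    constructor
    · rintro (h | h) <;> exact h.1
    · intro h
      rcases hW v (mem_compl.1 h) with h1 | h1
      · exact Or.inl ⟨h, h1⟩
      · exact Or.inr ⟨h, h1⟩
  set m : ℝ := ((Wᶜ.card : ℕ) : ℝ) with hm
  have hab : (A0.card : ℝ) + B0.card = m := by
    rw [hm, ← hunion, card_union_of_disjoint hdisj]; push_cast; ring
  have hmn : m = n - W.card := by
    have := Finset.card_add_card_compl W
    have h2 : (W.card : ℝ) + m = n := by rw [hm, hn]; exact_mod_cast this
    linarith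
  have hm1 : 3 / 4 * n ≤ m := by rw [hmn]; linarith
  have hm0 : 0 < m := by linarith
  have hbal2 : (A0.card : ℝ) * ((r : ℝ) - i) - B0.card * i = 0 := by
    have h1 : ∑ v ∈ Wᶜ, wtr r i ro v = A0.card * ((r : ℤ) - i) + B0.card * (-(i : ℤ)) := by
      rw [← hunion, sum_union hdisj]
      congr 1
      · rw [Finset.sum_congr rfl (g := fun _ => (r : ℤ) - i), sum_const, nsmul_eq_mul]
        intro v hv
        rw [hA0, mem_filter] at hv
        simp [wtr, hv.2]
      · rw [Finset.sum_congr rfl (g := fun _ => -(i : ℤ)), sum_const, nsmul_eq_mul]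
        intro v hv
        rw [hB0, mem_filter] at hv
        simp [wtr, hv.2]
    rw [h1] at hbal
    have h2 : ((A0.card * ((r : ℤ) - i) + B0.card * (-(i : ℤ)) : ℤ) : ℝ) = 0 := by rw [hbal]; simp
    push_cast at h2
    linarith
  have hA : (r : ℝ) * A0.card = i * m := by rw [← hab]; linarith
  have hB : (r : ℝ) * B0.card = (r - i) * m := by rw [← hab]; linarith
  set S : Fin r → Finset V := fun j => if j ∈ P then A0 else B0 with hS
  set X : Finset (Fin r → V) := Fintype.piFinset S with hX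
  have hPnot : ∀ j, j ∉ P → i < r := by
    intro j hj
    rw [← hP]
    have : P ⊂ univ := by
      rw [Finset.ssubset_univ_iff]
      intro h
      exact hj (h ▸ mem_univ j)
    simpa using Finset.card_lt_card this
  have hSj : ∀ j, n / (2 * r) ≤ ((S j).card : ℝ) := by
    intro j
    rw [div_le_iff₀ (by positivity)]
    by_cases hj : j ∈ P
    · have h1 : S j = A0 := by rw [hS]; simp [hj]
      have h2 : (1 : ℝ) ≤ i := by exact_mod_cast hi1
      rw [h1]
      nlinarith
    · have h1 : S j = B0 := by rw [hS]; simp [hj]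
      have h2 : (1 : ℝ) ≤ r - i := by
        have h3 : i + 1 ≤ r := hPnot j hj
        have h4 : ((i + 1 : ℕ) : ℝ) ≤ r := by exact_mod_cast h3
        push_cast at h4
        linarith
      rw [h1]
      nlinarith
  have hXcard : kap r * n ^ r ≤ (X.card : ℝ) := by
    rw [hX, Fintype.card_piFinset, Nat.cast_prod, kap, ← mul_pow]
    have h1 : (1 / (2 * (r : ℝ)) * n) ^ r = ∏ _j : Fin r, n / (2 * r) := by
      rw [prod_const, card_univ, Fintype.card_fin]
      congr 1
      ring
    rw [h1]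
    exact Finset.prod_le_prod (fun j _ => by positivity) fun j _ => hSj j
  have hT : ∀ j, ∑ u ∈ X, z (u j) = (X.card : ℝ) * r / m *
      (if j ∈ P then (∑ v ∈ A0, z v) / i else (∑ v ∈ B0, z v) / (r - i)) := by
    intro j
    have h1 := sum_piFinset_coord S z j
    rw [← hX] at h1
    have h2 : (0 : ℝ) < (S j).card := lt_of_lt_of_le (by positivity) (hSj j)
    by_cases hj : j ∈ P
    · have h3 : S j = A0 := by rw [hS]; simp [hj]
      rw [if_pos hj]
      rw [h3] at h1 h2
      have h4 : (0 : ℝ) < i := by exact_mod_cast hi1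
      have h5 : (A0.card : ℝ) = i * m / r := by rw [eq_div_iff hrR.ne', mul_comm]; exact hA
      rw [h5] at h1
      field_simp at h1 ⊢
      linarith
    · have h3 : S j = B0 := by rw [hS]; simp [hj]
      rw [if_neg hj]
      rw [h3] at h1 h2
      have h4 : (0 : ℝ) < r - i := by
        have h6 : (i : ℝ) < r := by exact_mod_cast hPnot j hj
        linarith
      have h5 : (B0.card : ℝ) = (r - i) * m / r := by rw [eq_div_iff hrR.ne', mul_comm]; exact hB
      rw [h5] at h1
      field_simp at h1 ⊢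
      linarith
  have hZA : 0 ≤ ∑ v ∈ A0, z v := sum_nonneg fun v _ => hz0 v
  have hZB : 0 ≤ ∑ v ∈ B0, z v := sum_nonneg fun v _ => hz0 v
  have hZ : ∑ v ∈ A0, z v + ∑ v ∈ B0, z v = ∑ v ∈ Wᶜ, z v := by rw [← hunion, sum_union hdisj]
  have hsum : ∑ u ∈ X, ∑ j, z (u j) ≤ κ * r * X.card := by
    rw [sum_comm, Finset.sum_congr rfl fun j _ => hT j, ← mul_sum, Finset.sum_ite, sum_const,
      sum_const]
    have hc1 : (univ.filter fun j : Fin r => j ∈ P).card = i := by
      rw [← hP]; congr 1; ext j; simp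
    have hc2 : ((univ.filter fun j : Fin r => j ∉ P).card : ℝ) = r - i := by
      have h1 := Finset.card_filter_add_card_filter_not (s := (univ : Finset (Fin r)))
        (p := fun j => j ∈ P)
      rw [hc1, card_univ, Fintype.card_fin] at h1
      have h2 : (i : ℝ) + (univ.filter fun j : Fin r => j ∉ P).card = r := by exact_mod_cast h1
      linarith
    rw [hc1, nsmul_eq_mul, nsmul_eq_mul, hc2]
    have h4 : (0 : ℝ) < i := by exact_mod_cast hi1
    have h5 : (i : ℝ) * ((∑ v ∈ A0, z v) / i) = ∑ v ∈ A0, z v := by field_simp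
    have h6 : ((r : ℝ) - i) * ((∑ v ∈ B0, z v) / (r - i)) ≤ ∑ v ∈ B0, z v := by
      rcases eq_or_ne ((r : ℝ) - i) 0 with h7 | h7
      · rw [h7]; simpa using hZB
      · rw [mul_div_cancel₀ _ h7]
    rw [h5]
    calc (X.card : ℝ) * r / m * (∑ v ∈ A0, z v + ((r : ℝ) - i) * ((∑ v ∈ B0, z v) / (r - i)))
        ≤ (X.card : ℝ) * r / m * (κ * m) := by
          refine mul_le_mul_of_nonneg_left ?_ (by positivity)
          linarith
      _ = κ * r * X.card := by field_simp
  -- few members of `X` have a large sum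
  have hbad : ((X.filter fun u => ¬ ∑ j, z (u j) < 1).card : ℝ) ≤ κ * r * X.card := by
    refine le_trans ?_ hsum
    have h1 : ((X.filter fun u => ¬ ∑ j, z (u j) < 1).card : ℝ) ≤
        ∑ u ∈ X.filter (fun u => ¬ ∑ j, z (u j) < 1), ∑ j, z (u j) := by
      rw [← nsmul_one, ← sum_const]
      refine sum_le_sum fun u hu => ?_
      rw [mem_filter] at hu
      exact not_lt.1 hu.2
    refine h1.trans (sum_le_sum_of_subset_of_nonneg (filter_subset _ _) fun u _ _ =>
      sum_nonneg fun j _ => hz0 _)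
  have hgood : (1 - κ * r) * X.card ≤ ((X.filter fun u => ∑ j, z (u j) < 1).card : ℝ) := by
    have h1 := Finset.card_filter_add_card_filter_not (s := X) (p := fun u => ∑ j, z (u j) < 1)
    have h2 : ((X.filter fun u => ∑ j, z (u j) < 1).card : ℝ) +
        ((X.filter fun u => ¬ ∑ j, z (u j) < 1).card : ℝ) = X.card := by exact_mod_cast h1
    linarith
  have hsub : (X.filter fun u => ∑ j, z (u j) < 1) ⊆
      (G.filter fun u => (∀ i, u i ∉ W) ∧ ∑ i, z (u i) < 1) ∪
        (univ.filter fun x => Pat ro P x ∧ x ∉ G) := by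
    intro u hu
    rw [mem_filter, hX, Fintype.mem_piFinset] at hu
    obtain ⟨h1, h2⟩ := hu
    have h3 : ∀ j, u j ∈ Wᶜ ∧ ro (u j) = if j ∈ P then 0 else 1 := by
      intro j
      have := h1 j
      rw [hS] at this
      by_cases hj : j ∈ P
      · simp only [hj, if_true, hA0, mem_filter] at this ⊢
        exact this
      · simp only [hj, if_false, hB0, mem_filter] at this ⊢
        exact this
    rw [mem_union, mem_filter, mem_filter]
    by_cases hu : u ∈ G
    · exact Or.inl ⟨hu, fun j => mem_compl.1 (h3 j).1, h2⟩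
    · exact Or.inr ⟨mem_univ _, fun j => (h3 j).2, hu⟩
  have hfin : ((X.filter fun u => ∑ j, z (u j) < 1).card : ℝ) ≤
      ((G.filter fun u => (∀ i, u i ∉ W) ∧ ∑ i, z (u i) < 1).card : ℝ) + ζ₃ * n ^ r := by
    have h1 := (card_le_card hsub).trans (card_union_le _ _)
    have h2 : ((X.filter fun u => ∑ j, z (u j) < 1).card : ℝ) ≤
      ((G.filter fun u => (∀ i, u i ∉ W) ∧ ∑ i, z (u i) < 1).card : ℝ) +
        ((univ.filter fun x => Pat ro P x ∧ x ∉ G).card : ℝ) := by exact_mod_cast h1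
    linarith
  have hnr : 0 ≤ n ^ r := by positivity
  have hκ1 : 0 ≤ 1 - κ * r := by linarith
  have h8 : (1 - κ * r) * (kap r * n ^ r) ≤ (1 - κ * r) * X.card :=
    mul_le_mul_of_nonneg_left hXcard hκ1
  have h9 : ζ₃ * n ^ r ≤ (1 - κ * r) * kap r / 2 * n ^ r := mul_le_mul_of_nonneg_right hζ₃ hnr
  have hAA : ((if (true : Bool) = true then G else ∅) ∪ (if (false : Bool) = true then G else ∅) :
      Finset (Fin r → V)) = G := by simp
  show (1 - κ * r) * kap r / 2 * n ^ r ≤
    ((((if (true : Bool) = true then G else ∅) ∪ (if (false : Bool) = true then G else ∅) :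
      Finset (Fin r → V)).filter fun u => (∀ i, u i ∉ W) ∧ ∑ i, z (u i) < 1).card : ℝ)
  rw [hAA]
  linarith

end Pool.Agent.Lib.TwoPaths
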