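import Pool.Agent.Lib.TwoPaths.X0

/-!
# X5b: every balanced typical tuple has many core absorbers

PROOF.  `n = |V|`.  View `U` as the family of its rows (`Equiv.curry`).  At least `(k0 n^r)^r = k0^r n^(r r)` families
have all rows of pattern `P`.  For such `U`, the diagonal has pattern `P` too (`U (j, j)` has the role
prescribed for coordinate `j`), and so have the updated rows (by `hT`).  Bad families:
 * row `k` is not in `G`: at most `ζ₃ n^r · (n^r)^(r-1)`;
 * the updated row `k` is not in `G`: it is a tuple `y` of pattern `P` with `y k = T k`, `y ∉ G`: at most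
   `ζ₃ n^(r-1)` such `y` by `hGv`, each comes from at most `n` rows: at most `ζ₃ n^r (n^r)^(r-1)`
   families;
 * the diagonal is not in `G`: at most `ζ₃ n^r` diagonals, `n^(r r - r)` families for each.
In total at most `(2 r + 1) ζ₃ n^(r r) ≤ (k0^r/2) n^(r r)` bad families.
-/

namespace Pool.Agent.Lib.TwoPaths

open Finset
open Pool.Agent.Lib.MP_952639_co

open Classical in
private theorem card_pull {V A B : Type} [Fintype V] [Fintype A] [Fintype B] (e : A → B)
    (he : Function.Injective e) (S : Finset (A → V)) (S' : Finset (B → V)) (c : ℝ)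
    (hQ : (S.card : ℝ) ≤ c * (Fintype.card V : ℝ) ^ Fintype.card A)
    (hS : ∀ U ∈ S', (fun a => U (e a)) ∈ S) :
    (S'.card : ℝ) ≤ c * (Fintype.card V : ℝ) ^ Fintype.card B := by
  have hAB : Fintype.card A ≤ Fintype.card B := Fintype.card_le_of_injective e he
  have hcd : Fintype.card {b // ¬ b ∈ Set.range e} = Fintype.card B - Fintype.card A := by
    rw [Fintype.card_subtype_compl]
    congr 1
    exact (Fintype.card_congr (Equiv.ofInjective e he)).symm
  have h1 : S'.card ≤ S.card * Fintype.card V ^ (Fintype.card B - Fintype.card A) := by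
    have h2 : S'.card ≤ (S ×ˢ (univ : Finset ({b // ¬ b ∈ Set.range e} → V))).card := by
      apply Finset.card_le_card_of_injOn (fun U => (fun a => U (e a), fun b => U b.1))
      · intro U hU
        have hU' := hS U hU
        simp [hU']
      · intro U _ W _ h
        funext b
        by_cases hb : b ∈ Set.range e
        · obtain ⟨a, rfl⟩ := hb
          exact congrFun (congrArg Prod.fst h) a
        · exact congrFun (congrArg Prod.snd h) ⟨b, hb⟩
    rw [Finset.card_product, Finset.card_univ, Fintype.card_fun, hcd] at h2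
    exact h2
  have h3 : (S'.card : ℝ) ≤ (S.card : ℝ) *
        (Fintype.card V : ℝ) ^ (Fintype.card B - Fintype.card A) := by
    exact_mod_cast h1
  calc (S'.card : ℝ) ≤ _ := h3
    _ ≤ (c * (Fintype.card V : ℝ) ^ Fintype.card A) *
        (Fintype.card V : ℝ) ^ (Fintype.card B - Fintype.card A) :=
        mul_le_mul_of_nonneg_right hQ (by positivity)
    _ = c * (Fintype.card V : ℝ) ^ Fintype.card B := by
        rw [mul_assoc, ← pow_add, Nat.add_sub_cancel' hAB]

private theorem card_upd {V : Type} [Fintype V] {r : ℕ} (hr : 1 ≤ r) (k : Fin r) (v : V)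
    (S S' : Finset (Fin r → V)) (c : ℝ)
    (hQ : (S.card : ℝ) ≤ c * (Fintype.card V : ℝ) ^ (r - 1))
    (hS : ∀ x ∈ S', Function.update x k v ∈ S) :
    (S'.card : ℝ) ≤ c * (Fintype.card V : ℝ) ^ r := by
  have h1 : S'.card ≤ (S ×ˢ (univ : Finset V)).card := by
    apply Finset.card_le_card_of_injOn (fun x => (Function.update x k v, x k))
    · intro x hx
      have hx' := hS x hx
      simp [hx']
    · intro x _ y _ h
      have h1 : Function.update x k v = Function.update y k v := congrArg Prod.fst h
      have h2 : x k = y k := congrArg Prod.snd h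
      funext j
      by_cases hj : j = k
      · rw [hj]; exact h2
      · have h3 := congrFun h1 j
        rwa [Function.update_of_ne hj, Function.update_of_ne hj] at h3
  rw [Finset.card_product, Finset.card_univ] at h1
  have h3 : (S'.card : ℝ) ≤ (S.card : ℝ) * (Fintype.card V : ℝ) := by
    exact_mod_cast h1
  calc (S'.card : ℝ) ≤ _ := h3
    _ ≤ (c * (Fintype.card V : ℝ) ^ (r - 1)) * (Fintype.card V : ℝ) :=
        mul_le_mul_of_nonneg_right hQ (by positivity)
    _ = c * (Fintype.card V : ℝ) ^ r := by
        rw [mul_assoc, ← pow_succ, Nat.sub_add_cancel hr]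

open Classical in
theorem ext_count {V : Type} [Fintype V] [DecidableEq V] {r : ℕ} (hr : 1 ≤ r) (ro : V → Fin 5)
    (P : Finset (Fin r)) (G : Finset (Fin r → V)) (k0 ζ₃ : ℝ) (hk0 : 0 ≤ k0) (hζ₃ : 0 ≤ ζ₃)
    (hcount : k0 * (Fintype.card V : ℝ) ^ r ≤ ((univ.filter fun x => Pat ro P x).card : ℝ))
    (hG : ((univ.filter fun x => Pat ro P x ∧ x ∉ G).card : ℝ) ≤ ζ₃ * (Fintype.card V : ℝ) ^ r)
    (hGv : ∀ (a : Fin r) (v : V), ((univ.filter fun x => Pat ro P x ∧ x a = v ∧ x ∉ G).card : ℝ) ≤
      ζ₃ * (Fintype.card V : ℝ) ^ (r - 1))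
    (hsmall : (2 * r + 1) * ζ₃ ≤ k0 ^ r / 2) (T : Fin r → V)
    (hT : ∀ k, ro (T k) = if k ∈ P then 0 else 1) :
    k0 ^ r / 2 * (Fintype.card V : ℝ) ^ (r * r) ≤
      ((univ.filter fun U : Fin r × Fin r → V => (∀ k, (fun j => U (k, j)) ∈ G) ∧
        (fun j => U (j, j)) ∈ G ∧
        ∀ k, Function.update (fun j => U (k, j)) k (T k) ∈ G).card : ℝ) := by
  have hB : Fintype.card (Fin r × Fin r) = r * r := by simp
  have hA : Fintype.card (Fin r) = r := by simp
  set n : ℝ := (Fintype.card V : ℝ) with hn
  have hn0 : 0 ≤ n := by rw [hn]; positivity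
  -- families with all rows of pattern P
  have hF : k0 ^ r * n ^ (r * r) ≤
      ((univ.filter fun U : Fin r × Fin r → V => ∀ k, Pat ro P (fun j => U (k, j))).card : ℝ) := by
    have h1 : (univ.filter fun U : Fin r × Fin r → V => ∀ k, Pat ro P (fun j => U (k, j))).card =
        (Fintype.piFinset (fun _ : Fin r => univ.filter fun x => Pat ro P x)).card := by
      apply Finset.card_equiv (Equiv.curry (Fin r) (Fin r) V)
      intro U
      simp only [mem_filter, mem_univ, true_and, Fintype.mem_piFinset]
      rfl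
    rw [h1, Fintype.card_piFinset, Finset.prod_const, Finset.card_univ, hA, Nat.cast_pow]
    calc k0 ^ r * n ^ (r * r) = (k0 * n ^ r) ^ r := by rw [mul_pow, pow_mul]
      _ ≤ _ := pow_le_pow_left₀ (by positivity) hcount r
  -- bad families
  have hb1 : ∀ k : Fin r, ((univ.filter fun U : Fin r × Fin r → V =>
      Pat ro P (fun j => U (k, j)) ∧ (fun j => U (k, j)) ∉ G).card : ℝ) ≤ ζ₃ * n ^ (r * r) := by
    intro k
    have h := card_pull (V := V) (fun j : Fin r => (k, j)) (fun a b h => (Prod.mk.inj h).2)
      _ (univ.filter fun U : Fin r × Fin r → V =>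
      Pat ro P (fun j => U (k, j)) ∧ (fun j => U (k, j)) ∉ G) ζ₃ (by rw [hA]; exact hG)
      (fun U hU => by
        simp only [mem_filter, mem_univ, true_and] at hU ⊢
        exact hU)
    rw [hB] at h
    exact h
  have hb2 : ∀ k : Fin r, ((univ.filter fun U : Fin r × Fin r → V =>
      Pat ro P (Function.update (fun j => U (k, j)) k (T k)) ∧
      Function.update (fun j => U (k, j)) k (T k) ∉ G).card : ℝ) ≤ ζ₃ * n ^ (r * r) := by
    intro k
    have h0 := card_upd hr k (T k) _ (univ.filter fun x : Fin r → V =>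
        Pat ro P (Function.update x k (T k)) ∧ Function.update x k (T k) ∉ G) ζ₃ (hGv k (T k))
      (fun x hx => by
        simp only [mem_filter, mem_univ, true_and] at hx ⊢
        exact ⟨hx.1, Function.update_self _ _ _, hx.2⟩)
    have h := card_pull (V := V) (fun j : Fin r => (k, j)) (fun a b h => (Prod.mk.inj h).2)
      _ (univ.filter fun U : Fin r × Fin r → V =>
      Pat ro P (Function.update (fun j => U (k, j)) k (T k)) ∧
      Function.update (fun j => U (k, j)) k (T k) ∉ G) ζ₃ (by rw [hA]; exact h0)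
      (fun U hU => by
        simp only [mem_filter, mem_univ, true_and] at hU ⊢
        exact hU)
    rw [hB] at h
    exact h
  have hb3 : ((univ.filter fun U : Fin r × Fin r → V =>
      Pat ro P (fun j => U (j, j)) ∧ (fun j => U (j, j)) ∉ G).card : ℝ) ≤ ζ₃ * n ^ (r * r) := by
    have h := card_pull (V := V) (fun j : Fin r => (j, j)) (fun a b h => (Prod.mk.inj h).2)
      _ (univ.filter fun U : Fin r × Fin r → V =>
      Pat ro P (fun j => U (j, j)) ∧ (fun j => U (j, j)) ∉ G) ζ₃ (by rw [hA]; exact hG)
      (fun U hU => by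
        simp only [mem_filter, mem_univ, true_and] at hU ⊢
        exact hU)
    rw [hB] at h
    exact h
  -- covering
  have hcov : (univ.filter fun U : Fin r × Fin r → V => ∀ k, Pat ro P (fun j => U (k, j))) ⊆
      (univ.filter fun U : Fin r × Fin r → V => (∀ k, (fun j => U (k, j)) ∈ G) ∧
        (fun j => U (j, j)) ∈ G ∧
        ∀ k, Function.update (fun j => U (k, j)) k (T k) ∈ G) ∪
      ((univ.biUnion fun k : Fin r => univ.filter fun U : Fin r × Fin r → V =>
        Pat ro P (fun j => U (k, j)) ∧ (fun j => U (k, j)) ∉ G) ∪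
      ((univ.biUnion fun k : Fin r => univ.filter fun U : Fin r × Fin r → V =>
        Pat ro P (Function.update (fun j => U (k, j)) k (T k)) ∧
        Function.update (fun j => U (k, j)) k (T k) ∉ G) ∪
      (univ.filter fun U : Fin r × Fin r → V =>
        Pat ro P (fun j => U (j, j)) ∧ (fun j => U (j, j)) ∉ G))) := by
    intro U hU
    simp only [mem_filter, mem_univ, true_and, mem_union, mem_biUnion] at hU ⊢
    by_cases h1 : ∀ k, (fun j => U (k, j)) ∈ G
    · by_cases h2 : (fun j => U (j, j)) ∈ G
      · by_cases h3 : ∀ k, Function.update (fun j => U (k, j)) k (T k) ∈ G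
        · exact Or.inl ⟨h1, h2, h3⟩
        · obtain ⟨k, hk⟩ := not_forall.1 h3
          refine Or.inr (Or.inr (Or.inl ⟨k, ?_, hk⟩))
          intro j
          by_cases hj : j = k
          · subst hj
            rw [Function.update_self]
            exact hT j
          · rw [Function.update_of_ne hj]
            exact hU k j
      · refine Or.inr (Or.inr (Or.inr ⟨?_, h2⟩))
        intro j
        exact hU j j
    · obtain ⟨k, hk⟩ := not_forall.1 h1
      exact Or.inr (Or.inl ⟨k, hU k, hk⟩)
  have hcard := Finset.card_le_card hcov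
  have hle := hcard.trans ((Finset.card_union_le _ _).trans (Nat.add_le_add_left
    ((Finset.card_union_le _ _).trans (Nat.add_le_add Finset.card_biUnion_le
      ((Finset.card_union_le _ _).trans (Nat.add_le_add_right Finset.card_biUnion_le _)))) _))
  have hleR : ((univ.filter fun U : Fin r × Fin r → V =>
      ∀ k, Pat ro P (fun j => U (k, j))).card : ℝ) ≤
      ((univ.filter fun U : Fin r × Fin r → V => (∀ k, (fun j => U (k, j)) ∈ G) ∧
        (fun j => U (j, j)) ∈ G ∧
        ∀ k, Function.update (fun j => U (k, j)) k (T k) ∈ G).card : ℝ) +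
      ((∑ k : Fin r, ((univ.filter fun U : Fin r × Fin r → V =>
        Pat ro P (fun j => U (k, j)) ∧ (fun j => U (k, j)) ∉ G).card : ℝ)) +
      ((∑ k : Fin r, ((univ.filter fun U : Fin r × Fin r → V =>
        Pat ro P (Function.update (fun j => U (k, j)) k (T k)) ∧
        Function.update (fun j => U (k, j)) k (T k) ∉ G).card : ℝ)) +
      ((univ.filter fun U : Fin r × Fin r → V =>
        Pat ro P (fun j => U (j, j)) ∧ (fun j => U (j, j)) ∉ G).card : ℝ))) := by
    exact_mod_cast hle
  have hs1 : (∑ k : Fin r, ((univ.filter fun U : Fin r × Fin r → V =>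
        Pat ro P (fun j => U (k, j)) ∧ (fun j => U (k, j)) ∉ G).card : ℝ)) ≤
        r * (ζ₃ * n ^ (r * r)) := by
    refine (Finset.sum_le_sum (fun k _ => hb1 k)).trans (le_of_eq ?_)
    rw [Finset.sum_const, Finset.card_univ, hA, nsmul_eq_mul]
  have hs2 : (∑ k : Fin r, ((univ.filter fun U : Fin r × Fin r → V =>
        Pat ro P (Function.update (fun j => U (k, j)) k (T k)) ∧
        Function.update (fun j => U (k, j)) k (T k) ∉ G).card : ℝ)) ≤
        r * (ζ₃ * n ^ (r * r)) := by
    refine (Finset.sum_le_sum (fun k _ => hb2 k)).trans (le_of_eq ?_)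
    rw [Finset.sum_const, Finset.card_univ, hA, nsmul_eq_mul]
  have hsm := mul_le_mul_of_nonneg_right hsmall (show 0 ≤ n ^ (r * r) by positivity)
  nlinarith [hleR, hs1, hs2, hb3, hF, hsm]

end Pool.Agent.Lib.TwoPaths
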