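import Pool.Agent.Lib.TwoPaths.X5a
import Pool.Agent.Lib.TwoPaths.X5b

/-!
# X5: the absorber hypothesis of the master lemma in the extremal case

PROOF.  `tm` from `exists_ext_template`.  Given `T`, `exists_perm_roles` gives `π` such that `T ∘ π` has
pattern `P`; `ext_count` for `T ∘ π` gives the lower bound for the number of `U`, each of which satisfies
`CoreAbs K (tm π) U T`; `U ↦ (π, U)` is injective.  `|Fin r × Fin r| = r r`.
-/

namespace Pool.Agent.Lib.TwoPaths

open Finset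
open Pool.Agent.Lib.MP_952639_co

open Classical in
theorem ext_absorbers (r : ℕ) (hr : 1 ≤ r) :
    ∃ tm : Equiv.Perm (Fin r) → Template r (Fin r × Fin r),
      ∀ (V : Type) [Fintype V] [DecidableEq V] (i : ℕ) (ro : V → Fin 5) (P : Finset (Fin r))
        (K : Bool → Finset (Fin r → V)) (k0 ζ₃ : ℝ), P.card = i → 0 ≤ k0 → 0 ≤ ζ₃ →
        k0 * (Fintype.card V : ℝ) ^ r ≤ ((univ.filter fun x => Pat ro P x).card : ℝ) →
        ((univ.filter fun x => Pat ro P x ∧ x ∉ K true).card : ℝ) ≤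
          ζ₃ * (Fintype.card V : ℝ) ^ r →
        (∀ (a : Fin r) (v : V),
          ((univ.filter fun x => Pat ro P x ∧ x a = v ∧ x ∉ K true).card : ℝ) ≤
          ζ₃ * (Fintype.card V : ℝ) ^ (r - 1)) →
        (2 * r + 1) * ζ₃ ≤ k0 ^ r / 2 → ∀ T : Fin r → V,
        (∀ k, ro (T k) = 0 ∨ ro (T k) = 1) → ∑ k, wtr r i ro (T k) = 0 →
        k0 ^ r / 2 * (Fintype.card V : ℝ) ^ Fintype.card (Fin r × Fin r) ≤
          ((univ.filter fun q : Equiv.Perm (Fin r) × (Fin r × Fin r → V) =>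
            CoreAbs K (tm q.1) q.2 T).card : ℝ) := by
  obtain ⟨tm, htm⟩ := exists_ext_template r
  refine ⟨tm, ?_⟩
  intro V _ _ i ro P K k0 ζ₃ hP hk0 hζ₃ hcount hG hGv hsmall T hT hw
  obtain ⟨π, hπ⟩ := exists_perm_roles hr ro P hP T hT hw
  have h := ext_count hr ro P (K true) k0 ζ₃ hk0 hζ₃ hcount hG hGv hsmall (fun k => T (π k)) hπ
  have hcard : Fintype.card (Fin r × Fin r) = r * r := by simp
  rw [hcard]
  refine h.trans ?_
  norm_cast
  apply card_le_card_of_injOn (fun U => (π, U))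
  · intro U hU
    rw [mem_coe, mem_filter] at hU ⊢
    exact ⟨mem_univ _, htm V K U T π hU.2.1 hU.2.2.1 hU.2.2.2⟩
  · intro U _ U' _ h
    exact (Prod.ext_iff.1 h).2

end Pool.Agent.Lib.TwoPaths
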