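import Pool.Agent.Lib.TwoPaths.X7

/-!
# X8: the red suffix

PROOF.  Induction on `Lv` (for all `F`).
`Lv = []`: choose `y ∈ Gd` without entries in `F`: `|Gd| ≥ (kap r/2) n^r ≥ ω n^r` (`gd_card`) and at most
`r |F| n^(r-1)` tuples meet `F` (`card_touch`).  `L = [y]`.
`v :: Lv`: apply the induction hypothesis to `Lv` and `F ∪ {v}`
(`r (|F| + 1 + 4 r (|Lv| + 1)) ≤ r (|F| + 4 r (|Lv| + 2))`); let `e` be the last tuple of `L`; apply `insertion` with
`F' = F ∪ (entries of L)`, `|F'| ≤ |F| + r (4 |Lv| + 1)`, `|F'| + 3 r ≤ |F| + 4 r (|Lv| + 1)`, and `u = e`.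
`v ∉ F'` since `L` avoids `F ∪ {v}`.  Append `[m, x, w, y]`.
The new entries are outside `F'`; so everything is distinct.
-/

namespace Pool.Agent.Lib.TwoPaths

open Finset
open Pool.Agent.Lib.MP_952639_co

private lemma pat_patS {V : Type} {r : ℕ} {ro : V → Fin 5} {P : Finset (Fin r)}
    {x : Fin r → V} (hx : ∀ j, ro (x j) = if j ∈ P then 0 else 1) :
    ∀ j, (j ∈ P → ro (x j) = 0 ∨ ro (x j) = 2) ∧ (j ∉ P → ro (x j) = 1 ∨ ro (x j) = 3) := by
  intro j
  have h := hx j
  constructor
  · intro hj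
    rw [if_pos hj] at h
    exact Or.inl h
  · intro hj
    rw [if_neg hj] at h
    exact Or.inl h

open Classical in
theorem red_suffix {V : Type} [Fintype V] [DecidableEq V] {r i : ℕ} (hr : 2 ≤ r)
    {c : Finset V → Bool} {ro : V → Fin 5} {ξ ζ ν ν' ζ₂ ζ₃ ω : ℝ} (h : Ctx r i c ro ξ ζ ν ν')
    (hν' : 0 < ν') (hV : 0 < Fintype.card V) {P : Finset (Fin r)} (hP : P.card = i)
    (hG : ((univ.filter fun x => Pat ro P x ∧ x ∉ Gd c ro P ζ₂).card : ℝ) ≤
      ζ₃ * (Fintype.card V : ℝ) ^ r) (hζ₃ : ζ₃ ≤ ν' / (4 * r)) (hζ₃' : ζ₃ ≤ kap r / 2)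
    (hζ₂ : ζ₂ ≤ kap r / 4) (hω : ω ≤ nu2 r ν') (hω' : ω ≤ kap r / 2) (Lv : List V)
    (hLv : Lv.Nodup) (hLr : ∀ v ∈ Lv, ro v = 2 ∨ ro v = 3) (F : Finset V)
    (hLF : ∀ v ∈ Lv, v ∉ F)
    (hF : (r : ℝ) * (F.card + 4 * r * (Lv.length + 1)) < ω * Fintype.card V) :
    ∃ L : List (Fin r → V), L.IsChain (Adj c) ∧
      (∃ hd ∈ Gd c ro P ζ₂, ∃ e ∈ Gd c ro P ζ₂, L.head? = some hd ∧ L.getLast? = some e) ∧
      (∀ x ∈ L, Col c true x ∧ PatS ro P x) ∧ (vs L).Nodup ∧
      (∀ v ∈ vs L, v ∉ F ∧ (v ∈ Lv ∨ ro v = 0 ∨ ro v = 1)) ∧ (∀ v ∈ Lv, v ∈ vs L) ∧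
      L.length = 4 * Lv.length + 1 := by
  have hn0 : (0 : ℝ) < Fintype.card V := by exact_mod_cast hV
  have hr1 : (2 : ℝ) ≤ r := by exact_mod_cast hr
  have hr0 : (0 : ℝ) < r := by linarith
  induction Lv generalizing F with
  | nil =>
    -- choose `y`
    have h1 := gd_card (by omega) h hP hζ₃' hG
    have h2 : ∃ y ∈ Gd c ro P ζ₂, ¬ ∃ j, y j ∈ F := by
      by_contra hc
      push Not at hc
      have h3 : Gd c ro P ζ₂ ⊆ univ.filter fun w : Fin r → V => ∃ j, w j ∈ F := by
        intro y hy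
        rw [mem_filter]
        exact ⟨mem_univ _, hc y hy⟩
      have h4 : ((Gd c ro P ζ₂).card : ℝ) ≤
          ((univ.filter fun w : Fin r → V => ∃ j, w j ∈ F).card : ℝ) := by
        exact_mod_cast card_le_card h3
      have h5 := card_touch (r := r) F
      have hpow : (0 : ℝ) < (Fintype.card V : ℝ) ^ r := by positivity
      have h6 : ω * (Fintype.card V : ℝ) ^ r ≤ ((Gd c ro P ζ₂).card : ℝ) :=
        le_trans (mul_le_mul_of_nonneg_right hω' hpow.le) h1
      have h7 : ω * (Fintype.card V : ℝ) ^ r * Fintype.card V ≤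
          r * F.card * (Fintype.card V : ℝ) ^ r :=
        le_trans (mul_le_mul_of_nonneg_right (h6.trans h4) hn0.le) h5
      have h8 : (ω * Fintype.card V) * (Fintype.card V : ℝ) ^ r ≤
          (r * F.card) * (Fintype.card V : ℝ) ^ r := by
        calc (ω * Fintype.card V) * (Fintype.card V : ℝ) ^ r
            = ω * (Fintype.card V : ℝ) ^ r * Fintype.card V := by ring
          _ ≤ _ := h7
      have h9 : ω * Fintype.card V ≤ r * F.card := le_of_mul_le_mul_right h8 hpow
      simp only [List.length_nil, Nat.cast_zero, zero_add, mul_one] at hF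
      nlinarith
    obtain ⟨y, hy, hyF⟩ := h2
    have hy' : Pat ro P y ∧ Col c true y := by
      have h3 := hy
      rw [Gd, mem_filter] at h3
      exact ⟨h3.2.1, h3.2.2.1⟩
    refine ⟨[y], List.isChain_singleton _, ⟨y, hy, y, hy, rfl, rfl⟩, ?_, ?_, ?_, ?_, ?_⟩
    · intro x hx
      rw [List.mem_singleton] at hx
      subst hx
      exact ⟨hy'.2, pat_patS hy'.1⟩
    · rw [nodup_vs_iff]
      refine ⟨?_, List.pairwise_singleton _ _⟩
      intro x hx
      rw [List.mem_singleton] at hx
      subst hx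
      exact hy'.2.1
    · intro v hv
      rw [mem_vs] at hv
      obtain ⟨x, hx, j, hj⟩ := hv
      rw [List.mem_singleton] at hx
      subst hx
      subst hj
      refine ⟨fun hc => hyF ⟨j, hc⟩, Or.inr ?_⟩
      have h3 := hy'.1 j
      split_ifs at h3 with h4
      · exact Or.inl h3
      · exact Or.inr h3
    · intro v hv
      exact absurd hv (by simp)
    · simp
  | cons v Lv ih =>
    have hnd := List.nodup_cons.1 hLv
    have hcard : ((insert v F).card : ℝ) ≤ F.card + 1 := by
      exact_mod_cast card_insert_le v F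
    have hF1 : (r : ℝ) * ((insert v F).card + 4 * r * (Lv.length + 1)) < ω * Fintype.card V := by
      refine lt_of_le_of_lt ?_ hF
      apply mul_le_mul_of_nonneg_left _ hr0.le
      have : ((v :: Lv).length : ℝ) = Lv.length + 1 := by simp
      rw [this]
      nlinarith
    obtain ⟨L, hch, ⟨hd, hhd, e, he, hhead, hlast⟩, hcol, hnod, havoid, hcov, hlen⟩ :=
      ih hnd.2 (fun w hw => hLr w (List.mem_cons_of_mem _ hw)) (insert v F)
        (fun w hw => by
          rw [mem_insert]
          push Not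
          exact ⟨fun hc => hnd.1 (hc ▸ hw), hLF w (List.mem_cons_of_mem _ hw)⟩) hF1
    have hvF' : v ∉ F ∪ (vs L).toFinset := by
      rw [mem_union, List.mem_toFinset]
      rintro (hc | hc)
      · exact hLF v List.mem_cons_self hc
      · exact (havoid v hc).1 (mem_insert_self _ _)
    have hcard' : ((F ∪ (vs L).toFinset).card : ℝ) ≤ F.card + r * (4 * Lv.length + 1) := by
      have h1 : (F ∪ (vs L).toFinset).card ≤ F.card + r * (4 * Lv.length + 1) := by
        refine (card_union_le _ _).trans ?_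
        apply Nat.add_le_add_left
        refine (List.toFinset_card_le _).trans ?_
        rw [length_vs, hlen]
      exact_mod_cast h1
    have hF2 : (r : ℝ) * ((F ∪ (vs L).toFinset).card + 3 * r) < ω * Fintype.card V := by
      refine lt_of_le_of_lt ?_ hF
      apply mul_le_mul_of_nonneg_left _ hr0.le
      have : ((v :: Lv).length : ℝ) = Lv.length + 1 := by simp
      rw [this]
      nlinarith
    obtain ⟨m, x, w, y, hem, hch', hy, hcol', hvm, hnod', havoid'⟩ :=
      insertion hr h hν' hV hP hG hζ₃ hζ₂ hω hω' v (hLr v List.mem_cons_self)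
        (F ∪ (vs L).toFinset) hvF' hF2 e he
    have hvs : vs (L ++ [m, x, w, y]) = vs L ++ vs [m, x, w, y] := by
      simp only [vs, List.flatMap_append]
    refine ⟨L ++ [m, x, w, y], ?_, ⟨hd, hhd, y, hy, ?_, ?_⟩, ?_, ?_, ?_, ?_, ?_⟩
    · rw [List.isChain_append]
      refine ⟨hch, hch', ?_⟩
      intro a ha b hb
      rw [hlast, Option.mem_some_iff] at ha
      simp only [List.head?_cons, Option.mem_some_iff] at hb
      rw [← ha, ← hb]
      exact hem
    · rw [List.head?_append, hhead]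
      rfl
    · rw [List.getLast?_append]
      rfl
    · intro t ht
      rcases List.mem_append.1 ht with ht | ht
      · exact hcol t ht
      · exact hcol' t ht
    · rw [hvs, List.nodup_append']
      refine ⟨hnod, hnod', ?_⟩
      intro t ht ht'
      exact (havoid' t ht').1 (mem_union_right _ (List.mem_toFinset.2 ht))
    · intro t ht
      rw [hvs] at ht
      rcases List.mem_append.1 ht with ht | ht
      · obtain ⟨h1, h2⟩ := havoid t ht
        refine ⟨fun hc => h1 (mem_insert_of_mem hc), ?_⟩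
        rcases h2 with h2 | h2
        · exact Or.inl (List.mem_cons_of_mem _ h2)
        · exact Or.inr h2
      · obtain ⟨h1, h2⟩ := havoid' t ht
        refine ⟨fun hc => h1 (mem_union_left _ hc), ?_⟩
        rcases h2 with h2 | h2
        · rw [h2]
          exact Or.inl List.mem_cons_self
        · exact Or.inr h2
    · intro t ht
      rw [hvs, List.mem_append]
      rcases List.mem_cons.1 ht with ht | ht
      · rw [ht]
        exact Or.inr hvm
      · exact Or.inl (hcov t ht)
    · rw [List.length_append, hlen]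
      simp only [List.length_cons, List.length_nil]
      ring

end Pool.Agent.Lib.TwoPaths
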