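import Pool.Agent.Lib.TwoPaths.X3

/-!
# X9b: transitions between letters

(mixL_mem) coordinate by coordinate; for `t ≥ 1` the condition of `InL` at `t` does not involve the first
component of the letter; coordinate `0` is taken from `y` iff `j ≥ 1`.

(dL_mix) for `j = 0`: `mixL ℓ ℓ' 0` and `mixL ℓ' ℓ 0` have the first components of `ℓ`, `ℓ'`; for
`j ≥ 1` the first components are exchanged; `dL` depends only on the first component.

(trans_count) If `InL ro ℓ x`, `InL ro ℓ' y` and `¬ PAdj c false x y` then for some `j`, which may be taken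
`≤ r` (for `j ≥ r` the mixture is `y`), `mix x y {t | t < j}` is not `Col c false`; it is a tuple of
the letter `mixL ℓ ℓ' j`, and `mix y x {t | t < j}` is a tuple of the letter `mixL ℓ' ℓ j`.  By
`mix_count`, the hypothesis and `box_le` there are at most
`ω n^(dL (mixL ℓ ℓ' j)) n^(dL (mixL ℓ' ℓ j)) = ω n^(dL ℓ + dL ℓ')` such pairs for each of the `r + 1`
values of `j`.

(okl_count) For `ℓ` with `OkL`: if `ℓ = (none, P)`, `InL ro ℓ x ↔ Pat ro P x` and `Ctx.blue`
applies; if `ℓ = (some γ, P)`, `InL ro ℓ x ↔ PatOff ro P 0 x ∧ x 0 = γ`, `0 ∉ P`, and `Ctx.gam` applies.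
`dL ℓ = r`, `r - 1` respectively.

(wt_letter) sum over the coordinates: the coordinates in `ℓ.2` contribute `r - i`, the other free
coordinates `-i`, and coordinate `0` of a letter `(some γ, P)` has role `4`, weight `0` (`0 ∉ P`).

(okl_size) from `box_count`: if `i = r` then `OkL` implies `ℓ = (some γ, P)` with `0 ∉ P` and
`|P| = r - 1` (`|P| = r` is impossible as `0 ∉ P`), so every coordinate `≠ 0` is in `P`; if `i < r` both
roles `0`, `1` have at least `n/(2r)` vertices.
-/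

namespace Pool.Agent.Lib.TwoPaths

open Finset
open Pool.Agent.Lib.MP_952639_co

section

variable {V : Type} [Fintype V] [DecidableEq V] {r i : ℕ}

theorem mixL_mem (ro : V → Fin 5) (ℓ ℓ' : Letter V r) (x y : Fin r → V) (hx : InL ro ℓ x)
    (hy : InL ro ℓ' y) (j : ℕ) :
    InL ro (mixL ℓ ℓ' j) (mix x y (univ.filter fun t : Fin r => (t : ℕ) < j)) := by
  intro t
  have hxt := hx t
  have hyt := hy t
  by_cases ht : (t : ℕ) < j
  · have hj : j ≠ 0 := by omega
    have e1 : mix x y (univ.filter fun t : Fin r => (t : ℕ) < j) t = y t := by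
      simp [mix, ht]
    have e2 : (mixL ℓ ℓ' j).1 = ℓ'.1 := by simp [mixL, hj]
    have e3 : t ∈ (mixL ℓ ℓ' j).2 ↔ t ∈ ℓ'.2 := by simp [mixL, ht]
    rw [e1, e2]
    simp only [e3]
    exact hyt
  · have e1 : mix x y (univ.filter fun t : Fin r => (t : ℕ) < j) t = x t := by
      simp [mix, ht]
    have e3 : t ∈ (mixL ℓ ℓ' j).2 ↔ t ∈ ℓ.2 := by
      have hle : j ≤ (t : ℕ) := not_lt.1 ht
      simp [mixL, hle]
    rw [e1]
    simp only [e3]
    by_cases hj : j = 0
    · have e2 : (mixL ℓ ℓ' j).1 = ℓ.1 := by simp [mixL, hj]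
      rw [e2]
      exact hxt
    · have h0 : ¬ (t : ℕ) = 0 := by omega
      simp only [h0, false_and, if_false] at hxt ⊢
      exact hxt

theorem dL_mix (ℓ ℓ' : Letter V r) (j : ℕ) :
    dL (mixL ℓ ℓ' j) + dL (mixL ℓ' ℓ j) = dL ℓ + dL ℓ' := by
  by_cases hj : j = 0
  · simp [dL, mixL, hj]
  · simp only [dL, mixL, hj, if_false]
    rw [add_comm]

open Classical in
theorem trans_count (hr : 1 ≤ r) (c : Finset V → Bool) (ro : V → Fin 5) (ℓ ℓ' : Letter V r)
    (ω : ℝ) (hω : 0 ≤ ω)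
    (h : ∀ j ≤ r, ((univ.filter fun z => InL ro (mixL ℓ ℓ' j) z ∧ ¬ Col c false z).card : ℝ) ≤
      ω * (Fintype.card V : ℝ) ^ dL (mixL ℓ ℓ' j)) :
    ((univ.filter fun p : (Fin r → V) × (Fin r → V) =>
      InL ro ℓ p.1 ∧ InL ro ℓ' p.2 ∧ ¬ PAdj c false p.1 p.2).card : ℝ) ≤
      (r + 1) * ω * (Fintype.card V : ℝ) ^ (dL ℓ + dL ℓ') := by
  set S : ℕ → Finset (Fin r) := fun j => univ.filter fun t : Fin r => (t : ℕ) < j with hS
  set Z : ℕ → Finset (Fin r → V) := fun j =>
    univ.filter fun z => InL ro (mixL ℓ ℓ' j) z ∧ ¬ Col c false z with hZ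
  set W : ℕ → Finset (Fin r → V) := fun j =>
    univ.filter fun z => InL ro (mixL ℓ' ℓ j) z with hW
  have hsub : (univ.filter fun p : (Fin r → V) × (Fin r → V) =>
      InL ro ℓ p.1 ∧ InL ro ℓ' p.2 ∧ ¬ PAdj c false p.1 p.2) ⊆
      (Finset.range (r + 1)).biUnion fun j =>
        (univ.filter fun p : (Fin r → V) × (Fin r → V) =>
          mix p.1 p.2 (S j) ∈ Z j ∧ mix p.2 p.1 (S j) ∈ W j) := by
    intro p hp
    simp only [mem_filter, mem_univ, true_and] at hp
    obtain ⟨h1, h2, h3⟩ := hp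
    unfold PAdj at h3
    push Not at h3
    obtain ⟨j, hj⟩ := h3
    have hmin : S (min j r) = univ.filter fun i : Fin r => (i : ℕ) < j := by
      rw [hS]
      apply Finset.filter_congr
      intro t _
      have := t.2
      omega
    simp only [mem_biUnion, mem_range, mem_filter, mem_univ, true_and]
    refine ⟨min j r, by omega, ?_, ?_⟩
    · simp only [hZ, mem_filter, mem_univ, true_and]
      refine ⟨mixL_mem ro ℓ ℓ' p.1 p.2 h1 h2 (min j r), ?_⟩
      rw [hmin]
      exact hj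
    · simp only [hW, mem_filter, mem_univ, true_and]
      exact mixL_mem ro ℓ' ℓ p.2 p.1 h2 h1 (min j r)
  have hcard : ∀ j ∈ Finset.range (r + 1),
      (((univ.filter fun p : (Fin r → V) × (Fin r → V) =>
          mix p.1 p.2 (S j) ∈ Z j ∧ mix p.2 p.1 (S j) ∈ W j).card : ℕ) : ℝ) ≤
        ω * (Fintype.card V : ℝ) ^ (dL ℓ + dL ℓ') := by
    intro j hj
    have hj' : j ≤ r := by
      have := Finset.mem_range.1 hj
      omega
    have e := mix_count (S j) (Z j) (W j)
    have e' : ((univ.filter fun p : (Fin r → V) × (Fin r → V) =>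
          mix p.1 p.2 (S j) ∈ Z j ∧ mix p.2 p.1 (S j) ∈ W j).card : ℕ) = (Z j).card * (W j).card := by
      rw [← e]
    rw [e', Nat.cast_mul]
    have h1 := h j hj'
    have h2 := box_le hr ro (mixL ℓ' ℓ j)
    have h3 : 0 ≤ ω * (Fintype.card V : ℝ) ^ dL (mixL ℓ ℓ' j) := by positivity
    calc ((Z j).card : ℝ) * ((W j).card : ℝ)
        ≤ (ω * (Fintype.card V : ℝ) ^ dL (mixL ℓ ℓ' j)) *
          (Fintype.card V : ℝ) ^ dL (mixL ℓ' ℓ j) :=
          mul_le_mul h1 h2 (Nat.cast_nonneg _) h3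
      _ = ω * (Fintype.card V : ℝ) ^ (dL ℓ + dL ℓ') := by
          rw [mul_assoc, ← pow_add, dL_mix]
  calc ((univ.filter fun p : (Fin r → V) × (Fin r → V) =>
        InL ro ℓ p.1 ∧ InL ro ℓ' p.2 ∧ ¬ PAdj c false p.1 p.2).card : ℝ)
      ≤ (((Finset.range (r + 1)).biUnion fun j =>
        (univ.filter fun p : (Fin r → V) × (Fin r → V) =>
          mix p.1 p.2 (S j) ∈ Z j ∧ mix p.2 p.1 (S j) ∈ W j)).card : ℝ) := by
        exact_mod_cast Finset.card_le_card hsub
    _ ≤ ((∑ j ∈ Finset.range (r + 1), (univ.filter fun p : (Fin r → V) × (Fin r → V) =>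
          mix p.1 p.2 (S j) ∈ Z j ∧ mix p.2 p.1 (S j) ∈ W j).card : ℕ) : ℝ) := by
        exact_mod_cast Finset.card_biUnion_le
    _ = ∑ j ∈ Finset.range (r + 1), (((univ.filter fun p : (Fin r → V) × (Fin r → V) =>
          mix p.1 p.2 (S j) ∈ Z j ∧ mix p.2 p.1 (S j) ∈ W j).card : ℕ) : ℝ) := by
        push_cast
        rfl
    _ ≤ ∑ _j ∈ Finset.range (r + 1), ω * (Fintype.card V : ℝ) ^ (dL ℓ + dL ℓ') :=
        Finset.sum_le_sum hcard
    _ = (r + 1) * ω * (Fintype.card V : ℝ) ^ (dL ℓ + dL ℓ') := by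
        rw [Finset.sum_const, Finset.card_range, nsmul_eq_mul]
        push_cast
        ring

open Classical in
theorem okl_count (hr : 1 ≤ r) {c : Finset V → Bool} {ro : V → Fin 5} {ξ ζ ν ν' : ℝ}
    (h : Ctx r i c ro ξ ζ ν ν') (ℓ : Letter V r) (hℓ : OkL i ro ℓ) :
    ((univ.filter fun z => InL ro ℓ z ∧ ¬ Col c false z).card : ℝ) ≤
      max ζ ν * (Fintype.card V : ℝ) ^ dL ℓ := by
  rcases hℓ with ⟨h1, h2, h3⟩ | ⟨γ, h1, h2, h3, h4⟩
  · have hb := h.blue h2 ℓ.2 h3
    have hd : dL ℓ = r := by simp [dL, h1]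
    rw [hd]
    have hsub : (univ.filter fun z => InL ro ℓ z ∧ ¬ Col c false z) ⊆
        (univ.filter fun x => Pat ro ℓ.2 x ∧ ¬ Col c false x) := by
      intro z hz
      simp only [mem_filter, mem_univ, true_and] at hz ⊢
      refine ⟨?_, hz.2⟩
      intro j
      have := hz.1 j
      simpa [h1] using this
    have hle : ((univ.filter fun z => InL ro ℓ z ∧ ¬ Col c false z).card : ℝ) ≤
        ((univ.filter fun x => Pat ro ℓ.2 x ∧ ¬ Col c false x).card : ℝ) := by
      exact_mod_cast Finset.card_le_card hsub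
    calc _ ≤ _ := hle
      _ ≤ ζ * (Fintype.card V : ℝ) ^ r := hb
      _ ≤ max ζ ν * (Fintype.card V : ℝ) ^ r :=
        mul_le_mul_of_nonneg_right (le_max_left _ _) (by positivity)
  · have h0 : (⟨0, hr⟩ : Fin r) ∉ ℓ.2 := fun hh => h3 _ hh rfl
    have hb := h.gam γ h2 ℓ.2 ⟨0, hr⟩ h0 h4
    have hd : dL ℓ = r - 1 := by simp [dL, h1]
    rw [hd]
    have hsub : (univ.filter fun z => InL ro ℓ z ∧ ¬ Col c false z) ⊆
        (univ.filter fun x => PatOff ro ℓ.2 ⟨0, hr⟩ x ∧ x ⟨0, hr⟩ = γ ∧ ¬ Col c false x) := by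
      intro z hz
      simp only [mem_filter, mem_univ, true_and] at hz ⊢
      refine ⟨?_, ?_, hz.2⟩
      · intro j hj
        have := hz.1 j
        have hj0 : ¬ (j : ℕ) = 0 := fun hh => hj (Fin.ext hh)
        simpa [hj0] using this
      · have := hz.1 ⟨0, hr⟩
        simp only [h1, ne_eq, reduceCtorEq, not_false_eq_true, and_self, if_true] at this
        exact (Option.some.inj this).symm
    have hle : ((univ.filter fun z => InL ro ℓ z ∧ ¬ Col c false z).card : ℝ) ≤
        ((univ.filter fun x => PatOff ro ℓ.2 ⟨0, hr⟩ x ∧ x ⟨0, hr⟩ = γ ∧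
          ¬ Col c false x).card : ℝ) := by
      exact_mod_cast Finset.card_le_card hsub
    calc _ ≤ _ := hle
      _ ≤ ν * (Fintype.card V : ℝ) ^ (r - 1) := hb
      _ ≤ max ζ ν * (Fintype.card V : ℝ) ^ (r - 1) :=
        mul_le_mul_of_nonneg_right (le_max_right _ _) (by positivity)

open Classical in
theorem okl_size (hr : 1 ≤ r) {c : Finset V → Bool} {ro : V → Fin 5} {ξ ζ ν ν' : ℝ}
    (h : Ctx r i c ro ξ ζ ν ν') (ℓ : Letter V r) (hℓ : OkL i ro ℓ) :
    kap r * (Fintype.card V : ℝ) ^ dL ℓ ≤ ((univ.filter fun x => InL ro ℓ x).card : ℝ) := by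
  apply box_count hr ro ℓ h.sizeA
  by_cases hi : i < r
  · exact Or.inr (h.sizeB hi)
  · left
    have hir : i = r := le_antisymm h.hi.2 (not_lt.1 hi)
    rcases hℓ with ⟨_, h2, _⟩ | ⟨γ, h1, h2, h3, h4⟩
    · exact absurd h2 hi
    · intro j hj
      have hj0 : ¬ (j : ℕ) = 0 := by
        intro hh
        apply hj
        exact ⟨hh, by rw [h1]; exact Option.some_ne_none γ⟩
      have hsub : ℓ.2 ⊆ univ.erase (⟨0, hr⟩ : Fin r) := by
        intro t ht
        rw [mem_erase]
        exact ⟨fun hh => h3 t ht (by rw [hh]), mem_univ _⟩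
      have hc : (univ.erase (⟨0, hr⟩ : Fin r)).card = r - 1 := by
        rw [card_erase_of_mem (mem_univ _), card_univ, Fintype.card_fin]
      have hle := Finset.card_le_card hsub
      have heq : ℓ.2 = univ.erase (⟨0, hr⟩ : Fin r) := by
        apply Finset.eq_of_subset_of_card_le hsub
        omega
      rw [heq, mem_erase]
      exact ⟨fun hh => hj0 (by rw [hh]), mem_univ _⟩

theorem wt_letter (hr : 1 ≤ r) (ro : V → Fin 5) (ℓ : Letter V r) (hℓ : OkL i ro ℓ)
    (x : Fin r → V) (hx : InL ro ℓ x) : ∑ t, wtr r i ro (x t) = wtL i ℓ := by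
  have hsumP : ∑ t : Fin r, (if t ∈ ℓ.2 then (r : ℤ) else 0) = ℓ.2.card * r := by
    rw [← Finset.sum_filter]
    simp
  rcases hℓ with ⟨h1, _, _⟩ | ⟨γ, h1, h2, h3, _⟩
  · have hw : ∀ t, wtr r i ro (x t) = (if t ∈ ℓ.2 then (r : ℤ) else 0) - i := by
      intro t
      have h4 := hx t
      simp only [h1, ne_eq, not_true_eq_false, and_false, if_false] at h4
      unfold wtr
      by_cases ht : t ∈ ℓ.2
      · simp [h4, ht]
      · simp [h4, ht]
    have hd : dL ℓ = r := by simp [dL, h1]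
    unfold wtL
    rw [Finset.sum_congr rfl (fun t _ => hw t), Finset.sum_sub_distrib, hsumP, hd,
      Finset.sum_const, card_univ, Fintype.card_fin, nsmul_eq_mul]
    ring
  · have hw : ∀ t, wtr r i ro (x t) = (if t ∈ ℓ.2 then (r : ℤ) else 0) -
        (if t = ⟨0, hr⟩ then 0 else (i : ℤ)) := by
      intro t
      have h4 := hx t
      by_cases ht0 : t = ⟨0, hr⟩
      · subst ht0
        have h0 : (⟨0, hr⟩ : Fin r) ∉ ℓ.2 := fun hh => h3 _ hh rfl
        simp only [h1, ne_eq, reduceCtorEq, not_false_eq_true, and_self, if_true] at h4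
        have h5 : x ⟨0, hr⟩ = γ := (Option.some.inj h4).symm
        unfold wtr
        rw [h5, h2]
        simp [h0]
      · have hne : ¬ (t : ℕ) = 0 := fun hh => ht0 (Fin.ext hh)
        simp only [hne, false_and, if_false] at h4
        unfold wtr
        by_cases ht : t ∈ ℓ.2
        · simp [h4, ht, ht0]
        · simp [h4, ht, ht0]
    have hd : (dL ℓ : ℤ) = (r : ℤ) - 1 := by
      have : dL ℓ = r - 1 := by simp [dL, h1]
      rw [this]
      push_cast [Nat.cast_sub hr]
      ring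
    have hs2 : ∑ t : Fin r, (if t = ⟨0, hr⟩ then 0 else (i : ℤ)) = ((r : ℤ) - 1) * i := by
      have h6 : ∀ t : Fin r, (if t = ⟨0, hr⟩ then 0 else (i : ℤ))
          = (i : ℤ) - (if t = ⟨0, hr⟩ then (i : ℤ) else 0) := by
        intro t
        by_cases ht : t = ⟨0, hr⟩ <;> simp [ht]
      rw [Finset.sum_congr rfl (fun t _ => h6 t), Finset.sum_sub_distrib, Finset.sum_const,
        card_univ, Fintype.card_fin, nsmul_eq_mul]
      simp
      ring
    unfold wtL
    rw [Finset.sum_congr rfl (fun t _ => hw t), Finset.sum_sub_distrib, hsumP, hd, hs2]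
    ring

end

end Pool.Agent.Lib.TwoPaths
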