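import Pool.Agent.Lib.TwoPaths.XDefs

/-!
# X9c: the word of the blue path

Let `P1 = {1, …, i - 1}` (as a subset of `Fin r`; `|P1| = i - 1 ≤ r - 1`), so `0 ∉ P1`.  If `i < r` let
`m = i` (as an element of `Fin r`, `m ≠ 0`, `m ∉ P1`).  Letters:
`D = (none, P1)`, `C γ = (some γ, P1)`, `E γ = (some γ, insert m P1)`,
`U = (none, insert 0 (insert m P1))`.  Weights: `wtL D = -r`, `wtL (C γ) = -(r - i)`, `wtL (E γ) = i`,
`wtL U = r`.  All are `OkL` (`D, E, U` only for `i < r`).
The words: let `Γl = [γ_1, …, γ_g]`.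
 * `k ≤ 0`: `D^|k| C γ_1 … C γ_g`; weight `r k - g (r - i)`; if `i = r` then `k = 0`.
 * `k > 0` (so `i < r`), `g = 0`: `U^k`; weight `r k`.
 * `k > 0`, `g ≥ 1`: `C γ_1 … C γ_{g-1} E γ_g U^(k-1)`; weight
   `-(g - 1)(r - i) + i + r (k - 1) = r k - g (r - i)`.
Transitions (`mixL ℓ ℓ' j` is `OkL` for all `j`):
 `D → D`, `U → U`: always the same letter.
 `D → C γ`: `j = 0`: `D`; `j ≥ 1`: `(some γ, P1)`.
 `C γ → C γ'`: `j = 0`: `C γ`, `j ≥ 1`: `(some γ', P1)`.
 `C γ → E γ'`: `j = 0`: `C γ`; `1 ≤ j ≤ m`: `(some γ', P1)`; `j > m`: `(some γ', insert m P1)`.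
 `E γ → U`: `j = 0`: `E γ`; `j ≥ 1`: `(none, insert 0 (insert m P1))`.
The lengths are `|k| + g`, `k`, `g + k - 1`.
-/

namespace Pool.Agent.Lib.TwoPaths

open Finset
open Pool.Agent.Lib.MP_952639_co

/-- The interval pattern `{a, …, b - 1}`. -/
private def Q (r a b : ℕ) : Finset (Fin r) :=
  univ.filter fun t : Fin r => a ≤ (t : ℕ) ∧ (t : ℕ) < b

private theorem card_Q {r a b : ℕ} (hb : b ≤ r) : (Q r a b).card = b - a := by
  have h : (Q r a b).map Fin.valEmbedding = Finset.Ico a b := by
    ext x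
    simp only [Q, mem_map, mem_filter, mem_univ, true_and, Fin.valEmbedding_apply, mem_Ico]
    constructor
    · rintro ⟨t, ht, rfl⟩
      exact ht
    · intro hx
      exact ⟨⟨x, by omega⟩, hx, rfl⟩
  have h2 := congrArg Finset.card h
  rw [card_map, Nat.card_Ico] at h2
  exact h2

private theorem mixL_same {V : Type} [Fintype V] [DecidableEq V] {r : ℕ} (x y : Option V)
    (P : Finset (Fin r)) (j : ℕ) :
    mixL (x, P) (y, P) j = (if j = 0 then x else y, P) := by
  unfold mixL
  refine Prod.ext rfl ?_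
  ext t
  simp only [mem_filter, mem_univ, true_and]
  by_cases h : (t : ℕ) < j <;> simp [h]

private theorem ok_of_same {V : Type} [Fintype V] [DecidableEq V] {r i : ℕ} {ro : V → Fin 5}
    {x y : Option V} {P : Finset (Fin r)} (hx : OkL i ro ((x, P) : Letter V r))
    (hy : OkL i ro ((y, P) : Letter V r)) (j : ℕ) :
    OkL i ro (mixL ((x, P) : Letter V r) (y, P) j) := by
  rw [mixL_same]
  split_ifs
  · exact hx
  · exact hy

private theorem okD {V : Type} [Fintype V] [DecidableEq V] {r i : ℕ} (ro : V → Fin 5)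
    (hi : 1 ≤ i) (hr : i < r) : OkL i ro ((none, Q r 1 i) : Letter V r) := by
  left
  refine ⟨rfl, hr, Or.inl ?_⟩
  show (Q r 1 i).card + 1 = i
  rw [card_Q hr.le]
  omega

private theorem okC {V : Type} [Fintype V] [DecidableEq V] {r i : ℕ} (ro : V → Fin 5)
    (hi : 1 ≤ i) (hr : i ≤ r) {γ : V} (hγ : ro γ = 4) :
    OkL i ro ((some γ, Q r 1 i) : Letter V r) := by
  right
  refine ⟨γ, rfl, hγ, ?_, Or.inl ?_⟩
  · intro t ht
    simp only [Q, mem_filter, mem_univ, true_and] at ht
    omega
  · show (Q r 1 i).card + 1 = i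
    rw [card_Q hr]
    omega

private theorem okE {V : Type} [Fintype V] [DecidableEq V] {r i : ℕ} (ro : V → Fin 5)
    (hr : i < r) {γ : V} (hγ : ro γ = 4) :
    OkL i ro ((some γ, Q r 1 (i + 1)) : Letter V r) := by
  right
  refine ⟨γ, rfl, hγ, ?_, Or.inr ?_⟩
  · intro t ht
    simp only [Q, mem_filter, mem_univ, true_and] at ht
    omega
  · show (Q r 1 (i + 1)).card = i
    rw [card_Q (by omega)]
    omega

private theorem okU {V : Type} [Fintype V] [DecidableEq V] {r i : ℕ} (ro : V → Fin 5)
    (hr : i < r) : OkL i ro ((none, Q r 0 (i + 1)) : Letter V r) := by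
  left
  refine ⟨rfl, hr, Or.inr ?_⟩
  show (Q r 0 (i + 1)).card = i + 1
  rw [card_Q (by omega)]
  omega

private theorem tCE {V : Type} [Fintype V] [DecidableEq V] {r i : ℕ} (ro : V → Fin 5)
    (hi : 1 ≤ i) (hr : i < r) {γ γ' : V} (hγ : ro γ = 4) (hγ' : ro γ' = 4) (j : ℕ) :
    OkL i ro (mixL ((some γ, Q r 1 i) : Letter V r) (some γ', Q r 1 (i + 1)) j) := by
  have h : mixL ((some γ, Q r 1 i) : Letter V r) (some γ', Q r 1 (i + 1)) j =
      (if j = 0 then some γ else some γ', if i < j then Q r 1 (i + 1) else Q r 1 i) := by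
    unfold mixL
    refine Prod.ext rfl ?_
    ext t
    by_cases h1 : i < j
    · simp only [Q, if_pos h1, mem_filter, mem_univ, true_and]
      omega
    · simp only [Q, if_neg h1, mem_filter, mem_univ, true_and]
      omega
  rw [h]
  by_cases h0 : j = 0
  · subst h0
    rw [if_pos rfl, if_neg (by omega)]
    exact okC ro hi hr.le hγ
  · rw [if_neg h0]
    by_cases h1 : i < j
    · rw [if_pos h1]
      exact okE ro hr hγ'
    · rw [if_neg h1]
      exact okC ro hi hr.le hγ'

private theorem tEU {V : Type} [Fintype V] [DecidableEq V] {r i : ℕ} (ro : V → Fin 5)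
    (hr : i < r) {γ : V} (hγ : ro γ = 4) (j : ℕ) :
    OkL i ro (mixL ((some γ, Q r 1 (i + 1)) : Letter V r) (none, Q r 0 (i + 1)) j) := by
  have h : mixL ((some γ, Q r 1 (i + 1)) : Letter V r) (none, Q r 0 (i + 1)) j =
      (if j = 0 then some γ else none, if j = 0 then Q r 1 (i + 1) else Q r 0 (i + 1)) := by
    unfold mixL
    refine Prod.ext rfl ?_
    ext t
    by_cases h1 : j = 0
    · simp only [Q, if_pos h1, mem_filter, mem_univ, true_and]
      omega
    · simp only [Q, if_neg h1, mem_filter, mem_univ, true_and]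
      omega
  rw [h]
  by_cases h0 : j = 0
  · rw [if_pos h0, if_pos h0]
    exact okE ro hr hγ
  · rw [if_neg h0, if_neg h0]
    exact okU ro hr

private theorem wD {V : Type} [Fintype V] [DecidableEq V] {r i : ℕ} (hi : 1 ≤ i) (hr : i ≤ r) :
    wtL i ((none, Q r 1 i) : Letter V r) = -(r : ℤ) := by
  unfold wtL dL
  rw [if_pos rfl]
  show ((Q r 1 i).card : ℤ) * _ - (_ - ((Q r 1 i).card : ℤ)) * _ = _
  rw [card_Q hr]
  push_cast [Nat.cast_sub hi]
  ring

private theorem wC {V : Type} [Fintype V] [DecidableEq V] {r i : ℕ} (hi : 1 ≤ i) (hr : i ≤ r)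
    (γ : V) : wtL i ((some γ, Q r 1 i) : Letter V r) = -((r : ℤ) - i) := by
  unfold wtL dL
  rw [if_neg (by simp)]
  show ((Q r 1 i).card : ℤ) * _ - (_ - ((Q r 1 i).card : ℤ)) * _ = _
  rw [card_Q hr, Nat.cast_sub hi, Nat.cast_sub (by omega : 1 ≤ r)]
  push_cast
  ring

private theorem wE {V : Type} [Fintype V] [DecidableEq V] {r i : ℕ} (hr : i < r)
    (γ : V) : wtL i ((some γ, Q r 1 (i + 1)) : Letter V r) = (i : ℤ) := by
  unfold wtL dL
  rw [if_neg (by simp)]
  show ((Q r 1 (i + 1)).card : ℤ) * _ - (_ - ((Q r 1 (i + 1)).card : ℤ)) * _ = _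
  rw [card_Q (by omega), Nat.add_sub_cancel, Nat.cast_sub (by omega : 1 ≤ r)]
  push_cast
  ring

private theorem wU {V : Type} [Fintype V] [DecidableEq V] {r i : ℕ} (hr : i < r) :
    wtL i ((none, Q r 0 (i + 1)) : Letter V r) = (r : ℤ) := by
  unfold wtL dL
  rw [if_pos rfl]
  show ((Q r 0 (i + 1)).card : ℤ) * _ - (_ - ((Q r 0 (i + 1)).card : ℤ)) * _ = _
  rw [card_Q (by omega)]
  push_cast
  ring

private theorem sumC {V : Type} [Fintype V] [DecidableEq V] {r i : ℕ} (hi : 1 ≤ i) (hr : i ≤ r)
    (l : List V) :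
    ((l.map fun γ => ((some γ, Q r 1 i) : Letter V r)).map (wtL i)).sum =
      -(l.length * ((r : ℤ) - i)) := by
  induction l with
  | nil => simp
  | cons a l ih =>
    rw [List.map_cons, List.map_cons, List.sum_cons, ih, wC hi hr, List.length_cons]
    push_cast
    ring

private theorem fmC {V : Type} {r : ℕ} (P : Finset (Fin r)) (l : List V) :
    (l.map fun γ => ((some γ, P) : Letter V r)).filterMap Prod.fst = l := by
  induction l with
  | nil => simp
  | cons a l ih => simp [ih]

private theorem fmN {V : Type} {r : ℕ} (P : Finset (Fin r)) (n : ℕ) :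
    (List.replicate n ((none, P) : Letter V r)).filterMap Prod.fst = [] := by
  induction n with
  | zero => simp
  | succ n ih => simp [List.replicate_succ]

private theorem chain_of_forall {α : Type*} {R : α → α → Prop} {l : List α}
    (h : ∀ a ∈ l, ∀ b ∈ l, R a b) : l.IsChain R :=
  (List.pairwise_of_forall_mem_list h).isChain

theorem blue_letters {V : Type} [Fintype V] [DecidableEq V] {r i : ℕ} (hi : 1 ≤ i ∧ i ≤ r)
    (ro : V → Fin 5) (Γl : List V) (hΓ : ∀ v ∈ Γl, ro v = 4) (k : ℤ) (hk : i = r → k = 0) :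
    ∃ ls : List (Letter V r), (∀ ℓ ∈ ls, OkL i ro ℓ) ∧
      ls.IsChain (fun ℓ ℓ' => ∀ j, OkL i ro (mixL ℓ ℓ' j)) ∧ ls.filterMap Prod.fst = Γl ∧
      ls.length ≤ Γl.length + k.natAbs ∧
      (ls.map (wtL i)).sum = r * k - Γl.length * ((r : ℤ) - i) := by
  rcases le_or_gt k 0 with h0 | h0
  · -- `k ≤ 0`
    have hmem : ∀ ℓ ∈ (List.replicate k.natAbs ((none, Q r 1 i) : Letter V r) ++
        Γl.map fun γ => ((some γ, Q r 1 i) : Letter V r)), OkL i ro ℓ ∧ ℓ.2 = Q r 1 i := by
      intro ℓ hℓ
      rcases List.mem_append.1 hℓ with h | h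
      · obtain ⟨hn, rfl⟩ := List.mem_replicate.1 h
        have hir : i < r := by
          rcases lt_or_eq_of_le hi.2 with h1 | h1
          · exact h1
          · exact absurd (by rw [hk h1]; rfl) hn
        exact ⟨okD ro hi.1 hir, rfl⟩
      · obtain ⟨γ, hγ, rfl⟩ := List.mem_map.1 h
        exact ⟨okC ro hi.1 hi.2 (hΓ γ hγ), rfl⟩
    refine ⟨List.replicate k.natAbs ((none, Q r 1 i) : Letter V r) ++
        Γl.map fun γ => ((some γ, Q r 1 i) : Letter V r), fun ℓ hℓ => (hmem ℓ hℓ).1, ?_, ?_, ?_, ?_⟩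
    · apply chain_of_forall
      rintro ⟨x, P⟩ ha ⟨y, P'⟩ hb j
      obtain ⟨h1, h2⟩ := hmem _ ha
      obtain ⟨h3, h4⟩ := hmem _ hb
      simp only at h2 h4
      subst h2
      subst h4
      exact ok_of_same h1 h3 j
    · rw [List.filterMap_append, fmC, fmN, List.nil_append]
    · rw [List.length_append, List.length_replicate, List.length_map, add_comm]
    · rw [List.map_append, List.sum_append, sumC hi.1 hi.2, List.map_replicate,
        List.sum_replicate, wD hi.1 hi.2, nsmul_eq_mul]
      have : ((k.natAbs : ℕ) : ℤ) = -k := by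
        rw [Int.natCast_natAbs, abs_of_nonpos h0]
      rw [this]
      ring
  · -- `k > 0`
    have hir : i < r := by
      rcases lt_or_eq_of_le hi.2 with h1 | h1
      · exact h1
      · rw [hk h1] at h0
        exact absurd h0 (lt_irrefl _)
    obtain ⟨n, rfl⟩ : ∃ n : ℕ, k = n + 1 := ⟨(k - 1).toNat, by omega⟩
    have hn : ((n : ℤ) + 1).natAbs = n + 1 := by omega
    rcases List.eq_nil_or_concat Γl with rfl | ⟨Γ', γ, rfl⟩
    · refine ⟨List.replicate (n + 1) ((none, Q r 0 (i + 1)) : Letter V r), ?_, ?_, ?_, ?_, ?_⟩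
      · intro ℓ hℓ
        obtain ⟨-, rfl⟩ := List.mem_replicate.1 hℓ
        exact okU ro hir
      · apply chain_of_forall
        intro a ha b hb j
        obtain ⟨-, rfl⟩ := List.mem_replicate.1 ha
        obtain ⟨-, rfl⟩ := List.mem_replicate.1 hb
        exact ok_of_same (okU ro hir) (okU ro hir) j
      · exact fmN _ _
      · rw [List.length_replicate, hn]
        simp
      · rw [List.map_replicate, List.sum_replicate, wU hir, nsmul_eq_mul]
        push_cast
        simp only [List.length_nil]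
        push_cast
        ring
    · rw [List.concat_eq_append] at hΓ ⊢
      have hγ : ro γ = 4 := hΓ γ (by simp)
      have hΓ' : ∀ v ∈ Γ', ro v = 4 := fun v hv => hΓ v (by simp [hv])
      refine ⟨(Γ'.map fun γ => ((some γ, Q r 1 i) : Letter V r)) ++
        (((some γ, Q r 1 (i + 1)) : Letter V r) ::
          List.replicate n ((none, Q r 0 (i + 1)) : Letter V r)), ?_, ?_, ?_, ?_, ?_⟩
      · intro ℓ hℓ
        rcases List.mem_append.1 hℓ with h | h
        · obtain ⟨γ', hγ', rfl⟩ := List.mem_map.1 h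
          exact okC ro hi.1 hi.2 (hΓ' γ' hγ')
        · rcases List.mem_cons.1 h with rfl | h
          · exact okE ro hir hγ
          · obtain ⟨-, rfl⟩ := List.mem_replicate.1 h
            exact okU ro hir
      · rw [List.isChain_append]
        refine ⟨?_, ?_, ?_⟩
        · apply chain_of_forall
          intro a ha b hb j
          obtain ⟨γ1, h1, rfl⟩ := List.mem_map.1 ha
          obtain ⟨γ2, h2, rfl⟩ := List.mem_map.1 hb
          exact ok_of_same (okC ro hi.1 hi.2 (hΓ' γ1 h1)) (okC ro hi.1 hi.2 (hΓ' γ2 h2)) j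
        · rw [List.isChain_cons]
          refine ⟨?_, ?_⟩
          · intro b hb j
            have hb' := List.mem_of_mem_head? hb
            obtain ⟨-, rfl⟩ := List.mem_replicate.1 hb'
            exact tEU ro hir hγ j
          · apply chain_of_forall
            intro a ha b hb j
            obtain ⟨-, rfl⟩ := List.mem_replicate.1 ha
            obtain ⟨-, rfl⟩ := List.mem_replicate.1 hb
            exact ok_of_same (okU ro hir) (okU ro hir) j
        · intro a ha b hb j
          have ha' := List.mem_of_mem_getLast? ha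
          obtain ⟨γ1, h1, rfl⟩ := List.mem_map.1 ha'
          simp only [List.head?_cons, Option.mem_def, Option.some.injEq] at hb
          subst hb
          exact tCE ro hi.1 hir (hΓ' γ1 h1) hγ j
      · rw [List.filterMap_append, fmC]
        congr 1
        simp only [List.filterMap_cons, fmN]
      · rw [hn]
        simp only [List.length_append, List.length_map, List.length_cons, List.length_replicate,
          List.length_nil]
        omega
      · rw [List.map_append, List.sum_append, sumC hi.1 hi.2, List.map_cons, List.sum_cons,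
          List.map_replicate, List.sum_replicate, wU hir, wE hir, nsmul_eq_mul]
        simp only [List.length_append, List.length_cons, List.length_nil]
        push_cast
        ring

end Pool.Agent.Lib.TwoPaths
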