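import Pool.Agent.Lib.TwoPaths.X9a
import Pool.Agent.Lib.TwoPaths.X9b
import Pool.Agent.Lib.TwoPaths.X9c

/-!
# X9: the blue path

PROOF.  `Γl` = a list without repetition of the vertices of role `4` (length `nro ro 4`).  `blue_letters` gives
`ls`.  `greedy_letters` with `k0 = kap r` applies: sizes by `okl_size`; `hcol` by `okl_count`
(`max ζ ν ≤ (r+1) max ζ ν ≤ σ² ≤ σ`); `htr` by `trans_count` with `ω = max ζ ν` and `okl_count`;
`ls.filterMap Prod.fst = Γl`.  (If a letter of `ls` has first component `some γ` then `γ ∈ Γl`, role `4`.)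
The vertices of role `4` in `vs Bl`: coordinate `0` of the tuple of the letter with `some γ` is `γ`, so
every vertex of role `4` occurs; the other entries have role `0` or `1`.
The weight: `wt_letter` and the sum over the word.
-/

namespace Pool.Agent.Lib.TwoPaths

open Finset
open Pool.Agent.Lib.MP_952639_co

private theorem forall₂_left {α β : Type*} {R : α → β → Prop} {l : List α} {u : List β}
    (h : List.Forall₂ R l u) : ∀ a ∈ l, ∃ b ∈ u, R a b := by
  induction h with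
  | nil => simp
  | cons hab _ ih =>
    intro a ha
    rcases List.mem_cons.1 ha with rfl | ha
    · exact ⟨_, List.mem_cons_self .., hab⟩
    · obtain ⟨b, hb, h⟩ := ih a ha
      exact ⟨b, List.mem_cons_of_mem _ hb, h⟩

private theorem forall₂_right {α β : Type*} {R : α → β → Prop} {l : List α} {u : List β}
    (h : List.Forall₂ R l u) : ∀ b ∈ u, ∃ a ∈ l, R a b := by
  induction h with
  | nil => simp
  | cons hab _ ih =>
    intro b hb
    rcases List.mem_cons.1 hb with rfl | hb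
    · exact ⟨_, List.mem_cons_self .., hab⟩
    · obtain ⟨a, ha, h⟩ := ih b hb
      exact ⟨a, List.mem_cons_of_mem _ ha, h⟩

private theorem sum_wt {V : Type} [Fintype V] [DecidableEq V] {r i : ℕ} (hr : 1 ≤ r)
    (ro : V → Fin 5) {ls : List (Letter V r)} {Bl : List (Fin r → V)}
    (h : List.Forall₂ (InL ro) ls Bl) (hls : ∀ ℓ ∈ ls, OkL i ro ℓ) :
    ((vs Bl).map (wtr r i ro)).sum = (ls.map (wtL i)).sum := by
  induction h with
  | nil => simp [vs]
  | @cons ℓ x ls Bl hab _ ih =>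
    have ih' := ih fun ℓ hℓ => hls ℓ (List.mem_cons_of_mem _ hℓ)
    have h1 := wt_letter hr ro ℓ (hls ℓ (List.mem_cons_self ..)) x hab
    have e : vs (x :: Bl) = List.ofFn x ++ vs Bl := by simp [vs]
    rw [e, List.map_append, List.sum_append, ih', List.map_cons, List.sum_cons, List.map_ofFn,
      List.sum_ofFn]
    congr 1

theorem blue_path {V : Type} [Fintype V] [DecidableEq V] {r i : ℕ} (hr : 2 ≤ r)
    {c : Finset V → Bool} {ro : V → Fin 5} {ξ ζ ν ν' σ : ℝ} (h : Ctx r i c ro ξ ζ ν ν')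
    (hζ : 0 ≤ ζ) (hσ : 0 < σ) (hσ1 : σ ≤ 1) (hσk : 8 * σ ≤ kap r)
    (hζν : (r + 1) * max ζ ν ≤ σ ^ 2) (hV : 0 < Fintype.card V) (k : ℤ) (hk : i = r → k = 0)
    (hsize : (r : ℝ) * (r * (nro ro 4 + |(k : ℝ)|)) ≤ kap r / 4 * Fintype.card V) :
    ∃ Bl : List (Fin r → V), Bl.IsChain (PAdj c false) ∧ (∀ x ∈ Bl, Col c false x) ∧
      (vs Bl).Nodup ∧ (∀ v, ro v = 4 → v ∈ vs Bl) ∧
      (∀ v ∈ vs Bl, ro v = 0 ∨ ro v = 1 ∨ ro v = 4) ∧
      (Bl.length : ℝ) ≤ nro ro 4 + |(k : ℝ)| ∧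
      ((vs Bl).map (wtr r i ro)).sum = r * k - nro ro 4 * ((r : ℤ) - i) := by
  classical
  have hr1 : 1 ≤ r := by omega
  set Γl : List V := (univ.filter fun v => ro v = 4).toList with hΓl
  have hΓlen : Γl.length = nro ro 4 := by rw [hΓl, length_toList]; rfl
  have hΓmem : ∀ v, v ∈ Γl ↔ ro v = 4 := by
    intro v
    rw [hΓl, mem_toList, mem_filter]
    simp
  obtain ⟨ls, hls, hch, hfm, hlen, hsum⟩ :=
    blue_letters h.hi ro Γl (fun v hv => (hΓmem v).1 hv) k hk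
  have hm0 : 0 ≤ max ζ ν := le_max_of_le_left hζ
  have hmσ : max ζ ν ≤ σ := by
    have h1 : max ζ ν ≤ (r + 1) * max ζ ν := by
      have : (0 : ℝ) ≤ (r : ℝ) * max ζ ν := by positivity
      linarith
    have h2 : σ ^ 2 ≤ σ := by nlinarith
    linarith
  have hn0 : (0 : ℝ) ≤ Fintype.card V := Nat.cast_nonneg _
  have hγ4 : ∀ ℓ ∈ ls, ∀ γ, ℓ.1 = some γ → ro γ = 4 := by
    intro ℓ hℓ γ hγ
    apply (hΓmem γ).1
    rw [← hfm]
    exact List.mem_filterMap.2 ⟨ℓ, hℓ, hγ⟩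
  have hlen' : (ls.length : ℝ) ≤ nro ro 4 + |(k : ℝ)| := by
    have h1 : (ls.length : ℝ) ≤ (Γl.length + k.natAbs : ℕ) := by exact_mod_cast hlen
    rw [hΓlen, Nat.cast_add] at h1
    rwa [Nat.cast_natAbs, Int.cast_abs] at h1
  obtain ⟨Bl, hB1, hB2, hB3, hB4⟩ := greedy_letters hr c ro (kap r) σ hσ hσk hV ls
    (fun ℓ hℓ => okl_size hr1 h ℓ (hls ℓ hℓ))
    (fun ℓ hℓ => (okl_count hr1 h ℓ (hls ℓ hℓ)).trans
      (mul_le_mul_of_nonneg_right hmσ (by positivity)))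
    (hch.imp (fun ℓ ℓ' hj => (trans_count hr1 c ro ℓ ℓ' (max ζ ν) hm0
      (fun j _ => okl_count hr1 h _ (hj j))).trans
        (mul_le_mul_of_nonneg_right hζν (by positivity))))
    (by rw [hfm]; exact nodup_toList _) hγ4
    (le_trans (mul_le_mul_of_nonneg_left (mul_le_mul_of_nonneg_left hlen' (by positivity))
      (by positivity)) hsize)
  refine ⟨Bl, hB2, hB3, hB4, ?_, ?_, ?_, ?_⟩
  · intro v hv
    have hv' : v ∈ ls.filterMap Prod.fst := by rw [hfm]; exact (hΓmem v).2 hv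
    obtain ⟨ℓ, hℓ, hℓv⟩ := List.mem_filterMap.1 hv'
    obtain ⟨x, hx, hin⟩ := forall₂_left hB1 ℓ hℓ
    have h0 := hin ⟨0, by omega⟩
    rw [if_pos ⟨rfl, by rw [hℓv]; simp⟩, hℓv] at h0
    exact mem_vs.2 ⟨x, hx, _, (Option.some.inj h0).symm⟩
  · intro v hv
    obtain ⟨x, hx, t, rfl⟩ := mem_vs.1 hv
    obtain ⟨ℓ, hℓ, hin⟩ := forall₂_right hB1 x hx
    have h0 := hin t
    split_ifs at h0 with h1 h2
    · exact Or.inr (Or.inr (hγ4 ℓ hℓ _ h0))
    · exact Or.inl h0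
    · exact Or.inr (Or.inl h0)
  · rw [← hB1.length_eq]
    exact hlen'
  · rw [sum_wt hr1 ro hB1 hls, hsum, hΓlen]

end Pool.Agent.Lib.TwoPaths
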