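import Pool.Agent.Lib.TwoPaths.M9
import Pool.Agent.Lib.TwoPaths.X2
import Pool.Agent.Lib.TwoPaths.X4
import Pool.Agent.Lib.TwoPaths.X5
import Pool.Agent.Lib.TwoPaths.X8
import Pool.Agent.Lib.TwoPaths.X9
import Pool.Agent.Lib.TwoPaths.X10

/-!
# X11a: the fixed part of the red path and the blue path

PROOF.  `n = |V|`, `N = n / r`, `ρ₀ = n % r`, `n = r N + ρ₀`.  `exists_pattern` gives `P`, with
`a' = ρ₀ - (r - i)` (natural subtraction) entries below `ρ₀`.
`k = nro 0 + nro 2 + nro 4 - a' - i N`.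
(k1) If `i = r` then `nro 0 + nro 2 + nro 4 = n` (field `top`), `a' = ρ₀`, `k = 0`.
(k2) `|k| ≤ 2 ξ n + r`: `k = (nro 0 - i n/r) + (nro 2 + nro 4) + (i ρ₀/r - a')`, by `bal`, `few`, and
`0 ≤ i ρ₀/r ≤ r`, `0 ≤ a' ≤ r`.  So `nro 4 + |k| ≤ 3 ξ n + r`.
`blue_path` gives `Bl`, `|vs Bl| = r |Bl| ≤ r (3 ξ n + r)`.
`red_suffix` with `F` = the entries of `Bl` and `Lv` = the list of vertices of role `2`, `3`
(`|Lv| ≤ ξ n`; they are not entries of `Bl`) gives `L`, `|vs L| = r (4 |Lv| + 1)`.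
Let `e` be the last tuple of `L`, `e ∈ Gd`.  At least `(kap r - ζ₂) n^r ≥ (kap r/2) n^r` tuples `y` of pattern `P` have
`Adj c e y` (`pat_count`), at most `r |E| n^(r-1)` of them meet the set `E` of entries of `Bl` and `L`
(`card_touch`), and `r |E| < (kap r/2) n`; so there is such a `y` without entries in `E`.  It is
injective (`Adj`).  `t = (List.ofFn y).take ρ₀`.
Weights: by `total_weight`, `pats_weight` (for the tuples of `L`), `prefix_weight` and `blue_path`:
`∑_V wtr = r (nro 0 + nro 2) - i (n - nro 4)`, and the entries of `Bl`, `L`, `t` have total weight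
`r k - nro 4 (r - i) + 0 + r a' - i ρ₀`.  The difference is
`r (nro 0 + nro 2) - i n + i nro 4 - r k + nro 4 (r - i) - r a' + i ρ₀
= r (nro 0 + nro 2 + nro 4 - a' - k) - i (n - ρ₀) = r i N - i r N = 0`.
The number of entries is `r |Bl| + r |L| + ρ₀`, and `n - ρ₀ = r N`; so `r` divides the size of the
complement.
-/

namespace Pool.Agent.Lib.TwoPaths

open Finset
open Pool.Agent.Lib.MP_952639_co

private lemma vs_weight {V : Type} {r : ℕ} (f : V → ℤ) (L : List (Fin r → V))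
    (h : ∀ x ∈ L, ∑ t, f (x t) = 0) : ((vs L).map f).sum = 0 := by
  induction L with
  | nil => rfl
  | cons x L ih =>
    have h1 : vs (x :: L) = List.ofFn x ++ vs L := rfl
    have h2 : ((List.ofFn x).map f).sum = ∑ t, f (x t) := by
      rw [List.map_ofFn, List.sum_ofFn]
      rfl
    rw [h1, List.map_append, List.sum_append, h2, h x (List.mem_cons_self),
      ih (fun y hy => h y (List.mem_cons_of_mem _ hy)), add_zero]

private lemma nro_sum {V : Type} [Fintype V] [DecidableEq V] (ro : V → Fin 5) :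
    nro ro 0 + nro ro 1 + nro ro 2 + nro ro 3 + nro ro 4 = Fintype.card V := by
  classical
  have h := Finset.card_eq_sum_card_fiberwise (s := (univ : Finset V)) (t := (univ : Finset (Fin 5)))
    (f := ro) (fun v _ => Finset.mem_coe.2 (Finset.mem_univ _))
  rw [Finset.card_univ] at h
  rw [h, Fin.sum_univ_five]
  rfl

private lemma nro_or {V : Type} [Fintype V] [DecidableEq V] (ro : V → Fin 5) :
    (univ.filter fun v => ro v = 2 ∨ ro v = 3).card ≤ nro ro 2 + nro ro 3 := by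
  classical
  unfold nro
  rw [Finset.filter_or]
  exact Finset.card_union_le _ _

open Classical in
theorem fixed_part {V : Type} [Fintype V] [DecidableEq V] {r i : ℕ} (hr : 2 ≤ r)
    {c : Finset V → Bool} {ro : V → Fin 5} {ξ ζ ν ζ₃ σ ω τ : ℝ}
    (h : Ctx r i c ro ξ ζ ν (ν / 4)) (hζ : 0 ≤ ζ) (hν : 0 < ν) (hξ : 0 ≤ ξ)
    (hσ : 0 < σ) (hσ1 : σ ≤ 1) (hσk : 8 * σ ≤ kap r) (hζν : (r + 1) * max ζ ν ≤ σ ^ 2)
    (hG : ∀ P : Finset (Fin r), P.card = i →
      ((univ.filter fun x => Pat ro P x ∧ x ∉ Gd c ro P (kap r / 4)).card : ℝ) ≤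
      ζ₃ * (Fintype.card V : ℝ) ^ r) (hζ₃ : ζ₃ ≤ ν / 4 / (4 * r)) (hζ₃' : ζ₃ ≤ kap r / 2)
    (hω : ω ≤ nu2 r (ν / 4)) (hω' : ω ≤ kap r / 2) (hτ : τ ≤ kap r / 4) (hτω : τ ≤ ω)
    (hV : 0 < Fintype.card V)
    (hbig : (r : ℝ) ^ 2 * (7 * ξ * Fintype.card V + 2 * r + 4) < τ * Fintype.card V) :
    ∃ (P : Finset (Fin r)) (Bl L : List (Fin r → V)) (y : Fin r → V) (ρ₀ : ℕ), P.card = i ∧
      ρ₀ < r ∧ Bl.IsChain (PAdj c false) ∧ (∀ x ∈ Bl, Col c false x) ∧
      L.IsChain (Adj c) ∧ (∀ x ∈ L, Col c true x) ∧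
      (∃ hd ∈ Gd c ro P (kap r / 4), ∃ L', L = hd :: L') ∧
      (∃ L' e, L = L' ++ [e] ∧ Adj c e y) ∧
      (vs Bl ++ vs L ++ (List.ofFn y).take ρ₀).Nodup ∧
      (∀ v, ro v ≠ 0 → ro v ≠ 1 → v ∈ vs Bl ++ vs L ++ (List.ofFn y).take ρ₀) ∧
      ((vs Bl ++ vs L ++ (List.ofFn y).take ρ₀).length : ℝ) ≤ τ * Fintype.card V ∧
      (∑ v ∈ (vs Bl ++ vs L ++ (List.ofFn y).take ρ₀).toFinsetᶜ, wtr r i ro v) = 0 ∧
      r ∣ ((vs Bl ++ vs L ++ (List.ofFn y).take ρ₀).toFinsetᶜ).card := by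
  have hr1 : 1 ≤ r := by omega
  have hrR : (2 : ℝ) ≤ r := by exact_mod_cast hr
  have hr0 : (0 : ℝ) < r := by linarith
  obtain ⟨n, hn⟩ : ∃ n : ℕ, n = Fintype.card V := ⟨_, rfl⟩
  obtain ⟨nR, hnR⟩ : ∃ nR : ℝ, nR = (Fintype.card V : ℝ) := ⟨_, rfl⟩
  have hnR' : nR = (n : ℝ) := by rw [hnR, hn]
  have hn0 : 0 < nR := by
    rw [hnR]
    exact_mod_cast hV
  have hkap : 0 < kap r := by
    unfold kap
    positivity
  obtain ⟨N, hN⟩ : ∃ N : ℕ, N = n / r := ⟨_, rfl⟩
  obtain ⟨ρ₀, hρ₀⟩ : ∃ ρ₀ : ℕ, ρ₀ = n % r := ⟨_, rfl⟩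
  have hρr : ρ₀ < r := by
    rw [hρ₀]
    exact Nat.mod_lt _ (by omega)
  have hdiv : r * N + ρ₀ = n := by
    rw [hN, hρ₀]
    exact Nat.div_add_mod n r
  obtain ⟨P, hP, hPa⟩ := exists_pattern r i ρ₀ h.hi hρr
  obtain ⟨a', ha'⟩ : ∃ a' : ℕ, a' = ρ₀ - (r - i) := ⟨_, rfl⟩
  rw [← ha'] at hPa
  have ha'ρ : a' ≤ ρ₀ := by
    rw [ha']
    exact Nat.sub_le _ _
  have hi1 := h.hi.1
  have hi2 := h.hi.2
  have hsum := nro_sum ro
  rw [← hn] at hsum
  obtain ⟨k, hk⟩ : ∃ k : ℤ, k = (nro ro 0 : ℤ) + nro ro 2 + nro ro 4 - a' - i * N := ⟨_, rfl⟩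
  have hk0 : i = r → k = 0 := by
    intro hir
    have htop := h.top hir
    have h1 : nro ro 1 = 0 := by
      unfold nro
      rw [Finset.card_eq_zero, Finset.filter_eq_empty_iff]
      intro v _
      exact (htop v).1
    have h3 : nro ro 3 = 0 := by
      unfold nro
      rw [Finset.card_eq_zero, Finset.filter_eq_empty_iff]
      intro v _
      exact (htop v).2
    have h4 : a' = ρ₀ := by
      rw [ha', hir, Nat.sub_self, Nat.sub_zero]
    rw [hk, h4, hir]
    rw [h1, h3] at hsum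
    have h5 : (nro ro 0 : ℤ) + nro ro 2 + nro ro 4 = n := by
      exact_mod_cast (by omega : nro ro 0 + nro ro 2 + nro ro 4 = n)
    have h6 : (r : ℤ) * N + ρ₀ = n := by exact_mod_cast hdiv
    linarith
  have hfew := h.few
  rw [← hnR] at hfew
  push_cast at hfew
  have hbal := h.bal
  rw [← hnR] at hbal
  have hn00 : (0 : ℝ) ≤ nro ro 0 := Nat.cast_nonneg _
  have hn20 : (0 : ℝ) ≤ nro ro 2 := Nat.cast_nonneg _
  have hn30 : (0 : ℝ) ≤ nro ro 3 := Nat.cast_nonneg _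
  have hn40 : (0 : ℝ) ≤ nro ro 4 := Nat.cast_nonneg _
  have hξn : 0 ≤ ξ * nR := mul_nonneg hξ hn0.le
  have hkR : (k : ℝ) = (nro ro 0 - i * nR / r) + (nro ro 2 + nro ro 4) + (i * ρ₀ / r - a') := by
    have h6 : nR = r * N + ρ₀ := by
      rw [hnR', ← hdiv]
      push_cast
      ring
    rw [hk, h6]
    push_cast
    field_simp
    ring
  have hiρ : (i : ℝ) * ρ₀ / r ≤ r := by
    rw [div_le_iff₀ hr0]
    have h1 : (i : ℝ) ≤ r := by exact_mod_cast hi2
    have h2 : (ρ₀ : ℝ) ≤ r := by exact_mod_cast hρr.le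
    exact mul_le_mul h1 h2 (Nat.cast_nonneg _) hr0.le
  have hiρ0 : 0 ≤ (i : ℝ) * ρ₀ / r := by positivity
  have ha'R : (a' : ℝ) ≤ r := by exact_mod_cast ha'ρ.trans hρr.le
  have ha'0 : (0 : ℝ) ≤ a' := Nat.cast_nonneg _
  have hkabs : |(k : ℝ)| ≤ 2 * ξ * nR + r := by
    rw [abs_le] at hbal ⊢
    obtain ⟨hb1, hb2⟩ := hbal
    rw [hkR]
    constructor
    · linarith
    · linarith
  have h4k : (nro ro 4 : ℝ) + |(k : ℝ)| ≤ 3 * ξ * nR + r := by linarith
  rw [← hnR] at hbig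
  have hr2 : (0 : ℝ) ≤ (r : ℝ) ^ 2 := by positivity
  have hτn : (r : ℝ) ^ 2 * (7 * ξ * nR + 2 * r + 4) < kap r / 4 * nR :=
    lt_of_lt_of_le hbig (mul_le_mul_of_nonneg_right hτ hn0.le)
  have hωn : (r : ℝ) ^ 2 * (7 * ξ * nR + 2 * r + 4) < ω * nR :=
    lt_of_lt_of_le hbig (mul_le_mul_of_nonneg_right hτω hn0.le)
  obtain ⟨Bl, hBc, hBcol, hBnd, hB4, hBro, hBlen, hBw⟩ := blue_path hr h hζ hσ hσ1 hσk hζν hV k hk0
    (by
      rw [← hnR]
      refine le_trans ?_ hτn.le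
      have h1 : (r : ℝ) * (r * (nro ro 4 + |(k : ℝ)|)) = (r : ℝ) ^ 2 * (nro ro 4 + |(k : ℝ)|) := by
        ring
      rw [h1]
      refine mul_le_mul_of_nonneg_left ?_ hr2
      linarith)
  have hvB : ((vs Bl).length : ℝ) ≤ r * (3 * ξ * nR + r) := by
    rw [length_vs]
    push_cast
    exact mul_le_mul_of_nonneg_left (hBlen.trans h4k) hr0.le
  obtain ⟨Lv, hLv⟩ : ∃ Lv : List V, Lv = (univ.filter fun v => ro v = 2 ∨ ro v = 3).toList :=
    ⟨_, rfl⟩
  have hLvm : ∀ v, v ∈ Lv ↔ ro v = 2 ∨ ro v = 3 := by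
    intro v
    rw [hLv, Finset.mem_toList, Finset.mem_filter]
    simp
  have hLvl : (Lv.length : ℝ) ≤ ξ * nR := by
    rw [hLv, Finset.length_toList]
    have h1 : ((univ.filter fun v => ro v = 2 ∨ ro v = 3).card : ℝ) ≤
        (nro ro 2 : ℝ) + nro ro 3 := by
      exact_mod_cast nro_or ro
    linarith
  have hFc : (((vs Bl).toFinset.card : ℕ) : ℝ) ≤ r * (3 * ξ * nR + r) := by
    refine le_trans ?_ hvB
    exact_mod_cast List.toFinset_card_le _
  obtain ⟨L, hLc, ⟨hd, hhd, e, he, hLh, hLe⟩, hLcol, hLnd, hLF, hLvL, hLlen⟩ :=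
    red_suffix hr h (by positivity : 0 < ν / 4) hV hP (hG P hP) hζ₃ hζ₃' le_rfl hω hω' Lv
    (by rw [hLv]; exact Finset.nodup_toList _) (fun v hv => (hLvm v).1 hv) (vs Bl).toFinset
    (fun v hv hvF => by
      rw [List.mem_toFinset] at hvF
      rcases (hLvm v).1 hv with h1 | h1 <;> rcases hBro v hvF with h2 | h2 | h2 <;>
        rw [h1] at h2 <;> exact absurd h2 (by decide))
    (by
      rw [← hnR]
      refine lt_of_le_of_lt ?_ hωn
      have h1 : (r : ℝ) * ((((vs Bl).toFinset.card : ℕ) : ℝ) + 4 * r * (Lv.length + 1)) ≤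
          (r : ℝ) * (r * (3 * ξ * nR + r) + 4 * r * (ξ * nR + 1)) := by
        refine mul_le_mul_of_nonneg_left ?_ hr0.le
        refine add_le_add hFc ?_
        refine mul_le_mul_of_nonneg_left ?_ (by positivity)
        linarith
      refine h1.trans ?_
      have h2 : (r : ℝ) * (r * (3 * ξ * nR + r) + 4 * r * (ξ * nR + 1)) =
          (r : ℝ) ^ 2 * (7 * ξ * nR + r + 4) := by ring
      rw [h2]
      refine mul_le_mul_of_nonneg_left ?_ hr2
      linarith)
  have hvL : ((vs L).length : ℝ) ≤ r * (4 * ξ * nR + 1) := by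
    rw [length_vs, hLlen]
    push_cast
    refine mul_le_mul_of_nonneg_left ?_ hr0.le
    linarith
  obtain ⟨E, hE⟩ : ∃ E : Finset V, E = (vs Bl ++ vs L).toFinset := ⟨_, rfl⟩
  have hEc : (E.card : ℝ) ≤ r * (7 * ξ * nR + r + 1) := by
    have h1 : ((E.card : ℕ) : ℝ) ≤ ((vs Bl).length : ℝ) + ((vs L).length : ℝ) := by
      have h2 := List.toFinset_card_le (vs Bl ++ vs L)
      rw [List.length_append, ← hE] at h2
      exact_mod_cast h2
    have h3 : (r : ℝ) * (7 * ξ * nR + r + 1) = r * (3 * ξ * nR + r) + r * (4 * ξ * nR + 1) := by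
      ring
    rw [h3]
    linarith
  -- the tuple `y`
  obtain ⟨y, hyP, hyA, hyE⟩ : ∃ y : Fin r → V, Pat ro P y ∧ Adj c e y ∧ ∀ j, y j ∉ E := by
    by_contra hcon
    push Not at hcon
    have h1 := pat_count hr1 h hP
    have h2 : ((univ.filter fun y => Pat ro P y ∧ ¬ Adj c e y).card : ℝ) ≤
        kap r / 4 * (Fintype.card V : ℝ) ^ r := by
      have h3 := he
      unfold Gd at h3
      rw [Finset.mem_filter] at h3
      exact h3.2.2.2
    have h3 := card_touch (r := r) E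
    have h4 : (univ.filter fun y : Fin r → V => Pat ro P y) ⊆
        (univ.filter fun y => Pat ro P y ∧ ¬ Adj c e y) ∪
        (univ.filter fun w : Fin r → V => ∃ i, w i ∈ E) := by
      intro y hy
      rw [Finset.mem_filter] at hy
      rw [Finset.mem_union, Finset.mem_filter, Finset.mem_filter]
      by_cases hA : Adj c e y
      · right
        exact ⟨Finset.mem_univ _, hcon y hy.2 hA⟩
      · left
        exact ⟨Finset.mem_univ _, hy.2, hA⟩
    have h5 : ((univ.filter fun y : Fin r → V => Pat ro P y).card : ℝ) ≤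
        ((univ.filter fun y => Pat ro P y ∧ ¬ Adj c e y).card : ℝ) +
        ((univ.filter fun w : Fin r → V => ∃ i, w i ∈ E).card : ℝ) := by
      exact_mod_cast (Finset.card_le_card h4).trans (Finset.card_union_le _ _)
    rw [← hnR] at h1 h2 h3
    obtain ⟨W, hW⟩ : ∃ W : ℝ, W = nR ^ r := ⟨_, rfl⟩
    obtain ⟨K, hK⟩ : ∃ K : ℝ, K = ((univ.filter fun w : Fin r → V => ∃ i, w i ∈ E).card : ℝ) :=
      ⟨_, rfl⟩
    have hW0 : 0 < W := by
      rw [hW]
      positivity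
    rw [← hW] at h1 h2 h3
    rw [← hK] at h3 h5
    have h6 : (r : ℝ) * E.card < kap r / 4 * nR := by
      refine lt_of_le_of_lt ?_ hτn
      calc (r : ℝ) * E.card ≤ r * (r * (7 * ξ * nR + r + 1)) :=
            mul_le_mul_of_nonneg_left hEc hr0.le
        _ = (r : ℝ) ^ 2 * (7 * ξ * nR + r + 1) := by ring
        _ ≤ _ := mul_le_mul_of_nonneg_left (by linarith) hr2
    have h7 : K * nR < kap r / 4 * W * nR := by
      calc K * nR ≤ (r : ℝ) * E.card * W := h3
        _ < kap r / 4 * nR * W := mul_lt_mul_of_pos_right h6 hW0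
        _ = kap r / 4 * W * nR := by ring
    have h8 : K < kap r / 4 * W := lt_of_mul_lt_mul_right h7 hn0.le
    have h9 : 0 < kap r * W := mul_pos hkap hW0
    linarith
  have hyinj : Function.Injective y := hyA.right_inj
  have htl : ((List.ofFn y).take ρ₀).length = ρ₀ := by
    rw [List.length_take, List.length_ofFn]
    omega
  have hty : ∀ v ∈ (List.ofFn y).take ρ₀, ∃ j, y j = v := by
    intro v hv
    have h1 := List.mem_of_mem_take hv
    rw [List.mem_ofFn] at h1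
    exact h1
  have hnd : (vs Bl ++ vs L ++ (List.ofFn y).take ρ₀).Nodup := by
    rw [List.nodup_append]
    refine ⟨?_, ?_, ?_⟩
    · rw [List.nodup_append]
      refine ⟨hBnd, hLnd, ?_⟩
      intro a ha b hb hab
      subst hab
      exact (hLF a hb).1 (List.mem_toFinset.2 ha)
    · exact (List.nodup_ofFn.2 hyinj).sublist (List.take_sublist _ _)
    · intro a ha b hb hab
      subst hab
      obtain ⟨j, hj⟩ := hty a hb
      refine hyE j ?_
      rw [hj, hE, List.mem_toFinset]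
      exact ha
  have hlen : (vs Bl ++ vs L ++ (List.ofFn y).take ρ₀).length =
      r * (Bl.length + L.length) + ρ₀ := by
    rw [List.length_append, List.length_append, length_vs, length_vs, htl]
    ring
  refine ⟨P, Bl, L, y, ρ₀, hP, hρr, hBc, hBcol, hLc, fun x hx => (hLcol x hx).1, ⟨hd, hhd, ?_⟩, ?_,
    hnd, ?_, ?_, ?_, ?_⟩
  · cases L with
    | nil => exact absurd hLh (by simp)
    | cons z L' =>
      rw [List.head?_cons, Option.some_inj] at hLh
      exact ⟨L', by rw [hLh]⟩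
  · obtain ⟨L', hL'⟩ := List.getLast?_eq_some_iff.1 hLe
    exact ⟨L', e, hL', hyA⟩
  · intro v h0 h1
    rw [List.mem_append, List.mem_append]
    left
    have h5 : ro v = 2 ∨ ro v = 3 ∨ ro v = 4 := by
      generalize ro v = w at h0 h1
      revert h0 h1
      revert w
      decide
    rcases h5 with h5 | h5 | h5
    · exact Or.inr (hLvL v ((hLvm v).2 (Or.inl h5)))
    · exact Or.inr (hLvL v ((hLvm v).2 (Or.inr h5)))
    · exact Or.inl (hB4 v h5)
  · rw [← hnR]
    have h1 : ((vs Bl ++ vs L ++ (List.ofFn y).take ρ₀).length : ℝ) ≤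
        r * (3 * ξ * nR + r) + r * (4 * ξ * nR + 1) + r := by
      rw [List.length_append, List.length_append, htl]
      push_cast
      have h2 : (ρ₀ : ℝ) ≤ r := by exact_mod_cast hρr.le
      linarith
    refine h1.trans (le_trans ?_ hbig.le)
    have h2 : (r : ℝ) * (3 * ξ * nR + r) + r * (4 * ξ * nR + 1) + r =
        1 * (r * (7 * ξ * nR + r + 2)) := by ring
    have h3 : (r : ℝ) ^ 2 * (7 * ξ * nR + 2 * r + 4) = r * (r * (7 * ξ * nR + 2 * r + 4)) := by
      ring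
    rw [h2, h3]
    refine mul_le_mul (by linarith) (mul_le_mul_of_nonneg_left (by linarith) hr0.le)
      (by positivity) hr0.le
  · have h1 := Finset.sum_compl_add_sum (vs Bl ++ vs L ++ (List.ofFn y).take ρ₀).toFinset
      (wtr r i ro)
    rw [List.sum_toFinset _ hnd, total_weight, List.map_append, List.map_append, List.sum_append,
      List.sum_append, hBw, vs_weight (wtr r i ro) L
        (fun x hx => pats_weight ro P hP x (hLcol x hx).2),
      prefix_weight ro P y hyP ρ₀ hρr.le, hPa, ← hn] at h1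
    have h6 : (r : ℤ) * N + ρ₀ = n := by exact_mod_cast hdiv
    rw [hk] at h1
    have h7 : (i : ℤ) * ((r : ℤ) * N + ρ₀) = i * n := by rw [h6]
    linarith
  · have h1 := Finset.card_compl_add_card (vs Bl ++ vs L ++ (List.ofFn y).take ρ₀).toFinset
    rw [List.toFinset_card_of_nodup hnd, hlen, ← hn, ← hdiv] at h1
    have h2 : ((vs Bl ++ vs L ++ (List.ofFn y).take ρ₀).toFinsetᶜ).card +
        r * (Bl.length + L.length) = r * N := by omega
    have h3 : r ∣ ((vs Bl ++ vs L ++ (List.ofFn y).take ρ₀).toFinsetᶜ).card +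
        r * (Bl.length + L.length) := by
      rw [h2]
      exact Dvd.intro _ rfl
    exact (Nat.dvd_add_left (Dvd.intro _ rfl)).1 h3

end Pool.Agent.Lib.TwoPaths
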