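import Pool.Agent.Lib.TwoPaths.X1
import Pool.Agent.Lib.TwoPaths.X11a

/-!
# X11: the extremal case

CONSTANTS.  `κ0 = kap r ∈ (0, 1]`; `tm` from `ext_absorbers r`; `master r` with `lam = 2`, `cc = κ0²/4`,
`θ = 1/4`, `c₁ = κ0^r/2`, `H = Fin r × Fin r`, `J = Equiv.Perm (Fin r)` gives `θ₀, κ`;
`β = (1 - κ r) κ0/2` gives `n₁`.
`σ = κ0/8`, `ν = σ²/(r+1)`, `ω = min (nu2 r (ν/4)) (κ0/2)`, `τ = min (min (κ0/4) ω) θ₀`,
`ζ₃` = the minimum of `(1 - κ r) κ0/2`, `κ0^r/(2 (2 r + 1))`, `ν/4/(4 r)`, `κ0/2`;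
`ζ = min (ζ₃/(2^r · 4/κ0 + 1)) ν` (so `2^r ζ/(κ0/4) + ζ ≤ ζ₃` and `(r+1) max ζ ν ≤ σ²`);
`ξ = τ/(28 r²)`.  `ctx_of_ext r ν ξ ζ` gives `δ, n₂`.  `n₀ ≥ n₁, n₂, 1` with
`r² (2 r + 4) < (τ/2) n₀` (then `r² (7 ξ n + 2 r + 4) < τ n`).

PROOF for `κ = true`.  `ctx_of_ext` gives `ro`.  `good_count` (`ζ₂ = κ0/4`) gives the bounds with `ζ₃`.
`fixed_part` gives `P, Bl, L, y, ρ₀`; `F0` = the set of the entries of `Bl`, `L`, `t = (List.ofFn y).take ρ₀`.
`z = hd`, the first tuple of `L`.  Let `G = Gd c ro P (κ0/4)`, `A = K = fun b => if b then G else ∅`,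
`col = id`, `wt = wtr r i ro`, `P := Pat ro P` in `master`.  Hypotheses of `master`:
 * tuples of pattern `P` have weight `0` (`pats_weight`); members of `G` are `Col c true`, of pattern `P`;
 * walks: `walk2`, and `κ0/2 ≥ κ0²/4`; the sum over `A true = G` is at least
   `(κ0/2) n^r (κ0/2) n^r` (`gd_card`);
 * absorbers: `ext_absorbers` with `k0 = κ0` (`pat_count`); for `T` outside `F0` all roles are `0` or `1`;
 * `|F0| ≤ τ n ≤ θ₀ n`; `z ∈ A true`, the entries of `z` are in `vs L`;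
 * robustness: `robust_ext` (`W ⊇ F0` contains all vertices of role `2, 3, 4`);
 * balance and divisibility: `fixed_part`; partition property: `ext_part`.
`master` gives `Q`, `Q false = []` (`A false = ∅`).  As `L = z :: L'` and `Q true ++ [z]`, `L` are chains,
`Q true ++ L` is a chain of `Adj c` of tuples of colour `true`, hence a chain of `PAdj c true`
(`padj_of_adj`); its last tuple is `e`, `Adj c e y`.  `mono_path_of_chain` gives the red path
`vs (Q true ++ L) ++ t` (`t.length = ρ₀ < r`) and the blue path `vs Bl` (with `t = []`).  Together they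
enumerate all vertices exactly once.

For `κ = false` apply this to the colouring `c' s = !c s`: `ExtType r δ i A c false` is
`ExtType r δ i A c' true`, and `MonoPath r c' κ v` is `MonoPath r c (!κ) v`.
-/

namespace Pool.Agent.Lib.TwoPaths

open Finset
open Pool.Agent.Lib.MP_952639_co

private lemma kap_pos' {r : ℕ} (hr : 1 ≤ r) : 0 < kap r := by
  have : (0 : ℝ) < r := by exact_mod_cast hr
  unfold kap; positivity

private lemma kap_le' {r : ℕ} (hr : 1 ≤ r) : kap r ≤ 1 := by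
  have h1 : (1 : ℝ) ≤ r := by exact_mod_cast hr
  unfold kap
  apply pow_le_one₀ (by positivity)
  rw [div_le_one (by linarith)]
  linarith

private lemma pats_of_pat {V : Type} {r : ℕ} {ro : V → Fin 5}
    {P : Finset (Fin r)} {x : Fin r → V} (h : Pat ro P x) : PatS ro P x := by
  intro j
  have := h j
  constructor
  · intro hj; rw [if_pos hj] at this; exact Or.inl this
  · intro hj; rw [if_neg hj] at this; exact Or.inl this

private lemma nu2_pos' {r : ℕ} (hr : 1 ≤ r) {ν' : ℝ} (h : 0 < ν') : 0 < nu2 r ν' := by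
  have : (0 : ℝ) < r := by exact_mod_cast hr
  unfold nu2; positivity

open Classical in
private lemma mem_gd {V : Type} [Fintype V] [DecidableEq V] {r : ℕ} {c : Finset V → Bool}
    {ro : V → Fin 5} {P : Finset (Fin r)} {ζ₂ : ℝ} {x : Fin r → V} (h : x ∈ Gd c ro P ζ₂) :
    Col c true x ∧ Pat ro P x := by
  unfold Gd at h
  rw [mem_filter] at h
  exact ⟨h.2.2.1, h.2.1⟩

private lemma chain_padj {V : Type} [DecidableEq V] {r : ℕ} {c : Finset V → Bool} {κ : Bool}
    {L : List (Fin r → V)} (h : L.IsChain (Adj c)) (hc : ∀ x ∈ L, Col c κ x) :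
    L.IsChain (PAdj c κ) :=
  List.IsChain.imp_of_mem_imp (fun x y hx _ hxy => padj_of_adj hxy (hc x hx)) h

/-- The case `κ = true`. -/
private theorem ext_true (r : ℕ) (hr : 2 ≤ r) :
    ∃ (δ : ℝ) (n₀ : ℕ), 0 < δ ∧ ∀ (V : Type) [Fintype V] [DecidableEq V], n₀ ≤ Fintype.card V →
      ∀ (c : Finset V → Bool) (i : ℕ) (A : Finset V), 1 ≤ i → i ≤ r →
      (i = r → A = univ) → ExtType r δ i A c true →
      ∃ P Q : List V, MonoPath r c true P ∧ MonoPath r c false Q ∧ (P ++ Q).Nodup ∧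
        ∀ v, v ∈ P ++ Q := by
  classical
  have hr1 : 1 ≤ r := by omega
  have hrR : (2 : ℝ) ≤ r := by exact_mod_cast hr
  have hκ0 : 0 < kap r := kap_pos' hr1
  have hκ1 : kap r ≤ 1 := kap_le' hr1
  obtain ⟨tm, htm⟩ := ext_absorbers r hr1
  obtain ⟨θ₀, κ, hθ₀, hκ, hκr, hM⟩ := master r hr1 2 (by norm_num) (kap r ^ 2 / 4) (1 / 4)
    (kap r ^ r / 2) (by positivity) (by norm_num) (by positivity) (Fin r × Fin r)
    (Equiv.Perm (Fin r)) tm
  have h1κ : 0 < 1 - κ * r := by linarith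
  obtain ⟨n₁, hM⟩ := hM ((1 - κ * r) * kap r / 2) (by positivity)
  obtain ⟨σ, hσe⟩ : ∃ σ : ℝ, σ = kap r / 8 := ⟨_, rfl⟩
  have hσ : 0 < σ := by rw [hσe]; positivity
  obtain ⟨ν, hνe⟩ : ∃ ν : ℝ, ν = σ ^ 2 / (r + 1) := ⟨_, rfl⟩
  have hν : 0 < ν := by rw [hνe]; positivity
  obtain ⟨ω, hωe⟩ : ∃ ω : ℝ, ω = min (nu2 r (ν / 4)) (kap r / 2) := ⟨_, rfl⟩
  have hω : 0 < ω := by
    rw [hωe]; exact lt_min (nu2_pos' hr1 (by positivity)) (by positivity)
  obtain ⟨τ, hτe⟩ : ∃ τ : ℝ, τ = min (min (kap r / 4) ω) θ₀ := ⟨_, rfl⟩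
  have hτ : 0 < τ := by
    rw [hτe]; exact lt_min (lt_min (by positivity) hω) hθ₀
  obtain ⟨ζ₃, hζ₃e⟩ : ∃ ζ₃ : ℝ, ζ₃ = min (min ((1 - κ * r) * kap r / 2)
    (kap r ^ r / (2 * (2 * r + 1)))) (min (ν / 4 / (4 * r)) (kap r / 2)) := ⟨_, rfl⟩
  have hζ₃ : 0 < ζ₃ := by
    rw [hζ₃e]
    refine lt_min (lt_min (by positivity) (by positivity)) (lt_min (by positivity) (by positivity))
  have hζ₃a : ζ₃ ≤ (1 - κ * r) * kap r / 2 := by
    rw [hζ₃e]; exact (min_le_left _ _).trans (min_le_left _ _)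
  have hζ₃b : ζ₃ ≤ kap r ^ r / (2 * (2 * r + 1)) := by
    rw [hζ₃e]; exact (min_le_left _ _).trans (min_le_right _ _)
  have hζ₃c : ζ₃ ≤ ν / 4 / (4 * r) := by
    rw [hζ₃e]; exact (min_le_right _ _).trans (min_le_left _ _)
  have hζ₃d : ζ₃ ≤ kap r / 2 := by
    rw [hζ₃e]; exact (min_le_right _ _).trans (min_le_right _ _)
  obtain ⟨ζ, hζe⟩ : ∃ ζ : ℝ, ζ = min (ζ₃ / (2 ^ r / (kap r / 4) + 1)) ν := ⟨_, rfl⟩
  have hζ : 0 < ζ := by rw [hζe]; exact lt_min (by positivity) hν
  have hζa : 2 ^ r * ζ / (kap r / 4) + ζ ≤ ζ₃ := by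
    have h1 : ζ ≤ ζ₃ / (2 ^ r / (kap r / 4) + 1) := by rw [hζe]; exact min_le_left _ _
    rw [le_div_iff₀ (by positivity)] at h1
    calc 2 ^ r * ζ / (kap r / 4) + ζ = ζ * (2 ^ r / (kap r / 4) + 1) := by ring
      _ ≤ ζ₃ := h1
  have hζν : ζ ≤ ν := by rw [hζe]; exact min_le_right _ _
  obtain ⟨ξ, hξe⟩ : ∃ ξ : ℝ, ξ = τ / (28 * r ^ 2) := ⟨_, rfl⟩
  have hξ : 0 < ξ := by rw [hξe]; positivity
  obtain ⟨δ, n₂, hδ, hctx⟩ := ctx_of_ext r hr ν ξ ζ hν hξ hζ
  obtain ⟨n₃, hn₃⟩ := exists_nat_gt (2 * (r : ℝ) ^ 2 * (2 * r + 4) / τ)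
  refine ⟨δ, max (max n₁ n₂) (max n₃ 1), hδ, ?_⟩
  intro V _ _ hV c i A hi hir hA hE
  have hV1 : n₁ ≤ Fintype.card V := (le_max_left _ _).trans ((le_max_left _ _).trans hV)
  have hV2 : n₂ ≤ Fintype.card V := (le_max_right _ _).trans ((le_max_left _ _).trans hV)
  have hV3 : n₃ ≤ Fintype.card V := (le_max_left _ _).trans ((le_max_right _ _).trans hV)
  have hV0 : 0 < Fintype.card V := (le_max_right _ _).trans ((le_max_right _ _).trans hV)
  have hnR : (0 : ℝ) < Fintype.card V := by exact_mod_cast hV0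
  obtain ⟨ro, hro⟩ := hctx V hV2 c i A hi hir hA hE
  have hGa : ∀ P : Finset (Fin r), P.card = i →
      ((univ.filter fun x => Pat ro P x ∧ x ∉ Gd c ro P (kap r / 4)).card : ℝ) ≤
      ζ₃ * (Fintype.card V : ℝ) ^ r := fun P hP =>
    (good_count hr1 hro hζ.le (by positivity) hV0 hP).1.trans
      (mul_le_mul_of_nonneg_right hζa (by positivity))
  have hGb : ∀ P : Finset (Fin r), P.card = i → ∀ (a : Fin r) (v : V),
      ((univ.filter fun x => Pat ro P x ∧ x a = v ∧ x ∉ Gd c ro P (kap r / 4)).card : ℝ) ≤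
      ζ₃ * (Fintype.card V : ℝ) ^ (r - 1) := fun P hP a v =>
    ((good_count hr1 hro hζ.le (by positivity) hV0 hP).2 a v).trans
      (mul_le_mul_of_nonneg_right hζa (by positivity))
  have hbig : (r : ℝ) ^ 2 * (7 * ξ * Fintype.card V + 2 * r + 4) < τ * Fintype.card V := by
    have h1 : 2 * (r : ℝ) ^ 2 * (2 * r + 4) < τ * Fintype.card V := by
      rw [div_lt_iff₀ hτ] at hn₃
      have : (n₃ : ℝ) ≤ Fintype.card V := by exact_mod_cast hV3
      nlinarith
    have h2 : (r : ℝ) ^ 2 * (7 * ξ) = τ / 4 := by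
      rw [hξe]
      have : (r : ℝ) ≠ 0 := by positivity
      field_simp
      norm_num
    have h3 : (r : ℝ) ^ 2 * (7 * ξ * Fintype.card V + 2 * r + 4) =
        (r : ℝ) ^ 2 * (7 * ξ) * Fintype.card V + (r : ℝ) ^ 2 * (2 * r + 4) := by ring
    rw [h3, h2]
    have h4 : 0 < τ * Fintype.card V := by positivity
    nlinarith
  have hσ1 : σ ≤ 1 := by rw [hσe]; linarith
  have hζν' : (r + 1) * max ζ ν ≤ σ ^ 2 := by
    rw [max_eq_right hζν, hνe]
    rw [mul_div_cancel₀ _ (by positivity)]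
  obtain ⟨P, Bl, L, y, ρ₀, hP, hρ, hBch, hBcol, hLch, hLcol, ⟨hd, hhd, L', hL'⟩, ⟨L'', e, hL'', hey⟩,
    hnd, hroles, hlen, hbal, hdvd⟩ := fixed_part (ω := ω) (τ := τ) (ζ₃ := ζ₃) hr hro hζ.le hν hξ.le hσ
      hσ1 (by rw [hσe]; linarith) hζν' hGa hζ₃c hζ₃d (by rw [hωe]; exact min_le_left _ _)
      (by rw [hωe]; exact min_le_right _ _)
      (by rw [hτe]; exact (min_le_left _ _).trans (min_le_left _ _))
      (by rw [hτe]; exact (min_le_left _ _).trans (min_le_right _ _)) hV0 hbig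
  set t : List V := (List.ofFn y).take ρ₀ with ht
  set F0 : Finset V := (vs Bl ++ vs L ++ t).toFinset with hF0
  set G := Gd c ro P (kap r / 4) with hGdef
  have hroF : ∀ v, v ∉ F0 → ro v = 0 ∨ ro v = 1 := by
    intro v hv
    by_contra hcon
    push Not at hcon
    exact hv (List.mem_toFinset.mpr (hroles v hcon.1 hcon.2))
  have hcardF0 : (F0.card : ℝ) ≤ τ * Fintype.card V := by
    refine le_trans ?_ hlen
    exact_mod_cast List.toFinset_card_le _
  have hGcard : kap r / 2 * (Fintype.card V : ℝ) ^ r ≤ (G.card : ℝ) :=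
    gd_card hr1 hro hP hζ₃d (hGa P hP)
  have hzL : hd ∈ L := by rw [hL']; simp
  obtain ⟨Q, hQ1, hQ2, hQcol, hQf, hQnd, hQmem⟩ := hM V hV1 c (Pat ro P) (wtr r i ro)
    (fun b => if b then G else ∅) (fun b => if b then G else ∅) id F0 hd
    (fun x hx => pats_weight ro P hP x (pats_of_pat hx))
    (fun b => subset_rfl)
    (by
      intro b x hx
      cases b with
      | true => exact mem_gd hx
      | false => simp at hx)
    (by
      intro b x hx y hy
      cases b with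
      | true =>
        have h1 := walk2 hr1 hro (le_refl _) hP hx hy
        refine le_trans ?_ h1
        have h2 : kap r ^ 2 / 4 ≤ kap r / 2 := by nlinarith
        have h3 : r * (2 - 1) = r := by omega
        rw [h3]
        exact mul_le_mul_of_nonneg_right h2 (by positivity)
      | false => simp at hx)
    (by
      intro b x hx
      cases b with
      | true =>
        have h1 : ∀ y ∈ G, kap r / 2 * (Fintype.card V : ℝ) ^ r ≤
            (RM (RAdj c (Pat ro P)) ^ 2) x y := fun y hy => walk2 hr1 hro (le_refl _) hP hx hy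
        have h2 : (G.card : ℝ) * (kap r / 2 * (Fintype.card V : ℝ) ^ r) ≤
            ∑ y ∈ G, (RM (RAdj c (Pat ro P)) ^ 2) x y := by
          rw [← nsmul_eq_mul]
          exact Finset.card_nsmul_le_sum _ _ _ h1
        have h3 : kap r ^ 2 / 4 * (Fintype.card V : ℝ) ^ (r * 2) =
            (kap r / 2 * (Fintype.card V : ℝ) ^ r) * (kap r / 2 * (Fintype.card V : ℝ) ^ r) := by
          rw [pow_mul]; ring
        simp only [if_true]
        rw [h3]
        refine le_trans ?_ h2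
        exact mul_le_mul_of_nonneg_right hGcard (by positivity)
      | false => simp at hx)
    (by
      intro T _ hT hTw
      exact htm V i ro P (fun b => if b then G else ∅) (kap r) ζ₃ hP hκ0.le hζ₃.le
        (pat_count hr1 hro hP) (by simpa using hGa P hP)
        (by intro a v; simpa using hGb P hP a v)
        (by
          rw [le_div_iff₀ (by positivity)] at hζ₃b
          rw [le_div_iff₀ (by norm_num)]
          linarith)
        T (fun k => hroF _ (hT k)) hTw)
    (hcardF0.trans (mul_le_mul_of_nonneg_right (by rw [hτe]; exact min_le_right _ _) hnR.le))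
    (by simpa using hhd)
    (by
      intro j
      rw [hF0, List.mem_toFinset]
      refine List.mem_append_left _ (List.mem_append_right _ ?_)
      exact mem_vs.mpr ⟨hd, hzL, j, rfl⟩)
    (by
      intro W hFW hWc hWb
      exact robust_ext ⟨hi, hir⟩ ro G P hP ζ₃ κ (hGa P hP) hκ hκr hζ₃a W
        (fun v hv => hroF v (fun h => hv (hFW h))) hWc hWb)
    hbal hdvd
    (fun X hX hXd hXw => ext_part ⟨hi, hir⟩ ro X
      (fun v hv => hroF v (fun h => (Finset.disjoint_left.mp hX) hv h)) hXd hXw)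
  have hQf0 : Q false = [] := hQf (by simp)
  rw [hQf0, List.append_nil] at hQnd hQmem
  have htlen : t.length = ρ₀ := by
    rw [ht, List.length_take, List.length_ofFn]; omega
  have hRcol : ∀ x ∈ Q true ++ L, Col c true x := by
    intro x hx
    rcases List.mem_append.mp hx with h | h
    · exact hQcol true x h
    · exact hLcol x h
  have hRch : (Q true ++ L).IsChain (Adj c) := by
    rw [hL', List.isChain_split]
    rw [hL'] at hLch
    exact ⟨hQ1, hLch⟩
  have hvsapp : vs (Q true ++ L) = vs (Q true) ++ vs L := List.flatMap_append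
  have hdisj : ∀ v ∈ vs (Q true), v ∉ vs Bl ++ vs L ++ t := by
    intro v hv h
    exact (hQmem v).mp hv (List.mem_toFinset.mpr h)
  -- the whole enumeration
  have hall : ((vs (Q true ++ L) ++ t) ++ vs Bl).Nodup := by
    have h1 : (vs (Q true) ++ (vs Bl ++ vs L ++ t)).Nodup := by
      rw [List.nodup_append']
      exact ⟨hQnd, hnd, fun v hv hv' => hdisj v hv hv'⟩
    have h2 : ((vs (Q true ++ L) ++ t) ++ vs Bl).Perm (vs (Q true) ++ (vs Bl ++ vs L ++ t)) := by
      rw [hvsapp]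
      have h3 : (vs L ++ t ++ vs Bl).Perm (vs Bl ++ vs L ++ t) := by
        refine List.perm_append_comm.trans ?_
        rw [List.append_assoc]
      calc (vs (Q true) ++ vs L ++ t ++ vs Bl).Perm (vs (Q true) ++ (vs L ++ t ++ vs Bl)) := by
            simp [List.append_assoc]
        _ |>.Perm (vs (Q true) ++ (vs Bl ++ vs L ++ t)) := List.Perm.append_left _ h3
    exact (h2.nodup_iff).mpr h1
  refine ⟨vs (Q true ++ L) ++ t, vs Bl, ?_, ?_, hall, ?_⟩
  · refine mono_path_of_chain hr1 (chain_padj hRch hRcol) hRcol (by rw [htlen]; exact hρ) ?_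
      hall.of_append_left
    refine Or.inr (Or.inr ⟨Q true ++ L'', e, y, ?_, ?_, ?_⟩)
    · rw [hL'', List.append_assoc]
    · exact padj_of_adj hey (hLcol e (by rw [hL'']; simp))
    · rw [htlen]
  · have h1 := mono_path_of_chain (t := []) hr1 hBch hBcol (by simp; omega) (Or.inl rfl)
      (by rw [List.append_nil]; exact hall.of_append_right)
    rwa [List.append_nil] at h1
  · intro v
    by_cases hv : v ∈ F0
    · rw [hF0, List.mem_toFinset] at hv
      rcases List.mem_append.mp hv with h | h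
      · rcases List.mem_append.mp h with h | h
        · exact List.mem_append_right _ h
        · refine List.mem_append_left _ (List.mem_append_left _ ?_)
          rw [hvsapp]
          exact List.mem_append_right _ h
      · exact List.mem_append_left _ (List.mem_append_right _ h)
    · refine List.mem_append_left _ (List.mem_append_left _ ?_)
      rw [hvsapp]
      exact List.mem_append_left _ ((hQmem v).mpr hv)

theorem ext_case (r : ℕ) (hr : 2 ≤ r) :
    ∃ (δ : ℝ) (n₀ : ℕ), 0 < δ ∧ ∀ (V : Type) [Fintype V] [DecidableEq V], n₀ ≤ Fintype.card V →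
      ∀ (c : Finset V → Bool) (i : ℕ) (A : Finset V) (κ : Bool), 1 ≤ i → i ≤ r →
      (i = r → A = univ) → ExtType r δ i A c κ →
      ∃ P Q : List V, MonoPath r c true P ∧ MonoPath r c false Q ∧ (P ++ Q).Nodup ∧
        ∀ v, v ∈ P ++ Q := by
  obtain ⟨δ, n₀, hδ, h⟩ := ext_true r hr
  refine ⟨δ, n₀, hδ, ?_⟩
  intro V _ _ hV c i A κ hi hir hA hE
  cases κ with
  | true => exact h V hV c i A hi hir hA hE
  | false =>
    have hE' : ExtType r δ i A (fun s => !c s) true := by
      obtain ⟨h1, h2, h3⟩ := hE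
      refine ⟨h1, ?_, ?_⟩
      · simpa using h2
      · intro hir'
        simpa using h3 hir'
    obtain ⟨P, Q, hP, hQ, hnd, hall⟩ := h V hV (fun s => !c s) i A hi hir hA hE'
    refine ⟨Q, P, ⟨hQ.1, fun j hj => ?_⟩, ⟨hP.1, fun j hj => ?_⟩,
      (List.perm_append_comm.nodup_iff).mp hnd, fun v => ?_⟩
    · simpa using hQ.2 j hj
    · simpa using hP.2 j hj
    · have := hall v
      rw [List.mem_append] at this ⊢
      exact this.symm

end Pool.Agent.Lib.TwoPaths
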