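import Pool.Agent.Lib.TwoPaths.D7
import Pool.Agent.Lib.TwoPaths.N10
import Pool.Agent.Lib.TwoPaths.X11

/-!
# Main theorem

PROOF.  `ext_case r` gives `δ`, `n₁`.  `dichotomy r δ` gives `ρ`; `interior_case r ρ` gives `η`;
`dichotomy` with this `η` gives `ε₁, β, cc, L, n₂`.  For each `1 ≤ l ≤ L` `interior_case` gives
`n₀(l)`; let `n₀` be the maximum of `n₁, n₂` and these.  The three alternatives of the
dichotomy:
 * nearly monochromatic: `ExtType r δ r univ c κ` holds (`|univ| - r n/r = 0`; a tuple has all `r` entries in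
   `univ`; the last part is vacuous), apply `ext_case` with `i = r`;
 * `ExtType r δ i A c κ`, `1 ≤ i < r`: `ext_case`;
 * `interior_case` (`HasAdj ρ A` is the adjacency clause); if `κ₀ = false` exchange the two paths.
-/

namespace Pool.Agent.Lib.TwoPaths

open Finset
open Pool.Agent.Lib.MP_952639_co

theorem two_tight_paths (r : ℕ) (hr : 2 ≤ r) :
    ∃ n₀ : ℕ, ∀ (V : Type) [Fintype V] [DecidableEq V], n₀ ≤ Fintype.card V →
      ∀ c : Finset V → Bool, ∃ P Q : List V, MonoPath r c true P ∧ MonoPath r c false Q ∧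
        (P ++ Q).Nodup ∧ ∀ v, v ∈ P ++ Q := by
  classical
  obtain ⟨δ, n₁, hδ, hext⟩ := ext_case r hr
  obtain ⟨ρ, hρ, _, hdich⟩ := dichotomy r hr δ hδ
  obtain ⟨η, hη, hint⟩ := interior_case r hr ρ hρ
  obtain ⟨ε₁, β, cc, L, n₂, hε₁, hβ, hcc, hd⟩ := hdich η hη
  have hint' : ∀ l : ℕ, ∃ n₀ : ℕ, 1 ≤ l → ∀ (V : Type) [Fintype V] [DecidableEq V],
      n₀ ≤ Fintype.card V → ∀ (c : Finset V → Bool) (A : Bool → Finset (Fin r → V)) (κ₀ : Bool),
      (∀ b, ∀ x ∈ A b, Col c (if b then κ₀ else !κ₀) x) →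
      (∀ b, ∀ x ∈ A b, ∀ y ∈ A b,
        cc * (Fintype.card V : ℝ) ^ (r * (l - 1)) ≤ (AM r c ^ l) x y) →
      HasAdj ρ A → Interior η ε₁ β A →
      ∃ P Q : List V, MonoPath r c κ₀ P ∧ MonoPath r c (!κ₀) Q ∧ (P ++ Q).Nodup ∧
        ∀ v, v ∈ P ++ Q := by
    intro l
    by_cases hl : 1 ≤ l
    · obtain ⟨n₀, h⟩ := hint ε₁ β cc l hε₁ hβ hcc hl
      exact ⟨n₀, fun _ => h⟩
    · exact ⟨0, fun h => absurd h hl⟩
  choose N hN using hint'
  refine ⟨max (max n₁ n₂) ((range (L + 1)).sup N), ?_⟩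
  intro V _ _ hV c
  have h1 : n₁ ≤ Fintype.card V := (le_max_left _ _).trans ((le_max_left _ _).trans hV)
  have h2 : n₂ ≤ Fintype.card V := (le_max_right _ _).trans ((le_max_left _ _).trans hV)
  rcases hd V h2 c with ⟨κ, hκ⟩ | ⟨i, A, κ, hi1, hir, hE⟩ | ⟨A, κ₀, l, hl1, hlL, hcol, hw, hadj, hI⟩
  · refine hext V h1 c r univ κ (by omega) le_rfl (fun _ => rfl) ⟨?_, ?_, fun h => absurd h (lt_irrefl _)⟩
    · have hr0 : (r : ℝ) ≠ 0 := by
        have : r ≠ 0 := by omega
        exact_mod_cast this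
      rw [card_univ, mul_div_assoc, mul_div_cancel₀ _ hr0, sub_self, abs_zero]
      positivity
    · refine le_trans ?_ hκ
      exact_mod_cast card_le_card (fun x hx => by
        simp only [mem_filter, mem_univ, true_and] at hx ⊢
        exact ⟨hx.1, hx.2.2⟩)
  · exact hext V h1 c i A κ hi1 hir.le (fun h => absurd h (by omega)) hE
  · have h3 : N l ≤ Fintype.card V := by
      refine le_trans ?_ ((le_max_right _ _).trans hV)
      exact Finset.le_sup (f := N) (mem_range.mpr (by omega))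
    obtain ⟨P, Q, hP, hQ, hnd, hall⟩ := hN l hl1 V h3 c A κ₀ hcol hw hadj hI
    cases κ₀ with
    | true => exact ⟨P, Q, hP, hQ, hnd, hall⟩
    | false =>
      refine ⟨Q, P, hQ, hP, ?_, ?_⟩
      · exact (List.perm_append_comm.nodup_iff).mp hnd
      · intro v
        have := hall v
        rw [List.mem_append] at this ⊢
        exact this.symm

end Pool.Agent.Lib.TwoPaths
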