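import Pool.Agent.Lib.TwoPaths.NDefs

/-!
# N0: a random sample contains a member of a dense family

(no_hit)  `Φ x` (`x : Fin d → V`) is a set of `m`-tuples, `m ≥ 1`.  For `S : Fin q → V` and `a : Fin d → Fin q`
consider the event: `|Φ (S∘a)| ≥ p n^m` but no injective `ω : Fin m → Fin q` with
values in a given set `G` of indices disjoint from the image of `a` has `S ∘ ω ∈ Φ (S∘a)`.
The number of such `S` is at most `(1-p)^(|G|/m) n^q` (`|G|/m` rounded down).

PROOF. `k = ⌊|G|/m⌋`; choose an injective `d' : Fin (k m) → Fin q` with values in `G`.  By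
`cnt_cond'` it is enough to bound, for fixed `S`, the number of `y : Fin (k m) → V` such that
`extend d' y S` is in the event.  `(extend d' y S) ∘ a = S ∘ a` does not depend on `y`; if
`|Φ (S∘a)| < p n^m` the number is `0`; otherwise none of the `k` disjoint blocks of `m` entries of `y`
is in `Φ (S∘a)`: at most `((1-p) n^m)^k` of the `y`.

(no_hit_all) Union over all `a : Fin d → Fin q` and, for each, `G = ` the complement of the image of
`a`: the number of `S` for which some `a` has `|Φ (S∘a)| ≥ p n^m` but no injective `ω` avoiding the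
image of `a` has `S∘ω ∈ Φ (S∘a)` is at most `q^d (1-p)^((q-d)/m) n^q` (`q ≥ d`).
-/

namespace Pool.Agent.Lib.TwoPaths

open Finset
open Pool.Agent.Lib.MP_952639_co

theorem no_hit {V : Type*} [Fintype V] [DecidableEq V] (hV : 0 < Fintype.card V) {d m q : ℕ}
    (hm : 1 ≤ m) (p : ℝ) (hp0 : 0 ≤ p) (hp1 : p ≤ 1) (Φ : (Fin d → V) → Finset (Fin m → V))
    (a : Fin d → Fin q) (G : Finset (Fin q)) (hG : ∀ i, a i ∉ G) :
    cnt (fun S : Fin q → V => p * (Fintype.card V : ℝ) ^ m ≤ (Φ (S ∘ a)).card ∧
      ∀ ω : Fin m → Fin q, Function.Injective ω → (∀ i, ω i ∈ G) → S ∘ ω ∉ Φ (S ∘ a)) ≤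
      (1 - p) ^ (G.card / m) * (Fintype.card V : ℝ) ^ q := by
  classical
  obtain ⟨k, hk⟩ : ∃ k, k = G.card / m := ⟨_, rfl⟩
  rw [← hk]
  have hkm : k * m ≤ G.card := by
    rw [hk]
    exact Nat.div_mul_le_self _ _
  obtain ⟨d', hd'⟩ : ∃ d' : Fin (k * m) → Fin q, d' =
      fun i => (G.equivFin.symm (Fin.castLE hkm i)).1 := ⟨_, rfl⟩
  have hinj : Function.Injective d' := by
    intro i j hij
    rw [hd'] at hij
    exact Fin.castLE_injective hkm (G.equivFin.symm.injective (Subtype.ext hij))
  have hmem : ∀ i, d' i ∈ G := by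
    intro i
    rw [hd']
    exact (G.equivFin.symm (Fin.castLE hkm i)).2
  refine cnt_cond' hV d' hinj _ _ ?_
  intro S
  have hn : (0 : ℝ) < Fintype.card V := by exact_mod_cast hV
  have e1 : ∀ y : Fin (k * m) → V, Function.extend d' y S ∘ a = S ∘ a := by
    intro y
    funext i
    refine Function.extend_apply' _ _ _ ?_
    rintro ⟨j, hj⟩
    exact hG i (hj ▸ hmem j)
  by_cases hok : p * (Fintype.card V : ℝ) ^ m ≤ (Φ (S ∘ a)).card
  · have h1 : cnt (fun y : Fin (k * m) → V =>
        p * (Fintype.card V : ℝ) ^ m ≤ (Φ (Function.extend d' y S ∘ a)).card ∧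
        ∀ ω : Fin m → Fin q, Function.Injective ω → (∀ i, ω i ∈ G) →
          Function.extend d' y S ∘ ω ∉ Φ (Function.extend d' y S ∘ a)) ≤
        ((((Φ (S ∘ a))ᶜ).card : ℝ)) ^ k := by
      have h2 : (univ.filter fun y : Fin (k * m) → V =>
          ∀ j : Fin k, (fun i : Fin m => y (finProdFinEquiv (j, i))) ∈ (Φ (S ∘ a))ᶜ).card ≤
          ((Φ (S ∘ a))ᶜ).card ^ k := by
        have h3 : (Fintype.piFinset fun _ : Fin k => (Φ (S ∘ a))ᶜ).card =
            ((Φ (S ∘ a))ᶜ).card ^ k := by
          rw [Fintype.card_piFinset, prod_const, card_univ, Fintype.card_fin]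
        rw [← h3]
        apply card_le_card_of_injOn (fun y => fun j i => y (finProdFinEquiv (j, i)))
        · intro y hy
          rw [mem_coe, mem_filter] at hy
          rw [mem_coe, Fintype.mem_piFinset]
          exact hy.2
        · intro y _ y' _ hyy
          funext t
          have h8 := congrFun (congrFun hyy (finProdFinEquiv.symm t).1) (finProdFinEquiv.symm t).2
          have h9 : finProdFinEquiv ((finProdFinEquiv.symm t).1, (finProdFinEquiv.symm t).2) = t :=
            finProdFinEquiv.apply_symm_apply t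
          simp only at h8
          rwa [h9] at h8
      refine le_trans (cnt_mono (Q := fun y : Fin (k * m) → V =>
        ∀ j : Fin k, (fun i : Fin m => y (finProdFinEquiv (j, i))) ∈ (Φ (S ∘ a))ᶜ) ?_) ?_
      · intro y hy j
        rw [mem_compl]
        have h4 := hy.2 (fun i => d' (finProdFinEquiv (j, i))) (by
          intro i i' hii
          have := finProdFinEquiv.injective (hinj hii)
          simpa using this) (fun i => hmem _)
        rw [e1] at h4
        have e2 : (Function.extend d' y S ∘ fun i : Fin m => d' (finProdFinEquiv (j, i))) =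
            fun i : Fin m => y (finProdFinEquiv (j, i)) := by
          funext i
          exact hinj.extend_apply _ _ _
        rwa [e2] at h4
      · rw [cnt_eq]
        exact_mod_cast h2
    refine h1.trans ?_
    have h5 : (((Φ (S ∘ a))ᶜ).card : ℝ) ≤ (1 - p) * (Fintype.card V : ℝ) ^ m := by
      have h6 : (((Φ (S ∘ a))ᶜ).card : ℝ) + (Φ (S ∘ a)).card = (Fintype.card V : ℝ) ^ m := by
        have h7 := card_compl_add_card (Φ (S ∘ a))
        rw [Fintype.card_fun, Fintype.card_fin] at h7
        exact_mod_cast h7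
      linarith
    calc ((((Φ (S ∘ a))ᶜ).card : ℝ)) ^ k ≤ ((1 - p) * (Fintype.card V : ℝ) ^ m) ^ k :=
          pow_le_pow_left₀ (Nat.cast_nonneg _) h5 k
      _ = (1 - p) ^ k * (Fintype.card V : ℝ) ^ (k * m) := by
          rw [mul_pow, ← pow_mul, mul_comm m k]
  · rw [cnt_false]
    · have : 0 ≤ 1 - p := by linarith
      positivity
    · intro y hy
      rw [e1] at hy
      exact hok hy.1

theorem no_hit_all {V : Type*} [Fintype V] [DecidableEq V] (hV : 0 < Fintype.card V) {d m q : ℕ}
    (hm : 1 ≤ m) (hd : d ≤ q) (p : ℝ) (hp0 : 0 ≤ p) (hp1 : p ≤ 1)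
    (Φ : (Fin d → V) → Finset (Fin m → V)) :
    cnt (fun S : Fin q → V => ∃ a : Fin d → Fin q,
      p * (Fintype.card V : ℝ) ^ m ≤ (Φ (S ∘ a)).card ∧
      ∀ ω : Fin m → Fin q, Function.Injective ω → (∀ i j, ω i ≠ a j) → S ∘ ω ∉ Φ (S ∘ a)) ≤
      (q : ℝ) ^ d * ((1 - p) ^ ((q - d) / m) * (Fintype.card V : ℝ) ^ q) := by
  classical
  have h := cnt_exists (V := V) (s := q) (ι := Fin d → Fin q)
    (fun a S => p * (Fintype.card V : ℝ) ^ m ≤ (Φ (S ∘ a)).card ∧
      ∀ ω : Fin m → Fin q, Function.Injective ω → (∀ i j, ω i ≠ a j) → S ∘ ω ∉ Φ (S ∘ a))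
    ((1 - p) ^ ((q - d) / m) * (Fintype.card V : ℝ) ^ q) (by
      intro a
      have h1 := no_hit hV hm p hp0 hp1 Φ a ((univ.image a)ᶜ) (by
        intro i
        rw [mem_compl, not_not]
        exact mem_image_of_mem _ (mem_univ _))
      refine le_trans (cnt_mono ?_) (h1.trans ?_)
      · intro S hS
        refine ⟨hS.1, fun ω hω hωG => hS.2 ω hω fun i j hij => ?_⟩
        have := hωG i
        rw [mem_compl] at this
        exact this (hij ▸ mem_image_of_mem _ (mem_univ _))
      · apply mul_le_mul_of_nonneg_right _ (by positivity)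
        apply pow_le_pow_of_le_one (by linarith) (by linarith)
        apply Nat.div_le_div_right
        rw [card_compl, Fintype.card_fin]
        have h2 : (univ.image a).card ≤ d := card_image_le.trans (by simp)
        omega)
  refine h.trans (le_of_eq ?_)
  rw [Fintype.card_fun, Fintype.card_fin, Fintype.card_fin]
  push_cast
  ring

end Pool.Agent.Lib.TwoPaths
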