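import Pool.Agent.Lib.TwoPaths.NDefs

/-!
# N1: every vertex can be attached to one of the two families

`A true`, `A false` are families of tuples of different colours `κ₀`, `!κ₀`, with at least
`ρ n^(r+1)` pairs `(x, v)` such that `x ∈ A true` and `(update x i v) ∘ τ ∈ A false`.
`α = alp r ρ = (ρ/3)^(2^r)/2`.
-/

namespace Pool.Agent.Lib.TwoPaths

open Finset
open Pool.Agent.Lib.MP_952639_co

private theorem card_left {V : Type*} [Fintype V] [DecidableEq V] {r : ℕ}
    (S : Finset (Fin r → V)) (Q : (Fin r → V) × V → Prop) [DecidablePred Q]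
    (hQ : ∀ p, Q p → p.1 ∈ S) :
    (univ.filter fun p : (Fin r → V) × V => Q p).card ≤ S.card * Fintype.card V := by
  have h : (univ.filter fun p : (Fin r → V) × V => Q p).card ≤ (S ×ˢ (univ : Finset V)).card := by
    refine card_le_card ?_
    intro p hp
    rw [mem_filter] at hp
    rw [mem_product]
    exact ⟨hQ p hp.2, mem_univ _⟩
  rwa [card_product, card_univ] at h

private theorem card_right {V : Type*} [Fintype V] [DecidableEq V] {r : ℕ}
    (τ : Equiv.Perm (Fin r)) (i : Fin r)
    (S : Finset (Fin r → V)) (Q : (Fin r → V) × V → Prop) [DecidablePred Q]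
    (hQ : ∀ p, Q p → (Function.update p.1 i p.2) ∘ τ ∈ S) :
    (univ.filter fun p : (Fin r → V) × V => Q p).card ≤ S.card * Fintype.card V := by
  have h : (univ.filter fun p : (Fin r → V) × V => Q p).card ≤ (S ×ˢ (univ : Finset V)).card := by
    refine card_le_card_of_injOn
      (fun p => ((Function.update p.1 i p.2) ∘ τ, p.1 i)) ?_ ?_
    · intro p hp
      rw [mem_coe, mem_filter] at hp
      rw [mem_coe, mem_product]
      exact ⟨hQ p hp.2, mem_univ _⟩
    · rintro ⟨x, v⟩ _ ⟨x', v'⟩ _ h
      rw [Prod.mk.injEq] at h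
      simp only at h
      obtain ⟨h1, h2⟩ := h
      have h3 : Function.update x i v = Function.update x' i v' := by
        funext j
        have h4 := congrFun h1 (τ.symm j)
        simpa only [Function.comp_apply, Equiv.apply_symm_apply] using h4
      have h5 : v = v' := by
        have h4 := congrFun h3 i
        simpa only [Function.update_self] using h4
      have h6 : x = x' := by
        funext j
        by_cases hj : j = i
        · rw [hj]; exact h2
        · have h4 := congrFun h3 j
          simpa only [Function.update_of_ne hj] using h4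
      rw [h5, h6]
  rwa [card_product, card_univ] at h

open Classical in
private theorem card_eq_t {V : Type*} [Fintype V] [DecidableEq V] {r : ℕ} (hr : 1 ≤ r) (t : V) :
    (univ.filter fun p : (Fin r → V) × V => ∃ j, p.1 j = t).card ≤ r * Fintype.card V ^ r := by
  have h1 : (univ.filter fun p : (Fin r → V) × V => ∃ j, p.1 j = t) =
      (univ : Finset (Fin r)).biUnion fun j =>
        univ.filter fun p : (Fin r → V) × V => p.1 j = t := by
    ext p
    simp
  rw [h1]
  refine card_biUnion_le.trans ?_
  have h2 : ∀ j ∈ (univ : Finset (Fin r)),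
      (univ.filter fun p : (Fin r → V) × V => p.1 j = t).card ≤ Fintype.card V ^ r := by
    intro j _
    have h3 : (univ.filter fun p : (Fin r → V) × V => p.1 j = t).card ≤
        (univ : Finset (Fin r → V)).card := by
      refine card_le_card_of_injOn (fun p => Function.update p.1 j p.2) ?_ ?_
      · intro _ _; exact mem_coe.2 (mem_univ _)
      · rintro ⟨x, v⟩ hx ⟨x', v'⟩ hx' h
        rw [mem_coe, mem_filter] at hx hx'
        simp only at h hx hx'
        have h5 : v = v' := by
          have h4 := congrFun h j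
          simpa only [Function.update_self] using h4
        have h6 : x = x' := by
          funext k
          by_cases hk : k = j
          · rw [hk, hx.2, hx'.2]
          · have h4 := congrFun h k
            simpa only [Function.update_of_ne hk] using h4
        rw [h5, h6]
    refine h3.trans (le_of_eq ?_)
    rw [card_univ, Fintype.card_pi, prod_const, card_univ, Fintype.card_fin]
  refine (sum_le_card_nsmul _ _ _ h2).trans (le_of_eq ?_)
  rw [card_univ, Fintype.card_fin, smul_eq_mul]

private theorem update_comp {V : Type*} {r : ℕ} (τ : Equiv.Perm (Fin r)) (i : Fin r)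
    (x : Fin r → V) (v t : V) :
    Function.update ((Function.update x i v) ∘ τ) (τ.symm i) t = (Function.update x i t) ∘ τ := by
  funext j
  by_cases hj : j = τ.symm i
  · rw [hj, Function.update_self, Function.comp_apply, Equiv.apply_symm_apply,
      Function.update_self]
  · have h1 : τ j ≠ i := by
      intro h
      exact hj (by rw [← h, Equiv.symm_apply_apply])
    rw [Function.update_of_ne hj, Function.comp_apply, Function.comp_apply,
      Function.update_of_ne h1, Function.update_of_ne h1]

private theorem col_comp {V : Type*} [DecidableEq V] {r : ℕ} {c : Finset V → Bool} {κ : Bool}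
    (τ : Equiv.Perm (Fin r)) {x : Fin r → V} (h : Col c κ x) : Col c κ (x ∘ τ) := by
  refine ⟨h.1.comp τ.injective, ?_⟩
  have h1 : univ.image (x ∘ τ) = univ.image x := by
    ext a
    simp only [mem_image, mem_univ, true_and, Function.comp_apply]
    constructor
    · rintro ⟨j, hj⟩
      exact ⟨τ j, hj⟩
    · rintro ⟨j, hj⟩
      exact ⟨τ.symm j, by rw [Equiv.apply_symm_apply]; exact hj⟩
  rw [h1]
  exact h.2

private theorem update_inj {V : Type*} {r : ℕ} {x : Fin r → V} (hx : Function.Injective x)
    (i : Fin r) (t : V) (ht : ∀ j, x j ≠ t) : Function.Injective (Function.update x i t) := by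
  intro a b hab
  by_cases ha : a = i
  · by_cases hb : b = i
    · rw [ha, hb]
    · rw [ha, Function.update_self, Function.update_of_ne hb] at hab
      exact absurd hab.symm (ht b)
  · by_cases hb : b = i
    · rw [hb, Function.update_self, Function.update_of_ne ha] at hab
      exact absurd hab (ht a)
    · rw [Function.update_of_ne ha, Function.update_of_ne hb] at hab
      exact hx hab

open Classical in
/-- the cube step -/
private theorem cube_step {V : Type*} [Fintype V] [DecidableEq V] {r : ℕ}
    (hV : 0 < Fintype.card V) {ρ : ℝ} (hρ : 0 < ρ) (c : Finset V → Bool) (κ : Bool)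
    (Ab : Finset (Fin r → V)) (hA : ∀ x ∈ Ab, Col c κ x) (i : Fin r) (t : V)
    (h : ρ / 3 * (Fintype.card V : ℝ) ^ r ≤
      ((Ab.filter fun x => Col c κ (Function.update x i t)).card : ℝ)) :
    alp r ρ * (Fintype.card V : ℝ) ^ r ≤
        ((Ab.filter fun x => Function.update x i t ∈ Aplus (alp r ρ) c κ Ab).card : ℝ) := by
  set Om := Ab.filter fun x => Col c κ (Function.update x i t) with hOm
  set n : ℝ := (Fintype.card V : ℝ) with hn
  have hn0 : 0 < n := by rw [hn]; exact_mod_cast hV
  have hnr : 0 < n ^ r := by positivity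
  have hα : 0 < alp r ρ := by unfold alp; positivity
  have hcube := cube_ineq hV r Om
  rw [← hn] at hcube
  have h1 : ρ / 3 ≤ (Om.card : ℝ) / n ^ r := by rw [le_div_iff₀ hnr]; exact h
  have h2 : 2 * alp r ρ * n ^ (2 * r) ≤
      ((univ.filter fun p : (Fin r → V) × (Fin r → V) => ∀ I, mix p.1 p.2 I ∈ Om).card : ℝ) := by
    refine le_trans ?_ hcube
    have h3 : 2 * alp r ρ = (ρ / 3) ^ (2 ^ r) := by unfold alp; ring
    rw [h3]
    gcongr
  -- the good first elements
  set G := univ.filter fun x : Fin r → V =>
    alp r ρ * n ^ r ≤ ((univ.filter fun w : Fin r → V => ∀ I, mix x w I ∈ Om).card : ℝ) with hG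
  have h4 : ((univ.filter fun p : (Fin r → V) × (Fin r → V) => ∀ I, mix p.1 p.2 I ∈ Om).card : ℝ)
      = ∑ x : Fin r → V, ((univ.filter fun w : Fin r → V => ∀ I, mix x w I ∈ Om).card : ℝ) := by
    rw [← Nat.cast_sum]
    congr 1
    rw [card_filter, Fintype.sum_prod_type]
    refine sum_congr rfl fun x _ => ?_
    rw [card_filter]
  have hcard : (Fintype.card (Fin r → V) : ℝ) = n ^ r := by
    rw [Fintype.card_pi, prod_const, card_univ, Fintype.card_fin, Nat.cast_pow]
  have h5 : ∑ x : Fin r → V, ((univ.filter fun w : Fin r → V => ∀ I, mix x w I ∈ Om).card : ℝ) ≤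
      ∑ x : Fin r → V, ((if x ∈ G then n ^ r else 0) + alp r ρ * n ^ r) := by
    refine sum_le_sum fun x _ => ?_
    by_cases hx : x ∈ G
    · rw [if_pos hx]
      have h6 : ((univ.filter fun w : Fin r → V => ∀ I, mix x w I ∈ Om).card : ℝ) ≤ n ^ r := by
        rw [← hcard]
        exact_mod_cast card_le_univ _
      have : 0 < alp r ρ * n ^ r := by positivity
      linarith
    · rw [if_neg hx, zero_add]
      rw [hG, mem_filter] at hx
      push Not at hx
      exact (hx (mem_univ _)).le
  have h6 : ∑ x : Fin r → V, ((if x ∈ G then n ^ r else 0) + alp r ρ * n ^ r) =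
      G.card * n ^ r + n ^ r * (alp r ρ * n ^ r) := by
    rw [sum_add_distrib, sum_ite_mem, univ_inter, sum_const, sum_const, nsmul_eq_mul,
      nsmul_eq_mul, card_univ, hcard]
  have h7 : alp r ρ * n ^ r ≤ (G.card : ℝ) := by
    have h8 : 2 * alp r ρ * n ^ (2 * r) ≤ G.card * n ^ r + n ^ r * (alp r ρ * n ^ r) := by
      rw [← h6]
      exact (h2.trans (le_of_eq h4)).trans h5
    have h9 : n ^ (2 * r) = n ^ r * n ^ r := by rw [two_mul, pow_add]
    rw [h9] at h8
    have h10 : alp r ρ * n ^ r * n ^ r ≤ G.card * n ^ r := by linarith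
    exact le_of_mul_le_mul_right h10 hnr
  refine h7.trans ?_
  have h8 : G ⊆ Ab.filter fun x => Function.update x i t ∈ Aplus (alp r ρ) c κ Ab := by
    intro x hx
    rw [hG, mem_filter] at hx
    have hx2 := hx.2
    have hpos : (0 : ℝ) < ((univ.filter fun w : Fin r → V => ∀ I, mix x w I ∈ Om).card : ℝ) :=
      lt_of_lt_of_le (by positivity) hx2
    have hpos' : 0 < (univ.filter fun w : Fin r → V => ∀ I, mix x w I ∈ Om).card := by
      exact_mod_cast hpos
    obtain ⟨w, hw⟩ := card_pos.1 hpos'
    rw [mem_filter] at hw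
    have hxO : x ∈ Om := by
      have h9 := hw.2 ∅
      have h10 : mix x w ∅ = x := by
        funext j
        simp [mix]
      rwa [h10] at h9
    rw [hOm, mem_filter] at hxO
    rw [mem_filter]
    refine ⟨hxO.1, ?_⟩
    unfold Aplus
    rw [mem_filter]
    refine ⟨mem_univ _, hxO.2, ?_⟩
    rw [← hn]
    refine hx2.trans ?_
    have h9 : (univ.filter fun w : Fin r → V => ∀ I, mix x w I ∈ Om) ⊆
        Ab.filter fun w => Adj c (Function.update x i t) w := by
      intro w hw
      rw [mem_filter] at hw
      have hwO : w ∈ Om := by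
        have h9 := hw.2 univ
        have h10 : mix x w univ = w := by
          funext j
          simp [mix]
        rwa [h10] at h9
      rw [hOm, mem_filter] at hwO
      rw [mem_filter]
      refine ⟨hwO.1, κ, ?_⟩
      intro I
      have h10 := hw.2 I
      rw [hOm, mem_filter] at h10
      by_cases hi : i ∈ I
      · have h11 : mix (Function.update x i t) w I = mix x w I := by
          funext j
          unfold mix
          by_cases hj : j ∈ I
          · rw [if_pos hj, if_pos hj]
          · rw [if_neg hj, if_neg hj, Function.update_of_ne]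
            rintro rfl
            exact hj hi
        rw [h11]
        exact hA _ h10.1
      · have h11 : mix (Function.update x i t) w I = Function.update (mix x w I) i t := by
          funext j
          by_cases hj : j = i
          · rw [hj, Function.update_self]
            unfold mix
            rw [if_neg hi, Function.update_self]
          · rw [Function.update_of_ne hj]
            unfold mix
            rw [Function.update_of_ne hj]
        rw [h11]
        exact h10.2
    exact_mod_cast card_le_card h9
  exact_mod_cast card_le_card h8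

open Classical in
theorem attach (r : ℕ) (hr : 2 ≤ r) (ρ : ℝ) (hρ : 0 < ρ) :
    ∃ n₀ : ℕ, ∀ (V : Type) [Fintype V] [DecidableEq V], n₀ ≤ Fintype.card V →
      ∀ (c : Finset V → Bool) (A : Bool → Finset (Fin r → V)) (κ₀ : Bool),
      (∀ b, ∀ x ∈ A b, Col c (if b then κ₀ else !κ₀) x) → HasAdj ρ A →
      ∃ ι : Bool → Fin r, ∀ t : V, ∃ b, alp r ρ * (Fintype.card V : ℝ) ^ r ≤
        (((A b).filter fun x => Function.update x (ι b) t ∈
          Aplus (alp r ρ) c (if b then κ₀ else !κ₀) (A b)).card : ℝ) := by
  obtain ⟨n₁, hn₁⟩ := exists_nat_gt (3 * r / ρ)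
  refine ⟨n₁ + 1, ?_⟩
  intro V _ _ hV c A κ₀ hcol hadj
  obtain ⟨τ, i, hadj⟩ := hadj
  have hV0 : 0 < Fintype.card V := by omega
  refine ⟨fun b => if b then i else τ.symm i, ?_⟩
  intro t
  set n : ℝ := (Fintype.card V : ℝ) with hn
  have hn0 : 0 < n := by rw [hn]; exact_mod_cast hV0
  have hnn₁ : (n₁ : ℝ) < n := by rw [hn]; exact_mod_cast hV
  have hnr : 0 < n ^ r := by positivity
  have h3r : 3 * (r : ℝ) ≤ ρ * n := by
    have h1 : 3 * (r : ℝ) / ρ < n := hn₁.trans hnn₁
    rw [div_lt_iff₀ hρ] at h1
    linarith
  -- the two sets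
  set O1 := (A true).filter fun x => Col c κ₀ (Function.update x i t) with hO1
  set O2 := (A false).filter fun x => Col c (!κ₀) (Function.update x (τ.symm i) t) with hO2
  have hcount : (univ.filter fun p : (Fin r → V) × V => p.1 ∈ A true ∧
      (Function.update p.1 i p.2) ∘ τ ∈ A false).card ≤
      r * Fintype.card V ^ r + O1.card * Fintype.card V + O2.card * Fintype.card V := by
    have hsub : (univ.filter fun p : (Fin r → V) × V => p.1 ∈ A true ∧
        (Function.update p.1 i p.2) ∘ τ ∈ A false) ⊆
        ((univ.filter fun p : (Fin r → V) × V => ∃ j, p.1 j = t) ∪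
          (univ.filter fun p : (Fin r → V) × V => p.1 ∈ O1)) ∪
          (univ.filter fun p : (Fin r → V) × V => (Function.update p.1 i p.2) ∘ τ ∈ O2) := by
      rintro ⟨x, v⟩ hp
      rw [mem_filter] at hp
      obtain ⟨_, hx, hy⟩ := hp
      simp only at hx hy
      by_cases ht : ∃ j, x j = t
      · exact mem_union.2 (Or.inl (mem_union.2 (Or.inl (mem_filter.2 ⟨mem_univ _, ht⟩))))
      · push Not at ht
        have hinj := update_inj (hcol true x hx).1 i t ht
        by_cases hc : c (univ.image (Function.update x i t)) = κ₀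
        · exact mem_union.2 (Or.inl (mem_union.2 (Or.inr (mem_filter.2 ⟨mem_univ _,
            mem_filter.2 ⟨hx, hinj, hc⟩⟩))))
        · refine mem_union.2 (Or.inr (mem_filter.2 ⟨mem_univ _, mem_filter.2 ⟨hy, ?_⟩⟩))
          simp only
          rw [update_comp]
          refine col_comp τ ⟨hinj, ?_⟩
          revert hc
          cases c (univ.image (Function.update x i t)) <;> cases κ₀ <;> simp
    refine (card_le_card hsub).trans ?_
    refine (card_union_le _ _).trans ?_
    refine Nat.add_le_add ((card_union_le _ _).trans ?_) ?_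
    · refine Nat.add_le_add (card_eq_t (by omega) t) ?_
      exact card_left O1 _ (fun p hp => hp)
    · exact card_right τ i O2 _ (fun p hp => hp)
  have hcount' : ρ * n ^ (r + 1) ≤ r * n ^ r + O1.card * n + O2.card * n := by
    refine hadj.trans ?_
    rw [hn]
    exact_mod_cast hcount
  have hpow : n ^ (r + 1) = n ^ r * n := pow_succ n r
  have hbig : r * n ^ r ≤ ρ / 3 * (n ^ r * n) := by
    have h1 : (r : ℝ) ≤ ρ / 3 * n := by linarith
    calc (r : ℝ) * n ^ r ≤ ρ / 3 * n * n ^ r := mul_le_mul_of_nonneg_right h1 hnr.le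
      _ = ρ / 3 * (n ^ r * n) := by ring
  have hor : ρ / 3 * n ^ r ≤ (O1.card : ℝ) ∨ ρ / 3 * n ^ r ≤ (O2.card : ℝ) := by
    by_contra hcon
    push Not at hcon
    have h1 : (O1.card : ℝ) * n < ρ / 3 * n ^ r * n := mul_lt_mul_of_pos_right hcon.1 hn0
    have h2 : (O2.card : ℝ) * n < ρ / 3 * n ^ r * n := mul_lt_mul_of_pos_right hcon.2 hn0
    rw [hpow] at hcount'
    nlinarith
  rcases hor with h1 | h1
  · refine ⟨true, ?_⟩
    exact cube_step hV0 hρ c κ₀ (A true) (fun x hx => hcol true x hx) i t h1
  · refine ⟨false, ?_⟩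
    exact cube_step hV0 hρ c (!κ₀) (A false) (fun x hx => hcol false x hx) (τ.symm i) t h1

theorem card_of_adj {V : Type*} [Fintype V] [DecidableEq V] {r : ℕ} (hV : 0 < Fintype.card V)
    {ρ : ℝ} {A : Bool → Finset (Fin r → V)} (h : HasAdj ρ A) (b : Bool) :
    ρ * (Fintype.card V : ℝ) ^ r ≤ (A b).card := by
  classical
  obtain ⟨τ, i, h⟩ := h
  have hn0 : (0 : ℝ) < Fintype.card V := by exact_mod_cast hV
  have h1 : (univ.filter fun p : (Fin r → V) × V => p.1 ∈ A true ∧
      (Function.update p.1 i p.2) ∘ τ ∈ A false).card ≤ (A b).card * Fintype.card V := by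
    cases b
    · exact card_right τ i (A false) (fun p : (Fin r → V) × V => p.1 ∈ A true ∧
        (Function.update p.1 i p.2) ∘ τ ∈ A false) (fun p hp => hp.2)
    · exact card_left (A true) (fun p : (Fin r → V) × V => p.1 ∈ A true ∧
        (Function.update p.1 i p.2) ∘ τ ∈ A false) (fun p hp => hp.1)
  have h2 : ρ * (Fintype.card V : ℝ) ^ (r + 1) ≤ ((A b).card : ℝ) * Fintype.card V := by
    refine h.trans ?_
    convert (Nat.cast_le (α := ℝ)).2 h1 using 1
    push_cast
    ring
  rw [pow_succ, ← mul_assoc] at h2
  exact le_of_mul_le_mul_right h2 hn0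

theorem deg_of_att {V : Type*} [Fintype V] [DecidableEq V] {r : ℕ} (hr : 1 ≤ r)
    (hV : 0 < Fintype.card V) {α : ℝ} {K₁ : Bool → Finset (Fin r → V)} {ι : Bool → Fin r}
    (h : Att α K₁ ι) : Deg α K₁ := by
  classical
  intro t
  obtain ⟨b, hb⟩ := h t
  refine ⟨b, ι b, ?_⟩
  have hn0 : (0 : ℝ) < Fintype.card V := by exact_mod_cast hV
  have h1 : ((K₁ b).filter fun x => Function.update x (ι b) t ∈ K₁ b).card ≤
      (((K₁ b).filter fun x => x (ι b) = t) ×ˢ (univ : Finset V)).card := by
    refine card_le_card_of_injOn (fun x => (Function.update x (ι b) t, x (ι b))) ?_ ?_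
    · intro x hx
      rw [mem_coe, mem_filter] at hx
      rw [mem_coe, mem_product, mem_filter]
      exact ⟨⟨hx.2, Function.update_self _ _ _⟩, mem_univ _⟩
    · intro x _ x' _ hxx
      rw [Prod.mk.injEq] at hxx
      funext j
      by_cases hj : j = ι b
      · rw [hj]; exact hxx.2
      · have h4 := congrFun hxx.1 j
        simpa only [Function.update_of_ne hj] using h4
  rw [card_product, card_univ] at h1
  have h2 : α * (Fintype.card V : ℝ) ^ r ≤
      (((K₁ b).filter fun x => x (ι b) = t).card : ℝ) * Fintype.card V := by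
    refine hb.trans ?_
    convert (Nat.cast_le (α := ℝ)).2 h1 using 1
    push_cast
    ring
  obtain ⟨s, rfl⟩ : ∃ s, r = s + 1 := ⟨r - 1, by omega⟩
  rw [pow_succ, ← mul_assoc] at h2
  rw [Nat.add_sub_cancel]
  exact le_of_mul_le_mul_right h2 hn0

end Pool.Agent.Lib.TwoPaths
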