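import Pool.Agent.Lib.TwoPaths.N0

/-!
# N4: a random sample is not split

`A b ⊆ K₁ b`, all tuples injective, `Interior (α/(2r²)) ε₁ β A`, `Deg α K₁`, `0 < α ≤ 1`, `0 < β ≤ 1`.
Call `Q : Fin q → V` *split* if there are `P ⊆ Fin q`, `P ≠ ∅`, `P ≠ Fin q`, and `a : ℕ` such that
`|P ∩ im ω| = a` for all injective `ω` with `Q ∘ ω ∈ K₁ true ∪ K₁ false`.  Claim: for all `ζ > 0` and
all large `q`, at most `ζ n^q` of the `Q` are split (for `n = |V|` large).

PROOF.  Let `r ≥ 2`, `q₁` fixed (chosen below), `q > q₁`.  Let `G₂` be the set of indices `≥ q₁`.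

(E1) Some index `k` is *isolated*: no injective `ω` with `k ∈ im ω` has
`Q∘ω ∈ K₁ true ∪ K₁ false`.  For fixed `k` with `t = Q k` let `(b, i)` be as in `Deg`, and let `Φ t`
be the set of `y : Fin (r-1) → V` such that inserting `t` at place `i` (`Fin.insertNth`-like) gives
a tuple of `K₁ b`; `|Φ t| ≥ α n^(r-1)`.  `no_hit_all` with `d = 1`, `m = r - 1`, `p = α`: the number of
`Q` with (E1) is at most `q (1-α)^((q-1)/(r-1)) n^q`.

(E2) For `v : V` say that `v` is *attached* to `Q` if there are `b`, `i` and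
`p : Fin r → Fin q` with `p j < q₁` for `j ≠ i`, `p` injective on `{j ≠ i}`, and
`update (Q∘p) i v ∈ K₁ b`.  For each `v`, by `no_hit` (`d = 0`, `m = r-1`, `G` = the indices `< q₁`,
`Φ` as in (E1)) the number of `Q` with `v` not attached is at most `(1-α)^(q₁/(r-1)) n^q`.  So the
number of `Q` with more than `(β/(2r)) n` not attached vertices is at most
`(2r/β)(1-α)^(q₁/(r-1)) n^q` (Markov).  Choose `q₁` such that this is at most `(ζ/3) n^q`.

(E3) For `P₁ ⊆ {indices < q₁}` and `1 ≤ a ≤ r-1` let `Ext` be the set of all `v` for which there are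
`b, i, p` as in (E2) with `update (Q∘p) i v ∈ K₁ b` and `#{j ≠ i : p j ∈ P₁} + 1 = a`.
Let `Φ` be the set of `u ∈ A true ∪ A false` all of whose entries are attached and with
`#{j : u j ∈ Ext} ≠ a`.  All this depends only on the entries `Q k`, `k < q₁`.
Claim: if not (E2) then `|Φ| ≥ (β/2) n^r`.  Let `l v = [v ∈ Ext] - a/r`; one of `l`, `-l` has sum
`≤ 0 ≤ ε₁ n`; both have values in `[-1, 1] ⊆ [-1, r-1]` and
`∑ |l| ≥ min(a/r, 1 - a/r) n ≥ n/r ≥ (α/(2r²)) n`.  By `Interior` at least `β n^r` tuples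
`u ∈ A true ∪ A false` have `±∑ l (u j) < 0`, so `#{j : u j ∈ Ext} ≠ a`.  At most
`r · (β/(2r)) n · n^(r-1)` of them have a not attached entry.
By `no_hit` (`d = q₁`, `a` = the inclusion of the first `q₁` indices, `G = G₂`, `m = r`, `p = β/2`) the
number of `Q` outside (E2) such that for some `(P₁, a)` no injective `ω` with values in `G₂` has
`Q∘ω ∈ Φ` is at most `2^(q₁) r (1 - β/2)^((q - q₁)/r) n^q`.

For `q` large (E1), (E3) have count at most `(ζ/3) n^q` each.  Suppose that `Q` is in none of the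
three events and is split by `(P, a)`.  `P` contains some index `k`, and some `ω ∋ k` has
`Q∘ω ∈ K₁`, so `a ≥ 1`; similarly for an index not in `P`: `a ≤ r - 1`.  Let `P₁ = P ∩ {< q₁}`.
(*) Let `k` be an index `≥ q₁` such that `v = Q k` is attached, by `(b, i, p)`.  Then
`ω = update p i k` is injective, `Q∘ω = update (Q∘p) i v ∈ K₁ b`, so
`[k ∈ P] + #{j ≠ i : p j ∈ P₁} = a`.  Hence `k ∈ P` if and only if `v ∈ Ext` (if `k ∈ P` this
`(b,i,p)` shows `v ∈ Ext`; if `v ∈ Ext` apply (*) to the triple witnessing it).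
As not (E3), there is an injective `ω` with values in `G₂` and `Q∘ω ∈ Φ`: all `Q (ω j)` are attached and
`#{j : Q (ω j) ∈ Ext} ≠ a`, so `|P ∩ im ω| ≠ a`, although `Q∘ω ∈ A true ∪ A false ⊆ K₁ …`.
Contradiction.
-/

namespace Pool.Agent.Lib.TwoPaths

open Finset
open Pool.Agent.Lib.MP_952639_co

section aux

variable {V : Type*} [Fintype V] [DecidableEq V]

/-- The tuples completing `v` at place `i` to a tuple of `K`. -/
private def ins {s : ℕ} (K : Finset (Fin (s + 1) → V)) (i : Fin (s + 1)) (v : V) :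
    Finset (Fin s → V) :=
  univ.filter fun y => (i.insertNth v y : Fin (s + 1) → V) ∈ K

private lemma mem_ins {s : ℕ} (K : Finset (Fin (s + 1) → V)) (i : Fin (s + 1)) (v : V)
    (y : Fin s → V) : y ∈ ins K i v ↔ (i.insertNth v y : Fin (s + 1) → V) ∈ K := by
  unfold ins
  rw [mem_filter]
  exact ⟨fun h => h.2, fun h => ⟨mem_univ _, h⟩⟩

private lemma card_ins {s : ℕ} (K : Finset (Fin (s + 1) → V)) (i : Fin (s + 1)) (v : V) :
    (ins K i v).card = (K.filter fun x => x i = v).card := by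
  refine card_nbij' (fun y => (i.insertNth v y : Fin (s + 1) → V)) (fun x => i.removeNth x)
    ?_ ?_ ?_ ?_
  · intro y hy
    rw [mem_coe, mem_ins] at hy
    rw [mem_coe, mem_filter]
    exact ⟨hy, Fin.insertNth_apply_same _ _ _⟩
  · intro x hx
    rw [mem_coe, mem_filter] at hx
    rw [mem_coe, mem_ins]
    have : (i.insertNth v (i.removeNth x) : Fin (s + 1) → V) = x := by
      rw [← hx.2]
      exact Fin.insertNth_self_removeNth i x
    rw [this]
    exact hx.1
  · intro y _
    exact Fin.removeNth_insertNth _ _ _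
  · intro x hx
    rw [mem_coe, mem_filter] at hx
    rw [← hx.2]
    exact Fin.insertNth_self_removeNth i x

omit [Fintype V] [DecidableEq V] in
private lemma comp_insertNth {s q : ℕ} (Q : Fin q → V) (i : Fin (s + 1)) (k : Fin q)
    (w : Fin s → Fin q) :
    Q ∘ (i.insertNth k w : Fin (s + 1) → Fin q) = (i.insertNth (Q k) (Q ∘ w) : Fin (s + 1) → V) := by
  funext j
  rcases Fin.eq_self_or_eq_succAbove i j with h | ⟨j', h⟩
  · subst h
    simp
  · subst h
    simp

/-- `v` is attached to the sample `x`. -/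
private def Attd {s d : ℕ} (K : Bool → Finset (Fin (s + 1) → V)) (x : Fin d → V) (v : V) : Prop :=
  ∃ (b : Bool) (i : Fin (s + 1)) (p : Fin s → Fin d), x ∘ p ∈ ins (K b) i v

/-- `v` is attached to the sample `x` in such a way that it has to be in the set. -/
private def Ext {s d : ℕ} (K : Bool → Finset (Fin (s + 1) → V)) (P : Finset (Fin d)) (a : ℕ)
    (x : Fin d → V) (v : V) : Prop :=
  ∃ (b : Bool) (i : Fin (s + 1)) (p : Fin s → Fin d), x ∘ p ∈ ins (K b) i v ∧
    (univ.filter fun j => p j ∈ P).card + 1 = a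

open Classical in
/-- The set of good tuples. -/
private noncomputable def Phi {s d : ℕ} (A K : Bool → Finset (Fin (s + 1) → V))
    (P : Finset (Fin d)) (a : ℕ) (x : Fin d → V) : Finset (Fin (s + 1) → V) :=
  (A true ∪ A false).filter fun u => (∀ j, Attd K x (u j)) ∧
    (univ.filter fun j => Ext K P a x (u j)).card ≠ a

/-! ### The deterministic part -/

private lemma card_inter_image {r q : ℕ} (P : Finset (Fin q)) (ω : Fin r → Fin q)
    (hω : Function.Injective ω) :
    (P ∩ univ.image ω).card = (univ.filter fun j => ω j ∈ P).card := by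
  have : P ∩ univ.image ω = (univ.filter fun j => ω j ∈ P).image ω := by
    ext k
    simp only [mem_inter, mem_image, mem_univ, true_and, mem_filter]
    constructor
    · rintro ⟨h1, j, h2⟩
      exact ⟨j, by rw [h2]; exact h1, h2⟩
    · rintro ⟨j, h1, h2⟩
      exact ⟨by rw [← h2]; exact h1, j, h2⟩
  rw [this, card_image_of_injective _ hω]

private lemma card_filter_insertNth {s q : ℕ} (P : Finset (Fin q)) (i : Fin (s + 1)) (k : Fin q)
    (w : Fin s → Fin q) :
    (univ.filter fun j => (i.insertNth k w : Fin (s + 1) → Fin q) j ∈ P).card =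
      (univ.filter fun j => w j ∈ P).card + if k ∈ P then 1 else 0 := by
  rw [card_filter, Fin.sum_univ_succAbove _ i, card_filter]
  simp only [Fin.insertNth_apply_same, Fin.insertNth_apply_succAbove]
  rw [add_comm]

private lemma deterministic {s q d : ℕ} (A K : Bool → Finset (Fin (s + 1) → V))
    (hAK : ∀ b, A b ⊆ K b) (hinj : ∀ b, ∀ x ∈ K b, Function.Injective x)
    (Q : Fin q → V) (c : Fin d → Fin q)
    (h1 : ∀ k : Fin q, ∃ b, ∃ ω ∈ patt K Q b, k ∈ univ.image ω)
    (h3 : ∀ (P₁ : Finset (Fin d)) (a : ℕ), 1 ≤ a → a ≤ s →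
      ∃ ω : Fin (s + 1) → Fin q, Q ∘ ω ∈ Phi A K P₁ a (Q ∘ c))
    (P : Finset (Fin q)) (hP : P.Nonempty) (hP' : P ≠ univ) (a : ℕ)
    (hs : ∀ b, ∀ ω ∈ patt K Q b, (P ∩ univ.image ω).card = a) : False := by
  classical
  have hmem : ∀ b (ω : Fin (s + 1) → Fin q), Q ∘ ω ∈ K b →
      (univ.filter fun j => ω j ∈ P).card = a := by
    intro b ω hω
    rw [← card_inter_image P ω ((hinj b _ hω).of_comp)]
    refine hs b ω ?_
    unfold patt
    rw [mem_filter]
    exact ⟨mem_univ _, hω⟩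
  have ha1 : 1 ≤ a := by
    obtain ⟨k, hk⟩ := hP
    obtain ⟨b, ω, hω, hkω⟩ := h1 k
    rw [← hs b ω hω]
    exact card_pos.mpr ⟨k, mem_inter.mpr ⟨hk, hkω⟩⟩
  have ha2 : a ≤ s := by
    obtain ⟨k, hk⟩ : ∃ k, k ∉ P := by
      by_contra hcon
      push Not at hcon
      exact hP' (eq_univ_iff_forall.mpr hcon)
    obtain ⟨b, ω, hω, hkω⟩ := h1 k
    rw [← hs b ω hω]
    have e : P ∩ univ.image ω ⊆ (univ.image ω).erase k := by
      intro z hz
      rw [mem_inter] at hz
      rw [mem_erase]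
      refine ⟨?_, hz.2⟩
      rintro rfl
      exact hk hz.1
    have e2 := card_le_card e
    rw [card_erase_of_mem hkω] at e2
    have e3 : (univ.image ω).card ≤ s + 1 := by
      refine card_image_le.trans ?_
      rw [card_univ, Fintype.card_fin]
    omega
  have hstar : ∀ (k : Fin q) (b : Bool) (i : Fin (s + 1)) (p : Fin s → Fin d),
      (Q ∘ c) ∘ p ∈ ins (K b) i (Q k) →
      (univ.filter fun j => p j ∈ (univ.filter fun j' : Fin d => c j' ∈ P)).card +
        (if k ∈ P then 1 else 0) = a := by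
    intro k b i p hp
    rw [mem_ins] at hp
    have h := hmem b (i.insertNth k (c ∘ p) : Fin (s + 1) → Fin q) (by
      rw [comp_insertNth]
      exact hp)
    rw [card_filter_insertNth] at h
    rw [← h]
    congr 2
    ext j
    simp
  have hext : ∀ k : Fin q, Attd K (Q ∘ c) (Q k) →
      (Ext K (univ.filter fun j' : Fin d => c j' ∈ P) a (Q ∘ c) (Q k) ↔ k ∈ P) := by
    intro k hk
    constructor
    · rintro ⟨b, i, p, hp, hpa⟩
      have := hstar k b i p hp
      by_contra hkP
      rw [if_neg hkP] at this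
      omega
    · intro hkP
      obtain ⟨b, i, p, hp⟩ := hk
      have := hstar k b i p hp
      rw [if_pos hkP] at this
      exact ⟨b, i, p, hp, this⟩
  obtain ⟨ω, hω⟩ := h3 (univ.filter fun j' : Fin d => c j' ∈ P) a ha1 ha2
  unfold Phi at hω
  rw [mem_filter] at hω
  obtain ⟨hω1, hω2, hω3⟩ := hω
  apply hω3
  have e : (univ.filter fun j => Ext K (univ.filter fun j' : Fin d => c j' ∈ P) a (Q ∘ c)
      ((Q ∘ ω) j)) = univ.filter fun j => ω j ∈ P := by
    ext j
    rw [mem_filter, mem_filter]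
    exact and_congr_right fun _ => hext (ω j) (hω2 j)
  rw [e]
  rw [mem_union] at hω1
  rcases hω1 with h | h
  · exact hmem true ω (hAK _ h)
  · exact hmem false ω (hAK _ h)

/-! ### Counting -/

private lemma card_coord {s : ℕ} (j : Fin (s + 1)) (v : V) :
    (univ.filter fun u : Fin (s + 1) → V => u j = v).card = Fintype.card V ^ s := by
  rw [← card_ins univ j v]
  have : ins (univ : Finset (Fin (s + 1) → V)) j v = univ := by
    ext y
    rw [mem_ins]
    simp
  rw [this, card_univ, Fintype.card_fun, Fintype.card_fin]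

open Classical in
private lemma card_bad {s : ℕ} (R : V → Prop) :
    (univ.filter fun u : Fin (s + 1) → V => ∃ j, R (u j)).card ≤
      (s + 1) * ((univ.filter R).card * Fintype.card V ^ s) := by
  have h1 : (univ.filter fun u : Fin (s + 1) → V => ∃ j, R (u j)) ⊆
      (univ : Finset (Fin (s + 1))).biUnion fun j => (univ.filter R).biUnion fun v =>
        univ.filter fun u : Fin (s + 1) → V => u j = v := by
    intro u hu
    rw [mem_filter] at hu
    obtain ⟨j, hj⟩ := hu.2
    rw [mem_biUnion]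
    refine ⟨j, mem_univ _, ?_⟩
    rw [mem_biUnion]
    exact ⟨u j, mem_filter.mpr ⟨mem_univ _, hj⟩, mem_filter.mpr ⟨mem_univ _, rfl⟩⟩
  refine (card_le_card h1).trans (card_biUnion_le.trans ?_)
  refine (sum_le_sum fun j _ => card_biUnion_le).trans ?_
  simp only [card_coord, sum_const, smul_eq_mul, card_univ, Fintype.card_fin]
  exact le_rfl

open Classical in
private lemma card_phi {s d : ℕ} (hs : 1 ≤ s) (α ε₁ β : ℝ) (hα1 : α ≤ 1)
    (hε₁ : 0 < ε₁) (A K : Bool → Finset (Fin (s + 1) → V))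
    (hI : Interior (α / (2 * ((s + 1 : ℕ) : ℝ) ^ 2)) ε₁ β A)
    (x : Fin d → V)
    (hx : ((univ.filter fun v => ¬ Attd K x v).card : ℝ) ≤
      β / (2 * ((s + 1 : ℕ) : ℝ)) * Fintype.card V)
    (P : Finset (Fin d)) (a : ℕ) (ha1 : 1 ≤ a) (ha2 : a ≤ s) :
    β / 2 * (Fintype.card V : ℝ) ^ (s + 1) ≤ ((Phi A K P a x).card : ℝ) := by
  have hn : (0 : ℝ) ≤ Fintype.card V := Nat.cast_nonneg _
  set R : ℝ := ((s + 1 : ℕ) : ℝ) with hR
  have hR2 : (2 : ℝ) ≤ R := by
    rw [hR]
    exact_mod_cast (by omega : 2 ≤ s + 1)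
  have hR0 : (0 : ℝ) < R := by linarith
  have ha1' : (1 : ℝ) ≤ a := by exact_mod_cast ha1
  have ha2' : (a : ℝ) + 1 ≤ R := by
    rw [hR]
    exact_mod_cast (by omega : a + 1 ≤ s + 1)
  -- the weight
  set l : V → ℝ := fun v => (if Ext K P a x v then 1 else 0) - a / R with hl
  have haR : 1 / R ≤ a / R := by
    rw [div_le_div_iff_of_pos_right hR0]
    exact ha1'
  have haR2 : a / R + 1 / R ≤ 1 := by
    rw [← add_div, div_le_one hR0]
    exact ha2'
  have h1R : 0 < 1 / R := by positivity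
  have hlb : ∀ v, -1 ≤ l v ∧ l v ≤ 1 ∧ 1 / R ≤ |l v| := by
    intro v
    simp only [hl]
    split_ifs
    · refine ⟨by linarith, by linarith, ?_⟩
      rw [abs_of_nonneg (by linarith)]
      linarith
    · refine ⟨by linarith, by linarith, ?_⟩
      rw [abs_of_nonpos (by linarith)]
      linarith
  have habs : α / (2 * R ^ 2) * Fintype.card V ≤ ∑ v, |l v| := by
    have e1 : ∑ v : V, (1 / R) ≤ ∑ v, |l v| := sum_le_sum fun v _ => (hlb v).2.2
    rw [sum_const, nsmul_eq_mul, card_univ, mul_comm] at e1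
    refine le_trans (mul_le_mul_of_nonneg_right ?_ hn) e1
    rw [div_le_div_iff₀ (by positivity) hR0]
    have : α * R ≤ 1 * R := mul_le_mul_of_nonneg_right hα1 hR0.le
    nlinarith
  have hsum : ∀ u : Fin (s + 1) → V, ∑ i, l (u i) =
      ((univ.filter fun j => Ext K P a x (u j)).card : ℝ) - a := by
    intro u
    simp only [hl]
    rw [sum_sub_distrib, sum_const, card_univ, Fintype.card_fin, nsmul_eq_mul, card_filter,
      Nat.cast_sum]
    congr 1
    · refine sum_congr rfl fun j _ => ?_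
      split_ifs <;> simp
    · rw [← hR]
      field_simp
  have hmain : β * (Fintype.card V : ℝ) ^ (s + 1) ≤
      (((A true ∪ A false).filter fun u =>
        (univ.filter fun j => Ext K P a x (u j)).card ≠ a).card : ℝ) := by
    rcases le_total (∑ v, l v) 0 with h | h
    · refine (hI l (fun v => (hlb v).1) (fun v => (hlb v).2.1.trans (by linarith))
        (h.trans (by positivity)) habs).trans ?_
      apply Nat.cast_le.mpr
      apply card_le_card
      refine monotone_filter_right _ fun u _ hu => ?_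
      rw [hsum] at hu
      intro hcon
      rw [hcon] at hu
      linarith
    · refine (hI (fun v => - l v) (fun v => by linarith [(hlb v).2.1])
        (fun v => by linarith [(hlb v).1]) ?_ ?_).trans ?_
      · rw [sum_neg_distrib]
        have : 0 ≤ ε₁ * Fintype.card V := by positivity
        linarith
      · simp only [abs_neg]
        exact habs
      · apply Nat.cast_le.mpr
        apply card_le_card
        refine monotone_filter_right _ fun u _ hu => ?_
        rw [sum_neg_distrib, hsum] at hu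
        intro hcon
        rw [hcon] at hu
        linarith
  have hsub : ((A true ∪ A false).filter fun u =>
      (univ.filter fun j => Ext K P a x (u j)).card ≠ a) ⊆
      Phi A K P a x ∪ (univ.filter fun u : Fin (s + 1) → V => ∃ j, ¬ Attd K x (u j)) := by
    intro u hu
    rw [mem_filter] at hu
    rw [mem_union]
    by_cases hall : ∀ j, Attd K x (u j)
    · left
      unfold Phi
      rw [mem_filter]
      exact ⟨hu.1, hall, hu.2⟩
    · right
      push Not at hall
      rw [mem_filter]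
      exact ⟨mem_univ _, hall⟩
  have h4 := (card_le_card hsub).trans (card_union_le _ _)
  have h5' : (univ.filter fun u : Fin (s + 1) → V => ∃ j, ¬ Attd K x (u j)).card ≤
      (s + 1) * ((univ.filter fun v => ¬ Attd K x v).card * Fintype.card V ^ s) := by
    convert card_bad (s := s) (fun v : V => ¬ Attd K x v)
  have h5 := h4.trans (Nat.add_le_add_left h5' _)
  have h6 : (((A true ∪ A false).filter fun u =>
        (univ.filter fun j => Ext K P a x (u j)).card ≠ a).card : ℝ) ≤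
      (Phi A K P a x).card + R * ((univ.filter fun v => ¬ Attd K x v).card *
        (Fintype.card V : ℝ) ^ s) := by
    rw [hR]
    exact_mod_cast h5
  have h7 : R * ((univ.filter fun v => ¬ Attd K x v).card * (Fintype.card V : ℝ) ^ s) ≤
      β / 2 * (Fintype.card V : ℝ) ^ (s + 1) := by
    calc R * ((univ.filter fun v => ¬ Attd K x v).card * (Fintype.card V : ℝ) ^ s)
        ≤ R * ((β / (2 * R) * Fintype.card V) * (Fintype.card V : ℝ) ^ s) := by gcongr
      _ = β / 2 * (Fintype.card V : ℝ) ^ (s + 1) := by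
          rw [pow_succ]
          field_simp
  linarith

open Classical in
private lemma markov {q : ℕ} (hV : 0 < Fintype.card V) (R : (Fin q → V) → V → Prop) (B t : ℝ)
    (ht : 0 < t) (hB : ∀ v, cnt (fun Q => R Q v) ≤ B * (Fintype.card V : ℝ) ^ q) :
    cnt (fun Q : Fin q → V => ¬ ((univ.filter fun v => R Q v).card : ℝ) ≤ t * Fintype.card V) ≤
      B / t * (Fintype.card V : ℝ) ^ q := by
  have hn : (0 : ℝ) < Fintype.card V := by exact_mod_cast hV
  have h1 : ∑ Q : Fin q → V, ((univ.filter fun v => R Q v).card : ℝ) =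
      ∑ v, cnt (fun Q => R Q v) := by
    simp only [cnt_eq, card_filter, Nat.cast_sum]
    exact sum_comm
  have h2 : cnt (fun Q : Fin q → V =>
      ¬ ((univ.filter fun v => R Q v).card : ℝ) ≤ t * Fintype.card V) * (t * Fintype.card V) ≤
      ∑ Q : Fin q → V, ((univ.filter fun v => R Q v).card : ℝ) := by
    rw [cnt_eq, ← nsmul_eq_mul, ← sum_const]
    refine le_trans (sum_le_sum fun Q hQ => ?_)
      (sum_le_sum_of_subset_of_nonneg (filter_subset (fun Q : Fin q → V =>
      ¬ ((univ.filter fun v => R Q v).card : ℝ) ≤ t * Fintype.card V) univ)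
        fun Q _ _ => Nat.cast_nonneg _)
    rw [mem_filter] at hQ
    exact (not_le.mp hQ.2).le
  have h3 : ∑ v, cnt (fun Q => R Q v) ≤
      Fintype.card V * (B * (Fintype.card V : ℝ) ^ q) := by
    refine (sum_le_sum fun v _ => hB v).trans ?_
    rw [sum_const, nsmul_eq_mul, card_univ]
  have h4 : cnt (fun Q : Fin q → V =>
      ¬ ((univ.filter fun v => R Q v).card : ℝ) ≤ t * Fintype.card V) * (t * Fintype.card V) ≤
      (B / t * (Fintype.card V : ℝ) ^ q) * (t * Fintype.card V) := by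
    refine h2.trans ((h1.le.trans h3).trans (le_of_eq ?_))
    field_simp
  exact le_of_mul_le_mul_right h4 (by positivity)

private lemma cnt_not_attd {s q d : ℕ} (hs : 1 ≤ s) (hV : 0 < Fintype.card V) (α : ℝ)
    (hα : 0 < α) (hα1 : α ≤ 1) (K : Bool → Finset (Fin (s + 1) → V))
    (hD : Deg α K) (c : Fin d → Fin q) (hc : Function.Injective c) (v : V) :
    cnt (fun Q : Fin q → V => ¬ Attd K (Q ∘ c) v) ≤
      (1 - α) ^ (d / s) * (Fintype.card V : ℝ) ^ q := by
  classical
  obtain ⟨b, i, hbi⟩ := hD v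
  rw [Nat.add_sub_cancel] at hbi
  have h := no_hit hV hs α hα.le hα1 (fun _ : Fin 0 → V => ins (K b) i v)
    (Fin.elim0 : Fin 0 → Fin q) (univ.image c) (fun i => i.elim0)
  rw [card_image_of_injective _ hc, card_univ, Fintype.card_fin] at h
  refine le_trans (cnt_mono ?_) h
  intro Q hQ
  refine ⟨?_, ?_⟩
  · rw [card_ins]
    convert hbi
  · intro ω _ hG hmem
    apply hQ
    have : ∀ j, ∃ j', c j' = ω j := by
      intro j
      have := hG j
      rw [mem_image] at this
      obtain ⟨j', _, h'⟩ := this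
      exact ⟨j', h'⟩
    choose p hp using this
    refine ⟨b, i, p, ?_⟩
    have e : (Q ∘ c) ∘ p = Q ∘ ω := by
      funext j
      simp only [Function.comp]
      rw [hp]
    rw [e]
    exact hmem

private lemma cnt_isolated {s q : ℕ} (hs : 1 ≤ s) (hq : 1 ≤ q) (hV : 0 < Fintype.card V) (α : ℝ)
    (hα : 0 < α) (hα1 : α ≤ 1) (K : Bool → Finset (Fin (s + 1) → V)) (hD : Deg α K) :
    cnt (fun Q : Fin q → V => ¬ ∀ k : Fin q, ∃ b, ∃ ω ∈ patt K Q b, k ∈ univ.image ω) ≤
      (q : ℝ) * (1 - α) ^ ((q - 1) / s) * (Fintype.card V : ℝ) ^ q := by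
  classical
  choose bb ii hbi using hD
  rw [Nat.add_sub_cancel] at hbi
  have h := no_hit_all hV hs hq α hα.le hα1 (fun x : Fin 1 → V => ins (K (bb (x 0))) (ii (x 0)) (x 0))
  rw [pow_one, ← mul_assoc] at h
  refine le_trans (cnt_mono ?_) h
  intro Q hQ
  push Not at hQ
  obtain ⟨k, hk⟩ := hQ
  refine ⟨fun _ => k, ?_, ?_⟩
  · change α * (Fintype.card V : ℝ) ^ s ≤ ((ins (K (bb (Q k))) (ii (Q k)) (Q k)).card : ℝ)
    rw [card_ins]
    convert hbi (Q k)
  · intro ω _ _ hmem
    rw [mem_ins] at hmem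
    refine hk (bb (Q k)) ((ii (Q k)).insertNth k ω : Fin (s + 1) → Fin q) ?_ ?_
    · unfold patt
      rw [mem_filter]
      refine ⟨mem_univ _, ?_⟩
      rw [comp_insertNth]
      exact hmem
    · rw [mem_image]
      exact ⟨ii (Q k), mem_univ _, Fin.insertNth_apply_same _ _ _⟩

private lemma cnt_noPhi {s q d : ℕ} (hV : 0 < Fintype.card V) (β : ℝ)
    (hβ : 0 < β) (hβ1 : β ≤ 1) (A K : Bool → Finset (Fin (s + 1) → V))
    (c : Fin d → Fin q) (hc : Function.Injective c) :
    cnt (fun Q : Fin q → V => ∃ z : Finset (Fin d) × Fin (s + 1),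
      β / 2 * (Fintype.card V : ℝ) ^ (s + 1) ≤ ((Phi A K z.1 z.2 (Q ∘ c)).card : ℝ) ∧
      ∀ ω : Fin (s + 1) → Fin q, Function.Injective ω → (∀ i, ω i ∈ (univ.image c)ᶜ) →
        Q ∘ ω ∉ Phi A K z.1 z.2 (Q ∘ c)) ≤
      (2 : ℝ) ^ d * (s + 1) * (1 - β / 2) ^ ((q - d) / (s + 1)) * (Fintype.card V : ℝ) ^ q := by
  classical
  refine (cnt_exists _ ((1 - β / 2) ^ ((q - d) / (s + 1)) * (Fintype.card V : ℝ) ^ q)
    fun z => ?_).trans (le_of_eq ?_)
  · have h := no_hit hV (Nat.succ_le_succ (Nat.zero_le s)) (β / 2) (by positivity)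
      (by linarith) (fun x : Fin d → V => Phi A K z.1 z.2 x) c ((univ.image c)ᶜ) (by
        intro i
        rw [mem_compl, not_not]
        exact mem_image_of_mem _ (mem_univ _))
    rw [card_compl, card_image_of_injective _ hc, card_univ, Fintype.card_fin,
      Fintype.card_fin] at h
    exact h
  · rw [Fintype.card_prod, Fintype.card_finset, Fintype.card_fin, Fintype.card_fin]
    push_cast
    ring

end aux

/-! ### The constants -/

private lemma exists_lin (x C ε : ℝ) (hx0 : 0 ≤ x) (hx1 : x < 1) (hε : 0 < ε) :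
    ∃ M₀ : ℕ, ∀ M ≥ M₀, C * ((M : ℝ) + 1) * x ^ M ≤ ε := by
  have h1 := tendsto_self_mul_const_pow_of_lt_one hx0 hx1
  have h2 := tendsto_pow_atTop_nhds_zero_of_lt_one hx0 hx1
  have h3 := ((h1.add h2).const_mul C)
  rw [add_zero, mul_zero] at h3
  have h4 := h3.eventually (gt_mem_nhds hε)
  obtain ⟨M₀, hM₀⟩ := Filter.eventually_atTop.mp h4
  refine ⟨M₀, fun M hM => ?_⟩
  have := hM₀ M hM
  have e : C * ((M : ℝ) + 1) * x ^ M = C * ((M : ℝ) * x ^ M + x ^ M) := by ring
  rw [e]
  exact this.le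

theorem not_split (r : ℕ) (hr : 2 ≤ r) (α ε₁ β ζ : ℝ) (hα : 0 < α) (hα1 : α ≤ 1)
    (hε₁ : 0 < ε₁) (hβ : 0 < β) (hβ1 : β ≤ 1) (hζ : 0 < ζ) :
    ∃ q₀ : ℕ, ∀ q ≥ q₀, ∀ (V : Type) [Fintype V] [DecidableEq V], 0 < Fintype.card V →
      ∀ (A K₁ : Bool → Finset (Fin r → V)), (∀ b, A b ⊆ K₁ b) →
      (∀ b, ∀ x ∈ K₁ b, Function.Injective x) →
      Interior (α / (2 * r ^ 2)) ε₁ β A → Deg α K₁ →
      cnt (fun Q : Fin q → V => ∃ P : Finset (Fin q), P.Nonempty ∧ P ≠ univ ∧ ∃ a : ℕ,
        ∀ b, ∀ ω ∈ patt K₁ Q b, (P ∩ univ.image ω).card = a) ≤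
        ζ * (Fintype.card V : ℝ) ^ q := by
  classical
  obtain ⟨s, rfl⟩ : ∃ s, r = s + 1 := ⟨r - 1, by omega⟩
  have hs : 1 ≤ s := by omega
  set R : ℝ := ((s + 1 : ℕ) : ℝ) with hR
  have hR0 : (0 : ℝ) < R := by rw [hR]; positivity
  -- the number of attaching vertices
  obtain ⟨N, hN⟩ := exists_lin (1 - α) (2 * R / β) (ζ / 3) (by linarith) (by linarith)
    (by positivity)
  obtain ⟨d, hd⟩ : ∃ d : ℕ, d = s * N := ⟨_, rfl⟩
  obtain ⟨M₁, hM₁⟩ := exists_lin (1 - α) s (ζ / 3) (by linarith) (by linarith) (by positivity)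
  obtain ⟨M₂, hM₂⟩ := exists_lin (1 - β / 2) ((2 : ℝ) ^ d * (s + 1)) (ζ / 3) (by linarith)
    (by linarith) (by positivity)
  refine ⟨s * M₁ + 1 + (d + (s + 1) * M₂), ?_⟩
  intro q hq V _ _ hV A K hAK hinj hI hD
  have hn : (0 : ℝ) < Fintype.card V := by exact_mod_cast hV
  have hnq : (0 : ℝ) < (Fintype.card V : ℝ) ^ q := by positivity
  have hdq : d ≤ q := by omega
  have hq1 : 1 ≤ q := by omega
  set c : Fin d → Fin q := Fin.castLE hdq with hc
  have hcinj : Function.Injective c := Fin.castLE_injective hdq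
  -- the three events
  have hE1 := cnt_isolated hs hq1 hV α hα hα1 K hD
  have hE2 := markov hV (fun (Q : Fin q → V) v => ¬ Attd K (Q ∘ c) v) ((1 - α) ^ (d / s))
    (β / (2 * R)) (by positivity)
    (fun v => cnt_not_attd hs hV α hα hα1 K hD c hcinj v)
  have hE3 := cnt_noPhi hV β hβ hβ1 A K c hcinj
  have hB1 : (q : ℝ) * (1 - α) ^ ((q - 1) / s) ≤ ζ / 3 := by
    have hM : M₁ ≤ (q - 1) / s := by
      rw [Nat.le_div_iff_mul_le (by omega), mul_comm]
      omega
    refine le_trans ?_ (hM₁ _ hM)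
    refine mul_le_mul_of_nonneg_right ?_ (pow_nonneg (by linarith) _)
    have h1 : q ≤ s * ((q - 1) / s + 1) := by
      have := Nat.lt_mul_div_succ (q - 1) (show 0 < s by omega)
      omega
    exact_mod_cast h1
  have hB2 : (1 - α) ^ (d / s) / (β / (2 * R)) ≤ ζ / 3 := by
    have e : d / s = N := by
      rw [hd]
      exact Nat.mul_div_cancel_left N (by omega)
    rw [e]
    refine le_trans ?_ (hN N le_rfl)
    rw [div_div_eq_mul_div]
    have hx : 0 ≤ (1 - α) ^ N := pow_nonneg (by linarith) _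
    have : 2 * R / β * ((N : ℝ) + 1) * (1 - α) ^ N =
        (1 - α) ^ N * (2 * R) / β + (1 - α) ^ N * (2 * R) / β * N := by ring
    rw [this]
    have : 0 ≤ (1 - α) ^ N * (2 * R) / β * N := by positivity
    linarith
  have hB3 : (2 : ℝ) ^ d * (s + 1) * (1 - β / 2) ^ ((q - d) / (s + 1)) ≤ ζ / 3 := by
    have hM : M₂ ≤ (q - d) / (s + 1) := by
      rw [Nat.le_div_iff_mul_le (by omega), mul_comm]
      omega
    refine le_trans ?_ (hM₂ _ hM)
    refine mul_le_mul_of_nonneg_right ?_ (pow_nonneg (by linarith) _)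
    have h0 : (0 : ℝ) ≤ (2 : ℝ) ^ d * (s + 1) := by positivity
    have h1 : (1 : ℝ) ≤ (((q - d) / (s + 1) : ℕ) : ℝ) + 1 := by
      have : (0 : ℝ) ≤ (((q - d) / (s + 1) : ℕ) : ℝ) := Nat.cast_nonneg _
      linarith
    calc (2 : ℝ) ^ d * (s + 1) = (2 : ℝ) ^ d * (s + 1) * 1 := by ring
      _ ≤ _ := mul_le_mul_of_nonneg_left h1 h0
  -- outside the three events the sample is not split
  refine le_trans (cnt_mono (Q := fun Q : Fin q → V =>
    (¬ ∀ k : Fin q, ∃ b, ∃ ω ∈ patt K Q b, k ∈ univ.image ω) ∨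
    ((¬ ((univ.filter fun v => ¬ Attd K (Q ∘ c) v).card : ℝ) ≤
      β / (2 * R) * Fintype.card V) ∨
    ∃ z : Finset (Fin d) × Fin (s + 1),
      β / 2 * (Fintype.card V : ℝ) ^ (s + 1) ≤ ((Phi A K z.1 z.2 (Q ∘ c)).card : ℝ) ∧
      ∀ ω : Fin (s + 1) → Fin q, Function.Injective ω → (∀ i, ω i ∈ (univ.image c)ᶜ) →
        Q ∘ ω ∉ Phi A K z.1 z.2 (Q ∘ c))) ?_) ?_
  · rintro Q ⟨P, hP, hP', a, hPa⟩
    by_contra hcon
    rw [not_or, not_or] at hcon
    obtain ⟨hn1, hn2, hn3⟩ := hcon
    rw [not_not] at hn1 hn2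
    refine deterministic A K hAK hinj Q c hn1 ?_ P hP hP' a hPa
    intro P₁ a' ha1 ha2
    push Not at hn3
    have h4 := hn3 (P₁, ⟨a', by omega⟩)
      (card_phi hs α ε₁ β hα1 hε₁ A K hI (Q ∘ c) hn2 P₁ a' ha1 ha2)
    obtain ⟨ω, _, _, hω⟩ := h4
    exact ⟨ω, hω⟩
  · refine (cnt_or _ _).trans ?_
    refine (add_le_add_right (cnt_or _ _) _).trans ?_
    have k1 := hE1.trans (mul_le_mul_of_nonneg_right hB1 hnq.le)
    have k2 := hE2.trans (mul_le_mul_of_nonneg_right hB2 hnq.le)
    have k3 := hE3.trans (mul_le_mul_of_nonneg_right hB3 hnq.le)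
    have : ζ * (Fintype.card V : ℝ) ^ q = ζ / 3 * (Fintype.card V : ℝ) ^ q +
      (ζ / 3 * (Fintype.card V : ℝ) ^ q + ζ / 3 * (Fintype.card V : ℝ) ^ q) := by ring
    rw [this]
    refine add_le_add k1 (add_le_add ?_ k3)
    convert k2

end Pool.Agent.Lib.TwoPaths
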