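import Pool.Agent.Lib.TwoPaths.Defs

/-!
# The interior case: definitions
-/

namespace Pool.Agent.Lib.TwoPaths

open Finset
open Pool.Agent.Lib.MP_952639_co

/-- The density constant. -/
noncomputable def alp (r : ℕ) (ρ : ℝ) : ℝ := (ρ / 3) ^ (2 ^ r) / 2

open Classical in
/-- Tuples of colour `κ` with many neighbours in `Ab`. -/
noncomputable def Aplus {V : Type*} [Fintype V] [DecidableEq V] {r : ℕ} (α : ℝ)
    (c : Finset V → Bool) (κ : Bool) (Ab : Finset (Fin r → V)) : Finset (Fin r → V) :=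
  univ.filter fun u => Col c κ u ∧
    α * (Fintype.card V : ℝ) ^ r ≤ ((Ab.filter fun w => Adj c u w).card : ℝ)

open Classical in
/-- Tuples of colour `κ` from which many walks of length `lam` end in `A₁`. -/
noncomputable def Kset {V : Type*} [Fintype V] [DecidableEq V] {r : ℕ} (s : ℝ) (lam : ℕ)
    (c : Finset V → Bool) (κ : Bool) (A₁ : Finset (Fin r → V)) : Finset (Fin r → V) :=
  univ.filter fun m => Col c κ m ∧
    s * (Fintype.card V : ℝ) ^ (r * lam) ≤ ∑ y ∈ A₁, (AM r c ^ lam) m y

/-- The index tuples of the sample `Q` lying in `K b`. -/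
def patt {V : Type*} [DecidableEq V] {r q : ℕ} (K : Bool → Finset (Fin r → V))
    (Q : Fin q → V) (b : Bool) : Finset (Fin r → Fin q) :=
  univ.filter fun ω => Q ∘ ω ∈ K b

/-- The integer lattice generated by the sets of the index tuples contains all differences of unit
vectors (and there is at least one index tuple). -/
def GoodIdx {r q : ℕ} (K : Bool → Finset (Fin r → Fin q)) : Prop :=
  (∃ b, (K b).Nonempty) ∧ ∀ x y : Fin q, (Pi.single x 1 - Pi.single y 1 : Fin q → ℤ) ∈
    AddSubgroup.closure {v : Fin q → ℤ | ∃ b, ∃ ω ∈ K b, v = ∑ i, Pi.single (ω i) 1}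

open Classical in
/-- Every vertex is in many tuples of `K₁`. -/
def Deg {V : Type*} [Fintype V] [DecidableEq V] {r : ℕ} (α : ℝ)
    (K₁ : Bool → Finset (Fin r → V)) : Prop :=
  ∀ t : V, ∃ (b : Bool) (i : Fin r), α * (Fintype.card V : ℝ) ^ (r - 1) ≤
    (((K₁ b).filter fun x => x i = t).card : ℝ)

open Classical in
/-- Every vertex can replace coordinate `ι b` in many tuples of `K₁ b`. -/
def Att {V : Type*} [Fintype V] [DecidableEq V] {r : ℕ} (α : ℝ)
    (K₁ : Bool → Finset (Fin r → V)) (ι : Bool → Fin r) : Prop :=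
  ∀ t : V, ∃ b : Bool, α * (Fintype.card V : ℝ) ^ r ≤
    (((K₁ b).filter fun x => Function.update x (ι b) t ∈ K₁ b).card : ℝ)

open Classical in
/-- Adjacency between the two families. -/
def HasAdj {V : Type*} [Fintype V] [DecidableEq V] {r : ℕ} (ρ : ℝ)
    (A : Bool → Finset (Fin r → V)) : Prop :=
  ∃ (τ : Equiv.Perm (Fin r)) (i : Fin r), ρ * (Fintype.card V : ℝ) ^ (r + 1) ≤
    ((univ.filter fun p : (Fin r → V) × V => p.1 ∈ A true ∧
      (Function.update p.1 i p.2) ∘ τ ∈ A false).card : ℝ)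

open Classical in
/-- Any two tuples of `K₁ b` are joined by many sequences of `k` tuples such that all mixtures of
consecutive tuples are in `K b`. -/
def RichWalks {V : Type*} [Fintype V] [DecidableEq V] {r : ℕ} (s : ℝ) (k : ℕ)
    (K₁ K : Bool → Finset (Fin r → V)) : Prop :=
  ∀ b, ∀ u ∈ K₁ b, ∀ w ∈ K₁ b, s * (Fintype.card V : ℝ) ^ (r * k) ≤
    ((univ.filter fun W : Fin k → Fin r → V =>
      (u :: (List.ofFn W ++ [w])).IsChain (fun x y => ∀ I, mix x y I ∈ K b)).card : ℝ)

end Pool.Agent.Lib.TwoPaths
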