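import Pool.Agent.Lib.TwoPaths.XDefs

/-!
# X0: counting lemmas for tuples

`n = |V|`.

(card_noninj) For `j < k` the number of `x` with `x j = x k`, times `n`, is `n^r`: the map
`(x, u) ↦ update x k u` is a bijection from `{x | x j = x k} × V` to all tuples.  Sum over at most
`r²` pairs.

(card_noninj_at) The same inside `{x | x a = v}` (which has `n^(r-1)` elements), updating a
coordinate of the pair `{j, k}` which is not `a`.

(atypical) For fixed `a`, `∑_v #{x ∈ Xb | x a = v} = |Xb| ≤ ε² n^r`, so at most `ε n` vertices `v`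
have `#{x ∈ Xb | x a = v} > ε n^(r-1)`.  Sum over `a`.  (If `n = 0` both sides are `0`.)

(mix_count) The map `(x, y) ↦ (mix x y S, mix y x S)` is an involution of the set of pairs.

(perm_count) `x ↦ x ∘ σ` is a bijection; `Col c κ (x ∘ σ) ↔ Col c κ x`.

(pairs_markov) Double counting: every `x` counted on the left is the first component of more than
`t` of the at most `B` pairs.

(card_fix) A product of sets, one of which is a singleton.
-/

namespace Pool.Agent.Lib.TwoPaths

open Finset
open Pool.Agent.Lib.MP_952639_co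

theorem card_fix {V : Type*} [Fintype V] [DecidableEq V] {r : ℕ} (a : Fin r) (v : V) :
    (univ.filter fun x : Fin r → V => x a = v).card = Fintype.card V ^ (r - 1) := by
  have h : (univ.filter fun x : Fin r → V => x a = v) =
      Fintype.piFinset (fun j : Fin r => if j = a then ({v} : Finset V) else univ) := by
    ext x
    simp only [mem_filter, mem_univ, true_and, Fintype.mem_piFinset]
    constructor
    · intro hx j
      by_cases hj : j = a
      · subst hj; simp [hx]
      · simp [hj]
    · intro hx
      have := hx a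
      simpa using this
  rw [h, Fintype.card_piFinset]
  have h2 : ∀ j : Fin r, (if j = a then ({v} : Finset V) else univ).card =
      if j = a then 1 else Fintype.card V := by
    intro j
    split_ifs <;> simp
  simp only [h2]
  rw [prod_ite]
  simp only [prod_const_one, one_mul, prod_const]
  congr 1
  have h3 : (univ.filter fun j : Fin r => ¬ j = a) = univ.erase a := by
    ext j; simp
  rw [h3, card_erase_of_mem (mem_univ a), card_univ, Fintype.card_fin]

private theorem key_noninj {V : Type*} [Fintype V] [DecidableEq V] {r : ℕ}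
    (S : Finset (Fin r → V)) (K : Finset (Fin r × Fin r))
    (hK : ∀ p ∈ K, p.1 ≠ p.2 ∧ ∀ x ∈ S, ∀ u, Function.update x p.2 u ∈ S) :
    (S.filter fun x => ∃ p ∈ K, x p.1 = x p.2).card * Fintype.card V ≤ K.card * S.card := by
  have h1 : (S.filter fun x => ∃ p ∈ K, x p.1 = x p.2) =
      K.biUnion fun p => S.filter fun x => x p.1 = x p.2 := by
    ext x
    simp only [mem_filter, mem_biUnion]
    constructor
    · rintro ⟨hx, p, hp, h⟩
      exact ⟨p, hp, hx, h⟩
    · rintro ⟨p, hp, hx, h⟩
      exact ⟨hx, p, hp, h⟩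
  have h2 : ∀ p ∈ K, (S.filter fun x => x p.1 = x p.2).card * Fintype.card V ≤ S.card := by
    intro p hp
    obtain ⟨hne, hup⟩ := hK p hp
    rw [← card_univ, ← card_product]
    apply card_le_card_of_injOn (fun q : (Fin r → V) × V => Function.update q.1 p.2 q.2)
    · intro q hq
      simp only [coe_product, coe_filter, Set.mem_prod, Set.mem_ofPred_eq, coe_univ] at hq
      exact hup _ hq.1.1 _
    · rintro ⟨x, u⟩ hx ⟨y, w⟩ hy hxy
      simp only [coe_product, coe_filter, Set.mem_prod, Set.mem_ofPred_eq, coe_univ] at hx hy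
      simp only at hxy
      have hu : u = w := by
        have := congrFun hxy p.2
        simpa using this
      have ho : ∀ j, j ≠ p.2 → x j = y j := by
        intro j hj
        have := congrFun hxy j
        simpa [hj] using this
      have hxy' : x = y := by
        funext j
        by_cases hj : j = p.2
        · rw [hj, ← hx.1.2, ← hy.1.2]
          exact ho _ hne
        · exact ho j hj
      rw [hu, hxy']
  calc (S.filter fun x => ∃ p ∈ K, x p.1 = x p.2).card * Fintype.card V
      ≤ (∑ p ∈ K, (S.filter fun x => x p.1 = x p.2).card) * Fintype.card V := by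
        rw [h1]
        exact Nat.mul_le_mul_right _ card_biUnion_le
    _ = ∑ p ∈ K, (S.filter fun x => x p.1 = x p.2).card * Fintype.card V := by rw [sum_mul]
    _ ≤ ∑ _p ∈ K, S.card := sum_le_sum h2
    _ = K.card * S.card := by rw [sum_const, smul_eq_mul]

open Classical in
theorem card_noninj {V : Type*} [Fintype V] [DecidableEq V] (r : ℕ) :
    ((univ.filter fun x : Fin r → V => ¬ Function.Injective x).card : ℝ) * Fintype.card V ≤
      (r : ℝ) ^ 2 * (Fintype.card V : ℝ) ^ r := by
  have h := key_noninj (V := V) (r := r) univ (univ.filter fun p => p.1 ≠ p.2) (by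
    intro p hp
    exact ⟨(mem_filter.1 hp).2, fun x _ u => mem_univ _⟩)
  have h2 : (univ.filter fun p : Fin r × Fin r => p.1 ≠ p.2).card ≤ r ^ 2 := by
    refine (card_le_univ _).trans ?_
    rw [Fintype.card_prod, Fintype.card_fin, pow_two]
  have h3 : (univ : Finset (Fin r → V)).card = Fintype.card V ^ r := by
    rw [card_univ, Fintype.card_fun, Fintype.card_fin]
  rw [h3] at h
  have h4 : (univ.filter fun x : Fin r → V => ¬ Function.Injective x).card * Fintype.card V ≤
      r ^ 2 * Fintype.card V ^ r := by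
    refine (Nat.mul_le_mul_right _ (card_le_card ?_)).trans (h.trans (Nat.mul_le_mul_right _ h2))
    intro x hx
    have hx' : ¬ Function.Injective x := (mem_filter.1 hx).2
    rw [Function.not_injective_iff] at hx'
    obtain ⟨j, k, hjk, hne⟩ := hx'
    exact mem_filter.2 ⟨mem_univ _, (j, k), mem_filter.2 ⟨mem_univ _, hne⟩, hjk⟩
  exact_mod_cast h4

open Classical in
theorem card_noninj_at {V : Type*} [Fintype V] [DecidableEq V] (r : ℕ) (a : Fin r) (v : V) :
    ((univ.filter fun x : Fin r → V => x a = v ∧ ¬ Function.Injective x).card : ℝ) *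
      Fintype.card V ≤ (r : ℝ) ^ 2 * (Fintype.card V : ℝ) ^ (r - 1) := by
  have h := key_noninj (V := V) (r := r) (univ.filter fun x => x a = v)
    (univ.filter fun p => p.1 ≠ p.2 ∧ p.2 ≠ a) (by
    intro p hp
    obtain ⟨h1, h2⟩ := (mem_filter.1 hp).2
    refine ⟨h1, fun x hx u => ?_⟩
    simp only [mem_filter, mem_univ, true_and] at hx ⊢
    rw [Function.update_of_ne h2.symm]
    exact hx)
  have h2 : (univ.filter fun p : Fin r × Fin r => p.1 ≠ p.2 ∧ p.2 ≠ a).card ≤ r ^ 2 := by
    refine (card_le_univ _).trans ?_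
    rw [Fintype.card_prod, Fintype.card_fin, pow_two]
  rw [card_fix] at h
  have h4 : (univ.filter fun x : Fin r → V => x a = v ∧ ¬ Function.Injective x).card *
      Fintype.card V ≤ r ^ 2 * Fintype.card V ^ (r - 1) := by
    refine (Nat.mul_le_mul_right _ (card_le_card ?_)).trans (h.trans (Nat.mul_le_mul_right _ h2))
    intro x hx
    obtain ⟨hxa, hx'⟩ := (mem_filter.1 hx).2
    rw [Function.not_injective_iff] at hx'
    obtain ⟨j, k, hjk, hne⟩ := hx'
    refine mem_filter.2 ⟨mem_filter.2 ⟨mem_univ _, hxa⟩, ?_⟩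
    by_cases hk : k = a
    · refine ⟨(k, j), mem_filter.2 ⟨mem_univ _, hne.symm, ?_⟩, hjk.symm⟩
      intro hj
      exact hne (hj.trans hk.symm)
    · exact ⟨(j, k), mem_filter.2 ⟨mem_univ _, hne, hk⟩, hjk⟩
  exact_mod_cast h4

open Classical in
theorem atypical {V : Type*} [Fintype V] [DecidableEq V] (r : ℕ) (hr : 1 ≤ r)
    (Xb : Finset (Fin r → V)) (ε : ℝ) (hε : 0 < ε)
    (h : (Xb.card : ℝ) ≤ ε ^ 2 * (Fintype.card V : ℝ) ^ r) :
    ((univ.filter fun v : V => ∃ a, ε * (Fintype.card V : ℝ) ^ (r - 1) <
      ((Xb.filter fun x => x a = v).card : ℝ)).card : ℝ) ≤ r * ε * Fintype.card V := by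
  have h1 : (univ.filter fun v : V => ∃ a, ε * (Fintype.card V : ℝ) ^ (r - 1) <
      ((Xb.filter fun x => x a = v).card : ℝ)) =
      (univ : Finset (Fin r)).biUnion fun a => univ.filter fun v : V =>
        ε * (Fintype.card V : ℝ) ^ (r - 1) < ((Xb.filter fun x => x a = v).card : ℝ) := by
    ext v
    simp
  have h2 : ∀ a : Fin r, ((univ.filter fun v : V =>
      ε * (Fintype.card V : ℝ) ^ (r - 1) < ((Xb.filter fun x => x a = v).card : ℝ)).card : ℝ) ≤
      ε * Fintype.card V := by
    intro a
    set T := univ.filter fun v : V =>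
      ε * (Fintype.card V : ℝ) ^ (r - 1) < ((Xb.filter fun x => x a = v).card : ℝ) with hT
    rcases Nat.eq_zero_or_pos (Fintype.card V) with h0 | h0
    · have : IsEmpty V := Fintype.card_eq_zero_iff.1 h0
      have hTe : T = ∅ := by
        ext v; exact this.elim v
      rw [hTe, h0]
      simp
    · have hn : (0 : ℝ) < Fintype.card V := by exact_mod_cast h0
      have h3 : (T.card : ℝ) * (ε * (Fintype.card V : ℝ) ^ (r - 1)) ≤ Xb.card := by
        calc (T.card : ℝ) * (ε * (Fintype.card V : ℝ) ^ (r - 1))
            = ∑ _v ∈ T, ε * (Fintype.card V : ℝ) ^ (r - 1) := by rw [sum_const, nsmul_eq_mul]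
          _ ≤ ∑ v ∈ T, ((Xb.filter fun x => x a = v).card : ℝ) :=
              sum_le_sum fun v hv => (mem_filter.1 hv).2.le
          _ ≤ ∑ v : V, ((Xb.filter fun x => x a = v).card : ℝ) :=
              sum_le_sum_of_subset_of_nonneg (subset_univ _) fun _ _ _ => Nat.cast_nonneg _
          _ = Xb.card := by
              rw [← Nat.cast_sum, ← card_eq_sum_card_fiberwise (fun x _ => mem_univ (x a))]
      have h4 : (T.card : ℝ) * (ε * (Fintype.card V : ℝ) ^ (r - 1)) ≤
          (ε * Fintype.card V) * (ε * (Fintype.card V : ℝ) ^ (r - 1)) := by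
        refine h3.trans (h.trans (le_of_eq ?_))
        obtain ⟨m, rfl⟩ : ∃ m, r = m + 1 := ⟨r - 1, by omega⟩
        rw [Nat.add_sub_cancel, pow_succ]
        ring
      exact le_of_mul_le_mul_right h4 (by positivity)
  rw [h1]
  calc (((univ : Finset (Fin r)).biUnion fun a => univ.filter fun v : V =>
        ε * (Fintype.card V : ℝ) ^ (r - 1) < ((Xb.filter fun x => x a = v).card : ℝ)).card : ℝ)
      ≤ ((∑ a : Fin r, (univ.filter fun v : V => ε * (Fintype.card V : ℝ) ^ (r - 1) <
          ((Xb.filter fun x => x a = v).card : ℝ)).card : ℕ) : ℝ) := by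
        exact_mod_cast card_biUnion_le
    _ ≤ ∑ _a : Fin r, ε * Fintype.card V := by
        rw [Nat.cast_sum]
        exact sum_le_sum fun a _ => h2 a
    _ = r * ε * Fintype.card V := by
        rw [sum_const, card_univ, Fintype.card_fin, nsmul_eq_mul]
        ring

private theorem mix_mix {V : Type*} {r : ℕ} (x y : Fin r → V) (S : Finset (Fin r)) :
    mix (mix x y S) (mix y x S) S = x := by
  funext i
  by_cases h : i ∈ S <;> simp [mix, h]

theorem mix_count {V : Type*} [Fintype V] [DecidableEq V] {r : ℕ} (S : Finset (Fin r))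
    (Z W : Finset (Fin r → V)) :
    (univ.filter fun p : (Fin r → V) × (Fin r → V) =>
      mix p.1 p.2 S ∈ Z ∧ mix p.2 p.1 S ∈ W).card = Z.card * W.card := by
  rw [← card_product]
  apply card_nbij' (fun p => (mix p.1 p.2 S, mix p.2 p.1 S))
    (fun p => (mix p.1 p.2 S, mix p.2 p.1 S))
  · intro p hp
    have := (mem_filter.1 hp).2
    exact mem_product.2 this
  · intro p hp
    have hp' := mem_product.1 hp
    refine mem_filter.2 ⟨mem_univ _, ?_⟩
    simp only [mix_mix]
    exact hp'
  · intro p _
    simp only [mix_mix]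
  · intro p _
    simp only [mix_mix]

open Classical in
theorem perm_count {V : Type*} [Fintype V] [DecidableEq V] {r : ℕ} (σ : Equiv.Perm (Fin r))
    (Q : (Fin r → V) → Prop) (c : Finset V → Bool) (κ : Bool) :
    (univ.filter fun x : Fin r → V => Q (x ∘ σ) ∧ Col c κ x).card =
      (univ.filter fun x : Fin r → V => Q x ∧ Col c κ x).card := by
  have hcol : ∀ (τ : Equiv.Perm (Fin r)) (x : Fin r → V), Col c κ x → Col c κ (x ∘ τ) := by
    intro τ x hx
    refine ⟨hx.1.comp τ.injective, ?_⟩
    have : univ.image (x ∘ τ) = univ.image x := by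
      rw [← image_image]
      congr 1
      exact image_univ_of_surjective τ.surjective
    rw [this]
    exact hx.2
  apply card_nbij' (fun x => x ∘ σ) (fun x => x ∘ σ.symm)
  · intro x hx
    obtain ⟨h1, h2⟩ := (mem_filter.1 hx).2
    exact mem_filter.2 ⟨mem_univ _, h1, hcol σ x h2⟩
  · intro x hx
    obtain ⟨h1, h2⟩ := (mem_filter.1 hx).2
    refine mem_filter.2 ⟨mem_univ _, ?_, hcol σ.symm x h2⟩
    have : (x ∘ σ.symm) ∘ σ = x := by
      funext i; simp
    rw [this]
    exact h1
  · intro x _
    funext i; simp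
  · intro x _
    funext i; simp

open Classical in
theorem pairs_markov {α β : Type*} [Fintype α] [Fintype β] (R : α → β → Prop) (X : Finset α)
    (t B : ℝ) (ht : 0 < t)
    (h : ((univ.filter fun p : α × β => p.1 ∈ X ∧ R p.1 p.2).card : ℝ) ≤ B) :
    ((X.filter fun x => t < ((univ.filter fun y => R x y).card : ℝ)).card : ℝ) ≤ B / t := by
  rw [le_div_iff₀ ht]
  refine le_trans ?_ h
  set T := X.filter fun x => t < ((univ.filter fun y => R x y).card : ℝ) with hT
  have h1 : (univ.filter fun p : α × β => p.1 ∈ X ∧ R p.1 p.2).card =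
      ∑ x ∈ X, (univ.filter fun y => R x y).card := by
    rw [card_filter, Fintype.sum_prod_type, ← sum_subset (subset_univ X)]
    · refine sum_congr rfl fun x hx => ?_
      rw [card_filter]
      refine sum_congr rfl fun y _ => ?_
      simp [hx]
    · intro x _ hx
      apply sum_eq_zero
      intro y _
      simp [hx]
  rw [h1, Nat.cast_sum]
  calc (T.card : ℝ) * t = ∑ _x ∈ T, t := by rw [sum_const, nsmul_eq_mul]
    _ ≤ ∑ x ∈ T, ((univ.filter fun y => R x y).card : ℝ) :=
        sum_le_sum fun x hx => (mem_filter.1 hx).2.le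
    _ ≤ ∑ x ∈ X, ((univ.filter fun y => R x y).card : ℝ) :=
        sum_le_sum_of_subset_of_nonneg (filter_subset _ _) fun _ _ _ => Nat.cast_nonneg _

end Pool.Agent.Lib.TwoPaths
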