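import Pool.Agent.Lib.TwoPaths.X0

/-!
# X1: the roles

CONSTANTS.  `ε = min (ζ, ξ, 1/(2r)) / (2 r)` (so `ε ≤ ζ`, `r ε ≤ ξ/2`, `r ε ≤ 1/(4r)`);
`δ = ε²/3` made smaller if necessary such that also `δ ≤ ξ/2`, `δ ≤ 1/(4r)`, `3 δ ≤ ε²`, `3 δ ≤ ζ`;
`n₀` such that `n₀ ≥ 1`, `r² ≤ δ n₀`, `r² ≤ (ν/4) n₀`.

PROOF.  `n = |V|`.  Let `Xb` be the set of tuples `x` that are not injective, or have `#{j | x j ∈
A} = i` and
`c [x] ≠ true`, or (if `i < r`) `#{j | x j ∈ A} = i ± 1` and `c [x] = true`.
`|Xb| ≤ r² n^(r-1) + 2 δ n^r ≤ 3 δ n^r ≤ ε² n^r` (`card_noninj`).  Let `X` be the set of `v` such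
that
`#{x ∈ Xb | x a = v} > ε n^(r-1)` for some `a`; `|X| ≤ r ε n` (`atypical`).  Put `ro v = 0` for
`v ∈ A \ X` and `ro v = 1` for `v ∉ A ∪ X`.

`PatOff ro P a x` involves only the roles `0`, `1`.  For `|P| = i` let
`D P a v = #{x | PatOff ro P a x ∧ x a = v ∧ Col c true x}`.  (sym) If `|P| = |P'|` and
`(a ∈ P ↔ a' ∈ P')` then `D P a v = D P' a' v`: there is a permutation `σ` of `Fin r` with `σ a =
a'` and
`(j ∈ P ↔ σ j ∈ P')` for all `j`; `PatOff ro P' a' x ∧ x a' = v` iff
`PatOff ro P a (x ∘ σ) ∧ (x ∘ σ) a = v`; use `perm_count`.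

For `v ∈ X`: `ro v = 2` if `D P a v ≥ (ν/4) n^(r-1)` for all `|P| = i`, `a ∈ P`; otherwise
`ro v = 3` if `i < r` and `D P a v ≥ (ν/4) n^(r-1)` for all `|P| = i`, `a ∉ P`; otherwise `ro v =
4`.

The fields.  `nro 0 = |A \ X|`, `nro 1 = n - |A ∪ X|`, `nro 2 + nro 3 + nro 4 = |X| ≤ r ε n ≤ ξ n`;
`| |A| - i n/r | ≤ δ n` gives `bal` (`δ + r ε ≤ ξ`) and `sizeA`, `sizeB`
(`n/r - δ n - r ε n ≥ n/(2r)`).  `top`: `A = univ`.
`red`, `redv`, `blue`: a tuple `x` with `Pat ro P x` has `#{j | x j ∈ A} = |P|`; if `¬ Col c κ x`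
for the
expected colour `κ`, then `x ∈ Xb`; in `redv` either `ro v ∈ {0, 1}`, `v ∉ X`, and the
bound is `ε n^(r-1)`, or `ro v ≥ 2` and the set is empty.
`roleA`, `roleB`: by definition.
`gam`: let `ro v = 4`, `a ∉ P`.  `¬ Col c false x` means not injective or `Col c true x`; the
number of
noninjective `x` with `x a = v` is at most `r² n^(r-2) ≤ (ν/4) n^(r-1)` (`card_noninj_at`).
If `|P| = i` then `i < r` (as `a ∉ P`), and since `v` has not role `3` there are `P', a'`
with `|P'| = i`, `a' ∉ P'`, `D P' a' v < (ν/4) n^(r-1)`; by (sym) `D P a v < (ν/4) n^(r-1)`.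
If `|P| + 1 = i` then `PatOff ro P a x ↔ PatOff ro (insert a P) a x`, `|insert a P| = i`,
`a ∈ insert a P`, and as `v` has not role `2`, (sym) gives
`D (insert a P) a v < (ν/4) n^(r-1)`.  In total at most `(ν/2) n^(r-1)`.
-/

namespace Pool.Agent.Lib.TwoPaths

open Finset
open Pool.Agent.Lib.MP_952639_co

private lemma exists_perm {r : ℕ} (P P' : Finset (Fin r)) (a a' : Fin r)
    (hc : P.card = P'.card) (ha : a ∈ P ↔ a' ∈ P') :
    ∃ σ : Equiv.Perm (Fin r), σ a = a' ∧ ∀ j, j ∈ P ↔ σ j ∈ P' := by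
  classical
  have e : {x // x ∈ P} ≃ {x // x ∈ P'} := by
    apply Fintype.equivOfCardEq
    simpa using hc
  let σ₀ : Equiv.Perm (Fin r) := e.extendSubtype
  have h0 : ∀ j, j ∈ P ↔ σ₀ j ∈ P' := by
    intro j
    constructor
    · exact fun hj => e.extendSubtype_mem j hj
    · intro h
      by_contra hj
      exact e.extendSubtype_not_mem j hj h
  refine ⟨σ₀.trans (Equiv.swap (σ₀ a) a'), ?_, fun j => ?_⟩
  · show Equiv.swap (σ₀ a) a' (σ₀ a) = a'
    exact Equiv.swap_apply_left _ _
  · show j ∈ P ↔ Equiv.swap (σ₀ a) a' (σ₀ j) ∈ P'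
    rw [h0 j]
    by_cases h1 : σ₀ j = σ₀ a
    · rw [h1, Equiv.swap_apply_left, ← h0 a, ha]
    · by_cases h2 : σ₀ j = a'
      · rw [h2, Equiv.swap_apply_right, ← h0 a, ha]
      · rw [Equiv.swap_apply_of_ne_of_ne h1 h2]

section

variable {V : Type} [Fintype V] [DecidableEq V] {r : ℕ}

/-- Typical of pattern `P` outside coordinate `a`. -/
private def PO (X A : Finset V) (P : Finset (Fin r)) (a : Fin r) (x : Fin r → V) : Prop :=
  ∀ j, j ≠ a → x j ∉ X ∧ (x j ∈ A ↔ j ∈ P)

open Classical in
private noncomputable def Dn (X A : Finset V) (c : Finset V → Bool) (P : Finset (Fin r))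
    (a : Fin r) (v : V) : ℕ :=
  (univ.filter fun x => (PO X A P a x ∧ x a = v) ∧ Col c true x).card

private lemma Dn_sym (X A : Finset V) (c : Finset V → Bool) (P P' : Finset (Fin r))
    (a a' : Fin r) (v : V) (hc : P.card = P'.card) (ha : a ∈ P ↔ a' ∈ P') :
    Dn X A c P a v = Dn X A c P' a' v := by
  classical
  obtain ⟨σ, hσ, hP⟩ := exists_perm P P' a a' hc ha
  have h := perm_count σ (fun x : Fin r → V => PO X A P a x ∧ x a = v) c true
  rw [Dn, Dn]
  refine Eq.trans ?_ (h.symm.trans ?_)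
  · congr!
  · refine congrArg Finset.card ?_
    ext x
    simp only [Finset.mem_filter, Finset.mem_univ, true_and]
    refine and_congr (and_congr ?_ ?_) Iff.rfl
    · constructor
      · intro hx k hk
        obtain ⟨j, rfl⟩ := σ.surjective k
        have hj : j ≠ a := fun h => hk (by rw [h, hσ])
        have h1 := hx j hj
        exact ⟨h1.1, h1.2.trans (hP j)⟩
      · intro hx j hj
        have hk : σ j ≠ a' := fun h => hj (σ.injective (h.trans hσ.symm))
        have h1 := hx (σ j) hk
        exact ⟨h1.1, h1.2.trans (hP j).symm⟩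
    · show x (σ a) = v ↔ x a' = v
      rw [hσ]

private lemma Dn_insert (X A : Finset V) (c : Finset V → Bool) (P : Finset (Fin r))
    (a : Fin r) (v : V) : Dn X A c P a v = Dn X A c (insert a P) a v := by
  classical
  rw [Dn, Dn]
  refine congrArg Finset.card ?_
  ext x
  simp only [Finset.mem_filter, Finset.mem_univ, true_and]
  refine and_congr (and_congr ?_ Iff.rfl) Iff.rfl
  refine forall_congr' fun j => imp_congr_right fun hj => ?_
  simp [Finset.mem_insert, hj]

end

/-- The constants. -/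
private lemma consts (r : ℕ) (hr : 2 ≤ r) (ν ξ ζ : ℝ) (hν : 0 < ν) (hξ : 0 < ξ) (hζ : 0 < ζ) :
    ∃ (ε δ : ℝ) (n₀ : ℕ), 0 < ε ∧ 0 < δ ∧ 1 ≤ n₀ ∧ ε ≤ ζ ∧ r * ε ≤ ξ / 2 ∧
      r * ε ≤ 1 / (4 * r) ∧ 3 * δ ≤ ε ^ 2 ∧ δ ≤ ξ / 2 ∧ δ ≤ 1 / (4 * r) ∧ 3 * δ ≤ ζ ∧
      (r : ℝ) ^ 2 ≤ δ * n₀ ∧ (r : ℝ) ^ 2 ≤ ν / 4 * n₀ := by
  have hr0 : (2 : ℝ) ≤ r := by exact_mod_cast hr
  have hrp : (0 : ℝ) < r := by linarith
  set m : ℝ := min (min ζ ξ) (1 / (2 * r)) with hm
  have hm0 : 0 < m := lt_min (lt_min hζ hξ) (by positivity)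
  have hm1 : m ≤ ζ := (min_le_left _ _).trans (min_le_left _ _)
  have hm2 : m ≤ ξ := (min_le_left _ _).trans (min_le_right _ _)
  have hm3 : m ≤ 1 / (2 * r) := min_le_right _ _
  set ε : ℝ := m / (2 * r) with hε
  have hε0 : 0 < ε := by positivity
  have hre : r * ε = m / 2 := by
    rw [hε]
    field_simp
  set δ : ℝ := min (min (ε ^ 2 / 3) (ξ / 2)) (min (1 / (4 * r)) (ζ / 3)) with hδ
  have hδ0 : 0 < δ := lt_min (lt_min (by positivity) (by positivity))
    (lt_min (by positivity) (by positivity))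
  have hd1 : δ ≤ ε ^ 2 / 3 := (min_le_left _ _).trans (min_le_left _ _)
  have hd2 : δ ≤ ξ / 2 := (min_le_left _ _).trans (min_le_right _ _)
  have hd3 : δ ≤ 1 / (4 * r) := (min_le_right _ _).trans (min_le_left _ _)
  have hd4 : δ ≤ ζ / 3 := (min_le_right _ _).trans (min_le_right _ _)
  obtain ⟨n1, hn1⟩ := exists_nat_ge ((r : ℝ) ^ 2 / δ)
  obtain ⟨n2, hn2⟩ := exists_nat_ge ((r : ℝ) ^ 2 / (ν / 4))
  refine ⟨ε, δ, max 1 (max n1 n2), hε0, hδ0, le_max_left _ _, ?_, ?_, ?_, ?_, hd2, hd3, ?_,
    ?_, ?_⟩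
  · have h1 : ε ≤ m := by
      rw [hε]
      exact div_le_self hm0.le (by linarith)
    linarith
  · rw [hre]
    linarith
  · rw [hre]
    have h1 : (1 : ℝ) / (4 * r) = 1 / (2 * r) / 2 := by
      field_simp
      ring
    rw [h1]
    linarith
  · linarith
  · linarith
  · have h1 : (n1 : ℝ) ≤ ((max 1 (max n1 n2) : ℕ) : ℝ) := by
      exact_mod_cast (le_max_left n1 n2).trans (le_max_right 1 _)
    have h2 := (div_le_iff₀ hδ0).1 hn1
    nlinarith
  · have h1 : (n2 : ℝ) ≤ ((max 1 (max n1 n2) : ℕ) : ℝ) := by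
      exact_mod_cast (le_max_right n1 n2).trans (le_max_right 1 _)
    have h2 := (div_le_iff₀ (by positivity : (0 : ℝ) < ν / 4)).1 hn2
    nlinarith

theorem ctx_of_ext (r : ℕ) (hr : 2 ≤ r) (ν ξ ζ : ℝ) (hν : 0 < ν) (hξ : 0 < ξ) (hζ : 0 < ζ) :
    ∃ (δ : ℝ) (n₀ : ℕ), 0 < δ ∧ ∀ (V : Type) [Fintype V] [DecidableEq V], n₀ ≤ Fintype.card V →
      ∀ (c : Finset V → Bool) (i : ℕ) (A : Finset V), 1 ≤ i → i ≤ r → (i = r → A = univ) →
      ExtType r δ i A c true → ∃ ro : V → Fin 5, Ctx r i c ro ξ ζ ν (ν / 4) := by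
  obtain ⟨ε, δ, n₀, hε, hδ, hn₀, k1, k2, k3, k4, k5, k6, k7, k8, k9⟩ := consts r hr ν ξ ζ hν hξ hζ
  refine ⟨δ, n₀, hδ, ?_⟩
  intro V _ _ hn c i A hi1 hir hAtop hext
  classical
  obtain ⟨hA, hE1, hE2⟩ := hext
  set n : ℝ := (Fintype.card V : ℝ) with hndef
  have hnn : (n₀ : ℝ) ≤ n := by
    rw [hndef]
    exact_mod_cast hn
  have hn1 : (1 : ℝ) ≤ n := le_trans (by exact_mod_cast hn₀) hnn
  have hn0 : (0 : ℝ) < n := by linarith
  have hr0 : (2 : ℝ) ≤ r := by exact_mod_cast hr
  have hrp : (0 : ℝ) < r := by linarith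
  have hdn : (r : ℝ) ^ 2 ≤ δ * n := k8.trans (by nlinarith)
  have hvn : (r : ℝ) ^ 2 ≤ ν / 4 * n := k9.trans (by nlinarith)
  -- number of coordinates in `A`
  let B : (Fin r → V) → ℕ := fun x => (univ.filter fun j => x j ∈ A).card
  let Xb : Finset (Fin r → V) := univ.filter fun x => ¬ Function.Injective x ∨
    (B x = i ∧ c (univ.image x) ≠ true) ∨
    (i < r ∧ (B x + 1 = i ∨ B x = i + 1) ∧ c (univ.image x) = true)
  have hni : ((univ.filter fun x : Fin r → V => ¬ Function.Injective x).card : ℝ) ≤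
      δ * n ^ r := by
    have h1 := card_noninj (V := V) r
    have h2 : ((univ.filter fun x : Fin r → V => ¬ Function.Injective x).card : ℝ) * n ≤
        (δ * n ^ r) * n := by
      calc _ ≤ (r : ℝ) ^ 2 * n ^ r := by
            refine le_trans (le_of_eq ?_) h1
            congr!
        _ ≤ (δ * n) * n ^ r := mul_le_mul_of_nonneg_right hdn (by positivity)
        _ = _ := by ring
    exact le_of_mul_le_mul_right h2 hn0
  have hXb3 : (Xb.card : ℝ) ≤ 3 * δ * n ^ r := by
    have hsub : Xb ⊆ (univ.filter fun x : Fin r → V => ¬ Function.Injective x) ∪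
        ((univ.filter fun x : Fin r → V => Function.Injective x ∧
          (univ.filter fun j => x j ∈ A).card = i ∧ c (univ.image x) ≠ true) ∪
        (univ.filter fun x : Fin r → V => i < r ∧ (Function.Injective x ∧
          ((univ.filter fun j => x j ∈ A).card + 1 = i ∨
            (univ.filter fun j => x j ∈ A).card = i + 1) ∧ c (univ.image x) = true))) := by
      intro x hx
      have hx' := (Finset.mem_filter.1 hx).2
      simp only [Finset.mem_union, Finset.mem_filter, Finset.mem_univ, true_and]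
      by_cases h : Function.Injective x
      · rcases hx' with h1 | h1 | h1
        · exact absurd h h1
        · exact Or.inr (Or.inl ⟨h, h1.1, h1.2⟩)
        · exact Or.inr (Or.inr ⟨h1.1, h, h1.2.1, h1.2.2⟩)
      · exact Or.inl h
    have h1 := (Finset.card_le_card hsub).trans (Finset.card_union_le _ _)
    have h2 := Finset.card_union_le (univ.filter fun x : Fin r → V => Function.Injective x ∧
          (univ.filter fun j => x j ∈ A).card = i ∧ c (univ.image x) ≠ true)
        (univ.filter fun x : Fin r → V => i < r ∧ (Function.Injective x ∧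
          ((univ.filter fun j => x j ∈ A).card + 1 = i ∨
            (univ.filter fun j => x j ∈ A).card = i + 1) ∧ c (univ.image x) = true))
    have h3 : ((univ.filter fun x : Fin r → V => i < r ∧ (Function.Injective x ∧
          ((univ.filter fun j => x j ∈ A).card + 1 = i ∨
            (univ.filter fun j => x j ∈ A).card = i + 1) ∧ c (univ.image x) = true)).card : ℝ) ≤
        δ * n ^ r := by
      by_cases h : i < r
      · refine le_trans ?_ (hE2 h)
        have := Finset.card_le_card (s := univ.filter fun x : Fin r → V => i < r ∧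
          (Function.Injective x ∧
          ((univ.filter fun j => x j ∈ A).card + 1 = i ∨
            (univ.filter fun j => x j ∈ A).card = i + 1) ∧ c (univ.image x) = true))
          (t := univ.filter fun x : Fin r → V => Function.Injective x ∧
      ((univ.filter fun j => x j ∈ A).card + 1 = i ∨ (univ.filter fun j => x j ∈ A).card = i + 1) ∧
      c (univ.image x) = true) (by
            intro x hx
            simp only [Finset.mem_filter, Finset.mem_univ, true_and] at hx ⊢
            exact hx.2)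
        refine le_trans (Nat.cast_le.2 this) (le_of_eq ?_)
        congr!
      · rw [Finset.filter_false_of_mem (fun x _ => fun hx => h hx.1)]
        simp only [Finset.card_empty, Nat.cast_zero]
        positivity
    have h4 : ((univ.filter fun x : Fin r → V => Function.Injective x ∧
          (univ.filter fun j => x j ∈ A).card = i ∧ c (univ.image x) ≠ true).card : ℝ) ≤
        δ * n ^ r := by
      refine le_trans (le_of_eq ?_) hE1
      congr!
    have h5 : ((Xb.card : ℕ) : ℝ) ≤
        ((univ.filter fun x : Fin r → V => ¬ Function.Injective x).card : ℝ) +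
        (((univ.filter fun x : Fin r → V => Function.Injective x ∧
          (univ.filter fun j => x j ∈ A).card = i ∧ c (univ.image x) ≠ true).card : ℝ) +
        ((univ.filter fun x : Fin r → V => i < r ∧ (Function.Injective x ∧
          ((univ.filter fun j => x j ∈ A).card + 1 = i ∨
            (univ.filter fun j => x j ∈ A).card = i + 1) ∧ c (univ.image x) = true)).card
              : ℝ)) := by
      exact_mod_cast h1.trans (Nat.add_le_add_left h2 _)
    linarith
  have hXb : (Xb.card : ℝ) ≤ ε ^ 2 * n ^ r :=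
    hXb3.trans (mul_le_mul_of_nonneg_right k4 (by positivity))
  let X : Finset V := univ.filter fun v : V => ∃ a, ε * n ^ (r - 1) <
      ((Xb.filter fun x => x a = v).card : ℝ)
  have hX : (X.card : ℝ) ≤ r * ε * n := by
    refine le_trans (le_of_eq ?_) (atypical r (by omega) Xb ε hε hXb)
    congr!
  have hXn : ∀ v, v ∉ X → ∀ a, ((Xb.filter fun x => x a = v).card : ℝ) ≤ ε * n ^ (r - 1) := by
    intro v hv a
    by_contra hcon
    exact hv (Finset.mem_filter.2 ⟨Finset.mem_univ _, a, not_le.1 hcon⟩)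
  -- the roles
  let C2 : V → Prop := fun v => ∀ (P : Finset (Fin r)) (a : Fin r), P.card = i → a ∈ P →
    ν / 4 * n ^ (r - 1) ≤ (Dn X A c P a v : ℝ)
  let C3 : V → Prop := fun v => i < r ∧ ∀ (P : Finset (Fin r)) (a : Fin r), P.card = i → a ∉ P →
    ν / 4 * n ^ (r - 1) ≤ (Dn X A c P a v : ℝ)
  let ro : V → Fin 5 := fun v => if v ∈ X then (if C2 v then 2 else if C3 v then 3 else 4)
    else if v ∈ A then 0 else 1
  have hro0 : ∀ v, ro v = 0 ↔ (v ∉ X ∧ v ∈ A) := by
    intro v
    show (if v ∈ X then (if C2 v then (2 : Fin 5) else if C3 v then 3 else 4)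
      else if v ∈ A then 0 else 1) = 0 ↔ _
    split_ifs <;> simp_all
  have hro1 : ∀ v, ro v = 1 ↔ (v ∉ X ∧ v ∉ A) := by
    intro v
    show (if v ∈ X then (if C2 v then (2 : Fin 5) else if C3 v then 3 else 4)
      else if v ∈ A then 0 else 1) = 1 ↔ _
    split_ifs <;> simp_all
  have hro2 : ∀ v, ro v = 2 → v ∈ X ∧ C2 v := by
    intro v
    show (if v ∈ X then (if C2 v then (2 : Fin 5) else if C3 v then 3 else 4)
      else if v ∈ A then 0 else 1) = 2 → _
    split_ifs <;> simp_all
  have hro3 : ∀ v, ro v = 3 → v ∈ X ∧ C3 v := by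
    intro v
    show (if v ∈ X then (if C2 v then (2 : Fin 5) else if C3 v then 3 else 4)
      else if v ∈ A then 0 else 1) = 3 → _
    split_ifs <;> simp_all
  have hro4 : ∀ v, ro v = 4 → v ∈ X ∧ ¬ C2 v ∧ ¬ C3 v := by
    intro v
    show (if v ∈ X then (if C2 v then (2 : Fin 5) else if C3 v then 3 else 4)
      else if v ∈ A then 0 else 1) = 4 → _
    split_ifs <;> simp_all
  have hcond : ∀ (v : V) (Q : Prop) [Decidable Q], (ro v = if Q then 0 else 1) ↔
      (v ∉ X ∧ (v ∈ A ↔ Q)) := by
    intro v Q _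
    by_cases hQ : Q
    · rw [if_pos hQ, hro0]
      simp [hQ]
    · rw [if_neg hQ, hro1]
      simp [hQ]
  have hPO : ∀ (P : Finset (Fin r)) (a : Fin r) (x : Fin r → V),
      PatOff ro P a x ↔ PO X A P a x := by
    intro P a x
    exact forall_congr' fun j => imp_congr_right fun _ => hcond (x j) (j ∈ P)
  have hPat : ∀ (P : Finset (Fin r)) (x : Fin r → V), Pat ro P x →
      ((∀ j, x j ∉ X) ∧ B x = P.card) := by
    intro P x hx
    refine ⟨fun j => ((hcond _ _).1 (hx j)).1, ?_⟩
    show (univ.filter fun j => x j ∈ A).card = P.card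
    congr 1
    ext j
    simp only [Finset.mem_filter, Finset.mem_univ, true_and]
    exact ((hcond _ _).1 (hx j)).2
  -- sizes
  have hcard0 : nro ro 0 = (A \ X).card := by
    rw [nro]
    congr 1
    ext v
    simp only [Finset.mem_filter, Finset.mem_univ, true_and, Finset.mem_sdiff]
    rw [hro0]
    tauto
  have hcard1 : nro ro 1 = (univ \ (A ∪ X)).card := by
    rw [nro]
    congr 1
    ext v
    simp only [Finset.mem_filter, Finset.mem_univ, true_and, Finset.mem_sdiff, Finset.mem_union]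
    rw [hro1]
    tauto
  have hA1 : (A.card : ℝ) - X.card ≤ (A \ X).card := by
    have h1 := Finset.le_card_sdiff X A
    have h2 : (A.card : ℝ) ≤ (A \ X).card + X.card := by
      have : A.card ≤ (A \ X).card + X.card := by omega
      exact_mod_cast this
    linarith
  have hA2 : ((A \ X).card : ℝ) ≤ A.card := by
    exact_mod_cast Finset.card_le_card Finset.sdiff_subset
  have hA3 := abs_le.1 hA
  have hir' : (i : ℝ) ≤ r := by exact_mod_cast hir
  have hi1' : (1 : ℝ) ≤ i := by exact_mod_cast hi1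
  have hfrac : n / r ≤ i * n / r := by
    rw [div_le_div_iff_of_pos_right hrp]
    nlinarith
  have h4r : 1 / (4 * (r : ℝ)) * n = n / r / 4 := by
    field_simp
  have h2r : n / (2 * (r : ℝ)) = n / r / 2 := by
    field_simp
  have hrε : r * ε * n ≤ n / r / 4 := by
    rw [← h4r]
    exact mul_le_mul_of_nonneg_right k3 hn0.le
  have hδn : δ * n ≤ n / r / 4 := by
    rw [← h4r]
    exact mul_le_mul_of_nonneg_right k6 hn0.le
  have hrξ : r * ε * n ≤ ξ / 2 * n := mul_le_mul_of_nonneg_right k2 hn0.le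
  have hδξ : δ * n ≤ ξ / 2 * n := mul_le_mul_of_nonneg_right k5 hn0.le
  have hXbsub : ∀ (P : Finset (Fin r)), P.card = i → ∀ x, Pat ro P x → ¬ Col c true x →
      x ∈ Xb := by
    intro P hP x hx hcol
    refine Finset.mem_filter.2 ⟨Finset.mem_univ _, ?_⟩
    by_cases h : Function.Injective x
    · right
      left
      refine ⟨((hPat P x hx).2.trans hP), fun hc => hcol ⟨h, hc⟩⟩
    · exact Or.inl h
  refine ⟨ro, ⟨⟨hi1, hir⟩, ?_, ?_, ?_, ?_, ?_, ?_, ?_, ?_, ?_, ?_, ?_⟩⟩
  · -- sizeA
    rw [hcard0, h2r]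
    linarith [hA3.1]
  · -- sizeB
    intro hlt
    rw [hcard1, h2r]
    have h1 : (univ : Finset V).card ≤ (univ \ (A ∪ X)).card + (A ∪ X).card := by
      have := Finset.le_card_sdiff (A ∪ X) (univ : Finset V)
      omega
    have h2 : n ≤ (univ \ (A ∪ X)).card + (A.card + X.card) := by
      have h3 := Finset.card_union_le A X
      have h4 : (univ : Finset V).card ≤ (univ \ (A ∪ X)).card + (A.card + X.card) := by omega
      rw [hndef, ← Finset.card_univ]
      exact_mod_cast h4
    have h5 : (i : ℝ) + 1 ≤ r := by exact_mod_cast hlt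
    have h6 : i * n / r + n / r ≤ n := by
      rw [← add_div, div_le_iff₀ hrp]
      nlinarith
    linarith [hA3.2]
  · -- top
    intro hh v
    constructor
    · intro h
      have := ((hro1 v).1 h).2
      rw [hAtop hh] at this
      exact this (Finset.mem_univ _)
    · intro h
      have := (hro3 v h).2.1
      omega
  · -- few
    have h1 : nro ro 2 + nro ro 3 + nro ro 4 ≤ X.card := by
      rw [nro, nro, nro, ← Finset.card_union_of_disjoint, ← Finset.card_union_of_disjoint]
      · refine Finset.card_le_card ?_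
        intro v hv
        simp only [Finset.mem_union, Finset.mem_filter, Finset.mem_univ, true_and] at hv
        rcases hv with (h | h) | h
        · exact (hro2 v h).1
        · exact (hro3 v h).1
        · exact (hro4 v h).1
      · rw [Finset.disjoint_left]
        intro v hv hv'
        simp only [Finset.mem_union, Finset.mem_filter, Finset.mem_univ, true_and] at hv hv'
        rw [hv'] at hv
        rcases hv with h | h
        · exact absurd h (by decide)
        · exact absurd h (by decide)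
      · rw [Finset.disjoint_left]
        intro v hv hv'
        simp only [Finset.mem_filter, Finset.mem_univ, true_and] at hv hv'
        rw [hv'] at hv
        exact absurd hv (by decide)
    have h2 : ((nro ro 2 + nro ro 3 + nro ro 4 : ℕ) : ℝ) ≤ X.card := by exact_mod_cast h1
    have h3 : 0 ≤ ξ / 2 * n := by positivity
    linarith
  · -- bal
    rw [hcard0, abs_le]
    constructor
    · linarith [hA3.1]
    · have h3 : 0 ≤ ξ / 2 * n := by positivity
      linarith [hA3.2]
  · -- red
    intro P hP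
    have h1 : ((univ.filter fun x => Pat ro P x ∧ ¬ Col c true x).card : ℝ) ≤ Xb.card := by
      refine Nat.cast_le.2 (Finset.card_le_card ?_)
      intro x hx
      have hx' := (Finset.mem_filter.1 hx).2
      exact hXbsub P hP x hx'.1 hx'.2
    refine h1.trans (hXb3.trans (mul_le_mul_of_nonneg_right k7 (by positivity)))
  · -- redv
    intro P hP a v
    by_cases hv : v ∈ X
    · have h1 : (univ.filter fun x => Pat ro P x ∧ x a = v ∧ ¬ Col c true x) = ∅ := by
        rw [Finset.filter_eq_empty_iff]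
        rintro x - ⟨h2, h3, -⟩
        exact (hPat P x h2).1 a (by rw [h3]; exact hv)
      have h2 : ((univ.filter fun x => Pat ro P x ∧ x a = v ∧ ¬ Col c true x).card : ℝ) = 0 := by
        rw [h1]
        simp
      refine le_trans (le_of_eq ?_) (show (0 : ℝ) ≤ ζ * n ^ (r - 1) by positivity)
      rw [← h2]
    · have h1 : ((univ.filter fun x => Pat ro P x ∧ x a = v ∧ ¬ Col c true x).card : ℝ) ≤
          (Xb.filter fun x => x a = v).card := by
        refine Nat.cast_le.2 (Finset.card_le_card ?_)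
        intro x hx
        have hx' := (Finset.mem_filter.1 hx).2
        exact Finset.mem_filter.2 ⟨hXbsub P hP x hx'.1 hx'.2.2, hx'.2.1⟩
      refine le_trans h1 ((hXn v hv a).trans (mul_le_mul_of_nonneg_right k1 (by positivity)))
  · -- blue
    intro hlt P hP
    have h1 : ((univ.filter fun x => Pat ro P x ∧ ¬ Col c false x).card : ℝ) ≤ Xb.card := by
      refine Nat.cast_le.2 (Finset.card_le_card ?_)
      intro x hx
      have hx' := (Finset.mem_filter.1 hx).2
      refine Finset.mem_filter.2 ⟨Finset.mem_univ _, ?_⟩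
      by_cases h : Function.Injective x
      · right
        right
        refine ⟨hlt, ?_, ?_⟩
        · rw [(hPat P x hx'.1).2]
          exact hP
        · by_contra hcon
          refine hx'.2 ⟨h, ?_⟩
          simpa using hcon
      · exact Or.inl h
    refine h1.trans (hXb3.trans (mul_le_mul_of_nonneg_right k7 (by positivity)))
  · -- gam
    intro v hv P a ha hP
    obtain ⟨-, hn2, hn3⟩ := hro4 v hv
    have hD : (Dn X A c P a v : ℝ) ≤ ν / 4 * n ^ (r - 1) := by
      rcases hP with hP | hP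
      · have h1 : ¬ ∀ (P : Finset (Fin r)) (a : Fin r), P.card = i → a ∈ P →
          ν / 4 * n ^ (r - 1) ≤ (Dn X A c P a v : ℝ) := hn2
        push Not at h1
        obtain ⟨P', a', h2, h3, h4⟩ := h1
        rw [Dn_insert, Dn_sym X A c (insert a P) P' a a' v
          (by rw [Finset.card_insert_of_notMem ha, h2, hP])
          (by simp [h3])]
        exact h4.le
      · have hlt : i < r := by
          rw [← hP]
          have := Finset.card_lt_univ_of_notMem ha
          simpa using this
        have h1 : ¬ ∀ (P : Finset (Fin r)) (a : Fin r), P.card = i → a ∉ P →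
          ν / 4 * n ^ (r - 1) ≤ (Dn X A c P a v : ℝ) := fun h => hn3 ⟨hlt, h⟩
        push Not at h1
        obtain ⟨P', a', h2, h3, h4⟩ := h1
        rw [Dn_sym X A c P P' a a' v (by rw [h2, hP]) (by simp [h3, ha])]
        exact h4.le
    have hN : ((univ.filter fun x : Fin r → V => x a = v ∧ ¬ Function.Injective x).card : ℝ) ≤
        ν / 4 * n ^ (r - 1) := by
      have h1 := card_noninj_at (V := V) r a v
      have h2 : ((univ.filter fun x : Fin r → V =>
          x a = v ∧ ¬ Function.Injective x).card : ℝ) * n ≤ (ν / 4 * n ^ (r - 1)) * n := by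
        calc _ ≤ (r : ℝ) ^ 2 * n ^ (r - 1) := by
              refine le_trans (le_of_eq ?_) h1
              congr!
          _ ≤ (ν / 4 * n) * n ^ (r - 1) := mul_le_mul_of_nonneg_right hvn (by positivity)
          _ = _ := by ring
      exact le_of_mul_le_mul_right h2 hn0
    have hsub : (univ.filter fun x => PatOff ro P a x ∧ x a = v ∧ ¬ Col c false x) ⊆
        (univ.filter fun x : Fin r → V => x a = v ∧ ¬ Function.Injective x) ∪
        (univ.filter fun x => (PO X A P a x ∧ x a = v) ∧ Col c true x) := by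
      intro x hx
      obtain ⟨-, h1, h2, h3⟩ := Finset.mem_filter.1 hx
      rw [Finset.mem_union]
      by_cases h : Function.Injective x
      · right
        refine Finset.mem_filter.2 ⟨Finset.mem_univ _, ⟨(hPO P a x).1 h1, h2⟩, h, ?_⟩
        by_contra hcon
        refine h3 ⟨h, ?_⟩
        simpa using hcon
      · left
        exact Finset.mem_filter.2 ⟨Finset.mem_univ _, h2, h⟩
    have h1 : ((univ.filter fun x => PatOff ro P a x ∧ x a = v ∧ ¬ Col c false x).card : ℝ) ≤
        ((univ.filter fun x : Fin r → V => x a = v ∧ ¬ Function.Injective x).card : ℝ) +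
        ((univ.filter fun x => (PO X A P a x ∧ x a = v) ∧ Col c true x).card : ℝ) := by
      exact_mod_cast (Finset.card_le_card hsub).trans (Finset.card_union_le _ _)
    have h2 : ((univ.filter fun x => (PO X A P a x ∧ x a = v) ∧ Col c true x).card : ℝ) =
        (Dn X A c P a v : ℝ) := by
      rw [Dn]
    have h3 : 0 ≤ ν / 4 * n ^ (r - 1) := by positivity
    have h4 : ν * n ^ (r - 1) = ν / 4 * n ^ (r - 1) * 4 := by ring
    rw [h4]
    refine le_trans (le_of_eq ?_) (le_trans h1 ?_)
    · congr!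
    · rw [h2]
      linarith
  · -- roleA
    intro v hv P a hP ha
    refine le_trans ((hro2 v hv).2 P a hP ha) (Nat.cast_le.2 (Finset.card_le_card ?_))
    intro x hx
    obtain ⟨-, ⟨h1, h2⟩, h3⟩ := Finset.mem_filter.1 hx
    exact Finset.mem_filter.2 ⟨Finset.mem_univ _, (hPO P a x).2 h1, h2, h3⟩
  · -- roleB
    intro v hv P a hP ha
    refine le_trans ((hro3 v hv).2.2 P a hP ha) (Nat.cast_le.2 (Finset.card_le_card ?_))
    intro x hx
    obtain ⟨-, ⟨h1, h2⟩, h3⟩ := Finset.mem_filter.1 hx
    exact Finset.mem_filter.2 ⟨Finset.mem_univ _, (hPO P a x).2 h1, h2, h3⟩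

end Pool.Agent.Lib.TwoPaths
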