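import Pool.Agent.Lib.TwoPaths.X0

/-!
# X3: sizes of patterns, walks of length two

(box_count) `{x | InL ro ℓ x}` is a product of `r` sets.  For a coordinate `j` with `j = 0` and `ℓ.1 ≠ none`
it is a singleton (if `ℓ.1 = some γ`); the other `dL ℓ` sets are the set of vertices of role `0`
(`j ∈ ℓ.2`) or of role `1`, of size at least `n/(2r)`.  So the number is at least
`(n/(2r))^(dL ℓ) ≥ (1/(2r))^r n^(dL ℓ)`.
(box_le) the same with upper bound `n` for each set.
(pat_count) `Pat ro P x ↔ InL ro (none, P) x`; if `i < r` both roles are large; if `i = r` then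
`P = univ`.
(mid_count) all `m` of pattern `P` but at most `2 ζ₂ n^r ≤ (kap r/2) n^r`.
(walk2) `(RM (RAdj c (Pat ro P)) ^ 2) x y` is the number of `m` with `RAdj x m`, `RAdj m y`.
(gd_card) from `pat_count`.
-/

namespace Pool.Agent.Lib.TwoPaths

open Finset
open Pool.Agent.Lib.MP_952639_co

section

variable {V : Type} [Fintype V] [DecidableEq V] {r i : ℕ}

open Classical in
/-- The factor of the box of a letter in coordinate `j`. -/
private noncomputable def boxF (ro : V → Fin 5) (ℓ : Letter V r) (j : Fin r) : Finset V :=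
  if (j : ℕ) = 0 ∧ ℓ.1 ≠ none then univ.filter (fun v => ℓ.1 = some v)
  else univ.filter (fun v => ro v = if j ∈ ℓ.2 then 0 else 1)

open Classical in
private theorem box_eq (ro : V → Fin 5) (ℓ : Letter V r) :
    (univ.filter fun x => InL ro ℓ x) = Fintype.piFinset (boxF ro ℓ) := by
  ext x
  rw [mem_filter, Fintype.mem_piFinset]
  refine Iff.trans (and_iff_right (mem_univ _)) (forall_congr' fun j => ?_)
  unfold boxF
  split_ifs <;> simp

open Classical in
private theorem box_card (ro : V → Fin 5) (ℓ : Letter V r) :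
    ((univ.filter fun x => InL ro ℓ x).card : ℝ) = ∏ j, ((boxF ro ℓ j).card : ℝ) := by
  rw [box_eq, Fintype.card_piFinset]
  push_cast
  rfl

private theorem prod_special (hr : 1 ≤ r) (p : Prop) [Decidable p] (a : ℝ) :
    (∏ j : Fin r, (if (j : ℕ) = 0 ∧ p then (1 : ℝ) else a)) = a ^ (if p then r - 1 else r) := by
  obtain ⟨k, rfl⟩ : ∃ k, r = k + 1 := ⟨r - 1, by omega⟩
  by_cases hp : p
  · rw [Fin.prod_univ_succ]
    simp [hp]
  · simp [hp]

omit [Fintype V] [DecidableEq V] in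
private theorem dL_eq (ℓ : Letter V r) : dL ℓ = (if ℓ.1 ≠ none then r - 1 else r) := by
  unfold dL
  by_cases h : ℓ.1 = none <;> simp [h]

private theorem special_card (o : Option V) (ho : o ≠ none) :
    (univ.filter (fun v : V => o = some v)).card = 1 := by
  obtain ⟨γ, rfl⟩ := Option.ne_none_iff_exists'.1 ho
  rw [card_eq_one]
  refine ⟨γ, ?_⟩
  ext v
  simp [eq_comm]

open Classical in
theorem box_count (hr : 1 ≤ r) (ro : V → Fin 5) (ℓ : Letter V r)
    (h0 : (Fintype.card V : ℝ) / (2 * r) ≤ nro ro 0)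
    (h1 : (∀ j : Fin r, ¬ ((j : ℕ) = 0 ∧ ℓ.1 ≠ none) → j ∈ ℓ.2) ∨
      (Fintype.card V : ℝ) / (2 * r) ≤ nro ro 1) :
    kap r * (Fintype.card V : ℝ) ^ dL ℓ ≤ ((univ.filter fun x => InL ro ℓ x).card : ℝ) := by
  have hr' : (1 : ℝ) ≤ r := by exact_mod_cast hr
  have hn0 : (0 : ℝ) ≤ Fintype.card V := Nat.cast_nonneg _
  have ha0 : (0 : ℝ) ≤ (Fintype.card V : ℝ) / (2 * r) := by positivity
  rw [box_card]
  have key : (∏ j : Fin r, (if (j : ℕ) = 0 ∧ ℓ.1 ≠ none then (1 : ℝ)
      else (Fintype.card V : ℝ) / (2 * r))) ≤ ∏ j, ((boxF ro ℓ j).card : ℝ) := by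
    refine prod_le_prod (fun j _ => ?_) (fun j _ => ?_)
    · split_ifs
      · exact zero_le_one
      · exact ha0
    · by_cases hj : (j : ℕ) = 0 ∧ ℓ.1 ≠ none
      · rw [if_pos hj, boxF, if_pos hj]
        have := special_card ℓ.1 hj.2
        have h2 : (univ.filter (fun v : V => ℓ.1 = some v)).card = 1 := by
          rw [← this]
        rw [h2]
        norm_num
      · rw [if_neg hj, boxF, if_neg hj]
        by_cases hjP : j ∈ ℓ.2
        · rw [if_pos hjP]
          exact h0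
        · rw [if_neg hjP]
          rcases h1 with h1 | h1
          · exact absurd (h1 j hj) hjP
          · exact h1
  refine le_trans ?_ key
  rw [prod_special hr, ← dL_eq, kap]
  have hd : dL ℓ ≤ r := by unfold dL; split_ifs <;> omega
  have h2r : (1 : ℝ) / (2 * r) ≤ 1 := by
    rw [div_le_one (by positivity)]
    linarith
  have : (1 / (2 * (r : ℝ))) ^ r ≤ (1 / (2 * (r : ℝ))) ^ dL ℓ :=
    pow_le_pow_of_le_one (by positivity) h2r hd
  calc (1 / (2 * (r : ℝ))) ^ r * (Fintype.card V : ℝ) ^ dL ℓ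
      ≤ (1 / (2 * (r : ℝ))) ^ dL ℓ * (Fintype.card V : ℝ) ^ dL ℓ :=
        mul_le_mul_of_nonneg_right this (by positivity)
    _ = ((Fintype.card V : ℝ) / (2 * (r : ℝ))) ^ dL ℓ := by
        rw [← mul_pow]
        congr 1
        ring

open Classical in
theorem box_le (hr : 1 ≤ r) (ro : V → Fin 5) (ℓ : Letter V r) :
    ((univ.filter fun x => InL ro ℓ x).card : ℝ) ≤ (Fintype.card V : ℝ) ^ dL ℓ := by
  rw [box_card, dL_eq, ← prod_special hr]
  refine prod_le_prod (fun j _ => Nat.cast_nonneg _) (fun j _ => ?_)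
  by_cases hj : (j : ℕ) = 0 ∧ ℓ.1 ≠ none
  · rw [if_pos hj, boxF, if_pos hj]
    have := special_card ℓ.1 hj.2
    have h2 : (univ.filter (fun v : V => ℓ.1 = some v)).card = 1 := by
      rw [← this]
    rw [h2]
    norm_num
  · rw [if_neg hj]
    exact_mod_cast card_le_univ _

open Classical in
theorem pat_count (hr : 1 ≤ r) {c : Finset V → Bool} {ro : V → Fin 5} {ξ ζ ν ν' : ℝ}
    (h : Ctx r i c ro ξ ζ ν ν') {P : Finset (Fin r)} (hP : P.card = i) :
    kap r * (Fintype.card V : ℝ) ^ r ≤ ((univ.filter fun x => Pat ro P x).card : ℝ) := by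
  have h1 : (∀ j : Fin r, ¬ ((j : ℕ) = 0 ∧ ((none, P) : Letter V r).1 ≠ none) →
      j ∈ ((none, P) : Letter V r).2) ∨ (Fintype.card V : ℝ) / (2 * r) ≤ nro ro 1 := by
    rcases lt_or_eq_of_le h.hi.2 with hi | hi
    · exact Or.inr (h.sizeB hi)
    · left
      intro j _
      have hu : P = univ := by
        rw [← card_eq_iff_eq_univ, hP, hi, Fintype.card_fin]
      simp [hu]
  have := box_count hr ro ((none, P) : Letter V r) h.sizeA h1
  have hd : dL ((none, P) : Letter V r) = r := by simp [dL]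
  rw [hd] at this
  refine this.trans (le_of_eq ?_)
  congr 2
  ext x
  rw [mem_filter, mem_filter]
  refine and_congr_right fun _ => forall_congr' fun j => ?_
  simp

private theorem mix_compl' (x y : Fin r → V) (I : Finset (Fin r)) : mix x y I = mix y x Iᶜ := by
  funext j
  unfold mix
  by_cases hj : j ∈ I <;> simp [hj]

private theorem adj_comm' {c : Finset V → Bool} {x y : Fin r → V} (h : Adj c x y) : Adj c y x := by
  obtain ⟨κ, h⟩ := h
  refine ⟨κ, fun I => ?_⟩
  rw [mix_compl']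
  exact h _

open Classical in
theorem mid_count (hr : 1 ≤ r) {c : Finset V → Bool} {ro : V → Fin 5} {ξ ζ ν ν' ζ₂ : ℝ}
    (h : Ctx r i c ro ξ ζ ν ν') (hζ₂ : ζ₂ ≤ kap r / 4) {P : Finset (Fin r)} (hP : P.card = i)
    {x y : Fin r → V} (hx : x ∈ Gd c ro P ζ₂) (hy : y ∈ Gd c ro P ζ₂) :
    kap r / 2 * (Fintype.card V : ℝ) ^ r ≤
      ((univ.filter fun m => Pat ro P m ∧ Adj c x m ∧ Adj c m y).card : ℝ) := by
  have hx' := (mem_filter.1 hx).2.2.2
  have hy' := (mem_filter.1 hy).2.2.2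
  have hpc := pat_count hr h hP
  have hsub : (univ.filter fun m => Pat ro P m) ⊆
      (univ.filter fun m => Pat ro P m ∧ Adj c x m ∧ Adj c m y) ∪
        ((univ.filter fun m => Pat ro P m ∧ ¬ Adj c x m) ∪
          (univ.filter fun m => Pat ro P m ∧ ¬ Adj c y m)) := by
    intro m hm
    simp only [mem_filter, mem_univ, true_and, mem_union] at hm ⊢
    by_cases h1 : Adj c x m
    · by_cases h2 : Adj c y m
      · exact Or.inl ⟨hm, h1, adj_comm' h2⟩
      · exact Or.inr (Or.inr ⟨hm, h2⟩)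
    · exact Or.inr (Or.inl ⟨hm, h1⟩)
  have hc : (((univ.filter fun m => Pat ro P m).card : ℕ) : ℝ) ≤
      ((univ.filter fun m => Pat ro P m ∧ Adj c x m ∧ Adj c m y).card : ℝ) +
        (((univ.filter fun m => Pat ro P m ∧ ¬ Adj c x m).card : ℝ) +
          ((univ.filter fun m => Pat ro P m ∧ ¬ Adj c y m).card : ℝ)) := by
    have h1 := (card_le_card hsub).trans ((card_union_le _ _).trans
      (Nat.add_le_add_left (card_union_le _ _) _))
    exact_mod_cast h1
  have hn : (0 : ℝ) ≤ (Fintype.card V : ℝ) ^ r := by positivity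
  have h4 : ζ₂ * (Fintype.card V : ℝ) ^ r ≤ kap r / 4 * (Fintype.card V : ℝ) ^ r :=
    mul_le_mul_of_nonneg_right hζ₂ hn
  linarith

theorem walk2 (hr : 1 ≤ r) {c : Finset V → Bool} {ro : V → Fin 5} {ξ ζ ν ν' ζ₂ : ℝ}
    (h : Ctx r i c ro ξ ζ ν ν') (hζ₂ : ζ₂ ≤ kap r / 4) {P : Finset (Fin r)} (hP : P.card = i)
    {x y : Fin r → V} (hx : x ∈ Gd c ro P ζ₂) (hy : y ∈ Gd c ro P ζ₂) :
    kap r / 2 * (Fintype.card V : ℝ) ^ r ≤ (RM (RAdj c (Pat ro P)) ^ 2) x y := by
  classical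
  refine (mid_count hr h hζ₂ hP hx hy).trans (le_of_eq ?_)
  have hxP := (mem_filter.1 hx).2.1
  have hyP := (mem_filter.1 hy).2.1
  rw [pow_two, Matrix.mul_apply, card_filter]
  push_cast
  refine sum_congr rfl fun m _ => ?_
  unfold RM RAdj
  by_cases hm : Pat ro P m
  · by_cases h1 : Adj c x m
    · by_cases h2 : Adj c m y
      · simp [hm, h1, h2, hxP, hyP]
      · simp [hm, h1, h2, hxP, hyP]
    · simp [hm, h1, hxP, hyP]
  · simp [hm]

open Classical in
theorem gd_card (hr : 1 ≤ r) {c : Finset V → Bool} {ro : V → Fin 5} {ξ ζ ν ν' ζ₂ ζ₃ : ℝ}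
    (h : Ctx r i c ro ξ ζ ν ν') {P : Finset (Fin r)} (hP : P.card = i) (hζ₃ : ζ₃ ≤ kap r / 2)
    (hG : ((univ.filter fun x => Pat ro P x ∧ x ∉ Gd c ro P ζ₂).card : ℝ) ≤
      ζ₃ * (Fintype.card V : ℝ) ^ r) :
    kap r / 2 * (Fintype.card V : ℝ) ^ r ≤ ((Gd c ro P ζ₂).card : ℝ) := by
  have hpc := pat_count hr h hP
  have hsub : (univ.filter fun m => Pat ro P m) ⊆
      Gd c ro P ζ₂ ∪ (univ.filter fun x => Pat ro P x ∧ x ∉ Gd c ro P ζ₂) := by
    intro m hm
    simp only [mem_filter, mem_univ, true_and, mem_union] at hm ⊢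
    by_cases h1 : m ∈ Gd c ro P ζ₂
    · exact Or.inl h1
    · exact Or.inr ⟨hm, h1⟩
  have hc : (((univ.filter fun m => Pat ro P m).card : ℕ) : ℝ) ≤
      ((Gd c ro P ζ₂).card : ℝ) +
        ((univ.filter fun x => Pat ro P x ∧ x ∉ Gd c ro P ζ₂).card : ℝ) := by
    have h1 := (card_le_card hsub).trans (card_union_le _ _)
    exact_mod_cast h1
  have hn : (0 : ℝ) ≤ (Fintype.card V : ℝ) ^ r := by positivity
  have h4 : ζ₃ * (Fintype.card V : ℝ) ^ r ≤ kap r / 2 * (Fintype.card V : ℝ) ^ r :=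
    mul_le_mul_of_nonneg_right hζ₃ hn
  linarith

end

end Pool.Agent.Lib.TwoPaths
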