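import Pool.Agent.Lib.TwoPaths.XDefs

/-!
# X5a: the template of an absorber in the extremal case

`H = Fin r × Fin r`.  For a permutation `π`: the initial tuples are the rows
`j ↦ (k, j)`, `k : Fin r`; the final tuples are the diagonal `j ↦ inl (j, j)` and the rows
`j ↦ if j = k then inr (π k) else inl (k, j)`.  All labels are `true`.
`tm π = ⟨List.ofFn (fun k => (true, fun j => (k, j))), (true, fun j => inl (j, j)) :: List.ofFn
(fun k => (true, fun j => if j = k then inr (π k) else inl (k, j))), …⟩`: in the initial state every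
`(k, j)` occurs exactly once; in the final state `inl (k, j)` with `k ≠ j` occurs once (in row `k`),
`inl (j, j)` once (diagonal), `inr (π k)` once (row `k`).
`CoreAbs K (tm π) U T` is what is assumed: `Sum.elim U T ∘ (row k of the final state)` is
`Function.update (fun j => U (k, j)) k (T (π k))`.

(exists_perm_roles)  Let `a`, `b` be the numbers of `k` with `ro (T k) = 0`, `= 1`; `a + b = r` and
`a (r - i) - b i = 0`, so `r a = r i`, `a = i`.  Choose bijections from `P` to
`{k | ro (T k) = 0}` and from the complement to the complement.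
-/

namespace Pool.Agent.Lib.TwoPaths

open Finset
open Pool.Agent.Lib.MP_952639_co

private def xRow {r : ℕ} (π : Equiv.Perm (Fin r)) (k j : Fin r) : (Fin r × Fin r) ⊕ Fin r :=
  if j = k then Sum.inr (π k) else Sum.inl (k, j)

private def xTm (r : ℕ) (π : Equiv.Perm (Fin r)) : Template r (Fin r × Fin r) where
  ini := List.ofFn fun k : Fin r => (true, fun j : Fin r => (k, j))
  fin := (true, fun j : Fin r => Sum.inl (j, j)) :: List.ofFn fun k : Fin r => (true, xRow π k)
  ini_nodup := by
    rw [List.nodup_flatMap]
    constructor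
    · intro x hx
      rw [List.mem_ofFn] at hx
      obtain ⟨k, rfl⟩ := hx
      rw [List.nodup_ofFn]
      intro a b hab
      exact (Prod.mk.inj hab).2
    · rw [List.pairwise_ofFn]
      intro k k' hk
      simp only [Function.onFun]
      intro x hx hx'
      rw [List.mem_ofFn] at hx hx'
      obtain ⟨j, rfl⟩ := hx
      obtain ⟨j', h'⟩ := hx'
      exact absurd (Prod.mk.inj h').1 (ne_of_gt hk)
  fin_nodup := by
    rw [List.nodup_flatMap]
    constructor
    · intro x hx
      rcases List.mem_cons.1 hx with rfl | hx
      · rw [List.nodup_ofFn]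
        intro a b hab
        exact (Prod.mk.inj (Sum.inl.inj hab)).2
      · rw [List.mem_ofFn] at hx
        obtain ⟨k, rfl⟩ := hx
        rw [List.nodup_ofFn]
        intro a b hab
        simp only [xRow] at hab
        split_ifs at hab with h1 h2 h2
        · rw [h1, h2]
        · exact (Prod.mk.inj (Sum.inl.inj hab)).2
    · rw [List.pairwise_cons, List.pairwise_ofFn]
      constructor
      · intro x hx
        rw [List.mem_ofFn] at hx
        obtain ⟨k, rfl⟩ := hx
        simp only [Function.onFun]
        intro y hy hy'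
        rw [List.mem_ofFn] at hy hy'
        obtain ⟨j, rfl⟩ := hy
        obtain ⟨j', h'⟩ := hy'
        simp only [xRow] at h'
        split_ifs at h' with h1
        · have h2 := Prod.mk.inj (Sum.inl.inj h')
          exact h1 (h2.2.trans h2.1.symm)
      · intro k k' hk
        simp only [Function.onFun]
        intro x hx hx'
        rw [List.mem_ofFn] at hx hx'
        obtain ⟨j, rfl⟩ := hx
        obtain ⟨j', h'⟩ := hx'
        simp only [xRow] at h'
        split_ifs at h' with h1 h2 h2
        · exact absurd (π.injective (Sum.inr.inj h')) (ne_of_gt hk)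
        · exact absurd (Prod.mk.inj (Sum.inl.inj h')).1 (ne_of_gt hk)
  inl_iff := by
    rintro ⟨k, j⟩
    simp only [List.mem_flatMap, List.mem_cons, List.mem_ofFn]
    constructor
    · intro _
      exact ⟨_, ⟨k, rfl⟩, j, rfl⟩
    · intro _
      by_cases h : j = k
      · exact ⟨_, Or.inl rfl, j, by rw [h]⟩
      · exact ⟨_, Or.inr ⟨k, rfl⟩, j, by simp only [xRow, if_neg h]⟩
  inr_mem := by
    intro i
    simp only [List.mem_flatMap, List.mem_cons, List.mem_ofFn]
    exact ⟨_, Or.inr ⟨π.symm i, rfl⟩, π.symm i, by simp only [xRow, if_true, Equiv.apply_symm_apply]⟩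

theorem exists_ext_template (r : ℕ) :
    ∃ tm : Equiv.Perm (Fin r) → Template r (Fin r × Fin r),
      ∀ (V : Type) (K : Bool → Finset (Fin r → V)) (U : Fin r × Fin r → V) (T : Fin r → V)
        (π : Equiv.Perm (Fin r)), (∀ k, (fun j => U (k, j)) ∈ K true) →
        (fun j => U (j, j)) ∈ K true →
        (∀ k, Function.update (fun j => U (k, j)) k (T (π k)) ∈ K true) →
        CoreAbs K (tm π) U T := by
  refine ⟨xTm r, fun V K U T π h1 h2 h3 => ⟨?_, ?_⟩⟩
  · intro p hp
    simp only [xTm, List.mem_ofFn] at hp
    obtain ⟨k, rfl⟩ := hp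
    exact h1 k
  · intro p hp
    simp only [xTm, List.mem_cons, List.mem_ofFn] at hp
    rcases hp with rfl | ⟨k, rfl⟩
    · exact h2
    · have h4 : Sum.elim U T ∘ xRow π k = Function.update (fun j => U (k, j)) k (T (π k)) := by
        funext j
        by_cases h : j = k
        · subst h
          simp only [Function.comp_apply, xRow, if_true, Sum.elim_inr, Function.update_self]
        · simp only [Function.comp_apply, xRow, if_neg h, Sum.elim_inl, Function.update_of_ne h]
      change Sum.elim U T ∘ xRow π k ∈ K true
      rw [h4]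
      exact h3 k

theorem exists_perm_roles {V : Type} [Fintype V] [DecidableEq V] {r i : ℕ} (hr : 1 ≤ r)
    (ro : V → Fin 5) (P : Finset (Fin r)) (hP : P.card = i) (T : Fin r → V)
    (hT : ∀ k, ro (T k) = 0 ∨ ro (T k) = 1) (hw : ∑ k, wtr r i ro (T k) = 0) :
    ∃ π : Equiv.Perm (Fin r), ∀ k, ro (T (π k)) = if k ∈ P then 0 else 1 := by
  have h1 : ∀ k, wtr r i ro (T k) = (if ro (T k) = 0 then (r : ℤ) else 0) - (i : ℤ) := by
    intro k
    rcases hT k with h | h
    · simp [wtr, h]
    · simp [wtr, h]
  have h2 : (univ.filter fun k => ro (T k) = 0).card = P.card := by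
    simp only [h1, Finset.sum_sub_distrib, Finset.sum_const, Finset.card_univ, Fintype.card_fin,
      ← Finset.sum_filter, nsmul_eq_mul] at hw
    have h3 : (r : ℤ) * (((univ.filter fun k => ro (T k) = 0).card : ℤ) - i) = 0 := by
      linear_combination hw
    rcases mul_eq_zero.1 h3 with h4 | h4
    · have : r = 0 := by exact_mod_cast h4
      omega
    · rw [hP]
      have : ((univ.filter fun k => ro (T k) = 0).card : ℤ) = i := by linarith
      exact_mod_cast this
  have h3 : Fintype.card {k // k ∈ P} = Fintype.card {k // ro (T k) = 0} := by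
    rw [Fintype.card_coe, ← h2, Fintype.card_subtype]
  let e : {k // k ∈ P} ≃ {k // ro (T k) = 0} := Fintype.equivOfCardEq h3
  refine ⟨e.extendSubtype, fun k => ?_⟩
  by_cases hk : k ∈ P
  · rw [if_pos hk]
    exact e.extendSubtype_mem k hk
  · rw [if_neg hk]
    exact (hT _).resolve_left (e.extendSubtype_not_mem k hk)

end Pool.Agent.Lib.TwoPaths
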