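import Pool.Agent.Lib.TwoPaths.X3

/-!
# X6: many red tuples through an atypical vertex of role `2` or `3`

PROOF.  `n = |V|`, `G = Gd c ro P ζ₂`.  `a ∈ P` if `ro v = 2`, `a ∉ P` if `ro v = 3` (then `i < r` by the field
`top`).  Let `D` be the set of vertices of role `0` (if `a ∈ P`) or `1` (if `a ∉ P`), `|D| ≥ n/(2r)`.
By `roleA`/`roleB` there are at least `ν' n^(r-1)` tuples `w` with `PatOff ro P a w`, `w a = v`,
`Col c true w`; for these `w` and `d ∈ D`, `x = update w a d` has pattern `P` and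
`update x a v = w`; `(w, d) ↦ x` is injective.  So at least `(ν'/(2r)) n^r` tuples `x` of pattern `P` have
`Col c true (update x a v)`.  As `ζ₃ ≤ ν'/(4r)`, the set
`Ω = {x | Pat ro P x, x ∈ G, Col c true (update x a v)}` has at least `(ν'/(4r)) n^r` elements.
`cube_ineq`: at least `(ν'/(4r))^(2^r) n^(2r) = 2 ν₂ n^(2r)` pairs `(y, x)` have all mixtures `mix y x S` in `Ω`
(`ν₂ = nu2 r ν'`).  For such a pair let `w = update y a v`.  `x ∈ G`, `PatOff ro P a w`, `w a = v`, and
`Adj c w x`: let `S` be given; if `a ∈ S` then `mix w x S = mix y x S ∈ Ω ⊆ G`, of colour `true`; if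
`a ∉ S` then `mix w x S = update (mix y x S) a v`, of colour `true` because `mix y x S ∈ Ω`.
Each `w` arises from at most `n` tuples `y`: so there are at least `2 ν₂ n^(2r-1)` pairs `(w, x)` with
`PatOff ro P a w`, `w a = v`, `x ∈ G`, `Adj c w x`.  There are at most `n^(r-1)` such `w` (`card_fix`).
If `g` of the `w` have at least `ν₂ n^r` partners then `2 ν₂ n^(2r-1) ≤ g n^r + n^(r-1) ν₂ n^r`,
so `g ≥ ν₂ n^(r-1)`.  These `w` have `Col c true w` (from `Adj c w x`, `S = ∅`, and `S = univ` gives the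
colour `true` of `x`); a partner exists because `ν₂ n^r > 0`.
-/

namespace Pool.Agent.Lib.TwoPaths

open Finset
open Pool.Agent.Lib.MP_952639_co

open Classical in
theorem role_tuples {V : Type} [Fintype V] [DecidableEq V] {r i : ℕ} (hr : 2 ≤ r)
    {c : Finset V → Bool} {ro : V → Fin 5} {ξ ζ ν ν' ζ₂ ζ₃ : ℝ} (h : Ctx r i c ro ξ ζ ν ν')
    (hν' : 0 < ν') (hV : 0 < Fintype.card V) {P : Finset (Fin r)} (hP : P.card = i)
    (hG : ((univ.filter fun x => Pat ro P x ∧ x ∉ Gd c ro P ζ₂).card : ℝ) ≤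
      ζ₃ * (Fintype.card V : ℝ) ^ r) (hζ₃ : ζ₃ ≤ ν' / (4 * r)) (a : Fin r) (v : V)
    (hv : (ro v = 2 ∧ a ∈ P) ∨ (ro v = 3 ∧ a ∉ P)) :
    nu2 r ν' * (Fintype.card V : ℝ) ^ (r - 1) ≤
      ((univ.filter fun w => PatOff ro P a w ∧ w a = v ∧ Col c true w ∧
        nu2 r ν' * (Fintype.card V : ℝ) ^ r ≤
          (((Gd c ro P ζ₂).filter fun x => Adj c w x).card : ℝ)).card : ℝ) := by
  obtain ⟨n, hn⟩ : ∃ n : ℝ, n = (Fintype.card V : ℝ) := ⟨_, rfl⟩
  have hn0 : 0 < n := by rw [hn]; exact_mod_cast hV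
  have hr0 : (0 : ℝ) < r := by
    have : 0 < r := by omega
    exact_mod_cast this
  -- the vertices of the role of coordinate `a`
  obtain ⟨D, hD, hDc⟩ : ∃ D : Finset V, (∀ d ∈ D, ro d = if a ∈ P then 0 else 1) ∧
      n / (2 * r) ≤ (D.card : ℝ) := by
    rcases hv with ⟨_, ha⟩ | ⟨h3, ha⟩
    · refine ⟨univ.filter fun v => ro v = 0, ?_, ?_⟩
      · intro d hd
        rw [if_pos ha]
        exact (mem_filter.mp hd).2
      · rw [hn]
        exact h.sizeA
    · have hi : i < r := by
        rcases h.hi.2.lt_or_eq with h' | h'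
        · exact h'
        · exact absurd h3 (h.top h' v).2
      refine ⟨univ.filter fun v => ro v = 1, ?_, ?_⟩
      · intro d hd
        rw [if_neg ha]
        exact (mem_filter.mp hd).2
      · rw [hn]
        exact h.sizeB hi
  obtain ⟨W, hW, hWc⟩ : ∃ W : Finset (Fin r → V),
      (∀ w ∈ W, PatOff ro P a w ∧ w a = v ∧ Col c true w) ∧
      ν' * n ^ (r - 1) ≤ (W.card : ℝ) := by
    refine ⟨univ.filter fun w => PatOff ro P a w ∧ w a = v ∧ Col c true w,
      fun w hw => (mem_filter.mp hw).2, ?_⟩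
    rw [hn]
    rcases hv with ⟨h2, ha⟩ | ⟨h3, ha⟩
    · exact h.roleA v h2 P a hP ha
    · exact h.roleB v h3 P a hP ha
  obtain ⟨Ω0, hΩ0⟩ : ∃ Ω0 : Finset (Fin r → V), ∀ x, x ∈ Ω0 ↔
      (Pat ro P x ∧ Col c true (Function.update x a v)) :=
    ⟨univ.filter fun x => Pat ro P x ∧ Col c true (Function.update x a v), fun x => by simp⟩
  have h1 : (W.card : ℝ) * D.card ≤ Ω0.card := by
    rw [← Nat.cast_mul, ← card_product, Nat.cast_le]
    apply card_le_card_of_injOn (fun p => Function.update p.1 a p.2)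
    · intro p hp
      rw [mem_coe, mem_product] at hp
      obtain ⟨w1, w2, w3⟩ := hW _ hp.1
      rw [mem_coe, hΩ0]
      refine ⟨fun j => ?_, ?_⟩
      · by_cases hj : j = a
        · subst hj
          simp only [Function.update_self]
          exact hD _ hp.2
        · simp only [Function.update_of_ne hj]
          exact w1 j hj
      · simp only [Function.update_idem]
        rw [← w2, Function.update_eq_self]
        exact w3
    · intro p hp q hq hpq
      rw [mem_coe, mem_product] at hp hq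
      have hpq' : Function.update p.1 a p.2 = Function.update q.1 a q.2 := hpq
      have e1 : p.2 = q.2 := by
        have := congrFun hpq' a
        simpa using this
      have e2 : p.1 = q.1 := by
        funext j
        by_cases hj : j = a
        · subst hj
          rw [(hW _ hp.1).2.1, (hW _ hq.1).2.1]
        · have := congrFun hpq' j
          simpa [hj] using this
      exact Prod.ext e2 e1
  obtain ⟨s, hs⟩ : ∃ s : ℝ, s = ν' / (4 * r) := ⟨_, rfl⟩
  have hs0 : 0 < s := by rw [hs]; positivity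
  have h2 : 2 * s * n ^ r ≤ (Ω0.card : ℝ) := by
    refine le_trans ?_ h1
    have e1 : n ^ r = n ^ (r - 1) * n := by
      rw [← pow_succ]
      congr 1
      omega
    calc 2 * s * n ^ r = (ν' * n ^ (r - 1)) * (n / (2 * r)) := by
          rw [hs, e1]
          field_simp
          ring
      _ ≤ _ := by
          apply mul_le_mul hWc hDc (by positivity) (by positivity)
  obtain ⟨Ω, hΩ⟩ : ∃ Ω : Finset (Fin r → V), ∀ x, x ∈ Ω ↔
      (x ∈ Gd c ro P ζ₂ ∧ x ∈ Ω0) :=
    ⟨univ.filter fun x => x ∈ Gd c ro P ζ₂ ∧ x ∈ Ω0, fun x => by simp⟩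
  have h3 : (Ω0.card : ℝ) ≤ Ω.card +
      ((univ.filter fun x => Pat ro P x ∧ x ∉ Gd c ro P ζ₂).card : ℝ) := by
    have : Ω0 ⊆ Ω ∪ (univ.filter fun x => Pat ro P x ∧ x ∉ Gd c ro P ζ₂) := by
      intro x hx
      by_cases hg : x ∈ Gd c ro P ζ₂
      · exact mem_union_left _ ((hΩ x).mpr ⟨hg, hx⟩)
      · exact mem_union_right _ (mem_filter.mpr ⟨mem_univ _, ((hΩ0 x).mp hx).1, hg⟩)
    exact_mod_cast (card_le_card this).trans (card_union_le _ _)
  have h4 : s * n ^ r ≤ (Ω.card : ℝ) := by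
    rw [← hn] at hG
    have : ζ₃ * n ^ r ≤ s * n ^ r := by
      rw [hs]
      exact mul_le_mul_of_nonneg_right hζ₃ (by positivity)
    linarith
  obtain ⟨E, hE, hEc⟩ : ∃ E : Finset ((Fin r → V) × (Fin r → V)),
      (∀ p ∈ E, ∀ I, mix p.1 p.2 I ∈ Ω) ∧ s ^ (2 ^ r) * n ^ (2 * r) ≤ (E.card : ℝ) := by
    refine ⟨_, fun p hp => (mem_filter.mp hp).2, le_trans ?_ (cube_ineq hV r Ω)⟩
    rw [← hn]
    have : s ≤ (Ω.card : ℝ) / n ^ r := by
      rw [le_div_iff₀ (by positivity)]
      exact h4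
    gcongr
  -- the pairs `(w, x)`
  obtain ⟨Wv, hWv⟩ : ∃ Wv : Finset (Fin r → V), ∀ w, w ∈ Wv ↔ (PatOff ro P a w ∧ w a = v) :=
    ⟨univ.filter fun w => PatOff ro P a w ∧ w a = v, fun x => by simp⟩
  obtain ⟨f, hf⟩ : ∃ f : (Fin r → V) → Finset (Fin r → V),
      ∀ w, f w = (Gd c ro P ζ₂).filter fun x => Adj c w x := ⟨_, fun _ => rfl⟩
  have h5 : (E.card : ℝ) ≤ (∑ w ∈ Wv, ((f w).card : ℝ)) * n := by
    rw [hn, ← Nat.cast_sum, ← card_sigma, ← Finset.card_univ, ← Nat.cast_mul, ← card_product,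
      Nat.cast_le]
    apply card_le_card_of_injOn (fun p => (⟨Function.update p.1 a v, p.2⟩, p.1 a))
    · intro p hp
      rw [mem_coe] at hp
      have hp' := hE p hp
      have hy : p.1 ∈ Ω := by
        have := hp' ∅
        rwa [mix_empty] at this
      have hx : p.2 ∈ Ω := by
        have := hp' univ
        rwa [mix_univ] at this
      have hPy : Pat ro P p.1 := ((hΩ0 _).mp ((hΩ _).mp hy).2).1
      rw [mem_coe, mem_product, mem_sigma]
      refine ⟨⟨?_, ?_⟩, mem_univ _⟩
      · rw [hWv]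
        refine ⟨fun j hj => ?_, ?_⟩
        · simp only [Function.update_of_ne hj]
          exact hPy j
        · simp
      · rw [hf, mem_filter]
        refine ⟨((hΩ _).mp hx).1, true, fun I => ?_⟩
        have hm := hp' I
        by_cases ha : a ∈ I
        · have e1 : mix (Function.update p.1 a v) p.2 I = mix p.1 p.2 I := by
            funext j
            unfold mix
            by_cases hj : j ∈ I
            · rw [if_pos hj, if_pos hj]
            · rw [if_neg hj, if_neg hj]
              have : j ≠ a := fun hja => hj (hja ▸ ha)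
              rw [Function.update_of_ne this]
          have hg := ((hΩ _).mp hm).1
          rw [e1]
          unfold Gd at hg
          exact (mem_filter.mp hg).2.2.1
        · have e1 : mix (Function.update p.1 a v) p.2 I =
              Function.update (mix p.1 p.2 I) a v := by
            funext j
            by_cases hja : j = a
            · subst hja
              unfold mix
              rw [if_neg ha]
              simp
            · rw [Function.update_of_ne hja]
              unfold mix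
              rw [Function.update_of_ne hja]
          rw [e1]
          exact ((hΩ0 _).mp ((hΩ _).mp hm).2).2
    · intro p hp q hq hpq
      have hpq' : ((⟨Function.update p.1 a v, p.2⟩ : Σ _ : Fin r → V, (Fin r → V)), p.1 a) =
          (⟨Function.update q.1 a v, q.2⟩, q.1 a) := hpq
      rw [Prod.mk.injEq, Sigma.mk.injEq] at hpq'
      obtain ⟨⟨e1, e2⟩, e3⟩ := hpq'
      have e2' : p.2 = q.2 := eq_of_heq e2
      have e4 : p.1 = q.1 := by
        funext j
        by_cases hj : j = a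
        · subst hj
          exact e3
        · have := congrFun e1 j
          simpa [hj] using this
      exact Prod.ext e4 e2'
  have hWvc : (Wv.card : ℝ) ≤ n ^ (r - 1) := by
    rw [hn]
    have h6 : Wv.card ≤ Fintype.card V ^ (r - 1) := by
      rw [← card_fix (r := r) a v]
      apply card_le_card
      intro w hw
      exact mem_filter.mpr ⟨mem_univ _, ((hWv w).mp hw).2⟩
    exact_mod_cast h6
  have hfc : ∀ w, ((f w).card : ℝ) ≤ n ^ r := by
    intro w
    have h6 : (f w).card ≤ Fintype.card V ^ r := by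
      refine (card_le_univ _).trans (le_of_eq ?_)
      simp
    rw [hn]
    exact_mod_cast h6
  obtain ⟨ν₂, hν₂⟩ : ∃ ν₂ : ℝ, ν₂ = nu2 r ν' := ⟨_, rfl⟩
  have hν₂' : 2 * ν₂ = s ^ (2 ^ r) := by
    rw [hν₂, hs]
    unfold nu2
    ring
  have hν₂0 : 0 < ν₂ := by
    have : 0 < s ^ (2 ^ r) := by positivity
    linarith
  obtain ⟨G, hGm⟩ : ∃ G : Finset (Fin r → V), ∀ w, w ∈ G ↔
      (w ∈ Wv ∧ ν₂ * n ^ r ≤ ((f w).card : ℝ)) :=
    ⟨univ.filter fun w => w ∈ Wv ∧ ν₂ * n ^ r ≤ ((f w).card : ℝ), fun x => by simp⟩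
  have h7 : (∑ w ∈ Wv, ((f w).card : ℝ)) ≤ G.card * n ^ r + n ^ (r - 1) * (ν₂ * n ^ r) := by
    have e1 : ∀ w ∈ Wv, ((f w).card : ℝ) ≤ (if w ∈ G then n ^ r else 0) + ν₂ * n ^ r := by
      intro w hw
      by_cases hg : w ∈ G
      · rw [if_pos hg]
        have := hfc w
        have h0 : 0 ≤ ν₂ * n ^ r := by positivity
        linarith
      · rw [if_neg hg, zero_add]
        by_contra hcon
        push Not at hcon
        exact hg ((hGm w).mpr ⟨hw, hcon.le⟩)
    refine (sum_le_sum e1).trans ?_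
    rw [sum_add_distrib, sum_const, nsmul_eq_mul, ← sum_filter, sum_const, nsmul_eq_mul]
    have e2 : ((Wv.filter fun w => w ∈ G).card : ℝ) ≤ G.card := by
      have : (Wv.filter fun w => w ∈ G).card ≤ G.card := by
        apply card_le_card
        intro w hw
        exact (mem_filter.mp hw).2
      exact_mod_cast this
    have e3 : 0 ≤ ν₂ * n ^ r := by positivity
    have e4 : 0 ≤ n ^ r := by positivity
    have e5 := mul_le_mul_of_nonneg_right e2 e4
    have e6 := mul_le_mul_of_nonneg_right hWvc e3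
    linarith
  have h8 : ν₂ * n ^ (r - 1) ≤ (G.card : ℝ) := by
    have e1 : s ^ (2 ^ r) * n ^ (2 * r) ≤
        (G.card * n ^ r + n ^ (r - 1) * (ν₂ * n ^ r)) * n :=
      hEc.trans (h5.trans (mul_le_mul_of_nonneg_right h7 hn0.le))
    have e2 : n ^ (2 * r) = n ^ (r - 1) * n ^ r * n := by
      rw [← pow_add, ← pow_succ]
      congr 1
      omega
    rw [← hν₂', e2] at e1
    have e3 : ν₂ * n ^ (r - 1) * (n ^ r * n) ≤ G.card * (n ^ r * n) := by
      nlinarith [e1]
    exact le_of_mul_le_mul_right e3 (by positivity)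
  rw [← hν₂, ← hn]
  refine h8.trans ?_
  rw [Nat.cast_le]
  apply card_le_card
  intro w hw
  obtain ⟨hw1, hw2⟩ := (hGm w).mp hw
  obtain ⟨hw3, hw4⟩ := (hWv w).mp hw1
  rw [hf] at hw2
  refine mem_filter.mpr ⟨mem_univ _, hw3, hw4, ?_, hw2⟩
  have hpos : (0 : ℝ) < (((Gd c ro P ζ₂).filter fun x => Adj c w x).card : ℝ) :=
    lt_of_lt_of_le (by positivity) hw2
  have hpos' : 0 < ((Gd c ro P ζ₂).filter fun x => Adj c w x).card := by exact_mod_cast hpos
  obtain ⟨x, hx⟩ := card_pos.mp hpos'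
  obtain ⟨hx1, hx2⟩ := mem_filter.mp hx
  obtain ⟨κ, hκw, hκx⟩ := hx2.col
  unfold Gd at hx1
  have hxt := (mem_filter.mp hx1).2.2.1
  rw [hκx.unique hxt] at hκw
  exact hκw

end Pool.Agent.Lib.TwoPaths
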