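import Pool.Agent.Lib.TwoPaths.X6

/-!
# X7: insertion of an atypical vertex of role `2` or `3` into a red chain

PROOF.  `n = |V|`.  If `ro v = 2` let `a ∈ P` (`P.card = i ≥ 1`); if `ro v = 3` let `a ∉ P` (`i < r` by `top`).
(avoid) The number of tuples `x` with an entry in a set `E` is at most `r |E| n^(r-1)` (`card_touch`); the
number of `w` with `w a = v` and an entry `w j ∈ E` with `j ≠ a` is at most `r |E| n^(r-2)`
(sum over `j`; `n` times this number is at most `r |E| n^(r-1)`).
 * `w`: by `role_tuples` at least `ω n^(r-1)` candidates; fewer than this have an entry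
   `w j ∈ F`, `j ≠ a`, since `r |F| < ω n`.  `w a = v ∉ F`.
 * `x ∈ Gd` with `Adj c w x`: at least `ω n^r` candidates; avoid `F ∪ {w j}` (`r (|F| + r) < ω n`).
 * `y`: the same candidates as for `x`; avoid `F ∪ {w j} ∪ {x j}`.
 * `m` of pattern `P` with `Adj c u m`, `Adj c m x` (`mid_count`): at least `(kap r/2) n^r ≥ ω n^r` candidates;
   avoid `F ∪ {w j} ∪ {x j} ∪ {y j}` (`r (|F| + 3 r) < ω n`).
Adjacent tuples are injective (`Adj`, mixtures `∅` and `univ`).  `Adj c x w` by `Adj.symm`.
Colours: `u ∈ Gd` has colour `true`, and adjacent tuples have the same colour (`Adj.col`, `Col.unique`).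
`m, x, y` have pattern `P`, hence effective pattern `P`; `w`: coordinate `a` has role `2` with `a ∈ P` or
role `3` with `a ∉ P`, the other coordinates are typical.
-/

namespace Pool.Agent.Lib.TwoPaths

open Finset
open Pool.Agent.Lib.MP_952639_co

section

variable {V : Type} [Fintype V] [DecidableEq V] {r : ℕ}

open Classical in
private theorem avoid_count (hV : 0 < Fintype.card V) (S : Finset (Fin r → V)) (E : Finset V)
    (t : ℝ) (hS : t * (Fintype.card V : ℝ) ^ r ≤ (S.card : ℝ))
    (hE : (r : ℝ) * E.card < t * Fintype.card V) : ∃ x ∈ S, ∀ j, x j ∉ E := by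
  by_contra hcon
  push Not at hcon
  have hn : (0 : ℝ) < Fintype.card V := by exact_mod_cast hV
  have hsub : S ⊆ univ.filter fun w : Fin r → V => ∃ i, w i ∈ E := fun x hx =>
    mem_filter.mpr ⟨mem_univ _, hcon x hx⟩
  have h1 : (S.card : ℝ) ≤ ((univ.filter fun w : Fin r → V => ∃ i, w i ∈ E).card : ℝ) := by
    exact_mod_cast card_le_card hsub
  have h2 := card_touch (r := r) E
  have h3 := mul_le_mul_of_nonneg_right h1 hn.le
  have h4 := mul_le_mul_of_nonneg_right hS hn.le
  have hp : (0 : ℝ) < (Fintype.card V : ℝ) ^ r := by positivity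
  have h5 := mul_lt_mul_of_pos_right hE hp
  have h2' : ((univ.filter fun w : Fin r → V => ∃ i, w i ∈ E).card : ℝ) * Fintype.card V ≤
      r * E.card * (Fintype.card V : ℝ) ^ r := by
    convert h2 using 3
  have h6 : t * (Fintype.card V : ℝ) ^ r * Fintype.card V =
      t * Fintype.card V * (Fintype.card V : ℝ) ^ r := by ring
  linarith

open Classical in
private theorem avoid_fix (hr : 2 ≤ r) (hV : 0 < Fintype.card V) (S : Finset (Fin r → V))
    (E : Finset V) (a : Fin r) (v : V) (t : ℝ)
    (hS : t * (Fintype.card V : ℝ) ^ (r - 1) ≤ (S.card : ℝ)) (hSv : ∀ w ∈ S, w a = v)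
    (hE : (r : ℝ) * E.card < t * Fintype.card V) : ∃ w ∈ S, ∀ j, j ≠ a → w j ∉ E := by
  by_contra hcon
  push Not at hcon
  have hn : (0 : ℝ) < Fintype.card V := by exact_mod_cast hV
  have h0 : S.card * Fintype.card V ≤
      (univ.filter fun w : Fin r → V => ∃ i, w i ∈ E).card := by
    rw [← card_univ, ← card_product]
    apply card_le_card_of_injOn (fun q : (Fin r → V) × V => Function.update q.1 a q.2)
    · intro q hq
      rw [mem_coe, mem_product] at hq
      rw [mem_coe]
      obtain ⟨j, hj, hj'⟩ := hcon _ hq.1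
      refine mem_filter.mpr ⟨mem_univ _, j, ?_⟩
      simp only [Function.update_of_ne hj]
      exact hj'
    · intro p hp q hq hpq
      rw [mem_coe, mem_product] at hp hq
      have hpq' : Function.update p.1 a p.2 = Function.update q.1 a q.2 := hpq
      have e1 : p.2 = q.2 := by
        have := congrFun hpq' a
        simpa using this
      have e2 : p.1 = q.1 := by
        funext j
        by_cases hj : j = a
        · subst hj
          rw [hSv _ hp.1, hSv _ hq.1]
        · have := congrFun hpq' j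
          simpa [hj] using this
      exact Prod.ext e2 e1
  have h1 : (S.card : ℝ) * Fintype.card V ≤
      ((univ.filter fun w : Fin r → V => ∃ i, w i ∈ E).card : ℝ) := by
    exact_mod_cast h0
  have h2' : ((univ.filter fun w : Fin r → V => ∃ i, w i ∈ E).card : ℝ) * Fintype.card V ≤
      r * E.card * (Fintype.card V : ℝ) ^ r := by
    convert card_touch (r := r) E using 3
  have h3 := mul_le_mul_of_nonneg_right h1 hn.le
  have h4 := mul_le_mul_of_nonneg_right hS (mul_pos hn hn).le
  have hp : (0 : ℝ) < (Fintype.card V : ℝ) ^ r := by positivity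
  have h5 := mul_lt_mul_of_pos_right hE hp
  have e1 : (Fintype.card V : ℝ) ^ r = (Fintype.card V : ℝ) ^ (r - 1) * Fintype.card V := by
    rw [← pow_succ]
    congr 1
    omega
  have h6 : t * (Fintype.card V : ℝ) ^ (r - 1) * (Fintype.card V * Fintype.card V) =
      t * Fintype.card V * (Fintype.card V : ℝ) ^ r := by
    rw [e1]
    ring
  linarith

omit [Fintype V] [DecidableEq V] in
private theorem pat_pats {ro : V → Fin 5} {P : Finset (Fin r)} {x : Fin r → V}
    (h : Pat ro P x) : PatS ro P x := by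
  intro j
  constructor
  · intro hj
    left
    have := h j
    rwa [if_pos hj] at this
  · intro hj
    left
    have := h j
    rwa [if_neg hj] at this

omit [Fintype V] [DecidableEq V] in
private theorem pat_role {ro : V → Fin 5} {P : Finset (Fin r)} {x : Fin r → V}
    (h : Pat ro P x) (j : Fin r) : ro (x j) = 0 ∨ ro (x j) = 1 := by
  have := h j
  by_cases hj : j ∈ P
  · rw [if_pos hj] at this
    exact Or.inl this
  · rw [if_neg hj] at this
    exact Or.inr this

end

open Classical in
theorem insertion {V : Type} [Fintype V] [DecidableEq V] {r i : ℕ} (hr : 2 ≤ r)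
    {c : Finset V → Bool} {ro : V → Fin 5} {ξ ζ ν ν' ζ₂ ζ₃ ω : ℝ} (h : Ctx r i c ro ξ ζ ν ν')
    (hν' : 0 < ν') (hV : 0 < Fintype.card V) {P : Finset (Fin r)} (hP : P.card = i)
    (hG : ((univ.filter fun x => Pat ro P x ∧ x ∉ Gd c ro P ζ₂).card : ℝ) ≤
      ζ₃ * (Fintype.card V : ℝ) ^ r) (hζ₃ : ζ₃ ≤ ν' / (4 * r)) (hζ₂ : ζ₂ ≤ kap r / 4)
    (hω : ω ≤ nu2 r ν') (hω' : ω ≤ kap r / 2) (v : V) (hv : ro v = 2 ∨ ro v = 3)
    (F : Finset V) (hvF : v ∉ F) (hF : (r : ℝ) * (F.card + 3 * r) < ω * Fintype.card V)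
    (u : Fin r → V) (hu : u ∈ Gd c ro P ζ₂) :
    ∃ m x w y : Fin r → V, Adj c u m ∧ [m, x, w, y].IsChain (Adj c) ∧ y ∈ Gd c ro P ζ₂ ∧
      (∀ t ∈ [m, x, w, y], Col c true t ∧ PatS ro P t) ∧ v ∈ vs [m, x, w, y] ∧
      (vs [m, x, w, y]).Nodup ∧
      ∀ v' ∈ vs [m, x, w, y], v' ∉ F ∧ (v' = v ∨ ro v' = 0 ∨ ro v' = 1) := by
  have hn : (0 : ℝ) < Fintype.card V := by exact_mod_cast hV
  have hr0 : (0 : ℝ) < r := by
    have : 0 < r := by omega
    exact_mod_cast this
  have hωn : ω * Fintype.card V ≤ nu2 r ν' * Fintype.card V :=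
    mul_le_mul_of_nonneg_right hω hn.le
  have hωn' : ω * Fintype.card V ≤ kap r / 2 * Fintype.card V :=
    mul_le_mul_of_nonneg_right hω' hn.le
  obtain ⟨a, ha⟩ : ∃ a : Fin r, (ro v = 2 ∧ a ∈ P) ∨ (ro v = 3 ∧ a ∉ P) := by
    rcases hv with h2 | h3
    · have : 0 < P.card := by
        rw [hP]
        exact h.hi.1
      obtain ⟨a, ha⟩ := card_pos.mp this
      exact ⟨a, Or.inl ⟨h2, ha⟩⟩
    · have hi : i < r := by
        rcases h.hi.2.lt_or_eq with h' | h'
        · exact h'
        · exact absurd h3 (h.top h' v).2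
      by_contra hcon
      push Not at hcon
      have hu : P = univ := by
        ext a
        simp only [mem_univ, iff_true]
        exact (hcon a).2 h3
      rw [hu, card_univ, Fintype.card_fin] at hP
      omega
  have hrt := role_tuples hr h hν' hV hP hG hζ₃ a v ha
  have hcF : (r : ℝ) * F.card < nu2 r ν' * Fintype.card V := by
    nlinarith
  obtain ⟨w, hwm, hwF⟩ := avoid_fix hr hV _ F a v _ hrt
    (fun w hw => (mem_filter.mp hw).2.2.1) hcF
  obtain ⟨hw1, hw2, hw3, hw4⟩ := (mem_filter.mp hwm).2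
  have himg : ∀ t : Fin r → V, (univ.image t).card ≤ r := by
    intro t
    refine card_image_le.trans ?_
    rw [card_univ, Fintype.card_fin]
  -- `x`
  have hE1 : (r : ℝ) * ((F ∪ univ.image w).card : ℝ) < nu2 r ν' * Fintype.card V := by
    have h1 : (F ∪ univ.image w).card ≤ F.card + r :=
      (card_union_le _ _).trans (Nat.add_le_add_left (himg w) _)
    have h2 : ((F ∪ univ.image w).card : ℝ) ≤ F.card + r := by exact_mod_cast h1
    nlinarith
  obtain ⟨x, hxm, hxE⟩ := avoid_count hV _ _ _ hw4 hE1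
  obtain ⟨hx1, hx2⟩ := mem_filter.mp hxm
  -- `y`
  have hE2 : (r : ℝ) * ((F ∪ univ.image w ∪ univ.image x).card : ℝ) <
      nu2 r ν' * Fintype.card V := by
    have h1 : (F ∪ univ.image w ∪ univ.image x).card ≤ F.card + r + r :=
      (card_union_le _ _).trans (Nat.add_le_add ((card_union_le _ _).trans
        (Nat.add_le_add_left (himg w) _)) (himg x))
    have h2 : ((F ∪ univ.image w ∪ univ.image x).card : ℝ) ≤ F.card + r + r := by
      exact_mod_cast h1
    nlinarith
  obtain ⟨y, hym, hyE⟩ := avoid_count hV _ _ _ hw4 hE2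
  obtain ⟨hy1, hy2⟩ := mem_filter.mp hym
  -- `m`
  have hE3 : (r : ℝ) * ((F ∪ univ.image w ∪ univ.image x ∪ univ.image y).card : ℝ) <
      kap r / 2 * Fintype.card V := by
    have h1 : (F ∪ univ.image w ∪ univ.image x ∪ univ.image y).card ≤ F.card + r + r + r :=
      (card_union_le _ _).trans (Nat.add_le_add ((card_union_le _ _).trans
        (Nat.add_le_add ((card_union_le _ _).trans (Nat.add_le_add_left (himg w) _))
          (himg x))) (himg y))
    have h2 : ((F ∪ univ.image w ∪ univ.image x ∪ univ.image y).card : ℝ) ≤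
        F.card + r + r + r := by
      exact_mod_cast h1
    nlinarith
  obtain ⟨m, hmm, hmE⟩ := avoid_count hV _ _ _
    (mid_count (by omega) h hζ₂ hP hu hx1) hE3
  obtain ⟨hm1, hm2, hm3⟩ := (mem_filter.mp hmm).2
  have hcu : Col c true u := (mem_filter.mp hu).2.2.1
  have hcx : Col c true x := (mem_filter.mp hx1).2.2.1
  have hcy : Col c true y := (mem_filter.mp hy1).2.2.1
  have hpx : Pat ro P x := (mem_filter.mp hx1).2.1
  have hpy : Pat ro P y := (mem_filter.mp hy1).2.1
  have hcm : Col c true m := by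
    obtain ⟨κ, h1, h2⟩ := hm2.col
    rw [h1.unique hcu] at h2
    exact h2
  -- avoidance
  have hxF : ∀ j, x j ∉ F := fun j hj => hxE j (mem_union_left _ hj)
  have hxw : ∀ j k, x j ≠ w k := fun j k hjk =>
    hxE j (mem_union_right _ (mem_image.mpr ⟨k, mem_univ _, hjk.symm⟩))
  have hyF : ∀ j, y j ∉ F := fun j hj =>
    hyE j (mem_union_left _ (mem_union_left _ hj))
  have hyw : ∀ j k, y j ≠ w k := fun j k hjk =>
    hyE j (mem_union_left _ (mem_union_right _ (mem_image.mpr ⟨k, mem_univ _, hjk.symm⟩)))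
  have hyx : ∀ j k, y j ≠ x k := fun j k hjk =>
    hyE j (mem_union_right _ (mem_image.mpr ⟨k, mem_univ _, hjk.symm⟩))
  have hmF : ∀ j, m j ∉ F := fun j hj =>
    hmE j (mem_union_left _ (mem_union_left _ (mem_union_left _ hj)))
  have hmw : ∀ j k, m j ≠ w k := fun j k hjk =>
    hmE j (mem_union_left _ (mem_union_left _ (mem_union_right _
      (mem_image.mpr ⟨k, mem_univ _, hjk.symm⟩))))
  have hmx : ∀ j k, m j ≠ x k := fun j k hjk =>
    hmE j (mem_union_left _ (mem_union_right _ (mem_image.mpr ⟨k, mem_univ _, hjk.symm⟩)))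
  have hmy : ∀ j k, m j ≠ y k := fun j k hjk =>
    hmE j (mem_union_right _ (mem_image.mpr ⟨k, mem_univ _, hjk.symm⟩))
  have hwF' : ∀ j, w j ∉ F := by
    intro j
    by_cases hj : j = a
    · rw [hj, hw2]
      exact hvF
    · exact hwF j hj
  have hpw : PatS ro P w := by
    intro j
    by_cases hj : j = a
    · subst hj
      rw [hw2]
      rcases ha with ⟨h2, hjP⟩ | ⟨h3, hjP⟩
      · exact ⟨fun _ => Or.inr h2, fun h' => absurd hjP h'⟩
      · exact ⟨fun h' => absurd h' hjP, fun _ => Or.inr h3⟩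
    · have := hw1 j hj
      constructor
      · intro hjP
        left
        rwa [if_pos hjP] at this
      · intro hjP
        left
        rwa [if_neg hjP] at this
  have hrw : ∀ j, w j = v ∨ ro (w j) = 0 ∨ ro (w j) = 1 := by
    intro j
    by_cases hj : j = a
    · rw [hj]
      exact Or.inl hw2
    · right
      have := hw1 j hj
      by_cases hjP : j ∈ P
      · rw [if_pos hjP] at this
        exact Or.inl this
      · rw [if_neg hjP] at this
        exact Or.inr this
  refine ⟨m, x, w, y, hm2, ?_, hy1, ?_, ?_, ?_, ?_⟩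
  · simp only [List.isChain_cons_cons, List.isChain_singleton, and_true]
    exact ⟨hm3, hx2.symm, hy2⟩
  · intro t ht
    simp only [List.mem_cons, List.not_mem_nil, or_false] at ht
    rcases ht with rfl | rfl | rfl | rfl
    · exact ⟨hcm, pat_pats hm1⟩
    · exact ⟨hcx, pat_pats hpx⟩
    · exact ⟨hw3, hpw⟩
    · exact ⟨hcy, pat_pats hpy⟩
  · exact mem_vs.mpr ⟨w, by simp, a, hw2⟩
  · rw [nodup_vs_iff]
    constructor
    · intro t ht
      simp only [List.mem_cons, List.not_mem_nil, or_false] at ht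
      rcases ht with rfl | rfl | rfl | rfl
      · exact hcm.1
      · exact hcx.1
      · exact hw3.1
      · exact hcy.1
    · simp only [List.pairwise_cons, List.mem_cons, List.not_mem_nil, or_false,
        forall_eq_or_imp, forall_eq, false_implies, implies_true, List.Pairwise.nil, and_true]
      exact ⟨⟨hmx, hmw, hmy⟩, ⟨hxw, fun j k hjk => hyx k j hjk.symm⟩,
        fun j k hjk => hyw k j hjk.symm⟩
  · intro v' hv'
    obtain ⟨t, ht, j, rfl⟩ := mem_vs.mp hv'
    simp only [List.mem_cons, List.not_mem_nil, or_false] at ht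
    rcases ht with rfl | rfl | rfl | rfl
    · exact ⟨hmF j, Or.inr (pat_role hm1 j)⟩
    · exact ⟨hxF j, Or.inr (pat_role hpx j)⟩
    · exact ⟨hwF' j, hrw j⟩
    · exact ⟨hyF j, Or.inr (pat_role hpy j)⟩

end Pool.Agent.Lib.TwoPaths
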