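import Pool.Agent.Lib.TwoPaths.X3

/-!
# X9a: greedy choice of tuples for a word of letters

PROOF.  `n = |V|`.  For consecutive letters `ℓ, ℓ'` call `x` with `InL ro ℓ x` *bad for `ℓ'`* if more than
`σ n^(dL ℓ')` tuples `y` of `ℓ'` have `¬ PAdj c false x y`; by `pairs_markov` at most
`σ n^(dL ℓ)` tuples of `ℓ` are bad for `ℓ'`.
Claim, by induction on the word `ls`: for every finite set `F` of used vertices with
`r (|F| + r |ls|) ≤ (k0/4) n` which does not contain the vertices `γ` with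
`ℓ.1 = some γ`, `ℓ ∈ ls`, and (optionally) a previous tuple `x₀` for which at most `σ n^(dL ℓ)` tuples `y` of
the first letter `ℓ` of `ls` have `¬ PAdj c false x₀ y`, there is `Bl` as required avoiding `F`, with
`PAdj c false x₀ (head)` in the optional case.
Step: `ls = ℓ :: ls'`.  Among the at least `k0 n^(dL ℓ)` tuples `x` of `ℓ` discard those which are
not `Col c false` (`≤ σ n^(dL ℓ)`), those which are bad for the first letter of `ls'` (`≤ σ n^(dL ℓ)`),
those with `¬ PAdj c false x₀ x` (`≤ σ n^(dL ℓ)`), and those with a free coordinate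
in `F` (at most `r |F| n^(dL ℓ - 1) ≤ (k0/4) n^(dL ℓ)`; here `dL ℓ ≥ 1` because `r ≥ 2`): since
`3 σ + k0/4 < k0` some `x` remains.  If `ℓ.1 = some γ` then `x 0 = γ ∉ F`.  Apply the induction
hypothesis with `F ∪ (entries of x)` and `x₀ := x`.  The vertices `γ'` of the later letters are not
entries of `x`: they have role `4`, the free entries of `x` have role `0` or `1`, and `γ' ≠ γ` (`hγ`).
-/

namespace Pool.Agent.Lib.TwoPaths

open Finset
open Pool.Agent.Lib.MP_952639_co

open Classical in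
/-- the tuples with the fixed coordinate of the letter. -/
private noncomputable def TL {V : Type} [Fintype V] [DecidableEq V] {r : ℕ} (ℓ : Letter V r) :
    Finset (Fin r → V) :=
  univ.filter fun x => ∀ j : Fin r, (j : ℕ) = 0 ∧ ℓ.1 ≠ none → ℓ.1 = some (x j)

open Classical in
private theorem card_TL {V : Type} [Fintype V] [DecidableEq V] {r : ℕ} (hr : 2 ≤ r)
    (ℓ : Letter V r) : (TL ℓ).card ≤ Fintype.card V ^ dL ℓ := by
  unfold TL dL
  rcases h : ℓ.1 with _ | γ
  · simp [Finset.card_univ]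
  · have e : (univ.filter fun x : Fin r → V => ∀ j : Fin r, (j : ℕ) = 0 ∧ (some γ : Option V) ≠ none →
        (some γ : Option V) = some (x j)) ⊆
        univ.filter fun x : Fin r → V => x ⟨0, by omega⟩ = γ := by
      intro x hx
      rw [mem_filter] at hx ⊢
      refine ⟨mem_univ _, ?_⟩
      have := hx.2 ⟨0, by omega⟩ ⟨rfl, by simp⟩
      exact (Option.some.inj this).symm
    refine (card_le_card e).trans ?_
    rw [card_fix]
    simp

open Classical in
private theorem hit_one {V : Type} [Fintype V] [DecidableEq V] {r : ℕ} (hr : 2 ≤ r)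
    (ro : V → Fin 5) (ℓ : Letter V r) (j : Fin r) (hj : ¬ ((j : ℕ) = 0 ∧ ℓ.1 ≠ none)) (v : V) :
    (univ.filter fun x => InL ro ℓ x ∧ x j = v).card * Fintype.card V ≤
      Fintype.card V ^ dL ℓ := by
  refine le_trans ?_ (card_TL hr ℓ)
  rw [← Finset.card_univ (α := V), ← Finset.card_product]
  refine Finset.card_le_card_of_injOn (fun p => Function.update p.1 j p.2) ?_ ?_
  · intro p hp
    rw [Finset.mem_coe, Finset.mem_product, mem_filter] at hp
    rw [Finset.mem_coe, TL, mem_filter]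
    refine ⟨mem_univ _, fun j' hj' => ?_⟩
    have hne : j' ≠ j := by rintro rfl; exact hj hj'
    have h1 := hp.1.2.1 j'
    rw [if_pos hj'] at h1
    simpa [Function.update_of_ne hne] using h1
  · intro p hp q hq hpq
    rw [Finset.mem_coe, Finset.mem_product, mem_filter] at hp hq
    have h1 : p.2 = q.2 := by
      have := congrFun hpq j
      simpa using this
    have h2 : p.1 = q.1 := by
      funext j'
      by_cases h : j' = j
      · rw [h, hp.1.2.2, hq.1.2.2]
      · have := congrFun hpq j'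
        simpa [Function.update_of_ne h] using this
    exact Prod.ext h2 h1

open Classical in
private theorem hit_all {V : Type} [Fintype V] [DecidableEq V] {r : ℕ} (hr : 2 ≤ r)
    (ro : V → Fin 5) (ℓ : Letter V r) (F : Finset V) :
    (univ.filter fun x => InL ro ℓ x ∧
      ∃ j : Fin r, ¬ ((j : ℕ) = 0 ∧ ℓ.1 ≠ none) ∧ x j ∈ F).card * Fintype.card V ≤
      r * F.card * Fintype.card V ^ dL ℓ := by
  have hsub : (univ.filter fun x => InL ro ℓ x ∧
      ∃ j : Fin r, ¬ ((j : ℕ) = 0 ∧ ℓ.1 ≠ none) ∧ x j ∈ F) ⊆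
      (univ.filter fun j : Fin r => ¬ ((j : ℕ) = 0 ∧ ℓ.1 ≠ none)).biUnion fun j =>
        F.biUnion fun v => univ.filter fun x => InL ro ℓ x ∧ x j = v := by
    intro x hx
    rw [mem_filter] at hx
    obtain ⟨_, h1, j, hj, hF⟩ := hx
    simp only [mem_biUnion, mem_filter, mem_univ, true_and]
    exact ⟨j, hj, x j, hF, h1, rfl⟩
  calc (univ.filter fun x => InL ro ℓ x ∧
      ∃ j : Fin r, ¬ ((j : ℕ) = 0 ∧ ℓ.1 ≠ none) ∧ x j ∈ F).card * Fintype.card V
      ≤ (∑ j ∈ univ.filter fun j : Fin r => ¬ ((j : ℕ) = 0 ∧ ℓ.1 ≠ none),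
          ∑ v ∈ F, (univ.filter fun x => InL ro ℓ x ∧ x j = v).card) * Fintype.card V := by
        refine Nat.mul_le_mul_right _ ((card_le_card hsub).trans (card_biUnion_le.trans ?_))
        exact Finset.sum_le_sum fun j _ => card_biUnion_le
    _ = ∑ j ∈ univ.filter fun j : Fin r => ¬ ((j : ℕ) = 0 ∧ ℓ.1 ≠ none),
          ∑ v ∈ F, (univ.filter fun x => InL ro ℓ x ∧ x j = v).card * Fintype.card V := by
        rw [Finset.sum_mul]
        exact Finset.sum_congr rfl fun j _ => Finset.sum_mul _ _ _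
    _ ≤ ∑ j ∈ univ.filter fun j : Fin r => ¬ ((j : ℕ) = 0 ∧ ℓ.1 ≠ none),
          ∑ _v ∈ F, Fintype.card V ^ dL ℓ := by
        refine Finset.sum_le_sum fun j hj => Finset.sum_le_sum fun v _ => ?_
        exact hit_one hr ro ℓ j (mem_filter.mp hj).2 v
    _ ≤ r * F.card * Fintype.card V ^ dL ℓ := by
        rw [Finset.sum_const, Finset.sum_const, smul_eq_mul, smul_eq_mul, ← mul_assoc]
        refine Nat.mul_le_mul_right _ (Nat.mul_le_mul_right _ ?_)
        exact (card_le_univ _).trans (by simp)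

open Classical in
/-- badness for the first letter of a word. -/
private def NB {V : Type} [Fintype V] [DecidableEq V] {r : ℕ} (c : Finset V → Bool)
    (ro : V → Fin 5) (σ : ℝ) (ls : List (Letter V r)) (x : Fin r → V) : Prop :=
  ∃ ℓ' ls', ls = ℓ' :: ls' ∧ σ * (Fintype.card V : ℝ) ^ dL ℓ' <
    ((univ.filter fun y => InL ro ℓ' y ∧ ¬ PAdj c false x y).card : ℝ)

open Classical in
private theorem greedy_aux {V : Type} [Fintype V] [DecidableEq V] {r : ℕ} (hr : 2 ≤ r)
    (c : Finset V → Bool) (ro : V → Fin 5) (k0 σ : ℝ) (hσ : 0 < σ) (hσk : 8 * σ ≤ k0)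
    (hV : 0 < Fintype.card V) (ls : List (Letter V r)) :
    (∀ ℓ ∈ ls, k0 * (Fintype.card V : ℝ) ^ dL ℓ ≤
      ((univ.filter fun x => InL ro ℓ x).card : ℝ)) →
    (∀ ℓ ∈ ls, ((univ.filter fun x => InL ro ℓ x ∧ ¬ Col c false x).card : ℝ) ≤
      σ * (Fintype.card V : ℝ) ^ dL ℓ) →
    (ls.IsChain fun ℓ ℓ' => ((univ.filter fun p : (Fin r → V) × (Fin r → V) =>
      InL ro ℓ p.1 ∧ InL ro ℓ' p.2 ∧ ¬ PAdj c false p.1 p.2).card : ℝ) ≤
      σ ^ 2 * (Fintype.card V : ℝ) ^ (dL ℓ + dL ℓ')) →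
    (ls.filterMap Prod.fst).Nodup → (∀ ℓ ∈ ls, ∀ γ, ℓ.1 = some γ → ro γ = 4) →
    ∀ (F : Finset V), (r : ℝ) * (F.card + r * ls.length) ≤ k0 / 4 * Fintype.card V →
    (∀ ℓ ∈ ls, ∀ γ, ℓ.1 = some γ → γ ∉ F) →
    ∀ prev : Option (Fin r → V), (∀ x₀, prev = some x₀ → ¬ NB c ro σ ls x₀) →
    ∃ Bl : List (Fin r → V), List.Forall₂ (InL ro) ls Bl ∧ Bl.IsChain (PAdj c false) ∧
      (∀ x ∈ Bl, Col c false x) ∧ (vs Bl).Nodup ∧ (∀ v ∈ vs Bl, v ∉ F) ∧
      (∀ x₀, prev = some x₀ → ∀ y ∈ Bl.head?, PAdj c false x₀ y) := by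
  induction ls with
  | nil =>
    intro _ _ _ _ _ F _ _ prev _
    exact ⟨[], List.Forall₂.nil, List.IsChain.nil, by simp, by simp [vs], by simp [vs], by simp⟩
  | cons ℓ ls ih =>
    intro hsz hcol htr hγ hγ4 F hF hγF prev hprev
    set n : ℝ := (Fintype.card V : ℝ) with hn
    have hn0 : 0 < n := by rw [hn]; exact_mod_cast hV
    have hpow : 0 < n ^ dL ℓ := pow_pos hn0 _
    have hr0 : (0 : ℝ) < r := by exact_mod_cast (by omega : 0 < r)
    -- the four discarded sets
    have b1 := hcol ℓ (by simp)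
    have b2 : ((univ.filter fun x => InL ro ℓ x ∧ NB c ro σ ls x).card : ℝ) ≤ σ * n ^ dL ℓ := by
      rcases ls with _ | ⟨ℓ', ls'⟩
      · have : (univ.filter fun x : Fin r → V => InL ro ℓ x ∧ NB c ro σ [] x) = ∅ := by
          rw [Finset.filter_eq_empty_iff]
          rintro x _ ⟨_, ℓ', ls', h, _⟩
          exact absurd h (by simp)
        rw [this]; simp; positivity
      · have h1 := (List.isChain_cons_cons.mp htr).1
        have hpow' : 0 < n ^ dL ℓ' := pow_pos hn0 _
        have := pairs_markov (fun x y => InL ro ℓ' y ∧ ¬ PAdj c false x y)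
          (univ.filter fun x => InL ro ℓ x) (σ * n ^ dL ℓ')
          (σ ^ 2 * n ^ (dL ℓ + dL ℓ')) (mul_pos hσ hpow') (by
            refine le_trans (le_of_eq ?_) h1
            congr 1
            refine congrArg Finset.card ?_
            ext p; simp)
        refine le_trans (le_trans (le_of_eq ?_) this) (le_of_eq ?_)
        · congr 1
          refine congrArg Finset.card ?_
          ext x
          simp only [mem_filter, mem_univ, true_and, NB]
          constructor
          · rintro ⟨h, ℓ2, ls2, he, hlt⟩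
            obtain ⟨rfl, rfl⟩ := List.cons.inj he
            exact ⟨h, by convert hlt⟩
          · rintro ⟨h, hlt⟩
            exact ⟨h, ℓ', ls', rfl, by convert hlt⟩
        · rw [pow_add]; field_simp
    have b3 : ((univ.filter fun x => InL ro ℓ x ∧ ∃ x₀, prev = some x₀ ∧
        ¬ PAdj c false x₀ x).card : ℝ) ≤ σ * n ^ dL ℓ := by
      rcases prev with _ | x₀
      · have : (univ.filter fun x : Fin r → V => InL ro ℓ x ∧
            ∃ x₀, (none : Option (Fin r → V)) = some x₀ ∧ ¬ PAdj c false x₀ x) = ∅ := by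
          rw [Finset.filter_eq_empty_iff]
          rintro x _ ⟨_, x₀, h, _⟩
          exact absurd h (by simp)
        rw [this]; simp; positivity
      · have h0 := hprev x₀ rfl
        have h1 : ((univ.filter fun y => InL ro ℓ y ∧ ¬ PAdj c false x₀ y).card : ℝ) ≤
            σ * n ^ dL ℓ := by
          by_contra hlt
          exact h0 ⟨ℓ, ls, rfl, not_le.mp hlt⟩
        refine le_trans (le_of_eq ?_) h1
        congr 1
        refine congrArg Finset.card ?_
        ext x
        simp only [mem_filter, mem_univ, true_and, Option.some.injEq]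
        constructor
        · rintro ⟨h, x1, rfl, h2⟩; exact ⟨h, h2⟩
        · rintro ⟨h, h2⟩; exact ⟨h, x₀, rfl, h2⟩
    have b4 : ((univ.filter fun x => InL ro ℓ x ∧
        ∃ j : Fin r, ¬ ((j : ℕ) = 0 ∧ ℓ.1 ≠ none) ∧ x j ∈ F).card : ℝ) ≤ k0 / 4 * n ^ dL ℓ := by
      have h1 : ((univ.filter fun x => InL ro ℓ x ∧
        ∃ j : Fin r, ¬ ((j : ℕ) = 0 ∧ ℓ.1 ≠ none) ∧ x j ∈ F).card : ℝ) * n ≤
          r * F.card * n ^ dL ℓ := by
        have h := (Nat.cast_le (α := ℝ)).mpr (hit_all hr ro ℓ F)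
        rw [Nat.cast_mul, Nat.cast_mul, Nat.cast_mul, Nat.cast_pow] at h
        exact h
      have h2 : (r : ℝ) * F.card ≤ k0 / 4 * n := by
        refine le_trans ?_ hF
        have : (0 : ℝ) ≤ r * (ℓ :: ls).length := by positivity
        nlinarith
      have h3 : ((univ.filter fun x => InL ro ℓ x ∧
        ∃ j : Fin r, ¬ ((j : ℕ) = 0 ∧ ℓ.1 ≠ none) ∧ x j ∈ F).card : ℝ) * n ≤
          (k0 / 4 * n ^ dL ℓ) * n := by
        refine h1.trans ?_
        calc (r : ℝ) * F.card * n ^ dL ℓ ≤ k0 / 4 * n * n ^ dL ℓ :=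
              mul_le_mul_of_nonneg_right h2 hpow.le
          _ = (k0 / 4 * n ^ dL ℓ) * n := by ring
      exact le_of_mul_le_mul_right h3 hn0
    -- some x remains
    obtain ⟨x, hxL, hxc, hxn, hxp, hxF⟩ : ∃ x, InL ro ℓ x ∧ Col c false x ∧ ¬ NB c ro σ ls x ∧
        (∀ x₀, prev = some x₀ → PAdj c false x₀ x) ∧
        (∀ j : Fin r, ¬ ((j : ℕ) = 0 ∧ ℓ.1 ≠ none) → x j ∉ F) := by
      by_contra hcon
      push Not at hcon
      have hsub : (univ.filter fun x => InL ro ℓ x) ⊆
          (univ.filter fun x => InL ro ℓ x ∧ ¬ Col c false x) ∪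
          (univ.filter fun x => InL ro ℓ x ∧ NB c ro σ ls x) ∪
          (univ.filter fun x => InL ro ℓ x ∧ ∃ x₀, prev = some x₀ ∧ ¬ PAdj c false x₀ x) ∪
          (univ.filter fun x => InL ro ℓ x ∧
            ∃ j : Fin r, ¬ ((j : ℕ) = 0 ∧ ℓ.1 ≠ none) ∧ x j ∈ F) := by
        intro x hx
        have hx' := (mem_filter.mp hx).2
        simp only [mem_union, mem_filter, mem_univ, true_and]
        by_cases h1 : Col c false x
        · by_cases h2 : NB c ro σ ls x
          · exact Or.inl (Or.inl (Or.inr ⟨hx', h2⟩))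
          · by_cases h3 : ∀ x₀, prev = some x₀ → PAdj c false x₀ x
            · obtain ⟨j, hj, hjF⟩ := hcon x hx' h1 h2 h3
              exact Or.inr ⟨hx', j, (by tauto), hjF⟩
            · push Not at h3
              obtain ⟨x₀, h4, h5⟩ := h3
              exact Or.inl (Or.inr ⟨hx', x₀, h4, h5⟩)
        · exact Or.inl (Or.inl (Or.inl ⟨hx', h1⟩))
      have hle : ((univ.filter fun x => InL ro ℓ x).card : ℝ) ≤
          ((univ.filter fun x => InL ro ℓ x ∧ ¬ Col c false x).card : ℝ) +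
          ((univ.filter fun x => InL ro ℓ x ∧ NB c ro σ ls x).card : ℝ) +
          ((univ.filter fun x => InL ro ℓ x ∧ ∃ x₀, prev = some x₀ ∧
            ¬ PAdj c false x₀ x).card : ℝ) +
          ((univ.filter fun x => InL ro ℓ x ∧
            ∃ j : Fin r, ¬ ((j : ℕ) = 0 ∧ ℓ.1 ≠ none) ∧ x j ∈ F).card : ℝ) := by
        have h1 := card_le_card hsub
        have h2 := card_union_le ((univ.filter fun x => InL ro ℓ x ∧ ¬ Col c false x) ∪
          (univ.filter fun x => InL ro ℓ x ∧ NB c ro σ ls x) ∪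
          (univ.filter fun x => InL ro ℓ x ∧ ∃ x₀, prev = some x₀ ∧ ¬ PAdj c false x₀ x))
          (univ.filter fun x => InL ro ℓ x ∧
            ∃ j : Fin r, ¬ ((j : ℕ) = 0 ∧ ℓ.1 ≠ none) ∧ x j ∈ F)
        have h3 := card_union_le ((univ.filter fun x => InL ro ℓ x ∧ ¬ Col c false x) ∪
          (univ.filter fun x => InL ro ℓ x ∧ NB c ro σ ls x))
          (univ.filter fun x => InL ro ℓ x ∧ ∃ x₀, prev = some x₀ ∧ ¬ PAdj c false x₀ x)
        have h4 := card_union_le (univ.filter fun x => InL ro ℓ x ∧ ¬ Col c false x)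
          (univ.filter fun x => InL ro ℓ x ∧ NB c ro σ ls x)
        have hN := h1.trans (h2.trans (Nat.add_le_add_right (h3.trans
          (Nat.add_le_add_right h4 _)) _))
        have h := (Nat.cast_le (α := ℝ)).mpr hN
        rw [Nat.cast_add, Nat.cast_add, Nat.cast_add] at h
        exact h
      have h5 := hsz ℓ (by simp)
      have h6 : k0 * n ^ dL ℓ ≤ (3 * σ + k0 / 4) * n ^ dL ℓ := by
        calc k0 * n ^ dL ℓ ≤ _ := h5
          _ ≤ _ := hle
          _ ≤ σ * n ^ dL ℓ + σ * n ^ dL ℓ + σ * n ^ dL ℓ + k0 / 4 * n ^ dL ℓ := by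
              linarith
          _ = _ := by ring
      have h7 := le_of_mul_le_mul_right h6 hpow
      linarith
    -- induction hypothesis
    set F' : Finset V := F ∪ univ.image x with hF'
    have hcard : (F'.card : ℝ) ≤ F.card + r := by
      have h1 : F'.card ≤ F.card + r := by
        refine (card_union_le _ _).trans ?_
        have : (univ.image x).card ≤ r := card_image_le.trans (by simp)
        omega
      exact_mod_cast h1
    have hF2 : (r : ℝ) * (F'.card + r * ls.length) ≤ k0 / 4 * n := by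
      refine le_trans ?_ hF
      have e : ((ℓ :: ls).length : ℝ) = ls.length + 1 := by simp
      rw [e]
      refine mul_le_mul_of_nonneg_left ?_ hr0.le
      linarith
    have hγF' : ∀ ℓ' ∈ ls, ∀ γ, ℓ'.1 = some γ → γ ∉ F' := by
      intro ℓ' hℓ' γ hg
      rw [hF', mem_union, not_or]
      refine ⟨hγF ℓ' (by simp [hℓ']) γ hg, ?_⟩
      intro hmem
      obtain ⟨j, _, hj⟩ := mem_image.mp hmem
      have h4 := hγ4 ℓ' (by simp [hℓ']) γ hg
      have hj2 := hxL j
      by_cases hc : (j : ℕ) = 0 ∧ ℓ.1 ≠ none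
      · rw [if_pos hc] at hj2
        rw [hj] at hj2
        have hnd : (γ :: ls.filterMap Prod.fst).Nodup := by
          have := hγ
          rw [List.filterMap_cons_some hj2] at this
          exact this
        refine (List.nodup_cons.mp hnd).1 ?_
        rw [List.mem_filterMap]
        exact ⟨ℓ', hℓ', hg⟩
      · rw [if_neg hc, hj, h4] at hj2
        split_ifs at hj2 <;> exact absurd hj2 (by decide)
    have hγ' : (ls.filterMap Prod.fst).Nodup := by
      rcases h : ℓ.1 with _ | γ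
      · rw [List.filterMap_cons_none h] at hγ; exact hγ
      · rw [List.filterMap_cons_some h] at hγ; exact (List.nodup_cons.mp hγ).2
    obtain ⟨Bl, hB1, hB2, hB3, hB4, hB5, hB6⟩ := ih (fun ℓ' h => hsz ℓ' (by simp [h]))
      (fun ℓ' h => hcol ℓ' (by simp [h])) htr.of_cons hγ' (fun ℓ' h => hγ4 ℓ' (by simp [h]))
      F' hF2 hγF' (some x) (by rintro x₀ h; rw [← Option.some.inj h]; exact hxn)
    refine ⟨x :: Bl, List.Forall₂.cons hxL hB1, ?_, ?_, ?_, ?_, ?_⟩
    · rw [List.isChain_cons]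
      exact ⟨fun y hy => hB6 x rfl y hy, hB2⟩
    · intro y hy
      rcases List.mem_cons.mp hy with rfl | hy
      · exact hxc
      · exact hB3 y hy
    · have e : vs (x :: Bl) = List.ofFn x ++ vs Bl := by simp [vs]
      rw [e, List.nodup_append]
      refine ⟨List.nodup_ofFn.mpr hxc.1, hB4, ?_⟩
      intro a ha b hb hab
      subst hab
      obtain ⟨j, hj⟩ := List.mem_ofFn.mp ha
      refine hB5 a hb ?_
      rw [hF', mem_union]
      exact Or.inr (mem_image.mpr ⟨j, mem_univ _, hj⟩)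
    · intro v hv
      have e : vs (x :: Bl) = List.ofFn x ++ vs Bl := by simp [vs]
      rw [e, List.mem_append] at hv
      rcases hv with hv | hv
      · obtain ⟨j, hj⟩ := List.mem_ofFn.mp hv
        by_cases hc : (j : ℕ) = 0 ∧ ℓ.1 ≠ none
        · have hj2 := hxL j
          rw [if_pos hc, hj] at hj2
          exact hγF ℓ (by simp) v hj2
        · rw [← hj]; exact hxF j hc
      · have := hB5 v hv
        rw [hF', mem_union, not_or] at this
        exact this.1
    · intro x₀ h0 y hy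
      simp only [List.head?_cons, Option.mem_def, Option.some.injEq] at hy
      subst hy
      exact hxp x₀ h0

open Classical in
theorem greedy_letters {V : Type} [Fintype V] [DecidableEq V] {r : ℕ} (hr : 2 ≤ r)
    (c : Finset V → Bool) (ro : V → Fin 5) (k0 σ : ℝ) (hσ : 0 < σ) (hσk : 8 * σ ≤ k0)
    (hV : 0 < Fintype.card V) (ls : List (Letter V r))
    (hsz : ∀ ℓ ∈ ls, k0 * (Fintype.card V : ℝ) ^ dL ℓ ≤
      ((univ.filter fun x => InL ro ℓ x).card : ℝ))
    (hcol : ∀ ℓ ∈ ls, ((univ.filter fun x => InL ro ℓ x ∧ ¬ Col c false x).card : ℝ) ≤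
      σ * (Fintype.card V : ℝ) ^ dL ℓ)
    (htr : ls.IsChain fun ℓ ℓ' => ((univ.filter fun p : (Fin r → V) × (Fin r → V) =>
      InL ro ℓ p.1 ∧ InL ro ℓ' p.2 ∧ ¬ PAdj c false p.1 p.2).card : ℝ) ≤
      σ ^ 2 * (Fintype.card V : ℝ) ^ (dL ℓ + dL ℓ'))
    (hγ : (ls.filterMap Prod.fst).Nodup) (hγ4 : ∀ ℓ ∈ ls, ∀ γ, ℓ.1 = some γ → ro γ = 4)
    (hsize : (r : ℝ) * (r * ls.length) ≤ k0 / 4 * Fintype.card V) :
    ∃ Bl : List (Fin r → V), List.Forall₂ (InL ro) ls Bl ∧ Bl.IsChain (PAdj c false) ∧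
      (∀ x ∈ Bl, Col c false x) ∧ (vs Bl).Nodup := by
  obtain ⟨Bl, h1, h2, h3, h4, _⟩ := greedy_aux hr c ro k0 σ hσ hσk hV ls hsz hcol htr hγ hγ4 ∅
    (by simpa using hsize) (by simp) none (by simp)
  exact ⟨Bl, h1, h2, h3, h4⟩

end Pool.Agent.Lib.TwoPaths
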