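import Pool.Agent.Lib.TwoPaths.Defs

/-!
# The extremal case: definitions

Vertices have roles `ro v : Fin 5`: `0` typical vertex of `A`, `1` typical vertex of `B`, `2`
atypical vertex that can play the role of a vertex of `A` in red tuples, `3` the same for `B`, `4`
atypical vertex which is almost only in blue sets.
-/

namespace Pool.Agent.Lib.TwoPaths

open Finset
open Pool.Agent.Lib.MP_952639_co

/-- A lower bound for the density of a pattern. -/
noncomputable def kap (r : ℕ) : ℝ := (1 / (2 * (r : ℝ))) ^ r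

/-- The density of the tuples through an atypical vertex. -/
noncomputable def nu2 (r : ℕ) (ν' : ℝ) : ℝ := (ν' / (4 * r)) ^ (2 ^ r) / 2

section

variable {V : Type} [Fintype V] [DecidableEq V] {r : ℕ}

/-- `x` is a typical tuple of pattern `P`. -/
def Pat (ro : V → Fin 5) (P : Finset (Fin r)) (x : Fin r → V) : Prop :=
  ∀ j, ro (x j) = if j ∈ P then 0 else 1

/-- `x` is typical of pattern `P` outside coordinate `a`. -/
def PatOff (ro : V → Fin 5) (P : Finset (Fin r)) (a : Fin r) (x : Fin r → V) : Prop :=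
  ∀ j, j ≠ a → ro (x j) = if j ∈ P then 0 else 1

/-- `x` has effective pattern `P`. -/
def PatS (ro : V → Fin 5) (P : Finset (Fin r)) (x : Fin r → V) : Prop :=
  ∀ j, (j ∈ P → ro (x j) = 0 ∨ ro (x j) = 2) ∧ (j ∉ P → ro (x j) = 1 ∨ ro (x j) = 3)

/-- Number of vertices of role `k`. -/
def nro (ro : V → Fin 5) (k : Fin 5) : ℕ := (univ.filter fun v => ro v = k).card

/-- The weight. -/
def wtr (r i : ℕ) (ro : V → Fin 5) (v : V) : ℤ :=
  if ro v = 0 ∨ ro v = 2 then (r : ℤ) - i else if ro v = 1 ∨ ro v = 3 then -(i : ℤ) else 0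

open Classical in
/-- The extremal situation of type `i`. -/
structure Ctx (r i : ℕ) (c : Finset V → Bool) (ro : V → Fin 5) (ξ ζ ν ν' : ℝ) : Prop where
  hi : 1 ≤ i ∧ i ≤ r
  sizeA : (Fintype.card V : ℝ) / (2 * r) ≤ nro ro 0
  sizeB : i < r → (Fintype.card V : ℝ) / (2 * r) ≤ nro ro 1
  top : i = r → ∀ v, ro v ≠ 1 ∧ ro v ≠ 3
  few : ((nro ro 2 + nro ro 3 + nro ro 4 : ℕ) : ℝ) ≤ ξ * Fintype.card V
  bal : |(nro ro 0 : ℝ) - i * Fintype.card V / r| ≤ ξ * Fintype.card V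
  red : ∀ P : Finset (Fin r), P.card = i →
    ((univ.filter fun x => Pat ro P x ∧ ¬ Col c true x).card : ℝ) ≤
      ζ * (Fintype.card V : ℝ) ^ r
  redv : ∀ P : Finset (Fin r), P.card = i → ∀ (a : Fin r) (v : V),
    ((univ.filter fun x => Pat ro P x ∧ x a = v ∧ ¬ Col c true x).card : ℝ) ≤
      ζ * (Fintype.card V : ℝ) ^ (r - 1)
  blue : i < r → ∀ P : Finset (Fin r), (P.card + 1 = i ∨ P.card = i + 1) →
    ((univ.filter fun x => Pat ro P x ∧ ¬ Col c false x).card : ℝ) ≤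
      ζ * (Fintype.card V : ℝ) ^ r
  gam : ∀ v, ro v = 4 → ∀ (P : Finset (Fin r)) (a : Fin r), a ∉ P →
    (P.card + 1 = i ∨ P.card = i) →
    ((univ.filter fun x => PatOff ro P a x ∧ x a = v ∧ ¬ Col c false x).card : ℝ) ≤
      ν * (Fintype.card V : ℝ) ^ (r - 1)
  roleA : ∀ v, ro v = 2 → ∀ (P : Finset (Fin r)) (a : Fin r), P.card = i → a ∈ P →
    ν' * (Fintype.card V : ℝ) ^ (r - 1) ≤
      ((univ.filter fun x => PatOff ro P a x ∧ x a = v ∧ Col c true x).card : ℝ)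
  roleB : ∀ v, ro v = 3 → ∀ (P : Finset (Fin r)) (a : Fin r), P.card = i → a ∉ P →
    ν' * (Fintype.card V : ℝ) ^ (r - 1) ≤
      ((univ.filter fun x => PatOff ro P a x ∧ x a = v ∧ Col c true x).card : ℝ)

open Classical in
/-- Good tuples: typical of pattern `P`, of colour `true`, adjacent to almost all tuples of pattern
`P`. -/
noncomputable def Gd (c : Finset V → Bool) (ro : V → Fin 5) (P : Finset (Fin r)) (ζ₂ : ℝ) :
    Finset (Fin r → V) :=
  univ.filter fun x => Pat ro P x ∧ Col c true x ∧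
    ((univ.filter fun y => Pat ro P y ∧ ¬ Adj c x y).card : ℝ) ≤ ζ₂ * (Fintype.card V : ℝ) ^ r

/-- A letter: an optional vertex that has to be coordinate `0`, and a pattern. -/
abbrev Letter (V : Type) (r : ℕ) := Option V × Finset (Fin r)

/-- `x` is a tuple of the letter `ℓ`. -/
def InL (ro : V → Fin 5) (ℓ : Letter V r) (x : Fin r → V) : Prop :=
  ∀ j : Fin r, if (j : ℕ) = 0 ∧ ℓ.1 ≠ none then ℓ.1 = some (x j)
    else ro (x j) = if j ∈ ℓ.2 then 0 else 1

/-- Number of free coordinates. -/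
def dL (ℓ : Letter V r) : ℕ := if ℓ.1 = none then r else r - 1

/-- The letter of the mixtures with the coordinates `< j` of a tuple of `ℓ'` and the others of a
tuple of `ℓ`. -/
def mixL (ℓ ℓ' : Letter V r) (j : ℕ) : Letter V r :=
  (if j = 0 then ℓ.1 else ℓ'.1,
    univ.filter fun t : Fin r => ((t : ℕ) < j ∧ t ∈ ℓ'.2) ∨ (¬ (t : ℕ) < j ∧ t ∈ ℓ.2))

/-- Letters whose tuples are almost all blue. -/
def OkL (i : ℕ) (ro : V → Fin 5) (ℓ : Letter V r) : Prop :=
  (ℓ.1 = none ∧ i < r ∧ (ℓ.2.card + 1 = i ∨ ℓ.2.card = i + 1)) ∨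
  (∃ γ, ℓ.1 = some γ ∧ ro γ = 4 ∧ (∀ t ∈ ℓ.2, (t : ℕ) ≠ 0) ∧
    (ℓ.2.card + 1 = i ∨ ℓ.2.card = i))

/-- The weight of the tuples of a letter. -/
def wtL (i : ℕ) (ℓ : Letter V r) : ℤ :=
  ℓ.2.card * ((r : ℤ) - i) - ((dL ℓ : ℤ) - ℓ.2.card) * i

end

end Pool.Agent.Lib.TwoPaths
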